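import Pool.Agent.Work.MP_a793bb_nt.EM.ElL

/-!
# Pairs with a given quotient

Proof. Let `(U, V)` be in the set, `U = r V`; `I, J` the ideals of `U, V` (`El_spec`), `kp p r = ex I p - ex J p`. Since `ex (numI r) p = max (kp p r) 0`, there is an ideal `G` with `I = numI r * G`,
`J = numI r⁻¹ * G` (`numI r ∣ I` by `dvd_of_ex`, and the quotient `G` satisfies `numI r⁻¹ * G = J` by `ideal_ext_of_ex`). So `log N G ≤ 2 a₀ - max (log N (numI r)) (log N (numI r⁻¹)) =: t`.
The number of the ideals `G` is at most `C exp t` (`card_idealsLe`). For a given `G` the elements `V` have the same valuations (`ex J p - 2 ex a p`, `J = numI r⁻¹ * G`) and are balanced within `2 C0` of the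
same value (`El_spec`), so there are at most `C` of them (`bal_count`); `U = r V`. If `r = 0` the set is empty.
-/

set_option autoImplicit false

namespace AbcEM

open Finset Pool.Agent.Work.MP_a793bb_nt Pool.Agent.Work.MP_a793bb_nt.BPlus NumberField
  IsDedekindDomain Height

/-- the common part `G` of the ideals of a pair with quotient `r` -/
private def AtG {K : Type*} [Field K] [NumberField K] (a : Ideal (𝓞 K)) (a₀ : ℝ) (r V : K)
    (G : Ideal (𝓞 K)) : Prop :=
  G ≠ ⊥ ∧ (∀ p : HeightOneSpectrum (𝓞 K), kp p V = (ex (numI r⁻¹ * G) p : ℤ) - 2 * ex a p) ∧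
    (∀ v : InfinitePlace K, |Real.log (v V) - (Real.log (Ideal.absNorm (numI r⁻¹ * G)) -
        2 * Real.log (Ideal.absNorm a)) / Module.finrank ℚ K| ≤ 2 * C0 K) ∧
    Real.log (Ideal.absNorm (numI r * G)) ≤ 2 * a₀ ∧
    Real.log (Ideal.absNorm (numI r⁻¹ * G)) ≤ 2 * a₀

private theorem exists_atG {K : Type*} [Field K] [NumberField K] {m a : Ideal (𝓞 K)} {a₀ : ℝ}
    (ha : a ∈ idS m a a₀) {r : K} (hr : r ≠ 0) {U V : K} (hU : U ∈ El m a a₀) (hV : V ∈ El m a a₀)
    (hUV : U = r * V) : ∃ G, AtG a a₀ r V G := by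
  obtain ⟨hU1, I, hI, hIn, hIk, -⟩ := El_spec ha hU
  obtain ⟨hV1, J, hJ, hJn, hJk, hJv⟩ := El_spec ha hV
  have hk : ∀ p : HeightOneSpectrum (𝓞 K), kp p r = (ex I p : ℤ) - ex J p := fun p => by
    have h1 := hIk p
    rw [hUV, kp_mul p hr hV1.1, hJk p] at h1
    omega
  have hn0 : numI r ≠ ⊥ := numI_ne_bot hr
  have hn1 : numI r⁻¹ ≠ ⊥ := numI_ne_bot (inv_ne_zero hr)
  have hd : numI r ∣ I := dvd_of_ex hn0 hI fun p => by
    rw [ex_numI' hr p, hk p]
    omega
  obtain ⟨G, hG⟩ := hd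
  have hG0 : G ≠ ⊥ := by
    rintro rfl
    rw [Ideal.mul_bot] at hG
    exact hI hG
  have hJG : numI r⁻¹ * G = J := by
    refine ideal_ext_of_ex (mul_ne_zero hn1 hG0) hJ fun p => ?_
    have h1 : ex I p = (kp p r).toNat + ex G p := by
      rw [hG, ex_mul hn0 hG0 p, ex_numI' hr p]
    rw [ex_mul hn1 hG0 p, ex_numI' (inv_ne_zero hr) p, kp_inv p hr]
    have h2 := hk p
    omega
  refine ⟨G, hG0, ?_, ?_, ?_, ?_⟩
  · rw [hJG]; exact hJk
  · rw [hJG]; exact hJv
  · rw [← hG]; exact hIn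
  · rw [hJG]; exact hJn

open Classical in
theorem ratio_mult (K : Type*) [Field K] [NumberField K] : ∃ C : ℝ, 1 ≤ C ∧
    ∀ (a₀ : ℝ) (m a : Ideal (𝓞 K)), 0 ≤ a₀ → a ∈ idS m a a₀ → ∀ r : K,
      (((El m a a₀ ×ˢ El m a a₀).filter fun q => q.1 = r * q.2).card : ℝ) ≤
        C * Real.exp (2 * a₀ - max (Real.log (Ideal.absNorm (numI r)))
          (Real.log (Ideal.absNorm (numI r⁻¹)))) := by
  obtain ⟨C1, hC1, h1⟩ := card_idealsLe K
  obtain ⟨C2, hC2, h2⟩ := bal_count K (2 * C0 K) (by have := C0_nonneg K; linarith)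
  refine ⟨C1 * C2, one_le_mul_of_one_le_of_one_le hC1 hC2, fun a₀ m a ha0 ha r => ?_⟩
  set T : ℝ := 2 * a₀ - max (Real.log (Ideal.absNorm (numI r))) (Real.log (Ideal.absNorm (numI r⁻¹)))
    with hT
  set P := (El m a a₀ ×ˢ El m a a₀).filter fun q => q.1 = r * q.2 with hP
  have hPm : ∀ q ∈ P, q.1 ∈ El m a a₀ ∧ q.2 ∈ El m a a₀ ∧ q.1 = r * q.2 := fun q hq => by
    rw [hP, Finset.mem_filter, Finset.mem_product] at hq
    exact ⟨hq.1.1, hq.1.2, hq.2⟩
  by_cases hr : r = 0
  · have h0 : P = ∅ := by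
      rw [Finset.eq_empty_iff_forall_notMem]
      intro q hq
      obtain ⟨q1, q2, q3⟩ := hPm q hq
      rw [hr, zero_mul] at q3
      exact (El_spec ha q1).1.1 q3
    rw [h0, Finset.card_empty, Nat.cast_zero]
    positivity
  let f : K × K → Ideal (𝓞 K) := fun q => if h : ∃ G, AtG a a₀ r q.2 G then h.choose else ⊤
  have hf : ∀ q ∈ P, AtG a a₀ r q.2 (f q) := fun q hq => by
    obtain ⟨q1, q2, q3⟩ := hPm q hq
    have h := exists_atG ha hr q1 q2 q3
    have h3 : f q = h.choose := dif_pos h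
    rw [h3]
    exact h.choose_spec
  have hn0 : numI r ≠ ⊥ := numI_ne_bot hr
  have hn1 : numI r⁻¹ ≠ ⊥ := numI_ne_bot (inv_ne_zero hr)
  have key : (P.card : ℝ) ≤ C1 * Real.exp T * C2 := by
    refine card_le_fib P (finite_idealsLe K (Real.exp T)).toFinset f (by linarith) ?_ ?_ ?_
    · intro q hq
      obtain ⟨hG0, -, -, h3, h4⟩ := hf q hq
      rw [Set.Finite.mem_toFinset]
      refine ⟨hG0, ?_⟩
      rw [log_absNorm_mul hn0 hG0] at h3
      rw [log_absNorm_mul hn1 hG0] at h4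
      have h5 : Real.log (Ideal.absNorm (f q) : ℝ) ≤ T := by
        rw [hT]
        have h6 : max (Real.log (Ideal.absNorm (numI r))) (Real.log (Ideal.absNorm (numI r⁻¹))) ≤
            2 * a₀ - Real.log (Ideal.absNorm (f q) : ℝ) := max_le (by linarith) (by linarith)
        linarith
      calc (Ideal.absNorm (f q) : ℝ) = Real.exp (Real.log (Ideal.absNorm (f q) : ℝ)) :=
            (Real.exp_log (absNorm_pos' hG0)).symm
        _ ≤ Real.exp T := Real.exp_le_exp.mpr h5
    · have h3 := h1 (Real.exp T) (Real.exp_pos T).le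
      rwa [Set.ncard_eq_toFinset_card _ (finite_idealsLe K (Real.exp T))] at h3
    · intro G _
      have hinj : Set.InjOn (fun q : K × K => q.2) (P.filter fun q => f q = G) := by
        intro q hq q' hq' h
        rw [Finset.mem_coe, Finset.mem_filter] at hq hq'
        have e1 := (hPm q hq.1).2.2
        have e2 := (hPm q' hq'.1).2.2
        have h' : q.2 = q'.2 := h
        refine Prod.ext ?_ h'
        rw [e1, e2, h']
      rw [← Finset.card_image_of_injOn hinj]
      refine h2 ((Real.log (Ideal.absNorm (numI r⁻¹ * G)) -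
        2 * Real.log (Ideal.absNorm a)) / Module.finrank ℚ K) _ ?_ ?_
      · intro x hx
        rw [Finset.mem_image] at hx
        obtain ⟨q, hq, rfl⟩ := hx
        rw [Finset.mem_filter] at hq
        have h3 := hf q hq.1
        rw [hq.2] at h3
        exact ⟨(El_spec ha (hPm q hq.1).2.1).1.1, h3.2.2.1⟩
      · intro x hx y hy p
        rw [Finset.mem_image] at hx hy
        obtain ⟨q, hq, rfl⟩ := hx
        obtain ⟨q', hq', rfl⟩ := hy
        rw [Finset.mem_filter] at hq hq'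
        have h3 := hf q hq.1
        have h4 := hf q' hq'.1
        rw [hq.2] at h3
        rw [hq'.2] at h4
        rw [h3.2.1 p, h4.2.1 p]
  calc (P.card : ℝ) ≤ C1 * Real.exp T * C2 := key
    _ = C1 * C2 * Real.exp T := by ring

end AbcEM
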