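import Pool.Agent.Work.MP_a793bb_nt.EM.KB

/-!
# Factorisations

Proof. If `∏ gn a (y i) = Ξ` then for all `p`, `∑_i ex (y i) p = kp p Ξ + k * ex a p` (`gn_spec`, `kp_prod`), so the ideal `W = ∏ y i` does not depend on `y` (`ideal_ext_of_ex`,
`ex_prod'`). Fix one `y₀` in the set, `W = ∏ y₀ i`, `N W ≤ exp (k c)`. All `y i` divide `W`, so with `card_dvd_le` (`δ = ε / (k^2 + 1)`) the number is at most
`(C N(W)^δ) ^ k ≤ C ^ k exp (δ k^2 c) ≤ C ^ k exp (ε L)`.
-/

set_option autoImplicit false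

namespace AbcEM

open Finset Pool.Agent.Work.MP_a793bb_nt Pool.Agent.Work.MP_a793bb_nt.BPlus NumberField
  IsDedekindDomain Height

private theorem ex_eq_of_prod {K : Type*} [Field K] [NumberField K] {k : ℕ}
    {m a : Ideal (𝓞 K)} {c : ℝ} (ha : a ≠ ⊥) {Ξ : K} (y : Fin k → Ideal (𝓞 K))
    (hy : ∀ i, y i ∈ idS m a c) (h : ∏ i, gn a (y i) = Ξ) (p : HeightOneSpectrum (𝓞 K)) :
    (ex (∏ i, y i) p : ℤ) = kp p Ξ + k * ex a p := by
  have h1 : ∀ i, y i ≠ ⊥ := fun i => (mem_idS.1 (hy i)).1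
  have h2 : ∀ i, gn a (y i) ≠ 0 ∧ kp p (gn a (y i)) = (ex (y i) p : ℤ) - ex a p := fun i => by
    have h3 := gn_spec ha (h1 i) (mem_idS.1 (hy i)).2.2.1
    exact ⟨h3.1, h3.2.1 p⟩
  rw [← h, kp_prod _ _ (fun i _ => (h2 i).1), ex_prod' _ _ (fun i _ => h1 i)]
  rw [Finset.sum_congr rfl fun i _ => (h2 i).2, Finset.sum_sub_distrib, Finset.sum_const,
    Finset.card_univ, Fintype.card_fin, nsmul_eq_mul]
  push_cast
  ring

open Classical in
theorem fac_count (K : Type*) [Field K] [NumberField K] (k : ℕ) (ε : ℝ) (hε : 0 < ε) :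
    ∃ C : ℝ, 1 ≤ C ∧ ∀ (L c : ℝ) (m a : Ideal (𝓞 K)), 0 ≤ c → c ≤ L → a ∈ idS m a c →
      ∀ Ξ : K, (((Fintype.piFinset fun _ : Fin k => idS m a c).filter
        fun y => ∏ i, gn a (y i) = Ξ).card : ℝ) ≤ C * Real.exp (ε * L) := by
  have hδ : 0 < ε / ((k : ℝ) ^ 2 + 1) := by positivity
  obtain ⟨C, hC, h⟩ := card_dvd_le K hδ
  refine ⟨C ^ k, one_le_pow₀ hC, fun L c m a hc hcL haS Ξ => ?_⟩
  have ha : a ≠ ⊥ := (mem_idS.1 haS).1
  set F := (Fintype.piFinset fun _ : Fin k => idS m a c).filter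
    fun y => ∏ i, gn a (y i) = Ξ with hF
  rcases F.eq_empty_or_nonempty with h0 | ⟨y₀, hy₀⟩
  · rw [h0, Finset.card_empty]
    push_cast
    positivity
  · rw [hF, Finset.mem_filter, Fintype.mem_piFinset] at hy₀
    have hy0 : ∀ i, y₀ i ≠ ⊥ := fun i => (mem_idS.1 (hy₀.1 i)).1
    have hW : ∏ i, y₀ i ≠ ⊥ := prod_ne_bot _ _ fun i _ => hy0 i
    obtain ⟨hfin, hcard⟩ := h _ hW
    have hsub : F ⊆ Fintype.piFinset fun _ : Fin k => hfin.toFinset := by
      intro y hy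
      rw [hF, Finset.mem_filter, Fintype.mem_piFinset] at hy
      have hyb : ∀ i, y i ≠ ⊥ := fun i => (mem_idS.1 (hy.1 i)).1
      have heq : ∏ i, y i = ∏ i, y₀ i := by
        refine ideal_ext_of_ex (prod_ne_bot _ _ fun i _ => hyb i) hW fun p => ?_
        have e1 := ex_eq_of_prod ha y hy.1 hy.2 p
        have e2 := ex_eq_of_prod ha y₀ hy₀.1 hy₀.2 p
        rw [← e2] at e1
        exact_mod_cast e1
      rw [Fintype.mem_piFinset]
      intro i
      rw [Set.Finite.mem_toFinset]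
      show y i ∣ ∏ i, y₀ i
      rw [← heq]
      exact Finset.dvd_prod_of_mem _ (Finset.mem_univ i)
    have h1 := Finset.card_le_card hsub
    rw [Fintype.card_piFinset, Finset.prod_const, Finset.card_univ, Fintype.card_fin] at h1
    have h2 : (F.card : ℝ) ≤ (hfin.toFinset.card : ℝ) ^ k := by exact_mod_cast h1
    rw [Set.ncard_eq_toFinset_card _ hfin] at hcard
    have hN : ((Ideal.absNorm (∏ i, y₀ i) : ℕ) : ℝ) ≤ Real.exp (k * c) := by
      rw [map_prod]
      push_cast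
      calc ∏ i, ((Ideal.absNorm (y₀ i) : ℕ) : ℝ) ≤ ∏ _i : Fin k, Real.exp c :=
            Finset.prod_le_prod (fun i _ => Nat.cast_nonneg _)
              fun i _ => (mem_idS.1 (hy₀.1 i)).2.1
        _ = Real.exp (k * c) := by
            rw [Finset.prod_const, Finset.card_univ, Fintype.card_fin, ← Real.exp_nat_mul]
    have hN2 : ((Ideal.absNorm (∏ i, y₀ i) : ℕ) : ℝ) ^ (ε / ((k : ℝ) ^ 2 + 1)) ≤
        Real.exp (k * c * (ε / ((k : ℝ) ^ 2 + 1))) := by
      refine (Real.rpow_le_rpow (Nat.cast_nonneg _) hN hδ.le).trans ?_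
      rw [← Real.exp_mul]
    calc (F.card : ℝ) ≤ (hfin.toFinset.card : ℝ) ^ k := h2
      _ ≤ (C * Real.exp (k * c * (ε / ((k : ℝ) ^ 2 + 1)))) ^ k :=
          pow_le_pow_left₀ (Nat.cast_nonneg _)
            (hcard.trans (mul_le_mul_of_nonneg_left hN2 (by linarith))) _
      _ = C ^ k * Real.exp (k * (k * c * (ε / ((k : ℝ) ^ 2 + 1)))) := by
          rw [mul_pow, ← Real.exp_nat_mul]
      _ ≤ C ^ k * Real.exp (ε * L) := by
          refine mul_le_mul_of_nonneg_left (Real.exp_le_exp.2 ?_) (by positivity)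
          have e1 : (k : ℝ) * (k * c * (ε / ((k : ℝ) ^ 2 + 1))) =
              ε * c * ((k : ℝ) ^ 2 / ((k : ℝ) ^ 2 + 1)) := by
            field_simp
          have e2 : (k : ℝ) ^ 2 / ((k : ℝ) ^ 2 + 1) ≤ 1 := by
            rw [div_le_one (by positivity)]
            linarith
          rw [e1]
          calc ε * c * ((k : ℝ) ^ 2 / ((k : ℝ) ^ 2 + 1)) ≤ ε * c * 1 :=
                mul_le_mul_of_nonneg_left e2 (by positivity)
            _ ≤ ε * L := by
                rw [mul_one]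
                exact mul_le_mul_of_nonneg_left hcL hε.le

end AbcEM
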