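import Pool.Agent.Work.MP_a793bb_nt.EM.RatC

/-!
# Quotients in a residue class

Proof. Sort by `j = ⌊log N(numI r⁻¹)⌋₊ ∈ {0, ..., ⌊ℓ⌋₊}`: `v = j + 1`, `u = ℓ` in `ratio_box`: at most `C (1 + exp (ℓ + ℓ + 1 - log N m))` for every `j` (`j + 1 ≤ ℓ + 1`). Sum over at most `ℓ + 1 ≤ L + 1 ≤ C exp (ε L)` values.
-/

set_option autoImplicit false

namespace AbcEM

open Finset Pool.Agent.Work.MP_a793bb_nt Pool.Agent.Work.MP_a793bb_nt.BPlus NumberField
  IsDedekindDomain Height

theorem ratio_class (K : Type*) [Field K] [NumberField K] (B : ℝ) (hB : 0 ≤ B) (ε : ℝ)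
    (hε : 0 < ε) : ∃ C : ℝ, 1 ≤ C ∧ ∀ (L ℓ : ℝ) (m : Ideal (𝓞 K)), 0 ≤ ℓ → ℓ ≤ L → m ≠ ⊥ →
      ∀ S : Finset K, (∀ r ∈ S, RatS B m ℓ r) → (∀ r ∈ S, ∀ r' ∈ S, CongM m r r') →
      (S.card : ℝ) ≤ C * Real.exp (ε * L) *
        (1 + Real.exp (2 * ℓ - Real.log (Ideal.absNorm m))) := by
  classical
  obtain ⟨C, hC1, hC⟩ := ratio_box K B hB
  have hC0 : 0 ≤ C := by linarith
  have he1 : (1 : ℝ) ≤ Real.exp 1 := Real.one_le_exp (by norm_num)
  have hε1 : (1 : ℝ) ≤ 1 / ε + 1 := by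
    have := (one_div_pos.mpr hε).le
    linarith
  refine ⟨(1 / ε + 1) * (C * Real.exp 1), ?_, ?_⟩
  · have h1 : (1 : ℝ) ≤ C * Real.exp 1 := by nlinarith
    nlinarith
  intro L ℓ m hℓ hL hm S hS hcong
  set E : ℝ := Real.exp (2 * ℓ - Real.log (Ideal.absNorm m)) with hE
  have hE0 : 0 < E := Real.exp_pos _
  have hexpL : L + 1 ≤ (1 / ε + 1) * Real.exp (ε * L) := by
    have h1 := Real.add_one_le_exp (ε * L)
    have h2 : L ≤ Real.exp (ε * L) / ε := by
      rw [le_div_iff₀ hε]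
      linarith [mul_comm ε L]
    have h3 : 1 ≤ Real.exp (ε * L) := Real.one_le_exp (by
      have : 0 ≤ L := le_trans hℓ hL
      positivity)
    have h4 : (1 / ε + 1) * Real.exp (ε * L) = Real.exp (ε * L) / ε + Real.exp (ε * L) := by ring
    rw [h4]
    linarith
  have key := card_le_fib S (Finset.range (⌊ℓ⌋₊ + 1))
    (fun r => ⌊Real.log (Ideal.absNorm (numI r⁻¹) : ℝ)⌋₊)
    (M1 := (1 / ε + 1) * Real.exp (ε * L)) (M2 := C * Real.exp 1 * (1 + E)) (by positivity)
    (by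
      intro r hr
      rw [Finset.mem_range]
      exact Nat.lt_succ_of_le (Nat.floor_le_floor (hS r hr).den))
    (by
      rw [Finset.card_range]
      push_cast
      have := Nat.floor_le hℓ
      linarith)
    (by
      intro j hj
      rw [Finset.mem_range] at hj
      have hj1 : (j : ℝ) ≤ ℓ := le_trans (by exact_mod_cast Nat.lt_succ_iff.mp hj) (Nat.floor_le hℓ)
      have h1 := hC ℓ ((j : ℝ) + 1) m hm
        (S.filter fun r => ⌊Real.log (Ideal.absNorm (numI r⁻¹) : ℝ)⌋₊ = j)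
        (by
          intro r hr
          rw [Finset.mem_filter] at hr
          have hr1 := hS r hr.1
          have hr0 : r ≠ 0 := hr1.un.1
          have hlog := log_absNorm_nonneg (numI_ne_bot (inv_ne_zero hr0))
          refine ⟨hr0, hr1.bal, hr1.num, ?_, ?_⟩
          · rw [← hr.2]
            have := Nat.floor_le hlog
            linarith
          · rw [← hr.2]
            exact (Nat.lt_floor_add_one _).le)
        (by
          intro r hr r' hr'
          exact hcong r (Finset.mem_filter.mp hr).1 r' (Finset.mem_filter.mp hr').1)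
      have h2 : Real.exp (ℓ + ((j : ℝ) + 1) - Real.log (Ideal.absNorm m)) ≤ Real.exp 1 * E := by
        rw [hE, ← Real.exp_add]
        apply Real.exp_le_exp.mpr
        linarith
      calc _ ≤ C * (1 + Real.exp (ℓ + ((j : ℝ) + 1) - Real.log (Ideal.absNorm m))) := h1
        _ ≤ C * (Real.exp 1 * (1 + E)) := by
          apply mul_le_mul_of_nonneg_left _ hC0
          linarith
        _ = C * Real.exp 1 * (1 + E) := by ring)
  calc (S.card : ℝ) ≤ (1 / ε + 1) * Real.exp (ε * L) * (C * Real.exp 1 * (1 + E)) := key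
    _ = (1 / ε + 1) * (C * Real.exp 1) * Real.exp (ε * L) * (1 + E) := by ring

end AbcEM
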