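import Pool.Agent.Work.MP_a793bb_nt.EM.PLa
import Pool.Agent.Work.MP_a793bb_nt.EM.PLb
import Pool.Agent.Work.MP_a793bb_nt.EM.AtN
import Pool.Agent.Work.MP_a793bb_nt.EM.FacL

/-!
# The fourth moment of the exponents one and three together

Notation: `N = log N(m)`, `φ (x, z) = red m (gn a x) * red m (gn b z) ^ 3`.
Proof. `E1` counts `(x₁,z₁), (x₂,z₂); (x₃,z₃), (x₄,z₄)` with `red (U) red (P) ^ 3 = red (V) red (Q) ^ 3`, `U = gn x₁ gn x₂`, `V = gn x₃ gn x₄ ∈ El m a a₀`, `P = gn z₁ gn z₂`, `Q = gn z₃ gn z₄ ∈ El m b w`. For given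
`(U, V, P, Q)` there are at most `(C exp (δ L)) ^ 4` tuples (`fac_count` with `k = 2`). So it suffices to bound the number of the `(U, V, P, Q) ∈ El × El × El × El` with
`red U * red P ^ 3 = red V * red Q ^ 3`. Put `r = U / V` (`El_ratio`: `RatS (4 C0) m (2 a₀) r`) and `μ r = max (log N (numI r)) (log N (numI r⁻¹))`. Sort by `j = ⌊μ r⌋₊ ∈ {0, ..., ⌊2 a₀⌋₊}`, and let `ℓ = min (j + 1) (2 a₀)`, so `RatS (4 C0) m ℓ r`,
`ℓ ≤ 2 a₀ ≤ 2 L` and `μ r ≥ ℓ - 1`. The map `(U, V, P, Q) ↦ (r, P, Q)`, whose fibres have at most `C exp (2 a₀ - μ r) ≤ C exp (2 a₀ - ℓ + 1)` elements (`ratio_mult`), has values in the set `S_j` of the triples with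
`red r * red P ^ 3 = red Q ^ 3` (`red_div`), `RatS (4 C0) m ℓ r`. `#S_j ≤ C exp (δ L) (exp (ℓ + 2 w) (1 + exp (ℓ + 6 w - N)))` (`triple_count`, with `2 L` instead of `L`) and `#S_j ≤ C exp (δ L) exp (4 w) (1 + exp (2 ℓ - N))` (`card_El_le` for `(P, Q)` and `ratio_class`
for given `(P, Q)`: the `r` have the same class). So `#S_j ≤ C exp (δ L) min (x + y) (z + t)` with `x = exp (ℓ + 2w)`, `y = exp (2 ℓ + 8 w - N)`, `z = exp (4 w)`, `t = exp (4 w + 2 ℓ - N)`, and
`min (x + y) (z + t) ≤ x + √(y z) + t = exp (ℓ + 2 w) + exp (ℓ + 6 w - N / 2) + exp (4 w + 2 ℓ - N)`. Multiply by `exp (2 a₀ - ℓ + 1)` and use `ℓ ≤ 2 a₀` in the last term: at most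
`e C (exp (2 a₀ + 2 w) + exp (2 a₀ + 6 w - N / 2) + exp (4 a₀ + 4 w - N))` for every `j`; the number of the `j` is at most `2 L + 1 ≤ C exp (δ L)`.
-/

set_option autoImplicit false

namespace AbcEM

open Finset Pool.Agent.Work.MP_a793bb_nt Pool.Agent.Work.MP_a793bb_nt.BPlus NumberField
  IsDedekindDomain Height

private theorem min_bound {u C x y z t s' : ℝ} (hC : 0 ≤ C) (hx : 0 ≤ x) (hy : 0 < y)
    (hz : 0 ≤ z) (ht : 0 ≤ t) (hs : 0 ≤ s') (hss : s' * s' = y * z) (h1 : u ≤ C * (x + y))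
    (h2 : u ≤ C * (z + t)) : u ≤ C * (x + s' + t) := by
  rcases le_or_gt y s' with h | h
  · refine h1.trans (mul_le_mul_of_nonneg_left ?_ hC)
    linarith
  · have h3 : z ≤ s' := by
      by_contra hc
      have hc' : s' < z := not_le.mp hc
      have : s' * s' < y * z := by
        calc s' * s' ≤ y * s' := mul_le_mul_of_nonneg_right h.le hs
          _ < y * z := mul_lt_mul_of_pos_left hc' hy
      linarith
    refine h2.trans (mul_le_mul_of_nonneg_left ?_ hC)
    linarith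

private noncomputable def muR {K : Type*} [Field K] [NumberField K] (r : K) : ℝ :=
  max (Real.log (Ideal.absNorm (numI r))) (Real.log (Ideal.absNorm (numI r⁻¹)))

open Classical in
private theorem fib_four {I F : Type*} (X Y : Finset (Fin 2 → I))
    (Z : Finset ((Fin 2 → I × I) × (Fin 2 → I × I))) (g h : (Fin 2 → I) → F) (x : ℝ) (U V P Q : F)
    (hZ : ∀ y ∈ Z, (fun i => (y.1 i).1) ∈ X ∧ (fun i => (y.2 i).1) ∈ X ∧
      (fun i => (y.1 i).2) ∈ Y ∧ (fun i => (y.2 i).2) ∈ Y)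
    (hX : ∀ u : F, (((X.filter fun y => g y = u).card : ℕ) : ℝ) ≤ x)
    (hY : ∀ u : F, (((Y.filter fun y => h y = u).card : ℕ) : ℝ) ≤ x) :
    (((Z.filter fun y => (g fun i => (y.1 i).1, g fun i => (y.2 i).1, h fun i => (y.1 i).2,
      h fun i => (y.2 i).2) = (U, V, P, Q)).card : ℕ) : ℝ) ≤ x ^ 4 := by
  have h0 : 0 ≤ x := (Nat.cast_nonneg _).trans (hX U)
  have h1 : (Z.filter fun y => (g fun i => (y.1 i).1, g fun i => (y.2 i).1, h fun i => (y.1 i).2,
      h fun i => (y.2 i).2) = (U, V, P, Q)).card ≤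
      ((X.filter fun y => g y = U) ×ˢ (X.filter fun y => g y = V) ×ˢ
        (Y.filter fun y => h y = P) ×ˢ (Y.filter fun y => h y = Q)).card := by
    refine Finset.card_le_card_of_injOn (fun y => ((fun i => (y.1 i).1), (fun i => (y.2 i).1),
        (fun i => (y.1 i).2), (fun i => (y.2 i).2))) ?_ ?_
    · intro y hy
      rw [Finset.mem_coe, Finset.mem_filter] at hy
      obtain ⟨hy1, hy4⟩ := hy
      obtain ⟨p4, q4, p5, q5⟩ := hZ y hy1
      simp only [Prod.mk.injEq] at hy4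
      rw [Finset.mem_coe]
      simp only [Finset.mem_product, Finset.mem_filter]
      exact ⟨⟨p4, hy4.1⟩, ⟨q4, hy4.2.1⟩, ⟨p5, hy4.2.2.1⟩, ⟨q5, hy4.2.2.2⟩⟩
    · intro y _ y' _ hyy
      simp only [Prod.mk.injEq, funext_iff] at hyy
      obtain ⟨e1, e2, e3, e4⟩ := hyy
      exact Prod.ext (funext fun i => Prod.ext (e1 i) (e3 i))
        (funext fun i => Prod.ext (e2 i) (e4 i))
  have h2 : (((Z.filter fun y => (g fun i => (y.1 i).1, g fun i => (y.2 i).1,
      h fun i => (y.1 i).2, h fun i => (y.2 i).2) = (U, V, P, Q)).card : ℕ) : ℝ) ≤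
      ((((X.filter fun y => g y = U) ×ˢ (X.filter fun y => g y = V) ×ˢ
        (Y.filter fun y => h y = P) ×ˢ (Y.filter fun y => h y = Q)).card : ℕ) : ℝ) :=
    Nat.cast_le.mpr h1
  refine h2.trans ?_
  rw [Finset.card_product, Finset.card_product, Finset.card_product]
  push_cast
  have a1 := hX U
  have a2 := hX V
  have a3 := hY P
  have a4 := hY Q
  calc (((X.filter fun y => g y = U).card : ℕ) : ℝ) * (((X.filter fun y => g y = V).card : ℕ) *
        (((Y.filter fun y => h y = P).card : ℕ) * ((Y.filter fun y => h y = Q).card : ℕ))) ≤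
        x * (x * (x * x)) := by
          refine mul_le_mul a1 (mul_le_mul a2 (mul_le_mul a3 a4 (Nat.cast_nonneg _) h0)
            (by positivity) h0) (by positivity) h0
    _ = x ^ 4 := by ring

/-- the quadruples -/
private theorem quad_count (K : Type*) [Field K] [NumberField K] (δ : ℝ) (hδ : 0 < δ) :
    ∃ C : ℝ, 1 ≤ C ∧ ∀ (L a₀ w : ℝ) (m a b : Ideal (𝓞 K)), 0 ≤ a₀ → a₀ ≤ L → 0 ≤ w → w ≤ L →
      m ≠ ⊥ → a ∈ idS m a a₀ → b ∈ idS m b w → ∀ T : Finset (K × K × K × K),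
      (∀ q ∈ T, q.1 ∈ El m a a₀ ∧ q.2.1 ∈ El m a a₀ ∧ q.2.2.1 ∈ El m b w ∧ q.2.2.2 ∈ El m b w ∧
        red m q.1 * red m q.2.2.1 ^ 3 = red m q.2.1 * red m q.2.2.2 ^ 3) →
      (T.card : ℝ) ≤ C * Real.exp (2 * δ * L) * (Real.exp (2 * a₀ + 2 * w) +
          Real.exp (2 * a₀ + 6 * w - Real.log (Ideal.absNorm m) / 2) +
          Real.exp (4 * a₀ + 4 * w - Real.log (Ideal.absNorm m))) := by
  classical
  have hB : (0 : ℝ) ≤ 4 * C0 K := mul_nonneg (by norm_num) (C0_nonneg K)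
  obtain ⟨C3, hC3, h3⟩ := card_El_le K
  obtain ⟨C6, hC6, h6⟩ := ratio_mult K
  obtain ⟨C7, hC7, h7⟩ := triple_count K (4 * C0 K) hB (δ / 2) (by positivity)
  obtain ⟨C8, hC8, h8⟩ := ratio_class K (4 * C0 K) hB (δ / 2) (by positivity)
  set C9 : ℝ := C7 + C3 * C3 * C8 with hC9
  have hC9' : 1 ≤ C9 := by
    have : 0 ≤ C3 * C3 * C8 := by positivity
    linarith
  have he1 : (1 : ℝ) ≤ Real.exp 1 := Real.one_le_exp (by norm_num)
  have hd2 : (1 : ℝ) ≤ 2 / δ + 1 := by
    have : 0 ≤ 2 / δ := by positivity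
    linarith
  refine ⟨(2 / δ + 1) * (C9 * C6 * Real.exp 1), one_le_mul_of_one_le_of_one_le hd2
    (one_le_mul_of_one_le_of_one_le (one_le_mul_of_one_le_of_one_le hC9' hC6) he1), ?_⟩
  intro L a₀ w m a b ha₀ haL hw hwL hm ha hb T hT
  set N : ℝ := Real.log (Ideal.absNorm m) with hN
  have hL : 0 ≤ L := ha₀.trans haL
  have hUV : ∀ q ∈ T, RatS (4 * C0 K) m (2 * a₀) (q.1 / q.2.1) := fun q hq =>
    El_ratio ha (hT q hq).1 (hT q hq).2.1
  have hmu : ∀ q ∈ T, muR (q.1 / q.2.1) ≤ 2 * a₀ := fun q hq =>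
    max_le (hUV q hq).num (hUV q hq).den
  have hmu0 : ∀ q ∈ T, 0 ≤ muR (q.1 / q.2.1) := fun q hq =>
    le_max_of_le_left (log_absNorm_nonneg (numI_ne_bot (hUV q hq).un.1))
  set G : ℝ := Real.exp (2 * a₀ + 2 * w) + Real.exp (2 * a₀ + 6 * w - N / 2) +
    Real.exp (4 * a₀ + 4 * w - N) with hG
  have hG0 : 0 ≤ G := by positivity
  have hmain := card_le_fib T (Finset.range (⌊2 * a₀⌋₊ + 1))
    (fun q => ⌊muR (q.1 / q.2.1)⌋₊) (M1 := (2 / δ + 1) * Real.exp (δ * L))
    (M2 := C9 * Real.exp (δ * L) * (C6 * Real.exp 1) * G) (by positivity) ?_ ?_ ?_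
  · refine hmain.trans (le_of_eq ?_)
    have : Real.exp (2 * δ * L) = Real.exp (δ * L) * Real.exp (δ * L) := by
      rw [← Real.exp_add]
      ring_nf
    rw [this]
    ring
  · intro q hq
    rw [Finset.mem_range]
    exact Nat.lt_succ_of_le (Nat.floor_le_floor (hmu q hq))
  · rw [Finset.card_range]
    push_cast
    have e1 : (⌊2 * a₀⌋₊ : ℝ) ≤ 2 * a₀ := Nat.floor_le (by linarith)
    have e2 : δ * L + 1 ≤ Real.exp (δ * L) := Real.add_one_le_exp _
    have e3 : 2 / δ * (δ * L + 1) ≤ 2 / δ * Real.exp (δ * L) :=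
      mul_le_mul_of_nonneg_left e2 (by positivity)
    have e4 : 2 / δ * (δ * L + 1) = 2 * L + 2 / δ := by
      field_simp
    have e5 : 0 ≤ δ * L := by positivity
    have e6 : 0 ≤ 2 / δ := by positivity
    nlinarith
  · intro j _
    set Tj := T.filter fun q => ⌊muR (q.1 / q.2.1)⌋₊ = j with hTj
    have hTjm : ∀ q ∈ Tj, q ∈ T ∧ ⌊muR (q.1 / q.2.1)⌋₊ = j := fun q hq =>
      Finset.mem_filter.mp hq
    set ℓ : ℝ := min ((j : ℝ) + 1) (2 * a₀) with hℓ
    have hℓ0 : 0 ≤ ℓ := le_min (by positivity) (by linarith)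
    have hℓa : ℓ ≤ 2 * a₀ := min_le_right _ _
    have hℓL : ℓ ≤ 2 * L := hℓa.trans (by linarith)
    have hmuj : ∀ q ∈ Tj, muR (q.1 / q.2.1) ≤ ℓ ∧ ℓ - 1 ≤ muR (q.1 / q.2.1) := by
      intro q hq
      obtain ⟨hqT, hqj⟩ := hTjm q hq
      constructor
      · refine le_min ?_ (hmu q hqT)
        rw [← hqj]
        exact (Nat.lt_floor_add_one _).le
      · have e1 : (⌊muR (q.1 / q.2.1)⌋₊ : ℝ) ≤ muR (q.1 / q.2.1) := Nat.floor_le (hmu0 q hqT)
        rw [hqj] at e1
        have e2 : ℓ ≤ (j : ℝ) + 1 := min_le_left _ _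
        linarith
    have hRat : ∀ q ∈ Tj, RatS (4 * C0 K) m ℓ (q.1 / q.2.1) := by
      intro q hq
      have h := hUV q (hTjm q hq).1
      exact ⟨h.un, h.bal, (le_max_left _ _).trans (hmuj q hq).1,
        (le_max_right _ _).trans (hmuj q hq).1⟩
    set Sj : Finset (K × K × K) := Tj.image fun q => (q.1 / q.2.1, q.2.2.1, q.2.2.2) with hSj
    have hSjm : ∀ x ∈ Sj, ∃ q ∈ Tj, (q.1 / q.2.1, q.2.2.1, q.2.2.2) = x := fun x hx =>
      Finset.mem_image.mp hx
    have hSprop : ∀ q ∈ Sj, RatS (4 * C0 K) m ℓ q.1 ∧ q.2.1 ∈ El m b w ∧ q.2.2 ∈ El m b w ∧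
        red m q.1 * red m q.2.1 ^ 3 = red m q.2.2 ^ 3 := by
      intro x hx
      obtain ⟨q, hq, rfl⟩ := hSjm x hx
      obtain ⟨t1, t2, t3, t4, t5⟩ := hT q (hTjm q hq).1
      refine ⟨hRat q hq, t3, t4, ?_⟩
      have u1 := (El_spec ha t1).1
      have u2 := (El_spec ha t2).1
      simp only
      rw [red_div hm u1 u2, div_mul_eq_mul_div, t5, mul_comm (red m q.2.1), mul_div_assoc,
        div_self', mul_one]
    have bd1 : (Sj.card : ℝ) ≤ C9 * Real.exp (δ * L) *
        (Real.exp (ℓ + 2 * w) + Real.exp (2 * ℓ + 8 * w - N)) := by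
      have e1 := h7 (2 * L) ℓ w m b hℓ0 hℓL hw (by linarith) hm hb Sj hSprop
      have e2 : Real.exp (δ / 2 * (2 * L)) = Real.exp (δ * L) := by ring_nf
      have e3 : Real.exp (ℓ + 2 * w) * (1 + Real.exp (ℓ + 6 * w - N)) =
          Real.exp (ℓ + 2 * w) + Real.exp (2 * ℓ + 8 * w - N) := by
        rw [mul_add, mul_one, ← Real.exp_add]
        ring_nf
      rw [e2, ← hN, e3] at e1
      refine e1.trans ?_
      have : C7 ≤ C9 := by
        have : 0 ≤ C3 * C3 * C8 := by positivity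
        linarith
      exact mul_le_mul_of_nonneg_right (mul_le_mul_of_nonneg_right this (Real.exp_pos _).le)
        (by positivity)
    have bd2 : (Sj.card : ℝ) ≤ C9 * Real.exp (δ * L) *
        (Real.exp (4 * w) + Real.exp (4 * w + 2 * ℓ - N)) := by
      have e1 := card_le_fib Sj (El m b w ×ˢ El m b w) (fun q => q.2)
        (M1 := (C3 * Real.exp (2 * w)) * (C3 * Real.exp (2 * w)))
        (M2 := C8 * Real.exp (δ * L) * (1 + Real.exp (2 * ℓ - N))) (by positivity) ?_ ?_ ?_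
      · have e2 : (C3 * Real.exp (2 * w)) * (C3 * Real.exp (2 * w)) *
            (C8 * Real.exp (δ * L) * (1 + Real.exp (2 * ℓ - N))) =
            C3 * C3 * C8 * Real.exp (δ * L) *
              (Real.exp (4 * w) + Real.exp (4 * w + 2 * ℓ - N)) := by
          have a1 : Real.exp (4 * w) = Real.exp (2 * w) * Real.exp (2 * w) := by
            rw [← Real.exp_add]
            ring_nf
          have a2 : Real.exp (4 * w + 2 * ℓ - N) =
              Real.exp (2 * w) * Real.exp (2 * w) * Real.exp (2 * ℓ - N) := by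
            rw [← Real.exp_add, ← Real.exp_add]
            ring_nf
          rw [a1, a2]
          ring
        rw [e2] at e1
        refine e1.trans ?_
        have : C3 * C3 * C8 ≤ C9 := by linarith
        exact mul_le_mul_of_nonneg_right (mul_le_mul_of_nonneg_right this (Real.exp_pos _).le)
          (by positivity)
      · intro q hq
        rw [Finset.mem_product]
        exact ⟨(hSprop q hq).2.1, (hSprop q hq).2.2.1⟩
      · rw [Finset.card_product, Nat.cast_mul]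
        exact mul_le_mul (h3 m b w) (h3 m b w) (Nat.cast_nonneg _) (by positivity)
      · rintro ⟨P0, Q0⟩ hPQ
        rw [Finset.mem_product] at hPQ
        set F := Sj.filter fun q => q.2 = (P0, Q0) with hF
        have hFm : ∀ q ∈ F, q ∈ Sj ∧ q.2 = (P0, Q0) := fun q hq => Finset.mem_filter.mp hq
        have e3 : F.card = (F.image Prod.fst).card := by
          rw [Finset.card_image_of_injOn]
          intro x hx y hy hxy
          exact Prod.ext hxy (((hFm x hx).2).trans ((hFm y hy).2).symm)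
        rw [e3]
        have e4 := h8 (2 * L) ℓ m hℓ0 hℓL hm (F.image Prod.fst) ?_ ?_
        · have e5 : Real.exp (δ / 2 * (2 * L)) = Real.exp (δ * L) := by ring_nf
          rw [e5] at e4
          exact e4
        · intro r hr
          rw [Finset.mem_image] at hr
          obtain ⟨q, hq, rfl⟩ := hr
          exact (hSprop q (hFm q hq).1).1
        · intro r hr r' hr'
          rw [Finset.mem_image] at hr hr'
          obtain ⟨q, hq, rfl⟩ := hr
          obtain ⟨q', hq', rfl⟩ := hr'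
          obtain ⟨s1, s2, s3, s4⟩ := hSprop q (hFm q hq).1
          obtain ⟨s1', s2', s3', s4'⟩ := hSprop q' (hFm q' hq').1
          refine (red_eq_iff hm s1.un s1'.un).mp ?_
          rw [(hFm q hq).2] at s4
          rw [(hFm q' hq').2] at s4'
          simp only at s4 s4'
          rw [← s4'] at s4
          exact mul_right_cancel s4
    have bd3 : (Sj.card : ℝ) ≤ C9 * Real.exp (δ * L) * (Real.exp (ℓ + 2 * w) +
        Real.exp (ℓ + 6 * w - N / 2) + Real.exp (4 * w + 2 * ℓ - N)) := by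
      refine min_bound (y := Real.exp (2 * ℓ + 8 * w - N)) (z := Real.exp (4 * w)) (by positivity)
        (by positivity) (Real.exp_pos _) (by positivity) (by positivity) (by positivity) ?_
        bd1 bd2
      rw [← Real.exp_add, ← Real.exp_add]
      ring_nf
    have bd4 := card_le_fib Tj Sj (fun q => (q.1 / q.2.1, q.2.2.1, q.2.2.2))
      (M2 := C6 * Real.exp (2 * a₀ - ℓ + 1)) (by positivity)
      (fun q hq => Finset.mem_image_of_mem _ hq) bd3 ?_
    · refine bd4.trans ?_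
      have a1 : Real.exp (ℓ + 2 * w) * Real.exp (2 * a₀ - ℓ + 1) =
          Real.exp 1 * Real.exp (2 * a₀ + 2 * w) := by
        rw [← Real.exp_add, ← Real.exp_add]
        ring_nf
      have a2 : Real.exp (ℓ + 6 * w - N / 2) * Real.exp (2 * a₀ - ℓ + 1) =
          Real.exp 1 * Real.exp (2 * a₀ + 6 * w - N / 2) := by
        rw [← Real.exp_add, ← Real.exp_add]
        ring_nf
      have a3 : Real.exp (4 * w + 2 * ℓ - N) * Real.exp (2 * a₀ - ℓ + 1) ≤
          Real.exp 1 * Real.exp (4 * a₀ + 4 * w - N) := by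
        rw [← Real.exp_add, ← Real.exp_add]
        apply Real.exp_le_exp.mpr
        linarith
      calc C9 * Real.exp (δ * L) * (Real.exp (ℓ + 2 * w) + Real.exp (ℓ + 6 * w - N / 2) +
            Real.exp (4 * w + 2 * ℓ - N)) * (C6 * Real.exp (2 * a₀ - ℓ + 1))
          = C9 * Real.exp (δ * L) * C6 * (Real.exp (ℓ + 2 * w) * Real.exp (2 * a₀ - ℓ + 1) +
            Real.exp (ℓ + 6 * w - N / 2) * Real.exp (2 * a₀ - ℓ + 1) +
            Real.exp (4 * w + 2 * ℓ - N) * Real.exp (2 * a₀ - ℓ + 1)) := by ring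
        _ ≤ C9 * Real.exp (δ * L) * C6 * (Real.exp 1 * Real.exp (2 * a₀ + 2 * w) +
            Real.exp 1 * Real.exp (2 * a₀ + 6 * w - N / 2) +
            Real.exp 1 * Real.exp (4 * a₀ + 4 * w - N)) := by
              refine mul_le_mul_of_nonneg_left ?_ (by positivity)
              rw [a1, a2]
              linarith
        _ = C9 * Real.exp (δ * L) * (C6 * Real.exp 1) * G := by
              rw [hG]
              ring
    · intro x hx
      obtain ⟨q0, hq0, rfl⟩ := hSjm x hx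
      have e1 : (Tj.filter fun q => (q.1 / q.2.1, q.2.2.1, q.2.2.2) =
          (q0.1 / q0.2.1, q0.2.2.1, q0.2.2.2)).card ≤
          ((El m a a₀ ×ˢ El m a a₀).filter fun q => q.1 = q0.1 / q0.2.1 * q.2).card := by
        refine Finset.card_le_card_of_injOn (fun q => (q.1, q.2.1)) ?_ ?_
        · intro q hq
          rw [Finset.mem_coe, Finset.mem_filter] at hq
          rw [Finset.mem_coe, Finset.mem_filter, Finset.mem_product]
          have hqT := hT q (hTjm q hq.1).1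
          have u2 := (El_spec ha hqT.2.1).1
          have := congrArg Prod.fst hq.2
          simp only at this
          refine ⟨⟨hqT.1, hqT.2.1⟩, ?_⟩
          simp only
          rw [← this, div_mul_cancel₀ _ u2.1]
        · intro q hq q' hq' hqq
          rw [Finset.mem_coe, Finset.mem_filter] at hq hq'
          have h1 := congrArg Prod.snd (hq.2.trans hq'.2.symm)
          simp only [Prod.mk.injEq] at hqq h1
          exact Prod.ext hqq.1 (Prod.ext hqq.2 (Prod.ext h1.1 h1.2))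
      have e2 := h6 a₀ m a ha₀ ha (q0.1 / q0.2.1)
      have e3 : C6 * Real.exp (2 * a₀ - muR (q0.1 / q0.2.1)) ≤
          C6 * Real.exp (2 * a₀ - ℓ + 1) := by
        refine mul_le_mul_of_nonneg_left (Real.exp_le_exp.mpr ?_) (by linarith)
        have := (hmuj q0 hq0).2
        linarith
      refine le_trans ?_ (e2.trans e3)
      exact_mod_cast e1

theorem attach_le (K : Type*) [Field K] [NumberField K] (ε : ℝ) (hε : 0 < ε) :
    ∃ C : ℝ, 1 ≤ C ∧ ∀ (L a₀ w : ℝ) (m a b : Ideal (𝓞 K)), 0 ≤ a₀ → a₀ ≤ L → 0 ≤ w → w ≤ L →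
      m ≠ ⊥ → a ∈ idS m a a₀ → b ∈ idS m b w →
      (E1 (idS m a a₀ ×ˢ idS m b w)
        (fun x => red m (gn a x.1) * red m (gn b x.2) ^ 3) 2 : ℝ) ≤
        C * Real.exp (ε * L) * (Real.exp (2 * a₀ + 2 * w) +
          Real.exp (2 * a₀ + 6 * w - Real.log (Ideal.absNorm m) / 2) +
          Real.exp (4 * a₀ + 4 * w - Real.log (Ideal.absNorm m))) := by
  classical
  have hδ : 0 < ε / 6 := by positivity
  obtain ⟨Cf, hCf, hf⟩ := fac_count K 2 (ε / 6) hδ
  obtain ⟨Cq, hCq, hq⟩ := quad_count K (ε / 6) hδ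
  refine ⟨Cq * Cf ^ 4, one_le_mul_of_one_le_of_one_le hCq (one_le_pow₀ hCf), ?_⟩
  intro L a₀ w m a b ha₀ haL hw hwL hm ha hb
  set N : ℝ := Real.log (Ideal.absNorm m) with hN
  set T : Finset (K × K × K × K) := (El m a a₀ ×ˢ El m a a₀ ×ˢ El m b w ×ˢ El m b w).filter
    fun q => red m q.1 * red m q.2.2.1 ^ 3 = red m q.2.1 * red m q.2.2.2 ^ 3 with hT
  have hTc := hq L a₀ w m a b ha₀ haL hw hwL hm ha hb T ?_
  · have hprod : ∀ y ∈ Fintype.piFinset (fun _ : Fin 2 => idS m a a₀ ×ˢ idS m b w),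
        (∏ i, (red m (gn a (y i).1) * red m (gn b (y i).2) ^ 3)) =
          red m (∏ i, gn a (y i).1) * red m (∏ i, gn b (y i).2) ^ 3 ∧
        (∏ i, gn a (y i).1) ∈ El m a a₀ ∧ (∏ i, gn b (y i).2) ∈ El m b w ∧
        (fun i => (y i).1) ∈ Fintype.piFinset (fun _ : Fin 2 => idS m a a₀) ∧
        (fun i => (y i).2) ∈ Fintype.piFinset (fun _ : Fin 2 => idS m b w) := by
      intro y hy
      rw [Fintype.mem_piFinset] at hy
      have hy' : ∀ i, (y i).1 ∈ idS m a a₀ ∧ (y i).2 ∈ idS m b w := fun i =>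
        Finset.mem_product.mp (hy i)
      have m1 : (fun i => (y i).1) ∈ Fintype.piFinset (fun _ : Fin 2 => idS m a a₀) :=
        Fintype.mem_piFinset.mpr fun i => (hy' i).1
      have m2 : (fun i => (y i).2) ∈ Fintype.piFinset (fun _ : Fin 2 => idS m b w) :=
        Fintype.mem_piFinset.mpr fun i => (hy' i).2
      refine ⟨?_, ?_, ?_, m1, m2⟩
      · rw [red_prod hm Finset.univ _ (fun i _ => unitAt_gn' ha (hy' i).1),
          red_prod hm Finset.univ _ (fun i _ => unitAt_gn' hb (hy' i).2),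
          Finset.prod_mul_distrib, Finset.prod_pow]
      · rw [El, Finset.mem_image]
        exact ⟨_, m1, rfl⟩
      · rw [El, Finset.mem_image]
        exact ⟨_, m2, rfl⟩
    rw [E1]
    have hfa : ∀ Ξ : K, (((Fintype.piFinset fun _ : Fin 2 => idS m a a₀).filter
        fun y => ∏ i, gn a (y i) = Ξ).card : ℝ) ≤ Cf * Real.exp (ε / 6 * L) :=
      fun Ξ => hf L a₀ m a ha₀ haL ha Ξ
    have hfb : ∀ Ξ : K, (((Fintype.piFinset fun _ : Fin 2 => idS m b w).filter
        fun y => ∏ i, gn b (y i) = Ξ).card : ℝ) ≤ Cf * Real.exp (ε / 6 * L) :=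
      fun Ξ => hf L w m b hw hwL hb Ξ
    have hmain := card_le_fib
      ((Fintype.piFinset (fun _ : Fin 2 => idS m a a₀ ×ˢ idS m b w) ×ˢ
        Fintype.piFinset (fun _ : Fin 2 => idS m a a₀ ×ˢ idS m b w)).filter
        fun y => ∏ i, (red m (gn a (y.1 i).1) * red m (gn b (y.1 i).2) ^ 3) =
          ∏ i, (red m (gn a (y.2 i).1) * red m (gn b (y.2 i).2) ^ 3)) T
      (fun y => (∏ i, gn a (y.1 i).1, ∏ i, gn a (y.2 i).1, ∏ i, gn b (y.1 i).2,
        ∏ i, gn b (y.2 i).2)) (M2 := (Cf * Real.exp (ε / 6 * L)) ^ 4) (by positivity) ?_ hTc ?_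
    · refine le_trans (le_of_eq ?_) (hmain.trans (le_of_eq ?_))
      · congr!
      have : Real.exp (ε * L) = Real.exp (2 * (ε / 6) * L) * Real.exp (ε / 6 * L) ^ 4 := by
        rw [← Real.exp_nat_mul, ← Real.exp_add]
        push_cast
        ring_nf
      rw [this]
      ring
    · intro y hy
      rw [Finset.mem_filter, Finset.mem_product] at hy
      obtain ⟨⟨hy1, hy2⟩, hy3⟩ := hy
      obtain ⟨p1, p2, p3, -, -⟩ := hprod y.1 hy1
      obtain ⟨q1, q2, q3, -, -⟩ := hprod y.2 hy2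
      rw [hT, Finset.mem_filter]
      simp only [Finset.mem_product]
      refine ⟨⟨p2, q2, p3, q3⟩, ?_⟩
      rw [← p1, ← q1]
      exact hy3
    · rintro ⟨U, V, P, Q⟩ -
      exact fib_four (Fintype.piFinset fun _ : Fin 2 => idS m a a₀)
        (Fintype.piFinset fun _ : Fin 2 => idS m b w) _
        (fun y => ∏ i, gn a (y i)) (fun y => ∏ i, gn b (y i)) _ U V P Q
        (fun y hy => by
          rw [Finset.mem_filter, Finset.mem_product] at hy
          obtain ⟨⟨hy1, hy2⟩, -⟩ := hy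
          obtain ⟨-, -, -, p4, p5⟩ := hprod y.1 hy1
          obtain ⟨-, -, -, q4, q5⟩ := hprod y.2 hy2
          exact ⟨p4, q4, p5, q5⟩) hfa hfb
  · intro q hq
    rw [hT, Finset.mem_filter] at hq
    simp only [Finset.mem_product] at hq
    exact ⟨hq.1.1, hq.1.2.1, hq.1.2.2.1, hq.1.2.2.2, hq.2⟩

end AbcEM
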