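import Pool.Agent.Work.MP_a793bb_nt.EM.KB

/-!
# Balanced elements with the same valuations

Proof. Fix `x₀ ∈ S`. For `x ∈ S`, `x / x₀` has all `kp p = 0`, so it is a unit `u` (`exists_unit_of_kp_eq_zero`) with `log (v u) ≤ 2 B` for all `v`. `card_units_le` with `R = 2 B`.
-/

set_option autoImplicit false

namespace AbcEM

open Finset Pool.Agent.Work.MP_a793bb_nt Pool.Agent.Work.MP_a793bb_nt.BPlus NumberField
  IsDedekindDomain Height

theorem bal_count (K : Type*) [Field K] [NumberField K] (B : ℝ) (hB : 0 ≤ B) : ∃ C : ℝ, 1 ≤ C ∧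
    ∀ (T : ℝ) (S : Finset K),
      (∀ x ∈ S, x ≠ 0 ∧ ∀ v : InfinitePlace K, |Real.log (v x) - T| ≤ B) →
      (∀ x ∈ S, ∀ y ∈ S, ∀ p : HeightOneSpectrum (𝓞 K), kp p x = kp p y) →
      (S.card : ℝ) ≤ C := by
  classical
  obtain ⟨C, _, h⟩ := card_units_le K
  obtain ⟨hfin, hcard⟩ := h (2 * B) (by positivity)
  refine ⟨max 1 (C * (1 + 2 * B) ^ (NumberField.Units.rank K)), le_max_left _ _,
    fun T S h1 h2 => ?_⟩
  refine le_trans ?_ (le_max_right _ _)
  refine le_trans ?_ hcard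
  rw [Nat.cast_le]
  rcases S.eq_empty_or_nonempty with hS | ⟨x₀, hx₀⟩
  · rw [hS, Finset.card_empty]
    exact Nat.zero_le _
  · have hx0 := (h1 x₀ hx₀).1
    have key : ∀ x ∈ S, ∃ u : (𝓞 K)ˣ, x / x₀ = u := by
      intro x hx
      refine exists_unit_of_kp_eq_zero (div_ne_zero (h1 x hx).1 hx0) fun p => ?_
      rw [kp_div p (h1 x hx).1 hx0, h2 x hx x₀ hx₀ p, sub_self]
    choose! f hf using key
    rw [Set.ncard_eq_toFinset_card _ hfin]
    refine Finset.card_le_card_of_injOn f (fun x hx => ?_) (fun x hx y hy hxy => ?_)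
    · have hx' : x ∈ S := hx
      rw [Finset.mem_coe, Set.Finite.mem_toFinset]
      intro v
      rw [← hf x hx', map_div₀, Real.log_div]
      · have e1 := abs_le.1 ((h1 x hx').2 v)
        have e2 := abs_le.1 ((h1 x₀ hx₀).2 v)
        linarith [e1.2, e2.1]
      · exact (map_ne_zero v).2 (h1 x hx').1
      · exact (map_ne_zero v).2 hx0
    · have e1 := hf x hx
      have e2 := hf y hy
      rw [hxy, ← e2] at e1
      exact (div_left_inj' hx0).1 e1

end AbcEM
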