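import Pool.Agent.Work.MP_a793bb_nt.EM.KB

/-!
# Lower bound for the norm

Proof. Product formula (`prodFormula_log` in `KeyLemma.lean`): with a finite set `F` of primes containing all `p` with `av p x ≠ 1` and all `p` dividing `m` or `D`,
`∑_v mult v * log (v x) = - ∑_{p ∈ F} log (av p x) = ∑_{p ∈ F} kp p x * lN p` (`av_eq_zpow`: `av p x = Np p ^ (- kp p x)`, `lN p = log (Np p)`)
`≥ ∑_{p ∈ F} (ex m p - ex D p) lN p = log (N m) - log (N D)` (`absNorm_prod_ex`). Exponentiate.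
-/

set_option autoImplicit false

namespace AbcEM

open Finset Pool.Agent.Work.MP_a793bb_nt Pool.Agent.Work.MP_a793bb_nt.BPlus NumberField
  IsDedekindDomain Height

variable {K : Type*} [Field K] [NumberField K]

private theorem nl_sum_ex {b : Ideal (𝓞 K)} (hb : b ≠ ⊥) (T : Finset (HeightOneSpectrum (𝓞 K)))
    (hT : ∀ p : HeightOneSpectrum (𝓞 K), p.asIdeal ∣ b → p ∈ T) :
    ∑ p ∈ T, (ex b p : ℝ) * lN p = Real.log (Ideal.absNorm b : ℝ) := by
  rw [absNorm_prod_ex hb T hT, Real.log_prod]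
  · refine Finset.sum_congr rfl fun p _ => ?_
    rw [Real.log_pow]
    rfl
  · intro p _
    have := two_le_Np p
    positivity

theorem norm_ge {m D : Ideal (𝓞 K)} (hm : m ≠ ⊥) (hD : D ≠ ⊥) {x : K} (hx : x ≠ 0)
    (h : ∀ p : HeightOneSpectrum (𝓞 K), (ex m p : ℤ) - ex D p ≤ kp p x) :
    Real.exp (Real.log (Ideal.absNorm m) - Real.log (Ideal.absNorm D)) ≤
      ∏ v : InfinitePlace K, v x ^ v.mult := by
  classical
  set F : Finset (HeightOneSpectrum (𝓞 K)) :=
    (finite_av_ne_one hx).toFinset ∪ ((finite_dvd hm).toFinset ∪ (finite_dvd hD).toFinset) with hF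
  have hF1 : ∀ p, av p x ≠ 1 → p ∈ F := fun p hp =>
    Finset.mem_union_left _ ((Set.Finite.mem_toFinset _).mpr hp)
  have hF2 : ∀ p : HeightOneSpectrum (𝓞 K), p.asIdeal ∣ m → p ∈ F := fun p hp =>
    Finset.mem_union_right _ (Finset.mem_union_left _ ((Set.Finite.mem_toFinset _).mpr hp))
  have hF3 : ∀ p : HeightOneSpectrum (𝓞 K), p.asIdeal ∣ D → p ∈ F := fun p hp =>
    Finset.mem_union_right _ (Finset.mem_union_right _ ((Set.Finite.mem_toFinset _).mpr hp))
  have h0 := prodFormula_log hx F hF1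
  have h1 : ∑ p ∈ F, Real.log (av p x) = -∑ p ∈ F, (kp p x : ℝ) * lN p := by
    rw [← Finset.sum_neg_distrib]
    refine Finset.sum_congr rfl fun p _ => ?_
    rw [log_av hx]
    ring
  have h2 : ∑ p ∈ F, (ex m p : ℝ) * lN p - ∑ p ∈ F, (ex D p : ℝ) * lN p ≤
      ∑ p ∈ F, (kp p x : ℝ) * lN p := by
    rw [← Finset.sum_sub_distrib]
    refine Finset.sum_le_sum fun p _ => ?_
    rw [← sub_mul]
    refine mul_le_mul_of_nonneg_right ?_ (lN_pos p).le
    exact_mod_cast h p
  rw [nl_sum_ex hm F hF2, nl_sum_ex hD F hF3] at h2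
  have hpos : ∀ v : InfinitePlace K, 0 < v x ^ v.mult := fun v =>
    pow_pos (InfinitePlace.pos_iff.mpr hx) _
  have h3 : Real.log (∏ v : InfinitePlace K, v x ^ v.mult) =
      ∑ v : InfinitePlace K, (v.mult : ℝ) * Real.log (v x) := by
    rw [Real.log_prod fun v _ => (hpos v).ne']
    exact Finset.sum_congr rfl fun v _ => Real.log_pow _ _
  rw [← Real.exp_log (Finset.prod_pos fun v _ => hpos v)]
  apply Real.exp_le_exp.2
  rw [h3]
  linarith

end AbcEM
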