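import Pool.Agent.Work.MP_a793bb_nt.EM.Pack
import Pool.Agent.Work.MP_a793bb_nt.EM.NormL

/-!
# Congruent elements in a box

Proof. Let `x ≠ y` be in `S`. For all `p`: `ex m p - ex D p ≤ kp p (x - y)`: if `p ∣ m` then `ex D p = 0` (`CopI m D`) and `CongM` gives `ex m p ≤ kp p (x - y)`; otherwise
`ex m p = 0` (`ex_eq_zero`) and `kp p (x - y) ≥ min (kp p x) (kp p y) ≥ - ex D p` (`AbcOrdM.kp_sub_ge`). By `norm_ge`,
`M := exp (log N m - log N D) ≤ ∏ v (x - y) ^ mult`. All `v x ≤ T' := exp (T / d + B)`. `pack_count` gives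
`#S ≤ C (1 + T' ^ d / M) = C (1 + exp (T + d B + log N D - log N m)) ≤ C exp (d B) (1 + exp (T + log N D - log N m))`.
-/

set_option autoImplicit false

namespace AbcEM

open Finset Pool.Agent.Work.MP_a793bb_nt Pool.Agent.Work.MP_a793bb_nt.BPlus NumberField
  IsDedekindDomain Height

theorem box_count (K : Type*) [Field K] [NumberField K] (B : ℝ) (hB : 0 ≤ B) : ∃ C : ℝ, 1 ≤ C ∧
    ∀ (T : ℝ) (m D : Ideal (𝓞 K)), m ≠ ⊥ → D ≠ ⊥ → CopI m D → ∀ S : Finset K,
      (∀ x ∈ S, x ≠ 0 ∧
        (∀ v : InfinitePlace K, Real.log (v x) ≤ T / Module.finrank ℚ K + B) ∧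
        ∀ p : HeightOneSpectrum (𝓞 K), -(ex D p : ℤ) ≤ kp p x) →
      (∀ x ∈ S, ∀ y ∈ S, CongM m x y) →
      (S.card : ℝ) ≤ C * (1 + Real.exp (T + Real.log (Ideal.absNorm D) -
        Real.log (Ideal.absNorm m))) := by
  obtain ⟨C, hC1, hC⟩ := pack_count K
  have hd : 0 < Module.finrank ℚ K := Module.finrank_pos
  have hd' : (0 : ℝ) < Module.finrank ℚ K := by exact_mod_cast hd
  set d := Module.finrank ℚ K with hdd
  have hE : 1 ≤ Real.exp (d * B) := Real.one_le_exp (by positivity)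
  refine ⟨C * Real.exp (d * B), ?_, ?_⟩
  · nlinarith
  intro T m D hm hD hcop S hS hcong
  have key := hC (Real.exp (T / d + B))
    (Real.exp (Real.log (Ideal.absNorm m) - Real.log (Ideal.absNorm D)))
    (Real.exp_pos _) (Real.exp_pos _) S ?_ ?_
  · have e1 : Real.exp (T / d + B) ^ d /
        Real.exp (Real.log (Ideal.absNorm m) - Real.log (Ideal.absNorm D)) =
        Real.exp (d * B) * Real.exp (T + Real.log (Ideal.absNorm D) -
          Real.log (Ideal.absNorm m)) := by
      rw [← Real.exp_nat_mul, ← Real.exp_sub, ← Real.exp_add]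
      congr 1
      field_simp
      ring
    rw [e1] at key
    refine key.trans ?_
    rw [mul_assoc]
    refine mul_le_mul_of_nonneg_left ?_ (by linarith)
    have h2 := Real.exp_pos (T + Real.log (Ideal.absNorm D) - Real.log (Ideal.absNorm m))
    nlinarith
  · intro x hx v
    obtain ⟨hx0, hxv, -⟩ := hS x hx
    have hpos : 0 < v x := v.pos_iff.mpr hx0
    rw [← Real.exp_log hpos]
    exact Real.exp_le_exp.mpr (hxv v)
  · intro x hx y hy hxy
    have hsub : x - y ≠ 0 := sub_ne_zero.mpr hxy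
    refine norm_ge hm hD hsub fun p => ?_
    by_cases hp : p.asIdeal ∣ m
    · rw [hcop p hp]
      rcases hcong x hx y hy with h | h
      · exact absurd h hxy
      · simpa using h p hp
    · rw [ex_eq_zero hp]
      have h1 := AbcOrdM.kp_sub_ge p (hS x hx).1 (hS y hy).1 hsub
      have h2 := (hS x hx).2.2 p
      have h3 := (hS y hy).2.2 p
      have h4 := le_min h2 h3
      push_cast
      linarith

end AbcEM
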