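import Mathlib

/-!
# Certificates for the linear programming problem: definitions

Variables are `w j c` (`j : Fin 3` a side, `c : Fin 5` a class: exponents `1, 2, 3, 4` and `≥ 5`). A vector `v : List ℤ` with
16 entries is the affine form `v_0 w 0 0 + v_1 w 0 1 + ... + v_14 w 2 4 + v_15`.
-/

set_option autoImplicit false

namespace AbcEM

/-- affine forms -/
abbrev Vc := List ℤ

/-- the values of the variables, followed by `1` -/
def xs (w : Fin 3 → Fin 5 → ℝ) : List ℝ :=
  [w 0 0, w 0 1, w 0 2, w 0 3, w 0 4, w 1 0, w 1 1, w 1 2, w 1 3, w 1 4,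
    w 2 0, w 2 1, w 2 2, w 2 3, w 2 4, 1]

/-- value of an affine form -/
def ev (v : Vc) (x : List ℝ) : ℝ := ((v.zip x).map fun p => (p.1 : ℝ) * p.2).sum

def vadd (a b : Vc) : Vc := List.zipWith (· + ·) a b

def vsmul (k : ℤ) (a : Vc) : Vc := a.map (k * ·)

/-- the form with coefficient `f j c` at `w j c` and constant term `k` -/
def vmk (f : ℕ → ℕ → ℤ) (k : ℤ) : Vc :=
  [f 0 0, f 0 1, f 0 2, f 0 3, f 0 4, f 1 0, f 1 1, f 1 2, f 1 3, f 1 4,
    f 2 0, f 2 1, f 2 2, f 2 3, f 2 4, k]

/-- Codes of the bounds. `H n u sel`: exponent `n + 1`, distinguished side `u`, selected classes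
(bit `5 j + c` of `sel`). `E r p c`: class `c` of side `r` left out, side `p`. `M q T`: classes `T` (bits) of
side `q`. `R q a`: side `q`, pattern (bit `j` of `a` for the side `j`, `true` is pattern B). -/
inductive CT
  | H (n u sel : ℕ)
  | E (r p c : ℕ)
  | M (q T : ℕ)
  | R (q a : ℕ)
  deriving DecidableEq

/-- the part of the cost which comes from the max-terms of the side `j` -/
def rms (q a j : ℕ) : List (ℕ × Vc) :=
  let mu : ℕ → ℕ → ℤ := fun i c => if i = q ∧ 1 ≤ c then -((c : ℤ) + 1) else 0
  if a.testBit j then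
    [(2, vmk (fun i c => mu i c + if i = j ∧ c = 0 then 2 else 0) 0),
     (1, vmk (fun i c => mu i c + if i = j ∧ c = 1 then 4 else 0) 0),
     (1, vmk (fun i c => mu i c + if i = j ∧ c = 2 then 4 else 0) 0)]
  else
    [(1, vmk (fun i c => mu i c + if i = j ∧ c = 2 then 8 else 0) 0),
     (2, vmk (fun i c => mu i c + if i = j ∧ (c = 0 ∨ c = 2) then 2 else 0) 0),
     (2, vmk (fun i c => mu i c + if i = j ∧ c = 1 then 2 else 0) 0)]

/-- `(den, lin, ms)`: `den` times the cost is `lin + ∑ k * max 0 L` over the `(k, L)` in `ms` -/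
def forms : CT → ℕ × Vc × List (ℕ × Vc)
  | .H n u sel => (n + 1,
      vmk (fun j c => if sel.testBit (5 * j + c) then 0 else (n : ℤ) + 1) 0,
      [(1, vmk (fun j c => if sel.testBit (5 * j + c) then
          (if j = u then ((n : ℤ) + 1) * (c + 1) else (c : ℤ) + 1) else 0) (-((n : ℤ) + 1)))])
  | .E r p c => (2,
      vmk (fun j c' => if j = p ∨ (j = r ∧ c' ≠ c) then 1 else if j = r then 0 else 2) 0,
      [(1, vmk (fun j c' => if j = p ∨ (j = r ∧ c' ≠ c) then 1 else if j = r then 0 else -2) 0)])
  | .M q T => (2,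
      vmk (fun j c => if j = q then (if T.testBit c then 2 else 0) else 1) 0,
      [(1, vmk (fun j c => if j = q then (if T.testBit c then -((c : ℤ) + 1) else 0) else 1) 0)])
  | .R q a => (8,
      vmk (fun j c => if j = q then (if 1 ≤ c then 8 else 0) else if 3 ≤ c then 8 else 4) 0,
      (rms q a ((q + 1) % 3)) ++ (rms q a ((q + 2) % 3)))

/-- Certificates. `leaf ms`: nonnegative multipliers of the facts. `split L t₁ t₂`: the cases `L ≤ 0`, `0 ≤ L`.
`use T sg t`: the bound `T`; for every max-term a sign and the proof of the sign (`a` times the fact number `i` is `b`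
times the form or its negative). -/
inductive Cert
  | leaf (ms : List ℕ)
  | split (L : Vc) (t₁ t₂ : Cert)
  | use (T : CT) (sg : List (Bool × ℕ × ℕ × ℕ)) (t : Cert)

/-- facts: `(true, v)` is `0 < v`, `(false, v)` is `0 ≤ v` -/
abbrev Fact := Bool × Vc

def zeroV : Vc := vmk (fun _ _ => 0) 0

/-- `∑ m_i v_i` -/
def comb : List ℕ → List Fact → Vc
  | [], _ => zeroV
  | _ :: _, [] => zeroV
  | m :: ms, f :: fs => if m = 0 then comb ms fs else vadd (vsmul m f.2) (comb ms fs)

/-- some strict fact has a positive multiplier -/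
def anyStrict : List ℕ → List Fact → Bool
  | [], _ => false
  | _ :: _, [] => false
  | m :: ms, f :: fs => (m != 0 && f.1) || anyStrict ms fs

def signsOk (facts : List Fact) : List (ℕ × Vc) → List (Bool × ℕ × ℕ × ℕ) → Bool
  | [], [] => true
  | (_, L) :: ms, (b, i, x, y) :: sg =>
      (match facts[i]? with
        | none => false
        | some f => x != 0 && y != 0 &&
            decide (vsmul x f.2 = vsmul (if b then (y : ℤ) else -(y : ℤ)) L)) &&
        signsOk facts ms sg
  | _, _ => false

/-- the linear form of the bound once the signs are known -/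
def withSigns (lin : Vc) : List (ℕ × Vc) → List (Bool × ℕ × ℕ × ℕ) → Vc
  | (k, L) :: ms, (b, _) :: sg => if b then vadd (vsmul k L) (withSigns lin ms sg)
      else withSigns lin ms sg
  | _, _ => lin

def bvec (kd : ℕ) (kv : Vc) (T : CT) (sg : List (Bool × ℕ × ℕ × ℕ)) : Vc :=
  vadd (vsmul kd (withSigns (forms T).2.1 (forms T).2.2 sg)) (vsmul (-((forms T).1 : ℤ)) kv)

/-- validity of a code -/
def okT : CT → Bool
  | .H n u sel => decide (n < 4) && decide (u < 3) && decide (sel < 2 ^ 15) &&
      ((List.range 3).all fun j => (List.range 5).all fun c =>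
        !(sel.testBit (5 * j + c)) || decide (j = u) || (decide (c < 4) && decide ((n + 1) ∣ (c + 1)))) &&
      (!(sel.testBit (5 * u + 4)) || ((List.range 3).all fun j => (List.range 5).all fun c =>
        sel.testBit (5 * j + c) == decide (j = u)))
  | .E r p c => decide (r < 3) && decide (p < 3) && decide (r ≠ p) && decide (1 ≤ c) && decide (c ≤ 3)
  | .M q T => decide (q < 3) && decide (T < 32)
  | .R q a => decide (q < 3) && decide (a < 8)

/-- The checker: the facts together with `kv / kd < cost T` for all valid `T` are contradictory. -/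
def chk (kd : ℕ) (kv : Vc) : Cert → List Fact → Bool
  | .leaf ms, facts => anyStrict ms facts && (comb ms facts).all (fun z => decide (z ≤ 0))
  | .split L t₁ t₂, facts => decide (L.length = 16) && chk kd kv t₁ ((false, vsmul (-1) L) :: facts) &&
      chk kd kv t₂ ((false, L) :: facts)
  | .use T sg t, facts => okT T && signsOk facts (forms T).2.2 sg &&
      chk kd kv t ((true, bvec kd kv T sg) :: facts)

/-- The basic facts: the sizes of the sides are at most `1`, the total weights of the sides decrease, the total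
weight lies between `l1n / l1d` and `l2n / l2d`. -/
def baseF (l1n l1d l2n l2d : ℕ) : List Fact :=
  [(false, vmk (fun j c => if j = 0 then -((c : ℤ) + 1) else 0) 1),
   (false, vmk (fun j c => if j = 1 then -((c : ℤ) + 1) else 0) 1),
   (false, vmk (fun j c => if j = 2 then -((c : ℤ) + 1) else 0) 1),
   (false, vmk (fun j _ => if j = 0 then 1 else if j = 1 then -1 else 0) 0),
   (false, vmk (fun j _ => if j = 1 then 1 else if j = 2 then -1 else 0) 0),
   (false, vmk (fun _ _ => (l1d : ℤ)) (-(l1n : ℤ))),
   (false, vmk (fun _ _ => -(l2d : ℤ)) (l2n : ℤ))]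

end AbcEM
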