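import Pool.Agent.Work.MP_a793bb_nt.EM.CDefs

set_option autoImplicit false
set_option maxRecDepth 100000

namespace AbcEM

/-- certificate B -/
def certB : Cert :=
  .use (.H 0 0 31) [(false,0,1,1)] (.split [1,0,0,0,0,1,0,0,0,0,1,0,0,0,0,-1] (.use (.H 0 0 1057)
  [(false,0,1,1)] (.split [1,0,0,0,0,1,0,0,0,0,0,2,0,0,0,-1] (.use (.H 0 0 2081) [(false,0,1,1)]
  (.split [0,1,0,0,0,0,1,0,0,0,1,2,0,0,0,-1] (.use (.H 1 2 3138) [(false,0,2,1)] (.split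
  [1,1,1,1,1,0,0,0,0,-5,1,1,1,1,1,0] (.use (.M 1 16) [(false,0,1,1)] (.leaf
  [7,0,0,0,0,0,0,0,4,0,27,0,0,36,0,9])) (.use (.M 1 16) [(true,0,1,1)] (.split
  [0,0,1,0,0,0,0,1,0,0,0,2,0,0,0,-1] (.use (.H 2 2 2180) [(false,0,3,1)] (.split
  [0,0,1,0,0,1,2,0,0,0,0,0,1,0,0,-1] (.use (.H 2 1 4196) [(false,0,3,1)] (.split
  [1,0,0,0,0,0,2,0,0,0,1,0,0,0,0,-1] (.use (.H 0 0 1089) [(false,0,1,1)] (.split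
  [1,2,0,0,0,0,0,1,0,0,0,0,1,0,0,-1] (.use (.H 2 0 4227) [(false,0,3,1)] (.split
  [1,1,1,1,1,0,0,0,-4,0,1,1,1,1,1,0] (.use (.M 1 8) [(false,0,1,1)] (.split
  [1,1,1,1,1,1,1,1,0,1,-2,-2,-2,-2,-2,0] (.use (.E 1 0 3) [(false,0,1,1)] (.leaf
  [2,0,1,0,0,0,0,0,0,0,0,0,0,0,0,0,0,0,0,0,0,0,0,0,3,15,0,12])) (.use (.E 1 0 3) [(true,0,1,1)]
  (.leaf [5,0,8,0,0,0,0,0,0,0,0,0,0,0,0,0,0,0,0,0,10,0,18,0,0,0,0,54])))) (.use (.M 1 8)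
  [(true,0,1,1)] (.split [0,0,0,1,0,0,0,0,1,0,1,2,3,0,0,-1] (.use (.H 3 2 7432) [(false,0,4,1)]
  (.split [0,0,0,0,-5,1,1,1,1,1,1,1,1,1,1,0] (.use (.M 0 16) [(false,0,1,1)] (.leaf
  [2,0,0,0,1,0,0,0,0,0,0,0,0,0,0,0,0,0,0,0,0,0,0,9,0,0,12,15,0,3])) (.use (.M 0 16)
  [(true,0,1,1)] (.split [0,0,0,-4,-5,1,1,1,1,1,1,1,1,1,1,0] (.use (.M 0 24) [(false,0,1,1)]
  (.split [1,1,1,0,1,-2,-2,-2,-2,-2,1,1,1,1,1,0] (.use (.E 0 2 3) [(false,0,1,1)] (.leaf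
  [1,0,2,0,0,0,0,0,0,0,0,0,0,0,0,0,0,0,0,0,0,0,0,0,0,0,0,9,0,0,21,6,0,3])) (.leaf
  [90,9,0,6,0,2,0,0,0,0,0,0,0,0,0,0,0,0,0,0,0,0,0,0,0,0,0,0,24,4,89,0,52]))) (.use (.M 0 24)
  [(true,0,1,1)] (.use (.H 0 0 1057) [(false,23,1,1)] (.split [0,0,1,0,0,0,0,1,0,0,1,0,0,0,0,-1]
  (.use (.H 2 2 1156) [(false,0,3,1)] (.split [0,0,0,0,0,0,0,1,0,0,1,2,0,0,0,-1] (.use (.H 2 2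
  3200) [(false,0,3,1)] (.split [0,0,1,0,0,0,0,1,0,0,1,2,0,0,0,-1] (.use (.H 2 2 3204)
  [(false,0,3,1)] (.use (.H 2 0 4227) [(false,16,3,1)] (.split
  [0,0,1,0,0,1,2,3,0,0,0,0,1,0,0,-1] (.use (.H 2 1 4324) [(false,0,3,1)] (.split
  [0,1,0,2,0,0,1,0,2,0,1,2,0,0,0,-1] (.use (.H 1 2 3402) [(false,0,2,1)] (.split
  [1,2,0,0,0,1,2,0,0,0,1,2,0,0,0,-1] (.use (.H 0 0 3171) [(false,0,1,1)] (.split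
  [0,0,-3,-4,-5,1,1,1,1,1,1,1,1,1,1,0] (.use (.M 0 28) [(false,0,1,1)] (.split
  [1,1,0,1,1,-2,-2,-2,-2,-2,1,1,1,1,1,0] (.use (.E 0 2 2) [(false,0,1,1)] (.split
  [1,1,1,1,1,0,0,0,-4,-5,1,1,1,1,1,0] (.use (.M 1 24) [(false,0,1,1)] (.leaf
  [4,0,2,0,1,0,0,0,0,0,0,0,0,0,0,0,0,0,0,0,1,0,0,0,0,0,1,0,0,0,0,0,0,0,0,0,0,0,0,0,0,0,0,0,0,0,18,0,0,27,0,18]))
  (.use (.M 1 24) [(true,0,1,1)] (.use (.H 2 2 3204) [(false,14,3,1)] (.split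
  [0,0,0,1,0,1,0,0,4,0,0,0,0,1,0,-1] (.use (.H 3 1 8488) [(false,0,4,1)] (.use (.H 1 2 3402)
  [(false,12,2,1)] (.split [0,0,1,0,0,1,0,0,4,0,0,0,0,0,0,-1] (.use (.H 2 1 292) [(false,0,3,1)]
  (.split [0,0,0,1,0,1,2,3,0,0,0,0,0,1,0,-1] (.use (.H 3 1 8424) [(false,0,4,1)] (.split
  [1,1,1,1,1,1,1,1,1,1,0,0,0,0,-5,0] (.use (.M 2 16) [(false,0,1,1)] (.leaf
  [36,0,0,0,0,0,0,0,0,0,15,0,6,0,18,0,0,0,0,0,10,0,0,0,0,0,0,0,0,0,18,0,0,0,0,0,0,0,0,0,0,0,0,0,0,0,0,0,0,0,0,0,0,0,0,0,0,162,0,0,0,270]))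
  (.use (.M 2 16) [(true,0,1,1)] (.split [1,2,3,0,0,1,0,0,0,0,1,0,0,0,0,-1] (.use (.H 0 0 1063)
  [(false,0,1,1)] (.split [1,1,1,1,1,1,1,1,1,1,0,0,0,-4,-5,0] (.use (.M 2 24) [(false,0,1,1)]
  (.split [0,0,-3,0,0,1,1,1,1,1,1,1,1,1,1,0] (.use (.M 0 4) [(false,0,1,1)] (.leaf
  [30,0,18,0,0,0,0,0,0,0,0,0,0,0,0,0,15,0,30,0,0,0,0,0,0,0,10,0,0,0,0,0,0,0,0,0,0,0,0,0,0,0,0,0,0,0,0,0,0,0,0,0,0,0,0,0,0,0,0,0,0,0,0,108,0,0,0,324]))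
  (.use (.M 0 4) [(true,0,1,1)] (.split [1,2,3,0,0,0,0,0,1,0,0,0,0,1,0,-1] (.use (.H 3 0 8455)
  [(false,0,4,1)] (.split [1,2,0,0,0,1,2,3,0,0,1,0,0,0,0,-1] (.use (.H 0 0 1251) [(false,0,1,1)]
  (.leaf
  [120,0,21,0,24,0,180,0,0,0,0,0,9,0,0,0,0,0,0,0,84,0,0,0,0,0,0,0,0,0,32,0,0,0,0,0,0,0,0,0,84,0,0,0,0,0,0,0,0,0,0,0,0,0,0,0,0,0,0,0,0,0,0,0,0,0,0,1080,0,0,0,1080]))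
  (.use (.H 0 0 1251) [(true,0,1,1)] (.leaf
  [36,0,3,0,12,0,120,0,0,0,0,0,12,0,0,0,0,0,0,0,6,0,0,0,84,0,0,0,0,0,28,0,0,0,0,0,0,0,0,0,12,0,0,0,0,0,0,0,0,0,0,0,0,0,0,0,0,0,0,0,0,0,0,0,0,324,324,540,0,0,0,432]))))
  (.use (.H 3 0 8455) [(true,0,4,1)] (.leaf
  [24,0,150,0,168,0,0,0,0,0,21,0,0,0,0,0,0,0,42,0,0,0,48,0,0,0,0,0,14,0,0,0,0,0,0,0,0,0,0,0,0,0,0,0,21,0,0,0,0,0,0,0,0,0,0,0,0,0,0,0,0,0,0,0,0,756,0,0,0,2268]))))))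
  (.use (.M 2 24) [(true,0,1,1)] (.split [0,1,0,2,0,1,2,3,0,0,0,1,0,2,0,-1] (.use (.H 1 1 10474)
  [(false,0,2,1)] (.use (.E 0 2 2) [(false,19,1,1)] (.split [1,2,0,0,0,1,2,3,0,0,1,2,3,0,0,-1]
  (.use (.H 0 0 7395) [(false,0,1,1)] (.leaf
  [24,0,18,3,0,12,0,6,0,0,0,0,0,0,0,0,0,0,0,12,0,0,0,0,0,0,0,0,0,2,0,0,0,0,0,0,0,0,0,12,0,0,0,0,0,6,0,0,0,0,0,0,0,0,0,0,0,0,0,0,0,0,0,0,0,0,0,0,0,0,324]))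
  (.use (.H 0 0 7395) [(true,0,1,1)] (.split [1,2,3,0,0,0,0,1,0,0,0,0,1,0,0,-1] (.use (.H 2 0
  4231) [(false,0,3,1)] (.split [1,2,0,0,0,1,2,3,0,0,1,2,0,0,0,-1] (.use (.H 0 0 3299)
  [(false,0,1,1)] (.split [1,0,0,4,0,0,1,0,2,0,0,1,0,2,0,-1] (.use (.H 1 0 10569)
  [(false,0,2,1)] (.leaf
  [9,0,114,0,30,0,42,0,0,12,0,54,0,0,0,0,0,0,0,0,0,18,0,0,0,94,0,0,0,6,0,0,0,0,0,48,0,0,0,0,0,0,0,0,0,78,0,0,0,0,0,20,0,0,0,0,0,0,0,0,0,0,0,0,0,0,0,0,0,0,0,0,0,0,1134,0,2322]))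
  (.use (.H 1 0 10569) [(true,0,2,1)] (.leaf
  [3,0,12,0,0,0,0,0,0,0,0,9,0,0,0,0,0,0,0,0,0,0,0,0,0,8,0,0,0,0,0,0,0,0,0,4,0,0,0,0,0,0,0,0,0,15,0,0,0,0,0,7,0,0,0,0,0,0,0,0,0,0,0,0,0,0,0,0,0,0,0,0,0,0,108,0,270]))))
  (.use (.H 0 0 3299) [(true,0,1,1)] (.leaf
  [8,0,0,0,0,0,0,4,0,2,0,0,0,0,0,0,0,0,0,0,0,0,2,0,0,0,0,6,0,0,0,0,0,2,0,0,0,0,0,0,0,0,0,4,0,0,0,0,0,1,0,0,0,0,0,0,0,0,0,0,0,0,0,0,0,0,0,0,0,18,0,18,18,0,162]))))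
  (.use (.H 2 0 4231) [(true,0,3,1)] (.leaf
  [4,0,12,0,0,3,0,6,0,0,0,0,0,0,0,0,0,3,0,0,6,18,0,0,0,30,0,0,0,0,0,14,0,0,0,0,0,0,0,0,0,6,0,0,0,0,0,0,0,0,0,0,0,0,0,0,0,0,0,0,0,0,0,0,0,0,108,0,0,0,216,0,540])))))))
  (.use (.H 1 1 10474) [(true,0,2,1)] (.split [0,0,1,0,0,0,0,1,0,0,1,2,0,4,0,-1] (.use (.H 2 2
  11396) [(false,0,3,1)] (.leaf
  [4,0,3,0,6,0,0,0,0,0,0,0,0,0,3,0,0,0,6,0,0,0,15,0,0,0,0,0,6,0,0,0,0,0,0,0,0,0,15,0,0,0,0,0,0,0,0,0,0,0,0,0,0,0,0,0,0,0,0,0,0,0,0,0,0,0,90,45,0,306]))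
  (.use (.H 2 2 11396) [(true,0,3,1)] (.split [1,2,0,0,0,0,1,0,2,0,0,1,0,2,0,-1] (.use (.H 1 0
  10563) [(false,0,2,1)] (.leaf
  [183,0,132,0,174,0,678,0,0,0,0,0,132,0,0,0,24,0,0,232,414,0,0,0,522,0,0,0,0,0,238,0,0,0,0,0,0,0,0,0,591,0,0,0,0,0,0,0,0,0,0,0,0,0,0,0,0,0,0,0,0,0,0,0,0,0,0,0,0,0,0,21708]))
  (.leaf
  [108,0,0,3,0,12,0,0,0,0,0,0,0,0,0,3,0,0,0,9,0,0,0,18,0,0,0,0,0,4,0,0,0,0,0,0,0,0,0,3,0,0,0,0,0,0,0,0,0,0,0,0,0,0,0,0,0,0,0,0,0,0,0,0,54,0,0,0,0,0,324])))))))))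
  (.use (.H 0 0 1063) [(true,0,1,1)] (.split [0,0,-3,0,0,1,1,1,1,1,1,1,1,1,1,0] (.use (.M 0 4)
  [(false,0,1,1)] (.leaf
  [9,0,0,0,0,0,0,0,0,0,0,0,0,0,6,0,6,0,0,0,0,0,0,0,4,0,0,0,0,0,0,0,0,0,0,0,0,0,0,0,0,0,0,0,0,0,0,0,0,0,0,0,0,0,0,0,0,0,0,0,0,0,0,81,0,108]))
  (.leaf
  [162,36,0,0,0,0,0,0,0,0,0,0,0,2,0,12,0,18,0,0,0,0,0,2,0,0,0,0,0,0,0,0,0,0,0,0,0,0,0,1,0,0,0,0,0,0,0,0,0,0,0,0,0,0,0,0,0,0,0,0,0,0,0,0,540])))))))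
  (.use (.H 3 1 8424) [(true,0,4,1)] (.leaf
  [45,0,0,0,0,0,0,60,0,0,0,0,168,0,0,0,0,0,52,0,0,0,0,0,0,0,0,0,168,0,0,0,0,0,0,0,0,0,0,0,0,0,0,0,0,0,0,0,0,0,0,0,0,0,0,540,2376,0,0,3456]))))
  (.leaf
  [3564,39,0,0,28,0,0,492,0,117,0,0,0,0,0,18,0,0,0,0,0,0,0,0,0,78,0,0,0,0,0,582,0,0,0,0,0,0,0,0,0,0,0,0,0,0,0,0,0,0,0,0,486,0,513,0,8586]))))
  (.use (.H 3 1 8488) [(true,0,4,1)] (.leaf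
  [1,0,0,0,0,4,0,4,0,0,0,0,0,0,0,0,0,0,0,0,0,0,0,2,0,0,0,0,0,6,0,0,0,0,0,0,0,0,0,0,0,0,0,0,0,0,0,0,0,0,0,0,36,0,108])))))))
  (.leaf
  [90,8,0,0,0,0,0,2,0,0,0,0,0,0,0,0,0,8,0,0,0,0,0,3,0,0,0,0,0,0,0,0,0,2,0,0,0,0,0,0,0,0,0,0,0,6,210,0,96])))
  (.use (.M 0 28) [(true,0,1,1)] (.split [1,2,3,0,0,0,0,1,0,0,0,0,1,0,0,-1] (.use (.H 2 0 4231)
  [(false,0,3,1)] (.split [1,2,3,0,0,0,0,0,1,0,0,0,0,1,0,-1] (.use (.H 3 0 8455) [(false,0,4,1)]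
  (.split [1,1,1,1,1,0,0,0,-4,-5,1,1,1,1,1,0] (.use (.M 1 24) [(false,0,1,1)] (.leaf
  [76,0,7,0,0,0,14,0,0,0,0,0,0,0,0,0,0,0,0,0,0,0,0,0,0,0,0,0,4,0,0,0,0,0,0,0,0,0,0,0,0,0,0,0,0,0,0,0,324,0,0,504,0,108]))
  (.use (.M 1 24) [(true,0,1,1)] (.split [1,1,1,1,1,1,1,1,1,1,0,0,0,-4,-5,0] (.use (.M 2 24)
  [(false,0,1,1)] (.split [0,0,0,1,0,1,2,3,0,0,0,0,0,1,0,-1] (.use (.H 3 1 8424) [(false,0,4,1)]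
  (.leaf
  [3,0,36,0,12,0,3,0,8,0,24,0,24,0,0,0,0,0,0,0,0,0,0,0,0,0,0,0,0,0,0,0,0,0,0,0,0,0,0,0,0,0,0,0,0,0,0,0,0,0,0,0,0,216,216,0,0,216]))
  (.use (.H 3 1 8424) [(true,0,4,1)] (.leaf
  [12,0,96,0,0,0,15,0,32,0,102,0,48,0,0,0,0,0,0,0,0,0,0,0,0,0,0,0,0,0,0,0,0,0,0,0,0,0,0,0,0,0,0,0,0,0,0,0,0,0,0,0,0,540,1836,0,0,1188]))))
  (.use (.M 2 24) [(true,0,1,1)] (.leaf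
  [3,0,2,0,0,0,2,0,6,0,6,0,0,0,0,0,0,0,0,0,0,0,0,0,0,0,0,0,0,0,1,0,0,0,0,0,0,0,0,0,0,0,0,0,0,0,0,0,0,0,0,0,72,36,0,72]))))))
  (.use (.H 3 0 8455) [(true,0,4,1)] (.leaf
  [1,0,0,0,4,0,0,0,0,0,0,0,0,0,0,0,0,0,0,0,0,0,0,0,0,0,0,0,0,0,0,0,0,0,0,0,0,0,0,0,0,0,0,0,0,0,0,0,24,12,0,60]))))
  (.use (.H 2 0 4231) [(true,0,3,1)] (.leaf
  [1,0,3,0,0,0,0,0,0,0,0,0,0,0,0,0,0,0,0,0,0,0,0,0,0,0,0,0,0,0,0,0,0,0,0,0,0,0,0,0,0,0,0,0,0,0,18,9,0,45]))))))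
  (.use (.H 0 0 3171) [(true,0,1,1)] (.leaf
  [210,0,123,0,4,0,2,0,0,0,0,0,0,6,0,0,4,0,0,0,0,0,0,0,0,0,0,0,0,0,27,0,0,0,0,0,0,0,52,0,0,162,0,0,0,2916]))))
  (.use (.H 1 2 3402) [(true,0,2,1)] (.leaf
  [1,0,0,0,0,0,0,0,0,0,0,0,1,0,0,0,0,0,1,0,0,0,0,0,0,0,0,0,0,0,0,0,0,0,0,0,0,0,0,0,12,24,0,30]))))
  (.use (.H 2 1 4324) [(true,0,3,1)] (.split [1,1,1,1,1,0,0,-3,0,0,1,1,1,1,1,0] (.use (.M 1 4)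
  [(false,0,1,1)] (.split [1,1,1,1,1,1,1,0,1,1,-2,-2,-2,-2,-2,0] (.use (.E 1 0 2)
  [(false,0,1,1)] (.leaf
  [2,0,1,0,0,0,0,0,0,0,0,0,0,0,0,0,0,0,0,0,0,0,0,0,0,0,0,0,0,0,0,0,0,0,0,0,0,0,0,0,0,0,3,15,0,12]))
  (.use (.E 1 0 2) [(true,0,1,1)] (.leaf
  [6,0,12,0,0,0,2,2,0,0,0,0,0,0,3,0,0,0,0,0,0,0,0,0,0,0,0,0,0,0,0,0,0,0,0,0,0,0,0,0,0,0,0,0,0,108]))))
  (.use (.M 1 4) [(true,0,1,1)] (.leaf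
  [6,27,5,0,0,0,0,0,0,0,0,0,0,0,0,0,0,0,0,0,0,0,0,0,0,0,0,0,0,0,0,0,0,0,0,0,0,0,0,0,0,0,0,189])))))))
  (.use (.H 2 2 3204) [(true,0,3,1)] (.leaf
  [20,0,22,0,0,0,0,0,0,0,0,0,0,9,0,0,0,0,0,0,0,0,0,0,0,0,0,0,0,0,0,18,0,0,54,0,0,0,810]))))
  (.use (.H 2 2 3200) [(true,0,3,1)] (.leaf
  [2,0,0,0,0,0,0,0,0,0,0,5,0,0,0,0,0,0,0,0,0,0,0,0,0,0,0,0,0,2,0,0,0,0,72,0,90])))) (.use (.H 2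
  2 1156) [(true,0,3,1)] (.leaf
  [8,0,0,15,0,0,0,0,0,0,0,0,0,0,0,0,0,0,0,0,0,0,0,0,0,0,0,0,0,0,0,0,0,0,324]))))))))) (.use (.H
  3 2 7432) [(true,0,4,1)] (.split [1,1,1,1,1,-2,-2,-2,-2,-2,1,1,0,1,1,0] (.use (.E 2 0 2)
  [(false,0,1,1)] (.leaf [4,0,1,0,0,0,0,0,0,0,0,0,0,0,0,0,0,0,0,0,0,0,0,0,0,0,24,12,0,60]))
  (.leaf [180,17,0,12,0,8,0,0,0,8,0,0,0,8,0,0,0,0,0,0,0,0,72,0,0,24,876,0,852]))))))) (.use (.H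
  2 0 4227) [(true,0,3,1)] (.leaf
  [146,0,0,0,16,0,0,0,0,0,27,0,0,0,0,0,0,2052,216,162,0,0,0,2592])))) (.use (.H 0 0 1089)
  [(true,0,1,1)] (.leaf [8,0,0,0,0,0,5,0,0,0,0,0,0,0,0,0,0,0,0,0,0,108])))) (.use (.H 2 1 4196)
  [(true,0,3,1)] (.leaf [4,0,0,0,7,0,2,0,0,0,0,0,6,0,0,18,0,0,0,162])))) (.use (.H 2 2 2180)
  [(true,0,3,1)] (.leaf [20,0,9,0,6,0,54,0,0,0,18,0,0,54,0,0,0,810])))))) (.use (.H 1 2 3138)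
  [(true,0,2,1)] (.leaf [2,0,4,0,1,0,0,0,0,0,0,0,0,54])))) (.use (.H 0 0 2081) [(true,0,1,1)]
  (.leaf [7,0,0,0,2,0,0,36,9,0,0,45])))) (.use (.H 0 0 1057) [(true,0,1,1)] (.leaf
  [13,0,5,0,45,45,0,0,0,63])))

theorem certB_ok : chk 9 (vmk (fun _ _ => 3) (2)) certB (baseF 2 3 1 1) = true := by
  decide +kernel

end AbcEM
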