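import Pool.Agent.Work.MP_a793bb_nt.EM.CDefs

set_option autoImplicit false
set_option maxRecDepth 100000

namespace AbcEM

/-- certificate C -/
def certC : Cert :=
  .use (.H 0 0 31) [(false,0,1,1)] (.split [1,1,1,1,1,0,0,0,0,-5,1,1,1,1,1,0] (.use (.M 1 16)
  [(false,0,1,1)] (.leaf [2,0,2,0,9,0,3,15,15])) (.use (.M 1 16) [(true,0,1,1)] (.split
  [1,0,0,0,0,1,0,0,0,0,1,0,0,0,0,-1] (.use (.H 0 0 1057) [(false,0,1,1)] (.split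
  [0,1,0,0,0,0,1,0,0,0,1,0,0,0,0,-1] (.use (.H 1 2 1090) [(false,0,2,1)] (.split
  [0,1,0,0,0,1,0,0,0,0,0,1,0,0,0,-1] (.use (.H 1 1 2082) [(false,0,2,1)] (.split
  [1,1,1,1,1,0,0,0,-4,-5,1,1,1,1,1,0] (.use (.M 1 24) [(false,0,1,1)] (.split
  [1,2,0,0,0,1,0,0,0,0,1,2,0,0,0,-1] (.use (.H 0 0 3107) [(false,0,1,1)] (.split
  [0,0,1,0,0,1,0,0,0,0,0,0,1,0,0,-1] (.use (.H 2 1 4132) [(false,0,3,1)] (.use (.H 0 0 1057)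
  [(false,11,1,1)] (.split [1,2,0,0,0,0,0,0,1,0,0,0,0,1,0,-1] (.use (.H 3 0 8451)
  [(false,0,4,1)] (.split [1,1,1,1,1,1,1,1,0,1,-2,-2,-2,-2,-2,0] (.use (.E 1 0 3)
  [(false,0,1,1)] (.split [1,1,1,1,1,1,1,1,1,1,0,0,0,0,-5,0] (.use (.M 2 16) [(false,0,1,1)]
  (.leaf [8,0,3,9,0,0,0,0,0,0,0,4,0,0,0,0,0,0,0,0,0,6,0,18,36,0,0,90])) (.use (.M 2 16)
  [(true,0,1,1)] (.use (.H 3 0 8451) [(false,5,4,1)] (.split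
  [0,0,-3,-4,-5,1,1,1,1,1,1,1,1,1,1,0] (.use (.M 0 28) [(false,0,1,1)] (.split
  [1,1,0,1,1,-2,-2,-2,-2,-2,1,1,1,1,1,0] (.use (.E 0 2 2) [(false,0,1,1)] (.split
  [1,1,1,1,1,0,0,0,-4,0,1,1,1,1,1,0] (.use (.M 1 8) [(false,0,1,1)] (.leaf
  [1,0,0,0,0,0,0,0,0,2,0,0,0,0,0,0,0,0,0,0,0,0,0,0,0,0,0,0,0,0,0,0,3,15,6])) (.use (.M 1 8)
  [(true,0,1,1)] (.split [0,0,-3,0,0,1,1,1,1,1,1,1,1,1,1,0] (.leaf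
  [225,11,0,85,0,15,0,0,0,0,0,0,0,0,0,0,0,0,0,42,0,0,0,0,0,0,0,0,0,0,90,189,0,0,0,585]) (.use
  (.M 0 4) [(true,0,1,1)] (.leaf
  [4,0,6,0,2,0,9,0,0,0,0,0,0,0,0,0,0,0,0,0,24,0,0,0,0,0,0,0,0,0,0,54,108,0,0,207,252]))))))
  (.leaf [18,3,0,0,0,0,2,0,0,0,0,0,0,0,0,4,0,0,0,0,0,0,0,0,0,0,18,18,0,0,63,54]))) (.use (.M 0
  28) [(true,0,1,1)] (.split [1,2,3,0,0,0,0,0,1,0,0,0,0,0,0,-1] (.use (.H 3 0 263)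
  [(false,0,4,1)] (.leaf
  [1,0,4,0,1,0,0,4,0,0,0,0,0,0,0,0,24,0,0,0,0,0,0,0,0,0,0,0,108,0,0,180,180])) (.use (.H 3 0
  263) [(true,0,4,1)] (.leaf
  [1,0,4,0,0,0,0,0,0,0,0,0,0,0,0,0,3,0,0,0,0,0,0,0,0,0,0,0,18,0,9,27]))))))))) (.use (.E 1 0 3)
  [(true,0,1,1)] (.split [0,0,0,0,-5,1,1,1,1,1,1,1,1,1,1,0] (.use (.M 0 16) [(false,0,1,1)]
  (.leaf [7,0,0,9,0,0,0,0,0,0,0,2,0,0,0,0,0,0,0,0,0,0,18,9,0,0,0,45])) (.use (.M 0 16)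
  [(true,0,1,1)] (.split [1,2,0,0,0,0,1,0,2,0,0,1,0,2,0,-1] (.use (.H 1 0 10563) [(false,0,2,1)]
  (.split [0,0,-3,-4,-5,1,1,1,1,1,1,1,1,1,1,0] (.use (.M 0 28) [(false,0,1,1)] (.split
  [1,1,0,1,1,1,1,1,1,1,-2,-2,-2,-2,-2,0] (.use (.E 0 1 2) [(false,0,1,1)] (.leaf
  [2,0,3,0,0,0,0,0,0,18,0,0,0,0,0,0,0,4,0,0,0,0,0,0,0,0,0,0,18,18,0,0,9,54])) (.use (.E 0 1 2)
  [(true,0,1,1)] (.leaf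
  [1,0,3,0,0,0,0,0,1,0,0,0,0,0,0,0,0,4,0,0,0,0,0,0,0,0,0,0,18,18,0,0,9,54])))) (.use (.M 0 28)
  [(true,0,1,1)] (.leaf [2,0,1,0,0,0,0,9,0,0,0,0,0,0,0,6,0,0,0,0,0,0,0,0,0,0,0,27,0,0,27,45]))))
  (.use (.H 1 0 10563) [(true,0,2,1)] (.leaf
  [23,0,0,0,5,0,13,0,0,0,0,0,0,54,0,0,0,0,0,0,0,0,0,0,54,144,0,0,72])))))))) (.use (.H 3 0 8451)
  [(true,0,4,1)] (.leaf [1,0,0,0,0,0,0,4,0,0,0,0,0,0,0,0,0,6,0,18,0,0,18]))))) (.leaf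
  [9,0,0,2,0,0,0,0,0,0,0,0,0,0,1,3,1]))) (.use (.H 0 0 3107) [(true,0,1,1)] (.leaf
  [2,0,2,0,1,0,0,0,0,0,0,0,1,0,9,0,0,9])))) (.use (.M 1 24) [(true,0,1,1)] (.split
  [1,2,0,0,0,0,0,1,0,0,0,0,1,0,0,-1] (.use (.H 2 0 4227) [(false,0,3,1)] (.split
  [1,2,0,0,0,0,1,0,0,0,0,0,0,0,0,-1] (.use (.H 1 0 67) [(false,0,2,1)] (.split
  [1,2,0,0,0,0,1,0,0,0,0,1,0,0,0,-1] (.use (.H 1 0 2115) [(false,0,2,1)] (.split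
  [0,0,1,0,0,0,0,0,0,0,1,2,0,0,0,-1] (.use (.H 2 2 3076) [(false,0,3,1)] (.split
  [0,0,0,-4,-5,1,1,1,1,1,1,1,1,1,1,0] (.use (.M 0 24) [(false,0,1,1)] (.leaf
  [1,0,0,0,0,0,0,0,0,0,0,0,0,0,0,0,0,0,0,0,0,6,0,0,10,5,8])) (.use (.M 0 24) [(true,0,1,1)]
  (.split [0,0,1,0,0,1,2,0,0,0,0,0,1,0,0,-1] (.use (.H 2 1 4196) [(false,0,3,1)] (.use (.H 2 0
  4227) [(false,11,3,1)] (.use (.H 1 2 1090) [(false,18,2,1)] (.use (.H 0 0 1057)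
  [(false,21,1,1)] (.use (.H 1 0 2115) [(false,10,2,1)] (.split
  [0,0,1,0,0,0,0,1,0,0,1,2,0,0,0,-1] (.use (.H 2 2 3204) [(false,0,3,1)] (.split
  [1,1,1,1,1,1,1,1,1,1,0,0,-3,-4,-5,0] (.use (.M 2 28) [(false,0,1,1)] (.split
  [1,1,1,1,1,0,0,-3,0,0,1,1,1,1,1,0] (.use (.M 1 4) [(false,0,1,1)] (.split
  [1,1,1,1,1,1,1,0,1,1,-2,-2,-2,-2,-2,0] (.use (.E 1 0 2) [(false,0,1,1)] (.leaf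
  [2,0,1,0,0,0,0,0,0,0,0,0,0,0,0,0,0,0,0,0,0,0,0,0,0,0,0,0,0,0,0,0,0,0,0,0,0,0,3,15,6])) (.use
  (.E 1 0 2) [(true,0,1,1)] (.leaf
  [6,0,12,0,0,0,2,0,0,0,0,2,0,0,3,0,0,0,0,0,0,0,0,0,0,0,0,0,0,0,0,0,0,0,0,0,0,0,0,0,54]))))
  (.use (.M 1 4) [(true,0,1,1)] (.split [0,1,0,0,0,1,0,0,0,0,0,0,0,2,0,-1] (.use (.H 1 1 8226)
  [(false,0,2,1)] (.split [1,0,0,0,0,0,1,0,0,0,0,0,0,2,0,-1] (.use (.H 1 0 8257) [(false,0,2,1)]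
  (.use (.H 1 1 8226) [(false,3,2,1)] (.split [0,0,1,0,0,1,2,3,0,0,0,0,1,0,0,-1] (.use (.H 2 1
  4324) [(false,0,3,1)] (.split [0,0,0,0,0,1,0,0,4,0,0,0,0,1,0,-1] (.use (.H 3 1 8480)
  [(false,0,4,1)] (.split [0,0,-3,0,0,1,1,1,1,1,1,1,1,1,1,0] (.use (.M 0 4) [(false,0,1,1)]
  (.split [1,1,0,1,1,-2,-2,-2,-2,-2,1,1,1,1,1,0] (.use (.E 0 2 2) [(false,0,1,1)] (.leaf
  [6,0,9,0,0,0,4,0,0,0,0,0,0,0,0,0,0,0,0,0,0,0,0,0,0,0,0,0,0,0,0,0,0,0,0,6,0,0,0,0,0,0,0,0,0,0,0,0,0,0,81,54]))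
  (.leaf
  [54,9,0,0,0,4,0,0,0,0,0,0,0,0,0,0,0,0,0,0,0,0,0,0,6,0,0,0,0,0,0,0,0,0,6,0,0,0,0,0,0,0,0,0,0,0,0,0,0,189,54])))
  (.use (.M 0 4) [(true,0,1,1)] (.split [1,2,3,4,0,1,2,3,0,0,1,0,0,0,0,-1] (.use (.H 0 0 1263)
  [(false,0,1,1)] (.leaf
  [33,0,0,0,0,0,3,0,0,0,0,0,0,0,0,12,0,0,0,0,0,0,1,0,0,12,0,0,0,0,0,0,0,0,0,21,0,0,0,0,0,0,0,0,0,0,0,0,108,0,216,243]))
  (.use (.H 0 0 1263) [(true,0,1,1)] (.split [1,2,0,0,0,0,1,0,0,0,0,1,0,2,0,-1] (.use (.H 1 0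
  10307) [(false,0,2,1)] (.split [0,0,-3,-4,-5,1,1,1,1,1,1,1,1,1,1,0] (.use (.M 0 28)
  [(false,0,1,1)] (.split [1,2,3,0,0,0,0,0,1,0,0,0,0,1,0,-1] (.use (.H 3 0 8455) [(false,0,4,1)]
  (.split [1,1,1,1,1,1,1,1,1,1,0,0,0,-4,0,0] (.use (.M 2 8) [(false,0,1,1)] (.leaf
  [16,0,5,0,0,0,0,0,0,0,0,0,0,0,0,0,0,0,0,0,0,0,0,0,0,0,0,0,0,0,0,0,0,10,0,0,0,0,0,0,0,0,0,0,0,0,0,0,0,0,0,0,0,0,0,0,36,180,0,108]))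
  (.use (.M 2 8) [(true,0,1,1)] (.split [1,1,1,1,1,1,1,1,1,1,0,0,0,-4,-5,0] (.use (.M 2 24)
  [(false,0,1,1)] (.split [1,0,3,0,0,1,0,0,0,0,1,0,3,0,0,-1] (.use (.H 0 0 5157) [(false,0,1,1)]
  (.split [0,0,0,1,0,0,2,0,4,0,0,0,0,1,0,-1] (.use (.H 3 1 8520) [(false,0,4,1)] (.split
  [0,1,0,2,0,1,2,0,0,0,0,1,0,2,0,-1] (.use (.H 1 1 10346) [(false,0,2,1)] (.split
  [0,0,1,0,0,0,0,1,0,0,1,0,0,4,0,-1] (.use (.H 2 2 9348) [(false,0,3,1)] (.split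
  [1,2,3,0,0,1,2,0,4,0,1,2,0,0,0,-1] (.use (.H 0 0 3431) [(false,0,1,1)] (.leaf
  [12,0,6,0,3,0,0,0,0,0,9,0,0,0,0,0,24,0,0,0,0,0,0,0,0,0,10,0,0,0,0,0,0,0,0,24,0,0,0,0,0,0,0,0,0,27,0,0,0,0,0,0,0,0,0,18,0,0,0,0,0,0,0,0,0,0,0,0,216,27,0,486]))
  (.use (.H 0 0 3431) [(true,0,1,1)] (.split [1,0,0,4,0,0,1,0,2,0,0,0,0,2,0,-1] (.use (.H 1 0
  8521) [(false,0,2,1)] (.split [1,2,3,0,0,1,2,0,0,0,1,2,0,0,0,-1] (.use (.H 0 0 3175)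
  [(false,0,1,1)] (.leaf
  [42,0,0,0,0,0,16,0,3,0,0,0,0,0,63,0,0,0,0,0,48,0,0,0,0,0,0,0,0,0,16,0,0,0,0,0,0,0,0,0,0,0,0,0,0,0,0,0,0,66,0,0,0,0,0,0,0,0,0,48,0,0,0,0,0,0,0,0,0,0,0,0,486,135,0,1080]))
  (.use (.H 0 0 3175) [(true,0,1,1)] (.split [1,0,3,0,0,0,1,0,2,0,0,0,0,2,0,-1] (.use (.H 1 0
  8517) [(false,0,2,1)] (.split [1,1,1,1,1,0,0,-3,-4,-5,1,1,1,1,1,0] (.use (.M 1 28)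
  [(false,0,1,1)] (.leaf
  [156,0,84,0,372,0,0,0,0,0,40,0,12,0,0,0,0,0,48,0,0,0,39,0,624,0,0,0,0,0,0,0,0,0,280,0,0,0,0,0,0,0,0,828,0,0,0,0,0,0,0,0,0,0,0,0,0,0,0,0,0,0,0,312,0,0,0,0,0,0,0,0,0,0,4644,108,4212,0,0,11232]))
  (.use (.M 1 28) [(true,0,1,1)] (.leaf
  [36,0,18,0,36,0,0,0,0,0,0,0,6,0,0,0,0,0,12,0,0,0,3,0,72,0,0,0,0,0,0,0,0,0,32,0,0,0,0,0,0,0,0,108,0,0,0,0,0,0,0,0,0,0,0,0,0,0,0,0,0,0,0,0,0,0,0,0,0,0,0,0,0,0,540,0,540,0,0,1404]))))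
  (.use (.H 1 0 8517) [(true,0,2,1)] (.leaf
  [162,0,12,0,6,0,0,0,32,0,12,0,0,0,0,0,600,0,0,0,129,0,0,0,0,0,0,0,0,0,0,0,196,0,0,0,0,0,0,0,0,0,0,0,0,0,0,0,0,0,0,246,0,0,0,0,0,0,0,0,0,204,0,0,0,0,0,0,0,0,0,0,0,0,2916,0,0,3564]))))))
  (.use (.H 1 0 8521) [(true,0,2,1)] (.leaf
  [66,0,0,0,40,0,60,0,0,0,0,0,120,0,0,0,3,0,60,0,0,0,0,0,0,0,0,0,0,0,0,0,0,0,0,0,0,60,0,0,0,0,0,0,0,0,0,204,0,0,0,0,0,0,0,0,0,120,0,0,0,0,0,0,0,0,0,0,0,0,1080,540,0,1404]))))))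
  (.use (.H 2 2 9348) [(true,0,3,1)] (.leaf
  [8,0,0,0,0,0,0,0,0,0,30,0,3,0,12,0,0,0,0,0,0,0,0,0,8,0,0,0,0,0,0,0,0,0,0,0,0,0,0,0,0,0,0,18,0,0,0,0,0,0,0,0,0,18]))))
  (.use (.H 1 1 10346) [(true,0,2,1)] (.leaf
  [220,0,110,0,0,0,320,0,0,0,45,0,40,0,0,0,0,0,0,0,0,0,96,0,0,0,0,0,0,0,0,0,0,0,0,0,0,0,0,0,0,130,0,0,0,0,0,0,0,0,0,96,0,0,0,0,0,0,0,0,0,0,0,0,1440]))))
  (.use (.H 3 1 8520) [(true,0,4,1)] (.leaf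
  [144,432,0,0,432,0,30,0,51,0,84,0,0,0,0,0,0,0,0,0,56,0,0,0,0,0,0,0,0,0,0,0,0,0,0,0,0,0,0,210,0,0,0,0,0,0,0,0,0,606,0,0,0,0,0,0,0,0,0,0,0,0,1944]))))
  (.use (.H 0 0 5157) [(true,0,1,1)] (.leaf
  [6,0,6,0,1,0,1,0,0,0,0,0,0,0,0,0,0,0,4,0,0,0,0,0,0,0,0,6,0,0,0,0,0,0,0,0,0,8,0,0,0,0,0,0,0,0,0,4,0,0,0,0,0,0,0,0,0,0,0,0,54,0,0,72]))))
  (.use (.M 2 24) [(true,0,1,1)] (.leaf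
  [16,0,6,0,1,0,24,0,0,0,0,0,0,0,0,0,16,0,0,0,0,0,0,0,0,24,0,0,0,0,0,0,0,0,0,26,0,0,0,0,0,0,0,0,0,22,0,0,0,0,0,0,0,0,0,0,0,0,0,0,108,288]))))))
  (.use (.H 3 0 8455) [(true,0,4,1)] (.leaf
  [15,0,12,0,0,0,0,0,54,0,0,0,10,0,0,0,0,0,0,0,0,36,0,0,0,0,0,0,0,0,0,0,0,0,0,0,0,0,0,0,0,15,0,0,0,0,0,0,0,0,0,0,0,0,216]))))
  (.use (.M 0 28) [(true,0,1,1)] (.split [1,2,0,0,0,1,2,3,0,0,1,2,0,0,0,-1] (.use (.H 0 0 3299)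
  [(false,0,1,1)] (.leaf
  [54,0,30,0,0,0,0,0,0,0,0,0,8,0,0,0,0,0,0,0,0,0,0,0,0,0,0,0,0,0,0,0,0,0,0,0,0,0,0,0,0,39,0,0,0,0,0,0,0,0,0,0,0,0,162,0,378,378]))
  (.use (.H 0 0 3299) [(true,0,1,1)] (.split [1,2,0,0,0,1,2,0,0,0,1,2,0,0,0,-1] (.use (.H 0 0
  3171) [(false,0,1,1)] (.split [1,2,3,0,0,0,0,1,0,0,0,0,1,0,0,-1] (.use (.H 2 0 4231)
  [(false,0,3,1)] (.split [0,1,0,2,0,1,2,0,0,0,0,1,0,2,0,-1] (.use (.H 1 1 10346)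
  [(false,0,2,1)] (.split [1,2,3,4,0,0,0,1,0,0,0,0,1,0,0,-1] (.use (.H 2 0 4239) [(false,0,3,1)]
  (.leaf
  [2,0,9,0,14,0,18,0,18,0,24,0,3,0,0,0,0,0,0,0,0,0,0,0,0,0,0,0,0,39,0,0,0,0,0,0,0,0,0,0,0,0,0,0,0,0,0,0,0,0,0,0,0,0,0,0,0,0,0,0,0,108,216,333,18,396]))
  (.use (.H 2 0 4239) [(true,0,3,1)] (.leaf
  [46,0,45,0,48,0,0,0,66,0,177,0,0,0,0,0,0,0,0,0,0,0,0,0,0,0,0,0,0,144,0,0,0,0,0,0,0,0,0,0,0,0,0,0,0,0,0,0,0,0,0,0,0,0,0,0,0,0,0,0,0,108,648,1512]))))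
  (.leaf
  [486,4,0,48,0,6,0,90,0,33,0,0,0,0,0,0,0,0,0,3,0,0,0,0,0,0,30,0,0,0,0,0,0,0,0,0,0,0,0,0,0,0,0,0,0,0,0,0,0,0,0,0,0,0,0,0,0,0,0,432,1134,0,270])))
  (.use (.H 2 0 4231) [(true,0,3,1)] (.split [1,0,1,1,1,1,1,1,1,1,-2,-2,-2,-2,-2,0] (.use (.E 0
  1 1) [(false,0,1,1)] (.split [1,2,0,0,0,0,1,0,2,0,0,1,0,2,0,-1] (.use (.H 1 0 10563)
  [(false,0,2,1)] (.split [0,1,0,2,0,1,2,0,4,0,0,1,0,2,0,-1] (.use (.H 1 1 10602)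
  [(false,0,2,1)] (.leaf
  [9,0,0,0,12,0,27,0,0,0,6,0,63,0,0,0,0,0,0,0,0,0,16,0,3,0,0,0,0,0,0,48,0,0,0,0,0,0,0,0,0,0,0,0,0,0,0,0,0,0,0,0,0,0,0,0,0,0,0,0,0,0,0,162,216,0,135]))
  (.use (.H 1 1 10602) [(true,0,2,1)] (.leaf
  [6,0,21,0,18,0,23,0,0,0,18,0,51,0,0,0,0,0,0,0,0,0,20,0,0,0,0,0,0,0,0,60,0,0,0,0,0,0,0,0,0,0,0,0,0,0,0,0,0,0,0,0,0,0,0,0,0,0,0,0,0,0,0,162,270,0,27]))))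
  (.use (.H 1 0 10563) [(true,0,2,1)] (.leaf
  [51,0,138,0,2,0,0,0,36,0,0,0,0,0,0,0,0,0,0,0,2,0,0,0,0,0,0,0,0,30,0,0,0,0,0,0,0,0,0,0,0,0,0,0,0,0,0,0,0,0,0,0,0,0,0,0,0,0,0,0,0,324,486,0,432]))))
  (.leaf
  [432,40,0,24,0,0,0,126,0,0,0,0,0,0,0,0,0,30,0,12,0,0,0,0,0,0,36,0,0,0,0,0,0,0,0,0,0,0,0,0,0,0,0,0,0,0,33,0,0,0,0,0,0,0,0,0,0,0,216,216])))))
  (.use (.H 0 0 3171) [(true,0,1,1)] (.leaf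
  [96,0,0,0,27,0,54,0,0,0,0,0,0,0,14,0,6,0,0,0,0,0,0,72,0,0,0,0,0,0,10,0,0,0,0,0,0,0,0,0,0,0,0,27,0,0,0,0,0,0,0,0,0,0,0,0,324]))))))))
  (.use (.H 1 0 10307) [(true,0,2,1)] (.split [0,1,0,2,0,0,1,0,2,0,1,0,0,0,0,-1] (.use (.H 1 2
  1354) [(false,0,2,1)] (.leaf
  [420,0,3213,0,0,0,678,0,0,0,310,0,3060,669,0,0,0,0,0,2760,0,0,0,0,0,0,626,0,0,0,0,0,0,0,0,0,0,0,0,0,0,0,0,0,0,0,0,0,0,0,7236,10206,15984]))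
  (.use (.H 1 2 1354) [(true,0,2,1)] (.leaf
  [36,0,249,0,0,0,0,0,0,0,0,0,240,69,0,0,0,0,0,312,0,0,0,0,0,0,74,22,0,0,0,0,0,0,0,0,0,0,0,138,0,0,0,0,0,0,0,0,0,0,1242,0,1512]))))))))))
  (.use (.H 3 1 8480) [(true,0,4,1)] (.leaf
  [1,18,0,0,0,0,0,0,0,0,0,2,0,0,0,0,0,0,0,0,0,0,0,0,0,0,0,0,0,0,0,9,0,0,0,0,0,0,0,0,0,10,0,0,18,0,54]))))
  (.use (.H 2 1 4324) [(true,0,3,1)] (.split [0,0,1,0,0,0,0,1,0,0,1,0,3,0,0,-1] (.use (.H 2 2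
  5252) [(false,0,3,1)] (.split [0,1,0,0,0,0,1,0,0,0,1,0,3,0,0,-1] (.use (.H 1 2 5186)
  [(false,0,2,1)] (.split [0,1,0,0,0,0,2,0,0,0,0,0,0,2,0,-1] (.use (.H 1 1 8258) [(false,0,2,1)]
  (.split [1,2,0,0,0,0,1,0,2,0,0,1,0,2,0,-1] (.use (.H 1 0 10563) [(false,0,2,1)] (.use (.H 0 0
  31) [(false,48,1,1)] (.split [0,0,-3,-4,-5,1,1,1,1,1,1,1,1,1,1,0] (.use (.M 0 28)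
  [(false,0,1,1)] (.use (.M 0 24) [(true,31,1,1)] (.use (.H 2 1 4196) [(false,30,3,1)] (.split
  [1,1,0,1,1,1,1,1,1,1,-2,-2,-2,-2,-2,0] (.use (.E 0 1 2) [(false,0,1,1)] (.split
  [1,2,3,0,0,0,0,1,0,0,0,0,1,0,0,-1] (.use (.H 2 0 4231) [(false,0,3,1)] (.split
  [1,0,0,4,0,0,1,0,0,0,0,0,0,2,0,-1] (.use (.H 1 0 8265) [(false,0,2,1)] (.leaf
  [2,0,4,0,0,0,0,3,0,0,0,1,0,0,0,0,0,0,0,6,0,0,0,0,0,0,12,0,12,0,0,0,0,0,0,0,0,0,0,0,0,0,0,0,0,0,0,0,0,0,0,0,0,0,0,0,0,0,0,18,0,54,54]))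
  (.use (.H 1 0 8265) [(true,0,2,1)] (.leaf
  [3,0,0,0,0,0,0,15,0,0,0,6,0,0,0,0,0,4,0,4,0,0,0,0,0,0,12,0,6,0,0,0,0,0,0,0,0,0,0,0,0,0,0,0,0,0,0,0,0,0,0,0,0,0,0,0,0,0,0,0,0,54,108,54]))))
  (.use (.H 2 0 4231) [(true,0,3,1)] (.leaf
  [34,0,150,0,2,12,48,0,0,15,0,0,0,0,0,24,0,12,0,0,0,0,0,0,0,0,72,0,0,0,0,0,0,0,0,0,0,0,0,0,0,0,0,0,0,0,0,0,0,0,0,0,0,0,0,0,0,0,0,432]))))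
  (.use (.E 0 1 2) [(true,0,1,1)] (.leaf
  [3,0,0,3,3,0,0,0,0,0,0,0,0,0,0,1,0,0,0,0,0,0,3,0,0,0,0,0,0,0,0,0,0,0,0,0,0,0,0,0,0,0,0,0,0,0,0,0,0,0,0,0,0,0,0,0,0,0,27]))))))
  (.use (.M 0 28) [(true,0,1,1)] (.split [1,1,1,1,1,1,1,1,1,1,0,0,0,-4,-5,0] (.use (.M 2 24)
  [(false,0,1,1)] (.leaf
  [30,0,78,0,0,45,0,0,0,0,0,20,0,80,0,0,0,0,0,0,222,0,120,0,0,0,0,0,0,18,2,0,0,0,0,0,0,0,0,0,0,0,0,0,0,0,0,0,0,0,0,0,0,0,0,810]))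
  (.use (.M 2 24) [(true,0,1,1)] (.leaf
  [36,0,66,0,0,27,0,0,0,0,0,12,0,36,0,0,0,0,0,0,78,0,72,0,0,0,0,0,0,26,10,0,0,0,0,0,0,0,0,0,0,0,0,0,0,0,0,0,0,0,0,0,0,0,0,162,594])))))))
  (.use (.H 1 0 10563) [(true,0,2,1)] (.leaf
  [279,0,192,0,0,0,0,0,148,0,0,0,0,0,0,168,0,504,0,0,0,0,0,0,116,0,0,0,0,0,0,0,0,0,0,0,0,0,0,0,0,0,0,0,0,0,0,0,1566,1674,2700]))))
  (.use (.H 1 1 8258) [(true,0,2,1)] (.leaf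
  [119,0,36,0,0,0,17,0,0,108,0,0,0,103,0,156,0,0,0,0,0,0,0,1,0,0,0,0,0,0,0,0,0,0,0,0,0,0,0,0,0,0,0,0,0,0,621,9,873]))))
  (.use (.H 1 2 5186) [(true,0,2,1)] (.leaf
  [207,0,40,0,106,0,0,0,0,0,0,144,0,264,0,0,0,0,0,0,150,158,0,0,0,0,0,0,0,0,0,0,0,0,0,0,0,0,0,0,0,0,0,0,1350,702,1944]))))
  (.use (.H 2 2 5252) [(true,0,3,1)] (.leaf
  [42,0,50,0,0,0,0,0,0,96,0,135,0,0,0,0,0,0,66,48,0,0,0,0,0,0,0,0,0,0,0,0,0,0,0,0,0,0,0,0,0,0,594,0,810,351])))))))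
  (.use (.H 1 0 8257) [(true,0,2,1)] (.leaf
  [121,0,15,0,0,0,0,0,0,0,0,0,0,0,0,0,0,0,0,0,0,0,0,0,10,0,15,0,0,0,15,0,0,0,0,0,60,0,0,612,0,0,0,22]))))
  (.use (.H 1 1 8226) [(true,0,2,1)] (.leaf
  [14,0,0,0,10,0,0,0,0,0,0,0,0,0,0,0,0,0,0,0,0,0,0,0,13,0,0,0,0,0,0,0,0,0,34,0,0,144]))))))
  (.use (.M 2 28) [(true,0,1,1)] (.split [1,2,0,0,0,1,2,0,0,0,1,2,0,0,0,-1] (.use (.H 0 0 3171)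
  [(false,0,1,1)] (.split [0,0,-3,-4,-5,1,1,1,1,1,1,1,1,1,1,0] (.use (.M 0 28) [(false,0,1,1)]
  (.split [0,0,1,0,0,1,2,3,4,0,0,0,1,0,0,-1] (.use (.H 2 1 4580) [(false,0,3,1)] (.split
  [1,1,1,1,1,0,0,-3,-4,-5,1,1,1,1,1,0] (.use (.M 1 28) [(false,0,1,1)] (.leaf
  [6,0,2,0,9,0,0,0,6,0,4,0,0,0,0,0,0,0,9,0,0,0,0,0,0,0,0,0,6,0,0,0,0,0,0,0,0,0,0,0,0,0,18,9,90]))
  (.use (.M 1 28) [(true,0,1,1)] (.leaf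
  [6,0,4,0,3,0,6,0,3,0,0,0,0,0,0,0,0,0,6,0,0,0,0,0,0,0,0,0,0,0,0,0,0,0,0,0,0,0,0,0,0,0,0,81,54]))))
  (.use (.H 2 1 4580) [(true,0,3,1)] (.split [1,0,0,4,0,0,1,0,2,0,0,0,0,2,0,-1] (.use (.H 1 0
  8521) [(false,0,2,1)] (.split [0,0,1,0,0,1,2,3,0,0,0,0,1,0,0,-1] (.use (.H 2 1 4324)
  [(false,0,3,1)] (.split [1,1,0,1,1,-2,-2,-2,-2,-2,1,1,1,1,1,0] (.use (.E 0 2 2)
  [(false,0,1,1)] (.split [0,0,-3,0,0,1,1,1,1,1,1,1,1,1,1,0] (.use (.M 0 4) [(false,0,1,1)]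
  (.leaf
  [36,0,30,0,8,0,0,0,6,0,0,0,0,0,9,0,6,0,0,0,0,0,0,0,0,0,0,0,0,0,0,0,0,0,30,0,0,0,0,0,0,0,0,0,0,0,0,0,0,0,108]))
  (.use (.M 0 4) [(true,0,1,1)] (.split [1,2,3,0,0,0,0,0,1,0,0,0,0,1,0,-1] (.use (.H 3 0 8455)
  [(false,0,4,1)] (.use (.H 2 1 4580) [(true,11,3,1)] (.split [0,0,1,0,0,0,0,1,0,0,1,0,3,4,0,-1]
  (.use (.H 2 2 13444) [(false,0,3,1)] (.use (.H 2 1 4580) [(true,14,3,1)] (.split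
  [1,1,1,1,1,0,0,-3,-4,-5,1,1,1,1,1,0] (.use (.M 1 28) [(false,0,1,1)] (.split
  [0,0,1,0,0,0,0,1,0,0,1,2,3,0,0,-1] (.use (.H 2 2 7300) [(false,0,3,1)] (.leaf
  [8,0,18,0,0,0,0,0,3,0,0,0,0,0,0,0,0,0,0,0,18,0,0,0,12,0,4,0,0,0,0,0,0,0,24,0,0,0,0,0,0,0,0,0,12,0,0,0,0,0,0,0,0,0,0,0,0,0,162,0,216]))
  (.leaf
  [54,3,0,0,0,0,0,0,0,0,0,0,0,6,0,0,0,0,0,12,0,0,0,0,0,4,0,0,0,0,0,0,0,12,0,0,0,0,0,0,0,0,0,12,0,0,0,0,0,0,0,0,0,0,0,0,0,81,243,54])))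
  (.use (.M 1 28) [(true,0,1,1)] (.split [0,0,1,0,0,0,0,1,0,0,1,2,0,4,0,-1] (.use (.H 2 2 11396)
  [(false,0,3,1)] (.leaf
  [4,0,144,0,0,0,0,0,15,0,0,0,0,0,52,0,0,0,0,0,6,0,192,0,84,0,12,0,0,0,0,0,0,0,132,0,0,0,0,0,0,0,0,0,0,0,0,0,0,0,0,0,0,0,0,0,0,0,0,1026,1188]))
  (.use (.H 2 2 11396) [(true,0,3,1)] (.leaf
  [4,0,18,0,0,0,0,0,3,0,0,0,0,0,6,0,0,0,0,0,0,0,30,0,27,0,4,0,0,0,0,0,0,0,21,0,0,0,0,0,0,0,0,0,0,0,0,0,0,0,0,0,0,0,0,0,0,0,0,0,108])))))))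
  (.use (.H 2 2 13444) [(true,0,3,1)] (.leaf
  [16,0,0,3,0,0,0,0,0,20,0,0,0,0,0,36,0,0,0,60,0,0,0,0,0,0,0,0,0,36,0,0,0,0,0,0,0,0,0,24])))))
  (.use (.H 3 0 8455) [(true,0,4,1)] (.leaf
  [39,0,180,0,0,0,28,0,0,0,0,0,24,0,120,0,84,0,16,0,0,0,0,0,0,0,0,0,0,0,0,0,0,0,0,0,48,0,0,0,0,0,0,0,0,0,0,0,324]))))))
  (.leaf
  [216,4,0,0,0,4,0,24,0,6,0,12,0,6,0,0,0,0,0,0,0,27,0,0,0,0,0,0,0,0,0,21,0,0,0,0,0,0,0,0,0,0,0,0,0,0,324,108])))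
  (.use (.H 2 1 4324) [(true,0,3,1)] (.split [1,0,3,0,0,0,0,1,0,0,0,0,1,0,0,-1] (.use (.H 2 0
  4229) [(false,0,3,1)] (.split [1,1,1,1,1,0,0,-3,0,0,1,1,1,1,1,0] (.leaf
  [54,4,0,2,0,3,0,0,0,24,0,0,0,6,0,6,0,0,0,0,0,0,0,3,0,0,0,0,0,0,0,0,0,0,0,0,0,0,0,0,0,0,0,0,162,0,0,324,0,216])
  (.use (.M 1 4) [(true,0,1,1)] (.leaf
  [12,0,4,0,12,0,3,0,0,0,24,0,0,0,6,0,6,0,0,0,0,0,0,0,3,0,0,0,0,0,0,0,0,0,0,0,0,0,0,0,0,0,0,0,0,162,0,0,324]))))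
  (.use (.H 2 0 4229) [(true,0,3,1)] (.leaf
  [38,0,20,0,12,0,0,0,84,0,0,0,36,0,60,0,0,0,0,0,44,0,3,0,0,0,0,0,0,0,0,0,0,0,0,0,0,0,0,0,0,0,0,486,324]))))))
  (.use (.H 1 0 8521) [(true,0,2,1)] (.leaf
  [6,0,0,0,0,0,6,0,12,0,2,0,0,0,0,0,0,0,21,0,0,0,0,0,0,0,0,0,9,0,0,0,0,0,0,0,0,0,0,0,0,0,108]))))))
  (.use (.M 0 28) [(true,0,1,1)] (.split [1,2,3,0,0,0,0,1,0,0,0,0,1,0,0,-1] (.use (.H 2 0 4231)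
  [(false,0,3,1)] (.leaf
  [4,0,15,0,18,0,12,0,2,0,0,0,0,0,0,0,0,0,0,0,0,0,0,0,0,0,9,0,0,0,0,0,0,0,0,0,0,0,0,0,108,0,108]))
  (.use (.H 2 0 4231) [(true,0,3,1)] (.split [0,0,1,0,0,1,2,3,0,0,0,0,1,0,0,-1] (.use (.H 2 1
  4324) [(false,0,3,1)] (.split [0,1,0,2,0,1,2,0,4,0,0,1,0,2,0,-1] (.use (.H 1 1 10602)
  [(false,0,2,1)] (.leaf
  [3,0,4,0,6,0,18,0,12,0,6,0,2,0,0,0,0,0,0,0,0,0,0,0,0,0,0,0,0,0,3,0,0,0,0,0,0,0,0,0,0,0,54,0,0,54]))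
  (.use (.H 1 1 10602) [(true,0,2,1)] (.leaf
  [1,0,0,0,0,0,2,0,2,0,2,0,0,0,0,0,0,0,0,0,0,0,0,0,0,0,0,0,0,0,3])))) (.use (.H 2 1 4324)
  [(true,0,3,1)] (.leaf
  [2,0,3,0,24,0,12,0,9,0,2,0,0,0,0,3,0,0,0,0,0,0,0,0,0,0,0,0,0,0,0,0,0,0,0,0,0,0,0,0,27,0,216]))))))))
  (.use (.H 0 0 3171) [(true,0,1,1)] (.split [0,1,0,2,0,1,2,0,0,0,0,1,0,2,0,-1] (.use (.H 1 1
  10346) [(false,0,2,1)] (.split [0,1,0,0,0,0,1,0,2,0,1,2,0,0,0,-1] (.use (.H 1 2 3394)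
  [(false,0,2,1)] (.split [1,2,0,0,0,1,0,0,0,0,1,2,0,0,0,-1] (.leaf
  [45,8,0,4,0,35,0,0,0,1,0,8,0,0,1,3,0,0,0,0,0,0,0,0,0,0,0,0,0,0,0,0,0,0,0,0,0,0,54,72,54])
  (.use (.H 0 0 3107) [(true,0,1,1)] (.leaf
  [5,0,3,0,8,0,19,0,6,0,2,0,6,5,0,2,1,0,0,0,0,0,0,0,0,0,0,0,0,0,0,0,0,0,0,0,0,0,0,63,54,9]))))
  (.use (.H 1 2 3394) [(true,0,2,1)] (.leaf
  [11,0,24,0,58,0,26,0,4,0,23,14,0,0,0,0,0,0,0,0,0,0,0,0,0,0,0,0,0,0,0,0,0,0,0,0,0,216,252,0,0,54]))))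
  (.use (.H 1 1 10346) [(true,0,2,1)] (.leaf
  [6,0,12,0,9,0,0,0,12,4,1,0,0,0,0,0,0,0,0,0,0,0,0,0,0,0,0,0,0,0,0,0,0,0,0,126,18,0,162]))))))))
  (.use (.H 2 2 3204) [(true,0,3,1)] (.leaf
  [6,0,8,2,0,0,0,0,0,0,0,0,0,0,0,0,0,0,0,0,0,0,0,0,0,0,0,0,0,81,9,36,135,54])))))))) (.use (.H 2
  1 4196) [(true,0,3,1)] (.leaf
  [44,0,0,0,6,0,66,0,0,0,0,0,0,0,0,0,0,0,0,0,0,0,0,513,0,81,1053,405,0,6])))))) (.use (.H 2 2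
  3076) [(true,0,3,1)] (.leaf [22,0,11,0,0,0,0,0,3,0,22,0,0,0,0,0,0,0,3,99,198,0,0,324,0,3]))))
  (.use (.H 1 0 2115) [(true,0,2,1)] (.leaf
  [121,0,0,0,12,0,0,0,54,0,54,0,0,0,0,0,114,90,324,324,0,0,0,16])))) (.use (.H 1 0 67)
  [(true,0,2,1)] (.leaf [372,0,76,0,138,0,126,0,189,0,0,0,0,0,162,1026,0,1134,0,0,0,48]))))
  (.use (.H 2 0 4227) [(true,0,3,1)] (.split [1,0,1,1,1,-2,-2,-2,-2,-2,1,1,1,1,1,0] (.use (.E 0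
  2 1) [(false,0,1,1)] (.leaf [30,0,12,0,0,0,1,0,2,0,0,0,0,0,39,0,9,18,297,0,0,3])) (.leaf
  [243,35,0,0,0,13,0,26,0,0,0,0,0,99,0,117,234,0,189,0,6]))))))) (.use (.H 1 1 2082)
  [(true,0,2,1)] (.leaf [11,0,0,0,0,0,0,0,0,0,0,0,0,0,0,2])))) (.use (.H 1 2 1090)
  [(true,0,2,1)] (.leaf [11,0,0,0,0,0,0,0,0,0,0,0,0,2])))) (.use (.H 0 0 1057) [(true,0,1,1)]
  (.leaf [11,0,12,0,12,0,0,0,0,108,0,1])))))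

theorem certC_ok : chk 9 (vmk (fun _ _ => 6) (-1)) certC (baseF 1 1 52 33) = true := by
  decide +kernel

end AbcEM
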