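import Pool.Agent.Work.MP_a793bb_nt.EM.CDefs

set_option autoImplicit false
set_option maxRecDepth 100000

namespace AbcEM

/-- certificate D -/
def certD : Cert :=
  .use (.H 0 0 31) [(false,0,1,1)] (.split [1,0,0,0,0,1,0,0,0,0,1,0,0,0,0,-1] (.use (.H 0 0 1057)
  [(false,0,1,1)] (.split [1,0,0,0,0,0,1,0,2,0,0,1,0,2,0,-1] (.use (.H 1 0 10561)
  [(false,0,2,1)] (.split [1,0,1,1,1,-2,-2,-2,-2,-2,1,1,1,1,1,0] (.use (.E 0 2 1)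
  [(false,0,1,1)] (.split [0,1,0,2,0,1,0,0,0,0,0,1,0,2,0,-1] (.use (.H 1 1 10282)
  [(false,0,2,1)] (.split [0,1,0,2,0,0,1,0,2,0,1,0,0,0,0,-1] (.use (.H 1 2 1354) [(false,0,2,1)]
  (.split [1,2,0,0,0,1,0,0,0,0,1,0,0,0,0,-1] (.use (.H 0 0 1059) [(false,0,1,1)] (.leaf
  [45,0,0,0,0,0,21,0,22,0,43,0,0,462,308,308,357,105,4])) (.use (.H 0 0 1059) [(true,0,1,1)]
  (.split [0,-2,-3,-4,-5,0,0,0,0,0,2,0,0,0,0,0] (.split [0,-2,-3,-4,-5,0,0,8,0,0,0,0,0,0,0,0]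
  (.split [0,-2,-3,-4,-5,2,0,2,0,0,0,0,0,0,0,0] (.split [0,-2,-3,-4,-5,0,2,0,0,0,0,0,0,0,0,0]
  (.split [0,-2,-3,-4,-5,0,0,0,0,0,0,4,0,0,0,0] (.split [0,-2,-3,-4,-5,0,0,0,0,0,0,0,4,0,0,0]
  (.use (.R 0 4)
  [(false,4,1,1),(false,3,1,1),(false,2,1,1),(false,5,1,1),(false,1,1,1),(false,0,1,1)] (.leaf
  [51,0,147,0,0,21,0,36,0,112,0,80,0,0,0,0,0,264,0,0,2604,1400,1708,756])) (.use (.R 0 4)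
  [(false,4,1,1),(false,3,1,1),(false,2,1,1),(false,5,1,1),(false,1,1,1),(true,0,1,1)] (.leaf
  [1,0,0,0,0,0,0,0,0,1,0,1,0,0,0,0,0,2,0,0,28,14,28,14]))) (.split
  [0,-2,-3,-4,-5,0,0,0,0,0,0,0,4,0,0,0] (.use (.R 0 4)
  [(false,4,1,1),(false,3,1,1),(false,2,1,1),(false,5,1,1),(true,1,1,1),(false,0,1,1)] (.split
  [0,-2,-3,-4,-5,0,0,0,0,0,0,2,0,0,0,0] (.split [0,-2,-3,-4,-5,0,0,0,0,0,0,0,8,0,0,0] (.split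
  [0,-2,-3,-4,-5,0,0,0,0,0,2,0,2,0,0,0] (.use (.R 0 0)
  [(false,8,1,1),(false,7,1,1),(false,6,1,1),(false,1,1,1),(false,0,1,1),(false,2,1,1)] (.leaf
  [15,0,0,0,0,0,0,0,0,0,0,0,0,22,0,20,0,0,0,0,0,48,0,0,588,308,364,252,84])) (.use (.R 0 0)
  [(false,8,1,1),(false,7,1,1),(false,6,1,1),(false,1,1,1),(true,0,1,1),(false,2,1,1)] (.leaf
  [5,0,0,0,0,0,0,0,0,0,0,0,0,12,0,5,0,0,0,0,0,38,0,0,168,168,224,42,14]))) (.split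
  [0,-2,-3,-4,-5,0,0,0,0,0,2,0,2,0,0,0] (.use (.R 0 0)
  [(false,8,1,1),(false,7,1,1),(false,6,1,1),(true,1,1,1),(false,0,1,1),(false,2,1,1)] (.leaf
  [1,0,0,0,1,0,0,0,0,0,0,0,0,2,0,2,0,0,0,0,0,4,0,0,56,28,56,28])) (.use (.R 0 0)
  [(false,8,1,1),(false,7,1,1),(false,6,1,1),(true,1,1,1),(true,0,1,1),(false,2,1,1)] (.split
  [0,0,0,0,0,0,-2,-3,-4,-5,2,0,0,0,0,0] (.split [0,0,0,0,0,0,-2,-3,-4,-5,0,4,0,0,0,0] (.leaf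
  [350,0,0,0,0,0,36,0,0,0,0,0,0,0,0,56,0,29,0,0,0,0,0,116,0,0,938,1134,798,126,42]) (.split
  [0,0,0,0,0,0,-2,-3,-4,-5,0,0,4,0,0,0] (.split [0,0,8,0,0,0,-2,-3,-4,-5,0,0,0,0,0,0] (.split
  [2,0,2,0,0,0,-2,-3,-4,-5,0,0,0,0,0,0] (.split [0,2,0,0,0,0,-2,-3,-4,-5,0,0,0,0,0,0] (.use (.R
  1 4) [(false,5,1,1),(true,4,1,1),(false,3,1,1),(false,2,1,1),(false,1,1,1),(false,0,1,1)]
  (.leaf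
  [4,0,0,0,0,0,0,5,0,0,0,1,0,0,0,0,0,0,0,0,10,0,0,0,0,0,0,0,20,0,0,112,168,280,0,0,0,20])) (.use
  (.R 1 4) [(false,5,1,1),(true,4,1,1),(false,3,1,1),(false,2,1,1),(false,1,1,1),(true,0,1,1)]
  (.leaf [3,0,0,0,0,0,0,3,0,0,0,0,0,0,0,0,0,0,0,0,7,0,2,0,0,0,0,0,18,0,0,126,98,196]))) (.leaf
  [98,0,0,0,0,3,0,0,0,3,0,0,0,0,0,0,0,0,0,0,2,0,0,0,0,0,32,0,0,168,56,196,28])) (.leaf
  [126,0,0,0,111,0,0,0,129,0,0,0,0,0,0,0,0,343,0,242,0,0,0,0,0,1026,0,0,5964,5516,9100,1890]))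
  (.leaf
  [700,0,0,0,0,0,0,82,0,0,0,0,0,0,0,0,65,0,130,0,0,0,0,0,134,0,0,1904,448,2324,966,0,0,612])))
  (.leaf [84,9,0,0,0,9,0,0,0,0,0,0,0,0,34,0,20,0,0,0,0,0,108,0,0,504,392,784,168,0,0,60])))))
  (.leaf [42,0,0,0,0,0,0,0,0,0,1,0,5,0,0,0,6,0,18,0,0,42,98,70,0,42]))) (.use (.R 0 4)
  [(false,4,1,1),(false,3,1,1),(false,2,1,1),(false,5,1,1),(true,1,1,1),(true,0,1,1)] (.leaf
  [20,63,21,0,0,0,0,0,0,6,0,20,0,0,0,0,0,0,0,0,0,252,448,0,0,0,180])))) (.split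
  [0,-2,-3,-4,-5,0,0,0,0,0,0,4,0,0,0,0] (.split [0,-2,-3,-4,-5,0,0,0,0,0,0,0,4,0,0,0] (.use (.R
  0 4) [(false,4,1,1),(false,3,1,1),(true,2,1,1),(false,5,1,1),(false,1,1,1),(false,0,1,1)]
  (.leaf [3,0,0,42,0,0,0,0,0,8,0,4,0,0,0,6,0,24,0,0,84,196,140])) (.use (.R 0 4)
  [(false,4,1,1),(false,3,1,1),(true,2,1,1),(false,5,1,1),(false,1,1,1),(true,0,1,1)] (.leaf
  [2,0,0,7,0,0,0,0,0,3,0,0,0,0,0,0,0,6,0,0,14,70,56]))) (.split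
  [0,-2,-3,-4,-5,0,0,0,0,0,0,0,4,0,0,0] (.use (.R 0 4)
  [(false,4,1,1),(false,3,1,1),(true,2,1,1),(false,5,1,1),(true,1,1,1),(false,0,1,1)] (.split
  [0,-2,-3,-4,-5,0,0,0,0,0,0,2,0,0,0,0] (.split [0,-2,-3,-4,-5,0,0,0,0,0,0,0,8,0,0,0] (.split
  [0,-2,-3,-4,-5,0,0,0,0,0,2,0,2,0,0,0] (.use (.R 0 0)
  [(false,8,1,1),(false,7,1,1),(true,6,1,1),(false,1,1,1),(false,0,1,1),(false,2,1,1)] (.leaf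
  [5,0,0,0,0,0,0,0,0,0,0,0,0,6,0,2,0,0,0,0,0,2,0,0,42,98,70,28,0,0,40])) (.use (.R 0 0)
  [(false,8,1,1),(false,7,1,1),(true,6,1,1),(false,1,1,1),(true,0,1,1),(false,2,1,1)] (.leaf
  [1,0,0,0,0,0,0,0,0,0,0,0,0,3,0,1,0,0,0,1,0,10,0,0,28,56,56]))) (.split
  [0,-2,-3,-4,-5,0,0,0,0,0,2,0,2,0,0,0] (.use (.R 0 0)
  [(false,8,1,1),(false,7,1,1),(true,6,1,1),(true,1,1,1),(false,0,1,1),(false,2,1,1)] (.leaf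
  [3,0,0,0,3,0,0,0,0,0,0,0,0,4,0,2,0,0,0,0,0,0,0,0,0,140,112,0,0,0,24])) (.use (.R 0 0)
  [(false,8,1,1),(false,7,1,1),(true,6,1,1),(true,1,1,1),(true,0,1,1),(false,2,1,1)] (.leaf
  [1,0,0,0,1,0,0,0,0,0,0,0,0,2,0,0,0,0,0,0,0,4,0,0,0,56,56,0,0,0,4])))) (.leaf
  [14,0,0,0,14,0,0,0,0,0,1,0,1,0,0,0,3,0,6,0,0,0,28,28,0,0,0,12]))) (.use (.R 0 4)
  [(false,4,1,1),(false,3,1,1),(true,2,1,1),(false,5,1,1),(true,1,1,1),(true,0,1,1)] (.leaf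
  [5,0,0,0,14,0,14,0,0,4,0,4,0,0,0,4,0,0,0,0,0,112,112,0,0,0,48]))))) (.split
  [0,-2,-3,-4,-5,0,2,0,0,0,0,0,0,0,0,0] (.split [0,-2,-3,-4,-5,0,0,0,0,0,0,4,0,0,0,0] (.split
  [0,-2,-3,-4,-5,0,0,0,0,0,0,0,4,0,0,0] (.use (.R 0 4)
  [(false,4,1,1),(true,3,1,1),(false,2,1,1),(false,5,1,1),(false,1,1,1),(false,0,1,1)] (.leaf
  [165,0,210,0,0,84,0,0,0,206,0,370,0,0,0,0,0,1308,0,0,6048,6832,6020,1512])) (.use (.R 0 4)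
  [(false,4,1,1),(true,3,1,1),(false,2,1,1),(false,5,1,1),(false,1,1,1),(true,0,1,1)] (.split
  [1,0,0,0,0,1,0,3,0,0,1,0,0,0,0,-1] (.use (.H 0 0 1185) [(false,0,1,1)] (.leaf
  [4,0,1,0,0,0,0,0,0,0,0,0,0,1,0,0,0,0,0,0,0,0,28,14,28,28])) (.use (.H 0 0 1185) [(true,0,1,1)]
  (.leaf [9,0,3,0,0,0,0,0,0,0,0,2,0,7,0,6,0,0,0,36,0,0,126,238,182,0,0,0,6]))))) (.split
  [0,-2,-3,-4,-5,0,0,0,0,0,0,0,4,0,0,0] (.use (.R 0 4)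
  [(false,4,1,1),(true,3,1,1),(false,2,1,1),(false,5,1,1),(true,1,1,1),(false,0,1,1)] (.split
  [0,-2,-3,-4,-5,0,0,0,0,0,0,2,0,0,0,0] (.split [0,-2,-3,-4,-5,0,0,0,0,0,0,0,8,0,0,0] (.split
  [0,-2,-3,-4,-5,0,0,0,0,0,2,0,2,0,0,0] (.use (.R 0 0)
  [(false,8,1,1),(true,7,1,1),(false,6,1,1),(false,1,1,1),(false,0,1,1),(false,2,1,1)] (.leaf
  [15,0,0,0,0,0,0,0,0,0,0,0,0,16,0,35,0,0,0,0,0,114,0,0,504,644,532,126,42])) (.use (.R 0 0)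
  [(false,8,1,1),(true,7,1,1),(false,6,1,1),(false,1,1,1),(true,0,1,1),(false,2,1,1)] (.leaf
  [1,0,0,0,0,0,0,0,0,0,0,0,0,2,0,2,0,0,0,0,0,12,0,0,28,56,56]))) (.split
  [0,-2,-3,-4,-5,0,0,0,0,0,2,0,2,0,0,0] (.use (.R 0 0)
  [(false,8,1,1),(true,7,1,1),(false,6,1,1),(true,1,1,1),(false,0,1,1),(false,2,1,1)] (.split
  [0,1,0,0,0,1,0,3,0,0,0,1,0,0,0,-1] (.use (.H 1 1 2210) [(false,0,2,1)] (.leaf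
  [2,0,1,0,0,0,1,0,0,0,0,0,0,0,0,0,0,0,0,0,0,0,0,8,0,0,56,28,56,56])) (.use (.H 1 1 2210)
  [(true,0,2,1)] (.leaf
  [2,0,3,70,0,0,3,0,0,0,0,0,0,0,0,0,0,16,0,0,0,0,0,24,0,0,168,224,168,28,0,0,4])))) (.use (.R 0
  0) [(false,8,1,1),(true,7,1,1),(false,6,1,1),(true,1,1,1),(true,0,1,1),(false,2,1,1)] (.split
  [0,0,0,0,0,0,-2,-3,-4,-5,2,0,0,0,0,0] (.split [0,0,0,0,0,0,-2,-3,-4,-5,0,4,0,0,0,0] (.leaf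
  [35,0,2,0,0,0,7,0,0,0,0,0,0,0,0,9,0,18,0,0,0,0,0,70,0,0,182,434,364]) (.split
  [0,0,0,0,0,0,-2,-3,-4,-5,0,0,4,0,0,0] (.split [0,0,8,0,0,0,-2,-3,-4,-5,0,0,0,0,0,0] (.split
  [2,0,2,0,0,0,-2,-3,-4,-5,0,0,0,0,0,0] (.split [0,2,0,0,0,0,-2,-3,-4,-5,0,0,0,0,0,0] (.use (.R
  1 4) [(false,5,1,1),(true,4,1,1),(false,3,1,1),(false,2,1,1),(false,1,1,1),(false,0,1,1)]
  (.leaf [1,0,0,0,0,0,0,1,0,0,0,0,0,0,0,0,0,0,0,0,1,0,0,0,0,0,0,0,6,0,0,14,42,56,0,0,0,4]))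
  (.use (.R 1 4)
  [(false,5,1,1),(true,4,1,1),(false,3,1,1),(false,2,1,1),(false,1,1,1),(true,0,1,1)] (.leaf
  [3,0,0,0,0,0,0,3,0,0,0,0,0,0,0,0,0,0,0,0,4,0,2,0,0,0,0,0,24,0,0,126,98,196,42]))) (.split
  [0,2,0,0,0,0,-2,-3,-4,-5,0,0,0,0,0,0] (.use (.R 1 4)
  [(false,5,1,1),(true,4,1,1),(false,3,1,1),(false,2,1,1),(true,1,1,1),(false,0,1,1)] (.leaf
  [6,0,0,0,0,0,0,7,0,0,0,1,0,0,0,0,0,0,0,0,0,0,0,0,0,0,0,0,56,0,0,140,252,392,0,0,0,28])) (.use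
  (.R 1 4) [(false,5,1,1),(true,4,1,1),(false,3,1,1),(false,2,1,1),(true,1,1,1),(true,0,1,1)]
  (.leaf [3,0,0,0,0,0,0,3,0,0,0,0,0,0,0,0,0,0,0,0,1,0,2,0,0,0,0,0,30,0,0,126,98,196])))) (.leaf
  [294,0,0,0,99,0,0,0,141,0,0,0,0,0,0,0,0,187,0,458,0,0,0,0,0,1914,0,0,4956,9884,10780,1050]))
  (.leaf [105,0,0,6,0,0,0,21,0,0,0,0,0,0,0,0,17,0,64,0,0,0,0,0,210,0,0,546,1162,1232]))) (.leaf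
  [42,3,0,0,0,3,0,0,0,0,0,0,0,0,10,0,14,0,0,0,0,0,72,0,0,168,308,364]))))) (.leaf
  [42,0,0,0,0,0,0,0,0,0,1,0,5,0,0,0,6,0,18,0,0,42,98,70,0,42]))) (.use (.R 0 4)
  [(false,4,1,1),(true,3,1,1),(false,2,1,1),(false,5,1,1),(true,1,1,1),(true,0,1,1)] (.leaf
  [1,0,0,0,0,0,0,0,0,0,0,2,0,0,0,0,0,4,0,0,0,28,28,0,0,0,12])))) (.split
  [0,-2,-3,-4,-5,0,0,0,0,0,0,4,0,0,0,0] (.split [0,-2,-3,-4,-5,0,0,0,0,0,0,0,4,0,0,0] (.use (.R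
  0 4) [(false,4,1,1),(true,3,1,1),(true,2,1,1),(false,5,1,1),(false,1,1,1),(false,0,1,1)]
  (.leaf [3,0,0,0,0,0,0,0,0,2,0,4,0,0,0,0,0,12,0,0,0,112,56,0,0,0,36])) (.use (.R 0 4)
  [(false,4,1,1),(true,3,1,1),(true,2,1,1),(false,5,1,1),(false,1,1,1),(true,0,1,1)] (.leaf
  [1,0,0,0,0,0,0,0,0,0,0,1,0,0,0,0,0,4,0,0,0,42,28]))) (.split
  [0,-2,-3,-4,-5,0,0,0,0,0,0,0,4,0,0,0] (.use (.R 0 4)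
  [(false,4,1,1),(true,3,1,1),(true,2,1,1),(false,5,1,1),(true,1,1,1),(false,0,1,1)] (.split
  [0,-2,-3,-4,-5,0,0,0,0,0,0,2,0,0,0,0] (.split [0,-2,-3,-4,-5,0,0,0,0,0,0,0,8,0,0,0] (.split
  [0,-2,-3,-4,-5,0,0,0,0,0,2,0,2,0,0,0] (.use (.R 0 0)
  [(false,8,1,1),(true,7,1,1),(true,6,1,1),(false,1,1,1),(false,0,1,1),(false,2,1,1)] (.leaf
  [9,14,0,0,0,0,0,0,0,0,0,0,0,5,0,12,0,0,0,0,0,30,0,0,0,308,140,14,0,0,116])) (.use (.R 0 0)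
  [(false,8,1,1),(true,7,1,1),(true,6,1,1),(false,1,1,1),(true,0,1,1),(false,2,1,1)] (.leaf
  [3,0,0,0,0,0,0,0,0,0,0,0,0,4,0,2,0,0,0,0,0,24,0,0,0,140,112,0,0,0,24]))) (.split
  [0,-2,-3,-4,-5,0,0,0,0,0,2,0,2,0,0,0] (.use (.R 0 0)
  [(false,8,1,1),(true,7,1,1),(true,6,1,1),(true,1,1,1),(false,0,1,1),(false,2,1,1)] (.leaf
  [1,0,0,0,1,0,0,0,0,0,0,0,0,0,0,2,0,0,0,0,0,8,0,0,0,84,56])) (.use (.R 0 0)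
  [(false,8,1,1),(true,7,1,1),(true,6,1,1),(true,1,1,1),(true,0,1,1),(false,2,1,1)] (.leaf
  [3,0,0,0,3,0,0,0,0,0,0,0,0,1,0,2,0,0,0,0,0,30,0,0,0,224,196,42])))) (.leaf
  [14,0,0,0,14,0,0,0,0,0,1,0,1,0,0,0,3,0,6,0,0,0,28,28,0,0,0,12]))) (.use (.R 0 4)
  [(false,4,1,1),(true,3,1,1),(true,2,1,1),(false,5,1,1),(true,1,1,1),(true,0,1,1)] (.leaf
  [3,0,0,0,0,0,0,0,0,1,0,5,0,0,0,3,0,18,0,0,0,140,112,0,0,0,24])))))) (.split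
  [0,-2,-3,-4,-5,2,0,2,0,0,0,0,0,0,0,0] (.split [0,-2,-3,-4,-5,0,2,0,0,0,0,0,0,0,0,0] (.split
  [0,-2,-3,-4,-5,0,0,0,0,0,0,4,0,0,0,0] (.split [0,-2,-3,-4,-5,0,0,0,0,0,0,0,4,0,0,0] (.use (.R
  0 4) [(true,4,1,1),(false,3,1,1),(false,2,1,1),(false,5,1,1),(false,1,1,1),(false,0,1,1)]
  (.split [0,1,0,0,0,1,2,0,0,0,0,1,0,0,0,-1] (.use (.H 1 1 2146) [(false,0,2,1)] (.leaf
  [32,0,8,0,0,0,0,0,0,26,0,5,0,0,0,54,0,0,0,148,0,0,658,966,658,0,154])) (.use (.H 1 1 2146)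
  [(true,0,2,1)] (.leaf [6,0,6,0,0,0,0,0,0,0,0,7,0,11,0,0,0,0,0,30,0,0,210,350,154,0,126]))))
  (.use (.R 0 4)
  [(true,4,1,1),(false,3,1,1),(false,2,1,1),(false,5,1,1),(false,1,1,1),(true,0,1,1)] (.leaf
  [5,14,0,0,84,0,0,4,0,6,0,0,0,20,0,0,0,16,0,0,196,196,196,56]))) (.split
  [0,-2,-3,-4,-5,0,0,0,0,0,0,0,4,0,0,0] (.use (.R 0 4)
  [(true,4,1,1),(false,3,1,1),(false,2,1,1),(false,5,1,1),(true,1,1,1),(false,0,1,1)] (.split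
  [0,1,0,2,0,1,2,0,0,0,0,1,0,2,0,-1] (.use (.H 1 1 10346) [(false,0,2,1)] (.leaf
  [35,0,1,0,0,0,0,0,0,28,0,9,0,0,0,42,0,14,0,170,0,0,700,868,658,0,140])) (.use (.H 1 1 10346)
  [(true,0,2,1)] (.split [1,0,0,0,0,1,0,3,0,0,1,0,0,0,0,-1] (.use (.H 0 0 1185) [(false,0,1,1)]
  (.leaf [60,0,0,0,27,0,0,0,0,0,0,0,0,0,0,58,0,0,0,5,0,0,0,0,434,1162,294,84,882,0,60])) (.use
  (.H 0 0 1185) [(true,0,1,1)] (.use (.H 1 2 1354) [(false,14,2,1)] (.split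
  [1,0,3,0,0,1,0,0,0,0,1,0,3,0,0,-1] (.use (.H 0 0 5157) [(false,0,1,1)] (.leaf
  [12,0,3,0,0,0,0,0,0,0,0,0,0,0,0,0,0,0,5,0,0,0,4,0,6,0,0,70,98,42,0,42])) (.use (.H 0 0 5157)
  [(true,0,1,1)] (.split [1,0,3,0,0,1,0,0,0,0,1,0,0,0,0,-1] (.use (.H 0 0 1061) [(false,0,1,1)]
  (.split [0,-2,-3,-4,-5,2,0,0,0,0,0,0,0,0,0,0] (.split [0,-2,-3,-4,-5,0,4,0,0,0,0,0,0,0,0,0]
  (.leaf [14,0,0,0,0,0,0,0,0,2,0,1,0,0,0,0,0,0,0,0,0,0,4,0,0,0,0,0,8,0,0,56,84,28,0,56]) (.split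
  [0,-2,-3,-4,-5,0,0,4,0,0,0,0,0,0,0,0] (.use (.R 0 6)
  [(false,2,1,1),(true,1,1,1),(false,0,1,1),(false,18,1,1),(true,14,1,1),(false,13,1,1)] (.split
  [0,-2,-3,-4,-5,0,0,0,0,0,0,2,0,0,0,0] (.split [0,-2,-3,-4,-5,0,0,0,0,0,0,0,8,0,0,0] (.split
  [0,-2,-3,-4,-5,0,0,0,0,0,2,0,2,0,0,0] (.use (.R 0 0)
  [(true,21,1,1),(false,20,1,1),(false,19,1,1),(false,1,1,1),(false,0,1,1),(false,2,1,1)] (.leaf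
  [2,14,0,0,1,0,0,0,12,0,6,0,0,0,0,0,0,9,0,0,0,0,0,0,0,0,0,0,26,0,0,0,0,0,16,0,0,224,588,140,0,392]))
  (.use (.R 0 0)
  [(true,21,1,1),(false,20,1,1),(false,19,1,1),(false,1,1,1),(true,0,1,1),(false,2,1,1)] (.split
  [0,1,0,0,0,0,1,0,0,0,1,0,0,0,0,-1] (.use (.H 1 2 1090) [(false,0,2,1)] (.leaf
  [4,0,2,0,0,0,1,0,0,0,0,0,0,0,0,0,0,0,0,0,0,0,0,0,0,0,0,0,0,0,4,0,0,0,0,0,16,0,0,56,140,84,0,56]))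
  (.leaf
  [42,8,0,0,0,4,0,0,0,18,0,18,0,0,0,0,0,0,66,0,0,0,0,0,0,0,0,0,0,167,0,0,0,0,0,196,0,0,1274,3990,854,0,2870]))))
  (.split [0,-2,-3,-4,-5,0,0,0,0,0,2,0,2,0,0,0] (.use (.R 0 0)
  [(true,21,1,1),(false,20,1,1),(false,19,1,1),(true,1,1,1),(false,0,1,1),(false,2,1,1)] (.leaf
  [1,0,0,0,1,0,0,0,0,0,0,0,0,0,0,0,0,6,0,0,0,0,0,0,0,0,0,0,16,0,0,0,0,0,16,0,0,112,364,84,0,252]))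
  (.use (.R 0 0)
  [(true,21,1,1),(false,20,1,1),(false,19,1,1),(true,1,1,1),(true,0,1,1),(false,2,1,1)] (.split
  [0,0,8,0,0,0,0,0,0,0,0,-2,-3,-4,-5,0] (.split [2,0,2,0,0,0,0,0,0,0,0,-2,-3,-4,-5,0] (.split
  [0,0,0,0,0,2,0,0,0,0,0,-2,-3,-4,-5,0] (.split [0,0,0,0,0,0,4,0,0,0,0,-2,-3,-4,-5,0] (.leaf
  [2632,0,0,0,57,0,0,0,216,0,0,0,0,0,0,0,0,0,0,0,0,0,0,0,0,0,0,0,0,0,0,0,488,0,0,0,0,0,760,0,0,3724,7672,8204,0,3948])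
  (.split [0,0,0,0,0,0,0,4,0,0,0,-2,-3,-4,-5,0] (.split [0,2,0,0,0,0,0,0,0,0,0,-2,-3,-4,-5,0]
  (.use (.R 2 2)
  [(false,5,1,1),(false,4,1,1),(false,0,1,1),(false,3,1,1),(true,2,1,1),(false,1,1,1)] (.leaf
  [4,0,0,0,0,0,0,3,0,0,0,0,0,0,0,0,0,0,0,0,0,0,0,0,2,0,0,0,0,0,0,0,0,0,0,2,0,0,0,0,0,4,0,0,56,168,168,0,0,0,4]))
  (.use (.R 2 2)
  [(false,5,1,1),(false,4,1,1),(true,0,1,1),(false,3,1,1),(true,2,1,1),(false,1,1,1)] (.leaf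
  [4,0,0,0,0,0,0,2,0,0,0,0,0,0,0,0,0,0,0,0,0,0,0,0,13,0,0,0,0,0,0,0,0,0,0,30,0,0,0,0,0,28,0,0,252,728,140,0,476,0,40])))
  (.leaf
  [28,0,0,0,0,12,0,0,0,14,0,0,0,292,0,0,0,0,0,0,0,0,99,0,0,0,0,0,0,0,0,0,0,250,0,0,0,0,0,0,0,0,1708,5936,1316,0,4228])))
  (.leaf
  [56,0,0,1,0,0,0,0,0,0,0,0,0,0,0,0,0,0,0,0,12,0,0,0,0,0,0,0,0,0,0,32,0,0,0,0,0,56,0,0,252,728,140,0,476]))
  (.leaf
  [3108,0,83,0,0,0,30,0,0,0,0,0,0,0,0,0,0,0,0,56,0,0,0,0,0,0,0,0,0,0,0,0,0,0,0,0,1084,0,0,3780,6944,1456,0,3164]))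
  (.leaf
  [28,23,0,0,0,25,0,0,0,0,0,0,0,0,0,0,0,0,191,0,0,0,0,0,0,0,0,0,0,478,0,0,0,0,0,556,0,0,3248,11284,2548,0,8036,0,20])))))
  (.leaf
  [42,0,0,0,0,0,0,0,0,0,0,0,0,0,0,0,0,0,0,0,0,0,0,0,0,4,0,0,0,5,0,12,0,0,14,70,42,0,42,0,12])))
  (.leaf
  [462,0,0,0,0,132,0,0,0,0,62,0,15,0,0,0,0,0,0,0,0,0,0,0,0,0,0,16,0,208,0,0,1176,2044,1652,0,168])))
  (.leaf [588,0,0,0,0,0,0,0,0,0,9,0,0,0,0,0,0,0,0,0,0,62,0,0,0,22,0,264,0,0,364,1232,924])))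
  (.use (.H 0 0 1061) [(true,0,1,1)] (.split [1,0,0,0,0,1,0,0,0,0,1,0,3,0,0,-1] (.use (.H 0 0
  5153) [(false,0,1,1)] (.leaf
  [24,0,6,0,0,0,0,24,0,0,0,3,0,0,0,0,0,0,0,0,0,0,20,0,0,0,7,0,36,0,0,322,602,126,0,378])) (.leaf
  [70,12,0,0,0,0,0,0,0,0,3,0,0,0,0,0,0,0,0,0,0,3,0,0,0,0,0,28,0,0,168,168,168,42,42]))))))))))))
  (.use (.R 0 4)
  [(true,4,1,1),(false,3,1,1),(false,2,1,1),(false,5,1,1),(true,1,1,1),(true,0,1,1)] (.leaf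
  [3,21,0,0,0,0,0,0,0,0,0,4,0,12,0,2,0,24,0,0,56,196,168])))) (.split
  [0,-2,-3,-4,-5,0,0,0,0,0,0,4,0,0,0,0] (.split [0,-2,-3,-4,-5,0,0,0,0,0,0,0,4,0,0,0] (.leaf
  [21,0,252,0,63,0,0,0,10,0,0,0,12,0,26,0,72,0,0,56,504,280]) (.use (.R 0 4)
  [(true,4,1,1),(false,3,1,1),(true,2,1,1),(false,5,1,1),(false,1,1,1),(true,0,1,1)] (.leaf
  [11,0,0,0,0,0,0,0,0,2,0,0,0,28,0,4,0,24,0,0,0,392,252,84,0,0,128]))) (.leaf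
  [21,252,0,63,0,0,0,8,0,0,0,12,0,28,0,72,0,0,28,504,308]))) (.split
  [0,-2,-3,-4,-5,0,2,0,0,0,0,0,0,0,0,0] (.split [0,-2,-3,-4,-5,0,0,0,0,0,0,4,0,0,0,0] (.split
  [0,-2,-3,-4,-5,0,0,0,0,0,0,0,4,0,0,0] (.use (.R 0 4)
  [(true,4,1,1),(true,3,1,1),(false,2,1,1),(false,5,1,1),(false,1,1,1),(false,0,1,1)] (.split
  [0,1,0,2,0,1,2,0,0,0,0,1,0,2,0,-1] (.use (.H 1 1 10346) [(false,0,2,1)] (.leaf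
  [4,0,1,0,0,0,0,0,0,2,0,0,0,0,0,4,0,0,0,16,0,0,56,112,56,0,28])) (.use (.H 1 1 10346)
  [(true,0,2,1)] (.use (.H 1 2 1354) [(false,12,2,1)] (.split
  [0,-2,-3,-4,-5,2,0,0,0,0,0,0,0,0,0,0] (.split [0,-2,-3,-4,-5,0,4,0,0,0,0,0,0,0,0,0] (.leaf
  [42,0,1,6,0,0,0,0,0,0,0,0,0,0,0,0,5,0,0,0,0,0,18,0,0,126,98,70,0,42]) (.split
  [0,-2,-3,-4,-5,0,0,4,0,0,0,0,0,0,0,0] (.use (.R 0 6)
  [(false,2,1,1),(true,1,1,1),(false,0,1,1),(false,12,1,1),(false,8,1,1),(false,7,1,1)] (.leaf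
  [3,0,21,0,8,0,0,6,0,0,0,0,0,0,0,0,0,0,16,0,0,0,0,0,48,0,0,168,448,224,0,84])) (.leaf
  [7,21,0,0,0,0,2,0,0,0,0,0,0,0,0,0,0,2,0,0,0,0,0,8,0,0,0,112,28,0,28]))) (.leaf
  [21,0,1,0,1,0,0,0,0,0,0,0,0,0,0,3,0,0,0,0,0,12,0,0,14,70,42,0,0,0,14])))))) (.use (.R 0 4)
  [(true,4,1,1),(true,3,1,1),(false,2,1,1),(false,5,1,1),(false,1,1,1),(true,0,1,1)] (.split
  [0,1,0,2,0,1,2,0,0,0,0,1,0,2,0,-1] (.use (.H 1 1 10346) [(false,0,2,1)] (.leaf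
  [3,0,2,0,0,0,0,0,0,4,0,0,0,3,0,10,0,0,0,32,0,0,98,210,140,0,14])) (.use (.H 1 1 10346)
  [(true,0,2,1)] (.split [0,1,0,0,0,0,1,0,0,0,1,0,0,0,0,-1] (.use (.H 1 2 1090) [(false,0,2,1)]
  (.leaf [6,0,16,0,9,0,0,0,0,0,0,0,0,0,0,14,0,0,0,0,0,80,0,0,280,616,448])) (.leaf
  [14,6,0,3,0,0,0,0,0,0,0,0,0,0,1,0,0,0,0,0,18,0,0,126,154,98,84,42])))))) (.split
  [0,-2,-3,-4,-5,0,0,0,0,0,0,0,4,0,0,0] (.use (.R 0 4)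
  [(true,4,1,1),(true,3,1,1),(false,2,1,1),(false,5,1,1),(true,1,1,1),(false,0,1,1)] (.split
  [0,1,0,2,0,1,2,0,0,0,0,1,0,2,0,-1] (.use (.H 1 1 10346) [(false,0,2,1)] (.leaf
  [103,0,11,0,0,0,0,0,0,62,0,0,0,0,0,144,0,25,0,482,0,0,1708,2716,1890,0,476])) (.use (.H 1 1
  10346) [(true,0,2,1)] (.split [0,-2,-3,-4,-5,2,0,0,0,0,0,0,0,0,0,0] (.split
  [0,-2,-3,-4,-5,0,0,4,0,0,0,0,0,0,0,0] (.split [0,-2,-3,-4,-5,0,4,0,0,0,0,0,0,0,0,0] (.use (.R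
  0 6) [(false,2,1,1),(false,0,1,1),(false,1,1,1),(false,11,1,1),(true,7,1,1),(false,6,1,1)]
  (.leaf [1,63,0,0,8,0,2,0,0,0,0,0,0,0,0,0,0,16,0,0,0,0,0,40,0,0,224,308,140,0,168])) (.use (.R
  0 6) [(false,2,1,1),(true,0,1,1),(false,1,1,1),(false,11,1,1),(true,7,1,1),(false,6,1,1)]
  (.split [0,-2,-3,-4,-5,0,0,0,0,0,0,2,0,0,0,0] (.split [0,-2,-3,-4,-5,0,0,0,0,0,0,0,8,0,0,0]
  (.split [0,-2,-3,-4,-5,0,0,0,0,0,2,0,2,0,0,0] (.use (.R 0 0)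
  [(true,14,1,1),(true,13,1,1),(false,12,1,1),(false,1,1,1),(false,0,1,1),(false,2,1,1)] (.split
  [0,1,0,0,0,0,1,0,0,0,1,0,0,0,0,-1] (.use (.H 1 2 1090) [(false,0,2,1)] (.leaf
  [4,0,6,0,0,0,3,0,0,0,0,0,0,0,0,0,0,0,0,0,0,0,0,20,0,0,0,0,0,48,0,0,168,476,196,0,168])) (.leaf
  [14,28,140,0,0,14,0,0,0,0,0,13,0,0,0,0,0,0,0,0,0,0,139,0,0,0,0,0,262,0,0,966,3038,910,0,1330])))
  (.use (.R 0 0)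
  [(true,14,1,1),(true,13,1,1),(false,12,1,1),(false,1,1,1),(true,0,1,1),(false,2,1,1)] (.use
  (.H 1 2 1354) [(false,20,2,1)] (.use (.R 0 2)
  [(false,8,1,1),(true,6,1,1),(false,7,1,1),(false,3,1,1),(true,2,1,1),(false,4,1,1)] (.split
  [0,0,8,0,0,0,0,0,0,0,0,-2,-3,-4,-5,0] (.split [2,0,2,0,0,0,0,0,0,0,0,-2,-3,-4,-5,0] (.split
  [0,2,0,0,0,0,0,0,0,0,0,-2,-3,-4,-5,0] (.split [0,0,0,0,0,2,0,0,0,0,0,-2,-3,-4,-5,0] (.split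
  [0,0,0,0,0,0,4,0,0,0,0,-2,-3,-4,-5,0] (.leaf
  [28,0,0,0,0,5,12,1,0,0,0,0,0,0,0,0,0,0,0,0,0,0,0,0,0,0,0,0,6,0,0,0,0,0,44,0,0,112,224,280,0,0,0,12])
  (.split [0,0,0,0,0,0,0,4,0,0,0,-2,-3,-4,-5,0] (.use (.R 2 2)
  [(false,5,1,1),(false,4,1,1),(false,3,1,1),(false,2,1,1),(true,1,1,1),(false,0,1,1)] (.leaf
  [1,0,0,0,0,0,0,0,0,1,0,0,0,0,0,0,0,0,0,0,0,0,0,0,0,0,0,0,0,0,1,0,0,0,0,0,6,0,0,14,56,42,0,0,0,4]))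
  (.leaf
  [91,0,0,0,0,7,12,32,0,0,0,0,0,0,0,0,0,0,0,0,0,0,0,0,0,0,0,0,0,4,0,0,0,0,0,76,0,0,196,476,420,0,0,0,64])))
  (.leaf
  [1512,0,0,168,0,110,27,0,21,0,0,0,0,0,0,0,0,0,0,0,0,0,0,0,0,0,0,190,0,0,0,0,0,924,0,0,1932,3808,1904,0,0,0,528]))
  (.leaf
  [112,0,0,0,10,1,0,7,0,0,0,0,0,0,0,0,0,0,0,0,0,0,0,0,0,0,10,0,0,0,0,0,36,0,0,196,224,0,0,112]))
  (.leaf
  [406,0,17,44,17,0,0,0,0,0,0,0,0,0,0,0,0,0,0,0,0,0,0,0,0,0,0,0,0,0,0,312,0,0,756,1568,1036,0,196]))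
  (.leaf
  [126,114,407,96,0,0,0,0,0,0,0,0,0,0,0,0,0,0,0,0,0,0,0,0,223,0,0,0,0,0,1806,0,0,4074,10570,9086,0,1050]))))))
  (.split [0,-2,-3,-4,-5,0,0,0,0,0,2,0,2,0,0,0] (.use (.R 0 0)
  [(true,14,1,1),(true,13,1,1),(false,12,1,1),(true,1,1,1),(false,0,1,1),(false,2,1,1)] (.leaf
  [10,280,42,0,13,0,0,0,0,0,4,0,0,0,0,0,0,0,0,0,0,48,0,0,0,0,0,24,0,0,336,812,532])) (.use (.R 0
  0) [(true,14,1,1),(true,13,1,1),(false,12,1,1),(true,1,1,1),(true,0,1,1),(false,2,1,1)]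
  (.split [0,0,8,0,0,0,0,0,0,0,0,-2,-3,-4,-5,0] (.split [2,0,2,0,0,0,0,0,0,0,0,-2,-3,-4,-5,0]
  (.split [0,0,0,0,0,2,0,0,0,0,0,-2,-3,-4,-5,0] (.split [0,0,0,0,0,0,4,0,0,0,0,-2,-3,-4,-5,0]
  (.leaf
  [112,0,0,0,5,0,0,0,13,0,0,0,0,0,6,0,0,0,0,0,0,0,0,0,0,48,0,0,0,0,0,104,0,0,280,1008,672,0,420])
  (.split [0,0,0,0,0,0,0,4,0,0,0,-2,-3,-4,-5,0] (.split [0,2,0,0,0,0,0,0,0,0,0,-2,-3,-4,-5,0]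
  (.use (.R 2 2)
  [(false,5,1,1),(false,4,1,1),(false,0,1,1),(false,3,1,1),(true,2,1,1),(false,1,1,1)] (.leaf
  [12,0,0,0,0,0,0,12,0,0,0,6,0,0,0,0,0,7,0,0,0,0,0,0,0,0,0,0,26,0,0,0,0,0,108,0,0,224,1092,924,0,0,0,20]))
  (.use (.R 2 2)
  [(false,5,1,1),(false,4,1,1),(true,0,1,1),(false,3,1,1),(true,2,1,1),(false,1,1,1)] (.leaf
  [126,0,0,0,966,0,0,65,0,0,0,2,0,0,0,0,0,41,0,0,0,0,0,0,0,0,0,0,78,0,0,0,0,0,240,0,0,2352,5320,3668])))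
  (.leaf
  [28,0,0,0,0,1,0,0,0,3,0,0,0,0,0,0,0,0,0,0,0,0,0,0,0,0,2,0,0,0,0,0,4,0,0,56,112,0,84,112,0,16])))
  (.leaf
  [84,0,0,1,0,0,0,1,0,0,0,0,0,7,0,0,0,0,0,0,0,0,0,0,30,0,0,0,0,0,84,0,0,168,644,196,0,252,0,36]))
  (.leaf [168,0,5,0,0,0,5,0,0,0,0,0,2,0,0,0,0,0,0,0,0,0,0,0,0,0,0,0,0,72,0,0,168,448,224,0,84]))
  (.leaf
  [336,77,0,0,0,101,0,0,0,0,0,182,0,0,0,0,0,0,0,0,0,0,720,0,0,0,0,0,1896,0,0,3864,18928,8288,0,7812])))))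
  (.leaf [168,0,0,0,0,0,0,3,0,0,0,0,0,0,0,0,0,0,28,0,0,0,23,0,84,0,0,182,574,294,0,294]))))
  (.leaf [56,0,8,0,1,0,0,0,0,0,0,0,0,0,0,4,0,0,0,5,0,28,0,0,98,266,98,0,98])) (.leaf
  [546,0,0,15,0,0,0,0,0,0,0,0,0,0,82,0,0,0,26,0,336,0,0,476,1624,1260]))))) (.use (.R 0 4)
  [(true,4,1,1),(true,3,1,1),(false,2,1,1),(false,5,1,1),(true,1,1,1),(true,0,1,1)] (.split
  [1,0,0,0,0,1,2,0,0,0,1,0,0,0,0,-1] (.use (.H 0 0 1121) [(false,0,1,1)] (.leaf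
  [156,0,0,42,0,0,0,0,0,10,0,0,0,26,0,66,0,7,0,0,0,0,532,728,630])) (.use (.H 0 0 1121)
  [(true,0,1,1)] (.leaf [18,0,6,42,0,0,0,0,0,0,0,0,0,10,0,6,0,5,0,60,0,0,140,448,378]))))))
  (.leaf [28,14,7,0,2,0,0,0,0,0,0,0,2,0,8,0,0,0,56,28])))) (.leaf
  [42,0,0,4,0,2,0,0,0,3,0,24,0,0,42,98,70,0,42]))))) (.use (.H 1 2 1354) [(true,0,2,1)] (.leaf
  [10,0,2,0,0,0,1,0,12,0,0,70,98,42,0,42,0,60])))) (.use (.H 1 1 10282) [(true,0,2,1)] (.leaf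
  [1,0,0,0,0,0,1,0,0,7,7,7,0,0,0,4])))) (.leaf [231,11,0,44,0,21,231,154,154,21,357,2]))) (.use
  (.H 1 0 10561) [(true,0,2,1)] (.leaf [1,0,1,0,0,7,7,7,0,0,0,4])))) (.use (.H 0 0 1057)
  [(true,0,1,1)] (.leaf [1,0,0,0,0,0,0,0,0,6])))

theorem certD_ok : chk 7 (vmk (fun _ _ => 1) (5)) certD (baseF 52 33 2 1) = true := by
  decide +kernel

end AbcEM
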