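import Pool.Agent.Work.MP_a793bb_nt.EM.CDefs

set_option autoImplicit false
set_option maxRecDepth 100000

namespace AbcEM

/-- certificate G1 -/
def certG1 : Cert :=
  .use (.H 0 0 31) [(false,0,1,1)] (.split [1,0,0,0,0,1,0,0,0,0,1,0,0,0,0,-1] (.use (.H 0 0 1057)
  [(false,0,1,1)] (.split [1,0,0,0,0,1,0,0,0,0,0,2,0,0,0,-1] (.use (.H 0 0 2081) [(false,0,1,1)]
  (.split [1,0,0,0,0,1,2,0,0,0,1,0,0,0,0,-1] (.use (.H 0 0 1121) [(false,0,1,1)] (.split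
  [0,2,0,0,0,0,1,0,0,0,0,1,0,0,0,-1] (.use (.H 1 0 2114) [(false,0,2,1)] (.split
  [0,0,0,0,0,0,1,0,0,0,1,2,0,0,0,-1] (.use (.H 1 2 3136) [(false,0,2,1)] (.split
  [1,2,0,0,0,0,0,1,0,0,0,0,1,0,0,-1] (.use (.H 2 0 4227) [(false,0,3,1)] (.split
  [1,0,0,0,0,0,1,0,0,0,0,1,0,2,0,-1] (.use (.H 1 0 10305) [(false,0,2,1)] (.split
  [0,0,1,0,0,0,0,1,0,0,1,2,0,0,0,-1] (.use (.H 2 2 3204) [(false,0,3,1)] (.split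
  [0,0,0,0,-5,1,1,1,1,1,1,1,1,1,1,0] (.use (.M 0 16) [(false,0,1,1)] (.leaf
  [1,0,0,0,0,0,0,0,0,0,0,0,0,0,0,0,0,0,0,14,0,0,20,10])) (.use (.M 0 16) [(true,0,1,1)] (.split
  [1,1,1,1,1,0,0,0,-4,0,1,1,1,1,1,0] (.use (.M 1 8) [(false,0,1,1)] (.split
  [1,1,1,1,1,1,1,1,0,1,-2,-2,-2,-2,-2,0] (.use (.E 1 0 3) [(false,0,1,1)] (.split
  [0,2,0,0,0,1,0,0,0,0,1,0,0,0,0,-1] (.use (.H 0 0 1058) [(false,0,1,1)] (.use (.M 0 16)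
  [(true,7,1,1)] (.split [1,1,1,1,1,1,1,1,1,1,0,0,0,0,-5,0] (.use (.M 2 16) [(false,0,1,1)]
  (.leaf [5,0,1,0,0,4,0,2,0,0,0,0,0,0,0,0,0,0,0,0,0,0,0,0,0,0,0,0,0,0,88,0,0,0,80])) (.use (.M 2
  16) [(true,0,1,1)] (.split [0,0,0,1,0,0,0,0,1,0,1,2,0,0,0,-1] (.use (.H 3 2 3336)
  [(false,0,4,1)] (.split [1,2,0,0,0,0,0,0,1,0,0,0,0,1,0,-1] (.use (.H 3 0 8451) [(false,0,4,1)]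
  (.split [1,0,3,0,0,0,0,0,1,0,0,0,0,0,0,-1] (.use (.H 3 0 261) [(false,0,4,1)] (.split
  [0,0,3,0,0,0,0,0,1,0,0,0,0,1,0,-1] (.use (.H 3 0 8452) [(false,0,4,1)] (.split
  [0,1,0,0,0,0,0,0,2,0,1,0,0,0,0,-1] (.use (.H 1 2 1282) [(false,0,2,1)] (.use (.H 3 2 3336)
  [(false,9,4,1)] (.use (.M 0 16) [(true,21,1,1)] (.use (.H 3 0 8451) [(false,9,4,1)] (.split
  [0,0,1,0,0,1,0,0,0,0,0,0,1,0,0,-1] (.use (.H 2 1 4132) [(false,0,3,1)] (.split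
  [-2,-2,-2,-2,-2,1,1,1,1,1,1,1,0,1,1,0] (.use (.E 2 1 2) [(false,0,1,1)] (.use (.H 3 0 261)
  [(false,12,4,1)] (.use (.M 0 16) [(true,28,1,1)] (.use (.H 3 0 8451) [(false,16,4,1)] (.use
  (.H 3 2 3336) [(false,19,4,1)] (.use (.E 2 1 2) [(false,5,1,1)] (.use (.H 3 0 8451)
  [(false,19,4,1)] (.use (.M 2 16) [(true,24,1,1)] (.use (.H 2 2 3204) [(false,36,3,1)] (.use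
  (.H 3 2 3336) [(false,24,4,1)] (.use (.M 2 16) [(true,27,1,1)] (.use (.H 0 0 1057)
  [(false,53,1,1)] (.use (.H 3 0 8451) [(false,25,4,1)] (.split
  [0,0,0,1,0,0,0,0,1,0,1,2,0,4,0,-1] (.use (.H 3 2 11528) [(false,0,4,1)] (.use (.H 3 0 8451)
  [(false,28,4,1)] (.split [1,1,1,1,1,1,1,1,1,1,0,0,0,-4,0,0] (.use (.M 2 8) [(false,0,1,1)]
  (.leaf
  [5,0,1,1,0,0,0,0,0,0,0,0,0,0,0,0,0,0,0,0,0,0,0,0,0,0,0,0,0,0,0,0,0,0,0,0,0,0,0,5,0,6,0,0,0,0,0,0,0,0,0,0,0,0,0,0,0,0,0,0,0,0,80,0,80,0,0,0,120]))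
  (.use (.M 2 8) [(true,0,1,1)] (.use (.M 0 16) [(true,44,1,1)] (.use (.M 2 8) [(true,2,1,1)]
  (.split [0,0,0,1,0,0,0,0,1,0,1,0,3,0,0,-1] (.use (.H 3 2 5384) [(false,0,4,1)] (.split
  [0,0,0,-4,-5,1,1,1,1,1,1,1,1,1,1,0] (.use (.M 0 24) [(false,0,1,1)] (.leaf
  [123,0,22,0,0,82,0,0,0,44,0,0,0,0,0,0,0,0,0,0,0,0,0,0,0,0,0,0,0,0,0,0,0,0,0,0,0,0,0,0,0,0,0,0,0,65,0,238,0,0,0,0,0,0,0,0,0,0,0,0,0,0,0,0,0,0,0,0,0,1960,3520,0,0,0,3480]))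
  (.use (.M 0 24) [(true,0,1,1)] (.split [1,0,0,4,0,0,0,0,1,0,0,0,0,0,0,-1] (.use (.H 3 0 265)
  [(false,0,4,1)] (.use (.M 2 8) [(true,9,1,1)] (.use (.H 3 0 8451) [(false,40,4,1)] (.use (.M 2
  16) [(true,45,1,1)] (.split [1,2,3,4,0,0,0,0,1,0,0,0,0,1,0,-1] (.use (.H 3 0 8463)
  [(false,0,4,1)] (.leaf
  [3,0,0,0,0,0,0,4,0,0,0,0,0,0,0,0,0,0,0,0,0,0,0,0,0,0,0,0,0,0,0,0,0,0,0,0,0,0,0,0,0,0,0,0,0,0,0,0,0,0,0,0,16,0,14,0,0,0,0,0,0,0,0,0,0,0,0,0,0,0,0,0,0,0,0,0,0,0,560,880,0,560]))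
  (.use (.H 3 0 8463) [(true,0,4,1)] (.use (.H 3 0 261) [(false,42,4,1)] (.use (.H 2 1 4132)
  [(false,34,3,1)] (.split [0,1,0,2,0,0,0,0,2,0,0,2,0,0,0,-1] (.use (.H 1 2 2314)
  [(false,0,2,1)] (.split [1,2,0,0,0,0,1,0,2,0,0,1,0,2,0,-1] (.use (.H 1 0 10563)
  [(false,0,2,1)] (.use (.M 0 24) [(true,14,1,1)] (.use (.M 2 16) [(true,55,1,1)] (.use (.H 2 1
  4132) [(false,41,3,1)] (.use (.M 2 16) [(true,57,1,1)] (.use (.M 0 24) [(true,18,1,1)] (.use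
  (.H 2 1 4132) [(false,44,3,1)] (.use (.H 3 0 261) [(false,54,4,1)] (.use (.H 2 2 3204)
  [(false,72,3,1)] (.use (.M 2 16) [(true,62,1,1)] (.use (.M 2 8) [(true,29,1,1)] (.use (.H 3 0
  8451) [(false,60,4,1)] (.use (.H 3 2 3336) [(false,63,4,1)] (.use (.E 2 1 2) [(false,49,1,1)]
  (.use (.H 3 0 265) [(false,25,4,1)] (.use (.H 3 2 5384) [(false,30,4,1)] (.use (.H 1 0 10563)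
  [(false,16,2,1)] (.use (.M 2 16) [(true,70,1,1)] (.use (.H 3 2 11528) [(false,40,4,1)] (.use
  (.H 2 1 4132) [(false,57,3,1)] (.use (.M 2 8) [(true,39,1,1)] (.use (.H 3 0 261)
  [(false,68,4,1)] (.use (.M 2 8) [(true,41,1,1)] (.use (.H 3 0 8452) [(false,68,4,1)] (.use (.H
  1 0 10563) [(false,24,2,1)] (.split [0,1,0,0,0,0,0,0,2,0,1,2,0,0,0,-1] (.use (.H 1 2 3330)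
  [(false,0,2,1)] (.split [0,2,3,0,0,1,0,0,0,0,1,0,0,0,0,-1] (.use (.H 0 0 1062) [(false,0,1,1)]
  (.use (.H 3 0 261) [(false,76,4,1)] (.use (.M 2 8) [(true,49,1,1)] (.use (.M 0 16)
  [(true,93,1,1)] (.use (.M 0 24) [(true,45,1,1)] (.use (.H 3 0 8451) [(false,82,4,1)] (.use (.M
  2 8) [(true,53,1,1)] (.use (.M 2 16) [(true,88,1,1)] (.use (.M 2 8) [(true,55,1,1)] (.use (.M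
  2 16) [(true,90,1,1)] (.use (.H 1 0 10563) [(false,38,2,1)] (.use (.M 2 8) [(true,58,1,1)]
  (.use (.H 2 1 4132) [(false,78,3,1)] (.use (.H 3 0 8451) [(false,90,4,1)] (.use (.M 0 16)
  [(true,104,1,1)] (.use (.M 2 16) [(true,96,1,1)] (.use (.H 3 0 265) [(false,55,4,1)] (.split
  [1,1,1,1,1,1,1,1,1,1,0,0,0,-4,-5,0] (.use (.M 2 24) [(false,0,1,1)] (.split
  [1,1,0,1,1,1,1,1,1,1,-2,-2,-2,-2,-2,0] (.use (.E 0 1 2) [(false,0,1,1)] (.split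
  [1,0,3,0,0,0,0,0,1,0,0,0,0,1,0,-1] (.use (.H 3 0 8453) [(false,0,4,1)] (.leaf
  [1,0,0,0,24,0,0,0,0,2,0,0,0,0,0,0,0,0,0,0,0,0,0,0,0,0,0,0,0,0,0,0,0,0,0,0,0,0,0,0,0,0,0,0,0,0,0,0,0,0,0,0,0,0,0,0,0,0,0,0,0,0,0,0,0,0,0,0,0,0,0,0,0,0,0,0,0,0,0,0,0,0,0,0,0,0,0,0,0,0,0,0,0,0,0,0,0,0,0,0,0,0,0,0,0,0,0,0,20,0,20,0,0,0,0,0,0,0,0,0,0,0,0,0,0,0,0,0,0,0,0,160,40,480,0,0,0,300]))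
  (.use (.H 3 0 8453) [(true,0,4,1)] (.leaf
  [5,0,56,0,34,0,0,0,0,2,0,0,0,0,0,0,0,0,0,0,0,0,0,0,0,0,0,0,0,0,0,0,3,0,0,0,0,0,0,0,0,0,0,0,0,0,0,0,0,0,0,0,0,0,0,0,0,0,0,0,0,0,0,0,0,0,0,0,0,0,0,0,0,0,0,0,0,0,0,0,0,0,0,0,0,0,0,0,0,0,0,0,0,0,0,0,0,0,0,0,0,0,0,0,0,0,0,0,0,0,10,0,0,0,0,0,0,0,0,0,0,0,0,0,0,0,0,0,0,0,0,80,0,800,0,0,0,1600]))))
  (.leaf
  [40,8,0,0,0,0,1,0,0,0,0,0,0,0,0,0,0,0,0,0,0,0,0,0,0,0,0,0,0,0,0,0,0,0,0,0,0,0,0,0,0,0,0,0,0,0,0,0,0,0,0,0,0,0,0,0,0,0,0,0,0,0,0,0,0,0,0,0,0,0,0,0,0,0,0,0,0,0,0,0,0,0,0,0,0,0,0,0,0,0,0,0,0,0,0,0,0,0,0,0,0,0,0,0,0,12,0,8,0,0,0,0,0,0,0,0,0,0,0,0,0,0,0,0,0,0,0,0,60,0,160,0,100,0,200])))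
  (.use (.M 2 24) [(true,0,1,1)] (.use (.H 2 1 4132) [(false,85,3,1)] (.use (.H 1 0 10563)
  [(false,48,2,1)] (.use (.M 0 16) [(true,111,1,1)] (.use (.H 3 0 261) [(false,97,4,1)] (.split
  [1,2,3,0,0,1,2,0,0,0,1,2,3,0,0,-1] (.use (.H 0 0 7271) [(false,0,1,1)] (.split
  [0,0,0,1,0,0,0,0,1,0,1,0,3,4,0,-1] (.use (.H 3 2 13576) [(false,0,4,1)] (.leaf
  [77,0,620,0,0,0,338,0,314,0,0,0,0,0,0,0,0,0,0,0,0,0,0,0,0,0,0,0,0,0,0,0,0,0,0,0,0,0,0,0,0,0,0,0,0,0,0,0,0,0,0,0,0,0,0,0,0,0,0,0,0,0,0,0,0,0,0,0,0,0,0,0,0,0,0,0,0,0,0,0,0,0,0,0,0,0,0,0,0,0,0,0,0,0,0,0,0,0,0,0,0,0,0,0,0,0,0,0,0,0,0,0,0,0,644,0,0,0,0,0,0,0,0,0,0,0,0,0,0,0,0,0,0,0,0,12480,12160]))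
  (.use (.H 3 2 13576) [(true,0,4,1)] (.leaf
  [49,0,2276,0,0,0,334,0,252,0,0,0,0,0,0,0,0,0,0,0,0,0,0,0,0,0,0,0,0,0,0,0,0,0,0,0,184,0,0,0,0,0,0,0,0,0,0,0,0,0,0,0,0,0,0,0,0,0,0,0,0,0,0,0,0,0,0,0,0,0,0,0,0,0,0,0,0,0,0,0,0,0,0,0,0,0,0,0,0,0,0,0,0,0,0,0,0,0,0,0,0,0,0,0,0,0,0,0,0,0,0,0,1718,0,2052,0,0,0,0,0,0,0,0,0,0,0,0,0,0,0,0,0,0,0,0,29440,39280,22560,0,52720]))))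
  (.use (.H 0 0 7271) [(true,0,1,1)] (.use (.H 3 0 8452) [(false,98,4,1)] (.use (.H 2 1 4132)
  [(false,92,3,1)] (.use (.M 0 16) [(true,117,1,1)] (.use (.M 0 24) [(true,69,1,1)] (.use (.H 3
  0 8451) [(false,106,4,1)] (.use (.H 3 2 11528) [(false,80,4,1)] (.use (.M 0 16)
  [(true,121,1,1)] (.use (.H 1 0 10563) [(false,60,2,1)] (.use (.M 0 24) [(true,74,1,1)] (.use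
  (.M 2 16) [(true,115,1,1)] (.use (.H 3 0 8451) [(false,112,4,1)] (.use (.H 3 2 3336)
  [(false,115,4,1)] (.use (.H 3 2 5384) [(false,80,4,1)] (.use (.H 3 0 8451) [(false,115,4,1)]
  (.use (.H 3 0 261) [(false,114,4,1)] (.use (.H 3 2 3336) [(false,119,4,1)] (.use (.H 1 0
  10563) [(false,69,2,1)] (.use (.H 0 0 7271) [(true,18,1,1)] (.use (.H 3 0 8463)
  [(true,77,4,1)] (.use (.H 3 0 261) [(false,119,4,1)] (.use (.H 2 2 3204) [(false,137,3,1)]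
  (.use (.M 0 16) [(true,136,1,1)] (.split [0,0,0,1,0,0,0,0,1,0,1,2,3,0,0,-1] (.use (.H 3 2
  7432) [(false,0,4,1)] (.use (.M 2 8) [(true,96,1,1)] (.use (.M 2 24) [(true,32,1,1)] (.split
  [1,2,3,0,0,0,0,0,1,0,0,0,0,1,0,-1] (.use (.H 3 0 8455) [(false,0,4,1)] (.use (.M 0 16)
  [(true,143,1,1)] (.leaf
  [12,93,0,0,0,84,0,0,0,0,0,84,0,0,0,0,0,0,0,0,0,0,0,0,0,0,0,0,0,0,0,0,0,0,0,0,0,0,0,0,0,0,0,0,0,0,0,0,0,0,0,0,0,0,0,0,0,0,0,0,0,0,0,0,0,0,0,0,0,0,0,0,0,0,0,0,0,0,0,0,0,0,0,0,0,0,0,0,0,0,0,0,0,0,0,0,0,0,0,0,0,0,0,0,0,0,0,0,0,0,0,0,0,0,0,0,0,0,0,0,0,0,0,0,0,0,0,0,0,0,0,0,0,0,0,0,0,0,0,0,0,472,0,0,0,0,0,0,0,0,0,0,0,0,0,0,0,0,0,0,0,0,3360,3040,3360,0,2400,0,5920])))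
  (.use (.H 3 0 8455) [(true,0,4,1)] (.use (.H 3 0 8452) [(false,126,4,1)] (.use (.H 3 2 11528)
  [(false,104,4,1)] (.use (.H 2 1 4132) [(false,121,3,1)] (.split
  [0,1,0,2,0,0,1,0,2,0,1,2,3,0,0,-1] (.use (.H 1 2 7498) [(false,0,2,1)] (.leaf
  [6,0,0,0,6,3,0,4,0,0,0,0,0,0,0,0,0,0,0,0,0,0,0,0,0,0,0,0,0,0,0,0,0,0,0,0,0,0,0,0,0,0,0,0,0,0,0,0,0,0,0,0,0,0,0,0,0,0,0,0,0,0,0,0,0,0,0,0,0,0,0,0,0,0,0,0,0,0,0,0,0,0,0,0,0,0,0,0,0,0,0,0,0,0,0,0,0,0,0,0,0,0,0,0,0,0,0,0,0,0,0,0,0,0,0,0,0,0,0,0,0,0,0,0,0,0,0,0,0,0,0,0,0,0,0,0,0,0,0,0,0,0,0,76,0,56,0,0,0,0,0,0,0,0,0,0,0,0,0,0,0,0,0,0,0,0,0,0,0,0,2240,0,2720]))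
  (.use (.H 1 2 7498) [(true,0,2,1)] (.split [0,0,1,0,0,1,2,0,0,0,0,0,1,0,0,-1] (.use (.H 2 1
  4196) [(false,0,3,1)] (.split [0,0,1,0,0,1,2,3,0,0,0,0,1,0,0,-1] (.use (.H 2 1 4324)
  [(false,0,3,1)] (.split [0,0,-3,0,0,1,1,1,1,1,1,1,1,1,1,0] (.use (.M 0 4) [(false,0,1,1)]
  (.split [0,0,1,0,0,0,0,0,0,0,1,2,3,0,0,-1] (.use (.H 2 2 7172) [(false,0,3,1)] (.leaf
  [4,0,8,0,0,0,0,0,2,0,0,0,1,0,0,0,0,1,0,0,0,0,0,0,0,0,0,0,0,0,0,0,0,0,0,0,0,0,0,0,0,0,0,0,0,0,0,0,0,0,0,0,0,0,0,0,0,0,0,0,0,0,0,0,0,0,0,0,0,0,0,0,0,0,0,0,0,0,0,0,0,0,0,0,0,0,0,0,0,0,0,0,0,0,0,0,0,0,0,0,0,0,0,0,0,0,0,0,0,0,0,0,0,0,0,0,0,0,0,0,0,0,0,0,0,0,0,0,0,0,0,0,0,0,0,0,0,0,0,0,0,0,0,0,0,0,0,0,0,0,0,12,0,8,0,0,0,0,0,0,0,0,0,0,0,0,0,0,0,0,0,0,0,0,0,0,160,0,0,0,560]))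
  (.leaf
  [160,32,0,0,0,0,0,0,0,0,0,17,0,0,0,0,5,0,0,0,0,0,0,0,0,0,0,0,0,0,0,0,0,0,0,0,0,0,0,0,0,0,0,0,0,0,0,0,0,0,0,0,0,0,0,0,0,0,0,0,0,0,0,0,0,0,0,0,0,0,0,0,0,0,0,0,0,0,0,0,0,0,0,0,0,0,0,0,0,0,0,0,0,0,0,0,0,0,0,0,0,0,0,0,0,0,0,0,0,0,0,0,0,0,0,0,0,0,0,0,0,0,0,0,0,0,0,0,0,0,0,0,0,0,0,0,0,0,0,0,0,0,0,0,0,0,0,0,0,0,0,0,44,0,0,0,0,0,0,0,0,0,0,0,0,0,0,0,0,0,0,0,0,0,0,160,0,480,0,1680])))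
  (.use (.M 0 4) [(true,0,1,1)] (.split [0,2,0,0,0,1,0,0,0,0,1,2,3,0,0,-1] (.use (.H 0 0 7202)
  [(false,0,1,1)] (.leaf
  [8,0,12,0,0,0,0,0,0,0,0,0,1,2,0,4,0,1,0,0,0,0,0,0,0,0,0,0,0,0,0,0,0,0,0,0,0,0,0,0,0,0,0,0,0,0,0,0,0,0,0,0,0,0,0,0,0,0,0,0,0,0,0,0,0,0,0,0,0,0,0,0,0,0,0,0,0,0,0,0,0,0,0,0,0,0,0,0,0,0,0,0,0,0,0,0,0,0,0,0,0,0,0,0,0,0,0,0,0,0,0,0,0,0,0,0,0,0,0,0,0,0,0,0,0,0,0,0,0,0,0,0,0,0,0,0,0,0,0,0,0,0,0,0,0,0,0,0,0,0,0,0,0,12,0,0,0,0,0,0,0,0,0,0,0,0,0,0,0,0,0,0,0,0,0,320,0,0,160,0,560]))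
  (.use (.H 0 0 7202) [(true,0,1,1)] (.leaf
  [12,0,92,0,0,0,0,0,0,0,0,0,4,30,0,4,0,15,0,0,0,0,0,0,0,0,0,0,0,0,0,0,0,0,0,0,0,0,0,0,0,0,0,0,0,0,0,0,0,0,0,0,0,0,0,0,0,0,0,0,0,0,0,0,0,0,0,0,0,0,0,0,0,0,0,0,0,0,0,0,0,0,0,0,0,0,0,0,0,0,0,0,0,0,0,0,0,0,0,0,0,0,0,0,0,0,0,0,0,0,0,0,0,0,0,0,0,0,0,0,0,0,0,0,0,0,0,0,0,0,0,0,0,0,0,0,0,0,0,0,0,0,0,0,0,0,0,0,0,0,0,28,0,52,0,0,0,0,0,0,0,0,0,0,0,0,0,0,0,0,0,0,0,0,0,0,480,0,0,0,8720]))))))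
  (.leaf
  [120,1,0,0,0,0,0,0,0,0,0,0,0,0,0,0,0,0,0,0,0,0,0,0,0,0,0,0,0,0,0,0,0,0,0,0,0,0,0,0,0,0,0,0,0,0,0,0,0,0,0,0,0,0,0,0,0,0,0,0,0,0,0,0,0,0,0,0,0,0,0,0,0,0,0,0,0,0,0,0,0,0,0,0,0,0,0,0,0,0,0,0,0,0,0,0,0,0,0,0,0,0,0,0,0,0,0,0,0,0,0,0,0,0,0,0,0,0,0,0,0,0,0,0,0,0,0,0,0,0,0,0,0,0,0,0,0,0,0,0,0,0,0,0,0,0,0,0,11,0,0,0,0,0,0,0,0,0,0,0,0,0,0,0,0,0,0,0,0,0,110,0,0,0,0,185])))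
  (.leaf
  [1200,0,0,10,0,0,0,0,33,0,0,0,0,0,0,0,0,0,0,0,0,0,0,0,0,0,0,0,0,0,0,0,0,0,0,0,0,0,0,0,0,0,0,0,0,0,0,0,0,0,0,0,0,0,0,0,0,0,0,0,0,0,0,0,0,0,0,0,0,0,0,0,0,0,0,0,0,0,0,0,0,0,0,0,0,0,0,0,0,0,0,0,0,0,0,0,0,0,0,0,0,0,0,0,0,0,0,0,0,0,0,0,0,0,0,0,0,0,0,0,0,0,0,0,0,0,0,0,0,0,0,0,0,0,0,0,0,0,0,0,0,0,0,0,66,0,66,0,0,0,0,0,0,0,0,0,0,0,0,0,0,0,0,0,0,0,0,0,0,0,0,0,0,3720]))))))))))))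
  (.use (.H 3 2 7432) [(true,0,4,1)] (.split [0,0,1,0,0,1,0,3,0,0,0,0,1,0,0,-1] (.use (.H 2 1
  4260) [(false,0,3,1)] (.use (.H 1 0 10563) [(false,79,2,1)] (.use (.M 0 16) [(true,142,1,1)]
  (.use (.H 2 1 4132) [(false,119,3,1)] (.use (.H 1 0 10563) [(false,82,2,1)] (.use (.H 2 1
  4132) [(false,121,3,1)] (.use (.H 2 0 4227) [(false,152,3,1)] (.use (.M 0 16) [(true,147,1,1)]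
  (.use (.H 3 0 8463) [(true,92,4,1)] (.split [0,0,1,0,0,1,2,0,0,0,0,0,1,0,0,-1] (.use (.H 2 1
  4196) [(false,0,3,1)] (.leaf
  [4,0,3,0,0,0,0,0,0,0,0,0,9,0,0,0,0,0,0,0,0,0,0,6,0,0,0,0,0,0,0,0,0,0,0,0,0,0,0,0,0,0,0,0,0,0,0,0,0,0,0,0,0,0,0,0,0,0,0,0,0,0,0,0,0,0,0,0,0,0,0,0,0,0,0,0,0,0,0,0,0,0,0,0,0,0,0,0,0,0,0,0,0,0,0,0,0,0,0,0,0,0,0,0,0,0,0,0,0,0,0,0,0,0,0,0,0,0,0,0,0,0,0,0,0,0,0,0,0,0,0,0,0,0,0,0,0,0,0,0,0,0,0,0,0,0,42,0,36,0,0,0,0,0,0,0,0,0,0,0,0,0,0,0,0,0,0,0,0,0,240,0,0,2640,0,3360]))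
  (.leaf
  [320,0,0,0,0,0,0,0,0,0,0,0,0,0,0,0,0,0,0,0,0,0,1,0,0,0,0,0,0,0,0,0,0,0,0,0,0,0,0,0,0,0,0,0,0,0,0,0,0,0,0,0,0,0,0,0,0,0,0,0,0,0,0,0,0,0,0,0,0,0,0,0,0,0,0,0,0,0,0,0,0,0,0,0,0,0,0,0,0,0,0,0,0,0,0,0,0,0,0,0,0,0,0,0,0,0,0,0,0,0,0,0,0,0,0,0,0,0,0,0,0,0,0,0,0,0,0,0,0,0,0,0,0,0,0,0,0,0,0,0,0,0,0,0,0,120,0,78,0,0,0,0,0,0,0,0,0,0,0,0,0,0,0,0,0,0,0,0,0,320,160,240,3920,0,2640])))))))))))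
  (.leaf
  [5920,0,0,0,0,37,0,0,0,0,0,0,67,0,0,0,0,0,0,0,0,0,0,0,0,0,0,0,0,0,0,0,0,0,0,0,0,0,0,0,0,0,0,0,0,0,0,0,0,0,0,0,0,0,0,0,0,0,0,0,0,0,0,0,0,0,0,0,0,0,0,0,0,0,0,0,0,0,0,0,0,0,0,0,0,0,0,0,0,0,0,0,0,0,0,0,0,0,0,0,0,0,0,0,0,0,0,0,0,0,0,0,0,0,0,0,0,0,0,0,0,0,0,0,0,0,0,0,0,0,0,0,0,0,0,0,0,432,0,0,0,0,0,0,0,0,0,0,0,0,0,0,0,0,0,0,0,0,0,160,0,0,0,0,14720])))))))))))))))))))))))))))))))))))))))))))))))))))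
  (.use (.H 0 0 1062) [(true,0,1,1)] (.use (.H 2 1 4132) [(false,67,3,1)] (.split
  [1,1,0,1,1,1,1,1,1,1,-2,-2,-2,-2,-2,0] (.use (.E 0 1 2) [(false,0,1,1)] (.use (.M 2 16)
  [(true,85,1,1)] (.use (.H 2 2 3204) [(false,97,3,1)] (.use (.H 1 2 1282) [(false,77,2,1)]
  (.use (.M 2 16) [(true,88,1,1)] (.use (.H 1 0 10563) [(false,36,2,1)] (.use (.H 2 1 4132)
  [(false,75,3,1)] (.use (.H 1 2 3330) [(false,12,2,1)] (.use (.M 2 16) [(true,92,1,1)] (.use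
  (.H 2 1 4132) [(false,78,3,1)] (.split [1,0,3,0,0,0,0,0,1,0,0,0,0,1,0,-1] (.use (.H 3 0 8453)
  [(false,0,4,1)] (.split [0,0,1,0,0,1,2,0,0,0,0,0,1,0,0,-1] (.use (.H 2 1 4196) [(false,0,3,1)]
  (.split [1,1,1,1,1,1,1,1,1,1,0,0,0,-4,-5,0] (.leaf
  [19440,24,0,339,0,0,394,696,0,0,0,0,0,0,0,0,0,488,0,0,0,0,0,0,0,0,0,0,0,0,0,0,0,0,0,0,0,0,0,0,0,0,0,0,0,0,0,0,0,0,0,0,0,0,0,0,0,0,0,0,0,0,0,0,0,0,0,0,0,0,0,0,0,0,0,0,0,0,0,0,0,0,0,0,0,0,0,0,0,0,0,0,0,0,0,0,0,0,0,0,0,0,0,546,0,1686,0,0,0,0,0,0,0,0,0,0,0,0,0,0,0,0,0,0,0,0,18080,2000,26400,0,0,0,32960])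
  (.use (.M 2 24) [(true,0,1,1)] (.use (.E 0 1 2) [(false,16,1,1)] (.split
  [0,0,1,0,0,1,2,3,0,0,0,0,1,0,0,-1] (.use (.H 2 1 4324) [(false,0,3,1)] (.split
  [0,0,-3,0,0,1,1,1,1,1,1,1,1,1,1,0] (.use (.M 0 4) [(false,0,1,1)] (.split
  [0,0,1,0,0,0,0,1,0,0,1,2,3,4,0,-1] (.use (.H 2 2 15492) [(false,0,3,1)] (.leaf
  [4,0,12,0,0,0,8,4,0,0,0,1,0,0,0,0,0,0,0,0,0,0,0,0,0,0,0,0,0,0,0,0,0,0,0,0,0,0,0,0,0,0,0,0,0,0,0,0,0,0,0,0,0,0,0,0,0,0,0,0,0,0,0,0,0,0,0,0,0,0,0,0,0,0,0,0,0,0,0,0,0,0,0,0,0,0,0,0,0,0,0,0,0,0,0,0,0,0,0,0,0,0,0,0,0,0,0,0,0,0,0,0,0,8,0,0,0,0,0,0,0,0,0,0,0,0,0,0,0,0,0,0,0,0,0,160,0,0,0,0,400]))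
  (.leaf
  [9600,1062,0,200,0,0,0,0,0,0,633,0,40,0,240,0,0,0,0,0,0,0,0,0,432,0,0,0,0,0,0,0,0,0,0,0,0,0,0,0,0,0,0,0,0,0,0,0,0,0,0,0,0,0,0,0,0,0,0,0,0,0,0,0,0,0,0,0,0,0,0,0,0,0,0,0,0,0,0,0,0,0,0,0,0,0,0,0,0,0,0,0,0,0,0,0,0,0,0,0,0,0,0,0,0,0,0,0,0,0,0,0,1416,0,0,0,0,0,0,0,0,0,0,0,0,0,0,0,0,0,0,0,0,960,7200,0,0,46320,0,82560])))
  (.use (.M 0 4) [(true,0,1,1)] (.split [0,2,0,0,0,1,2,3,0,0,1,2,3,0,0,-1] (.use (.H 0 0 7394)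
  [(false,0,1,1)] (.leaf
  [168,0,852,0,280,0,0,342,0,0,0,81,0,0,0,420,0,0,0,0,0,0,0,0,0,1008,0,0,0,0,0,0,0,0,0,0,0,0,0,0,0,0,0,0,0,0,0,0,0,0,0,0,0,0,0,0,0,0,0,0,0,0,0,0,0,0,0,0,0,0,0,0,0,0,0,0,0,0,0,0,0,0,0,0,0,0,0,0,0,0,0,0,0,0,0,0,0,0,0,0,0,0,0,0,0,0,0,0,0,0,0,0,0,456,0,0,0,0,0,0,0,0,0,0,0,0,0,0,0,0,0,0,0,0,0,10080,0,0,480,0,75600]))
  (.leaf
  [2400,528,0,124,0,0,48,0,24,0,27,0,0,0,222,0,0,0,0,0,0,0,0,0,756,0,0,0,0,0,0,0,0,0,0,0,0,0,0,0,0,0,0,0,0,0,0,0,0,0,0,0,0,0,0,0,0,0,0,0,0,0,0,0,0,0,0,0,0,0,0,0,0,0,0,0,0,0,0,0,0,0,0,0,0,0,0,0,0,0,0,0,0,0,0,0,0,0,0,0,0,0,0,0,0,0,0,0,0,0,0,0,228,0,0,0,0,0,0,0,0,0,0,0,0,0,0,0,0,0,0,0,0,0,3840,2400,0,3360,0,49920])))))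
  (.leaf
  [120,0,0,0,1,0,0,0,0,0,0,0,0,0,0,0,0,0,0,0,0,0,0,0,0,0,0,0,0,0,0,0,0,0,0,0,0,0,0,0,0,0,0,0,0,0,0,0,0,0,0,0,0,0,0,0,0,0,0,0,0,0,0,0,0,0,0,0,0,0,0,0,0,0,0,0,0,0,0,0,0,0,0,0,0,0,0,0,0,0,0,0,0,0,0,0,0,0,0,0,0,0,0,0,0,0,0,0,11,0,0,0,0,0,0,0,0,0,0,0,0,0,0,0,0,0,0,0,0,0,110,0,0,0,0,185]))))))
  (.leaf
  [960,9,0,0,0,15,0,0,0,0,0,0,0,0,0,0,0,0,0,0,0,0,0,0,0,0,0,0,0,0,0,0,0,0,0,0,0,0,0,0,0,0,0,0,0,0,0,0,0,0,0,0,0,0,0,0,0,0,0,0,0,0,0,0,0,0,0,0,0,0,0,0,0,0,0,0,0,0,0,0,0,0,0,0,0,0,0,0,0,0,0,0,0,0,0,0,0,0,0,0,0,9,0,73,0,0,0,0,0,0,0,0,0,0,0,0,0,0,0,0,0,0,0,0,480,460,1080,0,0,0,550])))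
  (.use (.H 3 0 8453) [(true,0,4,1)] (.leaf
  [99,0,44,0,48,0,0,0,24,0,0,660,0,0,0,0,0,0,0,0,0,0,0,0,0,0,0,0,0,0,0,0,0,0,0,0,0,0,0,0,0,0,0,0,0,0,0,0,0,0,0,0,0,0,0,0,0,0,0,0,0,0,0,0,0,0,0,0,0,0,0,0,0,0,0,0,0,0,0,0,0,0,0,0,0,0,0,0,0,0,0,0,0,0,0,0,0,0,0,0,0,0,204,0,0,0,0,0,0,0,0,0,0,0,0,0,0,0,0,0,0,0,0,0,5280,1920,0,18720,0,25440])))))))))))))
  (.leaf
  [960,0,24,0,0,0,0,0,0,0,0,0,1,0,0,0,0,0,0,0,0,0,0,0,0,0,0,0,0,0,0,0,0,0,0,0,0,0,0,0,0,0,0,0,0,0,0,0,0,0,0,0,0,0,0,0,0,0,0,0,0,0,0,0,0,0,0,0,0,0,0,0,0,0,0,0,0,0,0,0,0,0,0,0,0,0,0,0,256,0,130,0,0,0,0,0,0,0,0,0,0,0,0,0,0,0,0,0,0,0,0,0,0,80,0,6160,0,6480]))))))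
  (.leaf
  [160,2,0,0,0,0,0,1,0,0,0,0,0,0,0,0,0,0,0,0,0,0,0,0,0,0,0,0,0,0,0,0,0,0,0,0,0,0,0,0,0,0,0,0,0,0,0,0,0,0,0,0,0,0,0,0,0,0,0,0,0,0,0,0,0,0,0,0,0,0,0,0,0,0,0,0,0,0,0,0,0,0,0,20,0,16,0,0,0,0,0,0,0,0,0,0,0,0,0,0,0,0,0,0,0,0,0,160,0,0,800,0,560])))))))))))))))))))))))))))
  (.use (.H 1 0 10563) [(true,0,2,1)] (.split [0,2,0,4,0,0,0,0,1,0,0,0,0,1,0,-1] (.use (.H 3 0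
  8458) [(false,0,4,1)] (.leaf
  [3,0,6,0,0,0,0,0,0,0,0,0,0,0,0,0,0,0,0,0,0,0,0,0,0,0,0,0,0,0,0,0,0,0,0,0,0,0,0,0,0,0,0,0,0,0,0,0,0,0,0,0,0,0,0,0,0,0,0,0,0,0,8,0,0,0,0,0,0,0,0,0,0,0,0,0,0,0,0,0,0,0,0,0,80,0,0,0,0,680]))
  (.leaf
  [400,4,0,14,0,0,0,0,0,0,0,0,0,0,0,0,0,0,0,0,0,0,0,3,0,0,0,0,0,0,0,0,0,0,0,0,0,0,0,0,0,0,0,0,0,0,0,0,0,0,0,0,0,0,0,0,0,0,0,56,0,40,0,0,0,0,0,0,0,0,0,0,0,0,0,0,0,0,0,0,0,0,0,0,240,0,1520,0,2160])))))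
  (.use (.H 1 2 2314) [(true,0,2,1)] (.leaf
  [14,0,0,0,0,0,0,0,0,0,0,0,0,0,0,0,0,0,0,0,9,0,0,0,0,0,0,0,0,0,0,0,0,0,0,0,0,0,0,0,0,0,0,0,0,0,0,0,0,0,0,0,0,0,0,0,56,0,32,0,0,0,0,0,0,0,0,0,0,0,0,0,0,0,0,0,0,0,0,0,0,320,0,1280,0,2480])))))))))))
  (.leaf
  [1600,50,0,6,0,0,0,0,0,0,9,0,0,0,0,0,0,0,0,0,0,0,0,0,0,0,0,0,0,0,0,0,0,0,0,0,0,0,0,0,0,0,0,0,0,0,0,0,40,0,0,0,0,0,0,0,0,0,0,0,0,0,0,0,0,0,0,0,0,0,800,480,0,0,0,2000])))))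
  (.use (.H 3 2 5384) [(true,0,4,1)] (.split [1,1,1,1,1,-2,-2,-2,-2,-2,1,1,0,1,1,0] (.use (.E 2
  0 2) [(false,0,1,1)] (.leaf
  [24,0,3,0,0,0,0,0,0,0,0,0,0,0,0,0,0,0,0,0,0,0,0,0,0,0,0,0,0,0,0,0,0,0,0,0,0,0,0,0,0,0,0,0,0,0,0,20,0,0,0,0,0,0,0,0,0,0,0,0,0,0,0,0,0,0,0,0,0,440,0,0,0,0,740]))
  (.leaf
  [320,1,0,0,0,0,0,0,0,0,0,0,0,0,0,0,0,0,0,0,0,0,0,0,0,0,0,0,0,0,0,0,0,0,0,0,0,0,0,0,0,0,0,0,118,0,80,0,0,0,0,0,0,0,0,0,0,0,0,0,0,0,0,0,0,0,0,0,560,0,0,4720,0,2400]))))))))))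
  (.use (.H 3 2 11528) [(true,0,4,1)] (.use (.M 0 16) [(true,41,1,1)] (.use (.H 0 0 1057)
  [(false,58,1,1)] (.use (.H 3 0 8451) [(false,30,4,1)] (.split
  [1,0,3,0,0,1,0,0,0,0,1,0,0,0,0,-1] (.use (.H 0 0 1061) [(false,0,1,1)] (.use (.H 2 2 3204)
  [(false,48,3,1)] (.use (.H 0 0 1061) [(false,2,1,1)] (.use (.H 1 2 1282) [(false,29,2,1)]
  (.use (.H 3 0 8451) [(false,36,4,1)] (.use (.M 0 16) [(true,50,1,1)] (.split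
  [1,1,1,1,1,1,1,1,1,1,0,0,0,-4,0,0] (.use (.M 2 8) [(false,0,1,1)] (.split
  [1,1,0,1,1,-2,-2,-2,-2,-2,1,1,1,1,1,0] (.use (.E 0 2 2) [(false,0,1,1)] (.leaf
  [20,0,66,0,0,15,0,0,0,0,0,0,0,0,0,0,0,0,0,0,0,0,0,0,0,0,0,0,0,0,0,0,0,0,0,0,0,0,0,0,0,0,0,0,0,0,0,0,0,0,10,0,74,0,0,0,0,0,0,0,0,0,0,0,0,0,0,0,0,0,0,0,0,800,1040,960]))
  (.leaf
  [560,167,0,0,25,0,0,0,0,0,0,0,0,0,0,0,0,0,0,0,0,0,0,0,0,0,0,0,0,0,0,0,0,0,0,0,0,0,0,0,0,0,0,0,0,0,0,0,0,102,0,101,0,0,0,0,0,0,0,0,0,0,0,0,0,0,0,0,0,0,0,0,1720,0,3120,0,0,0,1040])))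
  (.use (.M 2 8) [(true,0,1,1)] (.split [1,0,0,0,0,0,0,0,2,0,0,1,0,2,0,-1] (.use (.H 1 0 10497)
  [(false,0,2,1)] (.leaf
  [2,0,4,0,0,0,0,0,0,0,0,0,0,0,1,0,0,0,0,0,0,0,0,0,0,0,0,0,0,0,0,0,0,0,0,0,0,0,0,0,0,0,0,0,0,0,0,0,0,0,20,0,12,0,0,0,0,0,0,0,0,0,0,0,0,0,0,0,0,0,0,0,0,0,0,0,0,480,0,720]))
  (.use (.H 1 0 10497) [(true,0,2,1)] (.leaf
  [3,0,3,0,0,0,0,0,0,0,0,0,0,0,0,0,0,0,0,0,0,0,0,0,0,0,0,0,0,0,0,0,0,0,0,0,0,0,0,0,0,0,0,0,0,0,0,0,0,0,6,0,8,0,0,0,0,0,0,0,0,0,0,0,0,0,0,0,0,0,0,0,0,0,80,0,0,0,0,440])))))))))))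
  (.use (.H 0 0 1061) [(true,0,1,1)] (.split [1,1,1,1,1,1,1,1,1,1,0,0,0,-4,0,0] (.use (.M 2 8)
  [(false,0,1,1)] (.split [1,1,0,1,1,-2,-2,-2,-2,-2,1,1,1,1,1,0] (.use (.E 0 2 2)
  [(false,0,1,1)] (.leaf
  [2,0,6,0,0,0,3,0,0,0,0,0,0,0,0,0,0,0,0,0,0,0,0,0,0,0,0,0,0,0,0,0,0,0,0,0,0,0,0,0,0,0,0,0,0,0,0,6,0,0,0,0,0,0,0,0,0,0,0,0,0,0,0,0,0,0,0,0,80,0,0,80,0,0,200]))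
  (.leaf
  [320,42,0,0,0,7,0,0,0,0,0,0,0,0,0,0,0,0,0,0,0,0,0,0,0,0,0,0,0,0,0,0,0,0,0,0,0,0,0,0,0,0,0,0,0,0,14,0,0,0,0,0,0,0,0,0,0,0,0,0,0,0,0,0,0,0,0,400,0,520,0,0,0,60])))
  (.use (.M 2 8) [(true,0,1,1)] (.split [1,0,0,0,0,0,0,0,2,0,0,1,0,2,0,-1] (.use (.H 1 0 10497)
  [(false,0,2,1)] (.leaf
  [2,0,4,0,0,0,0,0,0,1,0,0,0,0,0,0,0,0,0,0,0,0,0,0,0,0,0,0,0,0,0,0,0,0,0,0,0,0,0,0,0,0,0,0,0,20,0,12,0,0,0,0,0,0,0,0,0,0,0,0,0,0,0,0,0,0,0,0,0,0,0,0,480,0,720]))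
  (.use (.H 1 0 10497) [(true,0,2,1)] (.leaf
  [3,0,3,0,0,0,0,0,0,0,0,0,0,0,0,0,0,0,0,0,0,0,0,0,0,0,0,0,0,0,0,0,0,0,0,0,0,0,0,0,0,0,0,0,0,6,0,8,0,0,0,0,0,0,0,0,0,0,0,0,0,0,0,0,0,0,0,0,0,80,0,0,0,0,440])))))))))))))))))))))))))
  (.use (.E 2 1 2) [(true,0,1,1)] (.split [1,1,0,1,1,-2,-2,-2,-2,-2,1,1,1,1,1,0] (.use (.E 0 2
  2) [(false,0,1,1)] (.use (.M 0 16) [(true,29,1,1)] (.use (.H 0 0 1057) [(false,46,1,1)] (.use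
  (.H 1 2 1282) [(false,12,2,1)] (.use (.M 0 16) [(true,32,1,1)] (.use (.M 2 16) [(true,24,1,1)]
  (.use (.H 3 2 3336) [(false,23,4,1)] (.split [1,0,0,4,0,0,0,0,1,0,0,0,0,1,0,-1] (.use (.H 3 0
  8457) [(false,0,4,1)] (.use (.H 3 0 8451) [(false,24,4,1)] (.use (.E 0 2 2) [(false,10,1,1)]
  (.use (.H 1 2 1282) [(false,20,2,1)] (.use (.M 2 16) [(true,31,1,1)] (.use (.H 3 0 8452)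
  [(false,24,4,1)] (.split [1,1,1,1,1,1,1,1,1,1,0,0,0,-4,0,0] (.leaf
  [160,1,0,0,0,3,0,0,0,0,0,0,0,0,0,0,0,0,0,0,0,0,0,0,0,0,0,0,0,0,0,0,0,0,0,0,0,0,6,0,26,0,0,0,0,0,0,0,0,0,0,0,0,0,0,0,0,0,0,0,0,160,400,0,80,960])
  (.use (.M 2 8) [(true,0,1,1)] (.use (.M 0 16) [(true,44,1,1)] (.use (.M 2 16) [(true,36,1,1)]
  (.split [1,2,0,0,0,0,1,0,2,0,0,1,0,2,0,-1] (.use (.H 1 0 10563) [(false,0,2,1)] (.use (.M 2 8)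
  [(true,5,1,1)] (.use (.H 3 0 8451) [(false,36,4,1)] (.use (.H 3 2 3336) [(false,39,4,1)] (.use
  (.M 2 8) [(true,8,1,1)] (.split [1,1,1,1,1,1,1,1,1,1,0,0,-3,-4,-5,0] (.use (.M 2 28)
  [(false,0,1,1)] (.leaf
  [4,0,1,0,0,0,0,0,0,0,0,0,0,0,0,0,0,0,0,0,0,0,0,0,0,0,0,0,160,0,0,0,0,0,0,0,0,0,0,0,0,0,0,0,0,0,0,0,0,5,0,10,0,0,0,0,0,0,0,0,0,0,0,0,0,0,0,0,0,0,0,0,0,200,80,80,280]))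
  (.use (.M 2 28) [(true,0,1,1)] (.use (.H 3 0 8451) [(false,41,4,1)] (.use (.E 0 2 2)
  [(false,27,1,1)] (.use (.H 1 0 10563) [(false,9,2,1)] (.use (.E 0 2 2) [(false,29,1,1)] (.use
  (.H 3 0 8451) [(false,45,4,1)] (.use (.M 0 16) [(true,59,1,1)] (.split
  [0,0,1,0,0,0,0,0,0,0,1,0,3,4,0,-1] (.use (.H 2 2 13316) [(false,0,3,1)] (.use (.H 3 0 8451)
  [(false,49,4,1)] (.use (.H 2 2 13316) [(false,2,3,1)] (.use (.H 1 0 10563) [(false,17,2,1)]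
  (.split [0,0,0,0,0,0,0,0,1,0,1,2,0,4,0,-1] (.use (.H 3 2 11520) [(false,0,4,1)] (.leaf
  [3,0,0,0,0,0,0,0,0,0,0,0,0,22,0,0,11,0,0,0,0,0,0,0,0,0,0,0,0,0,0,0,0,0,0,0,0,0,0,0,0,1360,0,0,0,0,0,0,0,0,0,0,0,0,0,0,0,0,0,0,0,0,0,0,70,0,0,0,0,0,0,0,0,0,0,0,0,0,0,0,0,0,0,0,0,0,1120,0,80,0,0,560]))
  (.leaf
  [11520,426,188,0,0,0,162,0,0,0,0,0,264,0,0,129,0,0,0,0,0,0,0,0,0,0,0,0,0,0,0,0,0,0,0,0,0,0,0,0,0,0,0,0,0,0,0,0,0,0,0,0,0,0,0,0,0,0,0,0,0,0,0,1008,0,0,0,0,0,0,0,0,0,0,0,0,0,0,0,0,0,0,0,0,5760,12480,0,0,0,0,26880]))))))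
  (.use (.H 2 2 13316) [(true,0,3,1)] (.leaf
  [20,0,0,0,0,0,0,0,172,0,0,29,0,0,0,0,0,0,0,0,0,0,0,0,0,0,0,0,0,0,0,0,0,0,0,0,2560,0,0,0,0,0,0,0,0,0,0,0,0,0,0,0,0,0,0,0,0,268,0,192,0,0,0,0,0,0,0,0,0,0,0,0,0,0,0,0,0,0,0,0,0,0,0,0,0,0,12480]))))))))))))))))
  (.use (.H 1 0 10563) [(true,0,2,1)] (.leaf
  [6,0,4,0,0,0,0,0,0,0,3,0,0,0,0,0,0,0,0,0,0,0,0,0,0,0,0,0,0,0,0,0,0,0,0,0,0,0,0,0,0,0,0,16,0,8,0,0,0,0,0,0,0,0,0,0,0,0,0,0,0,0,0,0,0,0,0,0,0,0,320,0,1040])))))))))))))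
  (.use (.H 3 0 8457) [(true,0,4,1)] (.leaf
  [9,0,27,0,0,0,0,0,0,0,0,1920,0,0,0,0,0,0,0,0,0,0,0,0,0,0,0,0,0,0,0,0,0,0,148,0,0,0,0,0,0,0,0,0,0,0,0,0,0,0,0,0,0,0,0,0,1840,1440,0,0,0,1240]))))))))))
  (.use (.E 0 2 2) [(true,0,1,1)] (.use (.H 3 2 3336) [(false,18,4,1)] (.use (.H 3 0 8451)
  [(false,17,4,1)] (.split [1,1,1,1,1,1,1,1,1,1,0,0,-3,-4,-5,0] (.use (.M 2 28) [(false,0,1,1)]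
  (.leaf
  [30,0,4,1,0,320,0,1280,0,0,0,0,0,0,0,0,0,0,0,0,0,0,0,0,0,0,0,0,50,0,110,0,0,0,0,0,0,0,0,0,0,0,0,0,0,0,0,0,0,0,0,160,2000,640,640,4000]))
  (.use (.M 2 28) [(true,0,1,1)] (.leaf
  [4,0,1,3,0,80,0,320,0,0,0,0,0,0,0,0,0,0,0,0,0,0,0,0,0,0,0,0,0,0,8,0,0,0,0,0,0,0,0,0,0,0,0,0,0,0,0,0,0,0,0,40,0,0,320,40,0,240]))))))))))
  (.leaf
  [16,0,0,0,0,0,0,0,0,0,0,0,0,0,0,0,0,0,0,0,0,1,0,0,0,0,0,0,0,0,0,0,0,0,0,0,0,0,0,0,0,0,8,12,8,0,0,0,2]))))))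
  (.use (.H 1 2 1282) [(true,0,2,1)] (.leaf
  [5,0,0,0,0,0,0,0,0,0,9,0,0,0,0,18,0,8,0,0,0,0,0,0,0,0,0,0,0,0,0,0,0,0,0,0,0,0,0,0,0,0,0,0,960]))))
  (.use (.H 3 0 8452) [(true,0,4,1)] (.leaf
  [25,0,42,0,0,0,0,0,22,0,0,0,0,0,0,84,0,0,0,0,0,0,0,0,0,0,0,0,0,0,0,0,0,0,0,0,1280,0,0,0,800,0,6080]))))
  (.use (.H 3 0 261) [(true,0,4,1)] (.split [1,1,0,1,1,-2,-2,-2,-2,-2,1,1,1,1,1,0] (.use (.E 0 2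
  2) [(false,0,1,1)] (.leaf
  [104,0,13,0,0,0,0,0,14,0,0,0,0,28,0,68,0,0,0,0,0,0,0,0,0,0,0,0,0,0,0,0,0,0,0,0,0,1440,0,0,0,0,4000]))
  (.leaf
  [320,1,0,0,0,0,0,0,0,0,0,0,118,0,80,0,0,0,0,0,0,0,0,0,0,0,0,0,0,0,0,0,0,0,0,0,560,0,0,4720,0,2400])))))
  (.use (.H 3 0 8451) [(true,0,4,1)] (.leaf
  [1,0,0,0,0,0,0,0,0,1,0,2,0,0,0,0,0,0,0,0,0,0,0,0,0,0,0,0,0,0,0,0,60,0,0,0,0,0,170])))) (.use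
  (.H 3 2 3336) [(true,0,4,1)] (.leaf
  [1,0,0,0,0,0,0,42,0,36,0,0,0,0,0,0,0,0,0,0,0,0,0,0,0,0,0,0,0,0,0,400,0,0,1840,0,880])))))))
  (.use (.H 0 0 1058) [(true,0,1,1)] (.leaf
  [4,0,22,0,11,0,0,0,0,0,0,0,0,0,0,0,0,0,0,0,0,0,0,0,0,0,0,0,0,660,0,650])))) (.use (.E 1 0 3)
  [(true,0,1,1)] (.split [1,2,0,0,0,0,0,0,1,0,0,0,0,1,0,-1] (.use (.H 3 0 8451) [(false,0,4,1)]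
  (.split [0,1,0,0,0,0,0,0,2,0,0,2,0,0,0,-1] (.use (.H 1 2 2306) [(false,0,2,1)] (.split
  [0,0,1,0,0,0,0,0,0,0,1,0,0,4,0,-1] (.use (.H 2 2 9220) [(false,0,3,1)] (.split
  [1,1,0,1,1,1,1,1,1,1,-2,-2,-2,-2,-2,0] (.use (.E 0 1 2) [(false,0,1,1)] (.leaf
  [8,160,0,0,0,0,3,0,26,0,32,0,0,0,0,0,0,0,0,0,0,0,0,0,0,0,0,0,0,0,16,160,0,0,0,0,0,960])) (.use
  (.E 0 1 2) [(true,0,1,1)] (.split [1,0,3,0,0,0,0,0,1,0,0,0,0,0,0,-1] (.use (.H 3 0 261)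
  [(false,0,4,1)] (.leaf
  [5,0,0,0,0,0,0,0,10,0,40,0,76,0,0,0,0,0,0,0,0,0,0,0,0,0,0,0,0,0,0,0,0,800,160,0,0,0,0,1060]))
  (.use (.H 3 0 261) [(true,0,4,1)] (.leaf
  [1,0,4,0,0,0,0,0,0,0,7,0,16,0,0,0,0,0,0,0,0,0,0,0,0,0,0,0,0,0,0,0,22,0,240,0,0,0,0,480]))))))
  (.leaf [160,0,0,3,0,35,0,56,0,0,0,0,0,0,0,0,0,0,0,0,0,0,0,0,0,0,0,46,320,400,0,0,0,0,1120])))
  (.use (.H 1 2 2306) [(true,0,2,1)] (.leaf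
  [1,0,0,0,6,0,8,0,5,0,0,0,0,0,0,0,0,0,0,0,0,0,0,0,0,0,0,0,80,0,0,0,0,280])))) (.use (.H 3 0
  8451) [(true,0,4,1)] (.leaf
  [1,0,10,0,16,0,0,0,0,0,0,0,0,0,0,0,0,0,0,0,0,0,0,0,24,0,160,0,0,0,0,560])))))) (.use (.M 1 8)
  [(true,0,1,1)] (.split [0,0,0,1,0,0,0,0,0,0,1,2,0,0,0,-1] (.use (.H 3 2 3080) [(false,0,4,1)]
  (.split [0,0,1,0,0,1,2,0,0,0,0,0,1,0,0,-1] (.use (.H 2 1 4196) [(false,0,3,1)] (.split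
  [1,1,1,1,1,1,1,1,1,1,0,0,0,0,-5,0] (.use (.M 2 16) [(false,0,1,1)] (.split
  [0,0,0,-4,0,1,1,1,1,1,1,1,1,1,1,0] (.use (.M 0 8) [(false,0,1,1)] (.split
  [1,1,1,0,1,1,1,1,1,1,-2,-2,-2,-2,-2,0] (.use (.E 0 1 3) [(false,0,1,1)] (.leaf
  [4,0,3,0,3,0,0,0,0,0,0,0,0,0,0,0,0,0,0,0,0,0,0,0,0,0,0,0,0,0,0,0,0,60,20,0,0,80])) (.use (.E 0
  1 3) [(true,0,1,1)] (.leaf
  [11,0,20,0,0,0,0,0,0,0,9,0,0,0,0,0,0,0,0,0,0,0,0,0,0,0,0,0,0,0,0,240,0,0,160,0,0,320]))))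
  (.use (.M 0 8) [(true,0,1,1)] (.split [1,1,0,1,1,1,1,1,1,1,-2,-2,-2,-2,-2,0] (.use (.E 0 1 2)
  [(false,0,1,1)] (.leaf
  [1,40,0,0,3,0,0,0,0,0,0,0,0,0,0,0,0,0,0,0,0,0,0,0,0,0,0,0,0,0,0,0,0,56])) (.use (.E 0 1 2)
  [(true,0,1,1)] (.split [0,0,-3,0,0,1,1,1,1,1,1,1,1,1,1,0] (.use (.M 0 4) [(false,0,1,1)]
  (.split [0,0,1,0,0,1,2,3,0,0,0,0,1,0,0,-1] (.use (.H 2 1 4324) [(false,0,3,1)] (.leaf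
  [32,0,123,0,66,0,0,0,0,0,0,0,0,0,3,0,0,0,0,0,0,0,0,0,0,0,0,0,0,0,0,0,0,0,0,360,1200,0,0,0,0,1800]))
  (.use (.H 2 1 4324) [(true,0,3,1)] (.split [1,1,1,1,1,0,0,-3,0,0,1,1,1,1,1,0] (.leaf
  [240,0,0,10,0,1,0,0,0,0,0,0,0,0,0,0,0,0,0,6,0,0,0,0,0,0,0,0,0,0,0,0,0,0,0,0,0,0,0,320,0,0,280])
  (.use (.M 1 4) [(true,0,1,1)] (.leaf
  [72,0,10,0,219,0,120,0,0,0,0,0,30,0,0,0,0,0,0,0,6,0,0,0,0,0,0,0,0,0,0,0,0,0,0,0,0,1800,1200,240,0,0,0,4680]))))))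
  (.use (.M 0 4) [(true,0,1,1)] (.split [1,0,1,1,1,1,1,1,1,1,-2,-2,-2,-2,-2,0] (.use (.E 0 1 1)
  [(false,0,1,1)] (.leaf
  [1,40,0,0,0,0,0,0,3,0,0,0,0,0,0,0,0,0,0,0,0,0,0,0,0,0,0,0,0,0,0,0,0,0,0,0,0,56])) (.use (.E 0
  1 1) [(true,0,1,1)] (.use (.H 0 0 1057) [(false,33,1,1)] (.split
  [-2,-2,-2,-2,-2,1,0,1,1,1,1,1,1,1,1,0] (.use (.E 1 2 1) [(false,0,1,1)] (.split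
  [1,2,0,0,0,1,0,0,0,0,0,0,0,0,0,-1] (.use (.H 0 0 35) [(false,0,1,1)] (.split
  [1,2,3,0,0,0,1,0,2,0,0,1,0,2,0,-1] (.use (.H 1 0 10567) [(false,0,2,1)] (.split
  [1,1,1,1,1,1,1,0,1,1,-2,-2,-2,-2,-2,0] (.use (.E 1 0 2) [(false,0,1,1)] (.leaf
  [3,100,0,0,0,0,0,0,0,0,0,0,0,0,0,0,0,7,0,0,0,0,0,0,0,0,0,0,0,0,0,0,0,0,0,0,0,0,0,0,0,0,0,0,0,0,140]))
  (.use (.E 1 0 2) [(true,0,1,1)] (.split [1,2,3,0,0,1,2,0,0,0,1,2,0,0,0,-1] (.use (.H 0 0 3175)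
  [(false,0,1,1)] (.split [0,0,0,-4,-5,1,1,1,1,1,1,1,1,1,1,0] (.leaf
  [480,6,0,1,0,0,0,0,0,0,0,0,0,0,0,0,0,0,27,0,27,0,0,0,0,0,0,0,22,0,0,0,0,0,0,0,0,0,0,0,0,0,0,0,0,0,0,0,80,600,1680,0,0,440])
  (.use (.M 0 24) [(true,0,1,1)] (.split [1,1,1,1,1,0,0,-3,0,0,1,1,1,1,1,0] (.use (.M 1 4)
  [(false,0,1,1)] (.leaf
  [12,0,7,0,12,0,14,0,1,0,0,0,0,0,0,0,0,0,0,0,0,0,0,0,0,0,0,0,0,0,0,0,0,0,0,0,0,0,0,0,0,0,0,0,0,0,0,0,0,0,0,160,0,0,0,0,400]))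
  (.use (.M 1 4) [(true,0,1,1)] (.leaf
  [12,0,10,0,24,0,0,0,3,0,0,0,0,0,0,0,0,0,0,0,0,5,0,18,0,0,0,0,0,0,0,0,0,0,0,0,0,0,0,0,0,0,0,0,0,0,0,0,0,0,0,240,600,120]))))))
  (.use (.H 0 0 3175) [(true,0,1,1)] (.use (.E 0 1 1) [(true,12,1,1)] (.split
  [1,2,3,0,0,0,0,1,0,0,0,0,1,0,0,-1] (.use (.H 2 0 4231) [(false,0,3,1)] (.use (.H 2 1 4196)
  [(false,25,3,1)] (.use (.E 1 0 2) [(true,7,1,1)] (.use (.H 2 1 4196) [(false,27,3,1)] (.use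
  (.H 2 0 4231) [(false,4,3,1)] (.split [0,0,1,0,0,1,2,0,0,0,0,0,0,0,0,-1] (.use (.H 2 1 100)
  [(false,0,3,1)] (.use (.H 2 0 4231) [(false,7,3,1)] (.use (.H 2 1 4196) [(false,32,3,1)] (.use
  (.E 1 0 2) [(true,14,1,1)] (.use (.H 2 1 100) [(false,4,3,1)] (.split
  [1,2,0,0,0,1,2,0,0,0,1,2,0,0,0,-1] (.use (.H 0 0 3171) [(false,0,1,1)] (.use (.H 2 0 4231)
  [(false,13,3,1)] (.split [1,1,1,1,1,0,0,-3,-4,-5,1,1,1,1,1,0] (.use (.M 1 28) [(false,0,1,1)]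
  (.leaf
  [204,0,52,0,0,0,0,0,0,0,0,0,0,0,0,0,0,0,156,0,0,0,15,0,0,0,0,0,0,0,0,141,0,0,0,0,0,234,0,0,0,0,0,0,0,0,0,0,0,0,0,0,0,0,0,0,0,0,0,0,0,0,0,0,600,5040,4560,240,0,0,6540]))
  (.use (.M 1 28) [(true,0,1,1)] (.split [0,0,1,0,0,1,2,3,0,0,0,0,0,0,0,-1] (.use (.H 2 1 228)
  [(false,0,3,1)] (.leaf
  [6,0,24,0,2,30,0,0,0,0,0,0,0,0,0,0,0,0,0,0,18,0,0,0,9,0,0,0,0,0,0,0,0,12,0,0,0,0,0,39,0,0,0,0,0,0,0,0,0,0,0,0,0,0,0,0,0,0,0,0,0,0,0,0,0,0,720,0,1080,0,0,0,600]))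
  (.use (.H 2 1 228) [(true,0,3,1)] (.leaf
  [80,0,396,0,28,0,0,0,0,0,0,0,0,0,0,0,0,0,0,0,198,0,0,0,255,0,0,0,0,0,0,0,0,0,0,0,0,0,0,528,0,0,0,0,0,0,0,0,0,0,0,0,0,0,0,0,0,0,0,0,0,0,0,0,0,0,7920,0,10560,0,0,0,19200])))))))
  (.leaf
  [1920,16,0,0,0,0,0,0,0,0,0,0,0,54,90,0,0,0,69,0,0,0,0,0,0,0,0,24,0,0,0,0,0,24,0,0,0,0,0,0,0,0,0,0,0,0,0,0,0,0,0,0,0,0,0,0,0,0,0,0,1200,0,0,3360,0,0,7680])))))))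
  (.leaf
  [240,0,0,0,0,0,0,0,0,0,0,0,3,0,0,0,0,0,0,0,0,2,0,0,0,0,0,19,0,0,0,0,0,0,0,0,0,0,0,0,0,0,0,0,0,0,0,0,0,0,0,0,0,0,80,0,176,360,0,0,320])))))))
  (.use (.H 2 0 4231) [(true,0,3,1)] (.leaf
  [2,0,3,0,0,0,0,0,0,0,0,0,0,0,0,0,12,0,0,0,0,0,6,0,0,0,0,0,0,0,0,0,0,0,0,0,0,0,0,0,0,0,0,0,0,0,0,0,0,0,0,96,480,0,0,480])))))))))
  (.use (.H 1 0 10567) [(true,0,2,1)] (.use (.E 0 1 1) [(true,8,1,1)] (.split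
  [0,1,0,0,0,1,2,0,4,0,0,0,0,0,0,-1] (.use (.H 1 1 354) [(false,0,2,1)] (.split
  [1,1,1,1,1,0,0,-3,-4,-5,1,1,1,1,1,0] (.use (.M 1 28) [(false,0,1,1)] (.split
  [1,2,3,0,0,0,0,1,0,0,0,0,0,0,0,-1] (.use (.H 2 0 135) [(false,0,3,1)] (.split
  [0,0,1,0,0,1,0,0,4,0,0,0,0,0,0,-1] (.use (.H 2 1 292) [(false,0,3,1)] (.use (.H 1 1 354)
  [(false,7,2,1)] (.use (.H 2 0 135) [(false,4,3,1)] (.use (.M 1 28) [(false,7,1,1)] (.split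
  [1,2,3,0,0,1,2,0,0,0,1,2,0,0,0,-1] (.use (.H 0 0 3175) [(false,0,1,1)] (.leaf
  [105,0,0,1,0,0,0,0,0,0,0,0,0,0,54,0,0,0,0,0,0,0,0,108,0,0,0,0,0,84,0,0,0,0,0,30,0,0,0,0,0,0,0,0,0,0,0,0,0,0,0,0,0,0,0,0,0,2040,2400,0,0,0,4500]))
  (.use (.H 0 0 3175) [(true,0,1,1)] (.leaf
  [8,0,14,4,0,0,0,0,0,0,0,0,0,1,0,0,0,0,0,0,0,0,0,7,0,0,0,0,0,16,0,0,0,0,0,2,0,0,0,0,0,0,0,0,0,0,0,0,0,0,0,0,0,0,0,0,120,320,320,0,0,0,260])))))))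
  (.leaf
  [80,0,0,0,0,0,0,0,0,0,0,0,0,0,0,0,0,2,0,0,0,0,0,7,0,0,0,0,0,3,0,0,0,0,0,0,0,0,0,0,0,0,0,0,0,0,0,0,0,0,0,0,88,0,0,0,160])))
  (.use (.H 2 0 135) [(true,0,3,1)] (.leaf
  [4,0,0,0,0,0,0,0,0,0,0,0,0,0,0,0,11,0,0,0,0,0,3,0,0,0,0,0,0,0,0,0,0,0,0,0,0,0,0,0,0,0,0,0,0,0,0,0,0,0,0,60,180,0,0,700]))))
  (.use (.M 1 28) [(true,0,1,1)] (.leaf
  [2,0,1,0,1,2,0,0,0,0,0,0,0,0,8,0,0,0,0,0,6,0,0,0,0,0,0,0,0,0,0,0,0,0,0,0,0,0,0,0,0,0,0,0,0,0,0,0,0,120,200,0,0,320]))))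
  (.use (.H 1 1 354) [(true,0,2,1)] (.leaf
  [3,0,1,1,0,0,0,0,0,0,0,0,4,0,0,0,0,0,4,0,0,0,0,0,7,0,0,0,0,0,0,0,0,0,0,0,0,0,0,0,0,0,0,0,0,0,0,80,0,0,0,520])))))))
  (.use (.H 0 0 35) [(true,0,1,1)] (.leaf
  [10,0,0,0,0,0,0,8,0,0,0,0,0,4,0,0,0,0,0,3,0,0,0,0,0,0,0,0,0,0,0,0,0,0,0,0,0,0,0,0,0,0,80,0,0,0,600]))))
  (.leaf
  [200,0,0,0,0,0,0,0,0,0,7,0,0,0,0,0,3,0,0,0,0,0,0,0,0,0,0,0,0,0,0,0,0,0,0,0,0,0,0,140,180]))))))))))))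
  (.use (.M 2 16) [(true,0,1,1)] (.split [0,0,0,-4,0,1,1,1,1,1,1,1,1,1,1,0] (.use (.M 0 8)
  [(false,0,1,1)] (.split [1,1,1,0,1,1,1,1,1,1,-2,-2,-2,-2,-2,0] (.use (.E 0 1 3)
  [(false,0,1,1)] (.split [0,0,0,1,0,1,0,0,0,0,0,0,0,1,0,-1] (.use (.H 3 1 8232) [(false,0,4,1)]
  (.use (.H 0 0 1057) [(false,31,1,1)] (.use (.H 0 0 1121) [(false,28,1,1)] (.use (.H 3 1 8232)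
  [(false,3,4,1)] (.use (.H 0 0 1121) [(false,30,1,1)] (.split
  [0,0,0,2,0,0,0,0,0,0,1,0,0,0,0,-1] (.use (.H 1 2 1032) [(false,0,2,1)] (.use (.H 3 2 3080)
  [(false,17,4,1)] (.split [0,0,0,1,0,0,0,0,1,0,1,2,3,0,0,-1] (.use (.H 3 2 7432)
  [(false,0,4,1)] (.split [0,1,0,2,0,0,1,0,2,0,1,2,3,4,0,-1] (.use (.H 1 2 15690)
  [(false,0,2,1)] (.leaf
  [18,0,0,0,0,0,0,0,0,0,0,0,0,41,0,39,0,12,0,0,0,0,0,0,0,0,0,0,0,0,0,0,0,0,0,0,0,0,0,0,0,0,0,0,0,0,0,760,0,0,1540]))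
  (.use (.H 1 2 15690) [(true,0,2,1)] (.split [0,0,0,0,0,0,0,1,0,0,1,0,0,4,0,-1] (.use (.H 2 2
  9344) [(false,0,3,1)] (.split [0,0,0,1,0,1,0,0,4,0,0,0,0,1,0,-1] (.use (.H 3 1 8488)
  [(false,0,4,1)] (.split [0,1,0,2,0,0,1,0,2,0,1,2,0,0,0,-1] (.use (.H 1 2 3402) [(false,0,2,1)]
  (.use (.M 2 16) [(true,24,1,1)] (.split [0,0,0,1,0,0,0,0,1,0,1,2,3,4,0,-1] (.use (.H 3 2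
  15624) [(false,0,4,1)] (.leaf
  [357,0,480,4,0,4,0,0,0,0,0,5,0,0,0,0,0,0,0,0,0,0,104,0,3080,0,0,0,0,0,0,0,0,0,0,0,0,0,0,0,0,0,0,0,0,0,0,0,0,0,0,0,0,61120,320,160,91680]))
  (.use (.H 3 2 15624) [(true,0,4,1)] (.use (.H 2 2 9344) [(false,8,3,1)] (.split
  [1,1,1,1,1,1,1,1,1,1,0,0,0,-4,0,0] (.use (.M 2 8) [(false,0,1,1)] (.split
  [0,0,0,1,0,1,2,3,0,0,0,0,0,1,0,-1] (.leaf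
  [320,29,0,0,0,0,0,10,0,10,0,0,0,0,0,0,0,0,0,0,0,0,0,0,0,0,13,0,48,0,0,0,0,0,0,0,0,0,0,0,0,0,0,0,0,0,0,0,0,0,0,0,0,0,0,0,0,200,480,400,0,280,0,280])
  (.use (.H 3 1 8424) [(true,0,4,1)] (.leaf
  [15,0,297,0,68,0,0,0,93,0,42,0,0,0,0,0,0,0,0,0,0,0,0,0,0,0,0,558,0,456,0,0,0,0,0,0,0,0,0,0,0,0,0,0,0,0,0,0,0,0,0,0,0,0,0,0,0,0,0,1680,8160,4920,0,0,15240]))))
  (.use (.M 2 8) [(true,0,1,1)] (.split [1,0,3,0,0,0,0,1,0,0,0,0,1,0,0,-1] (.use (.H 2 0 4229)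
  [(false,0,3,1)] (.split [1,1,1,1,1,1,1,1,1,1,0,0,0,-4,-5,0] (.use (.M 2 24) [(false,0,1,1)]
  (.leaf
  [124,0,0,0,162,0,0,25,0,0,0,0,0,0,0,0,0,0,0,0,0,0,0,0,0,0,0,0,0,256,0,128,0,0,0,0,0,0,0,0,0,0,0,0,0,0,0,0,0,0,0,0,0,0,0,0,0,0,0,0,0,0,960,2560,0,0,13120]))
  (.use (.M 2 24) [(true,0,1,1)] (.use (.H 3 2 7432) [(false,19,4,1)] (.use (.H 3 1 8232)
  [(false,29,4,1)] (.use (.H 0 0 1121) [(false,56,1,1)] (.split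
  [0,0,0,1,0,1,2,0,0,0,0,0,0,1,0,-1] (.use (.H 3 1 8296) [(false,0,4,1)] (.split
  [0,0,0,1,0,1,0,3,0,0,0,0,0,1,0,-1] (.use (.H 3 1 8360) [(false,0,4,1)] (.split
  [0,0,0,1,0,1,2,3,0,0,0,0,0,1,0,-1] (.use (.H 3 1 8424) [(false,0,4,1)] (.leaf
  [57,0,19,0,0,0,0,0,84,16,0,0,0,0,0,0,18,0,0,0,0,0,0,0,0,0,0,0,0,0,0,0,0,0,0,0,0,0,60,0,368,0,0,0,0,0,0,0,0,0,0,0,0,0,0,0,0,0,0,0,0,0,0,0,0,0,0,0,0,480,3040,2880,0,0,0,7680]))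
  (.use (.H 3 1 8424) [(true,0,4,1)] (.leaf
  [19,0,38,0,19,0,0,0,83,52,0,0,0,0,0,0,11,0,0,0,0,0,0,0,0,0,0,0,0,0,0,0,0,0,0,0,0,0,0,0,688,0,0,0,0,0,0,0,0,0,0,0,0,0,0,0,0,0,0,0,0,0,0,0,0,0,0,0,0,10880,0,1760,19200,0,0,7280]))))
  (.use (.H 3 1 8360) [(true,0,4,1)] (.split [-2,-2,-2,-2,-2,1,1,0,1,1,1,1,1,1,1,0] (.use (.E 1
  2 2) [(false,0,1,1)] (.leaf
  [64,0,8,0,0,0,0,0,11,22,0,0,0,0,0,0,0,0,0,0,0,0,0,0,0,0,0,0,0,0,0,0,0,0,0,0,0,0,88,0,68,0,0,0,0,0,0,0,0,0,0,0,0,0,0,0,0,0,0,0,0,0,0,0,0,0,0,0,0,0,0,0,0,0,0,5200]))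
  (.leaf
  [1280,4,0,0,0,0,0,59,118,0,0,0,0,0,0,0,0,0,0,0,0,0,0,0,0,0,0,0,0,0,0,0,0,0,0,0,0,292,0,264,0,0,0,0,0,0,0,0,0,0,0,0,0,0,0,0,0,0,0,0,0,0,0,0,0,0,0,0,0,0,0,7200,0,0,11840])))))
  (.use (.H 3 1 8296) [(true,0,4,1)] (.leaf
  [4,0,0,0,21,42,0,0,0,0,0,0,0,0,0,0,0,0,0,0,0,0,0,0,0,0,0,0,0,0,0,0,0,0,124,0,104,0,0,0,0,0,0,0,0,0,0,0,0,0,0,0,0,0,0,0,0,0,0,0,0,0,0,0,0,0,0,0,2400,0,0,5120])))))))))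
  (.leaf
  [3120,21,0,26,0,0,0,0,0,0,0,0,0,0,0,0,0,0,0,0,0,0,0,0,0,0,96,0,204,0,0,0,0,0,0,0,0,0,0,0,0,0,0,0,0,0,0,0,0,0,0,0,0,0,0,0,0,3120,0,3120,4080,0,0,1920])))))))))
  (.use (.H 1 2 3402) [(true,0,2,1)] (.leaf
  [18,0,0,0,0,0,0,0,11,0,0,0,0,0,0,0,0,0,0,16,0,24,0,0,0,0,0,0,0,0,0,0,0,0,0,0,0,0,0,0,0,0,0,0,0,0,0,0,0,0,0,0,160,0,0,0,2400]))))
  (.use (.H 3 1 8488) [(true,0,4,1)] (.leaf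
  [3,0,0,96,0,0,9,0,0,0,0,0,0,0,0,0,0,34,0,42,0,0,0,0,0,0,0,0,0,0,0,0,0,0,0,0,0,0,0,0,0,0,0,0,0,0,0,0,0,0,384,560,0,0,1400]))))
  (.use (.H 2 2 9344) [(true,0,3,1)] (.split [0,0,0,1,0,1,0,0,4,0,0,0,0,1,0,-1] (.use (.H 3 1
  8488) [(false,0,4,1)] (.split [1,1,1,1,1,0,0,0,0,-5,1,1,1,1,1,0] (.leaf
  [288,3,0,0,160,0,0,0,0,0,0,0,0,0,0,0,0,0,40,0,26,0,0,0,0,0,0,0,0,0,0,0,0,0,0,0,0,0,0,0,0,0,0,0,0,0,0,0,0,0,480,0,1056,1744,0,688])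
  (.use (.M 1 16) [(true,0,1,1)] (.split [0,1,0,2,0,0,1,0,2,0,1,2,0,0,0,-1] (.use (.H 1 2 3402)
  [(false,0,2,1)] (.use (.H 2 2 9344) [(true,7,3,1)] (.use (.H 0 0 1121) [(false,47,1,1)] (.use
  (.H 2 2 9344) [(true,9,3,1)] (.split [0,0,0,1,0,1,2,3,0,0,0,0,0,1,0,-1] (.use (.H 3 1 8424)
  [(false,0,4,1)] (.leaf
  [9,0,4,0,0,0,0,0,0,0,0,0,0,0,0,0,0,0,0,0,0,0,0,0,0,0,0,0,36,0,0,0,0,0,0,0,0,0,0,0,0,0,0,0,0,0,0,0,0,0,0,0,0,0,0,0,0,240,480,0,0,960,0,600]))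
  (.use (.H 3 1 8424) [(true,0,4,1)] (.use (.H 3 1 8232) [(false,25,4,1)] (.split
  [-2,-2,-2,-2,-2,1,1,0,1,1,1,1,1,1,1,0] (.use (.E 1 2 2) [(false,0,1,1)] (.split
  [0,0,0,1,0,0,0,3,0,0,0,0,0,1,0,-1] (.leaf
  [1440,40,0,0,37,0,4,0,0,0,0,0,0,0,0,0,0,0,0,0,0,0,0,0,0,0,0,0,0,0,0,0,120,0,0,0,0,0,0,0,0,0,0,0,0,0,0,0,0,0,0,0,0,0,0,0,0,0,0,0,0,2720,0,0,5920,0,0,5600])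
  (.use (.H 3 1 8328) [(true,0,4,1)] (.leaf
  [6,0,55,0,0,0,0,0,0,0,0,0,0,0,0,0,0,0,0,0,0,0,0,0,0,0,0,0,0,0,0,0,0,33,0,0,0,0,0,0,0,0,0,0,0,0,0,0,0,0,0,0,0,0,0,0,0,0,0,0,0,0,880,0,0,0,0,0,1480]))))
  (.leaf
  [160,0,1,0,0,0,0,0,0,0,0,0,0,0,0,0,0,0,0,0,0,0,0,0,0,0,0,0,20,0,58,0,0,0,0,0,0,0,0,0,0,0,0,0,0,0,0,0,0,0,0,0,0,0,0,0,0,0,0,1280,0,0,3040,1840])))))))))
  (.leaf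
  [480,0,0,3,0,0,400,0,0,0,0,0,0,0,0,0,0,0,0,0,68,0,46,0,0,0,0,0,0,0,0,0,0,0,0,0,0,0,0,0,0,0,0,0,0,0,0,0,0,0,0,480,0,80,2880,2960,0,2000])))))
  (.use (.H 3 1 8488) [(true,0,4,1)] (.leaf
  [3,0,0,0,0,0,9,0,0,0,0,0,0,0,0,0,0,34,0,42,0,0,0,0,0,0,0,0,0,0,0,0,0,0,0,0,0,0,0,0,0,0,0,0,0,0,0,0,0,0,480,560,0,0,1400]))))))))
  (.use (.H 3 2 7432) [(true,0,4,1)] (.split [-2,-2,-2,-2,-2,1,1,1,1,1,1,1,0,1,1,0] (.use (.E 2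
  1 2) [(false,0,1,1)] (.use (.H 3 2 7432) [(true,3,4,1)] (.use (.H 2 1 4196) [(false,21,3,1)]
  (.use (.H 1 2 1032) [(false,8,2,1)] (.use (.M 2 16) [(true,21,1,1)] (.use (.H 0 0 1057)
  [(false,46,1,1)] (.use (.H 0 0 2081) [(false,45,1,1)] (.use (.H 1 2 1032) [(false,12,2,1)]
  (.use (.H 3 2 3080) [(false,29,4,1)] (.use (.H 3 1 8232) [(false,20,4,1)] (.use (.H 0 0 1121)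
  [(false,47,1,1)] (.use (.H 2 2 3204) [(false,38,3,1)] (.use (.H 1 2 1032) [(false,17,2,1)]
  (.use (.H 3 2 3080) [(false,34,4,1)] (.use (.H 3 2 7432) [(true,16,4,1)] (.use (.H 0 0 1057)
  [(false,56,1,1)] (.split [1,1,1,1,1,0,0,0,0,-5,1,1,1,1,1,0] (.use (.M 1 16) [(false,0,1,1)]
  (.leaf
  [10,0,0,0,0,0,0,0,0,0,0,0,0,0,0,0,0,0,0,0,0,0,0,0,0,0,0,0,0,0,11,0,9,0,0,0,0,0,0,0,0,0,0,0,0,0,0,0,0,0,0,0,0,0,0,0,0,0,0,0,0,0,200,0,0,520,0,220]))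
  (.use (.M 1 16) [(true,0,1,1)] (.use (.H 2 1 4196) [(false,37,3,1)] (.use (.E 2 1 2)
  [(false,19,1,1)] (.split [0,0,0,2,0,1,0,0,0,0,0,1,0,0,0,-1] (.use (.H 1 1 2088)
  [(false,0,2,1)] (.split [0,1,0,2,0,1,2,0,0,0,0,1,0,2,0,-1] (.use (.H 1 1 10346)
  [(false,0,2,1)] (.use (.M 1 16) [(true,7,1,1)] (.use (.H 2 0 4227) [(false,56,3,1)] (.use (.M
  1 8) [(true,49,1,1)] (.use (.H 1 1 2088) [(false,6,2,1)] (.use (.M 1 16) [(true,11,1,1)] (.use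
  (.H 2 1 4196) [(false,48,3,1)] (.use (.H 1 1 10346) [(false,7,2,1)] (.use (.H 2 0 4227)
  [(false,62,3,1)] (.use (.M 1 8) [(true,55,1,1)] (.use (.H 2 1 4196) [(false,52,3,1)] (.use (.H
  1 1 2088) [(false,13,2,1)] (.use (.H 1 1 10346) [(false,12,2,1)] (.use (.H 2 0 4227)
  [(false,67,3,1)] (.use (.M 1 8) [(true,60,1,1)] (.use (.H 1 1 10346) [(false,15,2,1)] (.use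
  (.M 1 16) [(true,22,1,1)] (.use (.H 2 0 4227) [(false,71,3,1)] (.use (.H 2 1 4196)
  [(false,60,3,1)] (.split [0,0,0,2,0,1,0,3,0,0,0,1,0,0,0,-1] (.use (.H 1 1 2216)
  [(false,0,2,1)] (.use (.H 1 1 10346) [(false,21,2,1)] (.split
  [0,0,0,1,0,0,0,0,1,0,1,2,0,0,0,-1] (.use (.H 3 2 3336) [(false,0,4,1)] (.split
  [0,0,0,2,0,0,1,0,2,0,0,2,0,0,0,-1] (.use (.H 1 2 2376) [(false,0,2,1)] (.split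
  [0,0,0,1,0,0,0,0,1,0,0,0,3,0,0,-1] (.use (.H 3 2 4360) [(false,0,4,1)] (.split
  [0,0,1,0,0,1,2,3,0,0,0,0,1,0,0,-1] (.use (.H 2 1 4324) [(false,0,3,1)] (.leaf
  [4,0,12,0,0,0,0,0,12,6,0,0,0,0,0,0,0,0,0,0,0,0,0,0,0,0,0,0,0,0,0,0,0,12,0,0,0,0,9,0,0,0,0,0,0,0,0,0,0,0,0,0,0,0,0,0,0,0,0,0,0,0,0,0,0,0,0,42,0,0,0,0,0,0,0,0,0,0,0,0,0,0,0,0,0,0,0,0,0,0,0,0,0,0,0,0,0,480,0,0,1200,0,2640]))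
  (.leaf
  [2080,64,0,0,0,0,0,52,78,0,0,0,0,0,0,0,0,0,0,0,0,0,0,0,0,0,0,0,0,0,0,0,316,0,0,0,0,65,0,0,0,0,0,0,0,0,0,0,0,0,0,0,0,0,0,0,0,0,0,0,0,0,0,0,0,0,296,0,0,0,0,0,0,0,0,0,0,0,0,0,0,0,0,0,0,0,0,0,0,0,0,0,0,0,0,960,0,0,0,0,0,25520])))
  (.use (.H 3 2 4360) [(true,0,4,1)] (.leaf
  [3,0,0,0,0,0,0,0,0,0,0,0,0,0,0,0,0,0,0,0,0,0,0,0,0,0,0,0,0,0,0,24,0,0,0,0,0,0,0,0,0,0,0,0,0,0,0,0,0,0,0,0,0,0,0,0,0,0,0,0,0,0,0,0,0,20,0,0,0,0,0,0,0,0,0,0,0,0,0,0,0,0,0,0,0,0,0,0,0,0,0,0,0,0,440,0,0,0,0,0,740]))))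
  (.use (.H 1 2 2376) [(true,0,2,1)] (.leaf
  [46,0,28,0,30,20,0,0,0,0,0,0,0,0,0,0,0,0,0,0,0,0,0,0,0,0,0,0,0,128,0,0,0,0,9,0,0,0,0,0,0,0,0,0,0,0,0,0,0,0,0,0,0,0,0,0,0,0,0,0,0,188,0,154,0,0,0,0,0,0,0,0,0,0,0,0,0,0,0,0,0,0,0,0,0,0,0,0,0,0,0,0,0,800,1120,0,2960,0,12160]))))
  (.leaf
  [2560,180,58,0,0,0,0,0,0,0,0,0,0,0,0,0,0,0,0,0,0,0,0,0,0,0,760,0,0,0,0,103,0,0,0,0,0,0,0,0,0,0,0,0,0,0,0,0,0,0,0,0,0,0,0,0,0,0,0,0,716,0,0,0,0,0,0,0,0,0,0,0,0,0,0,0,0,0,0,0,0,0,0,0,0,0,0,0,0,13600,7200,0,0,14400,0,25120]))))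
  (.use (.H 1 1 2216) [(true,0,2,1)] (.split [1,0,0,0,0,0,0,1,0,0,0,0,1,0,0,-1] (.use (.H 2 0
  4225) [(false,0,3,1)] (.leaf
  [4,0,3,0,0,0,0,0,0,0,0,0,0,0,0,0,0,0,0,0,0,0,0,0,0,0,24,0,0,0,0,9,0,0,0,0,0,0,0,0,0,0,0,0,0,0,0,0,0,0,0,0,0,0,0,0,0,0,0,0,9,0,0,0,0,0,0,0,0,0,0,0,0,0,0,0,0,0,0,0,0,0,0,0,0,0,0,0,0,480,0,0,720,1080,0,2040]))
  (.leaf
  [160,0,0,0,0,0,0,0,0,0,0,0,0,0,0,0,0,0,0,0,0,0,0,0,0,9,0,0,0,0,0,0,0,0,0,0,0,0,0,0,0,0,0,0,0,0,0,0,0,0,0,0,0,0,0,0,0,4,0,7,0,0,0,0,0,0,0,0,0,0,0,0,0,0,0,0,0,0,0,0,0,0,0,0,0,0,0,0,80,0,0,0,0,0,360])))))))))))))))))))))))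
  (.use (.H 1 1 10346) [(true,0,2,1)] (.leaf
  [192,0,102,0,120,128,0,0,0,99,0,0,0,0,0,0,0,0,0,0,0,0,0,0,0,0,0,0,0,0,0,0,0,0,0,0,0,0,36,0,0,0,0,0,0,0,0,0,0,0,0,0,0,0,0,0,0,0,0,0,0,0,0,0,0,0,0,3360,0,3840,0,0,0,35760]))))
  (.leaf
  [480,132,4,0,0,0,39,0,0,0,0,0,0,0,0,0,0,0,0,0,0,0,0,0,0,0,0,0,0,0,0,0,0,0,0,24,0,0,0,0,0,0,0,0,0,0,0,0,0,0,0,0,0,0,0,0,0,0,0,0,0,0,0,0,960,0,0,0,3360,0,9120]))))))))))))))))))))))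
  (.use (.E 2 1 2) [(true,0,1,1)] (.use (.M 2 16) [(true,18,1,1)] (.use (.H 2 2 3204)
  [(false,29,3,1)] (.use (.M 2 16) [(true,20,1,1)] (.use (.H 1 2 1032) [(false,9,2,1)] (.split
  [0,0,0,1,0,0,0,0,1,0,1,2,0,0,0,-1] (.use (.H 3 2 3336) [(false,0,4,1)] (.split
  [0,0,0,1,0,1,0,0,4,0,0,0,0,1,0,-1] (.use (.H 3 1 8488) [(false,0,4,1)] (.split
  [0,0,0,1,0,1,2,0,0,0,0,0,0,1,0,-1] (.use (.H 3 1 8296) [(false,0,4,1)] (.split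
  [0,0,0,1,0,0,0,0,1,0,1,2,0,4,0,-1] (.use (.H 3 2 11528) [(false,0,4,1)] (.leaf
  [3,0,0,0,0,0,0,0,0,4,0,0,0,480,0,0,0,0,0,0,0,0,0,0,0,16,0,14,0,0,0,0,0,0,0,0,0,0,0,0,0,0,0,0,0,0,0,0,0,0,0,0,0,0,0,0,0,0,0,1280,560,0,560]))
  (.use (.H 3 2 11528) [(true,0,4,1)] (.split [1,1,1,1,1,1,1,0,1,1,-2,-2,-2,-2,-2,0] (.use (.E 1
  0 2) [(false,0,1,1)] (.split [0,1,0,2,0,1,2,0,0,0,0,1,0,2,0,-1] (.use (.H 1 1 10346)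
  [(false,0,2,1)] (.leaf
  [18,0,24,0,4,0,0,0,3,0,0,0,0,0,0,0,0,0,0,0,0,0,0,0,0,0,0,0,0,0,0,24,0,0,0,0,0,0,0,0,0,0,0,0,0,0,0,0,0,0,0,0,0,0,0,0,0,0,0,0,0,480,0,160,1760,0,1280]))
  (.use (.H 1 1 10346) [(true,0,2,1)] (.leaf
  [70,0,8,0,22,0,39,0,0,0,0,0,0,0,0,0,0,0,0,0,0,0,0,0,0,0,0,0,0,48,0,32,0,0,0,0,0,0,0,0,0,0,0,0,0,0,0,0,0,0,0,0,0,0,0,0,0,0,0,0,0,320,3520,0,0,0,9200]))))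
  (.leaf
  [320,2,0,3,0,1,0,0,0,0,0,0,0,0,0,0,0,0,0,0,0,0,0,0,0,0,8,0,60,0,0,0,0,0,0,0,0,0,0,0,0,0,0,0,0,0,0,0,0,0,0,0,0,0,0,0,0,1280,160,0,2080,1280])))))
  (.use (.H 3 1 8296) [(true,0,4,1)] (.leaf
  [13,0,0,0,0,0,0,42,0,0,0,0,0,0,0,0,0,0,0,0,0,0,0,88,0,44,0,0,0,0,0,0,0,0,0,0,0,0,0,0,0,0,0,0,0,0,0,0,0,0,0,0,0,0,0,0,0,1920,0,0,4880]))))
  (.use (.H 3 1 8488) [(true,0,4,1)] (.leaf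
  [9,0,27,0,0,0,0,0,0,800,0,0,0,0,0,0,0,0,0,0,0,76,0,92,0,0,0,0,0,0,0,0,0,0,0,0,0,0,0,0,0,0,0,0,0,0,0,0,0,0,0,0,0,0,1760,3040,0,0,3040]))))
  (.use (.H 3 2 3336) [(true,0,4,1)] (.leaf
  [3,0,0,6,0,0,0,0,0,0,0,0,0,0,0,0,0,0,0,0,0,8,0,0,0,0,0,0,0,0,0,0,0,0,0,0,0,0,0,0,0,0,0,0,0,0,0,0,0,0,80,0,0,0,0,0,680])))))))))))))
  (.leaf
  [560,14,0,0,0,0,0,28,0,0,0,5,0,0,0,0,0,0,0,0,0,0,0,0,0,0,0,0,0,0,0,0,0,0,0,0,0,0,0,0,0,240,480,0,1120])))))))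
  (.leaf
  [360,11,0,9,0,0,0,0,0,0,0,0,0,0,0,0,0,0,0,0,0,0,0,0,0,0,0,0,0,0,0,0,0,0,120,40,0,0,520])))
  (.use (.E 0 1 3) [(true,0,1,1)] (.leaf
  [11,0,20,0,0,0,0,0,0,0,9,0,0,0,0,0,0,0,0,0,0,0,0,0,0,0,0,0,0,0,0,240,0,0,160,0,0,320]))))
  (.use (.M 0 8) [(true,0,1,1)] (.split [1,1,1,1,1,0,0,0,0,-5,1,1,1,1,1,0] (.use (.M 1 16)
  [(false,0,1,1)] (.leaf
  [28,0,11,0,1,0,0,0,0,0,0,0,0,0,0,0,0,0,0,0,0,0,0,0,0,0,0,0,0,0,0,0,560,0,0,800])) (.use (.M 1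
  16) [(true,0,1,1)] (.split [0,2,0,0,0,0,0,1,0,0,0,0,1,0,0,-1] (.use (.H 2 0 4226)
  [(false,0,3,1)] (.split [1,0,3,0,0,0,0,1,0,0,0,0,1,0,0,-1] (.use (.H 2 0 4229) [(false,0,3,1)]
  (.split [1,2,3,0,0,0,0,1,0,0,0,0,1,0,0,-1] (.use (.H 2 0 4231) [(false,0,3,1)] (.use (.H 0 0
  1057) [(false,35,1,1)] (.split [0,1,0,2,0,1,2,0,0,0,0,1,0,2,0,-1] (.use (.H 1 1 10346)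
  [(false,0,2,1)] (.split [1,2,0,0,0,1,2,3,0,0,1,2,0,0,0,-1] (.use (.H 0 0 3299) [(false,0,1,1)]
  (.split [1,1,1,1,1,0,0,0,-4,-5,1,1,1,1,1,0] (.use (.M 1 24) [(false,0,1,1)] (.split
  [0,0,1,0,0,1,0,0,4,0,0,0,1,0,0,-1] (.use (.H 2 1 4388) [(false,0,3,1)] (.split
  [0,0,-3,-4,-5,1,1,1,1,1,1,1,1,1,1,0] (.use (.M 0 28) [(false,0,1,1)] (.split
  [1,1,0,1,1,-2,-2,-2,-2,-2,1,1,1,1,1,0] (.use (.E 0 2 2) [(false,0,1,1)] (.split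
  [0,0,-3,0,0,1,1,1,1,1,1,1,1,1,1,0] (.use (.M 0 4) [(false,0,1,1)] (.leaf
  [9,0,9,0,0,0,2,0,9,0,0,0,0,0,0,0,0,0,0,0,0,0,0,0,0,0,0,0,0,0,0,0,0,0,0,0,0,0,0,0,0,0,0,0,0,0,0,0,0,0,0,0,0,240,0,0,240,0,180]))
  (.use (.M 0 4) [(true,0,1,1)] (.split [0,0,-3,0,-5,1,1,1,1,1,1,1,1,1,1,0] (.use (.M 0 20)
  [(false,0,1,1)] (.leaf
  [12,0,12,0,0,0,0,0,0,0,44,0,0,0,0,0,0,0,0,0,0,0,0,0,0,1,0,0,0,0,0,0,0,11,0,0,0,0,0,0,0,0,0,0,0,0,0,0,0,0,0,0,0,0,240,880,0,0,1760]))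
  (.use (.M 0 20) [(true,0,1,1)] (.leaf
  [8,0,28,0,0,0,24,0,0,0,132,0,0,0,0,0,0,0,0,0,0,0,0,0,0,15,0,0,0,0,0,0,0,33,0,0,0,0,0,0,0,0,0,0,0,0,0,0,0,0,0,0,0,0,240,2640,0,0,5280,0,480]))))))
  (.leaf
  [1440,48,0,8,0,64,0,0,0,0,0,0,0,0,0,0,0,0,0,0,21,0,0,0,0,0,0,0,7,0,8,0,0,0,0,0,0,0,0,0,0,0,0,0,0,0,0,0,0,720,1520,0,0,4960])))
  (.use (.M 0 28) [(true,0,1,1)] (.split [1,2,3,0,0,0,0,0,1,0,0,0,0,1,0,-1] (.use (.H 3 0 8455)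
  [(false,0,4,1)] (.leaf
  [21,0,78,0,0,0,288,0,48,0,0,0,0,8,0,0,0,0,0,0,0,0,0,0,0,0,0,0,0,36,0,0,0,0,0,0,0,0,0,0,0,0,0,0,0,0,0,0,0,0,0,6240,480,0,10080]))
  (.use (.H 3 0 8455) [(true,0,4,1)] (.leaf
  [87,0,492,0,0,0,624,0,144,0,0,0,0,16,0,0,0,0,0,0,0,0,0,0,0,0,0,0,0,174,0,0,0,0,0,0,0,0,0,0,0,0,0,0,0,0,0,0,0,0,0,13920,1920,0,25440,0,19920]))))))
  (.use (.H 2 1 4388) [(true,0,3,1)] (.leaf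
  [4,0,4,0,0,0,0,0,0,0,0,0,0,0,0,0,0,11,0,0,0,0,0,0,0,19,0,0,0,0,0,0,0,0,0,0,0,0,0,0,0,0,0,0,0,0,0,80,0,0,880,0,960]))))
  (.use (.M 1 24) [(true,0,1,1)] (.split [1,1,0,1,1,-2,-2,-2,-2,-2,1,1,1,1,1,0] (.use (.E 0 2 2)
  [(false,0,1,1)] (.split [0,0,0,-4,-5,1,1,1,1,1,1,1,1,1,1,0] (.use (.M 0 24) [(false,0,1,1)]
  (.leaf
  [33,0,0,0,0,0,0,0,0,0,0,0,0,0,0,0,0,0,0,7,0,0,0,0,0,0,0,0,0,0,0,0,0,0,0,0,0,0,0,0,0,0,0,0,0,0,0,0,560,0,0,1360,680]))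
  (.use (.M 0 24) [(true,0,1,1)] (.split [0,0,1,0,0,1,2,3,0,0,0,0,1,0,0,-1] (.use (.H 2 1 4324)
  [(false,0,3,1)] (.split [1,2,3,0,0,1,2,3,0,0,1,2,0,0,0,-1] (.use (.H 0 0 3303) [(false,0,1,1)]
  (.leaf
  [123,0,23,0,102,0,12,0,138,0,84,0,0,0,0,0,0,0,0,0,0,0,0,0,0,0,0,0,0,0,0,0,0,0,0,0,0,0,0,0,0,0,0,0,0,0,0,0,0,0,0,0,0,0,2760,0,5280,0,2700]))
  (.use (.H 0 0 3303) [(true,0,1,1)] (.split [0,0,0,1,0,1,2,3,0,0,0,0,0,1,0,-1] (.use (.H 3 1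
  8424) [(false,0,4,1)] (.use (.H 1 1 10346) [(false,15,2,1)] (.split
  [1,0,3,0,0,0,0,0,1,0,0,0,0,1,0,-1] (.use (.H 3 0 8453) [(false,0,4,1)] (.split
  [0,0,0,1,0,1,0,0,4,0,0,0,0,1,0,-1] (.use (.H 3 1 8488) [(false,0,4,1)] (.use (.M 2 16)
  [(true,33,1,1)] (.use (.H 2 0 4231) [(false,24,3,1)] (.split
  [1,1,1,1,1,1,1,1,1,1,0,0,0,-4,-5,0] (.use (.M 2 24) [(false,0,1,1)] (.use (.E 0 2 2)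
  [(false,18,1,1)] (.split [0,0,-3,0,0,1,1,1,1,1,1,1,1,1,1,0] (.use (.M 0 4) [(false,0,1,1)]
  (.leaf
  [12,0,8,8,0,0,0,0,0,1,0,0,0,0,0,0,4,0,0,0,0,0,4,0,0,0,0,0,0,0,0,0,0,0,0,0,0,0,0,0,0,0,0,0,0,0,0,0,0,0,0,0,0,0,0,0,0,0,0,0,0,0,0,0,0,0,0,0,160,0,0,0,400]))
  (.use (.M 0 4) [(true,0,1,1)] (.split [1,2,3,0,0,0,0,0,1,0,0,0,0,1,0,-1] (.use (.H 3 0 8455)
  [(false,0,4,1)] (.use (.M 2 16) [(true,42,1,1)] (.split [1,2,3,0,0,1,0,0,0,0,1,0,0,0,0,-1]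
  (.use (.H 0 0 1063) [(false,0,1,1)] (.split [0,0,1,0,0,0,0,1,0,0,1,2,0,4,0,-1] (.use (.H 2 2
  11396) [(false,0,3,1)] (.split [0,1,0,2,0,0,1,0,2,0,1,0,0,4,0,-1] (.use (.H 1 2 9546)
  [(false,0,2,1)] (.split [1,2,3,0,0,1,2,0,0,0,1,2,0,0,0,-1] (.use (.H 0 0 3175) [(false,0,1,1)]
  (.leaf
  [144,0,0,0,32,0,0,0,0,13,0,0,0,0,132,0,0,0,0,0,0,0,0,5,0,0,0,24,0,172,0,0,0,140,0,168,0,0,0,0,0,0,0,0,0,0,0,0,0,0,0,0,0,0,0,0,0,0,0,0,0,0,0,0,0,0,0,0,0,0,0,0,0,0,0,0,0,0,960,6720,0,0,0,2400]))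
  (.use (.H 0 0 3175) [(true,0,1,1)] (.split [1,1,1,1,1,0,0,-3,-4,-5,1,1,1,1,1,0] (.use (.M 1
  28) [(false,0,1,1)] (.leaf
  [15420,0,16572,0,0,0,224,0,0,0,0,5631,0,8616,0,0,32460,0,0,0,0,0,0,0,0,0,0,0,0,5968,0,0,0,0,0,6192,0,27192,0,0,0,0,0,0,0,0,0,0,0,0,0,0,0,0,0,0,0,0,0,0,0,0,0,0,0,0,0,0,0,0,0,0,0,0,0,0,0,0,0,662880,543840,927840]))
  (.use (.M 1 28) [(true,0,1,1)] (.split [1,0,3,4,0,0,1,0,0,0,0,1,0,0,0,-1] (.use (.H 1 0 2125)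
  [(false,0,2,1)] (.leaf
  [15,0,66,0,0,0,18,0,0,0,66,0,0,9,0,0,0,0,78,0,0,0,0,0,0,0,0,0,0,0,0,22,0,66,0,0,0,0,0,66,0,0,0,0,0,0,0,0,0,0,0,0,0,0,0,0,0,0,0,0,0,0,0,0,0,0,0,0,0,0,0,0,0,0,0,0,0,0,0,0,0,0,0,3360,0,0,0,1680]))
  (.use (.H 1 0 2125) [(true,0,2,1)] (.split [1,0,3,0,0,0,1,0,2,0,0,1,0,0,0,-1] (.use (.H 1 0
  2373) [(false,0,2,1)] (.leaf
  [42,0,0,0,208,0,0,0,62,0,0,0,208,0,0,16,0,52,0,0,200,0,0,0,0,0,0,0,0,15,0,0,0,32,0,132,0,0,0,0,0,260,0,0,0,0,0,0,0,0,0,0,0,0,0,0,0,0,0,0,0,0,0,0,0,0,0,0,0,0,0,0,0,0,0,0,0,0,0,0,0,0,0,2240,0,9920,0,0,0,2400]))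
  (.use (.H 1 0 2373) [(true,0,2,1)] (.leaf
  [120,0,0,0,225,0,0,0,24,0,0,0,216,0,0,54,0,54,0,0,396,0,0,0,0,0,0,0,0,0,0,0,0,142,0,192,0,0,0,0,0,0,0,0,0,0,0,0,0,0,0,0,0,0,0,0,0,0,0,0,0,0,0,0,0,0,0,0,0,0,0,0,0,0,0,0,0,0,0,0,0,0,0,0,0,10560,0,0,0,19200]))))))))))
  (.use (.H 1 2 9546) [(true,0,2,1)] (.split [1,0,0,4,0,1,2,0,4,0,1,0,0,0,0,-1] (.use (.H 0 0
  1385) [(false,0,1,1)] (.leaf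
  [684,0,408,0,220,0,0,0,0,483,0,0,0,0,1380,0,0,0,0,0,0,0,0,309,0,0,0,0,0,384,0,0,0,1104,0,1416,0,0,0,0,0,0,0,0,0,0,0,0,0,0,0,0,0,0,0,0,0,0,0,0,0,0,0,0,0,0,0,0,0,0,0,0,0,0,0,0,0,28800,0,55200,0,0,0,36000]))
  (.leaf
  [160,22,0,0,0,0,0,0,23,0,0,0,0,100,0,0,0,0,0,0,0,0,23,0,0,0,0,0,28,0,0,0,32,0,12,0,0,0,0,0,0,0,0,0,0,0,0,0,0,0,0,0,0,0,0,0,0,0,0,0,0,0,0,0,0,0,0,0,0,0,0,0,0,0,0,0,160,0,2080,0,0,0,3600])))))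
  (.use (.H 2 2 11396) [(true,0,3,1)] (.split [1,1,1,1,1,1,1,1,1,1,0,0,0,-4,0,0] (.use (.M 2 8)
  [(false,0,1,1)] (.leaf
  [60,0,0,0,0,0,0,15,0,0,0,0,0,0,0,0,0,0,0,0,0,7,0,0,0,0,0,0,0,0,0,30,0,52,0,0,0,0,0,0,0,0,0,0,0,0,0,0,0,0,0,0,0,0,0,0,0,0,0,0,0,0,0,0,0,0,0,0,0,0,0,0,0,0,0,1120,0,1120]))
  (.leaf
  [320,12,0,0,0,0,22,0,0,0,0,68,0,0,0,0,0,0,0,0,11,0,0,0,0,0,0,0,0,0,44,0,88,0,0,0,0,0,0,0,0,0,0,0,0,0,0,0,0,0,0,0,0,0,0,0,0,0,0,0,0,0,0,0,0,0,0,0,0,0,0,0,0,0,1760,0,2240,0,0,0,800])))))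
  (.use (.H 0 0 1063) [(true,0,1,1)] (.leaf
  [228,0,0,135,0,48,0,0,780,0,0,0,0,0,0,0,0,0,0,0,0,184,0,228,0,0,0,384,0,600,0,0,0,0,0,0,0,0,0,0,0,0,0,0,0,0,0,0,0,0,0,0,0,0,0,0,0,0,0,0,0,0,0,0,0,0,0,0,0,0,0,9120,0,21600,0,0,0,12000])))))
  (.use (.H 3 0 8455) [(true,0,4,1)] (.leaf
  [186,0,990,0,0,840,0,0,0,0,0,141,0,0,42,0,0,0,92,0,6,0,0,0,564,0,1248,0,0,0,0,0,0,0,0,0,0,0,0,0,0,0,0,0,0,0,0,0,0,0,0,0,0,0,0,0,0,0,0,0,0,0,0,0,0,0,0,0,6480,0,29280,0,0,0,48600])))))))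
  (.use (.M 2 24) [(true,0,1,1)] (.split [0,0,-3,-4,-5,1,1,1,1,1,1,1,1,1,1,0] (.use (.M 0 28)
  [(false,0,1,1)] (.split [1,2,0,0,0,1,2,3,0,0,1,2,3,0,0,-1] (.use (.H 0 0 7395) [(false,0,1,1)]
  (.leaf
  [156,0,0,0,66,0,4,0,0,0,9,0,0,0,0,0,0,0,0,0,0,0,0,56,0,12,0,0,0,0,0,0,0,0,0,0,0,0,0,0,0,0,0,0,0,0,10,0,0,0,0,0,0,0,0,0,0,0,0,0,0,0,0,0,0,0,0,3360]))
  (.use (.H 0 0 7395) [(true,0,1,1)] (.split [1,2,3,0,0,0,0,0,1,0,0,0,0,1,0,-1] (.use (.H 3 0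
  8455) [(false,0,4,1)] (.split [0,0,1,0,0,0,0,1,0,0,1,0,0,4,0,-1] (.use (.H 2 2 9348)
  [(false,0,3,1)] (.split [1,1,1,1,1,1,1,1,1,1,0,0,-3,-4,-5,0] (.use (.M 2 28) [(false,0,1,1)]
  (.split [0,0,0,2,0,1,0,3,0,0,0,1,0,2,0,-1] (.use (.H 1 1 10408) [(false,0,2,1)] (.use (.M 0
  28) [(false,11,1,1)] (.split [0,1,0,2,0,0,0,0,2,0,1,0,3,0,0,-1] (.use (.H 1 2 5386)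
  [(false,0,2,1)] (.split [0,1,0,2,0,0,1,0,2,0,1,2,3,0,0,-1] (.use (.H 1 2 7498) [(false,0,2,1)]
  (.split [1,2,3,0,0,0,1,0,0,0,0,1,0,2,0,-1] (.use (.H 1 0 10311) [(false,0,2,1)] (.split
  [1,2,3,0,0,0,1,0,2,0,0,1,0,2,0,-1] (.use (.H 1 0 10567) [(false,0,2,1)] (.leaf
  [27,0,0,0,66,0,0,0,54,33,0,54,0,0,0,0,0,120,0,0,0,156,0,80,0,0,0,0,0,0,0,0,0,0,100,0,198,0,0,0,186,0,192,0,0,0,0,0,0,0,0,0,0,0,0,0,0,0,0,0,0,0,0,0,0,0,0,0,0,0,0,0,0,0,0,0,0,0,0,0,0,0,0,0,0,0,0,3360,6480,0,21600]))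
  (.use (.H 1 0 10567) [(true,0,2,1)] (.split [0,1,0,2,0,1,2,3,0,0,0,1,0,2,0,-1] (.use (.H 1 1
  10474) [(false,0,2,1)] (.leaf
  [195,0,123,0,72,0,213,0,0,0,582,0,0,864,0,0,0,0,0,570,0,0,0,879,0,380,0,0,0,0,0,0,0,0,0,0,552,0,816,0,0,0,933,0,0,0,0,0,0,0,0,0,0,0,0,0,0,0,0,0,0,0,0,0,0,0,0,0,0,0,0,0,0,0,0,0,0,0,0,0,0,0,0,0,0,0,0,0,1440,0,16560,0,120240]))
  (.use (.H 1 1 10474) [(true,0,2,1)] (.split [0,0,1,0,0,0,0,1,0,0,1,2,0,4,0,-1] (.use (.H 2 2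
  11396) [(false,0,3,1)] (.leaf
  [536,0,267,0,1101,0,486,0,927,0,0,0,2112,330,0,456,0,0,0,0,0,1632,0,0,0,1935,0,908,0,0,0,0,0,0,0,0,0,0,1020,0,0,0,0,0,2034,0,0,0,0,0,0,0,0,0,0,0,0,0,0,0,0,0,0,0,0,0,0,0,0,0,0,0,0,0,0,0,0,0,0,0,0,0,0,0,0,0,0,0,79200,0,0,0,0,0,293760]))
  (.leaf
  [54960,0,0,93,0,639,0,0,0,0,0,744,558,0,1107,0,0,0,0,0,930,0,0,0,2064,0,566,0,0,0,0,0,0,0,0,0,0,334,0,0,0,0,0,0,0,0,0,0,0,0,0,0,0,0,0,0,0,0,0,0,0,0,0,0,0,0,0,0,0,0,0,0,0,0,0,0,0,0,0,0,0,0,0,0,0,0,0,44640,30720,0,39000,0,0,122520])))))))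
  (.use (.H 1 0 10311) [(true,0,2,1)] (.leaf
  [96,0,12,0,0,0,360,6,0,372,0,0,0,57,0,12,0,0,0,360,0,8,0,0,0,0,0,0,0,0,0,0,248,0,84,0,0,0,252,0,0,0,0,0,0,0,0,0,0,0,0,0,0,114,0,0,0,0,0,0,0,0,0,0,0,0,0,0,0,0,0,0,0,0,0,0,0,0,0,0,0,0,7200,0,0,0,2880,0,31200]))))
  (.use (.H 1 2 7498) [(true,0,2,1)] (.use (.H 1 1 10346) [(false,41,2,1)] (.split
  [1,0,3,0,0,0,1,0,2,0,0,1,0,2,0,-1] (.use (.H 1 0 10565) [(false,0,2,1)] (.split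
  [0,0,0,1,0,0,0,0,1,0,1,2,3,4,0,-1] (.use (.H 3 2 15624) [(false,0,4,1)] (.leaf
  [6,0,3,0,0,6,0,0,0,48,0,0,36,0,0,0,0,0,0,0,0,0,24,0,0,0,0,0,0,0,0,0,0,0,0,28,0,36,0,0,0,28,0,0,0,0,0,0,0,0,0,0,0,0,0,0,0,0,0,0,0,0,0,0,5,0,0,0,0,0,0,0,0,0,0,0,0,0,0,0,0,0,0,0,0,240,0,240,0,720,0,3360]))
  (.use (.H 3 2 15624) [(true,0,4,1)] (.split [0,1,0,2,0,1,2,3,0,0,0,1,0,2,0,-1] (.use (.H 1 1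
  10474) [(false,0,2,1)] (.leaf
  [102,0,27,0,24,0,0,72,0,0,0,252,0,0,0,0,0,0,0,0,0,0,0,0,36,0,0,0,0,0,0,0,0,0,0,0,0,168,0,246,0,0,0,236,0,0,0,0,0,0,0,0,0,0,0,0,0,0,0,0,0,0,0,0,0,0,166,0,0,0,0,0,0,0,0,0,0,0,0,0,0,0,0,0,0,0,0,0,0,0,0,28800,0,30240]))
  (.use (.H 1 1 10474) [(true,0,2,1)] (.leaf
  [12,0,3,0,6,0,6,6,0,0,0,0,0,0,0,0,0,0,0,0,0,0,0,0,18,0,16,0,0,0,0,0,0,0,0,0,0,0,0,20,0,0,0,0,0,0,0,0,0,0,0,0,0,0,0,0,0,0,22,0,0,0,0,0,0,0,0,0,0,0,0,0,0,0,0,0,0,0,0,0,0,0,0,0,0,0,0,0,0,0,3360,960,0,3600]))))))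
  (.use (.H 1 0 10565) [(true,0,2,1)] (.leaf
  [48,0,0,0,0,0,0,72,0,0,168,0,0,0,39,0,0,0,0,0,138,0,0,0,0,0,0,0,0,0,0,0,0,112,0,150,0,0,0,138,0,0,0,0,0,0,0,0,0,0,0,0,0,0,0,0,0,0,0,0,0,0,0,0,0,0,0,0,0,0,0,0,0,0,0,0,0,0,0,0,0,0,0,0,0,0,0,3360,0,17280])))))))
  (.use (.H 1 2 5386) [(true,0,2,1)] (.leaf
  [6,0,12,0,0,0,0,0,0,0,0,0,0,0,0,9,0,0,0,0,0,0,0,0,0,0,0,0,14,0,27,0,0,0,20,0,18,0,0,0,0,0,0,0,0,0,0,0,0,0,0,0,0,0,0,0,0,16,0,0,0,0,0,0,0,0,0,0,0,0,0,0,0,0,0,0,0,0,0,0,0,0,1920,0,2160])))))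
  (.use (.H 1 1 10408) [(true,0,2,1)] (.leaf
  [6,0,12,0,0,0,0,0,0,0,0,0,27,0,8,0,0,0,0,0,0,0,0,0,0,6,0,27,0,0,0,12,0,18,0,0,0,0,0,0,0,0,0,0,0,0,0,0,0,0,0,0,0,0,6,0,0,0,0,0,0,0,0,0,0,0,0,0,0,0,0,0,0,0,0,0,0,0,480,0,0,2160]))))
  (.use (.M 2 28) [(true,0,1,1)] (.split [1,2,0,4,0,0,1,0,2,0,0,1,0,2,0,-1] (.use (.H 1 0 10571)
  [(false,0,2,1)] (.leaf
  [6,0,36,0,0,0,3,0,12,0,0,0,0,0,8,0,0,0,0,0,0,0,0,0,0,20,0,30,0,0,0,66,0,96,0,0,0,0,0,0,0,0,0,0,0,0,0,0,0,0,0,0,0,0,0,0,0,0,0,0,0,0,0,0,0,0,0,0,0,0,0,0,0,0,0,960,0,0,0,2400,0,2880]))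
  (.use (.H 1 0 10571) [(true,0,2,1)] (.leaf
  [4,0,16,0,0,0,1,0,0,0,0,0,0,0,0,0,0,0,0,0,0,0,0,0,0,4,0,0,0,0,0,22,0,28,0,0,0,0,0,0,0,0,0,0,0,0,16,0,0,0,0,0,0,0,0,0,0,0,0,0,0,0,0,0,0,0,0,0,0,0,0,0,0,0,0,320,0,0,0,480,0,1120]))))))
  (.leaf
  [11040,81,0,30,0,0,0,600,0,24,0,0,0,0,0,0,0,0,0,0,136,0,0,0,0,0,192,0,696,0,0,0,0,0,0,0,0,0,0,0,0,123,0,0,0,0,0,0,0,0,0,0,0,0,0,0,0,0,0,0,0,0,0,0,0,0,0,0,0,0,11280,5280,0,0,0,0,19200])))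
  (.use (.H 3 0 8455) [(true,0,4,1)] (.split [1,2,0,4,0,0,1,0,2,0,0,1,0,2,0,-1] (.use (.H 1 0
  10571) [(false,0,2,1)] (.leaf
  [114,0,156,0,228,0,0,0,528,0,332,0,0,0,75,0,0,0,0,0,0,348,0,0,0,0,0,1050,0,1584,0,0,0,0,0,0,0,0,0,0,0,0,0,0,0,0,0,0,0,0,0,0,0,0,0,0,0,0,0,0,0,0,0,0,0,0,0,0,0,0,0,34560,0,0,0,41760,0,56640]))
  (.use (.H 1 0 10571) [(true,0,2,1)] (.leaf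
  [72,0,45,0,0,0,84,0,198,0,40,0,0,0,0,0,0,0,0,0,0,44,0,0,0,0,0,128,0,252,0,0,0,0,0,0,0,0,0,0,0,0,0,0,0,0,0,0,0,0,136,0,0,0,0,0,0,0,0,0,0,0,0,0,0,0,0,0,0,0,0,12960,0,0,0,5280,0,13440]))))))))
  (.use (.M 0 28) [(true,0,1,1)] (.leaf
  [30,0,9,0,2,0,0,0,0,0,0,0,0,0,0,8,0,0,0,0,0,39,0,54,0,0,0,0,0,0,0,0,0,0,0,0,0,0,0,0,0,0,0,0,0,0,0,0,0,0,0,0,0,0,0,0,0,0,0,0,0,0,0,0,0,0,0,480,0,1440,0,1200]))))))))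
  (.use (.H 3 1 8488) [(true,0,4,1)] (.leaf
  [5,160,0,0,0,0,0,0,0,0,0,18,0,8,0,40,0,8,0,0,0,0,0,0,0,0,0,0,0,0,0,0,0,0,0,0,0,0,0,0,0,0,0,0,0,0,0,0,0,0,0,0,0,0,0,0,0,0,0,0,0,160,0,1280,0,1920]))))
  (.use (.H 3 0 8453) [(true,0,4,1)] (.leaf
  [21,0,0,0,0,0,0,32,0,30,0,72,0,48,0,0,0,0,0,0,0,0,0,0,0,0,0,0,0,0,0,0,0,0,0,0,0,0,0,0,0,0,0,0,0,0,0,0,0,0,0,0,0,0,0,0,0,0,0,0,0,2400,0,6720])))))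
  (.use (.H 3 1 8424) [(true,0,4,1)] (.leaf
  [30,0,0,0,31,0,18,0,0,0,0,0,225,0,0,0,0,0,0,0,0,0,0,0,0,0,0,0,0,0,0,0,0,3,0,0,0,0,0,0,0,0,0,0,0,0,0,0,0,0,0,0,0,0,2280,2880,3000]))))))
  (.use (.H 2 1 4324) [(true,0,3,1)] (.leaf
  [83,0,0,0,0,0,0,0,450,0,0,0,0,62,0,0,0,0,0,0,0,0,0,0,0,3,0,0,0,33,0,0,0,0,0,0,0,0,0,0,0,0,0,0,0,0,0,0,0,0,7800,2880,6000,7200]))))))
  (.use (.E 0 2 2) [(true,0,1,1)] (.split [0,0,-3,-4,-5,1,1,1,1,1,1,1,1,1,1,0] (.use (.M 0 28)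
  [(false,0,1,1)] (.leaf
  [324,0,0,16560,70,0,180,0,0,0,0,10,0,0,0,0,0,0,0,141,0,0,0,10,0,0,0,35,0,30,0,0,0,0,0,0,0,0,0,0,0,0,0,0,0,0,0,0,7680,0,2400,3120,30000]))
  (.use (.M 0 28) [(true,0,1,1)] (.leaf
  [15,120,0,240,21,0,36,0,0,0,0,2,0,0,0,0,0,0,0,0,0,0,0,2,0,0,0,0,0,0,0,0,0,0,0,0,0,0,0,0,0,0,0,0,0,0,0,0,0,0,480,0,1080,0,360]))))))))
  (.use (.H 0 0 3299) [(true,0,1,1)] (.split [1,2,0,0,0,1,2,0,0,0,1,2,0,0,0,-1] (.use (.H 0 0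
  3171) [(false,0,1,1)] (.split [0,0,0,-4,-5,1,1,1,1,1,1,1,1,1,1,0] (.use (.M 0 24)
  [(false,0,1,1)] (.leaf
  [28,0,0,0,0,0,0,0,0,0,0,0,0,0,0,0,0,7,0,5,0,0,0,0,0,0,0,0,0,0,0,0,0,0,0,0,0,0,0,0,0,0,0,0,0,0,560,0,0,1360,480]))
  (.use (.M 0 24) [(true,0,1,1)] (.use (.M 1 8) [(true,26,1,1)] (.split
  [1,1,1,1,1,0,0,0,-4,-5,1,1,1,1,1,0] (.use (.M 1 24) [(false,0,1,1)] (.leaf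
  [46,0,17,24,0,24,0,48,0,24,0,0,16,0,0,0,0,0,0,0,0,0,17,0,0,0,0,0,0,0,0,0,8,0,0,0,0,0,0,0,0,0,0,0,0,0,0,0,0,0,1360,0,0,1520,0,3360]))
  (.use (.M 1 24) [(true,0,1,1)] (.split [1,1,1,1,1,1,1,1,1,1,0,0,0,-4,-5,0] (.use (.M 2 24)
  [(false,0,1,1)] (.split [0,0,1,0,0,1,2,3,0,0,0,0,1,0,0,-1] (.use (.H 2 1 4324) [(false,0,3,1)]
  (.split [1,2,0,4,0,0,1,0,2,0,0,0,0,2,0,-1] (.use (.H 1 0 8523) [(false,0,2,1)] (.split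
  [0,1,0,2,0,1,2,3,0,0,0,1,0,2,0,-1] (.use (.H 1 1 10474) [(false,0,2,1)] (.leaf
  [273,4080,120,0,80,0,495,0,0,0,0,240,0,0,0,564,0,0,0,0,160,0,0,0,0,0,0,0,0,0,330,0,0,0,0,0,0,0,0,0,0,0,0,0,0,0,0,0,0,0,0,0,0,0,0,0,0,0,8880,0,1800,0,0,39000]))
  (.use (.H 1 1 10474) [(true,0,2,1)] (.split [0,0,-3,-4,-5,1,1,1,1,1,1,1,1,1,1,0] (.use (.M 0
  28) [(false,0,1,1)] (.split [0,0,0,1,0,1,2,3,0,0,0,0,0,1,0,-1] (.use (.H 3 1 8424)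
  [(false,0,4,1)] (.use (.M 2 16) [(true,35,1,1)] (.split [1,2,3,0,0,0,1,0,0,0,0,1,0,2,0,-1]
  (.use (.H 1 0 10311) [(false,0,2,1)] (.leaf
  [132,0,168,99,0,396,0,0,0,0,0,0,0,564,0,0,0,0,0,0,0,0,396,0,0,0,0,176,0,0,0,0,0,0,0,0,0,0,0,0,0,0,0,0,0,0,0,0,0,0,0,0,0,0,0,0,0,0,0,0,0,0,0,0,15840,5280,6240,21120,0,0,15360]))
  (.use (.H 1 0 10311) [(true,0,2,1)] (.split [0,0,1,0,0,0,0,1,0,0,1,2,0,4,0,-1] (.use (.H 2 2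
  11396) [(false,0,3,1)] (.leaf
  [202,0,237,0,0,0,0,1056,0,0,0,126,0,370,0,540,0,0,0,0,0,0,0,0,606,0,0,0,0,0,0,0,0,0,0,0,0,0,0,0,0,0,0,0,0,0,0,0,0,0,0,0,0,0,0,0,0,0,0,0,0,0,0,0,0,0,20640,10080,14400,0,0,0,41760]))
  (.use (.H 2 2 11396) [(true,0,3,1)] (.split [1,2,3,0,0,0,0,0,1,0,0,0,0,1,0,-1] (.use (.H 3 0
  8455) [(false,0,4,1)] (.leaf
  [261,0,148,0,108,0,0,561,0,2400,0,0,0,0,0,728,0,3480,0,0,0,0,0,0,0,0,1296,0,0,0,0,84,0,0,0,0,0,0,0,0,0,0,0,0,0,0,0,0,0,0,0,0,0,0,0,0,0,0,0,0,0,0,0,0,0,0,0,0,60960,41760,69600,0,0,0,42000]))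
  (.use (.H 3 0 8455) [(true,0,4,1)] (.leaf
  [78,0,0,0,0,0,0,57,0,804,0,0,0,132,0,360,0,1124,0,0,0,0,0,0,0,0,612,0,0,0,0,176,0,0,0,0,0,0,0,0,0,0,0,0,0,0,0,0,0,0,0,0,0,0,0,0,0,0,0,0,0,0,0,0,0,0,0,0,19680,13920,22880,0,0,0,28640])))))))))
  (.use (.H 3 1 8424) [(true,0,4,1)] (.leaf
  [117,0,48,0,0,0,192,0,160,0,918,0,0,0,0,432,0,0,0,48,0,24,0,0,272,0,0,0,0,0,0,0,0,0,0,0,0,0,0,0,0,0,0,0,0,0,0,0,0,0,0,0,0,0,0,0,0,0,0,0,0,0,5280,18720,29040,0,0,31920]))))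
  (.use (.M 0 28) [(true,0,1,1)] (.split [1,2,3,4,0,1,0,0,0,0,1,2,0,0,0,-1] (.use (.H 0 0 3119)
  [(false,0,1,1)] (.split [1,1,1,1,1,1,1,1,1,1,0,0,0,-4,0,0] (.use (.M 2 8) [(false,0,1,1)]
  (.leaf
  [117,0,0,0,54,0,0,0,21,0,0,0,0,0,0,0,0,0,0,0,0,48,0,24,0,0,40,0,0,0,0,0,0,0,0,0,0,0,0,0,0,0,0,0,0,0,0,0,0,0,0,0,0,0,0,0,0,0,0,0,0,0,0,0,480,1920,4200,0,0,3720]))
  (.use (.M 2 8) [(true,0,1,1)] (.leaf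
  [1,0,8,0,10,0,2,0,5,0,0,0,12,0,0,0,0,0,0,0,0,0,0,0,0,0,4,0,0,0,0,0,0,0,0,0,0,0,0,0,0,0,0,0,0,0,0,0,0,0,0,0,0,0,0,0,0,0,0,0,0,0,0,0,80,320,800,0,0,320]))))
  (.use (.H 0 0 3119) [(true,0,1,1)] (.leaf
  [32,0,142,0,16,0,39,0,0,0,242,0,26,0,0,0,0,0,0,46,0,39,0,0,78,0,0,0,0,0,0,0,0,0,0,0,0,0,0,0,0,0,0,0,0,0,0,0,0,0,0,0,0,0,0,0,0,0,0,0,0,0,0,4840,9320,0,0,8800]))))))))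
  (.use (.H 1 0 8523) [(true,0,2,1)] (.split [1,2,3,0,0,0,0,0,1,0,0,0,0,1,0,-1] (.use (.H 3 0
  8455) [(false,0,4,1)] (.use (.M 2 16) [(true,31,1,1)] (.split
  [1,2,3,0,0,1,2,0,0,0,1,2,0,0,0,-1] (.use (.H 0 0 3175) [(false,0,1,1)] (.split
  [1,2,0,0,0,0,1,0,2,0,0,1,0,2,0,-1] (.use (.H 1 0 10563) [(false,0,2,1)] (.split
  [0,1,0,2,0,1,2,0,4,0,0,0,0,2,0,-1] (.use (.H 1 1 8554) [(false,0,2,1)] (.use (.H 2 2 3204)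
  [(false,48,3,1)] (.split [0,0,0,1,0,1,0,3,0,0,0,0,0,1,0,-1] (.use (.H 3 1 8360)
  [(false,0,4,1)] (.split [0,0,0,1,0,1,2,3,0,0,0,0,0,1,0,-1] (.use (.H 3 1 8424) [(false,0,4,1)]
  (.leaf
  [23,0,0,0,0,122,0,0,0,0,0,0,0,0,80,0,0,0,352,0,0,0,0,195,0,0,0,84,0,0,0,0,82,0,0,0,0,0,0,0,0,0,0,0,0,0,0,0,0,0,0,0,0,0,0,0,0,0,0,0,0,0,0,0,0,0,0,0,0,0,3360,7040,4320,0,0,12800]))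
  (.use (.H 3 1 8424) [(true,0,4,1)] (.leaf
  [15,0,15,0,0,48,0,0,0,0,0,0,0,0,48,0,0,0,120,0,0,0,0,105,0,0,0,0,0,0,0,0,26,0,0,0,0,0,0,0,0,0,0,0,0,0,0,0,0,0,0,0,0,0,0,0,0,0,0,0,0,0,0,0,0,0,0,0,0,0,720,2400,4320,0,0,9000]))))
  (.use (.H 3 1 8360) [(true,0,4,1)] (.leaf
  [9,0,0,24,0,0,0,0,0,0,0,0,2,0,0,0,88,0,0,0,0,42,0,0,0,12,0,0,0,0,40,0,0,0,0,0,0,0,0,0,0,0,0,0,0,0,0,0,0,0,0,0,0,0,0,0,0,0,0,0,0,0,0,0,0,0,0,0,480,1760,2880,0,0,3200])))))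
  (.use (.H 1 1 8554) [(true,0,2,1)] (.split [0,0,0,1,0,0,2,3,0,0,0,0,0,1,0,-1] (.use (.H 3 1
  8392) [(false,0,4,1)] (.leaf
  [73,0,337,0,0,0,564,0,0,114,0,0,0,0,0,900,0,0,0,0,455,0,0,0,492,0,246,0,0,0,0,0,0,0,0,0,0,0,0,0,0,0,0,0,0,0,0,0,0,0,0,0,0,0,0,0,0,0,0,0,0,0,0,0,0,0,0,34960,22640,0,0,0,28800]))
  (.leaf
  [80,3,0,0,0,0,0,0,2,0,0,0,0,0,4,0,0,0,0,7,0,0,0,2,0,1,0,0,0,0,0,0,0,0,0,0,0,0,0,0,0,0,0,0,0,0,0,0,0,0,0,0,0,0,0,0,0,0,0,0,0,0,0,0,0,0,0,80,640,0,0,600])))))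
  (.leaf
  [5040,360,0,0,93,0,0,0,0,0,411,0,0,0,0,360,0,0,0,0,0,63,0,0,80,0,0,0,0,0,0,0,0,0,0,0,0,0,0,0,0,0,0,0,0,0,0,0,0,0,0,0,0,0,0,0,0,0,0,0,0,0,4800,12480,19320,0,0,6240])))
  (.use (.H 0 0 3175) [(true,0,1,1)] (.leaf
  [110,0,8,11,0,66,0,0,0,52,0,0,0,0,0,0,0,0,22,0,66,0,0,0,0,0,0,0,0,0,0,0,0,0,0,0,0,0,0,0,0,0,0,0,0,0,0,0,0,0,0,0,0,0,0,0,0,0,0,0,3520,1760,800,0,0,0,8400])))))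
  (.leaf
  [2400,18,0,0,0,48,0,0,0,0,3,0,0,0,132,0,60,0,0,70,0,0,0,0,0,0,0,0,0,0,0,0,0,0,0,0,0,0,0,0,0,0,0,0,0,0,0,0,0,0,0,0,0,0,0,0,480,1680,960,0,0,0,10200])))))
  (.use (.H 2 1 4324) [(true,0,3,1)] (.split [0,0,0,1,0,0,0,3,0,0,0,0,0,1,0,-1] (.use (.H 3 1
  8328) [(false,0,4,1)] (.split [0,0,1,0,0,0,0,1,0,0,1,0,0,4,0,-1] (.use (.H 2 2 9348)
  [(false,0,3,1)] (.leaf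
  [4,0,0,0,44,480,30,0,0,0,0,66,0,0,0,0,0,3,0,0,46,0,0,0,0,0,0,0,0,0,0,0,0,0,0,0,0,0,0,0,0,0,0,0,0,0,0,0,0,0,0,0,0,0,0,0,0,0,0,720,8400,0,0,8400]))
  (.use (.H 2 2 9348) [(true,0,3,1)] (.leaf
  [16,0,39,0,236,0,108,0,0,0,0,198,0,0,0,0,0,21,0,0,198,0,0,0,0,0,0,0,0,0,0,0,0,0,0,0,0,0,0,0,0,0,0,0,0,0,0,0,0,0,0,0,0,0,0,0,0,0,0,2160,33120,0,0,43200]))))
  (.use (.H 3 1 8328) [(true,0,4,1)] (.leaf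
  [3,0,0,0,26,0,0,0,0,12,0,0,0,4,0,6,0,0,12,0,0,0,0,0,0,0,0,0,0,0,0,0,0,0,0,0,0,0,0,0,0,0,0,0,0,0,0,0,0,0,0,0,0,0,0,0,160,520,880,0,0,940]))))))
  (.use (.M 2 24) [(true,0,1,1)] (.split [0,0,1,0,0,0,0,1,0,0,1,2,3,0,0,-1] (.use (.H 2 2 7300)
  [(false,0,3,1)] (.split [0,0,1,0,0,1,2,3,0,0,0,0,1,0,0,-1] (.use (.H 2 1 4324) [(false,0,3,1)]
  (.split [0,0,-3,-4,-5,1,1,1,1,1,1,1,1,1,1,0] (.use (.M 0 28) [(false,0,1,1)] (.split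
  [1,2,3,0,0,0,1,0,0,0,0,1,0,2,0,-1] (.use (.H 1 0 10311) [(false,0,2,1)] (.split
  [0,1,0,2,0,1,2,3,0,0,0,1,0,0,0,-1] (.use (.H 1 1 2282) [(false,0,2,1)] (.leaf
  [21,0,12,0,54,0,8,0,16,0,24,0,21,0,0,36,0,0,0,48,0,0,0,0,0,0,0,0,0,0,0,0,0,0,0,0,0,0,0,0,0,0,0,0,8,0,0,0,0,0,0,0,0,0,0,0,0,0,0,0,0,240,0,0,1440,0,0,5040]))
  (.use (.H 1 1 2282) [(true,0,2,1)] (.leaf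
  [3,0,3,0,18,0,2,0,6,0,6,0,0,0,0,15,0,0,0,6,0,0,0,0,0,0,0,0,0,0,0,0,0,0,0,0,0,0,0,0,0,0,0,0,0,0,0,0,0,0,0,0,0,0,0,0,0,0,0,0,0,240,0,0,1200,0,0,1080]))))
  (.use (.H 1 0 10311) [(true,0,2,1)] (.split [1,2,0,0,0,0,1,0,2,0,0,1,0,2,0,-1] (.use (.H 1 0
  10563) [(false,0,2,1)] (.split [0,0,1,0,0,0,0,1,0,0,1,2,0,4,0,-1] (.use (.H 2 2 11396)
  [(false,0,3,1)] (.leaf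
  [206,0,783,0,1260,0,5064,0,1608,0,1528,0,1734,0,0,0,0,0,0,0,0,3342,0,1035,0,0,0,0,0,0,0,0,0,0,0,0,0,0,0,0,0,0,0,0,0,0,0,0,0,0,0,0,0,0,0,0,0,0,0,0,0,0,0,116640,71040,0,0,0,0,278640]))
  (.use (.H 2 2 11396) [(true,0,3,1)] (.split [0,0,0,1,0,1,2,3,0,0,0,0,0,1,0,-1] (.use (.H 3 1
  8424) [(false,0,4,1)] (.leaf
  [33,0,20,0,48,0,39,0,240,0,42,0,106,0,96,0,0,0,0,0,0,0,0,192,0,63,0,0,0,0,0,0,0,0,0,0,0,0,0,0,0,0,0,0,0,0,0,0,0,0,0,0,0,0,0,0,0,0,0,0,0,0,0,0,0,5760,3840,0,0,0,0,16200]))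
  (.use (.H 3 1 8424) [(true,0,4,1)] (.leaf
  [849,0,692,0,306,0,1110,0,6852,0,2500,0,0,0,4530,0,0,0,0,0,0,0,0,0,0,732,0,0,0,0,0,0,0,0,0,0,0,0,0,0,0,0,0,0,0,0,0,0,896,0,0,0,0,0,0,0,0,0,0,0,0,0,0,0,0,171360,111360,0,0,0,0,324000]))))))
  (.leaf
  [12960,0,0,750,0,98,0,93,0,141,0,0,0,0,288,0,0,0,618,0,432,0,0,0,0,0,0,0,0,0,0,0,0,0,0,0,0,0,0,0,0,0,0,149,0,0,0,0,0,0,0,0,0,0,0,0,0,0,0,0,3120,17280,3000,0,0,0,48300])))))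
  (.use (.M 0 28) [(true,0,1,1)] (.split [0,1,0,0,0,1,2,3,0,0,0,1,0,2,0,-1] (.use (.H 1 1 10466)
  [(false,0,2,1)] (.leaf
  [18,0,81,0,0,0,2,0,30,0,0,0,0,0,0,84,0,42,0,3,0,0,28,0,0,0,0,0,0,0,0,0,0,0,0,0,0,0,0,0,0,0,0,0,0,0,0,0,0,0,0,0,0,0,0,0,0,0,0,0,1680,0,4560,2640,0,3360]))
  (.use (.H 1 1 10466) [(true,0,2,1)] (.leaf
  [12,0,60,0,0,0,2,0,45,0,0,0,0,0,0,60,0,0,0,0,0,0,20,0,0,0,0,0,0,0,0,0,0,0,0,0,0,0,0,0,0,0,0,0,0,0,0,0,0,0,0,0,0,0,0,0,0,0,0,0,720,0,3360,0,0,2760]))))))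
  (.use (.H 2 1 4324) [(true,0,3,1)] (.leaf
  [5,0,1,0,3,0,0,0,0,9,0,3,0,0,0,0,0,0,5,0,0,0,0,0,0,0,0,0,0,0,0,0,0,0,0,0,0,0,0,0,0,0,0,0,0,0,0,0,0,0,0,0,0,0,0,0,0,0,960,0,0,1020]))))
  (.use (.H 2 2 7300) [(true,0,3,1)] (.leaf
  [740,0,402,0,912,0,0,2268,0,2046,0,2712,0,1245,0,0,1882,0,0,0,0,0,0,0,0,0,0,0,0,0,0,0,0,0,0,0,534,0,0,0,0,0,0,0,0,0,0,0,0,0,0,0,0,8880,0,0,256560,161040,0,355560])))))))))))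
  (.use (.H 0 0 3171) [(true,0,1,1)] (.leaf
  [64,0,6,0,35,0,0,4,0,0,0,0,0,10,0,0,0,10,0,0,0,0,0,0,0,4,0,0,0,0,0,0,0,0,0,0,0,0,0,0,0,0,0,0,0,0,0,0,0,0,4200]))))))
  (.use (.H 1 1 10346) [(true,0,2,1)] (.split [0,0,0,1,0,0,2,0,0,0,0,0,0,1,0,-1] (.use (.H 3 1
  8264) [(false,0,4,1)] (.leaf
  [7,0,14,0,0,0,0,0,0,0,0,0,0,0,0,0,0,0,0,0,0,8,0,4,0,0,0,0,0,0,0,0,0,0,0,0,0,0,0,0,0,0,0,0,0,0,320,0,1680]))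
  (.use (.H 3 1 8264) [(true,0,4,1)] (.leaf
  [39,0,12,0,0,0,0,0,0,0,0,0,0,0,0,0,0,0,0,0,0,94,0,16,0,0,0,0,0,0,0,0,0,0,0,0,0,0,0,0,0,0,0,0,320,0,0,0,9680])))))))
  (.use (.H 2 0 4231) [(true,0,3,1)] (.split [0,0,-3,-4,-5,1,1,1,1,1,1,1,1,1,1,0] (.use (.M 0
  28) [(false,0,1,1)] (.split [1,1,0,1,1,-2,-2,-2,-2,-2,1,1,1,1,1,0] (.use (.E 0 2 2)
  [(false,0,1,1)] (.use (.H 2 0 4229) [(false,7,3,1)] (.split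
  [1,1,1,1,1,0,0,0,-4,-5,1,1,1,1,1,0] (.use (.M 1 24) [(false,0,1,1)] (.leaf
  [24,0,0,18,0,9,0,2,0,0,0,0,0,0,0,0,0,0,0,0,0,0,0,6,0,0,0,0,0,0,0,0,0,0,0,0,0,0,0,0,0,0,0,0,240,480,0,0,600,0,360]))
  (.use (.M 1 24) [(true,0,1,1)] (.split [1,1,0,1,1,1,1,1,1,1,-2,-2,-2,-2,-2,0] (.use (.E 0 1 2)
  [(false,0,1,1)] (.split [0,1,0,2,0,0,1,0,0,0,1,0,3,0,0,-1] (.use (.H 1 2 5194) [(false,0,2,1)]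
  (.split [0,1,0,0,0,0,1,0,0,0,1,2,3,0,0,-1] (.use (.H 1 2 7234) [(false,0,2,1)] (.use (.H 2 2
  3204) [(false,34,3,1)] (.use (.H 2 1 4196) [(false,27,3,1)] (.use (.M 1 16) [(true,22,1,1)]
  (.use (.H 2 1 4196) [(false,29,3,1)] (.use (.M 2 16) [(true,28,1,1)] (.use (.H 2 2 3204)
  [(false,39,3,1)] (.use (.H 2 1 4196) [(false,32,3,1)] (.use (.M 1 16) [(true,27,1,1)] (.split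
  [0,0,1,0,0,1,0,3,0,0,0,0,0,0,0,-1] (.use (.H 2 1 164) [(false,0,3,1)] (.use (.M 1 24)
  [(true,17,1,1)] (.use (.H 2 1 164) [(false,2,3,1)] (.use (.H 2 1 4196) [(false,38,3,1)]
  (.split [0,0,1,0,0,1,2,3,0,0,0,0,0,0,0,-1] (.use (.H 2 1 228) [(false,0,3,1)] (.use (.H 2 0
  4229) [(false,31,3,1)] (.split [0,2,0,0,0,1,0,0,4,0,1,0,0,0,0,-1] (.use (.H 0 0 1314)
  [(false,0,1,1)] (.use (.H 2 0 4229) [(false,34,3,1)] (.use (.H 2 2 3204) [(false,53,3,1)]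
  (.split [1,2,0,4,0,0,0,1,0,0,0,0,1,0,0,-1] (.use (.H 2 0 4235) [(false,0,3,1)] (.use (.M 2 16)
  [(true,46,1,1)] (.use (.H 2 2 3204) [(false,57,3,1)] (.use (.H 2 0 4229) [(false,40,3,1)]
  (.split [0,0,1,0,0,0,0,1,0,0,1,0,3,0,0,-1] (.use (.H 2 2 5252) [(false,0,3,1)] (.use (.H 2 1
  4196) [(false,53,3,1)] (.use (.H 2 2 3204) [(false,62,3,1)] (.split
  [0,0,1,0,0,1,0,0,4,0,0,0,1,0,0,-1] (.use (.H 2 1 4388) [(false,0,3,1)] (.split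
  [1,2,0,0,0,0,1,0,2,0,0,1,0,2,0,-1] (.use (.H 1 0 10563) [(false,0,2,1)] (.use (.M 2 16)
  [(true,57,1,1)] (.split [0,0,1,0,0,1,2,3,0,0,0,0,1,0,0,-1] (.use (.H 2 1 4324) [(false,0,3,1)]
  (.use (.M 2 16) [(true,60,1,1)] (.split [0,0,1,0,0,0,0,1,0,0,1,2,0,4,0,-1] (.use (.H 2 2
  11396) [(false,0,3,1)] (.split [1,1,1,1,1,1,1,1,1,1,0,0,-3,0,-5,0] (.leaf
  [5040,12,0,222,138,0,0,0,0,0,0,0,0,0,0,0,0,0,0,0,0,0,0,0,0,0,0,0,0,207,0,0,0,0,0,0,0,0,0,0,0,0,0,0,0,0,0,0,0,474,0,366,0,124,0,0,0,0,0,0,0,0,0,0,0,0,0,0,0,0,0,0,0,0,0,0,0,0,0,0,0,0,0,0,0,0,0,0,0,0,7200,0,0,0,0,0,31200])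
  (.use (.M 2 20) [(true,0,1,1)] (.split [0,0,-3,0,0,1,1,1,1,1,1,1,1,1,1,0] (.use (.M 0 4)
  [(false,0,1,1)] (.leaf
  [21,0,6,0,6,0,0,4,0,0,0,0,0,0,0,0,0,0,0,0,0,0,0,0,0,0,0,0,0,0,0,0,6,0,0,0,0,0,0,0,0,0,0,0,0,0,0,9,0,0,0,0,3,0,0,0,0,0,0,0,0,0,0,0,0,0,0,0,0,0,0,0,0,0,0,0,0,0,0,0,0,0,0,0,0,0,0,0,0,0,0,0,0,0,0,0,0,0,0,840]))
  (.use (.M 0 4) [(true,0,1,1)] (.use (.H 2 1 4388) [(false,13,3,1)] (.split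
  [0,2,0,0,0,1,2,0,0,0,1,0,0,0,0,-1] (.use (.H 0 0 1122) [(false,0,1,1)] (.use (.H 1 0 10563)
  [(false,14,2,1)] (.split [0,1,0,2,0,0,0,0,2,0,1,2,0,0,0,-1] (.use (.H 1 2 3338)
  [(false,0,2,1)] (.use (.H 2 1 4388) [(false,19,3,1)] (.use (.H 1 0 10563) [(false,18,2,1)]
  (.split [0,0,0,0,0,1,0,0,4,0,0,0,0,1,0,-1] (.use (.H 3 1 8480) [(false,0,4,1)] (.use (.H 2 1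
  4388) [(false,23,3,1)] (.split [0,1,0,0,0,0,1,0,2,0,1,2,0,4,0,-1] (.use (.H 1 2 11586)
  [(false,0,2,1)] (.leaf
  [9,0,6,0,0,0,0,0,0,0,0,0,0,141,0,54,0,48,0,0,30,0,0,0,0,0,0,0,0,0,0,0,0,0,0,0,0,0,0,0,0,0,0,0,0,36,0,0,0,0,0,0,0,0,0,0,0,0,0,0,90,0,0,0,0,0,0,114,0,80,0,0,0,0,0,0,0,0,0,0,0,0,0,0,0,0,0,0,0,0,0,0,0,0,0,0,0,0,0,0,0,0,0,0,0,0,120,0,0,0,0,0,19140]))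
  (.use (.H 1 2 11586) [(true,0,2,1)] (.leaf
  [3,0,0,0,0,0,0,0,0,0,0,0,0,66,0,12,0,20,0,0,14,0,0,0,0,0,0,0,0,0,0,0,0,0,0,0,0,0,0,0,0,0,0,0,0,24,0,0,0,0,0,0,0,0,0,0,0,0,0,0,0,0,0,0,0,0,0,42,0,28,0,0,0,0,0,0,0,0,0,0,0,0,0,0,0,0,0,0,0,0,0,0,0,0,0,0,0,0,0,0,0,0,0,0,0,0,0,0,240,0,0,0,6720])))))
  (.leaf
  [5040,0,0,0,0,0,0,0,0,0,0,6,0,62,0,0,32,0,0,0,0,0,0,0,0,0,0,0,0,0,0,0,0,0,0,0,0,0,0,0,0,237,0,0,0,0,0,0,0,0,0,0,0,0,0,0,1650,0,0,0,0,0,0,483,0,322,0,0,0,0,0,0,0,0,0,0,0,0,0,0,0,0,0,0,0,0,0,0,0,0,0,0,0,0,0,0,0,0,0,0,0,0,0,0,1680,0,37080,0,84000])))))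
  (.leaf
  [1200,15,0,0,0,618,0,162,0,172,0,0,130,0,0,0,0,0,0,0,0,0,0,0,0,0,0,0,0,0,0,0,0,0,0,0,0,210,0,0,0,0,0,0,0,0,0,0,0,0,0,0,0,0,0,0,0,0,0,366,0,264,0,0,0,0,0,0,0,0,0,0,0,0,0,0,0,0,0,0,0,0,0,0,0,0,0,0,0,0,0,0,0,0,0,0,0,0,0,0,0,0,0,0,63960]))))
  (.leaf
  [240,0,12,0,6,0,8,0,0,4,0,0,0,0,0,0,0,0,0,0,0,0,0,0,0,0,0,0,0,0,0,0,0,0,0,0,0,0,0,0,0,0,0,0,0,0,0,0,0,36,0,0,0,0,0,0,27,0,14,0,0,0,0,0,0,0,0,0,0,0,0,0,0,0,0,0,0,0,0,0,0,0,0,0,0,0,0,0,0,0,0,0,0,0,0,0,0,0,0,120,0,3600]))))))))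
  (.use (.H 2 2 11396) [(true,0,3,1)] (.use (.H 1 0 10563) [(false,7,2,1)] (.split
  [1,0,3,4,0,0,0,0,1,0,0,0,0,1,0,-1] (.use (.H 3 0 8461) [(false,0,4,1)] (.use (.H 2 2 3204)
  [(false,76,3,1)] (.split [0,1,0,2,0,1,2,0,4,0,0,1,0,2,0,-1] (.use (.H 1 1 10602)
  [(false,0,2,1)] (.use (.H 2 2 3204) [(false,79,3,1)] (.split
  [0,0,-3,0,0,1,1,1,1,1,1,1,1,1,1,0] (.use (.M 0 4) [(false,0,1,1)] (.split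
  [0,1,0,2,0,1,2,3,0,0,0,1,0,2,0,-1] (.use (.H 1 1 10474) [(false,0,2,1)] (.leaf
  [45,0,168,0,72,108,0,0,0,0,0,28,0,0,36,0,0,0,0,0,0,0,0,0,0,0,0,0,0,0,0,0,0,0,0,0,0,0,0,138,0,0,0,0,0,0,0,0,0,0,0,0,0,0,624,0,0,0,0,0,0,0,0,102,0,0,0,0,0,0,0,0,0,0,0,0,0,0,0,0,0,0,0,0,0,0,0,0,0,0,0,0,0,0,0,0,0,0,0,0,0,0,2160,0,20880,0,33600]))
  (.use (.H 1 1 10474) [(true,0,2,1)] (.leaf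
  [3,0,16,0,4,3,0,0,0,0,0,0,0,0,6,0,0,0,0,0,0,0,0,0,0,0,0,0,0,0,0,0,0,0,0,0,0,0,0,6,0,0,0,0,0,0,0,0,0,0,0,0,0,0,0,0,0,0,0,14,0,0,0,2,0,0,0,0,0,0,0,0,0,0,0,0,0,0,0,0,0,0,0,0,0,0,0,0,0,0,0,0,0,0,0,0,0,0,0,0,0,0,160,0,0,0,1160]))))
  (.use (.M 0 4) [(true,0,1,1)] (.leaf
  [90,0,16,24,0,0,0,0,0,4,0,0,8,0,0,0,0,0,0,0,0,0,0,0,0,0,0,0,0,0,0,0,0,24,0,0,0,48,0,0,0,0,0,0,0,0,0,0,0,0,0,0,0,0,0,0,0,18,0,39,0,42,0,0,0,0,0,0,0,0,0,0,0,0,0,0,0,0,0,0,0,0,0,0,0,0,0,0,0,0,0,0,0,0,0,0,0,0,0,0,480,0,3240,0,10080])))))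
  (.use (.H 1 1 10602) [(true,0,2,1)] (.leaf
  [9,0,0,9,0,9,4,0,0,0,0,0,0,0,0,0,0,0,0,0,0,0,0,0,0,0,0,0,0,0,0,0,0,0,0,0,0,0,0,0,0,0,0,0,0,0,0,0,0,126,0,0,0,0,0,0,21,0,34,0,0,0,0,0,0,0,0,0,0,0,0,0,0,0,0,0,0,0,0,0,0,0,0,0,0,0,0,0,0,0,0,0,0,0,0,0,0,0,0,2520,0,8640])))))
  (.use (.H 3 0 8461) [(true,0,4,1)] (.leaf
  [3,0,0,0,0,0,2,0,0,0,0,0,0,0,0,0,0,0,0,0,0,0,0,0,0,0,0,0,0,0,0,3,0,0,0,0,0,0,0,0,0,0,0,0,0,0,12,0,0,0,0,24,0,0,0,8,0,0,0,0,0,0,0,0,0,0,0,0,0,0,0,0,0,0,0,0,0,0,0,0,0,0,0,0,0,0,0,0,0,0,0,0,240,0,0,0,0,0,2040]))))))))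
  (.leaf
  [2400,0,0,0,0,0,2,0,18,0,0,0,0,0,0,0,0,0,0,0,40,0,0,0,0,0,0,0,0,0,0,0,0,0,0,0,0,0,0,105,0,0,0,0,75,0,75,0,50,0,0,0,0,0,0,0,0,0,0,0,0,0,0,0,0,0,0,0,0,0,0,0,0,0,0,0,0,0,0,0,0,0,0,0,0,0,0,480,0,0,0,13800]))))
  (.use (.H 1 0 10563) [(true,0,2,1)] (.leaf
  [9,0,0,0,2,0,0,0,0,0,0,0,0,0,0,0,0,0,0,0,0,0,9,0,0,0,0,0,0,0,0,0,0,0,0,0,0,2,0,0,0,0,0,0,17,0,0,0,0,0,0,0,0,0,0,0,0,0,0,0,0,0,0,0,0,0,0,0,0,0,0,0,0,0,0,0,0,0,0,0,0,0,0,320,0,320,0,120,0,640]))))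
  (.use (.H 2 1 4388) [(true,0,3,1)] (.leaf
  [2,0,0,0,0,0,0,0,0,0,0,0,0,0,0,0,0,0,0,0,9,0,0,0,0,0,0,0,0,0,0,0,0,0,0,72,0,0,0,0,0,0,15,0,14,0,0,0,0,0,0,0,0,0,0,0,0,0,0,0,0,0,0,0,0,0,0,0,0,0,0,0,0,0,0,0,0,0,0,0,0,0,0,0,0,1800,0,3600]))))))
  (.use (.H 2 2 5252) [(true,0,3,1)] (.leaf
  [2,0,4,0,0,0,0,0,0,0,0,0,0,0,0,0,0,0,0,0,0,0,0,0,0,0,0,0,0,0,0,15,0,0,0,0,15,0,9,0,8,0,0,0,0,0,0,0,0,0,0,0,0,0,0,0,0,0,0,0,0,0,0,0,0,0,0,0,0,0,0,0,0,0,0,0,0,0,0,0,0,0,0,2040])))))))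
  (.leaf
  [960,0,0,0,0,0,8,0,0,4,0,0,0,0,0,0,0,0,0,0,0,0,0,0,0,81,0,0,0,0,153,0,81,0,58,0,0,0,0,0,0,0,0,0,0,0,0,0,0,0,0,0,0,0,0,0,0,0,0,0,0,0,0,0,0,0,0,0,0,0,0,720,480,0,0,0,0,12600])))))
  (.use (.H 0 0 1314) [(true,0,1,1)] (.leaf
  [12,0,0,0,0,0,0,18,0,0,0,0,0,0,0,0,0,0,0,0,0,0,0,0,0,0,0,18,0,15,0,2,0,0,0,0,0,0,0,0,0,0,0,0,0,0,0,0,0,0,0,0,0,0,0,0,0,0,0,0,0,0,0,0,0,0,0,0,240,0,0,0,360,0,1320])))))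
  (.use (.H 2 1 228) [(true,0,3,1)] (.leaf
  [4,0,2,0,0,0,0,0,0,6,0,0,0,0,0,0,0,0,0,45,0,0,0,0,15,0,21,0,14,0,0,0,0,0,0,0,0,0,0,0,0,0,0,0,0,0,0,0,0,0,0,0,0,0,0,0,0,0,0,0,0,0,0,0,0,0,0,240,0,0,0,3600])))))))
  (.leaf
  [3960,21,33,99,0,0,0,0,0,0,0,0,0,354,0,0,0,0,0,0,210,0,98,0,0,0,0,0,0,0,0,0,0,0,0,0,0,0,0,0,0,0,0,0,0,0,0,0,0,0,0,0,0,0,0,0,0,0,0,2520,0,3960,0,0,0,22260])))))))))))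
  (.use (.H 1 2 7234) [(true,0,2,1)] (.leaf
  [48,0,0,0,0,0,45,0,16,234,0,78,0,58,0,0,0,0,0,0,0,0,0,0,0,16,0,0,0,0,0,0,0,0,0,0,0,0,0,0,0,0,0,0,0,0,0,0,0,0,0,0,0,0,0,0,18360]))))
  (.leaf
  [1440,147,0,12,0,6,225,0,111,0,86,0,0,0,0,0,0,0,0,0,0,0,18,0,0,0,0,0,0,0,0,0,0,0,0,0,0,0,0,0,0,0,0,0,0,0,0,0,0,0,0,0,0,21000])))
  (.use (.E 0 1 2) [(true,0,1,1)] (.split [0,0,-3,0,0,1,1,1,1,1,1,1,1,1,1,0] (.use (.M 0 4)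
  [(false,0,1,1)] (.leaf
  [20,0,11,0,2,0,2,0,0,0,0,0,0,0,0,0,0,0,0,0,0,0,0,2,0,0,0,1,0,0,0,0,0,0,0,0,0,0,0,0,0,0,0,0,0,0,0,0,240,0,0,400,0,0,320]))
  (.leaf
  [2160,99,0,21,0,0,0,0,180,0,40,0,0,0,0,0,0,0,0,0,0,0,0,0,0,0,0,0,0,0,0,0,0,0,0,0,0,0,0,0,0,0,0,0,0,0,0,4800,0,0,6240,0,0,5040]))))))))
  (.leaf
  [26400,792,0,102,0,0,0,0,0,0,0,0,0,0,0,40,0,0,0,15,0,0,0,120,0,0,0,0,0,0,0,0,0,0,0,0,0,0,0,0,21120,1200,4800,0,33600,0,1920])))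
  (.use (.M 0 28) [(true,0,1,1)] (.use (.M 2 16) [(true,13,1,1)] (.split
  [1,0,3,0,0,0,0,0,1,0,0,0,0,1,0,-1] (.use (.H 3 0 8453) [(false,0,4,1)] (.use (.H 2 2 3204)
  [(false,26,3,1)] (.use (.H 2 1 4196) [(false,19,3,1)] (.use (.H 3 0 8453) [(false,3,4,1)]
  (.use (.H 2 0 4229) [(false,11,3,1)] (.use (.H 2 1 4196) [(false,22,3,1)] (.use (.M 1 16)
  [(true,17,1,1)] (.use (.H 2 0 4229) [(false,14,3,1)] (.use (.H 2 2 3204) [(false,33,3,1)]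
  (.use (.H 3 0 8453) [(false,9,4,1)] (.use (.H 2 1 4196) [(false,27,3,1)] (.use (.H 3 0 8453)
  [(false,11,4,1)] (.use (.H 2 2 3204) [(false,37,3,1)] (.use (.H 2 1 4196) [(false,30,3,1)]
  (.use (.H 3 0 8453) [(false,14,4,1)] (.use (.M 1 16) [(true,26,1,1)] (.use (.H 2 2 3204)
  [(false,41,3,1)] (.use (.M 2 16) [(true,32,1,1)] (.use (.H 2 1 4196) [(false,35,3,1)] (.use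
  (.M 1 8) [(true,40,1,1)] (.use (.H 2 2 3204) [(false,45,3,1)] (.use (.M 1 16) [(true,32,1,1)]
  (.use (.H 2 2 3204) [(false,47,3,1)] (.use (.M 1 16) [(true,34,1,1)] (.use (.H 2 1 4196)
  [(false,41,3,1)] (.use (.M 1 8) [(true,46,1,1)] (.use (.H 2 2 3204) [(false,51,3,1)] (.use (.M
  1 16) [(true,38,1,1)] (.use (.H 2 0 4229) [(false,35,3,1)] (.split
  [0,0,1,0,0,0,0,1,0,0,1,0,3,0,0,-1] (.use (.H 2 2 5252) [(false,0,3,1)] (.use (.H 2 2 3204)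
  [(false,56,3,1)] (.split [0,1,0,0,0,1,0,3,0,0,0,1,0,0,0,-1] (.use (.H 1 1 2210)
  [(false,0,2,1)] (.split [0,0,0,0,0,1,0,3,0,0,0,0,0,1,0,-1] (.use (.H 3 1 8352) [(false,0,4,1)]
  (.use (.H 3 0 8453) [(false,36,4,1)] (.use (.H 2 1 4196) [(false,54,3,1)] (.use (.H 2 2 3204)
  [(false,63,3,1)] (.use (.H 2 1 4196) [(false,56,3,1)] (.split
  [0,2,0,0,0,0,0,0,1,0,0,0,0,1,0,-1] (.use (.H 3 0 8450) [(false,0,4,1)] (.use (.M 1 16)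
  [(true,53,1,1)] (.use (.H 2 2 3204) [(false,68,3,1)] (.use (.H 2 0 4227) [(false,73,3,1)]
  (.use (.H 2 1 4196) [(false,62,3,1)] (.use (.H 2 0 4227) [(false,75,3,1)] (.use (.H 2 0 4229)
  [(false,54,3,1)] (.use (.H 2 2 5252) [(false,18,3,1)] (.use (.M 1 8) [(true,70,1,1)] (.split
  [0,1,0,0,0,1,0,0,4,0,0,1,0,0,0,-1] (.use (.H 1 1 2338) [(false,0,2,1)] (.use (.H 2 2 3204)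
  [(false,77,3,1)] (.use (.M 1 8) [(true,74,1,1)] (.use (.H 1 1 2210) [(false,21,2,1)] (.split
  [0,0,1,0,0,0,0,1,0,0,1,2,3,0,0,-1] (.use (.H 2 2 7300) [(false,0,3,1)] (.use (.H 3 0 8453)
  [(false,57,4,1)] (.split [0,1,0,0,0,1,0,0,4,0,0,1,0,2,0,-1] (.use (.H 1 1 10530)
  [(false,0,2,1)] (.use (.M 2 16) [(true,75,1,1)] (.split [0,0,0,1,0,1,2,3,0,0,0,0,0,1,0,-1]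
  (.use (.H 3 1 8424) [(false,0,4,1)] (.use (.M 1 16) [(true,74,1,1)] (.split
  [0,1,0,0,0,0,2,0,0,0,0,0,0,2,0,-1] (.use (.H 1 1 8258) [(false,0,2,1)] (.use (.H 2 2 3204)
  [(false,91,3,1)] (.use (.H 2 2 5252) [(false,37,3,1)] (.use (.H 2 2 7300) [(false,12,3,1)]
  (.use (.H 3 1 8424) [(false,7,4,1)] (.split [0,0,1,0,0,1,2,3,0,0,0,0,1,0,0,-1] (.use (.H 2 1
  4324) [(false,0,3,1)] (.use (.H 3 0 8453) [(false,72,4,1)] (.use (.H 3 1 8424)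
  [(false,11,4,1)] (.split [1,2,0,0,0,1,2,3,4,0,1,2,3,0,0,-1] (.use (.H 0 0 7651)
  [(false,0,1,1)] (.leaf
  [810,0,0,33,0,0,0,0,56,0,0,0,270,0,0,0,0,0,0,0,0,0,0,0,0,0,0,0,0,0,0,0,0,0,0,0,0,0,0,0,0,0,0,0,0,0,0,0,0,0,0,0,0,0,0,0,0,0,0,0,0,0,0,0,0,0,0,0,0,0,0,0,0,0,0,0,0,0,195,4200,0,0,0,0,0,0,0,0,0,0,0,0,0,0,0,0,0,0,0,0,0,0,0,0,0,0,0,0,0,0,0,0,0,0,0,0,0,0,0,11280,0,1800,0,3000]))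
  (.use (.H 0 0 7651) [(true,0,1,1)] (.use (.M 2 16) [(true,91,1,1)] (.use (.M 1 8)
  [(true,98,1,1)] (.use (.H 2 2 3204) [(false,103,3,1)] (.use (.H 2 2 7300) [(false,23,3,1)]
  (.use (.H 3 0 8453) [(false,80,4,1)] (.use (.M 2 16) [(true,96,1,1)] (.use (.M 1 8)
  [(true,103,1,1)] (.use (.H 2 2 3204) [(false,108,3,1)] (.use (.H 2 2 5252) [(false,54,3,1)]
  (.use (.H 2 1 4324) [(false,14,3,1)] (.use (.M 1 8) [(true,107,1,1)] (.use (.H 3 0 8453)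
  [(false,87,4,1)] (.use (.H 2 2 7300) [(false,32,3,1)] (.use (.H 3 1 8424) [(false,27,4,1)]
  (.use (.H 3 0 8453) [(false,90,4,1)] (.use (.H 2 1 4324) [(false,20,3,1)] (.use (.M 1 16)
  [(true,103,1,1)] (.split [1,2,0,0,0,1,2,3,4,0,1,2,0,0,0,-1] (.use (.H 0 0 3555)
  [(false,0,1,1)] (.leaf
  [2472,0,912,360,117,0,0,0,0,0,28,0,0,0,0,0,0,0,0,0,0,0,0,0,0,0,0,0,0,0,0,0,0,0,0,0,0,0,0,0,0,0,0,0,0,0,0,0,0,0,0,0,0,0,0,0,0,0,0,0,0,0,0,0,0,0,0,0,0,0,0,0,0,0,0,0,0,0,0,0,0,0,0,0,0,0,0,0,0,0,0,0,0,0,0,0,0,1104,0,88,0,0,0,0,0,0,0,0,0,0,0,0,0,0,0,0,0,0,0,0,0,0,0,0,0,0,0,0,0,0,0,0,0,0,0,0,0,8160,27840,0,46560,0,33360]))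
  (.use (.H 0 0 3555) [(true,0,1,1)] (.split [1,1,1,1,1,0,0,-3,0,-5,1,1,1,1,1,0] (.use (.M 1 20)
  [(false,0,1,1)] (.split [0,0,1,0,0,1,2,3,4,0,0,0,1,0,0,-1] (.use (.H 2 1 4580) [(false,0,3,1)]
  (.split [0,1,0,2,0,1,2,0,4,0,0,1,0,2,0,-1] (.use (.H 1 1 10602) [(false,0,2,1)] (.leaf
  [3,0,2,0,10,0,7,0,0,0,0,0,8,0,0,0,0,0,0,0,0,0,0,0,0,0,0,0,0,0,0,0,0,0,0,0,0,0,0,0,0,0,0,0,0,0,0,0,0,0,0,0,0,0,0,0,0,0,0,0,0,0,0,0,0,0,0,0,0,0,0,0,0,0,0,0,0,0,0,0,0,0,0,0,0,0,0,0,0,0,0,0,0,0,0,0,0,0,0,0,0,0,0,62,0,31,0,0,0,0,0,0,0,0,0,0,0,0,0,0,0,0,0,0,0,0,0,0,0,0,0,0,0,0,0,0,0,0,0,0,0,0,0,320,240,0,0,0,5400]))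
  (.leaf
  [3360,6,0,423,0,0,0,0,0,0,0,0,0,0,0,0,124,0,0,0,0,0,0,0,0,0,0,0,0,0,0,0,0,0,0,0,0,0,0,0,0,0,0,0,0,0,0,0,0,0,0,0,0,0,0,0,0,0,0,0,0,0,0,0,0,0,0,0,0,0,0,0,0,0,0,0,0,0,0,0,0,0,0,0,0,0,0,0,0,0,0,0,0,0,0,0,0,0,0,0,0,0,1110,0,528,0,0,0,0,0,0,0,0,0,0,0,0,0,0,0,0,0,0,0,0,0,0,0,0,0,0,0,0,0,0,0,0,0,0,0,0,0,7800,7200,0,0,0,87000])))
  (.leaf
  [960,60,0,0,0,0,0,3,0,28,0,0,0,12,0,0,0,0,0,0,0,0,0,0,0,0,0,0,0,0,0,0,0,0,0,0,0,0,0,0,0,0,0,0,0,0,0,0,0,0,0,0,0,0,0,0,0,0,0,0,0,0,0,0,0,0,0,0,0,0,0,0,0,0,0,0,0,0,0,0,0,0,0,0,0,0,0,0,0,0,0,0,0,0,0,0,0,0,0,0,360,0,156,0,0,0,0,0,0,0,0,0,0,0,0,0,0,0,0,0,0,0,0,0,0,0,0,0,0,0,0,0,0,0,0,0,0,0,0,0,960,1440,3840,0,0,27360])))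
  (.use (.M 1 20) [(true,0,1,1)] (.use (.M 2 16) [(true,112,1,1)] (.use (.H 2 2 3204)
  [(false,123,3,1)] (.use (.H 2 0 4229) [(false,106,3,1)] (.use (.H 2 2 3204) [(false,125,3,1)]
  (.use (.H 2 0 4227) [(false,130,3,1)] (.use (.H 2 0 4229) [(false,109,3,1)] (.use (.H 2 2
  7300) [(false,47,3,1)] (.use (.H 3 0 8453) [(false,104,4,1)] (.use (.M 1 8) [(true,126,1,1)]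
  (.use (.M 2 16) [(true,121,1,1)] (.use (.M 1 8) [(true,128,1,1)] (.use (.H 2 2 3204)
  [(false,133,3,1)] (.use (.H 2 2 7300) [(false,53,3,1)] (.use (.H 3 0 8453) [(false,110,4,1)]
  (.split [0,1,0,2,0,1,2,0,4,0,0,1,0,2,0,-1] (.use (.H 1 1 10602) [(false,0,2,1)] (.use (.M 1
  20) [(true,17,1,1)] (.use (.M 2 16) [(true,129,1,1)] (.use (.M 1 8) [(true,136,1,1)] (.use (.H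
  2 2 3204) [(false,141,3,1)] (.use (.H 2 0 4226) [(false,126,3,1)] (.use (.H 2 2 7300)
  [(false,62,3,1)] (.use (.M 1 16) [(true,130,1,1)] (.use (.H 3 0 8453) [(false,120,4,1)] (.use
  (.M 1 16) [(true,132,1,1)] (.use (.M 1 8) [(true,143,1,1)] (.use (.M 2 16) [(true,138,1,1)]
  (.use (.H 2 2 3204) [(false,149,3,1)] (.use (.H 2 0 4227) [(false,154,3,1)] (.use (.H 2 2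
  7300) [(false,70,3,1)] (.use (.H 3 0 8453) [(false,127,4,1)] (.use (.H 1 1 10602)
  [(false,16,2,1)] (.use (.M 1 20) [(true,33,1,1)] (.use (.M 2 16) [(true,145,1,1)] (.split
  [0,0,1,0,0,1,2,3,4,0,0,0,1,0,0,-1] (.use (.H 2 1 4580) [(false,0,3,1)] (.split
  [0,1,0,2,0,0,1,0,2,0,1,2,0,0,0,-1] (.use (.H 1 2 3402) [(false,0,2,1)] (.leaf
  [9,0,40,0,6,30,9,0,0,0,0,0,0,0,0,0,0,0,0,0,0,0,0,0,0,0,0,0,0,0,0,0,0,0,0,0,0,0,0,0,18,0,0,0,0,0,0,0,0,0,0,0,0,0,0,0,0,0,0,0,0,0,0,0,0,0,0,0,0,0,0,0,0,0,0,0,0,0,0,0,0,0,0,0,0,0,0,0,0,0,0,0,0,0,0,0,0,0,0,0,0,0,0,0,0,0,0,0,0,0,0,0,0,0,0,0,0,0,0,0,0,0,0,0,0,0,0,0,0,0,0,0,0,0,0,0,0,204,0,102,0,0,0,0,0,0,0,0,0,0,0,0,0,0,0,0,0,0,0,0,0,0,0,0,0,0,0,0,0,0,0,0,0,0,0,0,0,480,0,0,3600,0,19200]))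
  (.leaf
  [480,84,0,0,36,27,0,0,0,0,0,0,0,0,0,0,0,0,0,0,0,0,0,0,0,0,0,0,0,0,0,0,0,0,0,0,0,0,0,42,0,0,0,0,0,0,0,0,0,0,0,0,0,0,0,0,0,0,0,0,0,0,0,0,0,0,0,0,0,0,0,0,0,0,0,0,0,0,0,0,0,0,0,0,0,0,0,0,0,0,0,0,0,0,0,0,0,0,0,0,0,0,0,0,0,0,0,0,0,0,0,0,0,0,0,0,0,0,0,0,0,0,0,0,0,0,0,0,0,0,0,0,0,0,0,0,456,0,236,0,0,0,0,0,0,0,0,0,0,0,0,0,0,0,0,0,0,0,0,0,0,0,0,0,0,0,0,0,0,0,0,0,0,0,0,0,1920,0,0,8640,0,42840])))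
  (.use (.H 2 1 4580) [(true,0,3,1)] (.use (.M 1 8) [(true,154,1,1)] (.use (.H 2 2 3204)
  [(false,159,3,1)] (.use (.H 2 0 4226) [(false,144,3,1)] (.use (.H 2 0 4229) [(false,143,3,1)]
  (.use (.H 2 2 7300) [(false,81,3,1)] (.use (.H 3 0 8453) [(false,138,4,1)] (.use (.M 1 8)
  [(true,160,1,1)] (.use (.H 3 1 8424) [(false,78,4,1)] (.use (.H 3 0 8450) [(false,100,4,1)]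
  (.use (.M 1 16) [(true,153,1,1)] (.use (.H 2 1 4196) [(false,160,3,1)] (.use (.M 1 20)
  [(true,48,1,1)] (.use (.H 2 1 4324) [(false,74,3,1)] (.use (.H 2 2 3204) [(false,171,3,1)]
  (.use (.H 2 2 7300) [(false,91,3,1)] (.use (.H 2 1 4196) [(false,165,3,1)] (.use (.H 2 1 4324)
  [(false,78,3,1)] (.use (.M 1 8) [(true,171,1,1)] (.use (.H 3 1 8352) [(false,116,4,1)] (.use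
  (.H 2 1 4196) [(false,169,3,1)] (.use (.H 3 0 8450) [(false,112,4,1)] (.use (.M 1 16)
  [(true,165,1,1)] (.use (.H 2 1 4196) [(false,172,3,1)] (.use (.M 1 20) [(true,60,1,1)] (.use
  (.H 2 1 4324) [(false,86,3,1)] (.use (.H 2 2 7300) [(false,102,3,1)] (.use (.H 3 0 8453)
  [(false,159,4,1)] (.use (.M 1 16) [(true,171,1,1)] (.use (.H 2 2 3204) [(false,186,3,1)] (.use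
  (.H 2 2 7300) [(false,106,3,1)] (.use (.M 1 20) [(true,67,1,1)] (.use (.H 2 1 4196)
  [(false,181,3,1)] (.use (.H 2 2 7300) [(false,109,3,1)] (.use (.M 1 8) [(true,187,1,1)] (.use
  (.H 2 1 4324) [(false,96,3,1)] (.use (.H 3 0 8453) [(false,168,4,1)] (.use (.H 3 1 8424)
  [(false,107,4,1)] (.use (.M 1 16) [(true,181,1,1)] (.use (.H 1 1 10602) [(false,59,2,1)] (.use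
  (.H 2 1 4196) [(false,189,3,1)] (.use (.H 2 2 3204) [(false,198,3,1)] (.use (.H 2 2 7300)
  [(false,118,3,1)] (.use (.H 2 1 4196) [(false,192,3,1)] (.use (.H 2 2 3204) [(false,201,3,1)]
  (.use (.H 3 0 8453) [(false,177,4,1)] (.use (.M 1 16) [(true,189,1,1)] (.use (.M 2 16)
  [(true,194,1,1)] (.use (.H 2 1 4324) [(false,109,3,1)] (.use (.H 2 2 7300) [(false,125,3,1)]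
  (.use (.H 0 0 3555) [(true,88,1,1)] (.use (.H 3 0 8453) [(false,183,4,1)] (.split
  [1,2,0,0,0,0,1,0,2,0,0,1,0,2,0,-1] (.use (.H 1 0 10563) [(false,0,2,1)] (.use (.H 1 1 10602)
  [(false,74,2,1)] (.use (.M 1 8) [(true,208,1,1)] (.use (.H 1 1 2210) [(false,155,2,1)] (.use
  (.M 1 16) [(true,200,1,1)] (.use (.H 2 1 4324) [(false,119,3,1)] (.use (.H 2 2 3204)
  [(false,216,3,1)] (.use (.H 2 1 4324) [(false,121,3,1)] (.use (.M 1 16) [(true,204,1,1)] (.use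
  (.H 0 0 7651) [(true,119,1,1)] (.use (.H 0 0 3555) [(true,101,1,1)] (.use (.M 1 8)
  [(true,217,1,1)] (.use (.H 2 1 4324) [(false,126,3,1)] (.use (.H 2 2 7300) [(false,142,3,1)]
  (.use (.H 3 0 8450) [(false,158,4,1)] (.use (.H 2 2 3204) [(false,225,3,1)] (.use (.H 2 1
  4196) [(false,218,3,1)] (.use (.H 3 0 8453) [(false,202,4,1)] (.use (.H 2 2 7300)
  [(false,147,3,1)] (.use (.M 1 8) [(true,225,1,1)] (.use (.H 3 0 8453) [(false,205,4,1)] (.use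
  (.H 2 1 4324) [(false,135,3,1)] (.use (.M 2 16) [(true,222,1,1)] (.use (.M 1 16)
  [(true,219,1,1)] (.use (.M 1 20) [(true,113,1,1)] (.use (.H 2 1 4324) [(false,139,3,1)] (.use
  (.H 2 1 4580) [(true,79,3,1)] (.use (.M 1 8) [(true,233,1,1)] (.use (.H 2 2 3204)
  [(false,238,3,1)] (.use (.H 2 0 4227) [(false,243,3,1)] (.use (.H 2 1 4324) [(false,144,3,1)]
  (.use (.H 3 0 8453) [(false,216,4,1)] (.use (.M 1 16) [(true,228,1,1)] (.use (.H 2 0 4227)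
  [(false,247,3,1)] (.use (.H 2 2 7300) [(false,163,3,1)] (.use (.H 3 1 8424) [(false,158,4,1)]
  (.use (.H 3 0 8453) [(false,221,4,1)] (.use (.H 3 1 8352) [(false,187,4,1)] (.use (.M 1 20)
  [(true,127,1,1)] (.use (.H 3 1 8352) [(false,189,4,1)] (.use (.H 3 1 8424) [(false,163,4,1)]
  (.use (.H 2 1 4580) [(true,94,3,1)] (.use (.M 2 16) [(true,242,1,1)] (.use (.H 1 0 10563)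
  [(false,43,2,1)] (.use (.H 2 2 3204) [(false,254,3,1)] (.use (.M 1 8) [(true,251,1,1)] (.use
  (.H 2 2 3204) [(false,256,3,1)] (.use (.M 1 8) [(true,253,1,1)] (.use (.H 2 0 4227)
  [(false,262,3,1)] (.use (.H 2 0 4229) [(false,241,3,1)] (.use (.M 1 8) [(true,256,1,1)] (.use
  (.H 2 2 5252) [(false,206,3,1)] (.use (.H 2 2 7300) [(false,181,3,1)] (.use (.H 3 0 8453)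
  [(false,238,4,1)] (.use (.M 2 16) [(true,254,1,1)] (.use (.M 1 8) [(true,261,1,1)] (.use (.H 2
  1 4324) [(false,170,3,1)] (.use (.H 1 1 10602) [(false,130,2,1)] (.use (.M 1 8)
  [(true,264,1,1)] (.split [0,0,1,0,0,0,0,1,0,0,1,2,0,4,0,-1] (.use (.H 2 2 11396)
  [(false,0,3,1)] (.split [0,1,0,2,0,0,1,0,2,0,1,2,3,4,0,-1] (.use (.H 1 2 15690)
  [(false,0,2,1)] (.leaf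
  [45,0,24,0,90,54,0,0,78,0,72,0,0,0,0,0,0,0,0,0,0,39,0,0,0,0,0,0,0,0,0,0,0,0,0,0,0,0,0,0,0,0,0,0,0,0,0,0,0,0,0,0,0,0,0,0,0,0,0,0,0,0,0,0,0,0,0,0,0,0,0,0,0,0,0,0,0,0,0,0,0,0,0,0,0,0,0,0,0,0,0,0,0,0,0,0,0,0,0,0,0,0,0,0,0,0,0,0,0,0,0,0,0,0,0,0,0,0,0,0,0,0,0,0,0,0,0,0,0,0,0,0,0,0,0,0,0,0,0,0,0,0,0,0,0,0,0,0,0,0,0,0,0,0,0,0,0,0,0,0,0,0,0,0,0,0,0,0,0,0,0,0,0,0,0,0,0,0,0,0,0,0,0,0,0,0,0,0,0,0,0,0,0,0,0,0,0,0,0,0,0,0,0,0,0,0,0,0,0,0,0,0,0,0,0,0,0,0,0,0,0,0,0,0,0,0,0,0,0,0,0,0,0,0,0,0,0,0,0,0,0,0,0,0,0,0,0,0,0,0,717,0,269,0,0,0,0,0,0,0,0,0,0,0,0,0,0,0,0,0,0,0,0,0,0,0,0,0,0,0,0,0,0,0,0,0,0,0,0,0,1080,1440,10200,0,0,56700]))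
  (.use (.H 1 2 15690) [(true,0,2,1)] (.split [0,1,0,0,0,0,1,0,2,0,1,0,0,4,0,-1] (.use (.H 1 2
  9538) [(false,0,2,1)] (.leaf
  [153,0,159,0,32,0,465,492,0,0,0,0,178,322,0,0,0,0,0,0,0,0,0,184,0,0,0,0,0,0,0,0,0,0,0,0,0,0,0,0,0,0,0,0,0,0,0,0,0,0,0,0,0,0,0,0,0,0,0,0,0,0,0,0,0,0,0,0,0,0,0,0,0,0,0,0,0,0,0,0,0,0,0,0,0,0,0,0,0,0,0,0,0,0,0,0,0,0,0,0,0,0,0,0,0,0,0,0,0,0,0,0,0,0,0,0,0,0,0,0,0,0,0,0,0,0,0,0,0,0,0,0,0,0,0,0,0,0,0,0,0,0,0,0,0,0,0,0,0,0,0,0,0,0,0,0,0,0,0,0,0,0,0,0,0,0,0,0,0,0,0,0,0,0,0,0,0,0,0,0,0,0,0,0,0,0,0,0,0,0,0,0,0,0,0,0,0,0,0,0,0,0,0,0,0,0,0,0,0,0,0,0,0,0,0,0,0,0,0,0,0,0,0,0,0,0,0,0,0,0,0,0,0,0,0,0,0,0,0,0,0,0,0,0,0,0,0,0,0,0,0,0,1176,0,494,0,0,0,0,0,0,0,0,0,0,0,0,0,0,0,0,0,0,0,0,0,0,0,0,0,0,0,0,0,0,0,0,0,0,0,0,0,9840,17280,0,0,0,126600]))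
  (.leaf
  [4320,108,0,80,0,384,561,0,0,0,0,0,332,0,0,0,0,0,0,0,0,0,140,0,0,0,0,0,0,0,0,0,0,0,0,0,0,0,0,0,0,0,0,0,0,0,0,0,0,0,0,0,0,0,0,0,0,0,0,0,0,0,0,0,0,0,0,0,0,0,0,0,0,0,0,0,0,0,0,0,0,0,0,0,0,0,0,0,0,0,0,0,0,0,0,0,0,0,0,0,0,0,0,0,0,0,0,0,0,0,0,0,0,0,0,0,0,0,0,0,0,0,0,0,0,0,0,0,0,0,0,0,0,0,0,0,0,0,0,0,0,0,0,0,0,0,0,0,0,0,0,0,0,0,0,0,0,0,0,0,0,0,0,0,0,0,0,0,0,0,0,0,0,0,0,0,0,0,0,0,0,0,0,0,0,0,0,0,0,0,0,0,0,0,0,0,0,0,0,0,0,0,0,0,0,0,0,0,0,0,0,0,0,0,0,0,0,0,0,0,0,0,0,0,0,0,0,0,0,0,0,0,0,0,0,0,0,0,0,0,0,0,0,0,0,0,0,0,0,0,0,792,0,338,0,0,0,0,0,0,0,0,0,0,0,0,0,0,0,0,0,0,0,0,0,0,0,0,0,0,0,0,0,0,0,0,0,0,0,0,0,7920,11280,0,6960,0,95640])))))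
  (.use (.H 2 2 11396) [(true,0,3,1)] (.leaf
  [200,0,0,1056,0,0,0,0,0,298,0,0,0,0,388,0,0,0,0,167,0,0,0,0,0,0,0,0,0,0,0,0,0,0,0,0,0,0,0,0,0,0,0,0,0,0,0,0,0,0,0,0,0,0,0,0,0,0,0,0,0,0,0,0,0,0,0,0,0,0,0,0,0,0,0,0,0,0,0,0,0,0,0,0,0,0,0,0,0,0,0,0,0,0,0,0,0,0,0,0,0,0,0,0,0,0,0,0,0,0,0,0,0,0,0,0,0,0,0,0,0,0,0,0,0,0,0,0,0,0,0,0,0,0,0,0,0,0,0,0,0,0,0,0,0,0,0,0,0,0,0,0,0,0,0,0,0,0,0,0,0,0,0,0,0,0,0,0,0,0,0,0,0,0,0,0,0,0,0,0,0,0,0,0,0,0,0,0,0,0,0,0,0,0,0,0,0,0,0,0,0,0,0,0,0,0,0,0,0,0,0,0,0,0,0,0,0,0,0,0,0,0,0,0,0,0,0,0,0,0,0,0,0,0,0,0,0,0,0,0,0,0,0,0,0,0,0,0,1320,0,563,0,0,0,0,0,0,0,0,0,0,0,0,0,0,0,0,0,0,0,0,0,0,0,0,0,0,0,0,0,0,0,0,0,0,0,0,0,21120,23280,0,0,0,134400]))))))))))))))))))))))))))))))))))))))))))))))))))))))))))))))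
  (.use (.H 1 0 10563) [(true,0,2,1)] (.leaf
  [6,0,3,0,0,0,0,0,0,0,0,0,0,0,0,0,0,0,0,0,0,0,0,0,0,0,0,0,0,0,0,0,0,0,0,0,0,0,0,0,0,0,0,0,0,0,0,0,0,0,0,0,0,0,0,0,0,0,0,0,0,0,0,0,0,0,0,0,0,0,0,0,0,0,0,0,0,0,0,0,0,0,0,0,0,0,0,0,0,0,0,0,0,0,0,0,0,0,0,0,0,0,0,0,0,0,0,0,0,0,0,0,0,0,0,0,0,0,0,0,0,0,0,0,0,0,0,0,0,0,0,0,0,0,0,0,0,0,0,0,0,0,0,0,0,0,0,0,0,0,0,0,0,0,0,0,0,0,0,0,0,0,0,0,0,0,0,0,0,0,0,0,0,0,0,0,0,0,0,0,0,0,0,0,0,0,0,0,27,0,14,0,0,0,0,0,0,0,0,0,0,0,0,0,0,0,0,0,0,0,0,0,0,0,0,0,0,0,0,0,0,0,0,0,0,0,0,0,0,0,0,0,0,3000])))))))))))))))))))))))))))))))))))))))))))))))))))))))))))))))))))))))))))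
  (.use (.H 1 1 10602) [(true,0,2,1)] (.use (.M 1 8) [(true,134,1,1)] (.use (.M 2 16)
  [(true,129,1,1)] (.use (.H 1 1 8258) [(false,50,2,1)] (.use (.H 3 0 8453) [(false,116,4,1)]
  (.use (.M 1 8) [(true,138,1,1)] (.use (.H 3 0 8453) [(false,118,4,1)] (.split
  [0,2,0,0,0,0,2,0,0,0,1,0,0,0,0,-1] (.use (.H 0 0 1090) [(false,0,1,1)] (.use (.H 2 2 3204)
  [(false,146,3,1)] (.use (.M 2 16) [(true,137,1,1)] (.use (.H 2 2 5252) [(false,93,3,1)] (.use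
  (.H 2 1 4196) [(false,141,3,1)] (.use (.M 1 16) [(true,136,1,1)] (.use (.H 2 2 7300)
  [(false,70,3,1)] (.use (.H 2 1 4196) [(false,144,3,1)] (.use (.M 1 20) [(true,32,1,1)] (.use
  (.H 0 0 3555) [(true,35,1,1)] (.use (.H 2 1 4324) [(false,59,3,1)] (.use (.M 1 8)
  [(true,152,1,1)] (.use (.H 2 2 3204) [(false,157,3,1)] (.use (.H 2 2 7300) [(false,77,3,1)]
  (.use (.M 2 16) [(true,149,1,1)] (.use (.H 1 1 10602) [(true,23,2,1)] (.use (.H 3 0 8453)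
  [(false,136,4,1)] (.use (.M 1 8) [(true,158,1,1)] (.split [0,1,0,0,0,0,1,0,2,0,1,0,0,0,0,-1]
  (.use (.H 1 2 1346) [(false,0,2,1)] (.use (.M 1 8) [(true,161,1,1)] (.use (.H 1 2 1346)
  [(false,2,2,1)] (.use (.H 3 0 8453) [(false,142,4,1)] (.use (.H 2 2 3204) [(false,168,3,1)]
  (.use (.H 3 0 8453) [(false,144,4,1)] (.use (.H 2 2 3204) [(false,170,3,1)] (.use (.H 3 0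
  8453) [(false,146,4,1)] (.use (.H 2 0 4229) [(false,154,3,1)] (.use (.M 1 8) [(true,169,1,1)]
  (.use (.H 1 2 1346) [(false,10,2,1)] (.use (.M 1 8) [(true,171,1,1)] (.split
  [0,2,0,0,0,0,1,0,0,0,0,1,0,2,0,-1] (.use (.H 1 0 10306) [(false,0,2,1)] (.use (.M 1 8)
  [(true,174,1,1)] (.use (.H 1 0 10306) [(false,2,2,1)] (.use (.H 3 0 8453) [(false,155,4,1)]
  (.use (.M 1 8) [(true,177,1,1)] (.use (.H 3 0 8453) [(false,157,4,1)] (.use (.H 1 2 1346)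
  [(false,19,2,1)] (.use (.M 1 8) [(true,180,1,1)] (.split [0,1,0,0,0,0,2,0,0,0,0,1,0,2,0,-1]
  (.use (.H 1 1 10306) [(false,0,2,1)] (.use (.H 2 2 3204) [(false,187,3,1)] (.use (.H 3 0 8453)
  [(false,163,4,1)] (.use (.M 2 16) [(true,179,1,1)] (.use (.M 1 8) [(true,186,1,1)] (.use (.H 3
  0 8453) [(false,166,4,1)] (.use (.M 2 16) [(true,182,1,1)] (.use (.H 3 0 8453)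
  [(false,168,4,1)] (.split [0,0,1,0,0,0,0,1,0,0,1,2,0,4,0,-1] (.use (.H 2 2 11396)
  [(false,0,3,1)] (.split [0,0,1,0,0,1,2,0,4,0,0,0,1,0,0,-1] (.use (.H 2 1 4452) [(false,0,3,1)]
  (.leaf
  [48,0,38,0,0,27,0,0,0,0,0,0,0,0,0,0,0,0,0,0,0,0,0,0,0,0,0,0,0,0,0,0,0,0,0,0,0,18,0,0,0,0,0,0,0,0,0,0,0,0,0,0,0,0,0,0,0,0,0,0,0,0,0,0,0,0,0,0,0,0,0,0,0,0,0,0,0,0,0,0,0,0,0,0,0,0,0,0,0,0,0,0,0,0,0,0,0,0,0,0,0,0,0,0,0,0,0,0,0,0,0,0,0,0,0,0,0,0,0,0,0,0,0,0,0,0,0,0,0,0,0,0,0,0,0,0,0,0,0,0,0,0,0,0,0,0,0,0,0,0,0,0,0,0,0,0,0,0,0,0,0,0,0,0,0,0,0,0,0,0,0,0,0,0,0,438,0,232,0,0,0,0,0,0,0,0,0,0,0,0,0,0,0,0,0,0,0,0,0,0,0,0,0,0,0,0,0,0,0,0,0,0,0,0,0,1440,480,0,0,0,40800]))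
  (.use (.H 2 1 4452) [(true,0,3,1)] (.use (.H 2 1 4196) [(false,190,3,1)] (.split
  [0,1,0,2,0,0,1,0,2,0,1,2,3,0,0,-1] (.use (.H 1 2 7498) [(false,0,2,1)] (.leaf
  [495,0,0,330,0,176,0,0,66,0,990,0,0,0,0,0,0,0,0,0,0,0,0,0,0,0,0,0,0,0,0,0,0,0,0,0,0,0,0,0,0,0,0,0,0,0,0,0,0,0,0,0,0,0,0,0,0,0,0,0,0,0,0,0,0,0,0,0,0,0,0,0,0,0,0,0,0,0,0,0,0,0,0,0,0,0,0,0,0,0,0,0,0,0,0,0,0,0,0,0,0,0,0,0,0,0,0,0,0,0,0,0,0,0,0,0,0,0,0,0,0,0,0,0,0,0,0,0,0,0,0,0,0,0,0,0,0,0,0,0,0,0,0,0,0,0,0,0,0,0,0,0,0,0,0,0,0,0,0,0,0,0,0,0,0,0,0,0,0,0,0,0,0,0,0,0,0,0,990,0,200,0,0,0,0,0,0,0,0,0,0,0,0,0,0,0,0,0,0,0,0,0,0,0,0,0,0,0,0,0,0,0,0,0,0,0,0,0,0,13200,0,0,0,100800]))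
  (.use (.H 1 2 7498) [(true,0,2,1)] (.leaf
  [30,0,46,46,0,26,0,0,6,0,237,0,0,0,0,0,0,0,0,0,0,0,0,0,0,0,0,0,0,0,0,0,0,0,0,0,0,0,0,0,0,0,0,0,0,0,0,0,0,0,0,0,0,0,0,0,0,0,0,0,0,0,0,0,0,0,0,0,0,0,0,0,0,0,0,0,0,0,0,0,0,0,0,0,0,0,0,0,0,0,0,0,0,0,0,0,0,0,0,0,0,0,0,0,0,0,0,0,0,0,0,0,0,0,0,0,0,0,0,0,0,0,0,0,0,0,0,0,0,0,0,0,0,0,0,0,0,0,0,0,0,0,0,0,0,0,0,0,0,0,0,0,0,0,0,0,0,0,0,0,0,0,0,0,0,0,0,0,0,0,0,0,0,0,0,0,0,0,468,0,228,0,0,0,0,0,0,0,0,0,0,0,0,0,0,0,0,0,0,0,0,0,0,0,0,0,0,0,0,0,0,0,0,0,0,0,0,0,0,0,0,8880,0,52920])))))))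
  (.use (.H 2 2 11396) [(true,0,3,1)] (.use (.H 3 0 8453) [(false,171,4,1)] (.split
  [1,2,0,0,0,0,1,0,2,0,0,1,0,2,0,-1] (.use (.H 1 0 10563) [(false,0,2,1)] (.leaf
  [9,0,9,4,0,0,0,0,0,0,0,0,0,0,0,0,0,0,0,0,0,0,0,0,0,0,0,0,0,0,0,0,0,0,0,0,0,0,9,0,0,0,0,0,0,0,0,0,0,0,0,0,0,0,0,0,0,0,0,0,0,0,0,0,0,0,0,0,0,0,0,0,0,0,0,0,0,0,0,0,0,0,0,0,0,0,0,0,0,0,0,0,0,0,0,0,0,0,0,0,0,0,0,0,0,0,0,0,0,0,0,0,0,0,0,0,0,0,0,0,0,0,0,0,0,0,0,0,0,0,0,0,0,0,0,0,0,0,0,0,0,0,0,0,0,0,0,0,0,0,0,0,0,0,0,0,0,0,0,0,0,0,0,0,0,0,0,0,0,0,0,0,0,0,0,0,28,0,20,0,0,0,0,0,0,0,0,0,0,0,0,0,0,0,0,0,0,0,0,0,0,0,0,0,0,0,0,0,0,0,0,0,0,0,0,0,0,0,0,0,0,5000]))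
  (.use (.H 1 0 10563) [(true,0,2,1)] (.leaf
  [6,0,3,0,0,0,0,0,0,0,0,0,0,0,0,0,0,0,0,0,0,0,0,0,0,0,0,0,0,0,0,0,0,0,0,0,0,0,0,0,0,0,0,0,0,0,0,0,0,0,0,0,0,0,0,0,0,0,0,0,0,0,0,0,0,0,0,0,0,0,0,0,0,0,0,0,0,0,0,0,0,0,0,0,0,0,0,0,0,0,0,0,0,0,0,0,0,0,0,0,0,0,0,0,0,0,0,0,0,0,0,0,0,0,0,0,0,0,0,0,0,0,0,0,0,0,0,0,0,0,0,0,0,0,0,0,0,0,0,0,0,0,0,0,0,0,0,0,0,0,0,0,0,0,0,0,0,0,0,0,0,0,0,0,0,0,0,0,0,0,0,0,0,0,0,0,144,0,56,0,0,0,0,0,0,0,0,0,0,0,0,0,0,0,0,0,0,0,0,0,0,0,0,0,0,0,0,0,0,0,0,0,0,0,0,0,0,0,2880,1440,0,10560]))))))))))))))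
  (.use (.H 1 1 10306) [(true,0,2,1)] (.leaf
  [11,0,0,9,0,0,0,0,0,0,0,0,0,0,0,0,0,0,0,0,0,0,0,0,0,0,0,0,0,0,0,0,0,0,0,0,0,0,0,0,0,0,0,0,0,0,0,0,0,0,0,0,0,0,0,0,0,0,0,0,0,0,0,0,0,0,0,0,0,0,0,0,0,0,0,0,0,0,0,0,0,0,0,0,0,0,0,0,0,0,0,0,0,0,0,0,0,0,0,0,0,0,0,0,0,0,0,0,0,0,0,0,0,0,0,0,0,0,0,0,0,0,0,0,0,0,0,0,0,0,0,0,0,0,0,0,0,0,0,0,0,0,0,0,0,0,0,0,0,0,0,0,0,0,0,0,0,0,0,0,0,0,0,0,24,0,4,0,0,0,0,0,0,0,0,0,0,0,0,0,0,0,0,0,0,0,0,0,0,0,0,0,0,0,0,0,0,0,0,0,0,0,0,0,0,440,1040,0,0,1620])))))))))))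
  (.use (.H 1 0 10306) [(true,0,2,1)] (.leaf
  [4,0,0,3,0,0,0,0,0,0,0,0,0,0,0,0,0,1,0,0,0,0,0,0,0,0,0,0,0,0,0,0,0,0,0,0,0,0,0,0,0,0,0,0,0,0,0,0,0,0,0,0,0,0,0,0,0,0,0,0,0,0,0,0,0,0,0,0,0,0,0,0,0,0,0,0,0,0,0,0,0,0,0,0,0,0,0,0,0,0,0,0,0,0,0,0,0,0,0,0,0,0,0,0,0,0,0,0,0,0,0,0,0,0,0,0,0,0,0,0,0,0,0,0,0,0,0,0,0,0,0,0,0,0,0,0,0,0,0,0,0,0,0,0,0,0,0,0,0,0,0,0,0,0,0,4,0,2,0,0,0,0,0,0,0,0,0,0,0,0,0,0,0,0,0,0,0,0,0,0,0,0,0,0,0,0,0,0,0,0,0,0,0,0,0,0,100,0,0,0,750])))))))))))))))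
  (.leaf
  [120,0,0,0,0,0,0,0,0,0,0,0,0,0,0,0,0,0,0,0,0,0,0,0,0,0,0,0,0,0,0,0,0,0,0,0,0,0,0,0,0,0,0,0,0,0,0,0,0,0,0,0,0,0,0,0,0,0,0,0,0,0,0,0,0,0,0,0,0,0,0,0,0,0,0,0,0,0,0,0,0,0,0,0,0,0,0,0,0,0,0,0,0,0,0,0,0,0,0,0,0,0,0,0,0,0,0,0,0,0,0,0,0,0,0,0,0,0,0,0,0,0,0,0,0,0,0,0,0,0,0,0,0,0,0,0,0,0,0,0,0,9,0,4,0,0,0,0,0,0,0,0,0,0,0,0,0,0,0,0,0,0,0,0,0,0,0,0,0,0,0,0,0,0,0,0,0,0,0,0,0,60,0,120,120,0,750]))))))))))))))))))))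
  (.use (.H 0 0 1090) [(true,0,1,1)] (.leaf
  [12,0,0,3,0,0,0,0,0,0,0,0,0,0,0,0,0,0,0,0,0,0,0,0,0,0,0,0,0,0,0,0,0,0,0,0,0,0,0,0,0,0,0,0,0,0,0,0,0,0,0,0,0,0,0,0,0,0,0,0,0,0,0,0,0,0,0,0,0,0,0,0,0,0,0,0,0,0,0,0,0,0,0,0,0,0,0,0,0,0,0,0,0,0,0,0,0,0,0,0,0,0,0,0,0,0,0,0,0,0,0,0,0,0,0,0,0,0,0,0,0,0,0,30,0,14,0,0,0,0,0,0,0,0,0,0,0,0,0,0,0,0,0,0,0,0,0,0,0,0,0,0,0,0,0,0,0,0,0,0,0,0,0,0,0,240,0,0,3000])))))))))))))))))))))))))))))))))))))))))))))))))))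
  (.use (.H 2 1 4324) [(true,0,3,1)] (.leaf
  [16,0,9,4,4,8,0,0,0,0,0,0,0,0,0,0,0,0,0,0,0,0,0,0,0,0,0,0,0,0,0,0,0,0,0,0,0,0,0,0,0,0,0,0,0,0,0,0,0,0,0,0,0,0,0,0,0,0,0,0,0,0,0,0,0,0,0,0,0,0,0,0,0,0,180,0,76,0,0,0,0,0,0,0,0,0,0,0,0,0,0,0,0,0,0,0,0,0,0,0,0,0,0,0,0,0,0,0,0,0,0,0,0,0,0,480,2880,0,0,15600]))))))))
  (.use (.H 1 1 8258) [(true,0,2,1)] (.leaf
  [1218,0,0,207,0,0,0,0,0,0,0,0,0,0,0,0,0,0,0,0,0,0,0,0,207,0,0,0,0,0,0,0,0,0,0,0,0,0,0,0,0,0,0,0,0,0,0,0,0,0,0,0,0,0,0,0,0,0,0,0,0,0,0,0,0,0,0,0,96,0,96,0,0,0,0,0,276,0,0,0,0,0,436,0,0,0,0,0,180,0,0,0,0,0,0,0,6,0,144,0,828,0,0,0,0,0,0,0,0,21600,0,0,0,142800])))))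
  (.use (.H 3 1 8424) [(true,0,4,1)] (.leaf
  [12,0,0,0,0,3,16,0,0,0,0,0,0,0,0,0,0,0,0,0,0,0,0,0,0,0,0,0,0,0,0,0,0,0,0,0,0,0,0,0,0,0,0,0,0,0,0,0,0,0,0,0,0,0,0,0,0,0,0,0,0,0,0,0,0,236,0,100,0,0,0,0,0,0,0,0,0,0,0,0,0,0,0,0,0,0,0,0,0,0,0,0,0,0,0,0,0,0,0,0,0,0,0,0,0,0,480,4320,0,0,19600])))))
  (.use (.H 1 1 10530) [(true,0,2,1)] (.leaf
  [60,0,33,16,0,0,114,0,0,0,0,0,0,0,0,0,0,0,0,0,0,0,0,0,0,0,0,0,0,0,0,0,0,0,0,0,0,0,0,0,0,0,0,0,0,0,0,0,0,0,0,0,0,0,0,0,0,0,0,0,0,0,324,0,168,0,0,0,0,0,0,0,0,0,0,0,0,0,0,0,0,0,0,0,0,0,0,0,0,0,0,0,0,0,0,0,0,0,0,0,0,0,0,480,0,3360,0,36240])))))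
  (.use (.H 2 2 7300) [(true,0,3,1)] (.leaf
  [60,0,0,57,0,0,0,0,20,0,0,40,0,0,0,0,0,0,0,0,0,0,0,0,0,0,0,0,0,0,0,0,0,0,0,0,0,0,0,0,0,0,0,0,0,0,0,0,0,0,0,0,0,0,0,0,0,0,0,222,0,134,0,0,0,0,0,0,0,0,0,0,0,0,0,0,0,0,0,0,0,0,0,0,0,0,0,0,0,0,0,0,0,0,0,0,0,0,0,1200,0,0,8880,0,31320])))))))
  (.use (.H 1 1 2338) [(true,0,2,1)] (.leaf
  [156,0,0,0,0,0,0,0,0,0,33,0,0,0,0,0,0,0,0,0,0,0,0,0,0,0,0,0,0,0,0,0,0,0,0,0,0,0,0,0,0,0,0,0,0,0,0,0,0,0,0,0,0,0,264,0,44,0,0,0,0,0,0,0,0,0,126,0,0,0,0,0,402,0,0,0,0,0,0,0,0,0,0,0,0,0,0,0,0,0,0,0,0,0,0,0,0,11040,0,32880]))))))))))))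
  (.leaf
  [360,0,0,0,0,0,0,0,0,0,0,0,0,0,0,0,0,0,0,0,0,0,0,0,0,0,0,0,0,0,0,0,0,0,0,0,0,0,0,0,0,0,0,69,0,34,0,0,0,0,0,0,0,0,0,0,0,0,0,0,0,0,0,0,0,0,0,0,0,0,0,0,0,0,0,0,0,0,0,0,0,0,0,120,120,0,0,0,5880])))))))
  (.leaf
  [480,0,0,8,0,0,0,3,0,0,0,0,0,0,0,0,0,0,0,0,0,0,0,0,0,0,0,0,0,0,0,0,0,0,0,0,0,102,0,42,0,0,0,0,0,0,0,0,0,0,0,0,0,0,0,0,0,0,0,0,0,0,0,0,0,0,0,0,0,0,0,0,0,0,0,0,0,0,480,1680,0,0,7560])))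
  (.leaf
  [360,5,1,0,0,3,0,0,0,0,0,0,0,0,0,0,0,0,0,0,0,0,0,0,0,0,0,0,0,0,0,0,0,0,0,63,0,30,0,0,0,0,0,0,0,0,0,0,0,0,0,0,0,0,0,0,0,0,0,0,0,0,0,0,0,0,0,0,0,0,0,0,0,0,0,0,120,600,0,0,5520]))))
  (.leaf
  [480,5,0,0,0,3,0,0,0,0,0,0,0,0,0,0,0,0,0,0,0,0,0,0,0,0,0,0,0,0,0,0,48,0,20,0,0,0,0,0,0,0,0,0,0,0,0,0,0,0,0,0,0,0,0,0,0,0,0,0,0,0,0,0,0,0,0,0,0,0,0,0,120,0,960,960,0,4020])))))))))))))))))))))))))))))))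
  (.use (.H 3 0 8453) [(true,0,4,1)] (.leaf
  [3,0,0,48,1440,44,0,0,0,0,0,0,0,0,0,0,0,0,0,0,0,0,0,0,0,0,0,0,0,0,0,0,0,0,0,0,0,0,0,0,0,0,0,0,0,0,0,0,7440])))))))))
  (.use (.H 2 0 4229) [(true,0,3,1)] (.split [1,1,0,1,1,-2,-2,-2,-2,-2,1,1,1,1,1,0] (.use (.E 0
  2 2) [(false,0,1,1)] (.split [0,0,1,0,0,1,2,3,0,0,0,0,0,0,0,-1] (.use (.H 2 1 228)
  [(false,0,3,1)] (.leaf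
  [60,0,336,0,86,0,0,0,42,0,0,0,0,0,0,0,0,0,63,0,0,0,0,0,0,0,0,0,0,0,0,0,0,0,0,0,0,0,0,0,0,0,0,0,0,19560]))
  (.use (.H 2 1 228) [(true,0,3,1)] (.leaf
  [1,0,12,0,5,0,0,0,0,0,0,0,0,0,3,0,0,0,0,0,0,0,3,0,0,0,0,0,0,0,0,0,0,0,0,0,0,0,0,0,120,0,0,0,0,1020]))))
  (.leaf
  [17760,122,0,0,0,24,0,453,0,0,0,24,0,0,0,36,0,0,0,72,0,0,0,0,0,0,0,0,0,0,0,0,0,0,0,0,0,0,2880,0,24720,0,23520])))))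
  (.use (.H 2 0 4226) [(true,0,3,1)] (.leaf
  [7,0,3,0,0,0,3,0,0,0,0,0,0,0,0,0,0,0,0,0,0,0,0,0,0,0,0,0,0,0,0,0,27,0,0,0,0,0,0,1260]))))))))))
  (.use (.H 2 1 4196) [(true,0,3,1)] (.leaf
  [32,0,0,0,57,0,0,0,4,0,0,0,0,0,0,0,0,0,0,0,0,0,0,0,18,0,0,240,0,0,0,5280])))) (.leaf
  [280,0,0,0,0,1,0,0,0,0,0,0,0,0,0,0,0,7,0,0,0,0,140,0,0,240,200,0,210]))))))) (.use (.H 2 2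
  3204) [(true,0,3,1)] (.leaf [25,0,0,0,1,0,0,0,0,0,9,0,81,0,0,0,12,0,120,120,0,0,0,4020]))))
  (.leaf [600,0,0,0,0,0,0,15,0,1,0,0,0,4,0,0,320,80,0,0,420]))) (.use (.H 2 0 4227)
  [(true,0,3,1)] (.leaf [6,0,0,0,9,0,0,0,4,0,0,0,0,0,0,0,0,0,0,1000])))) (.leaf
  [560,7,0,0,0,0,0,0,0,26,0,0,0,880,720,0,840]))) (.use (.H 1 0 2114) [(true,0,2,1)] (.leaf
  [9,0,0,0,0,0,0,0,22,0,0,0,0,0,0,1000])))) (.use (.H 0 0 1121) [(true,0,1,1)] (.leaf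
  [9,0,0,0,0,0,1,0,220,0,0,40,0,210])))) (.use (.H 0 0 2081) [(true,0,1,1)] (.leaf
  [4,0,0,0,1,0,0,90,20,0,0,105])))) (.use (.H 0 0 1057) [(true,0,1,1)] (.leaf
  [29,0,11,0,440,440,0,0,0,560])))

theorem certG1_ok : chk 40 (vmk (fun _ _ => 15) (7)) certG1 (baseF 3 5 1 1) = true := by
  decide +kernel

end AbcEM
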