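import Pool.Agent.Work.MP_a793bb_nt.EM.CDefs

set_option autoImplicit false
set_option maxRecDepth 100000

namespace AbcEM

/-- certificate G2 -/
def certG2 : Cert :=
  .use (.H 0 0 31) [(false,0,1,1)] (.split [1,0,0,0,0,1,0,0,0,0,1,0,0,0,0,-1] (.use (.H 0 0 1057)
  [(false,0,1,1)] (.split [0,1,0,0,0,1,0,0,0,0,0,1,0,0,0,-1] (.use (.H 1 1 2082) [(false,0,2,1)]
  (.split [0,0,0,0,0,0,1,0,0,0,1,2,0,0,0,-1] (.use (.H 1 2 3136) [(false,0,2,1)] (.split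
  [1,1,1,1,1,0,0,0,0,-5,1,1,1,1,1,0] (.use (.M 1 16) [(false,0,1,1)] (.leaf
  [3,0,0,0,0,0,0,0,2,0,84,0,0,120,140])) (.use (.M 1 16) [(true,0,1,1)] (.split
  [0,0,1,0,0,0,0,1,0,0,1,2,0,0,0,-1] (.use (.H 2 2 3204) [(false,0,3,1)] (.split
  [1,2,0,0,0,0,0,1,0,0,0,0,1,0,0,-1] (.use (.H 2 0 4227) [(false,0,3,1)] (.split
  [0,0,1,0,0,1,2,0,0,0,0,0,1,0,0,-1] (.use (.H 2 1 4196) [(false,0,3,1)] (.split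
  [1,0,0,0,0,1,0,3,0,0,1,0,0,0,0,-1] (.use (.H 0 0 1185) [(false,0,1,1)] (.split
  [0,0,-3,0,-5,1,1,1,1,1,1,1,1,1,1,0] (.use (.M 0 20) [(false,0,1,1)] (.split
  [1,1,0,1,1,-2,-2,-2,-2,-2,1,1,1,1,1,0] (.use (.E 0 2 2) [(false,0,1,1)] (.split
  [0,0,0,0,-5,1,1,1,1,1,1,1,1,1,1,0] (.leaf
  [96,1,0,5,0,0,0,0,0,0,0,0,0,0,0,0,0,0,0,0,0,0,270,0,0,336,138,354]) (.use (.M 0 16)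
  [(true,0,1,1)] (.use (.H 2 2 3204) [(false,13,3,1)] (.split [0,0,1,0,0,1,0,3,0,0,0,0,0,0,0,-1]
  (.use (.H 2 1 164) [(false,0,3,1)] (.use (.H 2 1 4196) [(false,12,3,1)] (.split
  [1,1,1,1,1,0,0,0,-4,-5,1,1,1,1,1,0] (.use (.M 1 24) [(false,0,1,1)] (.split
  [1,2,3,4,0,0,0,0,1,0,0,0,0,1,0,-1] (.use (.H 3 0 8463) [(false,0,4,1)] (.leaf
  [9,0,80,0,0,0,0,0,12,0,0,0,0,0,0,0,0,0,0,0,0,0,0,0,0,0,0,0,0,0,0,0,2460,0,0,3600,4000])) (.use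
  (.H 3 0 8463) [(true,0,4,1)] (.split [1,1,1,1,1,1,1,1,0,1,-2,-2,-2,-2,-2,0] (.use (.E 1 0 3)
  [(false,0,1,1)] (.split [1,1,1,1,1,0,0,0,-4,0,1,1,1,1,1,0] (.use (.M 1 8) [(false,0,1,1)]
  (.use (.H 2 1 4196) [(false,21,3,1)] (.use (.H 2 2 3204) [(false,26,3,1)] (.split
  [1,2,3,0,0,0,0,0,1,0,0,0,0,1,0,-1] (.use (.H 3 0 8455) [(false,0,4,1)] (.leaf
  [12,0,0,0,42,0,36,0,1,0,0,0,0,0,0,0,0,0,0,0,16,0,0,0,0,0,0,0,0,0,0,0,0,0,0,0,0,0,0,1200,0,0,3240,3960,2640]))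
  (.use (.H 3 0 8455) [(true,0,4,1)] (.use (.E 0 2 2) [(false,19,1,1)] (.use (.H 2 2 3204)
  [(false,30,3,1)] (.split [0,2,0,0,0,1,0,0,0,0,1,0,3,0,0,-1] (.use (.H 0 0 5154)
  [(false,0,1,1)] (.split [0,2,0,0,0,0,0,0,2,0,0,1,0,0,0,-1] (.use (.H 1 0 2306) [(false,0,2,1)]
  (.use (.H 2 1 4196) [(false,31,3,1)] (.use (.H 2 2 3204) [(false,36,3,1)] (.split
  [0,1,0,0,0,0,0,0,2,0,1,0,3,0,0,-1] (.use (.H 1 2 5378) [(false,0,2,1)] (.split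
  [1,0,3,0,0,0,0,0,1,0,0,0,0,1,0,-1] (.use (.H 3 0 8453) [(false,0,4,1)] (.use (.H 1 0 2306)
  [(false,7,2,1)] (.split [0,1,0,2,0,0,1,0,2,0,1,2,0,0,0,-1] (.use (.H 1 2 3402) [(false,0,2,1)]
  (.use (.H 2 1 4196) [(false,40,3,1)] (.split [0,0,0,0,0,0,0,0,1,0,1,0,0,4,0,-1] (.use (.H 3 2
  9472) [(false,0,4,1)] (.use (.H 1 2 3402) [(false,4,2,1)] (.use (.H 2 1 4196) [(false,44,3,1)]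
  (.split [1,1,1,1,1,1,1,1,1,1,0,0,0,-4,-5,0] (.use (.M 2 24) [(false,0,1,1)] (.leaf
  [60,0,0,72,0,0,0,0,0,0,15,0,0,0,0,0,0,0,0,0,0,240,26,0,0,0,228,0,252,0,13,0,0,0,0,0,0,0,0,0,0,0,0,0,0,0,0,0,0,0,0,0,0,0,0,0,0,0,0,0,0,0,0,3600,0,0,7680]))
  (.use (.M 2 24) [(true,0,1,1)] (.use (.H 1 2 5378) [(false,13,2,1)] (.split
  [0,0,0,1,0,0,0,0,1,0,1,2,3,4,0,-1] (.use (.H 3 2 15624) [(false,0,4,1)] (.split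
  [1,1,1,1,1,1,1,1,1,1,0,0,-3,-4,-5,0] (.use (.M 2 28) [(false,0,1,1)] (.split
  [1,2,0,0,0,0,1,0,2,0,0,1,0,2,0,-1] (.use (.H 1 0 10563) [(false,0,2,1)] (.split
  [1,1,0,1,1,1,1,1,1,1,-2,-2,-2,-2,-2,0] (.use (.E 0 1 2) [(false,0,1,1)] (.leaf
  [124,0,12,0,36,0,3,0,30,0,0,0,0,0,0,0,0,0,0,0,0,0,0,0,0,0,0,0,0,0,28,18,0,0,0,48,0,0,0,0,0,0,0,0,0,0,0,0,0,0,0,0,0,0,0,0,0,0,0,0,0,0,0,0,0,0,0,0,0,0,240,0,2160,0,0,2560]))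
  (.leaf
  [1200,14,0,28,0,0,0,28,0,0,0,0,0,0,0,0,0,0,0,0,0,0,0,0,0,0,0,0,0,188,31,0,0,0,148,0,212,0,0,0,0,0,0,0,0,0,0,0,0,0,0,0,0,0,0,0,0,0,0,0,0,0,0,0,0,0,0,0,0,0,0,1680,0,0,3760])))
  (.leaf
  [1920,0,0,0,0,44,0,0,0,82,0,0,0,0,0,0,27,0,0,0,0,0,0,0,0,0,0,288,52,0,0,0,268,0,240,0,0,0,0,0,0,0,0,0,0,0,0,0,0,0,0,0,0,0,0,0,0,0,0,0,0,0,0,0,0,0,0,0,0,2640,0,0,3360])))
  (.use (.M 2 28) [(true,0,1,1)] (.leaf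
  [36,0,12,0,12,0,0,0,30,0,0,0,0,0,0,0,0,0,0,0,0,0,0,0,0,0,192,16,0,0,0,168,0,204,0,11,0,0,0,0,0,0,0,0,0,0,0,0,0,0,0,0,0,0,0,0,0,0,0,0,0,0,0,0,0,0,0,0,0,0,0,3600]))))
  (.leaf
  [5760,152,0,0,8,126,0,0,0,0,0,0,101,0,0,0,0,0,0,0,0,0,0,604,124,0,0,0,576,0,0,0,0,0,0,0,0,0,0,0,0,0,0,0,0,0,0,0,0,0,0,0,0,0,0,0,0,0,0,0,0,0,0,1200,6240,1200]))))))))
  (.leaf
  [240,0,0,0,0,3,0,0,0,0,0,0,0,0,0,0,16,7,0,0,0,44,0,80,0,0,0,0,0,0,0,0,0,0,0,0,0,0,0,0,0,0,0,0,0,0,0,0,0,0,0,0,0,0,0,0,0,0,0,0,3360,320]))))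
  (.use (.H 1 2 3402) [(true,0,2,1)] (.leaf
  [37,0,51,0,0,0,0,0,0,0,0,0,0,0,260,41,0,0,0,0,0,50,0,0,0,180,0,0,0,0,0,0,0,0,0,0,0,0,0,0,0,0,0,0,0,0,0,0,0,0,0,0,0,0,360,4680])))))
  (.use (.H 3 0 8453) [(true,0,4,1)] (.leaf
  [11,0,4,0,0,0,0,0,0,0,0,164,17,0,0,0,20,0,60,0,0,0,56,0,0,0,0,0,0,0,0,0,0,0,0,0,0,0,0,0,0,0,0,0,0,0,0,0,0,0,0,0,1680]))))
  (.use (.H 1 2 5378) [(true,0,2,1)] (.split [0,0,1,0,0,1,2,3,0,0,0,0,1,0,0,-1] (.use (.H 2 1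
  4324) [(false,0,3,1)] (.use (.M 0 20) [(false,33,1,1)] (.leaf
  [129,132,0,99,0,0,0,0,0,0,0,0,0,23,0,0,0,96,0,474,0,19,0,0,0,0,0,0,0,0,0,0,0,0,0,0,0,0,0,0,0,0,0,0,0,0,0,0,0,0,0,0,1800,5040,0,0,29700])))
  (.leaf
  [3960,0,0,0,0,0,0,0,0,0,46,0,0,0,0,154,0,0,0,5,0,0,0,0,0,0,0,0,0,0,0,0,0,0,0,0,0,0,0,0,0,0,0,0,0,0,0,0,0,0,0,2100,120])))))))
  (.use (.H 1 0 2306) [(true,0,2,1)] (.leaf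
  [6,0,0,0,0,0,1,0,0,0,30,0,72,0,2,0,6,0,0,0,0,0,0,0,0,0,0,0,0,0,0,0,0,0,0,0,0,0,0,0,0,0,0,0,0,0,0,0,0,2880,240]))))
  (.use (.H 0 0 5154) [(true,0,1,1)] (.use (.H 2 1 4196) [(false,29,3,1)] (.split
  [0,0,-3,0,0,1,1,1,1,1,1,1,1,1,1,0] (.use (.M 0 4) [(false,0,1,1)] (.leaf
  [870,0,400,600,0,0,0,0,0,0,0,0,0,156,0,15,0,204,0,0,0,0,0,0,0,0,0,0,0,0,0,0,0,0,0,0,0,0,0,0,0,0,0,0,0,0,0,9360,0,0,21960]))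
  (.use (.M 0 4) [(true,0,1,1)] (.split [0,0,0,0,0,0,0,0,1,0,1,0,3,0,0,-1] (.use (.H 3 2 5376)
  [(false,0,4,1)] (.split [1,2,0,4,0,0,1,0,2,0,0,1,0,2,0,-1] (.use (.H 1 0 10571)
  [(false,0,2,1)] (.split [0,1,0,2,0,0,1,0,2,0,1,2,0,0,0,-1] (.use (.H 1 2 3402) [(false,0,2,1)]
  (.split [0,1,0,0,0,0,0,0,2,0,1,0,0,4,0,-1] (.use (.H 1 2 9474) [(false,0,2,1)] (.leaf
  [84,0,504,0,0,0,0,0,1368,0,368,300,0,0,0,255,0,0,0,312,0,0,0,144,0,552,0,0,0,0,0,0,0,0,0,0,0,0,0,0,0,0,0,0,0,0,0,0,0,0,0,0,0,0,0,33120,20160,0,30240]))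
  (.leaf
  [5040,1890,0,630,0,0,0,4740,0,1504,1332,0,0,0,820,0,0,0,3564,0,0,0,587,0,0,0,0,0,0,0,0,0,0,0,0,0,0,0,0,0,0,0,0,0,0,0,0,0,0,0,0,0,0,0,135360,55440,0,171360])))
  (.leaf
  [10080,84,0,0,0,1248,0,320,564,0,0,0,693,0,0,0,3264,0,6216,0,0,0,0,0,0,0,0,0,0,0,0,0,0,0,0,0,0,0,0,0,0,0,0,0,0,0,0,0,0,0,0,0,28800,0,0,332640])))
  (.use (.H 1 0 10571) [(true,0,2,1)] (.leaf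
  [64,0,0,0,88,0,0,44,0,0,0,61,0,0,0,416,0,960,0,4,0,0,0,0,0,0,0,0,0,0,0,0,0,0,0,0,0,0,0,0,0,0,0,0,0,0,0,0,0,0,0,0,2400,0,40320]))))
  (.leaf
  [840,64,0,20,16,0,0,0,35,0,0,0,148,0,280,0,0,0,0,0,0,0,0,0,0,0,0,0,0,0,0,0,0,0,0,0,0,0,0,0,0,0,0,0,0,0,0,0,1800,0,0,15960]))))))))))))))
  (.use (.M 1 8) [(true,0,1,1)] (.leaf
  [114,0,0,0,25,0,456,0,0,0,0,0,0,0,384,0,196,0,0,0,0,0,0,0,0,0,0,0,0,0,0,0,0,0,0,5520,13680,0,0,15840,30000]))))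
  (.use (.E 1 0 3) [(true,0,1,1)] (.leaf
  [114,0,25,0,456,0,0,0,0,0,0,0,384,0,196,0,0,0,0,0,0,0,0,0,0,0,0,0,0,0,0,0,0,5520,13680,0,0,2160,30000]))))))
  (.use (.M 1 24) [(true,0,1,1)] (.use (.H 2 1 4196) [(false,15,3,1)] (.use (.H 2 1 164)
  [(false,5,3,1)] (.split [0,0,1,0,0,1,2,3,0,0,0,0,1,0,0,-1] (.use (.H 2 1 4324) [(false,0,3,1)]
  (.split [1,2,3,0,0,0,0,0,1,0,0,0,0,1,0,-1] (.use (.H 3 0 8455) [(false,0,4,1)] (.split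
  [0,0,0,-4,-5,1,1,1,1,1,1,1,1,1,1,0] (.leaf
  [3060,0,0,0,0,0,0,0,0,0,0,0,0,71,0,94,0,115,0,0,0,0,0,0,0,0,0,0,0,0,0,0,0,0,0,0,4080,0,0,12840,3600,8000])
  (.use (.M 0 24) [(true,0,1,1)] (.use (.H 2 2 3204) [(false,27,3,1)] (.use (.H 3 0 8455)
  [(false,4,4,1)] (.split [0,0,1,0,0,1,0,0,4,0,0,0,0,0,0,-1] (.use (.H 2 1 292) [(false,0,3,1)]
  (.split [1,1,1,1,1,1,1,1,1,1,0,0,0,-4,-5,0] (.use (.M 2 24) [(false,0,1,1)] (.split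
  [1,1,1,1,1,1,1,1,1,1,0,0,0,-4,0,0] (.use (.M 2 8) [(false,0,1,1)] (.leaf
  [22,0,0,0,0,0,11,0,16,0,0,0,4,0,0,0,4,0,0,0,0,0,0,0,0,0,10,0,0,0,0,0,0,0,0,0,0,0,0,0,0,0,0,0,0,240,0,0,2760,1320,1360]))
  (.use (.M 2 8) [(true,0,1,1)] (.split [0,0,1,0,0,0,0,1,0,0,1,2,0,4,0,-1] (.use (.H 2 2 11396)
  [(false,0,3,1)] (.split [1,2,3,4,0,1,2,0,0,0,1,2,0,0,0,-1] (.use (.H 0 0 3183) [(false,0,1,1)]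
  (.leaf
  [66,0,22,0,9,0,54,0,0,0,0,0,66,0,0,0,22,0,0,0,66,0,0,0,0,0,0,0,0,0,66,0,0,0,0,0,0,0,0,0,0,0,0,0,0,0,0,0,0,0,0,3600,0,0,8640]))
  (.use (.H 0 0 3183) [(true,0,1,1)] (.split [0,0,0,2,0,0,1,0,2,0,1,0,0,4,0,-1] (.use (.H 1 2
  9544) [(false,0,2,1)] (.split [0,1,0,2,0,0,1,0,2,0,1,0,0,4,0,-1] (.use (.H 1 2 9546)
  [(false,0,2,1)] (.split [0,0,1,0,0,1,2,0,4,0,0,0,1,0,0,-1] (.use (.H 2 1 4452) [(false,0,3,1)]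
  (.use (.H 2 2 11396) [(false,9,3,1)] (.use (.H 2 1 4452) [(false,2,3,1)] (.use (.H 2 2 11396)
  [(false,11,3,1)] (.split [0,0,-3,0,0,1,1,1,1,1,1,1,1,1,1,0] (.use (.M 0 4) [(false,0,1,1)]
  (.split [1,1,0,1,1,1,1,1,1,1,-2,-2,-2,-2,-2,0] (.use (.E 0 1 2) [(false,0,1,1)] (.leaf
  [68,0,208,0,24,0,0,0,0,0,0,0,0,0,0,0,0,0,0,292,0,0,0,23,0,46,0,0,0,92,0,0,0,92,0,0,0,0,0,34,0,0,0,0,0,0,0,0,0,0,0,0,0,0,0,0,0,0,0,0,0,0,0,0,9840,0,0,23280]))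
  (.leaf
  [240,33,0,0,0,0,0,0,0,0,0,0,0,0,0,0,0,0,112,0,0,0,14,0,34,0,0,0,36,0,0,0,36,0,0,0,0,0,0,0,0,0,23,0,0,0,0,0,0,0,0,0,0,0,0,0,0,0,0,0,0,0,0,3360,0,0,7840])))
  (.use (.M 0 4) [(true,0,1,1)] (.use (.H 2 1 4452) [(false,6,3,1)] (.split
  [1,0,3,0,0,0,1,0,0,0,0,1,0,2,0,-1] (.use (.H 1 0 10309) [(false,0,2,1)] (.split
  [1,2,3,0,0,0,1,0,2,0,0,0,0,0,0,-1] (.use (.H 1 0 327) [(false,0,2,1)] (.use (.H 2 2 11396)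
  [(false,19,3,1)] (.split [0,1,0,2,0,0,1,0,2,0,1,2,0,4,0,-1] (.use (.H 1 2 11594)
  [(false,0,2,1)] (.use (.H 2 1 4452) [(false,14,3,1)] (.use (.H 2 2 11396) [(false,23,3,1)]
  (.use (.H 2 1 4452) [(false,16,3,1)] (.use (.H 2 2 11396) [(false,25,3,1)] (.split
  [1,0,3,0,0,1,2,0,0,0,1,0,0,0,0,-1] (.use (.H 0 0 1125) [(false,0,1,1)] (.leaf
  [504,0,168,0,0,0,106,0,0,167,0,55,0,0,0,0,0,0,0,0,0,0,0,0,0,656,0,0,0,0,0,1490,0,0,0,56,0,0,0,0,0,584,0,0,0,752,0,0,0,0,0,0,0,0,0,1530,0,0,0,0,0,0,0,0,0,0,0,0,0,0,0,0,0,0,63480,0,63000,0,0,170000]))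
  (.use (.H 0 0 1125) [(true,0,1,1)] (.split [1,1,0,1,1,1,1,1,1,1,-2,-2,-2,-2,-2,0] (.use (.E 0
  1 2) [(false,0,1,1)] (.leaf
  [474,0,530,0,0,0,0,0,0,0,0,80,0,185,0,0,0,0,0,0,0,0,0,0,0,0,0,0,0,0,0,0,0,556,0,0,0,0,0,0,0,0,0,72,0,0,0,72,0,0,0,0,0,0,0,0,0,40,0,0,0,0,0,0,0,0,0,0,0,0,0,0,0,0,0,0,4800,0,16680,0,0,14600]))
  (.leaf
  [223200,13962,0,896,0,0,0,0,0,0,6981,0,0,0,0,0,0,0,0,0,0,0,0,0,0,0,0,0,0,0,0,0,3360,0,0,0,177,0,0,0,0,0,3912,0,0,0,3912,0,0,0,0,0,0,0,0,0,0,0,0,0,0,0,0,0,0,0,0,0,0,0,0,0,0,0,0,293400,0,141120])))))))))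
  (.use (.H 1 2 11594) [(true,0,2,1)] (.leaf
  [21,1080,38,0,0,30,0,0,0,0,0,0,0,0,0,0,0,0,0,42,0,0,0,0,0,96,0,0,0,24,0,0,0,0,0,18,0,0,0,18,0,0,0,0,0,0,0,0,0,162,0,0,0,0,0,0,0,0,0,0,0,0,0,0,0,0,0,0,7200,0,4320,10440,0,12120])))))
  (.use (.H 1 0 327) [(true,0,2,1)] (.leaf
  [42,0,0,0,0,18,0,0,0,0,0,0,0,0,0,0,0,0,0,0,0,0,264,0,0,0,33,0,0,0,0,0,74,0,0,0,87,0,0,0,0,0,12,0,0,0,120,0,0,0,0,0,0,0,0,0,0,0,0,0,0,0,0,0,0,5040,0,7920,0,0,18000]))))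
  (.use (.H 1 0 10309) [(true,0,2,1)] (.leaf
  [589,2640,0,940,0,0,0,0,0,0,22,0,0,0,0,0,0,0,577,0,594,0,0,0,94,0,0,0,0,0,420,0,0,0,420,0,0,0,0,0,0,0,0,0,0,0,0,0,0,0,0,0,0,0,0,0,0,0,0,0,0,0,0,2640,0,18480,0,0,3240]))))))))))
  (.use (.H 2 1 4452) [(true,0,3,1)] (.split [1,2,3,0,0,0,1,0,0,0,0,0,0,0,0,-1] (.use (.H 1 0
  71) [(false,0,2,1)] (.leaf
  [60,0,220,0,6,0,0,0,0,0,0,0,0,0,516,0,0,0,57,0,168,0,0,0,0,0,0,0,606,0,0,0,0,0,0,0,0,0,0,0,0,0,0,0,0,0,0,0,0,0,0,0,0,0,0,0,0,0,0,14400]))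
  (.use (.H 1 0 71) [(true,0,2,1)] (.leaf
  [12,0,36,0,24,0,0,0,0,0,0,0,0,0,72,0,0,0,21,0,18,0,0,0,16,0,0,0,90,0,0,0,0,0,24,0,0,0,0,0,0,0,0,0,0,0,0,0,0,0,0,0,0,0,0,0,0,0,0,2880]))))))
  (.use (.H 1 2 9546) [(true,0,2,1)] (.leaf
  [98,0,0,0,0,0,0,0,220,0,0,0,0,0,37,0,52,0,0,0,56,0,0,0,108,0,0,0,0,0,0,0,0,0,164,0,0,0,0,0,0,0,0,0,0,0,0,0,0,0,0,0,0,4800,0,0,3360,0,4240]))))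
  (.use (.H 1 2 9544) [(true,0,2,1)] (.leaf
  [98,0,0,0,0,0,220,0,0,0,0,0,37,0,52,0,0,0,56,0,0,0,108,0,0,0,0,0,0,0,0,0,164,0,0,0,0,0,0,0,0,0,0,0,0,0,0,0,0,0,0,4800,0,0,3360,0,4240]))))))
  (.use (.H 2 2 11396) [(true,0,3,1)] (.leaf
  [60,0,258,0,360,0,0,0,51,0,102,0,0,0,208,0,0,0,210,0,0,0,0,0,174,0,0,0,312,0,0,0,0,0,0,0,0,0,0,0,0,0,0,0,0,0,0,0,0,10800,720,0,26880]))))))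
  (.use (.M 2 24) [(true,0,1,1)] (.split [0,0,0,2,0,0,1,0,2,0,1,0,0,4,0,-1] (.use (.H 1 2 9544)
  [(false,0,2,1)] (.split [1,2,0,0,0,1,2,0,4,0,1,2,0,0,0,-1] (.use (.H 0 0 3427) [(false,0,1,1)]
  (.split [1,1,1,1,1,1,1,1,1,1,0,0,-3,-4,-5,0] (.use (.M 2 28) [(false,0,1,1)] (.leaf
  [114,0,54,0,0,0,138,0,0,0,15,18,150,0,0,0,112,0,0,0,138,0,0,0,0,0,0,0,0,0,168,0,0,0,0,0,0,0,0,0,0,0,0,0,0,0,0,0,0,0,0,0,0,5040,13440]))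
  (.use (.M 2 28) [(true,0,1,1)] (.split [1,1,1,1,1,0,0,-3,-4,-5,1,1,1,1,1,0] (.use (.M 1 28)
  [(false,0,1,1)] (.split [1,2,0,0,0,1,2,3,0,0,1,2,3,0,0,-1] (.use (.H 0 0 7395) [(false,0,1,1)]
  (.leaf
  [192,0,60,0,96,0,0,0,0,0,0,0,0,0,27,40,120,0,0,0,4,0,0,0,108,0,0,0,0,0,0,0,0,0,0,0,0,0,0,0,0,0,0,0,0,0,0,0,0,0,0,0,0,0,0,0,0,0,8400]))
  (.use (.H 0 0 7395) [(true,0,1,1)] (.split [0,0,1,0,0,1,2,3,4,0,0,0,1,0,0,-1] (.use (.H 2 1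
  4580) [(false,0,3,1)] (.leaf
  [28,0,0,0,123,0,132,0,27,0,0,0,0,0,0,0,9,91,159,0,0,0,28,0,0,0,147,0,0,0,0,0,0,0,0,0,207,0,0,0,0,0,0,0,0,0,0,0,0,0,0,0,0,0,0,0,0,0,0,1440,14280]))
  (.use (.H 2 1 4580) [(true,0,3,1)] (.split [1,1,1,1,1,0,0,-3,-4,0,1,1,1,1,1,0] (.use (.M 1 12)
  [(false,0,1,1)] (.split [0,0,1,0,0,0,0,1,0,0,1,2,0,4,0,-1] (.use (.H 2 2 11396)
  [(false,0,3,1)] (.leaf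
  [521,0,405,0,0,0,0,0,0,0,1110,0,1767,0,0,0,0,0,0,0,18,0,1323,0,0,0,778,0,0,0,1029,0,0,0,0,0,0,0,0,0,1065,0,0,0,0,0,0,0,0,0,0,0,0,0,0,0,0,0,0,0,0,0,0,0,109200]))
  (.use (.H 2 2 11396) [(true,0,3,1)] (.leaf
  [112,0,138,0,0,0,0,0,0,0,336,0,12,0,0,0,0,0,0,0,75,96,228,0,0,0,32,0,0,0,36,0,0,0,0,0,0,0,0,0,186,0,0,0,0,0,0,0,0,0,0,0,0,0,0,0,0,0,0,0,0,0,19080]))))
  (.use (.M 1 12) [(true,0,1,1)] (.leaf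
  [20,480,12,0,0,0,0,0,24,0,36,0,0,0,0,0,0,0,3,8,24,0,0,0,12,0,0,0,8,0,0,0,0,0,0,0,0,0,12,0,0,0,0,0,0,0,0,0,0,0,0,0,0,0,0,0,0,0,240,0,0,0,320]))))))))
  (.use (.M 1 28) [(true,0,1,1)] (.leaf
  [372,0,312,0,600,0,0,0,0,0,0,0,51,76,366,0,0,0,172,0,0,0,0,0,0,0,0,0,0,0,0,0,96,0,0,0,0,0,0,0,0,0,0,0,0,0,0,0,0,0,0,1440,0,0,0,12240,28320]))))))
  (.use (.H 0 0 3427) [(true,0,1,1)] (.split [1,1,1,1,1,1,1,1,1,1,0,0,-3,-4,-5,0] (.use (.M 2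
  28) [(false,0,1,1)] (.leaf
  [420,0,0,0,0,0,372,0,0,0,51,0,348,0,0,0,280,0,0,0,318,0,0,0,0,0,0,0,0,0,420,0,0,0,0,0,0,0,0,0,0,0,0,0,0,0,0,0,0,0,0,0,0,9360,33600]))
  (.use (.M 2 28) [(true,0,1,1)] (.split [0,1,0,2,0,1,0,0,4,0,0,1,0,2,0,-1] (.use (.H 1 1 10538)
  [(false,0,2,1)] (.split [1,0,3,0,0,0,1,0,2,0,0,1,0,0,0,-1] (.use (.H 1 0 2373) [(false,0,2,1)]
  (.split [0,2,0,0,0,1,2,3,0,0,1,2,3,0,0,-1] (.use (.H 0 0 7394) [(false,0,1,1)] (.leaf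
  [36,0,14,0,0,0,12,0,28,0,0,0,0,0,0,0,3,0,0,0,0,0,0,0,0,0,36,0,0,0,0,0,0,0,0,0,20,0,0,0,0,0,0,0,0,0,0,0,0,0,0,0,0,0,0,1200,0,0,0,1200,1200]))
  (.use (.H 0 0 7394) [(true,0,1,1)] (.split [1,2,0,0,0,1,2,3,0,0,1,2,0,0,0,-1] (.use (.H 0 0
  3299) [(false,0,1,1)] (.leaf
  [28,0,0,0,4,0,0,0,16,0,8,0,0,0,0,0,0,0,3,0,0,0,0,0,4,0,0,0,22,0,0,0,0,0,0,0,0,0,8,0,0,0,0,0,0,0,0,0,0,0,0,0,0,0,0,0,0,960,0,0,0,720,1600]))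
  (.use (.H 0 0 3299) [(true,0,1,1)] (.leaf
  [750,0,0,0,501,0,0,0,762,0,252,0,0,0,0,0,0,0,0,500,0,0,0,0,246,0,0,0,246,0,0,0,0,0,0,0,0,0,2931,0,0,0,0,0,0,0,0,0,0,0,0,0,0,0,0,0,0,97200,0,0,121680,7020,121920]))))))
  (.use (.H 1 0 2373) [(true,0,2,1)] (.use (.E 0 2 2) [(false,33,1,1)] (.split
  [1,1,0,1,1,1,1,1,1,1,-2,-2,-2,-2,-2,0] (.use (.E 0 1 2) [(false,0,1,1)] (.split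
  [1,2,0,0,0,1,2,0,0,0,1,2,3,4,0,-1] (.use (.H 0 0 15459) [(false,0,1,1)] (.leaf
  [18,0,15,0,13,11,0,0,0,12,0,0,0,0,0,0,0,0,0,3,6,0,0,0,0,2,0,0,0,17,0,0,0,0,0,0,0,0,0,5,0,0,0,0,0,0,0,0,0,0,0,0,0,0,0,0,0,0,600,0,0,0,0,680]))
  (.use (.H 0 0 15459) [(true,0,1,1)] (.split [1,2,0,0,0,0,1,0,2,0,0,1,0,2,0,-1] (.use (.H 1 0
  10563) [(false,0,2,1)] (.leaf
  [21,0,42,0,0,0,0,39,0,0,0,4,0,0,0,0,0,0,0,0,0,22,4,0,0,0,0,52,0,0,0,52,0,0,0,0,0,0,0,0,0,35,0,0,0,0,0,0,0,0,0,0,0,0,0,0,0,0,0,0,3000,0,0,3000,8700]))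
  (.use (.H 1 0 10563) [(true,0,2,1)] (.leaf
  [21,0,0,0,0,0,0,1,0,0,0,4,0,0,0,0,0,0,0,0,0,9,0,0,0,0,0,0,0,0,0,4,0,0,0,0,0,0,0,0,0,72,0,0,0,0,0,0,0,0,0,0,0,0,0,0,0,0,0,0,960]))))))
  (.leaf
  [3960,66,66,0,0,0,0,0,0,0,0,0,0,0,0,0,27,0,0,0,0,0,40,0,0,0,72,0,0,0,0,0,0,0,0,0,42,0,0,0,0,0,0,0,0,0,0,0,0,0,0,0,0,0,0,2880]))))))
  (.use (.H 1 1 10538) [(true,0,2,1)] (.leaf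
  [120,0,78,0,0,0,0,0,0,0,0,0,27,8,66,0,0,0,0,0,0,0,306,0,0,0,0,0,0,0,0,0,84,0,0,0,0,0,0,0,0,0,0,0,0,0,0,0,0,0,0,4320,0,0,0,12960]))))))))
  (.use (.H 1 2 9544) [(true,0,2,1)] (.leaf
  [98,0,220,0,0,0,37,0,52,0,0,0,56,0,0,0,108,0,0,0,0,0,0,0,0,0,164,0,0,0,0,0,0,0,0,0,0,0,0,0,0,0,0,0,0,4800,0,0,3360,0,4240]))))))
  (.leaf
  [13320,0,0,54,0,0,0,46,0,0,0,402,0,0,0,0,0,0,0,270,0,105,0,0,0,0,0,0,0,0,0,0,0,0,0,0,0,0,0,0,720,0,0,0,13500])))))))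
  (.use (.H 3 0 8455) [(true,0,4,1)] (.split [1,0,3,0,0,0,0,0,1,0,0,0,0,1,0,-1] (.use (.H 3 0
  8453) [(false,0,4,1)] (.split [0,1,0,0,0,1,0,0,4,0,0,0,0,2,0,-1] (.use (.H 1 1 8482)
  [(false,0,2,1)] (.split [0,2,0,0,0,1,2,0,0,0,1,0,0,0,0,-1] (.use (.H 0 0 1122) [(false,0,1,1)]
  (.use (.H 3 0 8453) [(false,5,4,1)] (.use (.H 0 0 1122) [(false,2,1,1)] (.use (.H 2 2 3204)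
  [(false,33,3,1)] (.split [0,2,0,0,0,1,0,0,4,0,1,0,0,0,0,-1] (.use (.H 0 0 1314)
  [(false,0,1,1)] (.use (.H 2 2 3204) [(false,36,3,1)] (.use (.H 3 0 8453) [(false,11,4,1)]
  (.split [0,0,3,0,0,1,0,0,0,0,1,0,0,0,0,-1] (.use (.H 0 0 1060) [(false,0,1,1)] (.split
  [1,1,1,1,1,1,1,1,1,1,0,0,0,0,-5,0] (.use (.M 2 16) [(false,0,1,1)] (.leaf
  [276,0,0,0,0,0,0,0,0,0,0,0,0,0,0,0,0,45,0,118,0,0,0,177,0,0,0,0,0,0,0,294,0,306,0,0,0,0,0,0,0,0,0,0,0,0,0,0,0,0,0,0,8640,0,8280,0,0,24600]))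
  (.use (.M 2 16) [(true,0,1,1)] (.split [1,2,0,0,0,0,1,0,2,0,0,1,0,2,0,-1] (.use (.H 1 0 10563)
  [(false,0,2,1)] (.use (.H 1 1 8482) [(false,16,2,1)] (.split
  [0,2,0,0,0,0,2,0,0,0,1,0,0,0,0,-1] (.use (.H 0 0 1090) [(false,0,1,1)] (.use (.H 1 1 8482)
  [(false,19,2,1)] (.use (.H 1 0 10563) [(false,5,2,1)] (.split
  [0,1,0,0,0,1,2,0,0,0,0,0,0,2,0,-1] (.use (.H 1 1 8290) [(false,0,2,1)] (.use (.H 2 2 3204)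
  [(false,51,3,1)] (.split [0,0,1,0,0,1,0,0,4,0,0,0,0,0,0,-1] (.use (.H 2 1 292) [(false,0,3,1)]
  (.use (.H 0 0 1122) [(false,24,1,1)] (.use (.H 3 0 8453) [(false,29,4,1)] (.split
  [1,1,1,1,1,1,1,1,1,1,0,0,0,-4,0,0] (.use (.M 2 8) [(false,0,1,1)] (.split
  [0,0,-3,0,0,1,1,1,1,1,1,1,1,1,1,0] (.use (.M 0 4) [(false,0,1,1)] (.leaf
  [16,0,4,0,2,0,0,0,0,0,0,0,0,0,0,0,0,0,0,0,0,0,0,0,0,0,0,0,0,0,0,0,0,0,0,3,0,8,0,0,0,8,0,0,0,0,0,0,0,24,0,6,0,0,0,0,0,0,0,0,0,0,0,0,0,0,0,0,0,0,0,0,0,0,360,400]))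
  (.use (.M 0 4) [(true,0,1,1)] (.split [0,0,1,0,0,1,2,0,4,0,0,0,0,0,0,-1] (.use (.H 2 1 356)
  [(false,0,3,1)] (.split [0,0,0,1,0,1,2,3,4,0,0,0,0,1,0,-1] (.use (.H 3 1 8680) [(false,0,4,1)]
  (.leaf
  [27,0,0,0,92,0,80,0,13,0,0,0,0,0,0,0,0,0,0,0,0,0,0,0,0,0,0,0,0,0,0,0,0,0,0,0,0,0,0,21,0,0,0,0,0,36,0,0,0,0,0,0,0,0,0,30,0,0,0,0,0,0,0,0,0,0,0,0,0,0,0,0,0,0,0,0,0,0,3000]))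
  (.leaf
  [53280,0,0,9912,0,9216,0,2067,0,0,0,0,0,0,0,0,0,0,0,0,0,0,0,0,0,0,0,0,0,0,0,0,0,0,0,0,0,0,3462,0,3172,0,0,0,1692,0,0,0,0,0,0,0,0,0,6924,0,0,0,0,0,0,0,0,0,0,0,0,0,0,0,0,0,0,0,53280,221040])))
  (.leaf
  [24480,3048,0,3384,0,609,0,0,0,0,0,0,0,0,0,0,0,0,0,0,0,0,0,0,0,0,0,0,0,0,0,0,0,0,0,0,1038,0,1076,0,0,0,804,0,0,0,0,0,0,0,0,0,2076,0,0,0,0,0,0,0,0,0,0,0,0,0,0,0,0,0,0,0,0,74520])))))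
  (.use (.M 2 8) [(true,0,1,1)] (.use (.H 0 0 1122) [(false,28,1,1)] (.split
  [0,0,1,0,0,0,0,1,0,0,1,0,0,4,0,-1] (.use (.H 2 2 9348) [(false,0,3,1)] (.use (.H 1 0 10563)
  [(false,18,2,1)] (.split [1,2,0,0,0,1,2,3,0,0,1,2,0,0,0,-1] (.use (.H 0 0 3299)
  [(false,0,1,1)] (.split [0,0,1,0,0,1,2,3,4,0,0,0,1,0,0,-1] (.use (.H 2 1 4580) [(false,0,3,1)]
  (.leaf
  [116,0,288,0,0,32,0,0,0,0,0,0,0,0,0,0,0,0,0,0,0,0,0,0,0,0,0,0,0,0,0,0,0,0,0,0,0,0,0,0,0,91,0,0,0,0,0,212,0,0,0,0,0,0,0,580,0,260,0,0,0,0,0,0,0,0,0,0,0,0,0,0,0,0,0,0,8880,0,5760,0,0,15200]))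
  (.use (.H 2 1 4580) [(true,0,3,1)] (.use (.M 2 16) [(true,25,1,1)] (.split
  [0,0,1,0,0,1,2,0,4,0,0,0,1,0,0,-1] (.use (.H 2 1 4452) [(false,0,3,1)] (.split
  [1,1,1,1,1,1,1,1,1,1,0,0,0,-4,-5,0] (.use (.M 2 24) [(false,0,1,1)] (.leaf
  [87,0,23,0,0,0,0,33,0,0,23,0,0,0,0,0,0,0,0,0,0,0,0,0,0,0,0,0,0,0,0,0,0,0,0,0,0,0,0,0,0,0,0,0,0,0,21,0,35,0,0,0,69,0,0,0,0,0,0,0,87,0,147,0,0,0,0,0,0,0,0,0,0,0,0,0,0,0,0,0,0,4860,0,4140,0,0,11940]))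
  (.use (.M 2 24) [(true,0,1,1)] (.leaf
  [276,0,46,0,0,0,0,690,0,69,46,0,0,0,0,0,0,0,0,0,0,0,0,0,0,0,0,0,0,0,0,0,0,0,0,0,0,0,0,0,0,0,0,0,0,0,210,0,244,0,0,0,642,0,0,0,0,0,0,0,1464,0,600,0,0,0,0,0,0,0,0,0,0,0,0,0,0,0,0,0,0,23760,0,0,0,0,33840]))))
  (.use (.H 2 1 4452) [(true,0,3,1)] (.leaf
  [2,0,2,0,0,6,0,3,0,0,0,0,0,0,0,0,0,0,0,0,0,0,0,0,0,0,0,0,0,0,0,0,0,0,0,0,0,0,0,0,0,0,0,0,1,0,2,0,0,0,12,0,0,0,0,0,0,0,10,0,2,0,0,0,0,0,0,0,0,0,0,0,0,0,0,0,0,0,0,240,0,0,0,480,200])))))))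
  (.use (.H 0 0 3299) [(true,0,1,1)] (.split [1,0,3,0,0,0,1,0,2,0,0,1,0,2,0,-1] (.use (.H 1 0
  10565) [(false,0,2,1)] (.leaf
  [360,0,1572,0,0,0,0,0,0,0,0,0,0,0,764,0,0,0,0,0,0,0,0,0,0,0,0,0,0,0,0,0,0,0,0,0,0,0,0,0,0,381,0,764,0,0,0,480,0,0,0,0,0,0,0,0,0,3240,0,0,0,0,0,0,0,0,0,0,0,0,0,0,0,0,0,0,67680,0,28800,0,0,21600]))
  (.use (.H 1 0 10565) [(true,0,2,1)] (.leaf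
  [9,0,78,0,24,0,0,0,0,0,0,0,0,0,40,0,0,0,0,0,0,0,0,0,0,0,0,0,0,0,0,0,0,0,0,0,0,0,0,0,0,12,0,40,0,0,0,24,0,0,0,0,0,0,0,0,0,120,0,0,0,0,0,0,0,0,0,0,0,0,0,0,0,0,0,0,3240,360,1800,0,0,1800])))))))
  (.use (.H 2 2 9348) [(true,0,3,1)] (.leaf
  [68,0,0,288,0,0,0,0,0,0,0,0,0,0,0,0,0,0,0,0,0,0,0,0,0,0,0,0,0,0,0,0,0,0,0,0,45,0,140,0,0,0,210,0,0,0,0,0,0,0,300,0,360,0,0,0,0,0,0,0,0,0,0,0,0,0,0,0,0,0,0,10800,0,0,0,0,9600])))))))))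
  (.leaf
  [6840,0,0,0,0,0,0,0,0,0,0,0,0,0,0,0,0,0,0,0,0,0,0,0,0,0,0,0,24,0,40,0,0,0,231,0,0,0,0,0,0,0,270,0,111,0,0,0,0,0,0,0,0,0,0,0,0,0,0,0,0,0,0,2520,0,0,0,5940]))))
  (.leaf
  [28080,234,0,0,0,0,0,0,0,0,0,0,0,0,0,0,0,0,0,0,0,0,0,0,0,275,0,624,0,0,0,468,0,0,0,0,0,0,0,1080,0,1172,0,0,0,0,0,0,0,0,0,0,0,0,0,0,0,0,0,0,22560,0,9360,0,33120])))))
  (.use (.H 0 0 1090) [(true,0,1,1)] (.leaf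
  [196,0,0,0,0,68,0,0,0,0,0,0,0,0,0,0,0,0,0,0,0,0,9,0,88,0,0,0,0,0,0,0,0,0,0,0,0,0,224,0,0,0,0,0,0,0,0,0,0,0,0,0,0,0,0,0,0,4320,2040])))))
  (.use (.H 1 0 10563) [(true,0,2,1)] (.leaf
  [13,0,3,0,0,0,0,0,0,0,0,0,0,0,0,0,0,0,0,1,0,0,0,0,0,13,0,0,0,0,0,0,0,20,0,24,0,0,0,0,0,0,0,0,0,0,0,0,0,0,0,0,0,0,360,0,390]))))))
  (.use (.H 0 0 1060) [(true,0,1,1)] (.leaf
  [820,0,0,88,0,0,0,132,0,0,0,0,0,0,0,91,0,304,0,0,0,522,0,0,0,0,0,0,0,1560,0,392,0,0,0,0,0,0,0,0,0,0,0,0,0,0,0,0,0,0,11040,0,7920]))))))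
  (.use (.H 0 0 1314) [(true,0,1,1)] (.leaf
  [38,0,0,0,0,0,0,0,0,0,0,8,0,0,0,0,0,57,0,0,0,0,0,0,0,92,0,56,0,0,0,0,0,0,0,0,0,0,0,0,0,0,0,0,0,0,840,0,0,120,720])))))))
  (.use (.H 0 0 1122) [(true,0,1,1)] (.leaf
  [336,0,0,0,0,0,7,0,112,0,0,0,0,0,0,0,0,0,0,0,0,0,610,0,0,0,0,0,0,0,0,0,0,0,0,0,0,0,0,0,0,8400,0,0,3600,1800]))))
  (.use (.H 1 1 8482) [(true,0,2,1)] (.leaf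
  [129,0,54,0,9,0,0,0,0,0,279,0,0,0,0,16,0,0,0,0,162,0,0,0,0,0,0,0,0,0,0,0,0,0,0,0,0,0,0,5760,0,1800,0,14400]))))
  (.use (.H 3 0 8453) [(true,0,4,1)] (.leaf
  [79,0,0,0,92,0,0,0,138,0,0,0,0,36,0,0,360,0,112,0,0,0,0,0,0,0,0,0,0,0,0,0,0,0,0,0,0,3360,0,2160,0,1440]))))))
  (.use (.H 2 1 4324) [(true,0,3,1)] (.split [1,2,0,0,0,0,1,0,0,0,0,0,0,2,0,-1] (.use (.H 1 0
  8259) [(false,0,2,1)] (.split [0,0,0,-4,-5,1,1,1,1,1,1,1,1,1,1,0] (.leaf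
  [1560,0,0,10,0,0,5,0,0,0,0,0,15,46,0,0,0,69,0,0,0,0,0,0,0,0,0,0,0,0,0,0,0,0,0,0,1560,0,900,4500,0,2900])
  (.use (.M 0 24) [(true,0,1,1)] (.split [1,2,3,0,0,0,0,1,0,0,0,0,1,0,0,-1] (.use (.H 2 0 4231)
  [(false,0,3,1)] (.split [1,1,1,1,1,1,1,1,1,1,0,0,0,-4,-5,0] (.use (.M 2 24) [(false,0,1,1)]
  (.leaf
  [231,0,218,0,135,0,69,0,202,0,0,0,0,0,0,0,0,30,0,0,0,0,150,0,0,0,0,0,0,0,0,0,0,0,0,0,0,0,0,0,0,10440,0,8280,55620]))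
  (.use (.M 2 24) [(true,0,1,1)] (.leaf
  [66,0,112,0,0,0,51,0,144,0,0,0,0,0,0,0,0,66,30,0,0,0,270,0,0,0,0,0,0,0,0,0,0,0,0,0,0,0,0,0,0,13320,0,0,39600]))))
  (.use (.H 2 0 4231) [(true,0,3,1)] (.split [0,0,1,0,0,0,2,0,4,0,0,0,0,0,0,-1] (.use (.H 2 1
  324) [(false,0,3,1)] (.split [1,1,0,1,1,1,1,1,1,1,-2,-2,-2,-2,-2,0] (.use (.E 0 1 2)
  [(false,0,1,1)] (.split [0,0,1,0,0,0,0,1,0,0,1,0,3,0,0,-1] (.use (.H 2 2 5252) [(false,0,3,1)]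
  (.leaf
  [442,0,4080,0,0,0,1424,0,0,0,663,0,814,0,0,652,0,0,0,0,0,1326,0,0,0,0,3570,0,0,0,0,0,0,0,0,0,0,0,0,0,0,0,0,0,0,83880,25200,79560,52200]))
  (.leaf
  [221040,33744,0,0,0,12308,0,0,0,0,0,5357,0,0,7635,0,0,0,0,0,13081,0,0,0,0,32232,0,0,0,0,0,0,0,0,0,0,0,0,0,0,0,0,0,0,550800,205020,711180,0,0,0,40815])))
  (.use (.E 0 1 2) [(true,0,1,1)] (.split [1,0,3,0,0,0,0,1,0,0,0,0,0,0,0,-1] (.use (.H 2 0 133)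
  [(false,0,3,1)] (.leaf
  [4,0,15,0,0,0,2,0,0,0,0,0,2,0,0,2,0,0,0,0,0,0,0,0,0,0,30,0,0,0,0,0,0,0,0,0,0,0,0,0,0,0,0,0,0,1080,0,0,1800,0,1200]))
  (.use (.H 2 0 133) [(true,0,3,1)] (.leaf
  [11,0,18,0,0,0,0,0,0,0,0,0,3,0,0,9,0,0,0,0,0,9,0,0,0,0,24,0,0,0,0,0,0,0,0,0,0,0,0,0,0,0,0,0,0,720,540]))))))
  (.leaf
  [108900,1204,0,0,0,630,0,1699,0,428,2329,0,0,0,0,0,1680,0,0,0,0,4380,0,0,0,0,0,0,0,0,0,0,0,0,0,0,0,0,0,0,128160,203400,75600])))))))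
  (.leaf
  [13500,17,0,0,58,0,0,0,0,0,0,18,0,0,0,342,0,0,0,0,0,0,0,0,0,0,0,0,0,0,0,0,0,0,3600,0,6345,4500]))))))))))
  (.use (.H 2 1 164) [(true,0,3,1)] (.use (.H 2 0 4227) [(false,14,3,1)] (.leaf
  [19,70,0,121,111,0,0,0,174,0,0,0,0,0,0,0,0,0,0,0,0,0,0,0,0,0,0,900,0,3420,13680,0,120]))))))))
  (.leaf [3120,74,0,0,0,1,0,0,0,3,0,0,0,0,0,0,0,0,0,0,1920,60,180,0,4440,3280]))) (.use (.M 0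
  20) [(true,0,1,1)] (.split [0,0,0,-4,0,1,1,1,1,1,1,1,1,1,1,0] (.use (.M 0 8) [(false,0,1,1)]
  (.split [1,1,1,1,1,1,1,1,1,1,0,0,0,0,-5,0] (.use (.M 2 16) [(false,0,1,1)] (.leaf
  [1,0,1,0,0,0,0,0,0,0,0,0,0,0,0,0,0,0,0,0,0,0,0,40,0,22,50,0,90])) (.use (.M 2 16)
  [(true,0,1,1)] (.use (.H 2 2 3204) [(false,13,3,1)] (.split [0,0,0,1,0,1,0,0,0,0,0,0,0,0,0,-1]
  (.use (.H 3 1 40) [(false,0,4,1)] (.use (.M 1 16) [(true,18,1,1)] (.use (.H 3 1 40)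
  [(false,2,4,1)] (.split [0,0,0,1,0,0,2,0,0,0,0,0,0,0,0,-1] (.use (.H 3 1 72) [(false,0,4,1)]
  (.use (.H 3 1 40) [(false,5,4,1)] (.use (.M 2 16) [(true,9,1,1)] (.use (.H 3 1 72)
  [(false,3,4,1)] (.split [0,0,0,1,0,0,0,0,1,0,1,2,0,0,0,-1] (.use (.H 3 2 3336) [(false,0,4,1)]
  (.split [1,2,0,0,0,1,2,0,0,0,1,2,3,0,0,-1] (.use (.H 0 0 7267) [(false,0,1,1)] (.use (.H 2 0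
  4227) [(false,25,3,1)] (.use (.H 0 0 7267) [(false,2,1,1)] (.split
  [0,0,0,1,0,0,0,0,1,0,1,0,3,0,0,-1] (.use (.H 3 2 5384) [(false,0,4,1)] (.split
  [0,0,0,1,0,0,0,0,1,0,0,2,3,0,0,-1] (.use (.H 3 2 6408) [(false,0,4,1)] (.split
  [0,0,0,2,0,1,0,0,0,0,0,0,0,2,0,-1] (.use (.H 1 1 8232) [(false,0,2,1)] (.use (.H 0 0 1185)
  [(false,29,1,1)] (.split [0,0,0,1,0,1,2,0,0,0,0,0,0,1,0,-1] (.use (.H 3 1 8296)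
  [(false,0,4,1)] (.use (.H 2 2 3204) [(false,38,3,1)] (.use (.H 3 2 3336) [(false,15,4,1)]
  (.use (.H 3 1 40) [(false,25,4,1)] (.use (.H 3 1 72) [(false,22,4,1)] (.use (.H 3 1 40)
  [(false,27,4,1)] (.use (.H 3 1 8296) [(false,6,4,1)] (.use (.M 1 16) [(true,46,1,1)] (.use (.H
  2 0 4227) [(false,43,3,1)] (.use (.H 3 2 3336) [(false,22,4,1)] (.split
  [-2,-2,-2,-2,-2,1,1,0,1,1,1,1,1,1,1,0] (.use (.E 1 2 2) [(false,0,1,1)] (.split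
  [0,0,0,2,0,0,0,0,2,0,1,0,0,0,0,-1] (.use (.H 1 2 1288) [(false,0,2,1)] (.use (.M 1 16)
  [(true,53,1,1)] (.use (.H 3 2 3336) [(false,28,4,1)] (.split
  [0,0,0,1,0,0,0,0,0,0,1,0,3,0,0,-1] (.use (.H 3 2 5128) [(false,0,4,1)] (.use (.H 0 0 7267)
  [(false,29,1,1)] (.use (.H 0 0 1185) [(false,50,1,1)] (.split
  [0,0,0,2,0,1,0,0,0,0,0,1,0,2,0,-1] (.use (.H 1 1 10280) [(false,0,2,1)] (.use (.M 2 16)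
  [(true,47,1,1)] (.split [0,0,0,1,0,0,0,0,1,0,1,2,3,4,0,-1] (.use (.H 3 2 15624)
  [(false,0,4,1)] (.leaf
  [33,0,44,0,0,0,0,0,0,0,2,0,0,0,0,0,0,0,0,0,0,0,0,0,0,0,0,0,0,0,0,0,0,0,0,0,0,0,0,0,0,0,0,0,0,0,0,0,0,0,0,288,0,0,0,0,0,0,0,0,0,0,0,0,0,0,0,0,0,0,0,0,8880,0,0,12960,0,14480]))
  (.use (.H 3 2 15624) [(true,0,4,1)] (.use (.H 3 2 5384) [(false,32,4,1)] (.use (.H 3 1 8296)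
  [(false,26,4,1)] (.use (.H 0 0 1185) [(false,58,1,1)] (.use (.E 1 2 2) [(false,17,1,1)] (.use
  (.H 3 2 3336) [(false,42,4,1)] (.use (.H 1 1 8232) [(false,33,2,1)] (.use (.H 2 1 4196)
  [(false,64,3,1)] (.use (.H 0 0 1057) [(false,77,1,1)] (.use (.H 1 1 8232) [(false,36,2,1)]
  (.use (.H 3 1 8296) [(false,34,4,1)] (.use (.E 1 2 2) [(false,24,1,1)] (.use (.H 3 2 3336)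
  [(false,49,4,1)] (.use (.H 1 1 8232) [(false,40,2,1)] (.use (.H 2 2 3204) [(false,75,3,1)]
  (.use (.H 3 1 8296) [(false,39,4,1)] (.use (.H 2 2 3204) [(false,77,3,1)] (.use (.E 1 2 2)
  [(false,30,1,1)] (.use (.H 3 1 8296) [(false,42,4,1)] (.use (.E 1 2 2) [(false,32,1,1)] (.use
  (.H 3 2 5384) [(false,51,4,1)] (.split [0,0,0,2,0,0,2,0,0,0,0,1,0,2,0,-1] (.use (.H 1 1 10312)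
  [(false,0,2,1)] (.use (.H 3 2 6408) [(false,52,4,1)] (.use (.H 1 1 8232) [(false,51,2,1)]
  (.use (.H 3 1 8296) [(false,49,4,1)] (.use (.H 2 0 4227) [(false,85,3,1)] (.use (.H 0 0 1057)
  [(false,96,1,1)] (.use (.H 3 1 8296) [(false,52,4,1)] (.use (.E 1 2 2) [(false,42,1,1)]
  (.split [0,0,0,1,0,1,0,3,0,0,0,0,0,1,0,-1] (.use (.H 3 1 8360) [(false,0,4,1)] (.split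
  [0,0,0,1,0,1,2,3,4,0,0,0,0,1,0,-1] (.use (.H 3 1 8680) [(false,0,4,1)] (.use (.M 1 16)
  [(true,97,1,1)] (.leaf
  [44,33,0,0,0,0,0,0,0,0,0,0,0,0,0,0,0,0,0,0,0,0,0,0,0,0,0,0,0,0,0,0,0,0,6,0,0,0,0,0,0,0,0,0,0,0,0,0,0,0,0,0,0,0,0,0,0,0,0,0,0,0,0,0,0,0,0,0,0,0,0,0,0,0,0,0,0,0,0,0,0,0,0,0,0,78,0,0,0,0,0,0,0,0,0,0,0,0,0,0,0,0,0,0,0,0,480,0,0,0,8040,1840])))
  (.use (.H 3 1 8680) [(true,0,4,1)] (.use (.H 3 2 5384) [(false,65,4,1)] (.use (.H 0 0 7267)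
  [(false,70,1,1)] (.use (.H 1 2 1288) [(false,47,2,1)] (.use (.H 3 2 5128) [(false,44,4,1)]
  (.use (.H 3 2 5384) [(false,69,4,1)] (.use (.H 1 1 10312) [(false,17,2,1)] (.use (.H 0 0 7267)
  [(false,75,1,1)] (.use (.H 3 2 5384) [(false,72,4,1)] (.use (.H 0 0 7267) [(false,77,1,1)]
  (.use (.H 1 2 1288) [(false,54,2,1)] (.use (.H 1 1 8232) [(false,71,2,1)] (.use (.H 3 1 8360)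
  [(false,14,4,1)] (.use (.M 1 16) [(true,109,1,1)] (.use (.H 3 1 8296) [(false,71,4,1)] (.use
  (.H 0 0 7267) [(false,83,1,1)] (.use (.H 1 2 1288) [(false,60,2,1)] (.use (.E 1 2 2)
  [(false,63,1,1)] (.use (.H 3 1 8296) [(false,75,4,1)] (.use (.H 0 0 1185) [(false,107,1,1)]
  (.use (.H 1 2 1288) [(false,64,2,1)] (.use (.H 3 2 5384) [(false,85,4,1)] (.use (.H 1 1 10280)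
  [(false,58,2,1)] (.use (.H 3 1 8360) [(false,25,4,1)] (.use (.H 1 1 10312) [(false,35,2,1)]
  (.use (.M 1 16) [(true,121,1,1)] (.split [1,0,0,0,0,0,1,0,2,0,0,1,0,2,0,-1] (.use (.H 1 0
  10561) [(false,0,2,1)] (.use (.H 0 0 7267) [(false,96,1,1)] (.use (.H 1 2 1288)
  [(false,73,2,1)] (.use (.H 0 0 7267) [(false,98,1,1)] (.use (.H 3 2 5384) [(false,95,4,1)]
  (.use (.H 1 1 10312) [(false,43,2,1)] (.use (.H 2 0 4227) [(false,125,3,1)] (.use (.H 3 2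
  5384) [(false,98,4,1)] (.use (.H 2 1 4196) [(false,125,3,1)] (.use (.H 3 1 8296)
  [(false,93,4,1)] (.use (.E 1 2 2) [(false,83,1,1)] (.use (.H 0 0 1185) [(false,126,1,1)] (.use
  (.H 3 1 8360) [(false,41,4,1)] (.use (.H 2 0 4227) [(false,132,3,1)] (.split
  [0,0,0,2,0,0,1,0,2,0,1,0,0,0,0,-1] (.use (.H 1 2 1352) [(false,0,2,1)] (.use (.H 3 1 8296)
  [(false,100,4,1)] (.use (.H 2 0 4227) [(false,136,3,1)] (.use (.H 1 2 1288) [(false,89,2,1)]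
  (.use (.H 2 2 3204) [(false,140,3,1)] (.use (.E 1 2 2) [(false,93,1,1)] (.use (.H 1 1 8232)
  [(false,108,2,1)] (.use (.H 3 1 72) [(false,124,4,1)] (.use (.H 3 1 8296) [(false,107,4,1)]
  (.use (.H 0 0 1185) [(false,139,1,1)] (.use (.E 1 2 2) [(false,98,1,1)] (.use (.H 3 1 8360)
  [(false,55,4,1)] (.use (.H 3 1 8296) [(false,111,4,1)] (.use (.E 1 2 2) [(false,101,1,1)]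
  (.use (.H 3 2 5384) [(false,120,4,1)] (.use (.E 1 2 2) [(false,103,1,1)] (.use (.H 1 1 8232)
  [(false,118,2,1)] (.use (.H 3 1 8296) [(false,116,4,1)] (.use (.H 2 2 3204) [(false,154,3,1)]
  (.use (.H 3 1 8296) [(false,118,4,1)] (.use (.E 1 2 2) [(false,108,1,1)] (.use (.H 0 0 1185)
  [(false,151,1,1)] (.use (.H 3 1 8680) [(true,64,4,1)] (.use (.H 3 2 5384) [(false,129,4,1)]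
  (.use (.H 3 2 6408) [(false,128,4,1)] (.use (.H 1 1 10280) [(false,103,2,1)] (.split
  [0,0,0,1,0,1,2,3,0,0,0,0,0,1,0,-1] (.use (.H 3 1 8424) [(false,0,4,1)] (.leaf
  [1524,0,1700,728,1248,607,0,0,0,0,0,0,0,0,0,0,0,0,0,0,0,0,0,0,0,0,0,0,0,0,0,0,0,0,0,0,0,0,0,0,0,0,0,0,0,0,0,0,0,0,0,0,0,0,0,0,0,0,0,0,0,0,0,0,0,0,0,0,0,0,0,0,0,0,0,0,0,0,0,0,0,0,0,0,0,0,0,0,0,0,0,0,0,0,0,0,0,0,0,0,0,0,693,0,0,0,0,0,0,0,0,0,0,0,0,0,0,0,0,0,0,0,0,0,0,0,0,0,0,0,0,0,0,0,0,0,0,0,0,0,0,0,0,0,0,0,0,0,0,0,0,0,0,8700,0,0,0,0,0,0,0,0,0,0,0,0,0,0,0,0,0,0,0,0,0,37200,70800,168000,0,76000]))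
  (.use (.H 3 1 8424) [(true,0,4,1)] (.use (.H 3 1 8360) [(false,72,4,1)] (.leaf
  [756,756,0,0,404,228,0,0,0,0,0,0,0,0,0,0,0,0,0,0,0,0,0,0,0,0,0,0,0,0,0,0,0,0,0,0,0,0,0,0,0,0,0,0,0,0,0,0,0,0,0,0,0,0,0,0,0,0,0,0,0,0,0,0,0,0,0,0,0,0,0,0,0,0,0,0,0,0,0,0,0,0,0,0,0,0,0,0,0,0,0,0,0,0,0,0,0,0,0,0,0,0,0,233,0,0,0,0,0,0,0,0,0,0,0,0,0,0,0,0,0,0,0,0,0,0,0,0,0,0,0,0,0,0,0,0,0,0,0,0,0,0,0,0,0,0,0,0,0,0,0,0,0,0,4966,0,0,0,0,0,0,0,0,0,0,0,0,0,0,0,0,0,0,0,0,87600,0,13680,294720,22440]))))))))))))))))))))))))))))))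
  (.use (.H 1 2 1352) [(true,0,2,1)] (.leaf
  [7,0,0,0,0,0,0,0,0,0,0,0,0,0,0,0,0,0,0,0,0,0,0,0,0,0,0,0,0,0,0,0,0,0,0,0,0,0,0,0,0,0,0,0,0,0,0,0,0,0,0,0,0,0,0,0,0,0,0,0,0,0,0,0,0,0,0,0,0,0,0,0,0,0,0,0,0,0,0,0,0,0,0,0,0,0,0,0,0,0,0,0,0,0,0,0,0,0,0,0,0,0,0,0,0,0,0,0,0,0,0,0,0,0,0,0,0,0,0,0,0,0,0,0,0,0,8,0,0,0,0,0,0,0,0,0,0,0,0,0,0,0,0,0,0,0,0,360,270,0,0,120])))))))))))))))))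
  (.leaf
  [960,0,14,0,0,0,0,0,1,0,0,0,0,0,0,0,0,0,0,0,0,0,0,0,0,0,0,0,0,0,0,0,0,0,0,0,0,0,0,0,0,0,0,0,0,0,0,0,0,0,0,0,0,0,0,0,0,0,0,0,0,0,0,0,0,0,0,0,0,0,0,0,0,0,0,0,0,0,0,0,0,0,0,0,0,0,0,0,0,0,0,0,0,0,0,0,0,0,0,0,0,0,0,0,0,0,0,0,0,0,24,0,0,0,0,0,0,0,0,0,0,0,0,0,0,0,0,0,0,0,0,0,720,0,0,480,320]))))))))))))))))))))))))))))))
  (.use (.H 3 1 8360) [(true,0,4,1)] (.leaf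
  [52,0,360,7,0,0,0,0,0,0,0,0,0,0,0,0,0,0,0,0,0,0,0,0,0,0,0,0,0,0,0,7,0,0,0,0,0,0,0,0,0,0,0,0,0,0,0,0,0,0,0,0,0,0,0,0,0,0,0,0,0,0,0,0,0,0,0,0,0,0,0,0,0,0,0,0,0,0,0,0,0,0,188,0,0,0,0,0,0,0,0,0,0,0,0,0,0,0,0,0,0,0,0,6960,0,0,0,0,2320])))))))))))
  (.use (.H 1 1 10312) [(true,0,2,1)] (.leaf
  [14,0,0,0,7,0,0,0,0,0,0,0,0,0,0,0,0,0,0,0,0,0,0,0,0,0,0,0,0,0,0,0,0,0,0,0,0,0,0,0,0,0,0,0,0,0,0,0,0,0,0,0,0,0,0,0,0,0,0,0,0,0,0,0,0,0,0,0,0,0,0,0,0,32,0,0,0,0,0,0,0,0,0,0,0,0,0,0,0,0,0,0,0,0,840,0,0,960,480])))))))))))))))))))))))))))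
  (.use (.H 1 1 10280) [(true,0,2,1)] (.leaf
  [5,0,1,2,0,0,0,0,0,0,0,0,0,0,0,0,0,0,0,0,0,0,0,0,0,0,0,0,0,0,0,0,0,0,0,0,0,0,0,0,0,0,0,0,0,0,0,0,1,0,0,0,0,0,0,0,0,0,0,0,0,0,0,0,0,0,0,0,0,225,60,210]))))))
  (.use (.H 3 2 5128) [(true,0,4,1)] (.split [-2,-2,-2,-2,-2,1,1,1,1,1,1,1,0,1,1,0] (.use (.E 2
  1 2) [(false,0,1,1)] (.leaf
  [11,0,2,0,0,0,0,0,0,0,0,0,0,0,0,0,0,0,0,0,0,0,0,0,0,0,0,0,0,0,0,0,0,0,0,0,0,0,0,0,0,0,0,0,0,0,5,0,0,0,0,0,0,0,0,0,0,0,0,0,0,0,0,0,0,0,0,200,0,0,0,140]))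
  (.leaf
  [3360,7,0,0,0,0,0,0,0,0,0,0,0,0,0,0,0,0,0,0,0,0,0,0,0,0,0,0,0,0,0,0,0,0,0,0,0,0,0,0,0,0,0,0,0,76,0,0,0,0,0,0,0,0,0,0,0,0,0,0,0,0,0,0,0,0,420,0,0,4800,2400])))))))
  (.use (.H 1 2 1288) [(true,0,2,1)] (.leaf
  [7,0,0,0,0,0,0,0,0,0,0,0,0,0,0,0,0,0,0,0,0,0,0,0,0,0,0,0,0,0,0,0,0,0,0,0,0,0,0,0,8,0,0,0,0,0,0,0,0,0,0,0,0,0,0,0,0,0,0,0,0,360,270,0,0,120]))))
  (.use (.E 1 2 2) [(true,0,1,1)] (.split [1,0,0,0,0,1,0,0,0,0,1,0,0,4,0,-1] (.use (.H 0 0 9249)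
  [(false,0,1,1)] (.use (.H 3 2 3336) [(false,27,4,1)] (.use (.M 1 16) [(true,54,1,1)] (.split
  [0,0,0,2,0,0,1,0,2,0,0,0,0,0,0,-1] (.use (.H 1 2 328) [(false,0,2,1)] (.use (.H 3 1 8296)
  [(false,18,4,1)] (.use (.H 3 2 3336) [(false,32,4,1)] (.use (.H 3 2 5384) [(false,27,4,1)]
  (.use (.H 3 2 6408) [(false,26,4,1)] (.use (.M 1 16) [(true,61,1,1)] (.split
  [1,2,0,0,0,1,2,0,4,0,1,2,3,0,0,-1] (.use (.H 0 0 7523) [(false,0,1,1)] (.leaf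
  [6,0,2,0,0,0,0,0,0,0,0,0,0,0,360,0,0,0,0,0,0,0,0,0,0,0,0,0,0,0,0,0,0,0,0,0,0,0,0,0,0,0,0,0,0,0,0,0,0,0,0,15,0,0,0,0,0,0,0,0,0,0,0,0,0,0,0,0,0,0,0,0,720,0,120,1680,900,1120]))
  (.use (.H 0 0 7523) [(true,0,1,1)] (.use (.H 3 1 8296) [(false,25,4,1)] (.use (.M 2 16)
  [(true,51,1,1)] (.use (.M 1 16) [(true,66,1,1)] (.use (.H 3 1 8296) [(false,28,4,1)] (.split
  [0,1,0,2,0,1,2,0,0,0,0,1,0,2,0,-1] (.use (.H 1 1 10346) [(false,0,2,1)] (.leaf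
  [610,0,0,0,0,0,320,0,0,0,312,3,0,0,0,0,0,0,0,0,36000,0,0,0,0,0,0,0,0,0,0,0,0,0,0,0,0,0,0,0,0,0,0,0,0,0,0,0,0,0,0,0,0,0,0,0,0,1240,0,0,0,0,0,0,0,0,0,0,0,0,0,0,0,0,0,0,0,0,0,18000,18240,61200,30000,54000]))
  (.use (.H 1 1 10346) [(true,0,2,1)] (.leaf
  [70,0,35,0,0,0,0,0,0,0,4,8,0,0,0,0,0,0,0,0,0,0,0,0,0,0,0,0,0,0,0,0,0,0,0,0,0,0,0,0,0,0,0,0,0,0,0,0,0,0,0,0,0,0,0,0,0,136,0,0,0,0,0,0,0,0,0,0,0,0,0,0,0,0,0,0,0,0,3240,0,960,3840])))))))))))))))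
  (.leaf
  [12,0,0,0,0,0,0,0,0,0,0,0,0,0,0,0,0,0,0,0,0,0,0,0,0,0,0,0,0,0,0,0,0,0,0,0,0,0,0,0,0,0,0,1,0,0,0,0,0,0,0,0,0,0,0,0,0,0,0,0,0,0,0,0,48,6,0,72,36,56])))))
  (.leaf
  [240,0,108,0,0,0,3,0,0,0,0,0,0,0,0,0,0,0,0,0,0,0,0,0,0,0,0,0,0,0,0,0,0,0,0,0,0,0,0,8,0,0,0,0,0,0,0,0,0,0,0,0,0,0,0,0,0,0,0,0,0,108,0,312,492,64]))))))))))))))
  (.use (.H 3 1 8296) [(true,0,4,1)] (.leaf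
  [7,0,0,0,0,0,0,3,0,0,0,0,0,0,0,0,0,0,0,0,0,0,0,0,0,0,0,40,0,0,0,0,0,0,0,0,0,0,0,0,0,0,0,0,0,0,0,0,840,0,0,1680])))))
  (.use (.H 1 1 8232) [(true,0,2,1)] (.leaf
  [7,0,0,0,0,0,0,0,0,0,0,0,0,0,0,0,0,0,0,0,0,0,0,0,8,0,0,0,0,0,0,0,0,0,0,0,0,0,0,0,0,0,0,0,0,390,0,240,120]))))
  (.use (.H 3 2 6408) [(true,0,4,1)] (.leaf
  [285,0,153,0,1056,176,0,0,0,0,0,0,0,0,0,0,0,0,0,0,0,0,492,0,0,0,0,0,0,0,0,0,0,0,0,0,0,0,0,0,0,0,0,22320,15840,0,39600,61920]))))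
  (.use (.H 3 2 5384) [(true,0,4,1)] (.leaf
  [117,0,936,104,0,0,0,0,0,0,0,0,0,0,0,0,0,0,0,0,222,0,0,0,0,0,0,0,0,0,0,0,0,0,0,0,0,0,0,0,0,26640,18720,18720,12240,6120,51120]))))))
  (.use (.H 0 0 7267) [(true,0,1,1)] (.split [0,0,0,1,0,1,2,0,0,0,0,0,0,1,0,-1] (.use (.H 3 1
  8296) [(false,0,4,1)] (.split [0,0,0,2,0,0,1,0,0,0,1,0,0,4,0,-1] (.use (.H 1 2 9288)
  [(false,0,2,1)] (.split [0,0,0,1,0,0,0,0,1,0,1,2,3,0,0,-1] (.use (.H 3 2 7432) [(false,0,4,1)]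
  (.leaf
  [4,0,0,0,1,0,4,0,0,0,0,0,0,0,0,0,0,0,0,0,0,0,28,0,0,0,0,0,0,0,0,0,0,0,0,0,0,0,0,0,0,0,0,720,0,240,1200,0,1280]))
  (.use (.H 3 2 7432) [(true,0,4,1)] (.use (.H 2 0 4227) [(false,31,3,1)] (.split
  [0,0,0,2,0,1,0,3,0,0,0,1,0,0,0,-1] (.use (.H 1 1 2216) [(false,0,2,1)] (.split
  [0,0,0,0,0,0,2,3,0,0,0,0,1,0,0,-1] (.use (.H 2 1 4288) [(false,0,3,1)] (.split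
  [0,0,0,2,0,0,1,0,2,0,1,0,0,0,0,-1] (.use (.H 1 2 1352) [(false,0,2,1)] (.use (.H 3 2 3336)
  [(false,16,4,1)] (.split [1,1,1,1,1,-2,-2,-2,-2,-2,1,1,0,1,1,0] (.use (.E 2 0 2)
  [(false,0,1,1)] (.split [0,0,0,1,0,0,0,0,1,0,0,0,3,0,0,-1] (.use (.H 3 2 4360) [(false,0,4,1)]
  (.split [0,0,0,0,0,1,0,0,4,0,0,0,1,0,0,-1] (.use (.H 2 1 4384) [(false,0,3,1)] (.use (.H 3 1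
  8296) [(false,19,4,1)] (.use (.H 2 0 4227) [(false,46,3,1)] (.use (.H 2 1 4384)
  [(false,3,3,1)] (.use (.M 1 16) [(true,52,1,1)] (.use (.H 2 1 4196) [(false,47,3,1)] (.split
  [0,0,0,1,0,1,2,3,4,0,0,0,0,1,0,-1] (.use (.H 3 1 8680) [(false,0,4,1)] (.leaf
  [42,0,0,56,0,0,0,0,0,0,0,84,0,0,0,0,0,0,0,0,0,21,0,0,0,0,0,0,0,0,0,0,0,0,0,0,0,0,0,0,0,0,0,94,0,0,0,0,0,0,0,0,0,0,0,0,0,0,0,0,0,0,0,0,0,0,0,720,8760]))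
  (.use (.H 3 1 8680) [(true,0,4,1)] (.split [1,0,0,0,0,0,0,1,0,0,0,0,1,0,0,-1] (.use (.H 2 0
  4225) [(false,0,3,1)] (.leaf
  [8,0,6,0,0,0,0,0,0,0,0,12,0,28,0,0,0,0,0,0,0,0,0,25,0,0,0,0,0,0,0,0,0,0,0,0,0,0,0,0,0,0,0,0,0,114,0,0,0,0,0,0,0,0,0,0,0,0,0,0,0,0,0,0,0,0,4080,0,0,11280,7080]))
  (.leaf
  [126,0,0,0,0,0,0,0,0,0,1,0,0,0,0,0,0,0,0,0,0,0,0,0,0,0,0,0,0,0,0,0,0,0,0,0,0,0,0,0,0,0,0,0,4,0,0,0,0,0,0,0,0,0,0,0,0,0,0,0,0,0,0,0,0,0,42]))))))))))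
  (.leaf
  [1440,18,0,364,0,0,0,0,0,0,0,0,0,103,0,0,0,0,0,0,0,0,0,0,0,0,0,0,0,0,0,0,0,0,0,354,0,0,0,0,0,0,0,0,0,0,0,0,0,0,0,0,0,0,0,0,12720,0,0,38640,20040])))
  (.use (.H 3 2 4360) [(true,0,4,1)] (.leaf
  [19,0,120,0,0,0,0,0,0,0,0,0,0,0,0,0,0,0,0,0,0,0,0,0,0,0,0,0,0,0,0,0,0,0,52,0,0,0,0,0,0,0,0,0,0,0,0,0,0,0,0,0,0,0,0,1620,0,0,5280]))))
  (.leaf
  [30960,159,0,0,0,0,0,0,0,38,0,0,0,0,0,0,0,0,0,0,0,0,0,0,0,0,0,0,0,0,0,846,0,0,0,0,0,0,0,0,0,0,0,0,0,0,0,0,0,0,0,0,21120,0,12720,0,21000,42080]))))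
  (.use (.H 1 2 1352) [(true,0,2,1)] (.leaf
  [7,0,0,0,0,0,0,0,0,0,0,0,0,0,0,0,0,0,0,0,0,0,0,0,0,0,0,0,0,8,0,0,0,0,0,0,0,0,0,0,0,0,0,0,0,0,0,0,0,0,360,270,0,0,120]))))
  (.use (.H 2 1 4288) [(true,0,3,1)] (.leaf
  [112,0,0,0,112,141,0,0,0,0,0,0,0,0,0,0,0,0,0,0,0,0,0,0,0,0,0,462,0,0,0,0,0,0,0,0,0,0,0,0,0,0,0,0,0,0,0,0,25200,0,13680,57600,21960]))))
  (.use (.H 1 1 2216) [(true,0,2,1)] (.leaf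
  [21,0,28,21,0,0,0,0,0,0,0,0,0,0,0,0,0,0,0,0,0,0,0,0,0,75,0,0,0,0,0,0,0,0,0,0,0,0,0,0,0,0,0,0,0,0,5040,0,0,10440,7740])))))))
  (.leaf
  [13440,105,0,196,0,0,0,0,0,0,0,0,0,0,0,0,0,0,0,292,0,0,0,0,0,0,0,0,0,0,0,0,0,0,0,0,0,0,0,0,11760,0,5040,21360,14880])))
  (.use (.H 3 1 8296) [(true,0,4,1)] (.leaf
  [19,0,0,0,0,0,0,0,0,0,0,0,0,0,0,0,0,0,112,0,0,0,0,0,0,0,0,0,0,0,0,0,0,0,0,0,0,0,0,2460,0,0,3840]))))))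
  (.use (.H 3 2 3336) [(true,0,4,1)] (.leaf
  [7,0,0,0,0,0,0,0,0,0,0,0,0,0,46,0,0,0,0,0,0,0,0,0,0,0,0,0,0,0,0,0,0,0,0,840,0,0,960,1320])))))))
  (.leaf [36,0,0,0,0,0,0,0,1,0,0,0,0,0,0,0,0,0,0,0,0,0,0,0,0,0,0,0,0,42,0,0,72,0,20]))))) (.leaf
  [60,0,0,0,2,0,0,0,1,0,0,0,0,0,0,0,0,0,0,0,0,0,0,0,0,45,0,0,0,0,20])))))) (.use (.M 0 8)
  [(true,0,1,1)] (.split [0,1,0,2,0,0,0,0,2,0,1,0,0,0,0,-1] (.use (.H 1 2 1290) [(false,0,2,1)]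
  (.split [1,0,0,0,0,0,0,0,2,0,0,1,0,0,0,-1] (.use (.H 1 0 2305) [(false,0,2,1)] (.split
  [1,0,0,4,0,0,1,0,0,0,0,1,0,2,0,-1] (.use (.H 1 0 10313) [(false,0,2,1)] (.split
  [1,2,0,0,0,0,1,0,2,0,0,1,0,0,0,-1] (.use (.H 1 0 2371) [(false,0,2,1)] (.split
  [1,2,0,0,0,1,0,0,0,0,1,2,0,0,0,-1] (.use (.H 0 0 3107) [(false,0,1,1)] (.split
  [0,1,0,2,0,0,1,0,2,0,1,2,0,0,0,-1] (.use (.H 1 2 3402) [(false,0,2,1)] (.split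
  [1,2,3,0,0,1,2,0,0,0,1,2,0,0,0,-1] (.use (.H 0 0 3175) [(false,0,1,1)] (.split
  [0,0,0,-4,-5,1,1,1,1,1,1,1,1,1,1,0] (.use (.M 0 24) [(false,0,1,1)] (.leaf
  [25,0,0,0,0,0,0,0,0,0,0,0,0,0,0,0,21,0,14,0,0,0,0,0,0,0,0,0,0,0,0,0,0,0,0,0,0,0,0,0,3480,1740,840]))
  (.use (.M 0 24) [(true,0,1,1)] (.split [1,2,3,0,0,0,0,1,0,0,0,0,1,0,0,-1] (.use (.H 2 0 4231)
  [(false,0,3,1)] (.split [0,0,0,1,0,0,0,0,1,0,1,0,3,0,0,-1] (.use (.H 3 2 5384) [(false,0,4,1)]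
  (.split [1,2,3,0,0,0,0,0,1,0,0,0,0,1,0,-1] (.use (.H 3 0 8455) [(false,0,4,1)] (.split
  [1,1,1,1,1,1,1,1,1,1,0,0,0,0,-5,0] (.use (.M 2 16) [(false,0,1,1)] (.leaf
  [36,0,3,0,0,0,8,0,28,0,48,0,0,0,0,0,0,0,0,0,0,0,0,0,14,0,0,0,0,0,0,0,0,0,0,0,0,0,0,0,0,0,0,0,0,0,720,1800,3240,0,4200]))
  (.use (.M 2 16) [(true,0,1,1)] (.split [1,1,1,1,1,0,0,0,-4,0,1,1,1,1,1,0] (.use (.M 1 8)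
  [(false,0,1,1)] (.leaf
  [112,0,4,0,27,0,17,0,0,0,68,0,96,0,0,0,0,0,0,0,0,0,0,0,0,0,0,0,0,0,0,0,0,0,0,0,0,0,0,0,0,0,0,0,0,0,0,0,2880,1680,5280,5520,9040]))
  (.use (.M 1 8) [(true,0,1,1)] (.use (.H 0 0 1185) [(false,31,1,1)] (.use (.M 1 8)
  [(true,2,1,1)] (.split [0,0,0,1,0,1,0,3,0,0,0,0,0,1,0,-1] (.use (.H 3 1 8360) [(false,0,4,1)]
  (.split [1,1,1,1,1,0,0,0,-4,-5,1,1,1,1,1,0] (.use (.M 1 24) [(false,0,1,1)] (.use (.H 3 2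
  5384) [(false,13,4,1)] (.use (.H 1 0 2305) [(false,30,2,1)] (.use (.H 1 2 1290)
  [(false,33,2,1)] (.split [0,1,0,0,0,0,0,0,2,0,0,2,0,0,0,-1] (.use (.H 1 2 2306)
  [(false,0,2,1)] (.split [0,0,0,1,0,0,0,0,1,0,1,2,0,0,0,-1] (.use (.H 3 2 3336) [(false,0,4,1)]
  (.use (.H 0 0 3175) [(false,26,1,1)] (.use (.M 1 8) [(true,15,1,1)] (.split
  [1,0,0,4,0,0,0,0,2,0,0,0,0,0,0,-1] (.use (.H 1 0 265) [(false,0,2,1)] (.split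
  [0,0,0,0,0,1,0,0,4,0,0,0,1,0,0,-1] (.use (.H 2 1 4384) [(false,0,3,1)] (.split
  [1,2,0,4,0,0,0,0,0,0,0,0,1,0,0,-1] (.use (.H 2 0 4107) [(false,0,3,1)] (.use (.H 3 2 3336)
  [(false,9,4,1)] (.use (.M 2 16) [(true,25,1,1)] (.use (.H 1 0 265) [(false,7,2,1)] (.use (.H 1
  2 1290) [(false,49,2,1)] (.use (.H 1 2 3402) [(false,40,2,1)] (.split
  [1,2,3,4,0,0,0,0,1,0,0,0,0,1,0,-1] (.use (.H 3 0 8463) [(false,0,4,1)] (.leaf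
  [51,0,0,0,0,0,0,0,0,0,0,0,0,10,0,0,0,0,0,0,0,0,460,0,0,0,0,0,0,0,0,0,0,0,0,0,0,0,68,0,0,0,0,0,0,0,0,0,0,0,0,0,0,0,0,0,0,0,0,0,0,0,0,0,0,0,0,0,0,0,0,0,0,0,0,0,13440,0,0,20400,22400]))
  (.use (.H 3 0 8463) [(true,0,4,1)] (.use (.M 0 20) [(true,57,1,1)] (.use (.H 3 2 3336)
  [(false,17,4,1)] (.use (.M 0 20) [(true,59,1,1)] (.split [0,0,-3,-4,0,1,1,1,1,1,1,1,1,1,1,0]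
  (.use (.M 0 12) [(false,0,1,1)] (.leaf
  [12,0,22,0,0,0,0,0,0,0,0,0,0,0,0,0,0,0,19,0,0,0,0,0,0,0,0,76,0,0,0,0,0,0,0,0,0,0,0,0,0,0,0,11,0,0,0,0,0,0,0,0,0,0,0,0,0,0,0,0,0,0,0,0,0,0,0,0,0,0,0,0,0,0,0,0,0,0,0,0,0,2280,0,0,4560,4240]))
  (.use (.M 0 12) [(true,0,1,1)] (.leaf
  [22,0,0,0,0,6,0,0,0,0,0,0,0,0,0,0,0,0,5,0,0,0,0,0,0,0,0,20,0,0,0,0,0,0,0,0,0,0,0,0,0,0,0,1,0,0,0,0,0,0,0,0,0,0,0,0,0,0,0,0,0,0,0,0,0,0,0,0,0,0,0,0,0,0,0,0,0,0,0,0,0,600,0,0,1200]))))))))))))))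
  (.use (.H 2 0 4107) [(true,0,3,1)] (.leaf
  [8,0,0,0,0,0,5,0,0,0,0,0,0,0,0,20,0,0,0,0,0,0,0,0,0,0,0,0,0,0,0,0,0,0,0,0,0,0,0,0,0,0,0,0,0,0,0,23,0,0,0,0,0,0,0,0,0,0,0,0,0,0,0,0,0,0,0,0,0,600,0,0,1200]))))
  (.leaf
  [10080,0,0,214,0,0,0,0,0,0,0,28,100,0,0,0,0,0,0,0,0,0,33,0,0,0,0,0,44,0,0,0,0,0,0,0,0,0,0,0,0,0,0,0,0,0,0,0,0,0,0,0,0,0,0,0,0,0,0,0,0,0,0,0,0,0,0,3360,0,6480])))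
  (.leaf
  [13440,300,56,0,0,0,0,0,0,7,28,0,0,0,0,0,0,0,0,0,0,0,0,0,0,0,350,0,0,0,0,0,0,0,0,0,0,0,0,0,0,0,0,0,0,0,0,0,0,0,0,0,0,0,0,0,0,0,0,0,0,0,0,0,1680,1680,4800,20400])))))
  (.leaf
  [1680,0,0,0,22,4,184,0,0,0,0,0,0,0,0,0,15,0,0,0,0,0,36,0,0,0,0,0,0,0,0,0,0,0,0,0,0,0,0,0,0,0,0,0,0,0,0,0,0,0,0,0,0,0,0,0,0,0,0,0,5520,0,0,8640,7760])))
  (.use (.H 1 2 2306) [(true,0,2,1)] (.leaf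
  [89,0,0,89,0,160,0,0,0,0,0,0,0,0,0,26,0,0,0,0,0,30,0,0,0,0,0,0,0,0,0,0,0,0,0,0,0,0,0,0,0,0,0,0,0,0,0,0,0,0,0,0,0,0,0,0,0,0,0,4800,0,0,7200])))))))
  (.use (.M 1 24) [(true,0,1,1)] (.split [1,1,1,1,1,1,1,1,1,1,0,0,-3,-4,-5,0] (.use (.M 2 28)
  [(false,0,1,1)] (.split [1,0,0,4,0,0,0,0,1,0,0,0,0,1,0,-1] (.use (.H 3 0 8457) [(false,0,4,1)]
  (.split [1,1,1,1,1,1,1,1,1,1,0,0,0,-4,0,0] (.use (.M 2 8) [(false,0,1,1)] (.leaf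
  [28,0,0,0,0,0,0,0,4,0,0,0,0,0,0,0,7,0,0,0,0,0,18,0,24,0,0,0,0,0,0,0,0,0,0,0,0,0,0,0,0,0,0,0,0,0,0,0,0,0,0,0,0,0,0,0,0,0,0,0,480,720,1440,0,2320]))
  (.use (.M 2 8) [(true,0,1,1)] (.split [0,1,0,2,0,1,0,3,0,0,0,0,0,0,0,-1] (.use (.H 1 1 170)
  [(false,0,2,1)] (.use (.H 3 0 8457) [(false,5,4,1)] (.split
  [1,1,1,1,1,1,1,1,1,1,0,0,0,-4,-5,0] (.use (.M 2 24) [(false,0,1,1)] (.split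
  [0,0,0,1,0,1,2,3,0,0,0,0,0,1,0,-1] (.use (.H 3 1 8424) [(false,0,4,1)] (.use (.M 2 16)
  [(true,22,1,1)] (.use (.H 3 0 8457) [(false,11,4,1)] (.split
  [1,1,1,1,1,0,-2,-3,0,-5,1,1,1,1,1,0] (.use (.M 1 22) [(false,0,1,1)] (.split
  [1,2,0,4,0,0,0,0,1,0,0,0,0,1,0,-1] (.use (.H 3 0 8459) [(false,0,4,1)] (.split
  [1,0,0,0,0,1,2,3,0,0,1,0,3,0,0,-1] (.use (.H 0 0 5345) [(false,0,1,1)] (.split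
  [1,2,3,4,0,0,1,0,2,0,0,1,0,2,0,-1] (.use (.H 1 0 10575) [(false,0,2,1)] (.use (.M 2 8)
  [(true,18,1,1)] (.split [0,0,0,1,0,1,0,3,4,0,0,0,0,1,0,-1] (.use (.H 3 1 8616) [(false,0,4,1)]
  (.leaf
  [93,0,12,0,0,0,0,0,0,0,0,0,0,24,0,474,0,0,0,0,0,0,0,0,0,0,0,0,0,0,0,0,0,0,0,0,0,0,0,0,92,0,432,0,1020,0,0,0,0,0,0,0,0,0,0,0,0,0,0,0,0,0,0,0,0,0,0,0,0,0,0,0,0,0,0,0,0,0,0,0,22320,29520,9000,0,77040]))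
  (.leaf
  [2520,0,87,0,0,0,0,0,0,0,0,0,0,0,165,0,0,0,0,0,0,0,0,0,0,0,0,0,0,0,0,0,0,0,0,0,0,0,0,46,0,126,0,66,0,0,0,0,0,0,0,0,0,0,0,0,0,0,0,0,0,0,0,0,0,0,0,0,0,0,0,0,0,0,0,0,0,0,0,360,5940,18000,0,10500]))))
  (.use (.H 1 0 10575) [(true,0,2,1)] (.split [0,1,0,0,0,1,0,3,0,0,0,1,0,2,0,-1] (.use (.H 1 1
  10402) [(false,0,2,1)] (.use (.M 0 20) [(true,60,1,1)] (.use (.H 3 0 8457) [(false,23,4,1)]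
  (.use (.H 3 0 8459) [(false,9,4,1)] (.use (.H 1 0 10575) [(true,6,2,1)] (.use (.M 0 20)
  [(true,64,1,1)] (.split [0,0,1,0,0,0,0,1,0,0,1,0,3,4,0,-1] (.use (.H 2 2 13444)
  [(false,0,3,1)] (.use (.H 1 1 10402) [(false,8,2,1)] (.split
  [1,2,0,0,0,1,0,3,0,0,1,0,0,0,0,-1] (.use (.H 0 0 1187) [(false,0,1,1)] (.leaf
  [84,0,0,28,0,0,0,0,0,0,0,0,0,0,0,0,0,0,96,0,0,0,51,0,198,0,0,0,0,0,0,0,0,24,0,0,0,0,0,0,0,0,0,0,0,0,0,0,0,32,0,258,0,540,0,0,0,0,0,0,0,0,0,0,0,0,0,0,0,0,0,0,0,0,0,0,0,0,0,0,0,0,0,0,0,0,0,0,0,16560,17280,1080,0,48960]))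
  (.use (.H 0 0 1187) [(true,0,1,1)] (.leaf
  [4,0,2,0,0,0,0,0,0,0,0,0,0,0,0,0,0,0,0,0,0,0,0,0,1,0,0,0,0,0,0,0,0,5,0,0,0,0,0,0,0,0,0,0,0,0,0,0,0,2,0,5,0,4,0,0,0,0,0,0,0,0,0,0,0,0,0,0,0,0,0,0,0,0,0,0,0,0,0,0,0,0,0,0,0,0,0,0,0,120,240,360,0,400])))))
  (.use (.H 2 2 13444) [(true,0,3,1)] (.leaf
  [56,0,48,24,0,0,0,0,0,0,0,0,0,0,0,0,0,0,0,93,0,372,0,0,0,0,0,0,0,0,48,0,132,0,0,0,0,0,0,0,0,0,99,0,0,0,8,0,84,0,24,0,0,0,0,0,0,0,0,0,0,0,0,0,0,0,0,0,0,0,0,0,0,0,0,0,0,0,0,0,0,0,0,0,0,0,0,12960,0,0,16800])))))))))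
  (.use (.H 1 1 10402) [(true,0,2,1)] (.use (.M 2 8) [(true,20,1,1)] (.leaf
  [185,259,0,3,0,0,0,0,0,0,0,0,0,70,0,252,0,0,0,0,0,0,0,0,0,0,0,0,0,0,0,0,0,0,0,0,0,0,0,0,266,0,262,0,0,0,0,0,0,0,0,0,0,0,0,0,0,0,0,0,0,0,0,0,0,0,0,0,0,0,0,0,0,0,0,0,0,0,0,0,2880,7560,33720])))))))
  (.use (.H 0 0 5345) [(true,0,1,1)] (.leaf
  [92,0,0,0,0,0,0,0,39,0,156,0,0,0,0,0,0,0,0,0,0,0,0,0,0,0,0,0,0,0,0,0,0,0,0,40,0,80,0,120,0,0,0,0,0,0,0,0,0,0,0,0,0,0,0,0,0,0,0,0,0,0,0,0,0,0,0,0,0,0,0,0,0,0,0,5520,6480,960,0,13200]))))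
  (.use (.H 3 0 8459) [(true,0,4,1)] (.leaf
  [225,0,60,0,0,0,69,0,462,0,0,0,0,0,0,0,0,0,0,48,0,0,0,0,0,0,0,0,0,0,0,0,0,20,0,882,0,180,0,0,0,0,0,0,0,0,0,0,0,0,0,0,0,0,0,0,0,0,0,0,0,0,0,0,0,0,0,0,0,0,0,0,0,7200,16560,11160]))))
  (.use (.M 1 22) [(true,0,1,1)] (.split [1,1,1,1,1,1,1,1,1,1,0,0,-3,0,-5,0] (.leaf
  [105120,2712,0,0,4656,1281,0,7068,0,0,0,0,0,0,0,0,0,0,4032,0,0,0,0,0,0,0,0,0,1017,0,0,0,1432,0,5124,0,7008,0,0,0,0,0,0,0,0,0,0,0,0,0,0,0,0,0,0,0,0,0,0,0,0,0,0,0,0,0,0,0,0,0,0,0,0,239040,0,0,712800])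
  (.use (.M 2 20) [(true,0,1,1)] (.split [1,2,0,4,0,0,0,0,1,0,0,0,0,1,0,-1] (.use (.H 3 0 8459)
  [(false,0,4,1)] (.split [0,0,1,0,0,0,0,1,0,0,1,2,0,4,0,-1] (.use (.H 2 2 11396)
  [(false,0,3,1)] (.split [0,0,-3,-4,-5,1,1,1,1,1,1,1,1,1,1,0] (.use (.M 0 28) [(false,0,1,1)]
  (.split [1,2,0,0,0,1,2,3,0,0,1,2,3,0,0,-1] (.use (.H 0 0 7395) [(false,0,1,1)] (.leaf
  [12,0,0,0,4,0,0,0,12,0,12,0,0,0,0,0,18,0,0,0,0,0,0,0,0,0,0,0,0,0,0,0,0,0,0,0,0,9,0,0,0,0,0,36,0,24,0,0,0,0,0,0,0,0,0,0,0,0,0,0,0,0,0,0,0,0,0,0,0,0,0,0,0,0,0,0,0,0,0,0,0,0,720,2520,0,2400]))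
  (.leaf
  [2160,96,0,28,0,0,0,0,0,0,0,0,0,0,0,126,0,0,0,0,0,0,0,0,0,0,0,0,0,0,0,0,0,0,0,0,9,0,0,0,32,0,180,0,180,0,0,0,0,0,0,0,0,0,0,0,0,0,0,0,0,0,0,0,0,0,0,0,0,0,0,0,0,0,0,0,0,0,0,2160,2160,7200,17640,0,17760])))
  (.use (.M 0 28) [(true,0,1,1)] (.leaf
  [132,0,0,0,33,0,48,0,176,0,0,0,11,0,224,0,0,0,0,0,0,0,0,0,0,0,0,0,0,0,0,0,0,0,0,22,0,0,0,0,0,0,0,176,0,0,0,0,0,0,0,0,0,0,0,0,0,0,0,0,0,0,0,0,0,0,0,0,0,0,0,0,0,0,0,0,0,0,0,0,7200,2640,0,18400]))))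
  (.leaf
  [7200,0,0,0,0,336,0,0,0,78,0,798,0,0,0,0,0,0,0,0,0,0,0,0,0,0,0,0,0,0,0,0,153,0,0,0,28,0,252,0,300,0,0,0,0,0,0,0,0,0,0,0,0,0,0,0,0,0,0,0,0,0,0,0,0,0,0,0,0,0,0,0,0,0,0,3600,0,26640,8280,0,51600])))
  (.use (.H 3 0 8459) [(true,0,4,1)] (.use (.H 1 1 170) [(false,14,2,1)] (.leaf
  [2,21,0,0,0,8,0,0,8,5,0,52,0,0,0,0,0,0,0,0,0,0,0,0,0,0,0,0,0,0,0,0,7,0,0,0,0,0,96,0,16,0,0,0,0,0,0,0,0,0,0,0,0,0,0,0,0,0,0,0,0,0,0,0,0,0,0,0,0,0,0,0,0,0,0,0,240,1440,2880])))))))))))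
  (.use (.H 3 1 8424) [(true,0,4,1)] (.leaf
  [33,0,0,0,0,0,0,0,0,0,0,60,0,6,0,12,0,0,0,0,0,0,0,0,0,0,0,52,0,76,0,72,0,0,0,0,0,0,0,0,0,0,0,0,0,14,0,0,0,0,0,0,0,0,0,0,0,0,0,0,0,0,0,0,0,0,0,0,2880,13680]))))
  (.use (.M 2 24) [(true,0,1,1)] (.split [0,0,0,1,0,1,2,3,4,0,0,0,0,1,0,-1] (.use (.H 3 1 8680)
  [(false,0,4,1)] (.leaf
  [3,0,7,0,0,0,0,0,0,0,0,0,0,11,0,0,0,0,0,0,0,0,0,0,0,0,0,7,0,14,0,21,0,0,0,0,0,0,0,0,0,0,0,0,0,1,0,0,0,0,0,0,0,0,0,0,0,0,0,0,0,0,0,0,0,0,0,0,0,1080,1140,840]))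
  (.use (.H 3 1 8680) [(true,0,4,1)] (.split [0,1,0,2,0,0,1,0,2,0,1,0,3,0,0,-1] (.use (.H 1 2
  5450) [(false,0,2,1)] (.split [1,2,3,0,0,0,1,0,2,0,0,1,0,2,0,-1] (.use (.H 1 0 10567)
  [(false,0,2,1)] (.use (.M 2 28) [(false,16,1,1)] (.use (.H 3 1 8680) [(true,6,4,1)] (.split
  [1,2,0,0,0,1,2,3,0,0,1,2,3,0,0,-1] (.use (.H 0 0 7395) [(false,0,1,1)] (.leaf
  [18,0,0,0,0,0,0,0,0,0,10,0,0,0,0,5,0,0,0,0,0,15,0,0,0,0,0,0,0,0,0,0,0,0,0,4,0,9,0,12,0,0,0,0,0,0,0,0,0,0,0,0,0,0,0,0,0,0,0,0,0,0,0,0,0,0,0,0,0,0,0,0,0,0,360,0,0,0,0,1200]))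
  (.use (.H 0 0 7395) [(true,0,1,1)] (.use (.H 3 1 8360) [(false,24,4,1)] (.use (.H 3 1 8680)
  [(true,10,4,1)] (.use (.M 2 28) [(false,22,1,1)] (.split [0,1,0,2,0,0,1,0,2,0,1,2,3,0,0,-1]
  (.use (.H 1 2 7498) [(false,0,2,1)] (.leaf
  [33,0,60,15,0,48,0,0,0,24,0,0,0,0,0,69,0,0,0,0,0,0,0,0,0,0,33,0,0,0,0,0,0,0,0,0,0,0,0,0,72,0,88,0,0,0,0,0,0,0,0,0,0,0,0,0,0,0,11,0,0,0,0,0,0,0,0,0,0,0,0,0,0,0,0,0,0,0,0,0,0,0,11880,0,240]))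
  (.use (.H 1 2 7498) [(true,0,2,1)] (.split [0,0,0,1,0,0,0,0,1,0,1,2,3,4,0,-1] (.use (.H 3 2
  15624) [(false,0,4,1)] (.leaf
  [17,0,14,0,0,7,0,0,0,0,0,14,0,0,0,0,0,32,0,0,0,0,0,0,0,0,0,0,26,0,0,0,0,0,0,0,0,0,0,0,0,0,28,0,50,0,28,0,0,0,0,0,0,0,0,0,0,0,0,0,0,0,0,0,0,0,0,0,0,0,0,0,0,0,0,0,0,0,0,0,0,0,0,0,4800]))
  (.use (.H 3 2 15624) [(true,0,4,1)] (.split [0,0,0,1,0,0,0,0,1,0,1,0,3,4,0,-1] (.leaf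
  [19680,179,0,16,0,0,105,0,0,0,0,0,545,0,7,0,0,0,254,0,0,0,0,0,0,0,0,0,0,140,0,0,0,0,0,0,0,0,0,0,0,0,0,420,0,1230,0,420,0,0,0,0,0,0,0,0,0,0,0,0,0,0,0,0,0,0,0,0,0,0,0,0,0,0,0,0,0,0,0,0,0,0,0,0,0,169800,67800])
  (.use (.H 3 2 13576) [(true,0,4,1)] (.leaf
  [21,0,0,0,156,0,0,99,0,48,0,0,0,204,0,24,0,0,0,156,0,0,0,0,0,0,0,0,0,0,732,0,0,0,0,0,0,0,0,0,0,0,0,0,436,0,712,0,420,0,0,0,0,0,0,0,0,0,0,0,0,0,488,0,0,0,0,0,0,0,0,0,0,0,0,0,0,0,0,0,0,0,0,0,0,0,128160,97200])))))))))))))))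
  (.use (.H 1 0 10567) [(true,0,2,1)] (.use (.M 2 28) [(false,16,1,1)] (.use (.H 3 1 8680)
  [(true,6,4,1)] (.split [1,1,1,1,1,0,0,-3,-4,-5,1,1,1,1,1,0] (.use (.M 1 28) [(false,0,1,1)]
  (.split [0,0,1,0,0,1,2,3,0,0,0,0,1,0,0,-1] (.use (.H 2 1 4324) [(false,0,3,1)] (.use (.M 2 28)
  [(false,22,1,1)] (.split [0,1,0,2,0,1,0,3,0,0,0,1,0,2,0,-1] (.use (.H 1 1 10410)
  [(false,0,2,1)] (.leaf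
  [3,0,12,8,0,0,0,0,0,6,0,3,0,0,0,16,0,0,0,0,5,0,0,0,0,0,21,0,0,0,0,0,0,0,0,0,3,0,0,0,6,0,16,0,18,0,0,0,0,0,0,0,0,0,0,0,0,0,2,0,0,0,0,0,0,0,0,0,0,0,0,0,0,0,0,0,0,0,0,0,0,0,0,360,960]))
  (.use (.H 1 1 10410) [(true,0,2,1)] (.leaf
  [6,0,15,2,0,0,0,0,0,3,0,0,0,0,0,14,0,0,0,0,10,0,0,0,0,0,6,0,0,0,0,0,0,0,0,0,3,0,0,0,12,0,33,0,12,0,0,0,0,0,0,0,0,0,0,0,0,0,0,0,0,0,0,0,0,0,0,0,0,0,0,0,0,0,0,0,0,0,0,0,0,0,2700,0,600])))))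
  (.leaf
  [2880,0,0,0,0,6,0,0,0,0,0,42,0,0,0,0,27,0,0,0,0,0,21,0,0,0,0,0,0,0,0,0,0,0,0,0,58,0,114,0,126,0,0,0,0,0,0,0,0,0,0,0,0,0,0,0,0,0,0,0,0,0,0,0,0,0,0,0,0,0,0,0,0,0,0,0,0,0,11520,0,1440])))
  (.use (.M 1 28) [(true,0,1,1)] (.leaf
  [11232,0,1944,0,2106,0,696,0,0,0,856,0,0,0,0,1568,0,0,0,0,0,0,0,0,0,0,0,0,0,0,0,831,0,0,0,1320,0,0,0,6744,0,0,0,0,0,0,0,0,0,0,0,0,0,0,0,0,0,0,0,0,0,0,0,0,0,0,0,0,0,0,0,0,0,0,252720,0,83520,0,231840]))))))))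
  (.use (.H 1 2 5450) [(true,0,2,1)] (.split [1,1,1,1,1,0,0,-3,-4,-5,1,1,1,1,1,0] (.use (.M 1
  28) [(false,0,1,1)] (.leaf
  [12,0,6,0,0,0,9,0,0,0,0,0,0,0,0,0,0,27,0,0,0,0,0,0,0,0,0,0,0,0,0,14,0,36,0,18,0,0,0,0,0,0,0,0,0,0,0,0,0,0,0,0,0,0,0,0,0,0,0,0,0,0,0,0,0,0,0,0,0,0,0,0,0,2880,2880,960]))
  (.use (.M 1 28) [(true,0,1,1)] (.leaf
  [27,0,0,0,0,0,2,0,0,0,0,7,0,0,0,0,0,0,0,0,0,0,0,0,0,0,0,0,0,0,0,10,0,42,0,54,0,0,0,0,0,0,0,0,0,0,0,0,0,0,0,0,0,0,0,0,0,0,0,0,0,0,0,0,0,0,0,0,0,0,0,0,720,2880,2160,2400])))))))))))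
  (.use (.H 1 1 170) [(true,0,2,1)] (.leaf
  [9,0,0,0,0,0,18,0,0,0,3,0,0,0,0,0,0,0,0,0,0,0,8,0,15,0,0,0,0,0,0,0,0,0,0,0,0,0,0,0,0,0,0,0,0,0,0,0,0,0,0,0,0,0,0,0,0,0,0,0,0,0,0,540,1620,0,300]))))))
  (.leaf
  [2760,18,0,9,0,0,0,0,0,0,0,0,0,7,0,0,0,0,0,79,0,0,0,0,0,0,0,0,0,0,0,0,0,0,0,0,0,0,0,0,0,0,0,0,0,0,0,0,0,0,0,0,0,0,0,0,0,0,1080,4200,1560])))
  (.use (.M 2 28) [(true,0,1,1)] (.leaf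
  [42,0,12,0,0,0,0,0,0,0,0,0,0,0,0,0,14,0,42,0,84,0,0,0,0,0,0,0,0,0,0,0,0,0,21,0,0,0,0,0,0,0,0,0,0,0,0,0,0,0,0,0,0,0,0,0,1080,0,4320,720,3600]))))))
  (.use (.H 3 1 8360) [(true,0,4,1)] (.leaf
  [147,0,0,84,0,0,120,0,0,0,0,0,392,0,672,0,168,0,0,0,0,0,0,0,0,0,0,0,0,0,0,0,0,0,0,0,0,0,0,0,0,0,0,0,0,0,0,0,0,0,0,0,5040,5040,89280,37440]))))))))))
  (.use (.H 3 0 8455) [(true,0,4,1)] (.leaf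
  [15,0,0,0,14,0,0,0,126,0,0,0,0,0,0,0,0,0,0,0,0,0,6,0,0,0,0,0,0,0,0,0,0,0,0,0,0,0,0,0,0,0,0,2160,2520,2520,0,0,5280]))))
  (.use (.H 3 2 5384) [(true,0,4,1)] (.leaf
  [60,0,119,0,140,0,63,0,0,0,0,0,0,0,0,0,0,0,0,0,70,0,0,0,0,0,0,0,0,0,0,0,0,0,0,0,0,0,0,0,0,0,1260,5580,28800,12240]))))
  (.use (.H 2 0 4231) [(true,0,3,1)] (.split [0,0,3,0,0,0,0,1,0,0,0,0,1,0,0,-1] (.use (.H 2 0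
  4228) [(false,0,3,1)] (.leaf
  [5,0,17,0,0,0,48,0,0,0,0,0,0,0,0,0,0,0,0,0,0,0,33,0,0,0,0,0,0,0,0,0,0,0,0,0,0,0,0,0,0,0,900,900]))
  (.use (.H 2 0 4228) [(true,0,3,1)] (.leaf
  [64,0,0,0,0,0,117,0,0,0,0,0,0,0,0,0,0,0,0,0,0,0,276,0,0,0,0,0,13,0,0,0,0,0,0,0,0,0,0,0,0,540,2340,2340,17280,8640]))))))))
  (.use (.H 0 0 3175) [(true,0,1,1)] (.split [0,0,-3,-4,0,1,1,1,1,1,1,1,1,1,1,0] (.use (.M 0 12)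
  [(false,0,1,1)] (.split [1,1,1,1,1,1,1,1,1,1,0,0,0,0,-5,0] (.use (.M 2 16) [(false,0,1,1)]
  (.use (.H 2 1 4196) [(false,25,3,1)] (.use (.H 1 2 3402) [(false,8,2,1)] (.use (.H 0 0 3175)
  [(true,7,1,1)] (.split [1,1,1,1,1,1,0,1,1,1,-2,-2,-2,-2,-2,0] (.use (.E 1 0 1) [(false,0,1,1)]
  (.leaf
  [7,300,2,0,0,17,0,1,0,0,0,0,0,0,0,0,0,0,0,0,0,0,0,0,0,4,0,0,0,0,0,0,0,0,0,0,0,0,0,0,0,0,0,0,0,0,510,210,0,810]))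
  (.use (.E 1 0 1) [(true,0,1,1)] (.use (.H 2 1 4196) [(false,30,3,1)] (.use (.H 0 0 3175)
  [(true,11,1,1)] (.split [1,2,3,0,0,0,0,1,0,0,0,0,1,0,0,-1] (.use (.H 2 0 4231) [(false,0,3,1)]
  (.use (.E 1 0 1) [(true,5,1,1)] (.use (.H 2 1 4196) [(false,35,3,1)] (.split
  [1,2,0,4,0,1,2,0,0,0,1,2,0,0,0,-1] (.use (.H 0 0 3179) [(false,0,1,1)] (.use (.H 2 0 4231)
  [(false,5,3,1)] (.use (.H 0 0 3175) [(true,19,1,1)] (.use (.H 2 1 4196) [(false,40,3,1)] (.use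
  (.M 1 16) [(true,47,1,1)] (.use (.H 2 1 4196) [(false,42,3,1)] (.use (.H 0 0 3175)
  [(true,23,1,1)] (.split [1,1,1,1,1,0,0,-3,-4,-5,1,1,1,1,1,0] (.use (.M 1 28) [(false,0,1,1)]
  (.split [1,2,3,0,0,0,0,1,0,0,0,0,0,0,0,-1] (.use (.H 2 0 135) [(false,0,3,1)] (.leaf
  [26,0,117,0,78,0,0,0,0,0,0,0,0,0,0,0,0,0,0,0,0,0,0,147,0,15,0,0,0,0,0,0,0,0,0,0,0,0,0,0,0,0,0,93,0,0,0,0,0,0,0,0,0,0,0,0,0,0,0,0,0,0,900,4680,4320,1080,0,11520]))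
  (.leaf
  [120,0,0,2,0,0,0,0,0,0,0,0,0,0,0,0,0,0,0,0,0,0,10,0,6,0,0,0,0,0,0,0,0,0,0,0,0,0,0,0,0,0,13,0,0,0,0,0,0,0,0,0,0,0,0,0,0,0,0,0,0,180,0,300,1020,0,660])))
  (.use (.M 1 28) [(true,0,1,1)] (.use (.H 2 1 4196) [(false,46,3,1)] (.split
  [1,2,0,0,0,1,2,3,0,0,1,0,0,0,0,-1] (.use (.H 0 0 1251) [(false,0,1,1)] (.use (.M 1 28)
  [(true,4,1,1)] (.leaf
  [13,20,0,0,0,0,0,0,0,0,0,0,0,0,0,0,0,0,0,0,0,0,0,0,0,27,0,0,0,0,0,0,0,0,0,0,0,0,0,0,0,0,0,10,0,20,0,0,0,0,0,0,0,0,0,0,0,0,0,0,0,0,0,0,0,0,1080,1020,0,2200])))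
  (.use (.H 0 0 1251) [(true,0,1,1)] (.use (.H 0 0 3179) [(false,12,1,1)] (.use (.M 1 28)
  [(true,5,1,1)] (.leaf
  [218,222,0,0,0,0,0,4,0,0,0,0,0,0,0,0,0,0,0,0,0,0,0,0,0,0,251,0,28,0,0,0,0,0,0,0,0,0,0,0,0,0,0,0,0,0,230,0,0,0,0,0,0,0,0,0,0,0,0,0,0,0,0,0,0,0,0,10860,0,0,22380])))))))))))))))
  (.use (.H 0 0 3179) [(true,0,1,1)] (.leaf
  [4,0,0,2,0,0,0,0,0,0,0,0,0,8,0,6,0,0,0,0,0,0,0,0,0,0,0,0,0,0,0,7,0,5,0,0,0,0,0,0,0,0,0,0,0,0,0,0,0,0,0,0,180,0,240,960,0,600]))))))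
  (.leaf
  [120,2,0,0,0,0,0,0,10,0,6,0,0,0,0,0,0,0,0,0,0,0,0,0,0,0,0,0,13,0,0,0,0,0,0,0,0,0,0,0,0,0,0,0,0,0,0,180,0,300,1020,0,660]))))))))))
  (.use (.M 2 16) [(true,0,1,1)] (.use (.H 2 2 3204) [(false,29,3,1)] (.use (.H 2 1 4196)
  [(false,26,3,1)] (.use (.H 2 2 3204) [(false,31,3,1)] (.use (.H 0 0 3175) [(true,8,1,1)] (.use
  (.M 1 16) [(true,35,1,1)] (.use (.H 2 2 3204) [(false,34,3,1)] (.use (.H 0 0 3175)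
  [(true,11,1,1)] (.use (.H 1 0 10313) [(false,20,2,1)] (.use (.M 2 16) [(true,9,1,1)] (.use (.H
  2 1 4196) [(false,34,3,1)] (.use (.H 1 0 10313) [(false,23,2,1)] (.use (.H 2 2 3204)
  [(false,40,3,1)] (.use (.H 1 2 3402) [(false,19,2,1)] (.split
  [1,1,1,1,1,1,1,1,1,1,0,0,0,-4,-5,0] (.use (.M 2 24) [(false,0,1,1)] (.split
  [0,1,0,2,0,1,2,0,0,0,0,0,0,2,0,-1] (.use (.H 1 1 8298) [(false,0,2,1)] (.split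
  [-2,-2,-2,-2,-2,1,1,1,1,1,1,1,1,0,1,0] (.use (.E 2 1 3) [(false,0,1,1)] (.split
  [1,2,3,0,0,0,0,1,0,0,0,0,1,0,0,-1] (.use (.H 2 0 4231) [(false,0,3,1)] (.split
  [1,0,3,0,0,0,0,0,1,0,0,0,0,1,0,-1] (.use (.H 3 0 8453) [(false,0,4,1)] (.use (.H 2 2 3204)
  [(false,52,3,1)] (.use (.H 2 0 4231) [(false,4,3,1)] (.split
  [1,2,0,4,0,0,1,0,0,0,0,0,0,2,0,-1] (.use (.H 1 0 8267) [(false,0,2,1)] (.split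
  [0,0,0,1,0,1,2,3,0,0,0,0,0,1,0,-1] (.use (.H 3 1 8424) [(false,0,4,1)] (.split
  [1,1,1,1,1,0,0,0,-4,-5,1,1,1,1,1,0] (.use (.M 1 24) [(false,0,1,1)] (.split
  [0,0,3,0,0,0,0,0,1,0,0,0,0,1,0,-1] (.use (.H 3 0 8452) [(false,0,4,1)] (.leaf
  [6,0,55,0,0,0,0,0,0,0,0,0,0,0,0,0,0,0,55,0,0,0,0,0,0,0,38,0,0,0,0,0,0,0,0,15,0,0,0,0,0,0,0,0,0,0,0,0,0,0,0,0,0,44,0,0,0,0,0,0,0,0,0,0,0,0,0,0,0,0,0,0,0,1440,1440,0,0,3400]))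
  (.use (.H 3 0 8452) [(true,0,4,1)] (.leaf
  [125,0,48,0,0,0,0,0,0,0,0,0,0,0,0,0,0,0,282,0,0,0,0,0,0,0,0,0,0,0,0,0,0,0,0,0,0,0,0,0,0,0,0,0,0,0,0,0,0,0,0,0,0,620,0,0,0,0,0,0,0,0,0,0,0,0,0,0,0,0,0,0,0,1920,11280,23400]))))
  (.use (.M 1 24) [(true,0,1,1)] (.use (.M 2 16) [(true,32,1,1)] (.split
  [0,1,0,2,0,1,2,3,0,0,0,1,0,2,0,-1] (.use (.H 1 1 10474) [(false,0,2,1)] (.split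
  [1,0,0,0,0,1,2,0,4,0,1,2,0,0,0,-1] (.use (.H 0 0 3425) [(false,0,1,1)] (.split
  [1,2,3,0,0,0,0,0,1,0,0,0,0,1,0,-1] (.use (.H 3 0 8455) [(false,0,4,1)] (.split
  [1,1,1,1,1,0,0,-3,-4,-5,1,1,1,1,1,0] (.use (.M 1 28) [(false,0,1,1)] (.leaf
  [66,0,11,0,0,0,44,0,12,0,0,0,0,0,0,0,0,0,0,0,0,0,0,0,0,210,0,0,0,0,0,0,0,88,0,0,0,0,0,0,0,0,22,0,0,0,0,0,0,0,0,0,0,0,0,0,0,0,0,0,220,0,0,0,0,0,0,0,0,0,0,0,0,0,0,0,0,0,0,0,2640,5760,10560,0,12080]))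
  (.use (.M 1 28) [(true,0,1,1)] (.split [1,0,0,0,0,1,2,3,0,0,1,0,0,0,0,-1] (.use (.H 0 0 1249)
  [(false,0,1,1)] (.leaf
  [22,0,88,0,0,0,88,0,77,0,14,0,0,0,0,0,0,0,0,0,0,0,0,0,0,0,0,190,0,0,0,0,0,0,0,0,0,0,0,0,0,0,0,0,22,0,0,0,0,0,0,0,0,0,0,0,0,0,0,0,0,0,154,0,0,0,0,0,0,0,0,0,0,0,0,0,0,0,0,0,0,0,0,6720,0,0,15120]))
  (.use (.H 0 0 1249) [(true,0,1,1)] (.leaf
  [36,0,29,0,0,0,0,0,45,0,30,0,0,0,0,0,0,0,0,0,0,0,0,0,0,0,0,45,0,0,0,0,0,0,0,0,0,0,0,0,0,0,0,0,21,0,0,0,0,0,0,0,0,0,0,0,0,0,0,0,0,0,42,0,0,0,0,0,0,0,0,0,0,0,0,0,0,0,0,0,0,0,0,0,0,0,1060]))))))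
  (.use (.H 3 0 8455) [(true,0,4,1)] (.leaf
  [3,0,0,0,3,0,0,3,0,0,0,0,0,0,0,0,0,0,0,0,0,0,0,12,0,0,0,0,0,0,0,0,0,0,0,0,0,0,0,0,0,0,0,0,0,0,0,0,0,0,0,0,0,0,0,0,0,0,16,0,0,0,0,0,0,0,0,0,0,0,0,0,0,0,0,0,0,0,0,360,360,0,200]))))
  (.use (.H 0 0 3425) [(true,0,1,1)] (.leaf
  [84,0,3,0,0,114,0,0,0,30,0,0,0,0,0,0,0,0,0,0,0,146,0,0,0,0,0,0,0,6,0,0,0,0,0,0,0,0,0,0,0,0,0,0,0,0,0,0,0,0,0,0,0,0,0,0,72,0,0,0,0,0,0,0,0,0,0,0,0,0,0,0,0,0,0,0,0,4260,0,0,4600]))))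
  (.use (.H 1 1 10474) [(true,0,2,1)] (.split [1,2,3,0,0,0,0,0,1,0,0,0,0,1,0,-1] (.use (.H 3 0
  8455) [(false,0,4,1)] (.use (.H 2 0 4231) [(false,16,3,1)] (.split
  [0,1,0,2,0,0,1,0,2,0,1,0,0,4,0,-1] (.use (.H 1 2 9546) [(false,0,2,1)] (.split
  [1,2,0,0,0,1,2,3,4,0,1,2,0,0,0,-1] (.use (.H 0 0 3555) [(false,0,1,1)] (.leaf
  [572,0,33,0,0,0,0,0,0,70,396,0,154,0,0,0,0,0,0,0,0,0,0,0,0,0,730,0,0,0,0,0,0,0,66,0,0,0,0,0,0,0,0,0,0,0,0,0,0,0,0,0,0,0,0,0,0,0,0,0,0,704,0,0,0,0,0,0,0,0,0,0,0,0,0,0,0,0,0,0,0,0,28320,0,0,60200]))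
  (.use (.H 0 0 3555) [(true,0,1,1)] (.use (.H 2 0 4231) [(false,21,3,1)] (.split
  [1,1,1,1,1,0,0,-3,0,-5,1,1,1,1,1,0] (.use (.M 1 20) [(false,0,1,1)] (.leaf
  [960,0,616,364,0,84,0,0,0,0,0,0,0,372,0,161,0,0,0,0,0,0,0,0,0,0,0,0,0,1540,0,0,0,0,0,0,0,280,0,0,0,0,0,0,0,0,196,0,0,0,0,0,0,0,0,0,0,0,0,0,0,0,0,0,0,0,0,0,0,0,0,0,0,0,0,0,0,0,0,0,0,0,0,28560,19440,48720,0,0,124160]))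
  (.use (.M 1 20) [(true,0,1,1)] (.split [1,2,0,0,0,1,2,3,0,0,1,2,0,0,0,-1] (.use (.H 0 0 3299)
  [(false,0,1,1)] (.leaf
  [8,0,0,0,0,0,0,2,0,0,0,0,0,0,0,4,0,1,0,0,0,0,0,0,0,0,0,0,0,0,0,10,0,0,0,0,0,0,0,4,0,0,0,0,0,0,0,0,0,0,0,0,0,0,0,0,0,0,0,0,0,0,0,0,0,0,16,0,0,0,0,0,0,0,0,0,0,0,0,0,0,0,0,0,0,0,0,480,600,0,800]))
  (.use (.H 0 0 3299) [(true,0,1,1)] (.use (.H 2 0 4231) [(false,26,3,1)] (.split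
  [1,1,1,1,1,0,0,-3,-4,-5,1,1,1,1,1,0] (.use (.M 1 28) [(false,0,1,1)] (.use (.H 0 0 3175)
  [(true,54,1,1)] (.split [0,1,0,0,0,1,2,3,0,0,0,1,0,2,0,-1] (.use (.H 1 1 10466)
  [(false,0,2,1)] (.leaf
  [216,0,372,764,0,384,496,0,0,0,0,0,0,24,0,0,0,0,0,0,0,0,0,1,0,0,0,0,0,0,0,0,0,0,0,0,0,944,0,0,0,0,0,0,0,0,0,0,0,0,0,0,0,0,0,0,0,0,0,0,0,0,0,0,0,0,0,0,0,0,0,0,0,0,0,0,0,0,0,0,0,0,0,0,0,0,0,0,0,0,0,21360,32880,29040,0,0,72640]))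
  (.use (.H 1 1 10466) [(true,0,2,1)] (.split [0,0,1,0,0,0,0,1,0,0,1,2,0,4,0,-1] (.use (.H 2 2
  11396) [(false,0,3,1)] (.leaf
  [760,0,1668,0,1788,2844,0,1256,0,0,0,0,0,0,0,0,0,0,0,0,0,0,0,0,0,453,0,0,0,0,0,0,0,0,0,0,0,0,0,888,0,0,0,0,0,0,0,0,0,0,0,0,0,0,0,0,576,0,0,0,0,0,0,0,0,0,0,0,0,0,0,0,0,0,0,0,0,0,0,0,0,0,0,0,0,0,0,0,0,0,0,0,0,39600,71280,45360,59040]))
  (.use (.H 2 2 11396) [(true,0,3,1)] (.leaf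
  [32,0,120,0,0,648,0,624,756,0,0,0,0,0,0,144,0,0,0,0,0,0,0,0,0,279,0,0,0,0,0,0,0,0,0,0,0,0,0,1740,0,0,0,0,0,0,0,0,0,0,0,0,0,0,0,0,468,0,0,0,0,0,0,0,0,0,0,0,0,0,0,0,0,0,0,0,0,0,0,0,0,0,0,0,0,0,0,0,0,0,0,0,0,28080,42480,52560,10080,0,128160])))))))
  (.use (.M 1 28) [(true,0,1,1)] (.leaf
  [32,0,8,28,0,0,0,0,0,0,14,0,0,0,0,0,0,28,0,0,23,0,0,0,0,0,0,0,0,0,0,0,0,0,110,0,0,0,0,0,0,0,0,0,0,0,0,0,0,0,0,48,0,0,0,0,0,0,0,0,0,0,0,0,0,0,0,0,0,96,0,0,0,0,0,0,0,0,0,0,0,0,0,0,0,0,0,0,0,0,2160,3240,0,6080]))))))))))))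
  (.use (.H 1 2 9546) [(true,0,2,1)] (.leaf
  [38,0,0,34,0,22,0,0,36,0,49,0,0,0,0,0,0,0,0,0,0,0,0,0,120,0,0,0,0,0,0,0,44,0,0,0,0,0,0,0,0,0,0,0,0,0,0,0,0,0,0,0,0,0,0,0,0,0,0,36,0,0,0,0,0,0,0,0,0,0,0,0,0,0,0,0,0,0,480,0,3600,0,0,400])))))
  (.use (.H 3 0 8455) [(true,0,4,1)] (.use (.H 3 0 8453) [(false,14,4,1)] (.split
  [1,1,1,1,1,1,1,1,1,1,0,0,0,-4,0,0] (.use (.M 2 8) [(false,0,1,1)] (.leaf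
  [160,0,21,53,0,0,0,0,84,0,63,0,0,0,0,0,0,0,0,0,0,0,0,0,32,0,0,0,0,0,0,0,0,0,0,0,0,0,0,0,0,54,0,0,0,0,0,0,0,0,0,0,0,0,0,0,0,0,0,236,0,0,0,0,0,0,0,0,0,0,0,0,0,0,0,0,0,0,0,0,960,0,6360]))
  (.use (.M 2 8) [(true,0,1,1)] (.leaf
  [2,0,0,3,0,0,0,0,0,0,0,0,0,0,0,0,0,0,0,0,0,0,0,0,8,0,0,0,0,0,0,0,0,0,0,0,0,0,0,0,0,4,0,0,0,0,0,0,0,0,0,0,0,0,0,0,0,0,0,20,0,0,0,0,0,0,0,0,0,0,0,0,0,0,0,0,0,0,0,0,240,960,0,80]))))))))))))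
  (.use (.H 3 1 8424) [(true,0,4,1)] (.split [1,2,3,0,0,0,1,0,0,0,0,1,0,2,0,-1] (.use (.H 1 0
  10311) [(false,0,2,1)] (.leaf
  [33,0,12,0,0,0,20,0,0,0,0,0,0,0,0,0,48,0,0,0,0,0,0,0,54,0,0,0,0,0,0,0,0,0,0,0,0,0,0,0,0,0,0,0,0,0,0,0,0,0,0,18,0,0,0,0,0,0,0,0,0,0,0,0,0,0,0,0,0,0,2160,0,1440,6480]))
  (.use (.H 1 0 10311) [(true,0,2,1)] (.leaf
  [39,0,90,0,93,0,176,0,0,0,0,0,0,0,0,0,216,0,0,0,0,0,0,0,18,0,0,0,0,0,0,0,0,0,0,0,0,0,0,0,0,0,0,0,0,0,0,0,0,0,0,9,0,0,0,0,0,0,0,0,0,0,0,0,0,0,0,0,0,0,9540,0,6480,30960]))))))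
  (.use (.H 1 0 8267) [(true,0,2,1)] (.leaf
  [21,0,2,0,0,0,0,0,0,0,21,0,30,0,0,0,0,0,0,0,30,0,0,0,0,0,0,0,0,0,0,0,0,0,0,0,0,0,0,0,0,0,0,0,0,0,0,0,0,0,0,0,0,0,0,0,0,0,0,0,0,0,0,0,0,0,1800,360,900,360]))))))
  (.use (.H 3 0 8453) [(true,0,4,1)] (.leaf
  [31,0,0,0,40,0,0,0,86,0,0,0,0,0,0,0,0,0,0,0,0,0,0,0,0,0,0,0,0,0,0,0,0,0,0,0,0,0,0,0,0,0,0,172,0,0,0,0,0,0,0,0,0,0,0,0,0,0,0,0,0,0,0,0,2400,6840]))))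
  (.use (.H 2 0 4231) [(true,0,3,1)] (.split [1,0,3,0,0,0,0,0,1,0,0,0,0,1,0,-1] (.use (.H 3 0
  8453) [(false,0,4,1)] (.use (.M 1 16) [(true,54,1,1)] (.split
  [1,1,1,1,1,1,1,1,1,1,0,0,0,-4,0,0] (.use (.M 2 8) [(false,0,1,1)] (.split
  [0,0,1,0,0,1,2,3,4,0,0,0,1,0,0,-1] (.use (.H 2 1 4580) [(false,0,3,1)] (.leaf
  [262,0,0,0,306,33,0,326,0,0,0,66,0,462,0,0,44,0,0,0,0,0,0,0,0,0,0,0,0,0,384,0,0,0,0,0,0,0,0,0,0,0,0,0,0,0,0,0,828,0,0,0,0,0,0,0,0,0,0,0,0,0,0,0,0,0,0,0,0,15840,0,20160]))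
  (.use (.H 2 1 4580) [(true,0,3,1)] (.leaf
  [56,0,585,0,36,195,0,550,0,0,0,390,0,390,0,0,260,0,0,0,0,0,0,0,0,0,0,0,0,0,480,0,0,0,0,0,0,0,0,0,0,0,0,0,0,0,0,0,1830,0,0,0,0,0,0,0,0,0,0,0,0,0,0,0,0,0,0,0,10080,23400,67500]))))
  (.use (.M 2 8) [(true,0,1,1)] (.leaf
  [1,0,0,0,0,2,0,0,0,0,0,4,0,0,0,0,0,0,0,0,0,0,0,0,0,0,0,0,2,0,0,0,0,0,0,0,0,0,0,0,0,0,0,0,0,0,10,0,0,0,0,0,0,0,0,0,0,0,0,0,0,0,0,0,0,0,0,120,480,0,40])))))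
  (.use (.H 3 0 8453) [(true,0,4,1)] (.leaf
  [55,0,0,0,55,0,9,0,143,0,0,2,0,0,0,0,6,0,0,0,0,0,0,0,0,0,0,0,0,0,0,0,0,0,0,0,0,0,0,0,0,0,0,307,0,0,0,0,0,0,0,0,0,0,0,0,0,0,0,0,0,0,0,360,4380,11880]))))))
  (.leaf
  [600,3,0,23,0,0,0,0,0,0,0,6,0,0,0,0,0,0,0,0,3,0,0,0,0,0,0,0,0,0,0,0,0,0,0,0,0,0,18,0,0,0,0,0,0,0,0,0,0,0,0,0,0,0,0,0,0,0,0,690,2070,0,1030])))
  (.use (.H 1 1 8298) [(true,0,2,1)] (.leaf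
  [375,0,66,0,0,88,375,0,0,0,0,0,0,0,0,0,0,0,0,312,0,0,0,0,0,0,0,0,0,0,0,0,0,0,0,0,0,0,0,0,0,0,0,0,0,0,0,0,0,0,0,0,0,0,0,0,19440,0,7920,27720]))))
  (.use (.M 2 24) [(true,0,1,1)] (.use (.M 1 16) [(true,46,1,1)] (.use (.M 2 24) [(true,2,1,1)]
  (.split [1,2,3,0,0,0,0,1,0,0,0,0,1,0,0,-1] (.use (.H 2 0 4231) [(false,0,3,1)] (.split
  [0,1,0,2,0,1,0,3,0,0,0,1,0,0,0,-1] (.use (.H 1 1 2218) [(false,0,2,1)] (.use (.H 1 2 3402)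
  [(false,28,2,1)] (.split [1,2,0,0,0,1,2,0,0,0,0,2,0,0,0,-1] (.use (.H 0 0 2147)
  [(false,0,1,1)] (.use (.H 2 0 4231) [(false,6,3,1)] (.split
  [1,1,1,1,1,0,0,0,-4,-5,1,1,1,1,1,0] (.use (.M 1 24) [(false,0,1,1)] (.use (.H 0 0 3175)
  [(true,32,1,1)] (.use (.H 2 1 4196) [(false,53,3,1)] (.use (.H 2 0 4231) [(false,11,3,1)]
  (.split [1,1,1,1,1,1,1,1,0,1,-2,-2,-2,-2,-2,0] (.use (.E 1 0 3) [(false,0,1,1)] (.split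
  [1,1,1,1,1,0,0,0,-4,0,1,1,1,1,1,0] (.use (.M 1 8) [(false,0,1,1)] (.split
  [1,2,3,0,0,0,0,0,1,0,0,0,0,1,0,-1] (.use (.H 3 0 8455) [(false,0,4,1)] (.leaf
  [2,0,2,0,0,0,0,0,2,12,0,0,0,0,1,0,0,0,0,0,0,0,0,0,0,0,0,0,0,0,0,0,0,0,0,0,0,0,0,0,0,0,0,0,0,0,0,0,0,0,0,0,0,0,0,0,0,0,0,0,0,0,0,0,0,0,0,0,0,0,0,0,0,0,0,120,360,0,0,600,640]))
  (.use (.H 3 0 8455) [(true,0,4,1)] (.use (.H 2 1 4196) [(false,61,3,1)] (.split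
  [1,1,0,1,1,-2,-2,-2,-2,-2,1,1,1,1,1,0] (.use (.E 0 2 2) [(false,0,1,1)] (.use (.M 2 24)
  [(true,25,1,1)] (.use (.H 1 2 3402) [(false,47,2,1)] (.use (.M 2 24) [(true,27,1,1)] (.use (.H
  2 2 3204) [(false,71,3,1)] (.split [0,1,0,2,0,0,1,0,2,0,1,2,3,0,0,-1] (.use (.H 1 2 7498)
  [(false,0,2,1)] (.leaf
  [1,0,0,1,0,0,6,0,0,1,0,4,0,6,0,0,0,0,0,0,0,0,0,0,0,0,0,0,0,0,0,0,0,0,0,0,0,0,0,0,0,0,0,0,0,0,0,0,0,0,0,0,0,0,0,0,0,0,0,0,0,0,0,0,0,0,0,0,0,0,0,0,0,0,0,0,0,0,0,0,0,0,0,0,0,0,0,0,0,40]))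
  (.use (.H 1 2 7498) [(true,0,2,1)] (.use (.H 2 1 4196) [(false,70,3,1)] (.use (.H 1 2 3402)
  [(false,53,2,1)] (.split [1,0,3,0,0,0,0,0,1,0,0,0,0,1,0,-1] (.use (.H 3 0 8453)
  [(false,0,4,1)] (.use (.M 0 12) [(false,52,1,1)] (.use (.M 0 20) [(true,71,1,1)] (.split
  [0,0,1,0,0,0,0,1,0,0,1,2,3,4,0,-1] (.use (.H 2 2 15492) [(false,0,3,1)] (.leaf
  [476,0,2124,804,168,0,1464,1084,666,0,0,0,0,0,0,0,0,735,0,876,0,0,0,0,0,0,0,0,0,0,0,0,0,0,0,0,0,0,0,0,0,0,0,0,0,0,0,0,0,0,0,0,0,0,0,0,0,0,0,0,0,0,0,0,0,0,0,0,0,0,0,0,0,0,0,0,0,0,0,0,0,0,0,0,0,0,0,0,0,0,0,0,0,54720,60480]))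
  (.leaf
  [9360,1512,108,222,0,606,404,54,0,0,0,0,0,0,0,0,507,0,1416,0,0,0,0,0,0,0,0,0,0,0,0,0,0,0,0,0,0,0,0,0,0,0,0,0,0,0,0,0,0,0,0,0,0,0,0,0,0,0,0,0,0,0,0,0,0,0,0,0,0,0,0,0,0,0,0,0,0,0,0,0,0,0,0,0,0,0,0,0,0,0,0,0,41040,15840,0,59760])))))
  (.use (.H 3 0 8453) [(true,0,4,1)] (.leaf
  [37,0,39,32,19,0,0,0,0,0,200,0,0,0,0,80,0,80,0,0,0,0,0,0,0,0,0,0,0,0,0,0,0,0,0,0,0,0,0,0,0,0,0,0,0,0,0,0,0,0,0,0,0,0,0,0,0,0,0,0,0,0,0,0,0,0,0,0,0,0,0,0,0,0,0,0,0,0,0,0,0,0,0,0,0,0,0,0,0,2400,1200]))))))))))))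
  (.leaf
  [600,0,3,0,58,0,116,0,0,0,0,0,0,0,0,0,0,0,0,0,0,0,0,0,0,0,0,0,0,0,0,0,0,0,0,0,0,0,0,0,0,0,0,0,0,0,0,0,0,0,0,0,0,0,0,0,0,0,0,0,0,0,0,0,0,0,0,0,0,0,0,0,0,0,0,0,0,0,0,0,0,6120,1800]))))))
  (.use (.M 1 8) [(true,0,1,1)] (.leaf
  [7,0,2,0,0,0,6,44,0,0,0,0,3,0,0,0,0,0,0,0,0,0,0,0,0,0,0,0,0,0,0,0,0,0,0,0,3,0,0,0,0,0,0,0,0,0,0,0,0,0,0,0,0,0,18,0,0,0,0,0,0,0,0,0,0,0,0,0,0,0,0,0,0,0,1320,0,0,2460,2080]))))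
  (.leaf
  [2280,0,0,18,76,0,0,0,0,9,0,0,0,0,0,0,0,0,0,0,0,0,0,0,0,0,0,0,0,0,0,0,0,12,0,0,0,0,0,0,0,0,0,0,0,0,0,0,0,0,0,54,0,0,0,0,0,0,0,0,0,0,0,0,0,0,0,0,0,0,0,2280,0,0,0,3440]))))))
  (.use (.M 1 24) [(true,0,1,1)] (.use (.H 2 1 4196) [(false,52,3,1)] (.use (.H 1 2 3402)
  [(false,35,2,1)] (.use (.H 2 0 4231) [(false,11,3,1)] (.use (.M 2 24) [(true,16,1,1)] (.use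
  (.H 2 2 3204) [(false,60,3,1)] (.use (.H 0 0 3175) [(true,37,1,1)] (.use (.H 2 0 4231)
  [(false,15,3,1)] (.split [0,1,0,2,0,1,0,3,0,0,0,1,0,2,0,-1] (.use (.H 1 1 10410)
  [(false,0,2,1)] (.split [1,1,1,1,1,0,0,-3,-4,-5,1,1,1,1,1,0] (.use (.M 1 28) [(false,0,1,1)]
  (.split [1,0,3,0,0,0,0,0,1,0,0,0,0,1,0,-1] (.use (.H 3 0 8453) [(false,0,4,1)] (.split
  [0,0,1,0,0,0,0,1,0,0,1,2,0,4,0,-1] (.use (.H 2 2 11396) [(false,0,3,1)] (.split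
  [0,0,1,0,0,0,0,1,0,0,1,2,3,0,0,-1] (.use (.H 2 2 7300) [(false,0,3,1)] (.split
  [1,2,3,0,0,0,1,0,0,0,0,1,0,2,0,-1] (.use (.H 1 0 10311) [(false,0,2,1)] (.split
  [0,1,0,2,0,1,2,3,0,0,0,1,0,0,0,-1] (.use (.H 1 1 2282) [(false,0,2,1)] (.leaf
  [159,0,198,0,334,0,22,0,0,0,726,0,0,0,128,900,0,462,0,252,0,633,0,0,0,0,0,0,0,0,0,0,0,0,0,0,0,0,0,0,0,0,0,0,0,0,0,0,0,0,60,0,0,0,0,0,0,0,0,0,0,0,0,0,0,0,0,0,774,0,0,0,0,0,0,0,0,0,0,0,0,0,0,0,0,0,0,0,0,0,0,0,8160]))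
  (.use (.H 1 1 2282) [(true,0,2,1)] (.leaf
  [21,0,38,0,114,0,26,0,0,0,228,0,0,0,40,76,0,154,0,21,0,207,0,0,0,0,0,0,0,0,0,0,0,0,0,0,0,0,0,0,0,0,0,0,0,0,0,0,0,0,178,0,0,0,0,0,0,0,0,0,0,0,0,0,0,0,225,0,20,0,0,0,0,0,0,0,0,0,0,0,0,0,0,0,0,0,0,2040,0,0,7680,0,14560]))))
  (.use (.H 1 0 10311) [(true,0,2,1)] (.leaf
  [68,0,0,0,80,0,0,0,276,0,0,0,104,82,0,104,0,77,0,199,0,0,0,0,0,0,0,0,0,0,0,0,0,0,0,0,0,0,0,0,0,0,0,0,0,0,0,0,17,0,0,0,0,0,0,0,0,0,0,0,0,0,0,0,0,0,102,0,0,0,0,0,0,0,0,0,0,0,0,0,0,0,0,0,0,3840,0,0,0,4620,7000]))))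
  (.use (.H 2 2 7300) [(true,0,3,1)] (.leaf
  [530,0,956,0,0,0,3450,0,0,0,1344,2300,0,0,0,1150,0,2300,0,0,0,0,0,0,0,0,0,0,0,0,0,0,0,0,0,0,0,0,0,0,0,0,0,0,0,0,200,0,0,0,0,0,0,0,0,0,0,0,0,0,0,0,70,0,545,0,0,0,0,0,0,0,0,0,0,0,0,0,0,0,0,0,0,24300,0,25560,0,177600]))))
  (.use (.H 2 2 11396) [(true,0,3,1)] (.leaf
  [96,0,27,0,192,0,144,0,20,0,0,234,0,0,0,102,0,0,0,0,0,0,0,0,0,0,0,0,0,0,0,0,0,0,0,0,0,0,0,0,0,0,0,0,60,0,0,0,0,0,0,0,0,0,0,0,0,0,0,0,0,0,120,0,0,0,0,0,0,0,0,0,0,0,0,0,0,0,0,0,0,0,2160]))))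
  (.leaf
  [6480,102,0,0,0,34,18,34,105,0,9,0,147,0,0,0,0,0,0,0,0,0,0,0,0,0,0,0,0,0,0,0,0,0,0,0,0,0,0,0,0,12,0,0,0,0,0,0,0,0,0,0,0,0,0,0,0,0,0,174,0,0,0,0,0,0,0,0,0,0,0,0,0,0,0,0,0,0,0,0,0,0,2520,1680])))
  (.use (.M 1 28) [(true,0,1,1)] (.split [1,0,3,0,0,0,1,0,0,0,0,1,0,2,0,-1] (.use (.H 1 0 10309)
  [(false,0,2,1)] (.split [0,0,1,0,0,0,0,1,0,0,1,2,3,0,0,-1] (.use (.H 2 2 7300) [(false,0,3,1)]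
  (.split [0,1,0,2,0,1,2,0,0,0,0,1,0,2,0,-1] (.use (.H 1 1 10346) [(false,0,2,1)] (.split
  [1,2,3,0,0,0,1,0,0,0,0,1,0,0,0,-1] (.use (.H 1 0 2119) [(false,0,2,1)] (.split
  [1,0,0,0,0,1,2,3,0,0,1,2,0,0,0,-1] (.use (.H 0 0 3297) [(false,0,1,1)] (.split
  [1,2,0,0,0,1,2,0,0,0,1,2,3,0,0,-1] (.use (.H 0 0 7267) [(false,0,1,1)] (.split
  [0,0,1,0,0,1,2,3,0,0,0,0,1,0,0,-1] (.use (.H 2 1 4324) [(false,0,3,1)] (.split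
  [0,1,0,2,0,0,1,0,2,0,1,2,3,0,0,-1] (.use (.H 1 2 7498) [(false,0,2,1)] (.leaf
  [81,0,46,0,156,0,150,0,0,0,75,0,44,0,0,0,216,0,0,0,0,162,0,219,0,0,0,0,0,0,0,0,0,0,0,0,0,0,0,0,0,0,0,0,0,0,0,0,0,0,0,0,0,0,0,0,0,0,0,0,0,0,0,0,0,0,0,0,0,0,0,0,0,0,360,0,0,0,0,0,0,0,0,0,0,0,0,0,0,0,0,0,0,0,0,0,0,0,8760]))
  (.leaf
  [1800,20,0,264,0,0,0,72,0,0,0,24,0,0,0,192,0,0,0,0,114,0,153,0,0,0,0,0,0,0,0,0,0,0,0,0,0,0,0,0,0,0,0,0,0,0,0,0,0,0,0,0,0,0,0,0,0,0,0,0,0,0,0,0,0,0,0,0,0,0,0,0,0,48,0,0,0,0,0,0,0,0,0,0,0,0,0,0,0,0,0,0,9360,0,0,0,2880,10800])))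
  (.use (.H 2 1 4324) [(true,0,3,1)] (.leaf
  [36,0,72,0,24,0,117,0,48,0,68,0,0,0,156,0,0,0,0,150,0,84,0,0,0,0,0,0,0,0,0,0,0,0,0,0,0,0,0,0,0,0,0,0,0,0,0,0,0,0,0,0,0,0,0,0,0,0,0,0,0,0,0,0,0,0,0,0,0,0,0,0,36,0,0,0,0,0,0,0,0,0,0,0,0,0,0,0,0,0,0,4680,0,720]))))
  (.use (.H 0 0 7267) [(true,0,1,1)] (.split [0,1,0,2,0,0,1,0,2,0,1,0,3,0,0,-1] (.use (.H 1 2
  5450) [(false,0,2,1)] (.leaf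
  [177,0,537,0,0,0,273,0,165,0,188,0,0,0,282,0,0,0,0,363,0,0,0,0,172,0,0,0,0,0,0,0,0,0,0,0,0,0,0,0,0,0,0,0,0,0,0,0,0,0,0,0,0,0,393,0,0,0,0,0,0,0,0,0,0,0,0,0,0,0,0,0,0,0,0,0,0,0,0,0,0,0,0,0,0,0,0,0,0,0,0,12960,0,10800,0,15300,1680]))
  (.use (.H 1 2 5450) [(true,0,2,1)] (.leaf
  [18,0,30,0,0,0,24,0,0,0,20,0,0,0,42,0,0,0,0,72,0,0,0,27,34,0,0,0,0,0,0,0,0,0,0,0,0,0,0,0,0,0,0,0,0,0,0,0,0,0,0,0,0,0,57,0,0,0,0,0,0,0,0,0,0,0,0,0,0,0,0,0,0,0,0,0,0,0,0,0,0,0,0,0,0,0,0,0,0,0,0,2880,0,1800,0,1980,600]))))))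
  (.use (.H 0 0 3297) [(true,0,1,1)] (.leaf
  [222,0,177,0,34,0,114,0,32,0,224,0,0,0,0,250,0,132,0,27,18,0,0,0,0,0,0,0,0,0,0,0,0,0,0,0,0,0,0,0,0,0,0,0,0,0,0,0,0,0,140,0,0,0,0,0,0,0,0,0,0,0,0,0,0,0,0,0,0,0,0,0,0,0,0,0,0,0,0,0,0,0,0,0,0,0,0,11520,0,0,5400]))))
  (.use (.H 1 0 2119) [(true,0,2,1)] (.leaf
  [4,480,4,0,6,0,0,0,9,0,0,0,0,0,0,9,0,4,6,0,0,0,0,0,0,0,0,0,0,0,0,0,0,0,0,0,0,0,0,0,0,0,0,0,0,0,0,0,12,0,0,0,0,0,0,0,0,0,0,0,0,0,0,0,0,0,20,0,0,0,0,0,0,0,0,0,0,0,0,0,0,0,0,0,0,0,0,0,0,0,160]))))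
  (.leaf
  [207360,226,0,2478,0,2178,0,2067,0,0,2808,138,2178,0,2721,1952,0,0,0,0,0,0,0,0,0,0,0,0,0,0,0,0,0,0,0,0,0,0,0,0,0,0,0,0,0,2310,0,0,0,0,0,0,0,0,0,0,0,0,0,0,0,990,0,0,0,0,0,0,0,0,0,0,0,0,0,0,0,0,0,0,0,0,98640])))
  (.use (.H 2 2 7300) [(true,0,3,1)] (.leaf
  [6208,0,0,0,14136,0,6507,0,5086,3704,0,2468,0,8359,9798,0,0,0,0,0,0,0,0,0,0,0,0,0,0,0,0,0,0,0,0,0,0,0,0,0,0,0,0,0,14450,0,0,0,0,0,0,0,0,0,0,0,0,0,0,0,3100,0,1430,0,0,0,0,0,0,0,0,0,0,0,0,0,0,0,0,0,0,164520,0,0,0,1750200]))))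
  (.use (.H 1 0 10309) [(true,0,2,1)] (.split [1,0,3,0,0,0,0,0,1,0,0,0,0,1,0,-1] (.use (.H 3 0
  8453) [(false,0,4,1)] (.split [0,0,1,0,0,0,0,1,0,0,1,2,0,4,0,-1] (.use (.H 2 2 11396)
  [(false,0,3,1)] (.leaf
  [268,0,75,0,498,0,300,0,0,0,0,0,0,348,0,0,300,0,0,0,0,0,0,0,0,0,0,0,0,0,0,0,0,0,0,0,0,0,0,0,0,0,0,0,0,0,420,0,0,0,0,0,0,0,0,0,0,0,0,0,0,0,0,0,312,0,0,0,0,0,0,0,0,0,0,0,0,0,0,0,0,0,0,19440]))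
  (.use (.H 2 2 11396) [(true,0,3,1)] (.split [1,2,0,4,0,0,1,0,0,0,0,1,0,2,0,-1] (.use (.H 1 0
  10315) [(false,0,2,1)] (.leaf
  [102,0,136,0,21,0,0,0,150,0,102,0,0,0,10,381,0,0,60,0,0,0,0,0,0,0,0,0,0,0,0,0,0,0,0,0,0,0,0,0,0,0,0,0,0,0,0,0,168,0,0,0,0,0,0,0,0,0,0,0,0,0,0,0,0,0,186,0,0,0,0,0,0,0,0,0,0,0,0,0,0,0,0,0,0,4320,0,0,6480]))
  (.use (.H 1 0 10315) [(true,0,2,1)] (.leaf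
  [75,0,0,0,0,0,84,0,78,0,21,0,0,0,0,138,0,0,40,0,0,0,0,0,0,0,0,0,0,0,0,0,0,0,0,0,0,0,0,0,0,0,0,0,0,0,0,0,84,0,0,0,0,0,0,0,0,0,0,0,0,0,0,0,0,0,0,0,0,0,0,0,0,0,0,0,0,0,0,0,0,0,0,0,0,11520]))))))
  (.use (.H 3 0 8453) [(true,0,4,1)] (.leaf
  [84,0,0,0,141,0,0,0,0,0,94,141,0,0,94,0,0,0,0,0,0,0,0,0,0,0,0,0,0,0,0,0,0,0,0,0,0,0,0,0,0,0,0,0,156,0,0,0,0,0,0,0,0,0,0,0,0,0,0,0,0,0,192,0,0,0,0,0,0,0,0,0,0,0,0,0,0,0,0,0,0,5040]))))))))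
  (.use (.H 1 1 10410) [(true,0,2,1)] (.split [1,2,0,4,0,0,1,0,0,0,0,1,0,2,0,-1] (.use (.H 1 0
  10315) [(false,0,2,1)] (.split [1,2,0,0,0,1,2,3,0,0,1,2,0,0,0,-1] (.use (.H 0 0 3299)
  [(false,0,1,1)] (.leaf
  [126,0,87,0,153,0,126,216,50,183,0,0,0,0,0,0,0,0,0,0,0,0,0,0,0,0,0,0,0,0,0,0,0,0,0,0,0,0,0,0,0,0,0,0,0,0,0,0,0,0,0,0,0,0,0,0,0,0,0,0,42,0,0,0,0,0,0,0,0,0,0,0,0,0,0,0,0,0,0,16200,2520,0,25920]))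
  (.use (.H 0 0 3299) [(true,0,1,1)] (.leaf
  [302,0,349,0,224,0,250,396,250,250,0,0,0,0,0,0,0,0,0,0,0,0,0,0,0,0,0,0,0,0,0,0,0,0,0,0,0,0,0,0,0,0,350,0,0,0,0,0,0,0,0,0,0,0,0,0,0,0,0,0,128,0,0,0,0,0,0,0,0,0,0,0,0,0,0,0,0,0,0,35160,0,0,75000]))))
  (.use (.H 1 0 10315) [(true,0,2,1)] (.split [0,1,0,2,0,1,2,0,0,0,0,1,0,2,0,-1] (.use (.H 1 1
  10346) [(false,0,2,1)] (.leaf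
  [9,0,18,0,12,0,8,18,8,33,0,0,0,0,0,0,0,0,0,0,0,0,0,0,0,0,0,0,0,0,0,0,0,0,0,0,0,0,0,0,0,0,30,0,0,0,0,0,0,0,0,0,0,0,0,0,0,0,45,0,0,0,0,0,0,0,0,0,0,0,0,0,0,0,0,0,0,0,0,2160,0,0,5400]))
  (.use (.H 1 1 10346) [(true,0,2,1)] (.leaf
  [12,0,9,0,10,0,0,0,0,31,0,0,0,0,0,0,0,0,0,0,0,0,0,0,0,0,0,0,0,0,0,0,0,0,0,0,0,0,0,0,0,0,18,0,0,0,0,0,0,0,0,0,0,0,0,0,0,0,40,0,0,0,0,0,0,0,0,0,0,0,0,0,0,0,0,0,0,0,0,1080,960,0,3240]))))))))))))))))))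
  (.use (.H 0 0 2147) [(true,0,1,1)] (.leaf
  [346,0,188,15,0,0,0,0,10,0,0,0,0,0,0,0,0,0,0,0,0,0,0,0,0,0,254,0,0,0,0,0,0,0,0,0,0,0,0,0,0,0,0,0,440,0,0,0,0,0,0,0,0,0,0,0,0,0,0,0,0,0,0,2040,0,3600,42120,17160])))))
  (.use (.H 1 1 2218) [(true,0,2,1)] (.leaf
  [21,0,14,0,21,0,0,0,0,14,0,0,0,0,0,0,0,0,0,0,0,0,0,36,0,0,0,0,0,0,0,0,0,0,0,0,0,0,0,60,0,0,0,0,0,0,0,0,0,0,0,0,0,0,0,0,0,0,0,0,360,0,0,5760,360,360]))))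
  (.use (.H 2 0 4231) [(true,0,3,1)] (.split [0,0,1,0,0,1,0,3,0,0,0,0,1,0,0,-1] (.use (.H 2 1
  4260) [(false,0,3,1)] (.split [1,1,1,1,1,0,0,-3,0,-5,1,1,1,1,1,0] (.use (.M 1 20)
  [(false,0,1,1)] (.split [0,0,1,0,0,0,0,1,0,0,1,0,3,0,0,-1] (.use (.H 2 2 5252) [(false,0,3,1)]
  (.leaf
  [2,0,9,0,0,0,6,0,0,6,0,0,0,4,0,0,0,0,0,0,0,0,0,0,0,0,0,9,0,0,0,0,0,0,0,0,0,0,0,0,0,0,0,0,0,18,0,0,0,0,0,0,0,0,0,0,0,0,0,0,0,0,0,0,0,0,360,180,0,120]))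
  (.leaf
  [10800,1332,0,347,0,728,0,0,768,0,0,0,561,0,0,0,0,0,0,0,0,0,0,0,0,0,1092,0,0,0,0,0,0,0,0,0,0,0,0,0,0,0,0,0,1824,0,0,0,0,0,0,0,0,0,0,0,0,0,0,0,0,0,0,0,7200,30060,0,33120])))
  (.use (.M 1 20) [(true,0,1,1)] (.use (.H 2 1 4196) [(false,48,3,1)] (.use (.M 2 24)
  [(true,10,1,1)] (.split [1,1,1,1,1,0,0,0,-4,-5,1,1,1,1,1,0] (.use (.M 1 24) [(false,0,1,1)]
  (.use (.M 2 24) [(true,13,1,1)] (.split [0,2,0,0,0,1,0,0,0,0,1,0,3,0,0,-1] (.use (.H 0 0 5154)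
  [(false,0,1,1)] (.use (.H 1 2 3402) [(false,37,2,1)] (.use (.M 2 24) [(true,17,1,1)] (.split
  [0,0,0,0,0,0,0,0,1,0,1,0,3,0,0,-1] (.use (.H 3 2 5376) [(false,0,4,1)] (.split
  [0,1,0,0,0,0,0,0,2,0,1,0,3,0,0,-1] (.use (.H 1 2 5378) [(false,0,2,1)] (.use (.H 1 2 3402)
  [(false,43,2,1)] (.split [0,0,3,0,0,0,0,0,1,0,0,0,0,1,0,-1] (.use (.H 3 0 8452)
  [(false,0,4,1)] (.use (.H 2 1 4196) [(false,64,3,1)] (.use (.M 2 24) [(true,26,1,1)] (.split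
  [1,2,0,0,0,1,0,0,0,0,1,2,3,0,0,-1] (.use (.H 0 0 7203) [(false,0,1,1)] (.leaf
  [84,0,36,8,9,0,12,0,0,0,0,0,0,0,0,0,66,0,0,0,0,0,0,0,28,0,0,0,0,0,0,0,0,0,0,0,0,0,0,0,0,0,0,0,0,0,0,0,0,0,0,0,0,0,0,0,0,0,0,0,0,0,0,132,0,0,0,0,0,0,0,0,0,0,0,0,0,0,0,0,0,0,0,3600,0,3240,3240,3600]))
  (.use (.H 0 0 7203) [(true,0,1,1)] (.leaf
  [936,0,0,360,33,0,468,396,0,0,0,0,0,0,0,0,3180,0,0,0,0,0,0,0,1036,0,0,0,0,0,0,0,0,0,0,0,0,0,0,0,0,0,0,0,0,0,0,0,0,0,0,0,0,0,0,0,0,0,0,0,0,0,0,2688,0,0,0,0,0,0,0,0,0,0,0,0,0,0,0,0,0,0,0,111600,0,0,183600]))))))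
  (.use (.H 3 0 8452) [(true,0,4,1)] (.leaf
  [11,0,4,2,0,0,0,0,0,0,0,0,24,0,0,0,0,0,0,0,0,0,0,0,0,0,0,0,0,0,0,0,0,0,0,0,0,0,0,0,0,0,0,0,0,0,0,0,0,0,0,0,0,0,0,0,0,0,0,68,0,0,0,0,0,0,0,0,0,0,0,0,0,0,0,0,0,0,0,720,240,3600,2400])))))
  (.use (.H 1 2 5378) [(true,0,2,1)] (.leaf
  [375,0,0,0,159,0,0,0,0,504,0,0,500,0,0,0,0,448,0,0,0,0,0,0,0,0,0,0,0,0,0,0,0,0,0,0,0,0,672,0,0,0,0,0,0,0,0,0,0,0,0,0,0,0,0,0,1188,0,0,0,0,0,0,0,0,0,0,0,0,0,0,0,0,0,0,0,65160,0,0,83160]))))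
  (.leaf
  [22500,267,0,0,0,0,252,0,0,250,0,0,0,0,224,0,0,0,0,0,0,0,0,0,0,0,0,0,0,0,0,0,0,0,0,336,0,0,0,0,0,0,0,0,0,0,0,0,0,0,0,0,0,594,0,0,0,0,0,0,0,0,0,0,0,0,0,0,0,0,0,0,0,32580,0,0,41580])))))
  (.leaf
  [45000,0,984,0,0,0,0,0,500,0,458,0,0,0,0,0,0,0,0,0,0,0,0,0,0,0,0,0,0,0,0,1551,0,0,0,0,0,0,0,0,0,0,0,0,0,0,0,0,0,1248,0,0,0,0,0,0,0,0,0,0,0,0,0,0,0,0,0,0,0,54360,0,0,101700]))))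
  (.use (.M 1 24) [(true,0,1,1)] (.use (.M 2 24) [(true,13,1,1)] (.use (.M 1 20) [(true,6,1,1)]
  (.split [0,0,1,0,0,0,2,3,0,0,0,0,1,0,0,-1] (.use (.H 2 1 4292) [(false,0,3,1)] (.use (.M 2 24)
  [(true,17,1,1)] (.split [0,0,1,0,0,1,2,3,0,0,0,0,1,0,0,-1] (.use (.H 2 1 4324) [(false,0,3,1)]
  (.use (.M 1 24) [(true,8,1,1)] (.use (.H 1 0 2371) [(false,46,2,1)] (.split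
  [0,2,0,4,0,1,0,0,0,0,1,0,0,0,0,-1] (.use (.H 0 0 1066) [(false,0,1,1)] (.use (.H 1 2 3402)
  [(false,45,2,1)] (.split [0,2,0,0,0,1,0,0,4,0,1,0,0,0,0,-1] (.use (.H 0 0 1314)
  [(false,0,1,1)] (.split [0,1,0,2,0,1,2,3,0,0,0,1,0,2,0,-1] (.use (.H 1 1 10474)
  [(false,0,2,1)] (.leaf
  [231,0,462,0,357,0,0,0,954,646,0,738,0,0,0,0,0,0,0,0,0,0,0,0,546,0,0,0,0,0,0,254,0,0,0,0,0,0,0,0,0,0,0,0,0,588,0,0,0,0,0,0,0,0,0,0,0,0,0,0,0,0,0,1752,0,0,0,0,0,0,0,0,0,0,0,0,0,0,0,0,0,0,0,0,0,0,40680]))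
  (.use (.H 1 1 10474) [(true,0,2,1)] (.leaf
  [141,0,0,0,141,0,0,0,423,376,0,564,0,0,0,0,0,0,0,0,0,0,0,0,354,0,0,0,0,0,0,188,0,0,0,0,0,0,0,0,0,0,0,0,0,906,0,0,0,0,0,0,0,0,0,0,0,0,0,0,0,0,0,768,0,0,0,0,0,0,0,0,0,0,0,0,0,0,0,0,0,0,20160]))))
  (.use (.H 0 0 1314) [(true,0,1,1)] (.leaf
  [72,0,84,0,0,0,117,62,0,93,0,0,0,0,0,0,0,0,0,0,0,0,32,0,0,0,0,0,0,6,0,0,0,0,0,0,0,0,0,0,0,0,0,84,0,0,0,0,0,0,0,0,0,0,0,0,0,0,0,0,0,156,0,0,0,0,0,0,0,0,0,0,0,0,0,0,0,0,0,0,0,0,0,0,1440])))))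
  (.leaf
  [2880,0,27,34,0,27,0,0,0,0,0,0,0,0,0,0,0,0,48,0,0,0,0,0,0,34,0,0,0,0,0,0,0,0,0,0,0,0,0,132,0,0,0,0,0,0,0,0,0,0,0,0,0,0,0,0,0,0,0,0,0,0,0,0,0,0,0,0,0,0,0,0,0,0,0,0,6480])))))
  (.leaf
  [44640,390,378,0,0,0,0,0,0,0,0,0,130,0,298,0,0,0,0,0,0,260,0,0,0,0,0,0,0,0,0,0,0,0,0,1140,0,0,0,0,0,0,0,0,0,0,0,0,0,0,0,0,0,921,0,0,0,0,0,0,0,0,0,0,0,0,0,0,0,0,0,0,41580,0,0,114840]))))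
  (.use (.H 2 1 4292) [(true,0,3,1)] (.split [0,0,1,0,0,0,0,1,0,0,1,2,3,0,0,-1] (.use (.H 2 2
  7300) [(false,0,3,1)] (.leaf
  [130,0,378,0,0,0,0,0,0,0,0,0,0,0,298,0,0,0,0,0,0,260,0,0,0,0,0,0,0,0,0,0,0,0,0,1140,0,0,0,0,0,0,0,0,0,0,0,0,0,0,0,0,0,1311,0,0,0,0,0,0,0,0,0,0,0,0,0,0,0,0,0,0,41580,0,23400,161640]))
  (.use (.H 2 2 7300) [(true,0,3,1)] (.leaf
  [5,0,30,0,0,0,0,0,0,0,0,0,15,0,13,0,0,0,0,0,0,15,0,0,0,0,0,0,0,0,0,0,0,0,0,99,0,0,0,0,0,0,0,0,0,0,0,0,0,0,0,0,0,54,0,0,0,0,0,0,0,0,0,0,0,0,0,0,0,0,0,0,3960,0,900,11520,1260]))))))))))))))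
  (.use (.H 2 1 4260) [(true,0,3,1)] (.leaf
  [28,0,22,0,0,0,0,0,0,56,0,0,0,0,0,0,0,0,0,0,0,0,0,90,0,0,0,0,0,0,0,0,0,0,0,0,0,0,0,0,0,21,0,0,0,0,0,0,0,0,0,0,0,0,0,0,0,0,0,0,3420,0,1800,5400])))))))))))))))))))))))))
  (.use (.M 0 12) [(true,0,1,1)] (.use (.H 2 1 4196) [(false,23,3,1)] (.use (.H 2 2 3204)
  [(false,28,3,1)] (.split [0,1,0,0,0,1,2,0,0,0,0,1,0,2,0,-1] (.use (.H 1 1 10338)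
  [(false,0,2,1)] (.split [1,2,0,4,0,1,2,0,0,0,1,2,0,0,0,-1] (.use (.H 0 0 3179) [(false,0,1,1)]
  (.split [1,1,1,1,1,1,1,1,1,1,0,0,0,0,-5,0] (.use (.M 2 16) [(false,0,1,1)] (.split
  [1,0,1,1,1,1,1,1,1,1,-2,-2,-2,-2,-2,0] (.use (.E 0 1 1) [(false,0,1,1)] (.leaf
  [9,420,23,0,2,0,0,0,0,0,0,0,2,0,0,0,0,0,0,0,0,0,0,0,0,0,0,0,6,0,0,0,0,0,0,0,0,0,0,0,0,0,0,0,0,0,0,0,0,720,420,0,1160]))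
  (.use (.E 0 1 1) [(true,0,1,1)] (.split [1,2,3,0,0,0,0,1,0,0,0,0,1,0,0,-1] (.use (.H 2 0 4231)
  [(false,0,3,1)] (.split [1,2,0,0,0,1,2,3,0,0,1,0,0,0,0,-1] (.use (.H 0 0 1251) [(false,0,1,1)]
  (.leaf
  [2,0,0,0,1,0,5,0,4,0,0,0,0,0,1,0,2,0,0,0,0,0,0,0,0,0,0,0,0,0,0,0,9,0,0,0,0,0,0,0,0,0,0,0,0,0,0,0,0,0,0,0,120,240,540,0,520]))
  (.use (.H 0 0 1251) [(true,0,1,1)] (.leaf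
  [27,0,20,0,18,0,24,0,48,0,0,0,0,0,30,0,9,0,0,0,0,0,0,0,0,0,0,0,0,0,0,0,36,0,0,0,0,0,0,0,0,0,0,0,0,0,0,0,0,0,0,0,360,1440,6480,0,2160]))))
  (.use (.H 2 0 4231) [(true,0,3,1)] (.leaf
  [92,0,15,0,153,0,54,0,0,0,0,0,0,0,0,0,0,0,0,0,0,0,0,0,0,0,0,0,0,0,378,0,0,0,0,0,6,0,0,0,0,0,0,0,0,0,0,0,0,0,1080,5400,15300]))))))
  (.use (.M 2 16) [(true,0,1,1)] (.split [1,1,1,1,1,0,0,0,-4,-5,1,1,1,1,1,0] (.use (.M 1 24)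
  [(false,0,1,1)] (.split [1,2,3,0,0,0,0,0,1,0,0,0,0,1,0,-1] (.use (.H 3 0 8455) [(false,0,4,1)]
  (.leaf
  [1,0,12,0,0,0,0,0,0,0,0,0,1,0,2,0,1,0,0,0,0,0,0,0,0,0,0,0,0,0,3,0,0,0,0,0,0,0,0,0,0,0,0,0,0,0,0,0,0,0,360,0,120,600,520]))
  (.use (.H 3 0 8455) [(true,0,4,1)] (.use (.M 2 16) [(true,5,1,1)] (.use (.H 2 1 4196)
  [(false,36,3,1)] (.split [0,0,3,0,0,0,0,0,1,0,0,0,0,1,0,-1] (.use (.H 3 0 8452)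
  [(false,0,4,1)] (.use (.H 1 2 3402) [(false,21,2,1)] (.use (.H 2 1 4196) [(false,40,3,1)]
  (.use (.H 2 2 3204) [(false,45,3,1)] (.use (.H 2 1 4196) [(false,42,3,1)] (.use (.H 2 2 3204)
  [(false,47,3,1)] (.use (.H 2 1 4196) [(false,44,3,1)] (.use (.H 2 2 3204) [(false,49,3,1)]
  (.use (.H 2 1 4196) [(false,46,3,1)] (.use (.H 2 2 3204) [(false,51,3,1)] (.use (.H 1 2 3402)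
  [(false,30,2,1)] (.use (.M 2 16) [(true,19,1,1)] (.use (.H 2 1 4196) [(false,50,3,1)] (.split
  [0,0,1,0,0,0,0,0,0,0,1,0,3,0,0,-1] (.use (.H 2 2 5124) [(false,0,3,1)] (.use (.H 2 2 3204)
  [(false,57,3,1)] (.split [0,1,0,0,0,0,0,0,2,0,1,2,3,0,0,-1] (.use (.H 1 2 7426)
  [(false,0,2,1)] (.leaf
  [534,0,16,8,0,0,348,0,0,0,0,0,0,0,0,0,0,267,0,0,0,1338,0,4272,0,0,0,0,0,0,0,0,0,5280,0,0,0,0,0,0,0,0,0,0,0,0,0,0,0,0,0,0,0,0,0,0,0,0,0,0,0,0,0,0,0,0,0,0,0,0,0,128160,1440,85680,179280]))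
  (.use (.H 1 2 7426) [(true,0,2,1)] (.use (.H 2 1 4196) [(false,56,3,1)] (.use (.H 1 2 3402)
  [(false,39,2,1)] (.use (.H 2 1 4196) [(false,58,3,1)] (.use (.H 1 2 3402) [(false,41,2,1)]
  (.use (.H 2 1 4196) [(false,60,3,1)] (.use (.H 2 2 3204) [(false,65,3,1)] (.use (.M 2 16)
  [(true,32,1,1)] (.use (.H 2 2 3204) [(false,67,3,1)] (.use (.H 2 2 5124) [(false,12,3,1)]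
  (.use (.H 2 2 3204) [(false,69,3,1)] (.use (.H 1 2 7426) [(true,11,2,1)] (.use (.H 1 2 3402)
  [(false,49,2,1)] (.use (.H 2 1 4196) [(false,68,3,1)] (.use (.H 2 2 3204) [(false,73,3,1)]
  (.use (.H 1 2 3402) [(false,52,2,1)] (.use (.H 2 1 4196) [(false,71,3,1)] (.use (.H 1 2 3402)
  [(false,54,2,1)] (.use (.M 2 16) [(true,43,1,1)] (.split [0,1,0,2,0,0,1,0,2,0,1,2,3,0,0,-1]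
  (.use (.H 1 2 7498) [(false,0,2,1)] (.leaf
  [14,0,10,0,0,0,0,0,0,0,0,0,0,0,0,0,0,0,0,0,0,0,0,0,0,0,0,0,0,0,0,0,0,0,0,0,0,7,0,0,0,35,0,112,0,0,0,0,0,0,0,0,0,0,0,0,0,0,0,0,0,0,0,0,0,0,0,0,0,0,0,140,0,0,0,0,0,0,0,0,0,0,0,0,0,0,0,0,0,0,0,3360,0,2400,4800]))
  (.use (.H 1 2 7498) [(true,0,2,1)] (.split [1,1,1,1,1,1,1,1,1,1,0,0,-3,-4,-5,0] (.use (.M 2
  28) [(false,0,1,1)] (.split [1,1,1,1,1,0,0,0,-4,0,1,1,1,1,1,0] (.use (.M 1 8) [(false,0,1,1)]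
  (.split [1,2,0,0,0,1,2,3,0,0,1,2,3,0,0,-1] (.use (.H 0 0 7395) [(false,0,1,1)] (.leaf
  [24,0,16,0,0,0,6,0,0,12,8,0,0,0,0,0,0,0,0,0,0,0,0,0,0,0,0,0,0,0,0,0,0,0,0,0,0,0,0,0,0,0,0,8,0,0,0,9,0,0,0,0,0,0,0,0,0,0,0,0,0,0,0,0,0,0,0,0,0,0,0,0,0,0,0,0,0,28,0,0,0,0,0,0,0,0,0,0,0,0,0,0,0,0,0,0,0,720,720,0,480,240]))
  (.use (.H 0 0 7395) [(true,0,1,1)] (.split [0,1,0,2,0,0,1,0,2,0,1,2,0,4,0,-1] (.use (.H 1 2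
  11594) [(false,0,2,1)] (.leaf
  [96,0,252,0,1200,0,0,0,0,0,0,432,344,0,0,0,0,0,0,0,0,0,0,0,0,0,0,0,0,0,0,0,0,0,0,0,0,0,0,0,0,0,0,0,0,18,0,0,0,489,0,0,0,0,0,0,0,0,0,0,0,1656,0,0,0,0,0,0,0,0,0,0,0,0,0,0,0,0,0,0,0,0,0,0,0,0,0,0,0,0,0,0,0,0,0,0,0,0,0,46080,15840,0,50400]))
  (.leaf
  [32880,0,0,2088,0,0,0,0,0,0,1384,252,0,0,0,0,0,0,0,0,0,0,0,0,0,0,0,0,0,0,0,0,0,0,0,0,0,0,0,0,0,0,0,0,554,0,0,0,559,0,0,0,0,0,0,0,0,0,0,0,1484,0,0,0,0,0,0,0,0,0,0,0,0,0,0,0,0,0,0,0,0,0,0,0,0,0,0,0,0,0,0,0,0,0,0,0,0,0,17280,43920])))))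
  (.leaf
  [12780,87,0,30,0,0,33,80,0,0,0,0,0,0,0,0,0,0,0,0,0,0,0,0,0,0,0,0,0,0,0,0,0,0,0,0,0,0,0,0,15,0,0,0,513,0,1716,0,0,0,0,0,0,0,0,0,1818,0,0,0,0,0,0,0,0,0,0,0,0,0,0,0,0,0,0,0,0,0,0,0,0,0,0,0,0,0,0,0,0,0,0,0,0,0,55080,3600,0,86220])))
  (.use (.M 2 28) [(true,0,1,1)] (.leaf
  [12,0,0,0,0,18,8,0,0,0,0,0,0,0,0,0,0,0,0,0,0,0,0,0,0,0,0,0,0,0,0,0,0,0,0,0,0,0,0,3,0,0,0,18,0,84,0,0,0,0,0,0,0,0,0,0,0,0,0,0,0,0,0,0,0,0,0,0,0,0,0,0,0,72,0,0,0,0,0,0,0,0,0,0,0,0,0,0,0,0,0,0,0,2880,0,0,2880,1920])))))))))))))))))))))))))))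
  (.leaf
  [1440,16,0,0,0,0,0,0,0,0,0,0,0,1,0,0,0,53,0,164,0,0,0,0,0,0,0,0,0,0,0,0,0,0,0,0,0,0,0,0,0,0,0,0,0,0,0,184,0,0,0,0,0,0,0,0,0,0,0,0,0,0,0,0,0,0,0,7440,0,0,10800])))))))))))))))
  (.use (.H 3 0 8452) [(true,0,4,1)] (.leaf
  [25,0,0,0,0,0,66,0,0,0,0,0,0,0,0,0,124,0,0,0,0,0,0,0,0,0,0,0,0,0,0,0,0,0,0,0,0,0,0,0,0,0,0,0,0,0,0,0,0,0,0,0,0,0,2640,0,4680,5640]))))))))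
  (.use (.M 1 24) [(true,0,1,1)] (.split [1,1,1,1,1,1,1,1,1,1,0,0,0,-4,-5,0] (.use (.M 2 24)
  [(false,0,1,1)] (.split [1,2,3,0,0,0,0,0,1,0,0,0,0,1,0,-1] (.use (.H 3 0 8455) [(false,0,4,1)]
  (.use (.M 2 16) [(true,7,1,1)] (.split [0,0,-3,-4,-5,1,1,1,1,1,1,1,1,1,1,0] (.use (.M 0 28)
  [(false,0,1,1)] (.leaf
  [88,0,4,22,0,202,0,0,0,0,0,0,0,11,0,0,0,132,0,22,0,0,0,0,0,0,0,0,0,0,0,0,0,0,0,88,0,0,0,0,0,0,0,0,0,0,0,0,0,0,0,0,0,0,0,0,5880,18480,0,12680]))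
  (.use (.M 0 28) [(true,0,1,1)] (.split [0,1,0,2,0,0,1,0,0,0,1,0,0,4,0,-1] (.use (.H 1 2 9290)
  [(false,0,2,1)] (.split [0,0,1,0,0,0,0,1,0,0,1,0,3,4,0,-1] (.use (.H 2 2 13444)
  [(false,0,3,1)] (.use (.M 1 16) [(true,50,1,1)] (.split [1,1,1,1,1,0,0,-3,-4,-5,1,1,1,1,1,0]
  (.use (.M 1 28) [(false,0,1,1)] (.split [1,2,3,0,0,0,0,1,0,0,0,0,1,0,0,-1] (.use (.H 2 0 4231)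
  [(false,0,3,1)] (.leaf
  [130,0,414,0,0,54,0,0,0,402,0,186,69,0,522,0,0,0,0,0,0,0,141,0,0,0,0,0,282,0,0,0,0,0,0,0,0,0,0,0,0,0,0,0,0,0,0,0,0,0,0,0,0,0,0,0,0,0,0,0,0,0,0,0,16560,9720,15120,0,40440]))
  (.use (.H 2 0 4231) [(true,0,3,1)] (.split [0,1,0,0,0,1,0,3,0,0,0,1,0,0,0,-1] (.use (.H 1 1
  2210) [(false,0,2,1)] (.leaf
  [219,0,1084,0,1380,0,0,308,0,0,0,2766,0,294,111,0,951,0,0,0,0,0,0,0,0,0,0,0,0,0,0,0,0,0,0,0,0,0,0,0,0,0,0,0,0,0,0,0,0,0,0,0,0,0,0,0,0,0,0,0,0,0,0,0,0,0,55080,29160,12780]))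
  (.use (.H 1 1 2210) [(true,0,2,1)] (.leaf
  [156,0,408,0,0,0,0,260,0,0,0,1944,0,720,69,0,690,0,0,0,0,0,0,0,552,0,0,0,0,0,0,0,0,0,0,0,0,0,0,0,0,0,0,0,0,0,0,0,0,0,0,0,132,0,0,0,0,0,0,0,0,0,0,0,0,0,16560,0,91800]))))))
  (.use (.M 1 28) [(true,0,1,1)] (.leaf
  [708,0,0,256,0,0,0,688,0,104,15,0,308,0,0,0,0,0,1456,0,10,0,0,0,0,0,0,0,0,0,0,0,0,0,0,0,0,0,0,0,0,0,0,0,0,0,0,0,0,0,0,0,0,0,0,0,0,0,0,0,0,0,0,32160,0,0,73600])))))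
  (.use (.H 2 2 13444) [(true,0,3,1)] (.leaf
  [512,0,750,0,3000,0,1092,1875,0,4290,0,0,0,0,0,0,0,0,0,0,0,0,0,1500,0,0,0,0,0,0,0,0,0,0,0,0,0,0,0,0,0,0,0,0,0,0,0,0,0,0,0,0,0,0,0,0,0,0,0,0,66960,405000,0,86400]))))
  (.use (.H 1 2 9290) [(true,0,2,1)] (.leaf
  [44,0,220,0,36,88,0,234,0,0,0,0,0,0,0,55,0,0,0,0,0,110,0,0,0,0,0,0,0,0,0,0,0,0,0,0,0,0,0,0,0,0,0,0,0,0,0,0,0,0,0,0,0,0,0,0,0,0,5400,23760,0,5000])))))))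
  (.use (.H 3 0 8455) [(true,0,4,1)] (.use (.H 2 2 3204) [(false,41,3,1)] (.use (.M 1 24)
  [(true,6,1,1)] (.split [1,1,1,1,1,1,1,1,1,1,0,0,0,-4,0,0] (.use (.M 2 8) [(false,0,1,1)]
  (.split [1,0,3,0,0,0,0,0,1,0,0,0,0,1,0,-1] (.use (.H 3 0 8453) [(false,0,4,1)] (.split
  [0,0,1,0,0,0,0,1,0,0,1,2,3,0,0,-1] (.use (.H 2 2 7300) [(false,0,3,1)] (.split
  [0,1,0,2,0,1,2,0,4,0,0,1,0,2,0,-1] (.use (.H 1 1 10602) [(false,0,2,1)] (.leaf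
  [56,0,200,0,22,0,270,0,200,0,149,0,0,0,0,0,0,0,0,0,244,0,0,0,0,0,0,0,0,0,0,0,0,0,0,0,0,0,0,0,0,0,508,0,0,0,0,0,0,0,0,0,0,0,0,0,0,0,0,0,0,0,0,8880,600]))
  (.leaf
  [9120,432,0,290,0,1350,0,192,0,511,0,0,0,0,0,0,0,0,0,1084,0,0,0,1604,0,0,0,0,0,0,0,0,0,0,0,0,0,0,0,0,0,0,0,0,0,0,0,0,0,0,0,0,0,0,0,0,0,0,0,0,0,21600,19440,12600])))
  (.leaf
  [900,2,0,55,0,0,5,4,0,0,0,0,0,0,0,0,0,0,0,0,0,8,0,0,0,0,0,0,0,0,0,0,0,0,0,0,0,0,0,0,0,0,0,0,0,0,0,0,0,0,0,0,0,0,0,0,0,0,0,0,705])))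
  (.use (.H 3 0 8453) [(true,0,4,1)] (.leaf
  [2,0,15,0,1,0,4,0,0,0,0,0,0,0,0,0,0,0,0,0,0,0,0,0,0,0,0,0,0,0,0,0,0,0,0,0,0,0,32,0,0,0,0,0,0,0,0,0,0,0,0,0,0,0,0,0,0,0,0,600,1380]))))
  (.use (.M 2 8) [(true,0,1,1)] (.split [1,0,1,1,1,1,1,1,1,1,-2,-2,-2,-2,-2,0] (.use (.E 0 1 1)
  [(false,0,1,1)] (.split [1,2,0,0,0,0,1,0,2,0,0,1,0,2,0,-1] (.use (.H 1 0 10563)
  [(false,0,2,1)] (.split [0,0,1,0,0,0,0,1,0,0,1,0,0,4,0,-1] (.use (.H 2 2 9348) [(false,0,3,1)]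
  (.use (.M 1 16) [(true,53,1,1)] (.use (.H 2 1 4196) [(false,48,3,1)] (.use (.H 2 2 3204)
  [(false,53,3,1)] (.use (.H 2 1 4196) [(false,50,3,1)] (.use (.H 2 2 9348) [(false,5,3,1)]
  (.use (.M 1 16) [(true,58,1,1)] (.split [1,1,1,1,1,0,0,-3,0,-5,1,1,1,1,1,0] (.leaf
  [1200,34,20,0,0,0,0,0,0,0,0,64,0,0,0,0,0,43,0,90,0,0,0,0,0,0,0,0,0,0,0,176,0,0,0,0,0,0,0,0,0,0,0,0,0,0,0,0,0,0,0,0,0,0,0,0,0,0,0,0,0,0,0,0,0,0,0,0,0,0,3600,5880])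
  (.use (.M 1 20) [(true,0,1,1)] (.split [0,1,0,0,0,1,0,3,0,0,0,0,0,2,0,-1] (.use (.H 1 1 8354)
  [(false,0,2,1)] (.use (.H 1 0 10563) [(false,13,2,1)] (.use (.H 2 1 4196) [(false,58,3,1)]
  (.use (.M 1 24) [(true,27,1,1)] (.split [0,1,0,2,0,0,1,0,2,0,1,2,0,4,0,-1] (.use (.H 1 2
  11594) [(false,0,2,1)] (.split [0,1,0,0,0,1,2,0,0,0,0,0,0,2,0,-1] (.use (.H 1 1 8290)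
  [(false,0,2,1)] (.leaf
  [4,0,14,0,4,0,0,14,0,8,0,0,0,0,0,0,0,0,0,0,0,0,0,0,0,0,0,43,0,114,0,0,0,0,0,0,0,0,0,0,0,0,0,0,0,0,0,0,0,0,0,0,0,0,0,0,0,0,0,236,0,0,0,0,0,0,0,0,0,0,0,0,0,0,0,0,0,0,0,0,3840,9240,240,240]))
  (.leaf
  [480,50,0,28,0,0,46,0,0,0,0,0,0,0,0,0,0,0,0,0,0,0,0,0,0,0,119,0,302,0,0,0,0,0,0,0,0,0,0,0,656,0,0,0,0,0,0,0,0,0,0,0,0,0,0,0,0,0,0,0,0,0,0,0,0,0,0,0,0,0,0,0,0,0,0,0,0,0,0,10560,26280])))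
  (.use (.H 1 2 11594) [(true,0,2,1)] (.leaf
  [648,0,708,0,402,402,0,0,0,0,0,0,0,0,0,0,0,0,0,0,0,1350,0,0,0,201,0,876,0,0,0,0,0,0,0,0,0,0,0,2144,0,0,0,0,0,0,0,0,0,0,0,0,0,0,0,0,0,268,0,0,0,0,0,0,0,0,0,0,0,0,0,0,0,0,0,0,0,0,25200,102240])))))))
  (.use (.H 1 1 8354) [(true,0,2,1)] (.leaf
  [520,0,1672,0,0,136,0,0,0,0,0,0,0,0,804,0,730,0,0,0,437,0,1452,0,0,0,0,0,0,0,0,0,0,0,2144,0,0,0,0,0,0,0,0,0,0,0,0,0,0,0,0,0,0,0,0,0,0,0,0,0,0,0,0,0,0,0,0,0,0,0,0,0,0,49680]))))))))))))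
  (.use (.H 2 2 9348) [(true,0,3,1)] (.split [1,2,0,0,0,1,2,3,0,0,1,2,0,0,0,-1] (.use (.H 0 0
  3299) [(false,0,1,1)] (.leaf
  [54,0,56,2160,0,0,264,0,360,0,0,0,66,0,135,0,0,0,0,0,0,0,0,0,0,0,600,0,0,0,0,0,0,0,0,0,0,0,0,0,0,0,0,0,18,0,0,0,0,0,0,0,0,0,0,0,0,0,0,0,0,0,0,0,1080,4320,36540]))
  (.use (.H 0 0 3299) [(true,0,1,1)] (.split [1,0,3,0,0,1,0,0,0,0,1,0,0,0,0,-1] (.use (.H 0 0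
  1061) [(false,0,1,1)] (.use (.H 1 2 3402) [(false,33,2,1)] (.use (.H 1 0 10563)
  [(false,8,2,1)] (.use (.H 0 0 1185) [(false,51,1,1)] (.use (.M 1 16) [(true,60,1,1)] (.split
  [1,1,1,1,1,0,0,-3,-4,-5,1,1,1,1,1,0] (.use (.M 1 28) [(false,0,1,1)] (.split
  [1,1,1,1,1,0,0,-3,-4,0,1,1,1,1,1,0] (.use (.M 1 12) [(false,0,1,1)] (.split
  [0,1,0,0,0,1,0,0,4,0,0,0,0,2,0,-1] (.use (.H 1 1 8482) [(false,0,2,1)] (.use (.H 2 2 3204)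
  [(false,65,3,1)] (.use (.H 2 1 4196) [(false,62,3,1)] (.use (.H 0 0 1061) [(false,13,1,1)]
  (.use (.H 2 1 4196) [(false,64,3,1)] (.use (.M 1 16) [(true,71,1,1)] (.use (.H 0 0 3299)
  [(true,18,1,1)] (.use (.M 1 28) [(false,11,1,1)] (.use (.H 2 2 3204) [(false,72,3,1)] (.use
  (.M 1 16) [(true,75,1,1)] (.use (.H 0 0 1061) [(false,20,1,1)] (.use (.H 0 0 3179)
  [(false,43,1,1)] (.use (.M 1 28) [(false,16,1,1)] (.use (.M 1 12) [(false,15,1,1)] (.use (.H 2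
  2 3204) [(false,78,3,1)] (.split [0,1,0,0,0,1,0,3,0,0,0,0,0,0,0,-1] (.use (.H 1 1 162)
  [(false,0,2,1)] (.split [0,1,0,2,0,1,2,0,4,0,0,0,0,2,0,-1] (.use (.H 1 1 8554) [(false,0,2,1)]
  (.leaf
  [16,0,0,0,8,4,0,0,0,0,0,0,0,0,0,0,0,0,0,0,0,0,0,0,0,0,0,0,0,0,0,0,4,0,0,0,0,0,8,0,0,0,9,0,12,0,0,0,0,0,0,0,0,0,0,0,0,0,0,0,0,0,0,0,0,0,0,0,0,0,0,0,0,0,44,0,0,0,0,0,0,0,0,0,0,0,0,0,0,0,0,0,0,0,480,720,1200]))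
  (.use (.H 1 1 8554) [(true,0,2,1)] (.leaf
  [27,0,0,0,0,162,0,0,0,0,0,0,0,0,0,0,0,0,0,0,0,0,0,0,0,0,0,0,0,0,0,0,56,0,0,0,120,0,279,0,0,0,48,0,0,0,0,0,0,0,0,0,0,0,0,0,312,0,0,0,0,0,0,0,0,0,0,0,0,0,0,0,0,0,0,0,0,0,0,0,0,0,0,0,0,0,0,0,0,0,0,0,0,0,9720,0,6840]))))
  (.leaf
  [1980,36,30,0,0,0,0,0,0,0,0,0,0,0,0,0,0,0,0,0,0,0,0,0,0,0,0,0,0,14,0,0,0,189,0,90,0,0,0,39,0,54,0,0,0,0,0,0,0,0,0,0,0,0,0,0,0,0,0,0,0,0,0,0,0,0,0,0,0,0,0,204,0,0,0,0,0,0,0,0,0,0,0,0,0,0,0,0,0,0,0,540,3240,12060])))))))))))))))))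
  (.use (.H 1 1 8482) [(true,0,2,1)] (.leaf
  [27,0,0,0,162,0,0,0,0,0,0,0,0,0,56,0,0,0,120,0,279,0,0,0,48,0,0,0,0,0,0,0,0,0,0,0,0,0,0,0,0,0,0,0,0,0,0,0,0,0,0,0,0,0,0,0,312,0,0,0,0,0,0,0,0,0,0,0,0,0,0,0,0,0,0,0,9720,0,6840]))))
  (.use (.M 1 12) [(true,0,1,1)] (.leaf
  [186,0,168,0,0,0,0,0,0,0,0,0,88,0,0,0,156,0,396,0,0,0,39,0,12,0,0,0,0,0,0,0,0,0,0,0,0,0,0,0,0,0,0,0,0,0,0,0,0,0,0,0,0,0,312,0,0,0,0,0,0,0,0,0,0,0,0,0,0,0,0,0,0,0,5040]))))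
  (.use (.M 1 28) [(true,0,1,1)] (.use (.H 1 0 10563) [(false,13,2,1)] (.split
  [0,1,0,0,0,1,2,0,0,0,0,0,0,2,0,-1] (.use (.H 1 1 8290) [(false,0,2,1)] (.leaf
  [122,0,47,432,0,0,0,0,0,0,0,94,0,78,0,0,0,0,0,275,0,0,0,94,0,372,0,0,0,0,0,0,0,0,0,0,0,0,0,0,0,0,0,0,0,0,0,0,0,0,0,0,0,0,0,620,0,0,0,0,0,0,0,0,0,0,0,0,0,0,0,0,0,0,0,0,11160]))
  (.leaf
  [8640,108,0,0,0,0,0,0,0,0,72,0,448,0,0,0,2436,0,2430,0,0,0,555,0,1512,0,0,0,0,0,0,0,0,0,0,0,4584,0,0,0,0,0,0,0,0,0,0,0,0,0,0,0,0,0,72,0,0,0,0,0,0,0,0,0,0,0,0,0,0,0,0,0,0,0,0,45360,290160]))))))))))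
  (.leaf
  [5280,44,0,0,0,0,0,104,0,80,0,0,0,91,0,364,0,0,0,0,0,0,0,0,0,0,0,688,0,0,0,0,0,0,0,0,0,0,0,0,0,0,0,0,0,0,0,0,0,0,0,0,0,0,0,0,0,0,0,0,0,0,0,0,0,0,9600,34800])))))))
  (.use (.H 1 0 10563) [(true,0,2,1)] (.split [0,0,3,0,0,0,0,0,1,0,0,0,0,1,0,-1] (.use (.H 3 0
  8452) [(false,0,4,1)] (.leaf
  [97,0,606,0,0,0,10,0,0,0,485,0,1768,0,0,0,0,0,0,0,824,0,0,0,1988,0,0,0,0,0,0,0,0,0,0,0,0,0,0,0,0,0,0,0,0,0,0,0,0,0,0,0,0,0,0,0,0,0,0,0,0,0,49440,50640]))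
  (.leaf
  [1200,78,0,0,0,40,0,0,0,35,0,128,0,0,0,0,0,0,0,80,0,0,0,204,0,0,0,0,0,0,0,0,0,0,0,0,0,0,0,0,0,0,0,0,0,0,0,0,0,0,0,0,0,0,0,0,0,0,0,0,0,6720,3840])))))
  (.use (.E 0 1 1) [(true,0,1,1)] (.split [1,1,1,1,1,0,0,-3,0,0,1,1,1,1,1,0] (.use (.M 1 4)
  [(false,0,1,1)] (.leaf
  [132,0,254,0,40,0,0,64,127,0,80,0,0,0,0,0,0,0,0,0,0,0,824,0,0,0,0,0,0,0,0,0,0,0,0,0,0,0,0,0,0,0,0,0,0,0,0,0,0,0,0,0,0,0,0,0,0,0,0,0,2160,4800,44400]))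
  (.use (.M 1 4) [(true,0,1,1)] (.use (.H 1 2 3402) [(false,27,2,1)] (.use (.H 2 1 4196)
  [(false,46,3,1)] (.split [0,1,0,0,0,1,2,3,0,0,0,1,0,2,0,-1] (.use (.H 1 1 10466)
  [(false,0,2,1)] (.leaf
  [3,0,0,0,0,0,25,960,4,0,0,0,18,0,28,0,0,0,0,0,0,0,0,0,0,0,144,0,0,0,0,0,0,0,0,0,0,0,0,0,0,0,0,0,0,0,0,0,0,0,0,0,0,0,0,0,0,0,0,0,0,0,0,0,120,840,8400]))
  (.use (.H 1 1 10466) [(true,0,2,1)] (.split [1,0,3,0,0,1,0,0,0,0,1,0,0,0,0,-1] (.use (.H 0 0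
  1061) [(false,0,1,1)] (.split [0,0,1,0,0,1,2,3,4,0,0,0,1,0,0,-1] (.use (.H 2 1 4580)
  [(false,0,3,1)] (.leaf
  [16,0,0,0,6,0,0,0,0,0,54,0,12,0,0,0,27,0,42,0,0,0,0,0,0,0,0,0,0,0,168,0,0,0,0,0,0,0,0,0,0,0,0,0,0,0,0,0,0,0,0,0,0,0,0,0,0,0,0,0,0,0,0,0,0,0,0,0,720,1440,8280]))
  (.use (.H 2 1 4580) [(true,0,3,1)] (.use (.H 1 2 3402) [(false,35,2,1)] (.split
  [1,2,0,0,0,1,0,0,4,0,1,0,0,0,0,-1] (.use (.H 0 0 1315) [(false,0,1,1)] (.use (.H 1 2 3402)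
  [(false,38,2,1)] (.use (.H 0 0 1315) [(false,2,1,1)] (.use (.H 1 2 3402) [(false,40,2,1)]
  (.use (.H 0 0 1315) [(false,4,1,1)] (.use (.H 1 2 3402) [(false,42,2,1)] (.use (.H 0 0 1185)
  [(false,59,1,1)] (.use (.M 1 16) [(true,68,1,1)] (.split [0,0,0,0,0,1,0,3,0,0,0,0,0,1,0,-1]
  (.use (.H 3 1 8352) [(false,0,4,1)] (.split [1,1,1,1,1,0,-2,-3,-4,-5,1,1,1,1,1,0] (.use (.M 1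
  30) [(false,0,1,1)] (.split [1,1,1,1,1,0,0,-3,-4,-5,1,1,1,1,1,0] (.use (.M 1 28)
  [(false,0,1,1)] (.use (.H 0 0 1315) [(false,14,1,1)] (.use (.M 1 4) [(true,26,1,1)] (.split
  [0,1,0,2,0,1,2,0,4,0,0,1,0,2,0,-1] (.use (.H 1 1 10602) [(false,0,2,1)] (.leaf
  [8,0,32,0,24,0,0,0,0,0,0,0,0,0,0,0,0,0,0,0,0,0,0,0,0,0,0,0,0,0,84,6000,14,0,0,0,71,0,88,0,0,0,0,0,0,0,0,0,0,0,568,0,0,0,0,0,0,0,0,0,0,0,0,0,0,0,0,0,0,0,0,0,0,0,0,0,0,0,0,0,0,0,0,0,0,0,0,0,960,2640,30480]))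
  (.use (.H 1 1 10602) [(true,0,2,1)] (.leaf
  [24,0,0,48,72,0,0,0,0,0,0,0,0,0,0,0,0,0,0,0,0,0,0,0,0,0,0,0,0,0,492,16560,126,0,0,0,315,0,384,0,0,0,0,0,0,0,0,0,0,0,2552,0,0,0,0,0,0,0,0,0,0,0,0,0,0,0,0,0,16,0,0,0,0,0,0,0,0,0,0,0,0,0,0,0,0,0,0,0,5760,12240,149040]))))))
  (.use (.M 1 28) [(true,0,1,1)] (.use (.H 1 1 10338) [(false,43,2,1)] (.leaf
  [32,64,0,0,0,0,0,0,0,0,0,0,0,0,0,0,0,0,0,0,0,0,0,0,0,0,0,0,4080,2,0,0,0,59,0,136,0,0,0,0,0,0,0,0,0,0,0,0,0,0,0,0,0,0,0,0,0,0,0,0,0,0,0,0,0,368,0,0,0,0,0,0,0,0,0,0,0,0,0,0,0,0,0,0,0,0,4080,13200])))))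
  (.use (.M 1 30) [(true,0,1,1)] (.split [0,0,1,0,0,1,2,3,0,0,0,0,0,0,0,-1] (.use (.H 2 1 228)
  [(false,0,3,1)] (.leaf
  [264,0,366,480,0,0,0,0,0,0,0,0,0,0,0,0,0,0,0,0,22,0,0,0,0,0,386,0,108,0,0,0,193,0,344,0,0,0,0,0,0,0,0,0,0,0,752,0,0,0,0,0,0,0,0,0,0,0,0,0,0,0,0,0,0,0,0,0,0,0,0,0,0,0,0,0,0,0,0,0,0,0,0,0,0,10320]))
  (.use (.H 2 1 228) [(true,0,3,1)] (.leaf
  [4,0,6,360,0,0,0,0,0,0,0,0,0,0,0,0,0,0,0,0,0,0,0,0,0,0,53,0,15,0,0,0,29,0,60,0,0,0,0,0,0,0,0,0,0,0,0,0,0,0,0,0,0,0,0,0,0,0,0,0,0,0,0,0,222,0,0,0,0,0,0,0,0,0,0,0,0,0,0,0,0,0,0,0,0,1800,12480]))))))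
  (.use (.H 3 1 8352) [(true,0,4,1)] (.split [1,1,1,1,1,1,1,0,1,1,-2,-2,-2,-2,-2,0] (.use (.E 1
  0 2) [(false,0,1,1)] (.leaf
  [264,0,35,0,0,0,0,0,0,0,0,0,0,0,0,0,0,0,0,0,0,0,0,0,52,0,18,0,0,0,2,0,72,0,0,0,0,0,0,0,0,0,0,0,0,0,0,0,0,0,0,0,0,0,0,0,0,0,0,0,0,0,0,0,0,0,0,0,0,0,0,0,0,0,0,0,0,0,0,0,0,0,0,2160]))
  (.leaf
  [480,1,0,0,0,0,0,0,0,0,0,0,0,0,0,0,0,0,0,0,0,0,0,68,0,14,0,0,0,34,0,56,0,0,0,0,0,0,0,0,0,0,0,0,0,0,0,0,0,0,0,0,0,0,0,0,0,0,0,0,0,272,0,0,0,0,0,0,0,0,0,0,0,0,0,0,0,0,0,0,0,0,1680,16320]))))))))))))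
  (.use (.H 0 0 1315) [(true,0,1,1)] (.leaf
  [2,0,0,0,0,0,0,1,0,0,0,0,0,9,0,2,0,0,0,4,0,7,0,0,0,0,0,0,0,0,0,0,0,32,0,0,0,0,0,0,0,0,0,0,0,0,0,0,0,0,0,0,0,0,0,0,0,0,0,0,0,0,0,0,0,0,0,0,0,0,0,120,240,1860])))))))
  (.leaf
  [1440,6,0,0,0,0,0,98,0,42,0,0,0,65,0,156,0,0,0,0,0,0,0,0,0,0,0,0,0,0,0,0,0,0,0,0,0,0,0,0,0,0,0,0,0,528,0,0,0,0,0,0,0,0,0,0,0,0,0,0,0,0,0,0,0,0,4320,30480])))))))))))))))))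
  (.use (.M 2 24) [(true,0,1,1)] (.split [1,2,3,0,0,0,0,1,0,0,0,0,1,0,0,-1] (.use (.H 2 0 4231)
  [(false,0,3,1)] (.split [0,1,0,0,0,0,1,0,2,0,1,2,3,0,0,-1] (.use (.H 1 2 7490) [(false,0,2,1)]
  (.split [0,0,1,0,0,0,0,1,0,0,0,2,3,0,0,-1] (.use (.H 2 2 6276) [(false,0,3,1)] (.split
  [1,2,0,4,0,0,0,0,2,0,0,1,0,2,0,-1] (.use (.H 1 0 10507) [(false,0,2,1)] (.split
  [0,1,0,0,0,1,0,0,4,0,0,1,0,2,0,-1] (.use (.H 1 1 10530) [(false,0,2,1)] (.split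
  [0,0,1,0,0,1,2,0,4,0,0,0,1,0,0,-1] (.use (.H 2 1 4452) [(false,0,3,1)] (.split
  [1,2,0,4,0,1,2,3,0,0,1,2,0,0,0,-1] (.use (.H 0 0 3307) [(false,0,1,1)] (.leaf
  [2166,0,326,0,0,0,0,0,0,0,253,0,326,0,1231,0,1048,0,0,0,0,0,0,0,0,0,276,0,210,0,0,0,0,0,0,0,0,0,0,0,0,0,0,0,906,0,0,0,0,0,0,0,0,0,0,0,0,0,0,0,0,0,0,0,0,0,0,9480,69720]))
  (.use (.H 0 0 3307) [(true,0,1,1)] (.split [0,0,0,1,0,0,0,0,1,0,1,2,0,4,0,-1] (.use (.H 3 2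
  11528) [(false,0,4,1)] (.split [1,2,0,4,0,0,1,0,2,0,0,1,0,2,0,-1] (.use (.H 1 0 10571)
  [(false,0,2,1)] (.split [0,0,1,0,0,0,0,1,0,0,1,2,0,4,0,-1] (.use (.H 2 2 11396)
  [(false,0,3,1)] (.split [0,1,0,2,0,1,2,3,0,0,0,1,0,2,0,-1] (.use (.H 1 1 10474)
  [(false,0,2,1)] (.split [1,0,3,0,0,0,1,0,2,0,0,1,0,0,0,-1] (.use (.H 1 0 2373) [(false,0,2,1)]
  (.leaf
  [129,0,276,0,84,0,0,0,0,0,270,0,0,0,0,0,0,0,0,0,258,0,632,0,804,0,720,0,0,0,1644,0,0,0,0,0,1206,0,540,0,0,0,0,0,0,0,0,0,0,0,0,0,0,0,1266,0,0,0,0,0,0,0,0,0,0,0,0,0,0,0,0,0,0,0,0,0,197280,86040,48840]))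
  (.leaf
  [380880,1851,0,2991,0,6507,0,0,0,8973,0,0,0,0,0,0,0,0,0,1851,0,5777,0,7011,0,4020,0,0,0,8358,0,0,0,0,0,17100,0,1395,0,0,0,0,0,0,0,0,0,0,0,0,0,0,0,10785,0,0,0,0,0,0,0,0,0,0,0,0,0,0,0,0,0,0,0,0,0,2421900,762300])))
  (.use (.H 1 1 10474) [(true,0,2,1)] (.leaf
  [15135,0,13264,0,10683,0,0,0,1740,0,0,0,0,0,0,0,0,0,22917,0,21870,0,40278,0,13794,0,0,0,41382,0,0,0,0,0,50550,0,35190,0,0,0,0,0,0,0,0,0,0,0,0,0,0,0,42786,0,0,0,0,0,0,0,0,0,0,0,0,0,0,0,0,0,0,0,0,0,7381800]))))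
  (.use (.H 2 2 11396) [(true,0,3,1)] (.split [0,1,0,0,0,1,0,3,0,0,0,1,0,2,0,-1] (.use (.H 1 1
  10402) [(false,0,2,1)] (.leaf
  [24,0,28,0,24,0,0,0,0,0,0,0,0,0,0,0,0,0,0,0,14,0,99,0,39,0,0,0,42,0,0,0,0,0,21,0,0,0,0,0,0,0,0,0,0,0,0,0,0,0,0,0,69,0,0,0,0,0,0,0,0,0,0,0,0,0,0,0,0,0,0,0,0,0,4320]))
  (.use (.H 1 1 10402) [(true,0,2,1)] (.leaf
  [138,0,244,0,366,0,0,0,0,0,0,0,0,0,0,0,0,0,0,0,374,0,1155,0,190,0,0,0,570,0,0,0,0,0,495,0,0,0,0,0,0,0,0,0,0,0,0,0,0,0,0,0,764,0,0,0,0,0,0,0,0,0,0,0,0,0,0,0,0,0,0,0,0,0,115800]))))))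
  (.use (.H 1 0 10571) [(true,0,2,1)] (.leaf
  [1062,0,0,0,0,0,0,0,0,0,174,0,0,0,411,0,610,0,2214,0,1155,0,0,0,2778,0,0,0,0,0,2334,0,1296,0,0,0,0,0,0,0,0,0,0,0,0,0,0,0,318,0,0,0,0,0,0,0,0,0,0,0,0,0,0,0,0,0,0,28080,28440,0,91080]))))
  (.leaf
  [186840,0,0,0,0,0,0,1557,0,0,0,348,0,694,0,4509,0,690,0,0,0,2094,0,0,0,0,0,2058,0,0,0,0,0,0,0,0,0,0,0,0,0,0,0,0,0,2070,0,0,0,0,0,0,0,0,0,0,0,0,0,0,0,0,0,0,0,360,0,335160,11160])))))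
  (.use (.H 2 1 4452) [(true,0,3,1)] (.leaf
  [122,720,0,0,0,0,0,0,183,0,16,0,162,0,393,0,0,0,192,0,0,0,0,0,24,0,78,0,0,0,0,0,0,0,0,0,0,0,0,0,0,0,336,0,0,0,0,0,0,0,0,0,0,0,0,0,0,0,0,0,0,0,2520,4680]))))
  (.use (.H 1 1 10530) [(true,0,2,1)] (.leaf
  [258,0,36,0,0,0,132,0,98,0,501,0,753,0,0,0,294,0,0,0,0,0,147,0,72,0,0,0,0,0,0,0,0,0,0,0,0,0,0,0,363,0,0,0,0,0,0,0,0,0,0,0,0,0,0,0,0,0,0,0,0,0,0,7200]))))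
  (.use (.H 1 0 10507) [(true,0,2,1)] (.split [0,1,0,2,0,1,2,0,0,0,0,1,0,2,0,-1] (.use (.H 1 1
  10346) [(false,0,2,1)] (.leaf
  [303,0,909,0,0,0,0,0,428,0,1023,0,1023,0,0,0,1578,0,0,0,0,0,1500,0,1056,0,303,0,0,0,0,0,0,0,0,0,0,0,0,0,0,0,0,0,0,0,0,0,0,0,0,0,0,0,0,0,0,0,0,20160,27000,27000]))
  (.leaf
  [1080,216,0,0,0,9,0,176,0,507,0,341,0,0,0,546,0,0,0,0,0,420,0,260,0,130,0,0,0,0,0,0,0,0,0,0,0,0,0,50,0,0,0,0,0,0,0,0,0,0,0,0,0,0,0,0,0,0,9840,0,0,21000])))))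
  (.leaf
  [5400,0,0,170,0,120,0,199,0,0,0,420,0,0,0,0,0,244,0,22,0,11,0,0,0,0,0,0,0,0,0,0,0,0,0,310,0,0,0,0,0,0,0,0,0,0,0,0,0,0,0,0,0,0,0,0,0,55560,37920,12320])))
  (.use (.H 1 2 7490) [(true,0,2,1)] (.split [0,0,1,0,0,1,2,3,0,0,0,0,1,0,0,-1] (.use (.H 2 1
  4324) [(false,0,3,1)] (.leaf
  [658,0,645,0,274,0,0,0,1458,0,0,0,1518,0,0,0,0,0,0,0,618,0,411,0,0,0,0,0,0,0,0,0,0,0,0,0,780,0,0,0,0,0,0,0,0,0,0,0,0,0,0,0,0,0,0,0,20880,12960,3600,178560]))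
  (.leaf
  [160920,1127,0,3148,0,0,0,466,0,0,0,4080,0,0,0,0,0,1002,0,720,0,1701,0,0,0,0,0,0,0,0,0,0,0,0,0,3162,0,0,0,0,0,0,0,0,0,0,0,0,0,0,0,0,0,0,0,0,135240,485640,42240])))))
  (.use (.H 2 0 4231) [(true,0,3,1)] (.split [0,0,1,0,0,1,2,3,0,0,0,0,1,0,0,-1] (.use (.H 2 1
  4324) [(false,0,3,1)] (.split [1,0,1,1,1,-2,-2,-2,-2,-2,1,1,1,1,1,0] (.use (.E 0 2 1)
  [(false,0,1,1)] (.split [0,0,1,0,0,0,0,1,0,0,1,2,3,0,0,-1] (.use (.H 2 2 7300) [(false,0,3,1)]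
  (.split [1,2,0,0,0,0,0,0,1,0,0,0,0,1,0,-1] (.use (.H 3 0 8451) [(false,0,4,1)] (.split
  [1,1,1,1,1,0,0,-3,0,0,1,1,1,1,1,0] (.use (.M 1 4) [(false,0,1,1)] (.leaf
  [57,0,0,0,16,0,87,0,31,0,39,0,24,0,0,0,0,0,0,0,0,0,0,0,63,0,0,0,0,0,0,0,0,0,0,0,0,0,0,0,0,0,0,0,0,0,0,0,0,0,0,0,0,0,0,0,0,0,0,0,0,0,1980]))
  (.use (.M 1 4) [(true,0,1,1)] (.split [0,1,0,2,0,1,2,0,4,0,0,1,0,2,0,-1] (.use (.H 1 1 10602)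
  [(false,0,2,1)] (.split [0,1,0,0,0,1,0,3,0,0,0,0,0,2,0,-1] (.use (.H 1 1 8354) [(false,0,2,1)]
  (.leaf
  [36,0,168,0,0,0,0,0,241,0,300,0,167,0,287,0,408,0,459,0,0,0,501,0,0,0,0,0,730,0,0,0,0,0,0,0,0,0,0,0,0,0,0,0,0,0,116,0,0,0,0,0,0,0,0,0,0,0,0,0,0,0,0,0,0,0,2520]))
  (.use (.H 1 1 8354) [(true,0,2,1)] (.leaf
  [3,0,84,0,0,0,0,0,91,0,90,0,71,0,123,0,162,0,123,0,0,0,213,0,0,0,0,0,320,0,0,0,0,0,0,0,0,0,0,0,0,0,0,0,0,0,34,0,0,0,0,0,0,0,0,0,0,0,0,0,0,0,0,0,0,0,3600]))))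
  (.use (.H 1 1 10602) [(true,0,2,1)] (.split [0,1,0,2,0,0,1,0,2,0,1,2,3,0,0,-1] (.use (.H 1 2
  7498) [(false,0,2,1)] (.leaf
  [168,0,210,0,0,0,45,0,56,0,0,0,112,0,124,0,540,0,582,0,0,0,336,0,0,0,0,0,560,0,0,0,0,0,0,0,0,0,0,0,0,0,0,0,0,0,124,0,0,0,0,0,0,0,0,0,0,0,0,0,0,0,0,0,0,2160,5040]))
  (.use (.H 1 2 7498) [(true,0,2,1)] (.leaf
  [66,0,0,0,0,0,0,0,73,0,192,0,59,0,91,0,0,0,243,0,0,0,177,0,0,0,0,0,214,0,0,0,0,0,0,0,0,0,0,0,0,0,0,0,0,0,32,0,0,0,0,0,0,0,0,0,0,0,0,0,0,0,0,0,0,0,0,7920,0,3600]))))))))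
  (.leaf
  [33840,124,0,2124,0,570,0,520,0,930,0,1185,0,0,0,924,0,0,0,0,0,0,0,0,0,0,0,0,0,0,0,0,0,0,0,0,0,0,0,1398,0,0,0,0,0,0,0,0,0,0,0,0,0,0,0,0,0,0,0,16560])))
  (.leaf
  [39240,0,0,910,0,426,0,345,0,132,0,0,0,1026,0,0,0,0,0,0,0,0,0,486,0,0,0,0,0,0,0,0,0,0,0,0,0,1200,0,0,0,0,0,0,0,0,0,0,0,0,0,0,0,0,0,0,0,50400,0,0,104400])))
  (.leaf
  [13680,166,0,140,0,180,0,111,0,0,0,168,0,0,0,0,0,454,0,0,0,96,0,0,0,0,0,0,0,0,0,0,0,0,0,56,0,0,0,0,0,0,0,0,0,0,0,0,0,0,0,0,0,0,0,5040,0,0,28080])))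
  (.use (.H 2 1 4324) [(true,0,3,1)] (.split [1,0,3,0,0,0,0,1,0,0,0,0,1,0,0,-1] (.use (.H 2 0
  4229) [(false,0,3,1)] (.split [0,0,1,0,0,0,0,1,0,0,1,2,3,0,0,-1] (.use (.H 2 2 7300)
  [(false,0,3,1)] (.split [0,1,0,2,0,1,2,0,4,0,0,1,0,2,0,-1] (.use (.H 1 1 10602)
  [(false,0,2,1)] (.leaf
  [24,0,29,0,0,0,16,0,21,0,42,0,0,0,0,0,63,0,0,0,0,0,105,0,0,0,0,0,0,0,0,0,0,0,0,0,0,0,0,0,33,0,0,0,0,0,17,0,0,0,0,0,0,0,0,0,0,0,0,0,1260,360,8100]))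
  (.use (.H 1 1 10602) [(true,0,2,1)] (.leaf
  [582,0,94,0,0,0,412,0,264,0,345,0,0,0,0,0,1512,0,0,0,0,0,186,0,0,0,0,0,0,0,0,0,0,0,0,0,0,0,0,0,1836,0,0,0,0,0,0,0,0,0,0,0,0,0,0,0,0,0,0,0,78120,45360,91440]))))
  (.use (.H 2 2 7300) [(true,0,3,1)] (.leaf
  [31,0,110,0,37,0,56,0,27,0,0,0,0,0,333,0,0,0,0,0,118,0,0,0,0,0,0,0,0,0,0,0,0,0,0,0,0,0,56,0,0,0,0,0,1,0,0,0,0,0,0,0,0,0,0,0,0,0,6660,5580,2160]))))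
  (.use (.H 2 0 4229) [(true,0,3,1)] (.leaf
  [1,0,0,0,0,0,0,0,0,0,0,0,0,0,0,0,0,0,0,0,0,0,0,0,0,0,0,0,0,0,0,0,0,0,0,0,6,0,0,0,0,0,0,0,0,0,0,0,0,0,0,0,0,0,0,0,0,0,480,240,0,15]))))))))))))))
  (.use (.H 0 0 3179) [(true,0,1,1)] (.split [0,0,-3,-4,-5,1,1,1,1,1,1,1,1,1,1,0] (.use (.M 0
  28) [(false,0,1,1)] (.leaf
  [6,0,2,0,0,0,0,0,8,0,0,0,1,0,0,0,0,0,0,0,0,0,0,0,0,0,4,0,0,0,0,0,0,0,0,0,0,0,0,0,0,0,0,0,0,0,0,0,1200,600,160]))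
  (.use (.M 0 28) [(true,0,1,1)] (.split [1,2,0,0,0,1,2,0,0,0,1,2,0,0,0,-1] (.use (.H 0 0 3171)
  [(false,0,1,1)] (.split [1,1,1,1,1,1,1,1,1,1,0,0,0,0,-5,0] (.use (.M 2 16) [(false,0,1,1)]
  (.leaf
  [936,0,252,0,1164,0,1098,0,42,0,0,0,0,0,372,0,693,0,0,0,0,0,0,0,0,0,0,0,0,0,0,0,0,0,0,0,56,0,0,0,0,0,0,0,0,0,0,0,0,0,5040,30240,69840]))
  (.use (.M 2 16) [(true,0,1,1)] (.use (.M 1 16) [(true,41,1,1)] (.split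
  [1,1,1,1,1,1,1,1,1,1,0,0,0,-4,-5,0] (.use (.M 2 24) [(false,0,1,1)] (.leaf
  [83,0,0,0,0,36,0,12,0,174,0,36,0,0,0,172,0,74,0,95,0,0,0,0,0,0,0,0,0,0,0,0,0,0,0,0,0,0,0,0,0,0,0,0,0,0,0,0,0,0,0,0,0,3000,4320,7620]))
  (.use (.M 2 24) [(true,0,1,1)] (.split [1,2,3,0,0,0,0,1,0,0,0,0,1,0,0,-1] (.use (.H 2 0 4231)
  [(false,0,3,1)] (.split [1,2,3,0,0,0,1,0,0,0,0,1,0,2,0,-1] (.use (.H 1 0 10311)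
  [(false,0,2,1)] (.leaf
  [3003,0,2870,0,1246,0,2870,0,0,4872,0,6496,0,6798,0,1869,0,0,0,9140,0,5382,0,4305,0,0,0,0,0,0,0,0,0,0,0,0,0,0,0,0,0,0,0,0,0,0,0,0,0,0,0,0,0,0,0,0,0,0,146160,1375200,565800]))
  (.use (.H 1 0 10311) [(true,0,2,1)] (.leaf
  [1578,0,1286,0,1578,0,390,0,0,4032,0,1384,0,3858,0,1257,0,0,0,5222,0,0,0,1257,0,0,0,0,0,0,0,0,0,0,0,0,0,0,0,0,0,0,0,0,0,0,0,0,0,0,0,0,0,0,0,0,0,80640,80640,300240,78840]))))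
  (.use (.H 2 0 4231) [(true,0,3,1)] (.split [1,0,3,4,0,0,0,1,0,0,0,0,1,0,0,-1] (.use (.H 2 0
  4237) [(false,0,3,1)] (.leaf
  [44,720,40,0,0,0,0,0,0,216,0,24,0,162,0,36,0,0,0,120,0,0,0,45,0,0,0,0,0,0,0,0,0,0,0,0,0,0,0,0,0,0,0,0,0,0,0,0,0,0,0,0,0,0,0,0,0,4320,4320]))
  (.use (.H 2 0 4237) [(true,0,3,1)] (.leaf
  [68,0,88,0,0,0,0,0,0,600,0,2112,0,1074,0,276,0,0,0,0,0,0,0,393,0,0,0,0,0,0,0,0,0,0,0,0,0,0,0,0,0,0,0,192,0,0,0,0,0,0,0,0,0,0,0,0,0,17280,17280,158400,79200])))))))))))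
  (.use (.H 0 0 3171) [(true,0,1,1)] (.split [1,0,3,0,0,0,1,0,0,0,0,1,0,0,0,-1] (.use (.H 1 0
  2117) [(false,0,2,1)] (.leaf
  [24,0,156,0,24,0,30,0,48,0,0,0,0,0,0,0,57,0,0,0,0,0,0,0,0,0,0,0,0,0,0,0,0,0,0,0,16,0,0,0,0,0,0,0,0,0,0,0,0,0,1440,1440,0,0,0,900]))
  (.use (.H 1 0 2117) [(true,0,2,1)] (.leaf
  [1,0,0,0,0,0,0,0,0,0,0,0,4,0,0,0,0,0,0,0,0,0,0,0,0,0,0,0,0,0,0,0,0,0,0,0,0,0,0,0,0,0,0,0,0,0,0,0,0,0,0,0,320,160,0,10]))))))))))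
  (.use (.H 1 1 10338) [(true,0,2,1)] (.split [1,2,0,0,0,1,2,0,0,0,1,2,0,0,0,-1] (.use (.H 0 0
  3171) [(false,0,1,1)] (.leaf
  [94,0,64,0,0,0,27,0,0,0,20,0,0,0,0,0,0,0,0,0,0,0,0,0,67,0,0,0,0,0,0,0,0,0,0,0,0,0,0,0,0,0,0,0,360,4170,7920]))
  (.use (.H 0 0 3171) [(true,0,1,1)] (.leaf
  [30,0,12,0,0,0,28,0,0,0,15,0,0,0,12,0,0,0,0,0,0,0,0,0,8,0,0,0,0,0,0,0,0,0,0,0,0,0,0,0,0,0,0,0,0,1080,2880,0,0,180]))))))))))))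
  (.use (.H 1 2 3402) [(true,0,2,1)] (.leaf
  [116,0,44,0,105,0,0,0,0,0,0,0,57,0,0,0,0,0,0,0,0,0,0,0,0,0,0,0,0,0,0,0,0,7080,1320,1320,16080,8040]))))
  (.use (.H 0 0 3107) [(true,0,1,1)] (.use (.H 1 1 2082) [(false,27,2,1)] (.leaf
  [52,186,0,41,0,0,0,0,0,0,0,0,0,12,0,0,0,0,0,8,0,0,0,0,0,0,0,0,0,0,0,0,720,2400,0,0,4320,0,1020])))))
  (.use (.H 1 0 2371) [(true,0,2,1)] (.split [1,0,1,1,1,-2,-2,-2,-2,-2,1,1,1,1,1,0] (.use (.E 0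
  2 1) [(false,0,1,1)] (.use (.H 1 1 2082) [(false,27,2,1)] (.leaf
  [5,24,0,16,0,0,0,0,0,0,0,0,0,0,0,0,0,0,0,0,0,0,0,0,0,0,0,0,0,0,0,0,0,840,0,0,0,0,90]))) (.use
  (.E 0 2 1) [(true,0,1,1)] (.leaf
  [54,0,111,0,0,0,28,0,65,0,0,0,0,0,0,0,0,0,8,0,0,0,0,0,0,0,0,0,0,0,0,2400,720,1920,0,0,0,900]))))))
  (.use (.H 1 0 10313) [(true,0,2,1)] (.split [1,1,1,1,1,1,1,1,1,1,0,0,0,-4,0,0] (.use (.M 2 8)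
  [(false,0,1,1)] (.split [1,0,0,4,0,0,0,0,0,0,0,0,0,1,0,-1] (.use (.H 3 0 8201) [(false,0,4,1)]
  (.split [1,2,0,0,0,0,1,0,0,0,0,0,0,2,0,-1] (.use (.H 1 0 8259) [(false,0,2,1)] (.use (.M 1 16)
  [(true,25,1,1)] (.split [0,0,0,1,0,1,0,0,0,0,0,0,0,1,0,-1] (.use (.H 3 1 8232) [(false,0,4,1)]
  (.split [0,0,0,1,0,1,2,0,0,0,0,0,0,1,0,-1] (.use (.H 3 1 8296) [(false,0,4,1)] (.use (.H 3 0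
  8201) [(false,8,4,1)] (.split [0,1,0,2,0,1,2,0,0,0,0,1,0,2,0,-1] (.use (.H 1 1 10346)
  [(false,0,2,1)] (.split [0,1,0,0,0,1,0,3,0,0,0,0,0,2,0,-1] (.use (.H 1 1 8354) [(false,0,2,1)]
  (.split [0,0,0,1,0,1,2,3,0,0,0,0,0,1,0,-1] (.use (.H 3 1 8424) [(false,0,4,1)] (.split
  [1,0,3,0,0,0,0,0,1,0,0,0,0,1,0,-1] (.use (.H 3 0 8453) [(false,0,4,1)] (.leaf
  [32,0,64,0,0,0,177,0,32,0,0,0,0,0,0,0,0,0,296,0,137,0,0,0,0,0,74,0,0,0,0,0,0,0,0,0,0,0,0,0,0,0,0,0,0,0,0,3840,7680,0,0,10320,8240]))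
  (.use (.H 3 0 8453) [(true,0,4,1)] (.leaf
  [27,0,78,0,0,0,0,0,0,0,0,0,0,0,0,0,0,0,224,0,190,0,0,0,0,0,306,0,0,0,0,0,0,0,0,0,0,0,0,0,0,0,0,0,0,0,0,0,5940,10320]))))
  (.use (.H 3 1 8424) [(true,0,4,1)] (.leaf
  [216,0,0,39960,741,0,0,0,0,0,0,0,0,0,0,0,1040,0,427,0,0,0,0,0,540,0,0,0,0,0,0,0,0,0,0,0,0,0,0,0,0,0,0,0,0,0,16200,2400]))))
  (.use (.H 1 1 8354) [(true,0,2,1)] (.split [0,0,0,1,0,1,0,3,0,0,0,0,0,1,0,-1] (.use (.H 3 1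
  8360) [(false,0,4,1)] (.leaf
  [1101,0,804,0,1188,0,0,0,0,0,0,0,0,0,0,0,3088,0,1994,0,0,0,0,0,2484,0,0,0,0,0,0,0,0,0,0,0,0,0,0,0,0,0,0,0,0,0,71280,99840]))
  (.use (.H 3 1 8360) [(true,0,4,1)] (.split [-2,-2,-2,-2,-2,1,1,0,1,1,1,1,1,1,1,0] (.use (.E 1
  2 2) [(false,0,1,1)] (.leaf
  [34,0,4,0,0,0,3,0,0,0,0,0,0,0,0,0,0,0,14,0,16,0,0,0,0,0,45,0,0,0,0,0,0,0,0,0,0,0,0,0,0,0,0,0,0,0,0,0,120,1080,1440]))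
  (.leaf
  [1440,3,0,0,0,0,0,0,0,0,0,0,0,0,0,0,0,170,0,106,0,0,0,0,0,318,0,0,0,0,0,0,0,0,0,0,0,0,0,0,0,0,0,0,0,0,0,0,11040,21240,0,6000])))))))
  (.use (.H 1 1 10346) [(true,0,2,1)] (.leaf
  [318,0,0,213,0,0,0,0,0,0,0,0,392,0,100,0,0,0,0,0,324,0,0,0,0,0,0,0,0,0,0,0,0,0,0,0,0,0,0,0,0,0,12960,15360])))))
  (.use (.H 3 1 8296) [(true,0,4,1)] (.leaf
  [3,0,0,0,0,0,0,0,0,22,0,8,0,0,0,0,0,24,0,0,0,0,0,0,0,0,0,0,0,0,0,0,0,0,0,0,0,0,0,0,840,1800]))))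
  (.leaf
  [1680,22,0,0,3,0,24,0,0,0,0,0,0,0,8,0,0,0,0,0,0,0,0,0,0,0,0,0,0,0,0,0,0,0,0,0,0,840])))) (.use
  (.H 1 0 8259) [(true,0,2,1)] (.leaf
  [1,0,0,0,3,0,3,0,0,0,0,0,8,0,0,0,0,0,0,0,0,0,0,0,0,0,0,0,0,0,0,0,0,0,0,270,420])))) (.leaf
  [120,5,0,3,0,0,0,0,0,12,0,0,0,0,0,0,0,0,0,0,0,0,0,0,0,0,0,0,0,0,0,0,360,660,0,160]))) (.use
  (.M 2 8) [(true,0,1,1)] (.leaf
  [1,0,1,0,0,0,0,0,3,0,0,0,0,0,0,0,0,0,0,0,0,0,0,0,0,0,0,0,0,0,0,0,200,40,0,10])))))) (.use (.H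
  1 0 2305) [(true,0,2,1)] (.leaf
  [9,0,0,0,0,0,0,0,0,0,0,0,0,0,0,0,13,0,0,0,0,0,0,0,16,0,360,0,0,960,0,60])))) (.use (.H 1 2
  1290) [(true,0,2,1)] (.leaf
  [30,0,23,0,0,0,0,0,0,0,0,0,0,0,22,0,0,0,0,0,0,0,0,0,1200,0,0,1920,0,270])))))))) (.use (.H 0 0
  1185) [(true,0,1,1)] (.split [1,1,1,1,1,1,1,0,1,1,-2,-2,-2,-2,-2,0] (.use (.E 1 0 2)
  [(false,0,1,1)] (.leaf [2,0,1,0,0,0,0,0,0,0,0,0,0,0,0,0,0,0,0,0,0,0,40,80,0,5])) (.use (.E 1 0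
  2) [(true,0,1,1)] (.split [0,0,-3,-4,-5,1,1,1,1,1,1,1,1,1,1,0] (.use (.M 0 28) [(false,0,1,1)]
  (.leaf [9,0,4,0,8,0,0,0,0,0,2,0,0,0,0,0,0,0,0,0,0,360,60,0,420,0,220])) (.use (.M 0 28)
  [(true,0,1,1)] (.leaf [6,0,6,0,15,0,0,0,2,0,0,0,0,0,0,0,0,0,0,0,0,0,360,0,360,0,0,45]))))))))
  (.use (.H 2 1 4196) [(true,0,3,1)] (.split [1,1,1,1,1,1,0,1,1,1,-2,-2,-2,-2,-2,0] (.use (.E 1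
  0 1) [(false,0,1,1)] (.leaf [21,0,7,0,0,0,4,0,0,0,0,0,0,0,0,0,0,0,0,360,60,120,0,75])) (.use
  (.E 1 0 1) [(true,0,1,1)] (.leaf [33,0,22,0,0,0,0,0,12,0,0,0,0,0,0,0,24,0,0,0,0,0,0,540]))))))
  (.use (.H 2 0 4227) [(true,0,3,1)] (.split [1,0,1,1,1,-2,-2,-2,-2,-2,1,1,1,1,1,0] (.use (.E 0
  2 1) [(false,0,1,1)] (.leaf [4,0,1,0,0,0,0,0,0,0,0,0,0,0,4,0,0,0,240,0,0,15])) (.leaf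
  [2880,86,0,0,0,0,0,0,0,105,0,0,0,72,0,0,0,0,4320,0,2340]))))) (.use (.H 2 2 3204)
  [(true,0,3,1)] (.leaf [14,0,0,0,0,0,9,0,0,0,0,0,0,0,480,960,0,420])))))) (.use (.H 1 2 3136)
  [(true,0,2,1)] (.leaf [7,0,3,0,0,0,0,0,0,0,160,320,0,140])))) (.use (.H 1 1 2082)
  [(true,0,2,1)] (.leaf [1,0,0,0,0,0,0,0,0,0,0,10])))) (.use (.H 0 0 1057) [(true,0,1,1)] (.leaf
  [8,0,7,0,0,0,0,0,0,75])))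

theorem certG2_ok : chk 60 (vmk (fun _ _ => 40) (-7)) certG2 (baseF 1 1 5 4) = true := by
  decide +kernel

end AbcEM
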