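import Pool.Agent.Work.MP_a793bb_nt.EM.CDefs

set_option autoImplicit false
set_option maxRecDepth 100000

namespace AbcEM

/-- certificate G3 -/
def certG3 : Cert :=
  .use (.H 0 0 31) [(false,0,1,1)] (.split [1,0,0,0,0,1,0,0,0,0,1,0,0,0,0,-1] (.use (.H 0 0 1057)
  [(false,0,1,1)] (.split [1,1,1,1,1,0,0,0,0,-5,1,1,1,1,1,0] (.leaf [84,0,0,5,0,105,0,43,32,19])
  (.use (.M 1 16) [(true,0,1,1)] (.split [1,0,0,0,0,0,1,0,0,0,0,0,0,0,0,-1] (.use (.H 1 0 65)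
  [(false,0,2,1)] (.split [1,1,1,1,1,1,1,1,1,1,0,0,0,0,-5,0] (.leaf
  [2520,0,0,43,0,0,0,64,0,0,3150,0,330,570]) (.use (.M 2 16) [(true,0,1,1)] (.split
  [1,1,1,1,1,0,0,0,-4,-5,1,1,1,1,1,0] (.leaf [1890,13,0,0,0,0,0,0,0,34,0,2520,0,0,120,480])
  (.use (.M 1 24) [(true,0,1,1)] (.split [0,1,0,0,0,0,1,0,0,0,1,0,0,0,0,-1] (.use (.H 1 2 1090)
  [(false,0,2,1)] (.split [0,0,-3,-4,-5,1,1,1,1,1,1,1,1,1,1,0] (.use (.M 0 28) [(false,0,1,1)]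
  (.leaf [14,0,0,0,0,0,1,0,0,0,0,0,0,0,0,210,0,0,270,120,30])) (.use (.M 0 28) [(true,0,1,1)]
  (.use (.H 0 0 1057) [(false,13,1,1)] (.split [0,1,0,2,0,1,0,0,0,0,0,1,0,2,0,-1] (.use (.H 1 1
  10282) [(false,0,2,1)] (.split [1,2,0,0,0,0,1,0,0,0,0,1,0,0,0,-1] (.use (.H 1 0 2115)
  [(false,0,2,1)] (.split [1,2,0,0,0,1,0,0,0,0,1,0,0,0,0,-1] (.use (.H 0 0 1059) [(false,0,1,1)]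
  (.split [1,2,0,0,0,0,0,1,0,0,0,0,1,0,0,-1] (.use (.H 2 0 4227) [(false,0,3,1)] (.split
  [0,1,0,0,0,0,1,0,0,0,1,2,0,0,0,-1] (.use (.H 1 2 3138) [(false,0,2,1)] (.split
  [1,1,1,1,1,1,1,1,1,1,0,0,-3,0,-5,0] (.use (.M 2 20) [(false,0,1,1)] (.split
  [0,0,1,0,0,1,2,0,0,0,0,0,1,0,0,-1] (.use (.H 2 1 4196) [(false,0,3,1)] (.use (.M 1 24)
  [(true,20,1,1)] (.leaf
  [6,4,0,21,225,0,0,4,0,0,0,0,0,0,0,0,6,0,0,0,0,0,0,0,0,0,0,0,0,0,0,0,0,405,0,0,45]))) (.use (.H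
  2 1 4196) [(true,0,3,1)] (.leaf
  [2,0,15,90,0,0,4,0,0,0,3,0,0,0,0,18,0,0,0,0,0,0,0,0,0,0,0,0,0,0,0,0,270,405])))) (.use (.M 2
  20) [(true,0,1,1)] (.split [1,0,0,0,0,1,2,0,0,0,1,0,0,0,0,-1] (.use (.H 0 0 1121)
  [(false,0,1,1)] (.split [1,0,0,0,0,1,0,0,0,0,1,2,0,0,0,-1] (.use (.H 0 0 3105) [(false,0,1,1)]
  (.split [0,0,1,0,0,1,2,0,0,0,0,0,1,0,0,-1] (.use (.H 2 1 4196) [(false,0,3,1)] (.split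
  [0,0,1,0,0,0,0,1,0,0,1,2,0,0,0,-1] (.use (.H 2 2 3204) [(false,0,3,1)] (.split
  [1,1,1,1,1,0,0,-3,-4,0,1,1,1,1,1,0] (.use (.M 1 12) [(false,0,1,1)] (.leaf
  [72,0,10,0,0,0,0,0,0,0,0,0,0,0,6,0,24,0,3,0,0,0,0,24,0,0,0,0,0,0,0,0,0,0,0,0,0,0,0,720,270,0,360,90]))
  (.use (.M 1 12) [(true,0,1,1)] (.split [1,1,1,1,1,1,1,1,1,1,0,0,0,-4,0,0] (.leaf
  [1830,5,0,5,0,0,0,0,0,2,0,0,0,0,0,0,0,38,0,14,0,0,0,0,51,0,0,0,0,0,0,0,0,0,0,0,0,0,0,0,150,2715,810,0,495])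
  (.use (.M 2 8) [(true,0,1,1)] (.split [0,1,0,2,0,1,2,0,0,0,0,1,0,2,0,-1] (.use (.H 1 1 10346)
  [(false,0,2,1)] (.split [1,1,1,1,1,0,0,-3,-4,-5,1,1,1,1,1,0] (.use (.M 1 28) [(false,0,1,1)]
  (.leaf
  [2096,0,0,0,0,0,427,0,137,0,0,0,0,0,0,0,0,0,0,0,290,0,0,0,0,0,0,0,0,459,0,0,0,0,0,0,0,0,0,0,0,0,0,0,0,12810,2055,0,18600,75]))
  (.use (.M 1 28) [(true,0,1,1)] (.use (.H 0 0 3105) [(false,13,1,1)] (.use (.M 2 20)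
  [(true,18,1,1)] (.split [1,1,1,1,1,1,1,1,1,1,0,0,-3,-4,-5,0] (.use (.M 2 28) [(false,0,1,1)]
  (.leaf
  [132,0,0,0,51,0,14,0,0,0,0,0,0,0,13,0,0,0,35,0,0,0,0,0,22,0,0,0,0,0,0,0,0,48,0,0,0,0,0,0,0,0,0,0,0,0,0,0,105,0,1155]))
  (.use (.M 2 28) [(true,0,1,1)] (.split [1,0,0,0,0,1,2,0,0,0,1,2,0,0,0,-1] (.use (.H 0 0 3169)
  [(false,0,1,1)] (.use (.M 1 28) [(true,7,1,1)] (.split [1,2,0,0,0,0,1,0,2,0,0,1,0,2,0,-1]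
  (.use (.H 1 0 10563) [(false,0,2,1)] (.split [1,2,0,4,0,0,0,1,0,0,0,0,1,0,0,-1] (.use (.H 2 0
  4235) [(false,0,3,1)] (.split [0,0,1,0,0,1,2,0,4,0,0,0,1,0,0,-1] (.use (.H 2 1 4452)
  [(false,0,3,1)] (.split [1,2,0,0,0,1,2,0,0,0,1,2,0,0,0,-1] (.use (.H 0 0 3171) [(false,0,1,1)]
  (.leaf
  [99,0,13,0,0,0,12,0,144,174,0,144,0,0,0,0,0,0,0,0,0,0,0,13,0,0,0,0,0,0,0,0,0,0,0,43,0,0,0,0,0,0,0,0,0,0,0,0,0,0,0,0,0,0,0,0,0,0,0,2610,0,0,0,0,90]))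
  (.use (.H 0 0 3171) [(true,0,1,1)] (.split [0,1,0,0,0,0,1,0,2,0,1,2,3,4,0,-1] (.use (.H 1 2
  15682) [(false,0,2,1)] (.leaf
  [75,0,138,0,12,0,0,0,0,0,330,642,0,300,0,0,0,0,0,75,0,0,0,0,0,32,0,0,0,0,0,0,0,0,0,0,0,138,0,12,0,0,0,0,0,0,0,0,0,0,0,0,0,0,0,0,0,0,0,0,0,6840,0,0,0,0,0,342]))
  (.use (.H 1 2 15682) [(true,0,2,1)] (.split [0,0,1,0,0,0,0,1,0,0,1,2,3,0,0,-1] (.use (.H 2 2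
  7300) [(false,0,3,1)] (.leaf
  [30,0,18,0,138,0,46,0,0,0,45,0,0,294,0,192,0,0,0,0,0,105,0,0,0,0,0,22,0,0,0,0,0,0,0,0,0,0,0,76,0,126,0,0,0,0,0,0,0,0,0,0,0,0,0,0,0,0,0,0,0,0,0,3330,2880]))
  (.use (.H 2 2 7300) [(true,0,3,1)] (.split [1,2,0,0,0,1,2,0,4,0,1,0,0,0,0,-1] (.use (.H 0 0
  1379) [(false,0,1,1)] (.leaf
  [2094,0,0,0,261,0,2394,0,444,0,748,0,0,0,0,2130,0,0,0,0,0,0,0,1416,0,0,0,0,0,584,0,0,0,0,0,0,0,0,0,0,0,0,0,0,0,0,0,0,0,0,0,0,0,0,0,0,0,0,0,0,0,0,0,0,0,25380,29970,18990,0,27450]))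
  (.use (.H 0 0 1379) [(true,0,1,1)] (.leaf
  [159,0,1056,0,0,0,2469,0,1562,0,0,0,0,0,0,5691,0,0,0,0,0,0,0,2439,0,0,0,0,0,696,0,0,0,0,0,0,0,0,0,0,0,2110,0,1581,0,0,0,0,0,0,0,0,0,0,0,0,0,0,0,0,0,0,0,0,0,50805,63135,35100,5625,72900]))))))))))
  (.use (.H 2 1 4452) [(true,0,3,1)] (.leaf
  [32,0,25,0,63,0,162,177,0,102,0,0,0,0,0,0,0,0,0,0,0,4,0,43,0,0,0,0,0,0,0,0,0,0,0,117,0,0,0,0,0,0,0,0,0,0,0,0,0,0,0,0,0,0,0,0,0,2655,1305,0,0,2430]))))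
  (.use (.H 2 0 4235) [(true,0,3,1)] (.leaf
  [118,0,0,0,402,774,0,504,0,0,0,0,0,207,0,0,0,0,0,22,0,0,0,0,0,0,0,0,0,0,0,176,0,192,0,0,0,0,0,0,0,0,0,0,0,0,0,0,0,0,0,0,0,0,0,10710,2880,0,0,2520]))))
  (.use (.H 1 0 10563) [(true,0,2,1)] (.leaf
  [138,0,162,294,0,258,0,0,0,0,0,144,0,0,0,0,0,0,0,32,0,0,0,0,0,0,0,0,0,67,0,315,0,0,0,0,0,0,150,0,0,0,0,0,0,0,0,0,0,0,0,0,0,4230,4725,405,0,3600])))))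
  (.use (.H 0 0 3169) [(true,0,1,1)] (.leaf
  [840,0,0,0,0,273,0,0,228,0,0,0,0,0,139,0,117,0,0,0,567,0,0,0,0,0,44,0,0,0,282,0,0,0,0,0,0,0,0,0,0,0,0,0,0,0,0,0,0,0,5760,8235,5805,0,4140]))))))))))
  (.use (.H 1 1 10346) [(true,0,2,1)] (.split [1,1,1,1,1,1,1,1,1,1,0,0,-3,-4,-5,0] (.leaf
  [360,21,0,15,0,0,0,0,0,0,0,0,0,18,0,0,0,0,0,2,0,0,0,18,0,0,0,0,24,0,0,0,0,0,0,0,0,0,0,0,0,0,0,270,90,630,810,90])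
  (.use (.M 2 28) [(true,0,1,1)] (.split [2,0,0,0,0,0,0,0,0,0,0,-2,-3,-4,-5,0] (.split
  [0,0,4,0,0,0,0,0,0,0,0,-2,-3,-4,-5,0] (.split [0,0,0,0,0,2,0,0,0,0,0,-2,-3,-4,-5,0] (.split
  [0,0,0,0,0,0,0,4,0,0,0,-2,-3,-4,-5,0] (.split [0,4,0,0,0,0,0,0,0,0,0,-2,-3,-4,-5,0] (.split
  [0,0,0,0,0,0,4,0,0,0,0,-2,-3,-4,-5,0] (.use (.R 2 3)
  [(false,5,1,1),(false,1,1,1),(false,4,1,1),(false,3,1,1),(false,0,1,1),(false,2,1,1)] (.leaf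
  [1,0,0,0,0,0,0,8,0,12,0,2,0,0,0,0,0,0,0,0,0,16,0,0,0,0,0,0,0,8,0,10,0,0,0,0,12,0,0,0,0,0,0,0,0,0,0,0,0,0,0,240,180,180,360]))
  (.use (.R 2 3)
  [(false,5,1,1),(false,1,1,1),(false,4,1,1),(false,3,1,1),(true,0,1,1),(false,2,1,1)] (.leaf
  [9,0,15,0,0,0,0,56,0,64,0,0,0,0,0,0,0,0,0,0,0,104,0,0,0,0,0,0,0,32,0,64,0,0,0,0,72,0,0,0,0,0,0,0,0,0,0,0,0,0,0,1380,1020,960,2160])))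
  (.split [0,0,0,0,0,0,4,0,0,0,0,-2,-3,-4,-5,0] (.use (.R 2 3)
  [(false,5,1,1),(true,1,1,1),(false,4,1,1),(false,3,1,1),(false,0,1,1),(false,2,1,1)] (.leaf
  [9,15,0,0,0,0,0,56,0,64,0,0,0,0,0,0,0,0,0,0,0,64,0,0,0,0,0,0,0,72,0,64,0,0,0,0,72,0,0,0,0,0,0,0,0,0,0,0,0,0,0,1380,1020,960,2160]))
  (.use (.R 2 3)
  [(false,5,1,1),(true,1,1,1),(false,4,1,1),(false,3,1,1),(true,0,1,1),(false,2,1,1)] (.leaf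
  [3,0,150,0,0,0,0,48,0,32,0,0,0,0,0,0,0,0,0,0,0,24,0,0,0,0,0,0,0,48,0,44,0,0,0,0,8,0,0,0,0,0,0,0,0,0,0,0,0,0,0,1140,540,0,1080]))))
  (.leaf
  [15,0,0,0,7,0,6,0,0,0,0,0,0,0,0,0,0,0,8,0,0,0,0,0,0,0,4,0,4,0,0,0,0,4,0,0,0,0,0,0,0,0,0,0,0,0,0,0,120,120,30,120,0,0,6]))
  (.leaf
  [420,0,0,0,0,142,0,61,0,0,0,0,0,0,0,0,0,270,0,0,0,0,0,0,0,82,0,81,0,0,0,0,110,0,0,0,0,0,0,0,0,0,0,0,0,0,0,2310,2220,2010,2460]))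
  (.leaf
  [75,0,20,0,16,0,0,0,0,0,0,0,0,0,0,0,28,0,0,0,0,0,0,0,0,0,9,0,0,0,0,10,0,0,0,0,0,0,0,0,0,0,0,0,0,0,420,210,0,390,0,0,42]))
  (.leaf
  [120,8,0,8,0,0,0,0,0,0,0,0,0,0,0,14,0,0,0,0,0,0,0,18,0,9,0,0,0,0,4,0,0,0,0,0,0,0,0,0,0,0,0,0,0,180,240])))))))))))
  (.use (.H 2 2 3204) [(true,0,3,1)] (.leaf
  [58,0,0,0,180,0,6,0,0,0,0,0,0,0,6,0,45,0,0,0,0,42,0,0,0,0,0,0,0,0,0,0,0,0,0,0,810,1440,1440]))))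
  (.use (.H 2 1 4196) [(true,0,3,1)] (.leaf
  [164,0,6,0,498,0,0,0,0,0,24,0,0,0,141,0,0,0,0,0,0,0,0,0,0,0,0,0,0,0,0,0,0,0,3600,3240,3240]))))
  (.use (.H 0 0 3105) [(true,0,1,1)] (.split [-2,-2,-2,-2,-2,1,1,1,1,1,1,0,1,1,1,0] (.use (.E 2
  1 1) [(false,0,1,1)] (.use (.H 0 0 1057) [(false,32,1,1)] (.split
  [1,2,0,0,0,1,0,0,0,0,1,0,3,0,0,-1] (.use (.H 0 0 5155) [(false,0,1,1)] (.split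
  [1,0,0,0,0,0,0,0,0,0,0,1,0,2,0,-1] (.use (.H 1 0 10241) [(false,0,2,1)] (.use (.H 0 0 1057)
  [(false,37,1,1)] (.split [1,1,1,1,1,-2,-2,-2,-2,-2,1,0,1,1,1,0] (.use (.E 2 0 1)
  [(false,0,1,1)] (.use (.H 0 0 5155) [(false,6,1,1)] (.split [0,1,0,2,0,1,2,0,0,0,0,1,0,2,0,-1]
  (.use (.H 1 1 10346) [(false,0,2,1)] (.split [0,0,0,0,0,0,-2,-3,-4,-5,2,0,2,0,0,0] (.split
  [0,4,0,0,0,0,-2,-3,-4,-5,0,0,0,0,0,0] (.split [0,0,0,0,0,0,-2,-3,-4,-5,0,0,8,0,0,0] (.split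
  [0,0,0,0,0,0,-2,-3,-4,-5,0,2,0,0,0,0] (.split [2,0,0,0,0,0,-2,-3,-4,-5,0,0,0,0,0,0] (.split
  [0,0,4,0,0,0,-2,-3,-4,-5,0,0,0,0,0,0] (.use (.R 1 1)
  [(false,3,1,1),(false,5,1,1),(false,2,1,1),(false,1,1,1),(false,4,1,1),(false,0,1,1)] (.leaf
  [2,0,0,0,0,0,0,2,0,0,20,0,0,0,0,0,0,0,10,0,42,0,0,0,0,0,0,0,0,0,0,0,3,0,0,0,0,2,0,0,0,0,0,0,0,0,0,0,0,0,0,0,30,150,30,0,0,0,228]))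
  (.use (.R 1 1)
  [(false,3,1,1),(false,5,1,1),(false,2,1,1),(false,1,1,1),(false,4,1,1),(true,0,1,1)] (.split
  [1,0,0,0,0,0,1,0,0,0,0,1,0,2,0,-1] (.use (.H 1 0 10305) [(false,0,2,1)] (.split
  [0,-2,-3,-4,-5,2,0,0,0,0,0,0,0,0,0,0] (.split [0,-2,-3,-4,-5,0,4,0,0,0,0,0,0,0,0,0] (.split
  [0,-2,-3,-4,-5,0,0,4,0,0,0,0,0,0,0,0] (.leaf
  [210,0,0,12,0,24,0,0,0,0,0,0,0,0,0,104,0,0,0,0,0,0,0,216,0,458,0,0,0,0,0,0,0,0,0,0,0,45,0,0,0,0,0,0,0,0,0,0,0,0,0,0,0,0,0,0,0,1890,480,360,0,0,0,2316])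
  (.split [0,-2,-3,-4,-5,0,0,0,0,0,0,0,8,0,0,0] (.split [0,-2,-3,-4,-5,0,0,0,0,0,2,0,2,0,0,0]
  (.split [0,-2,-3,-4,-5,0,0,0,0,0,0,2,0,0,0,0] (.use (.R 0 2)
  [(false,5,1,1),(false,4,1,1),(true,3,1,1),(false,2,1,1),(false,1,1,1),(false,0,1,1)] (.leaf
  [35,0,0,0,1155,0,0,0,0,64,0,0,0,0,0,0,0,0,0,616,0,0,0,0,0,0,0,0,0,748,0,0,0,0,0,0,0,0,0,0,0,0,0,0,0,0,0,0,0,0,0,0,0,0,0,0,0,0,0,0,0,1500,5760,1980,1620,0,0,2508]))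
  (.leaf
  [870,120,0,0,0,0,35,0,20,0,0,0,0,0,0,0,0,0,90,0,0,0,0,0,0,0,30,0,82,0,0,0,0,0,0,0,0,0,0,0,0,0,0,0,0,0,0,0,0,0,0,0,0,0,0,0,0,0,0,0,0,750,360,0,0,0,408]))
  (.leaf
  [5820,0,0,2940,0,21,0,236,0,0,0,0,0,0,0,0,0,2634,0,0,0,0,0,0,0,0,0,3494,0,0,0,0,0,0,0,0,0,0,0,0,0,0,0,0,0,0,0,0,0,0,0,0,0,0,0,0,0,0,0,0,8850,630,5490,0,0,21438]))
  (.leaf
  [525,2475,0,0,52,0,124,0,0,0,0,0,0,0,0,0,1080,0,0,0,0,0,0,0,48,0,1400,0,0,0,0,0,0,0,0,0,0,0,0,0,0,0,0,0,0,0,0,0,0,0,0,0,0,0,0,0,0,0,0,9600,1680,0,0,0,6408])))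
  (.leaf
  [15,0,0,0,0,0,0,0,0,0,0,0,0,0,1,0,0,0,0,0,0,0,4,0,10,0,0,0,0,0,0,0,0,0,0,0,2,0,0,0,0,0,0,0,0,0,0,0,0,0,0,0,0,0,0,0,0,0,0,0,0,0,66]))
  (.leaf
  [390,0,0,16,0,0,0,0,0,0,0,0,0,90,0,0,0,0,0,0,0,102,0,286,0,0,0,0,0,0,0,0,0,0,0,15,0,0,0,0,0,0,0,0,0,0,0,0,0,0,0,0,0,0,0,120,210,0,0,0,0,1872])))
  (.leaf
  [210,6,0,0,0,0,0,0,35,0,0,153,0,0,0,0,0,0,0,0,0,224,0,0,0,0,0,0,0,0,0,0,0,0,0,0,0,0,0,0,0,0,0,0,0,0,0,0,0,0,0,0,0,75,750,45,0,0,0,1332]))))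
  (.leaf
  [15,15,0,0,0,0,0,0,0,0,0,1,0,0,0,0,0,0,4,0,0,0,0,0,0,0,0,0,0,0,0,0,0,0,0,0,0,0,0,0,0,0,0,0,0,0,0,0,0,0,0,0,0,0,0,0,24]))
  (.split [2,0,0,0,0,0,-2,-3,-4,-5,0,0,0,0,0,0] (.split [0,0,4,0,0,0,-2,-3,-4,-5,0,0,0,0,0,0]
  (.use (.R 1 1)
  [(false,3,1,1),(false,5,1,1),(true,2,1,1),(false,1,1,1),(false,4,1,1),(false,0,1,1)] (.leaf
  [12,15,0,135,0,0,0,0,0,0,0,0,0,6,0,0,0,0,130,0,144,0,0,0,0,0,0,0,0,0,0,0,28,0,0,0,0,40,0,0,0,0,0,0,0,0,0,0,0,0,0,0,180,0,180,0,270,0,1032]))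
  (.use (.R 1 1)
  [(false,3,1,1),(false,5,1,1),(true,2,1,1),(false,1,1,1),(false,4,1,1),(true,0,1,1)] (.leaf
  [42,0,0,210,0,0,0,21,0,0,48,0,0,0,0,0,0,0,66,0,58,0,0,0,0,0,0,0,0,0,0,0,28,0,0,0,0,0,0,0,0,0,0,0,0,0,0,0,0,0,0,0,1680,0,630,0,900])))
  (.split [0,0,4,0,0,0,-2,-3,-4,-5,0,0,0,0,0,0] (.use (.R 1 1)
  [(false,3,1,1),(false,5,1,1),(true,2,1,1),(true,1,1,1),(false,4,1,1),(false,0,1,1)] (.leaf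
  [4,30,0,0,0,0,0,5,0,0,0,0,0,13,0,0,0,0,35,0,71,0,0,0,0,0,0,0,0,0,0,0,6,0,0,0,0,14,0,0,0,0,0,0,0,0,0,0,0,0,0,0,0,0,60,0,165,0,501]))
  (.use (.R 1 1)
  [(false,3,1,1),(false,5,1,1),(true,2,1,1),(true,1,1,1),(false,4,1,1),(true,0,1,1)] (.leaf
  [28,0,0,0,0,0,60,92,0,0,258,0,0,0,0,0,0,0,0,0,402,0,0,0,0,0,0,0,0,0,0,0,25,0,0,0,0,50,0,0,0,0,0,0,0,0,0,0,0,0,0,0,0,0,450,0,0,0,2844])))))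
  (.split [0,0,0,0,0,0,-2,-3,-4,-5,0,2,0,0,0,0] (.split [2,0,0,0,0,0,-2,-3,-4,-5,0,0,0,0,0,0]
  (.split [0,0,4,0,0,0,-2,-3,-4,-5,0,0,0,0,0,0] (.use (.R 1 1)
  [(true,3,1,1),(false,5,1,1),(false,2,1,1),(false,1,1,1),(false,4,1,1),(false,0,1,1)] (.leaf
  [11,0,0,0,75,0,0,0,0,0,0,0,0,0,0,0,0,0,92,0,208,0,0,0,0,0,0,0,0,0,0,0,26,0,0,0,0,52,0,0,0,0,0,0,0,0,0,0,0,0,0,0,0,300,960,0,0,0,1044]))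
  (.use (.R 1 1)
  [(true,3,1,1),(false,5,1,1),(false,2,1,1),(false,1,1,1),(false,4,1,1),(true,0,1,1)] (.leaf
  [3,0,0,0,0,0,0,7,0,0,24,0,0,0,0,0,0,0,0,0,52,0,0,0,0,0,0,0,0,0,0,0,1,0,0,0,0,2,0,0,0,0,0,0,0,0,0,0,0,0,0,0,90,150,180,0,0,0,216])))
  (.leaf
  [15,15,0,0,0,0,0,0,0,0,0,1,0,0,0,0,0,0,4,0,0,0,0,0,0,0,0,0,0,0,0,0,0,0,0,0,0,0,0,0,0,0,0,0,0,0,0,0,0,0,0,0,0,0,0,0,24]))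
  (.split [2,0,0,0,0,0,-2,-3,-4,-5,0,0,0,0,0,0] (.split [0,0,4,0,0,0,-2,-3,-4,-5,0,0,0,0,0,0]
  (.use (.R 1 1)
  [(true,3,1,1),(false,5,1,1),(true,2,1,1),(false,1,1,1),(false,4,1,1),(false,0,1,1)] (.leaf
  [127,0,90,0,0,0,0,0,0,0,72,0,0,0,0,0,0,0,104,0,466,0,0,0,0,0,0,0,0,0,0,0,133,0,0,0,0,0,0,0,0,0,0,0,0,0,0,0,0,0,0,0,3930,0,7260]))
  (.use (.R 1 1)
  [(true,3,1,1),(false,5,1,1),(true,2,1,1),(false,1,1,1),(false,4,1,1),(true,0,1,1)] (.leaf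
  [19,0,0,60,0,0,120,32,0,0,0,0,0,0,0,0,0,0,0,0,48,0,0,0,0,0,0,0,0,0,0,0,4,0,0,0,0,44,0,0,0,0,0,0,0,0,0,0,0,0,0,0,300,0,1140,0,360])))
  (.split [0,0,4,0,0,0,-2,-3,-4,-5,0,0,0,0,0,0] (.use (.R 1 1)
  [(true,3,1,1),(false,5,1,1),(true,2,1,1),(true,1,1,1),(false,4,1,1),(false,0,1,1)] (.leaf
  [11,15,0,0,0,0,150,22,0,0,0,0,0,0,0,0,0,0,0,0,96,0,0,0,0,0,0,0,0,0,0,0,36,0,0,0,0,24,0,0,0,0,0,0,0,0,0,0,0,0,0,0,0,0,660,0,180,0,492]))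
  (.use (.R 1 1)
  [(true,3,1,1),(false,5,1,1),(true,2,1,1),(true,1,1,1),(false,4,1,1),(true,0,1,1)] (.split
  [1,0,0,0,0,1,0,0,0,0,0,0,3,0,0,-1] (.use (.H 0 0 4129) [(false,0,1,1)] (.leaf
  [4,0,1,0,0,0,0,0,0,2,0,0,10,0,0,0,0,0,0,0,0,0,12,0,0,0,0,0,0,0,0,0,0,0,0,0,0,0,0,0,0,0,0,0,0,0,0,0,0,0,0,0,0,0,30,0,30,0,0,0,72]))
  (.use (.H 0 0 4129) [(true,0,1,1)] (.leaf
  [1,0,1,0,0,0,0,0,0,5,0,0,18,0,0,0,0,0,0,0,0,0,32,0,0,0,0,0,0,0,0,0,0,0,0,0,0,0,0,0,0,0,0,0,0,0,0,0,0,0,0,0,0,0,0,0,30,0,0,0,213]))))))))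
  (.leaf
  [60,0,8,0,0,18,0,0,0,0,0,0,0,0,0,29,0,0,0,0,0,0,0,0,0,0,0,0,0,0,0,0,0,0,0,0,0,0,0,0,0,0,0,0,0,0,0,0,30,0,0,0,0,189]))
  (.leaf
  [30,3,0,0,10,0,0,1,0,0,0,0,10,0,32,0,0,0,0,0,0,0,0,0,0,0,0,0,0,0,0,2,0,0,0,0,0,0,0,0,0,0,0,0,0,0,0,0,0,0,0,0,216])))
  (.leaf
  [30,2,0,0,0,1,0,0,0,0,8,0,12,0,0,0,0,0,0,0,0,0,0,0,2,0,0,0,0,0,0,0,0,0,0,0,0,0,0,0,0,0,0,0,60,0,15,30,0,0,69]))))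
  (.leaf
  [30,0,0,0,0,0,0,9,0,15,0,0,0,0,0,0,0,0,0,0,0,2,0,0,0,0,4,0,0,0,0,0,0,0,0,0,0,0,0,0,0,0,0,0,0,45,0,105]))))
  (.leaf
  [30,0,0,0,6,0,10,0,0,0,0,0,0,0,0,0,0,0,2,0,0,0,0,2,0,0,0,0,0,0,0,0,0,0,0,0,0,0,0,0,15,0,0,0,75])))
  (.use (.H 0 0 5155) [(true,0,1,1)] (.leaf
  [1,0,0,1,0,4,0,0,0,0,0,0,0,0,0,0,0,1,0,0,0,0,0,0,0,0,0,0,0,0,0,0,0,0,0,0,0,15,0,15,15,0,0,21])))))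
  (.leaf
  [15,3,0,0,0,0,0,0,0,0,0,0,0,1,0,0,0,0,2,0,0,0,0,0,0,0,0,0,0,0,0,0,0,0,0,0,90,45,0,21])))))
  (.use (.H 0 0 1121) [(true,0,1,1)] (.split [1,1,1,1,1,1,0,1,1,1,-2,-2,-2,-2,-2,0] (.use (.E 1
  0 1) [(false,0,1,1)] (.leaf
  [1,0,1,0,0,0,0,0,0,0,0,0,0,0,0,0,0,0,0,0,0,0,0,0,0,0,0,0,0,0,0,0,0,0,0,5,10,0,7])) (.leaf
  [15,3,0,0,0,0,0,0,0,0,0,1,0,0,0,0,2,0,0,0,0,0,0,0,0,0,0,0,0,0,0,0,0,0,45,0,0,21]))))))) (.leaf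
  [90,0,0,4,0,5,0,0,0,0,2,0,0,0,0,0,0,0,0,0,0,0,0,0,0,90,30,0,220,170,0,2]))) (.use (.H 2 0
  4227) [(true,0,3,1)] (.leaf
  [4,0,12,0,3,0,0,0,0,3,0,0,0,0,0,0,0,0,0,0,0,0,0,0,45,90,90,0,0,0,9])))) (.use (.H 0 0 1059)
  [(true,0,1,1)] (.split [1,0,1,1,1,1,1,1,1,1,-2,-2,-2,-2,-2,0] (.use (.E 0 1 1) [(false,0,1,1)]
  (.leaf [1,0,1,0,0,0,0,0,0,0,0,0,0,0,0,0,0,0,0,0,0,0,0,0,0,0,0,5,10,0,7])) (.use (.E 0 1 1)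
  [(true,0,1,1)] (.split [1,0,3,0,0,1,2,0,0,0,1,0,3,0,0,-1] (.use (.H 0 0 5221) [(false,0,1,1)]
  (.leaf [56,0,29,0,18,0,13,0,8,0,0,33,0,0,0,0,0,0,0,0,0,0,0,0,0,0,0,540,210,300])) (.use (.H 0
  0 5221) [(true,0,1,1)] (.split [1,0,3,0,0,0,0,1,0,0,0,0,1,0,0,-1] (.use (.H 2 0 4229)
  [(false,0,3,1)] (.split [1,0,3,0,0,1,2,0,0,0,1,2,0,0,0,-1] (.use (.H 0 0 3173) [(false,0,1,1)]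
  (.split [0,1,0,2,0,1,2,0,4,0,0,1,0,2,0,-1] (.use (.H 1 1 10602) [(false,0,2,1)] (.leaf
  [9,0,24,0,8,0,6,0,15,0,18,0,0,0,3,0,0,0,0,0,0,0,0,0,0,0,0,0,0,0,0,0,180,180,90,0,0,0,54]))
  (.use (.H 1 1 10602) [(true,0,2,1)] (.split [1,0,0,0,0,1,0,3,0,0,1,0,0,0,0,-1] (.use (.H 0 0
  1185) [(false,0,1,1)] (.leaf
  [12,0,0,0,12,0,4,0,0,0,33,0,102,0,18,0,24,0,0,0,0,0,0,0,0,0,0,0,0,0,0,0,0,0,360,360,90,0,0,0,432]))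
  (.leaf
  [2880,192,0,2424,0,272,0,0,0,1188,0,1122,0,183,0,396,0,0,0,0,0,0,0,0,0,0,0,0,0,0,0,0,0,15030,20880,6120])))))
  (.use (.H 0 0 3173) [(true,0,1,1)] (.leaf
  [33,0,2,0,3,0,102,0,426,0,54,0,69,0,0,0,0,0,0,0,0,0,0,0,0,0,0,0,0,0,1350,990,0,0,0,0,2142]))))
  (.leaf [90,0,0,9,0,32,0,0,0,3,0,0,8,0,0,0,0,0,0,0,0,0,0,0,0,0,0,30,90,0,0,0,0,198])))))))))
  (.use (.H 1 0 2115) [(true,0,2,1)] (.split [1,0,1,1,1,-2,-2,-2,-2,-2,1,1,1,1,1,0] (.use (.E 0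
  2 1) [(false,0,1,1)] (.split [0,1,0,0,0,1,2,0,0,0,0,0,0,0,0,-1] (.use (.H 1 1 98)
  [(false,0,2,1)] (.split [1,0,0,0,0,1,2,0,0,0,1,0,0,0,0,-1] (.use (.H 0 0 1121) [(false,0,1,1)]
  (.split [1,0,1,1,1,1,1,1,1,1,-2,-2,-2,-2,-2,0] (.use (.E 0 1 1) [(false,0,1,1)] (.leaf
  [2,0,0,0,0,0,0,0,1,0,0,0,0,0,0,0,0,0,0,0,0,0,0,0,0,0,0,0,0,0,0,10,20,0,14])) (.use (.E 0 1 1)
  [(true,0,1,1)] (.split [1,0,0,0,0,0,0,1,0,0,0,0,1,0,0,-1] (.use (.H 2 0 4225) [(false,0,3,1)]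
  (.split [0,1,0,0,0,1,2,0,0,0,0,1,0,0,0,-1] (.use (.H 1 1 2146) [(false,0,2,1)] (.split
  [1,0,3,0,0,1,2,0,0,0,1,0,3,0,0,-1] (.use (.H 0 0 5221) [(false,0,1,1)] (.leaf
  [16,0,0,0,0,0,0,0,16,0,0,0,44,0,21,0,12,0,0,0,0,0,0,0,0,0,0,0,0,0,0,0,0,0,120,420,120,0,0,0,114]))
  (.use (.H 0 0 5221) [(true,0,1,1)] (.split [1,0,3,0,0,0,0,1,0,0,0,0,1,0,0,-1] (.use (.H 2 0
  4229) [(false,0,3,1)] (.split [1,0,3,0,0,1,2,0,4,0,1,2,0,4,0,-1] (.use (.H 0 0 11621)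
  [(false,0,1,1)] (.leaf
  [384,0,314,0,174,0,261,0,0,0,609,0,792,0,0,0,0,0,300,0,204,0,0,0,0,0,0,0,0,0,0,0,0,0,0,0,0,0,8550,8730,4410]))
  (.use (.H 0 0 11621) [(true,0,1,1)] (.split [0,1,0,2,0,1,2,3,0,0,0,1,0,2,0,-1] (.use (.H 1 1
  10474) [(false,0,2,1)] (.leaf
  [9,0,0,0,4,0,0,0,0,0,0,0,45,0,72,0,0,0,0,0,30,0,0,0,0,0,0,0,0,0,0,0,0,0,0,0,0,0,0,0,540,450,90,0,0,0,108]))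
  (.use (.H 1 1 10474) [(true,0,2,1)] (.split [0,1,0,0,0,1,2,0,4,0,0,1,0,2,0,-1] (.use (.H 1 1
  10594) [(false,0,2,1)] (.leaf
  [39,0,0,0,18,0,26,0,0,0,0,0,0,0,60,0,96,0,0,0,0,0,51,0,6,0,0,0,0,0,0,0,0,0,0,0,0,0,0,0,0,0,990,810,360,0,0,0,216]))
  (.use (.H 1 1 10594) [(true,0,2,1)] (.leaf
  [2,0,1,0,0,0,8,0,0,0,5,0,0,0,28,0,48,0,0,0,0,0,32,0,13,0,0,0,0,0,0,0,0,0,0,0,0,0,0,0,0,0,660,480,180,0,0,0,66]))))))))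
  (.leaf
  [450,0,0,30,0,88,0,255,0,456,0,0,0,0,0,276,0,141,0,0,0,0,0,0,0,0,0,0,0,0,0,0,0,0,0,5850,4230,1710,0,0,0,396])))))
  (.leaf [30,0,0,0,0,0,0,4,0,12,0,10,0,1,0,0,0,0,0,0,0,0,0,0,0,0,0,0,0,0,0,0,60,0,0,0,0,126])))
  (.leaf [30,3,0,0,0,0,0,0,0,8,0,1,0,0,0,0,0,0,0,0,0,0,0,0,0,0,0,0,0,90,30,0,0,0,0,66])))))
  (.leaf [30,1,0,0,0,3,0,0,0,0,0,0,1,0,0,0,0,0,0,0,0,0,0,0,2,0,0,0,0,0,0,48]))) (.use (.H 1 1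
  98) [(true,0,2,1)] (.leaf [1,0,0,0,1,0,0,0,0,0,0,1,0,0,0,0,0,0,0,0,0,0,0,0,0,0,0,0,0,0,24]))))
  (.leaf [450,21,0,2,0,0,27,0,4,0,0,0,0,0,0,0,0,0,0,0,0,0,30,60,0,630,0,252]))))) (.use (.H 1 1
  10282) [(true,0,2,1)] (.leaf [32,0,28,0,0,2,0,7,0,0,0,5,0,0,0,0,0,0,510,210,480,120])))))))
  (.use (.H 1 2 1090) [(true,0,2,1)] (.leaf [3,0,2,0,2,0,0,0,0,0,0,0,4,0,0,0,0,0,0,42]))))))))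
  (.use (.H 1 0 65) [(true,0,2,1)] (.leaf [1,0,0,0,1,0,0,0,0,0,0,0,0,12])))))) (.use (.H 0 0
  1057) [(true,0,1,1)] (.leaf [2,0,1,0,0,0,0,0,0,12])))

theorem certG3_ok : chk 15 (vmk (fun _ _ => 7) (2)) certG3 (baseF 5 4 3 2) = true := by
  decide +kernel

end AbcEM
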