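import Pool.Agent.Work.MP_a793bb_nt.EM.CDefs

set_option autoImplicit false
set_option maxRecDepth 100000

namespace AbcEM

/-- certificate G4 -/
def certG4 : Cert :=
  .use (.H 0 0 31) [(false,0,1,1)] (.split [1,0,0,0,0,1,0,0,0,0,1,0,0,0,0,-1] (.use (.H 0 0 1057)
  [(false,0,1,1)] (.split [1,1,1,1,1,1,1,1,1,1,0,0,0,0,-5,0] (.leaf [51,7,0,26,0,0,69,39,0,45])
  (.use (.M 2 16) [(true,0,1,1)] (.split [1,0,0,0,0,0,1,0,0,0,0,1,0,0,0,-1] (.use (.H 1 0 2113)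
  [(false,0,2,1)] (.split [1,0,1,1,1,-2,-2,-2,-2,-2,1,1,1,1,1,0] (.use (.E 0 2 1)
  [(false,0,1,1)] (.split [1,2,0,0,0,0,0,1,0,0,0,0,1,0,0,-1] (.use (.H 2 0 4227) [(false,0,3,1)]
  (.split [1,2,0,0,0,0,1,0,2,0,0,1,0,2,0,-1] (.use (.H 1 0 10563) [(false,0,2,1)] (.split
  [1,0,0,0,0,1,2,0,0,0,1,2,0,0,0,-1] (.use (.H 0 0 3169) [(false,0,1,1)] (.split
  [0,1,0,0,0,0,1,0,2,0,1,0,0,0,0,-1] (.use (.H 1 2 1346) [(false,0,2,1)] (.leaf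
  [1,0,6,0,0,0,1,0,0,0,0,0,0,0,1,0,0,15,6,9,9,0,18])) (.use (.H 1 2 1346) [(true,0,2,1)] (.leaf
  [9,0,0,0,3,0,0,0,0,0,0,0,2,0,0,0,0,4,12,0,0,0,6])))) (.use (.H 0 0 3169) [(true,0,1,1)]
  (.split [-2,-2,-2,-2,-2,1,1,1,1,1,1,0,1,1,1,0] (.use (.E 2 1 1) [(false,0,1,1)] (.split
  [0,1,0,0,0,0,1,0,0,0,1,0,0,0,0,-1] (.use (.H 1 2 1090) [(false,0,2,1)] (.split
  [1,2,0,0,0,1,0,3,0,0,1,2,0,0,0,-1] (.use (.H 0 0 3235) [(false,0,1,1)] (.split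
  [1,1,1,1,1,1,0,1,1,1,-2,-2,-2,-2,-2,0] (.use (.E 1 0 1) [(false,0,1,1)] (.split
  [0,0,1,0,0,1,2,0,0,0,0,0,1,0,0,-1] (.leaf
  [9,11,0,13,0,0,0,0,0,9,0,2,0,0,0,0,0,0,0,0,0,0,0,0,21,12,15,21,30,42]) (.use (.H 2 1 4196)
  [(true,0,3,1)] (.leaf [1,0,3,0,0,0,0,0,0,0,0,0,0,0,0,0,0,0,0,0,0,0,0,0,0,0,0,0,3,6,3]))))
  (.use (.E 1 0 1) [(true,0,1,1)] (.leaf
  [11,0,16,0,0,0,0,0,34,0,12,0,0,0,0,0,0,0,0,0,0,0,0,60,12,18,60,0,60])))) (.use (.H 0 0 3235)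
  [(true,0,1,1)] (.split [0,0,1,0,0,1,2,0,0,0,0,0,1,0,0,-1] (.use (.H 2 1 4196) [(false,0,3,1)]
  (.split [1,2,0,0,0,1,0,0,0,0,1,2,0,0,0,-1] (.use (.H 0 0 3107) [(false,0,1,1)] (.leaf
  [6,0,2,0,0,0,0,0,0,0,3,0,3,0,0,0,0,0,0,0,0,0,6,0,0,18,27,9,6,21,33])) (.use (.H 0 0 3107)
  [(true,0,1,1)] (.use (.E 2 1 1) [(false,9,1,1)] (.split [1,2,0,0,0,1,2,0,0,0,1,0,0,0,0,-1]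
  (.use (.H 0 0 1123) [(false,0,1,1)] (.split [1,1,1,1,1,-2,-2,-2,-2,-2,1,0,1,1,1,0] (.use (.E 2
  0 1) [(false,0,1,1)] (.split [0,0,1,0,0,0,0,1,0,0,1,2,0,0,0,-1] (.use (.H 2 2 3204)
  [(false,0,3,1)] (.split [1,2,0,0,0,1,2,0,0,0,0,0,3,0,0,-1] (.use (.H 0 0 4195) [(false,0,1,1)]
  (.leaf [6,0,2,0,0,0,6,0,9,6,0,0,0,0,0,0,0,0,0,6,0,3,0,0,0,0,0,0,0,0,0,0,0,0,18,9,9,0,0,36]))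
  (.use (.H 0 0 4195) [(true,0,1,1)] (.split [1,0,0,0,0,1,0,0,0,0,0,0,3,0,0,-1] (.use (.H 0 0
  4129) [(false,0,1,1)] (.leaf
  [3,0,3,0,2,0,0,0,9,0,0,3,0,0,0,0,0,0,0,0,0,9,0,6,0,0,0,0,0,0,0,0,0,0,0,0,27,9,27,27,0,36]))
  (.leaf [3,0,0,0,0,0,0,1,0,0,1,0,0,0,0,0,0,0,0,0,1,0,0,0,0,0,0,0,0,0,0,0,0,0,0,0,0,3])))))
  (.use (.H 2 2 3204) [(true,0,3,1)] (.split [1,2,0,0,0,1,0,0,0,0,1,0,3,0,0,-1] (.use (.H 0 0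
  5155) [(false,0,1,1)] (.split [0,-2,-3,-4,-5,0,4,0,0,0,0,0,0,0,0,0] (.split
  [0,-2,-3,-4,-5,0,0,0,0,0,2,0,2,0,0,0] (.split [0,-2,-3,-4,-5,2,0,0,0,0,0,0,0,0,0,0] (.split
  [0,-2,-3,-4,-5,0,0,4,0,0,0,0,0,0,0,0] (.split [0,-2,-3,-4,-5,0,0,0,0,0,0,0,8,0,0,0] (.split
  [0,-2,-3,-4,-5,0,0,0,0,0,0,2,0,0,0,0] (.use (.R 0 2)
  [(false,3,1,1),(false,5,1,1),(false,2,1,1),(false,1,1,1),(false,4,1,1),(false,0,1,1)] (.leaf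
  [3,0,0,0,0,0,0,12,0,16,0,0,0,0,0,42,0,0,0,0,0,0,0,0,0,0,0,0,6,0,0,0,0,0,0,0,0,0,0,0,0,72,18,18,0,0,108]))
  (.use (.R 0 2)
  [(false,3,1,1),(false,5,1,1),(false,2,1,1),(false,1,1,1),(false,4,1,1),(true,0,1,1)] (.leaf
  [3,12,0,0,0,0,0,0,0,0,0,0,0,12,0,42,10,0,0,0,0,0,0,0,0,0,28,0,11,0,0,0,0,0,0,0,0,0,0,0,0,42,18,18,0,0,108])))
  (.split [0,-2,-3,-4,-5,0,0,0,0,0,0,2,0,0,0,0] (.use (.R 0 2)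
  [(false,3,1,1),(false,5,1,1),(false,2,1,1),(true,1,1,1),(false,4,1,1),(false,0,1,1)] (.leaf
  [13,0,0,3,0,0,0,60,0,140,0,108,0,0,0,244,0,0,0,0,0,0,0,0,0,0,0,0,16,0,0,0,0,0,0,0,0,0,0,0,0,240,84,24,0,0,576]))
  (.leaf
  [45,6,9,0,0,0,24,0,0,0,10,0,0,0,22,8,0,0,0,0,0,0,0,0,0,0,0,9,0,0,0,0,0,0,0,0,0,0,0,0,0,18,12,0,0,78])))
  (.split [0,-2,-3,-4,-5,0,0,0,0,0,0,0,8,0,0,0] (.split [0,-2,-3,-4,-5,0,0,0,0,0,0,2,0,0,0,0]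
  (.use (.R 0 2)
  [(false,3,1,1),(false,5,1,1),(true,2,1,1),(false,1,1,1),(false,4,1,1),(false,0,1,1)] (.split
  [0,1,0,2,0,1,2,0,0,0,0,1,0,2,0,-1] (.use (.H 1 1 10346) [(false,0,2,1)] (.split
  [0,0,0,0,0,0,-2,-3,-4,-5,0,0,8,0,0,0] (.split [0,0,0,0,0,0,-2,-3,-4,-5,2,0,2,0,0,0] (.split
  [0,0,0,0,0,0,-2,-3,-4,-5,0,2,0,0,0,0] (.split [2,0,0,0,0,0,-2,-3,-4,-5,0,0,0,0,0,0] (.split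
  [0,4,0,0,0,0,-2,-3,-4,-5,0,0,0,0,0,0] (.split [0,0,4,0,0,0,-2,-3,-4,-5,0,0,0,0,0,0] (.leaf
  [126,0,0,0,0,0,126,0,48,0,0,0,0,0,0,0,0,269,0,504,0,0,0,195,0,0,0,0,0,0,0,0,0,0,201,0,0,0,0,0,0,0,0,0,0,0,0,0,0,108,855,135,0,0,1386])
  (.use (.R 1 1)
  [(false,5,1,1),(false,4,1,1),(false,3,1,1),(false,2,1,1),(false,1,1,1),(true,0,1,1)] (.leaf
  [90,0,0,0,0,0,0,99,0,108,0,0,0,0,0,0,0,0,946,0,1230,0,0,0,1014,0,0,0,0,0,0,0,0,0,0,0,0,0,0,0,0,0,0,0,0,0,0,0,0,0,1350,1620,396,0,0,4356])))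
  (.leaf
  [12,0,0,0,0,9,0,0,0,0,0,0,0,0,0,0,10,0,12,0,0,0,0,0,0,0,0,0,0,0,0,0,0,0,0,0,0,0,0,0,0,0,0,0,0,0,0,0,0,0,0,0,0,18]))
  (.leaf
  [90,0,0,0,21,0,12,0,0,0,0,0,0,0,0,58,0,96,0,0,0,42,0,0,0,0,0,0,0,0,0,0,60,0,0,0,0,0,0,0,0,0,0,0,0,0,0,0,0,0,0,0,198]))
  (.leaf
  [270,0,0,63,0,36,0,0,0,0,0,0,0,0,142,0,150,0,0,0,258,0,0,0,0,0,0,0,0,0,0,0,0,0,0,0,0,0,0,0,0,0,0,0,0,0,270,0,72,0,0,792]))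
  (.leaf
  [36,0,21,0,0,0,0,0,0,0,0,0,0,40,0,60,0,0,0,24,0,0,0,0,0,0,0,0,0,0,30,0,0,0,0,0,0,0,0,0,0,0,0,0,0,0,0,0,0,0,90]))
  (.leaf
  [198,315,0,180,0,0,0,0,0,0,0,0,1306,0,1446,0,0,0,1410,0,0,0,0,0,0,0,0,0,0,0,0,0,0,0,0,0,0,0,0,0,0,0,0,0,1350,1728,288,0,0,5004])))
  (.leaf
  [21,1,0,0,0,0,0,0,0,0,21,0,0,0,1,0,44,0,0,0,0,0,0,0,0,0,0,0,0,10,0,0,0,0,0,0,0,0,0,0,0,0,39,0,0,0,0,63])))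
  (.use (.R 0 2)
  [(false,3,1,1),(false,5,1,1),(true,2,1,1),(false,1,1,1),(false,4,1,1),(true,0,1,1)] (.leaf
  [2,12,0,0,0,0,0,0,0,0,0,2,0,0,0,20,4,0,0,0,0,0,0,0,0,0,18,0,7,0,0,0,0,0,0,0,0,0,0,0,0,0,12,6,0,0,48])))
  (.split [0,-2,-3,-4,-5,0,0,0,0,0,0,2,0,0,0,0] (.use (.R 0 2)
  [(false,3,1,1),(false,5,1,1),(true,2,1,1),(true,1,1,1),(false,4,1,1),(false,0,1,1)] (.leaf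
  [9,0,0,0,0,0,0,48,0,70,0,78,0,0,0,114,0,0,0,0,0,0,0,0,0,0,0,0,3,0,0,0,0,0,0,0,0,0,0,0,0,108,126,36,0,0,360]))
  (.use (.R 0 2)
  [(false,3,1,1),(false,5,1,1),(true,2,1,1),(true,1,1,1),(false,4,1,1),(true,0,1,1)] (.leaf
  [1,0,0,0,0,0,0,4,0,8,0,24,0,0,0,0,0,0,0,0,0,0,0,0,0,0,0,0,0,0,0,0,0,0,0,0,0,0,0,0,0,0,12,0,36,0,36])))))
  (.split [0,-2,-3,-4,-5,0,0,0,0,0,0,0,8,0,0,0] (.split [0,-2,-3,-4,-5,0,0,4,0,0,0,0,0,0,0,0]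
  (.split [0,-2,-3,-4,-5,0,0,0,0,0,0,2,0,0,0,0] (.use (.R 0 2)
  [(true,3,1,1),(false,5,1,1),(false,1,1,1),(false,2,1,1),(false,4,1,1),(false,0,1,1)] (.leaf
  [1,0,0,0,0,0,0,0,0,2,0,0,0,8,0,14,0,0,0,0,0,0,0,0,0,0,8,0,1,0,0,0,0,0,0,0,0,0,0,0,0,18,6,6,0,0,36]))
  (.use (.R 0 2)
  [(true,3,1,1),(false,5,1,1),(false,1,1,1),(false,2,1,1),(false,4,1,1),(true,0,1,1)] (.leaf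
  [9,54,0,0,0,0,0,72,0,14,0,30,0,0,0,102,36,0,0,0,0,0,0,0,0,0,0,0,9,0,0,0,0,0,0,0,0,0,0,0,0,0,54,36,0,0,288])))
  (.split [0,-2,-3,-4,-5,0,0,0,0,0,0,2,0,0,0,0] (.use (.R 0 2)
  [(true,3,1,1),(false,5,1,1),(true,1,1,1),(false,2,1,1),(false,4,1,1),(false,0,1,1)] (.leaf
  [9,0,9,0,18,0,0,0,0,56,0,0,0,0,0,96,0,0,0,0,0,0,0,0,0,0,0,0,18,0,0,0,0,0,0,0,0,0,0,0,0,0,0,0,36,0,144]))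
  (.use (.R 0 2)
  [(true,3,1,1),(false,5,1,1),(true,1,1,1),(false,2,1,1),(false,4,1,1),(true,0,1,1)] (.leaf
  [18,0,0,0,0,0,0,0,0,94,0,0,0,0,0,210,36,0,0,0,0,0,0,0,0,0,0,0,63,0,0,0,0,0,0,0,0,0,0,0,0,0,0,18,90,0,360]))))
  (.leaf
  [18,66,0,0,54,0,3,0,0,0,0,0,69,56,0,0,0,0,0,0,0,0,0,25,0,15,0,0,0,0,0,0,0,0,0,0,0,0,0,15,9,0,0,126])))
  (.leaf
  [6,0,0,0,10,0,6,0,0,0,12,0,0,0,0,0,0,0,0,0,0,0,0,3,0,0,0,0,0,0,0,0,0,0,0,0,0,0,0,0,0,18]))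
  (.leaf
  [9,0,0,7,0,3,0,0,0,12,9,0,0,0,0,0,0,0,0,0,0,0,6,0,0,0,0,0,0,0,0,0,0,0,0,0,0,0,0,0,18]))) (.use
  (.H 0 0 5155) [(true,0,1,1)] (.leaf
  [3,0,4,0,0,0,0,0,3,0,0,0,0,0,0,0,0,0,0,0,0,3,0,0,0,0,0,0,0,0,0,0,0,0,9,0,9,9,0,9])))))) (.leaf
  [30,14,0,24,20,0,0,0,0,0,0,0,0,0,33,0,13,0,0,0,0,0,0,0,0,0,0,0,0,60,21,21,0,45,75]))) (.use
  (.H 0 0 1123) [(true,0,1,1)] (.leaf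
  [1,0,0,1,0,0,0,0,0,0,0,0,0,3,0,2,0,0,0,0,0,0,0,0,0,0,0,0,6,0,0,12,6,3]))))))) (.use (.H 2 1
  4196) [(true,0,3,1)] (.leaf [1,0,1,0,0,0,0,0,0,0,1,0,0,0,0,0,0,0,0,0,0,0,0,3,3,0,5,4,2]))))))
  (.leaf [6,0,6,4,0,3,0,0,0,0,0,0,0,0,0,2,0,0,12,0,0,12,6,6]))) (.use (.E 2 1 1) [(true,0,1,1)]
  (.split [-2,-2,-2,-2,-2,1,0,1,1,1,1,1,1,1,1,0] (.use (.E 1 2 1) [(false,0,1,1)] (.leaf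
  [1,0,0,3,1,0,0,0,0,0,0,0,0,0,0,0,0,0,0,0,0,0,4,2,1])) (.leaf
  [3,0,3,5,0,1,0,0,0,0,0,1,0,0,0,0,0,0,6,0,0,24,12,3]))))))) (.use (.H 1 0 10563) [(true,0,2,1)]
  (.split [1,2,0,0,0,1,0,0,0,0,1,0,0,0,0,-1] (.use (.H 0 0 1059) [(false,0,1,1)] (.split
  [1,0,3,0,0,0,1,0,2,0,0,1,0,0,0,-1] (.use (.H 1 0 2373) [(false,0,2,1)] (.leaf
  [1,0,4,0,1,0,0,0,2,0,0,0,0,0,0,0,0,6,6,6,6,0,12])) (.use (.H 1 0 2373) [(true,0,2,1)] (.split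
  [1,0,3,0,0,0,1,0,0,0,0,1,0,0,0,-1] (.leaf [6,1,0,4,0,0,0,0,0,0,0,0,0,0,0,0,0,0,6,6,6,4,2,10])
  (.use (.H 1 0 2117) [(true,0,2,1)] (.leaf
  [3,0,0,0,4,0,4,0,0,0,0,0,0,0,0,0,0,0,0,24,12,12,8,4,14])))))) (.use (.H 0 0 1059)
  [(true,0,1,1)] (.split [0,1,0,2,0,1,0,0,0,0,0,1,0,2,0,-1] (.use (.H 1 1 10282) [(false,0,2,1)]
  (.split [0,1,0,2,0,0,1,0,2,0,1,2,0,0,0,-1] (.use (.H 1 2 3402) [(false,0,2,1)] (.split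
  [0,1,0,0,0,1,2,0,0,0,0,0,0,0,0,-1] (.use (.H 1 1 98) [(false,0,2,1)] (.leaf
  [3,0,6,0,3,0,24,0,0,0,4,0,0,0,0,0,0,0,12,0,0,36,18,18,12,6,48])) (.use (.H 1 1 98)
  [(true,0,2,1)] (.leaf [1,0,1,0,0,0,2])))) (.use (.H 1 2 3402) [(true,0,2,1)] (.leaf
  [1,0,1,0,4,0,0,0,0,0,2,0,0,0,0,0,0,0,0,0,3,0,0,0,3])))) (.use (.H 1 1 10282) [(true,0,2,1)]
  (.leaf [2,0,2,0,0,0,0,0,0,0,0,0,0,0,0,0,0,3,0,3])))))))) (.use (.H 2 0 4227) [(true,0,3,1)]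
  (.split [0,1,0,0,0,0,1,0,0,0,1,0,0,0,0,-1] (.use (.H 1 2 1090) [(false,0,2,1)] (.split
  [0,1,0,0,0,1,0,0,0,0,0,1,0,0,0,-1] (.use (.H 1 1 2082) [(false,0,2,1)] (.split
  [0,1,0,0,0,1,2,0,0,0,0,0,0,0,0,-1] (.use (.H 1 1 98) [(false,0,2,1)] (.use (.H 0 0 1057)
  [(false,15,1,1)] (.split [1,0,1,1,1,1,1,1,1,1,-2,-2,-2,-2,-2,0] (.use (.E 0 1 1)
  [(false,0,1,1)] (.leaf [1,0,0,0,0,0,0,0,0,1,0,2,0,0,0,0,0,0,0,0,0,0,0,3,0,3])) (.use (.E 0 1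
  1) [(true,0,1,1)] (.split [1,0,0,4,0,0,0,1,0,0,0,0,1,0,0,-1] (.use (.H 2 0 4233)
  [(false,0,3,1)] (.split [0,1,0,0,0,1,0,0,0,0,0,1,0,2,0,-1] (.use (.H 1 1 10274)
  [(false,0,2,1)] (.split [0,1,0,2,0,1,2,0,0,0,0,1,0,2,0,-1] (.use (.H 1 1 10346)
  [(false,0,2,1)] (.split [1,0,0,0,0,1,0,0,0,0,1,0,3,0,0,-1] (.use (.H 0 0 5153) [(false,0,1,1)]
  (.leaf [8,0,3,0,0,0,0,0,1,0,0,1,0,0,0,0,0,6,0,12,0,0,0,0,0,0,0,0,12,24,6,0,0,36])) (.use (.H 0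
  0 5153) [(true,0,1,1)] (.split [1,0,0,0,0,1,2,0,4,0,1,2,0,0,0,-1] (.use (.H 0 0 3425)
  [(false,0,1,1)] (.split [1,0,3,0,0,0,0,1,0,0,0,0,1,0,0,-1] (.use (.H 2 0 4229) [(false,0,3,1)]
  (.leaf [4,0,24,0,0,0,3,0,0,0,0,0,9,0,0,3,0,0,0,0,0,2,0,0,0,0,0,0,0,0,0,0,36,36,18,0,0,72]))
  (.leaf [72,0,0,0,0,0,0,0,0,8,0,18,0,0,21,0,0,0,0,0,38,0,0,0,0,0,0,0,0,0,0,108,36,0,0,0,54])))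
  (.use (.H 0 0 3425) [(true,0,1,1)] (.split [1,0,3,0,0,1,2,3,0,0,1,2,0,0,0,-1] (.use (.H 0 0
  3301) [(false,0,1,1)] (.leaf
  [8,0,0,0,0,0,8,0,0,0,0,0,5,0,0,0,0,0,0,0,0,14,0,22,0,0,0,0,0,0,0,0,6,24,0,0,0,48])) (.use (.H
  0 0 3301) [(true,0,1,1)] (.leaf
  [6,0,12,0,0,0,9,0,0,0,0,0,3,0,0,9,0,0,0,0,0,34,0,54,0,0,0,0,0,0,0,0,18,72,0,0,0,90]))))))))
  (.use (.H 1 1 10346) [(true,0,2,1)] (.leaf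
  [9,0,9,0,0,0,3,0,0,27,0,0,0,0,0,62,0,102,0,0,0,0,0,0,0,0,18,108,0,0,0,162])))) (.use (.H 1 1
  10274) [(true,0,2,1)] (.leaf [3,0,0,0,3,0,0,0,0,0,0,0,0,2])))) (.leaf
  [6,1,0,0,1,0,0,0,0,0,4,0,4,0,0,0,0,0,0,0,0,6,6,0,0,0,6])))))) (.use (.H 1 1 98) [(true,0,2,1)]
  (.leaf [3,0,0,0,3,0,2])))) (.use (.H 1 1 2082) [(true,0,2,1)] (.leaf
  [1,0,0,0,0,0,0,0,0,0,0,0,1])))) (.use (.H 1 2 1090) [(true,0,2,1)] (.leaf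
  [2,0,0,0,0,0,1])))))) (.use (.E 0 2 1) [(true,0,1,1)] (.split
  [1,0,0,0,0,1,2,0,0,0,1,2,0,0,0,-1] (.use (.H 0 0 3169) [(false,0,1,1)] (.split
  [1,0,0,0,0,0,0,1,0,0,0,0,1,0,0,-1] (.use (.H 2 0 4225) [(false,0,3,1)] (.leaf
  [1,0,9,0,3,0,0,0,0,0,0,0,0,18,9,9,6,12,24])) (.leaf [3,1,0,0,0,0,0,0,0,0,0,2,0,3,3,0,0,3])))
  (.use (.H 0 0 3169) [(true,0,1,1)] (.split [-2,-2,-2,-2,-2,1,1,1,1,1,1,0,1,1,1,0] (.use (.E 2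
  1 1) [(false,0,1,1)] (.split [0,0,1,0,0,0,0,1,0,0,1,2,0,0,0,-1] (.use (.H 2 2 3204)
  [(false,0,3,1)] (.split [1,1,1,1,1,1,1,1,1,1,0,0,-3,0,-5,0] (.leaf
  [342,10,0,0,0,186,0,0,180,45,0,0,0,0,0,0,90,0,558,54,0,234]) (.use (.M 2 20) [(true,0,1,1)]
  (.split [1,1,1,1,1,1,1,1,1,1,0,0,-3,-4,-5,0] (.leaf
  [72,17,0,0,0,0,0,28,0,0,42,14,0,0,0,0,0,0,42,0,96,0,0,78]) (.use (.M 2 28) [(true,0,1,1)]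
  (.split [1,0,0,0,0,1,0,3,0,0,1,2,0,0,0,-1] (.use (.H 0 0 3233) [(false,0,1,1)] (.split
  [1,1,1,1,1,1,0,1,1,1,-2,-2,-2,-2,-2,0] (.use (.E 1 0 1) [(false,0,1,1)] (.split
  [0,0,1,0,0,1,2,0,0,0,0,0,1,0,0,-1] (.use (.H 2 1 4196) [(false,0,3,1)] (.split
  [1,2,0,0,0,0,1,0,0,0,0,1,0,2,0,-1] (.use (.H 1 0 10307) [(false,0,2,1)] (.leaf
  [51,0,22,0,66,0,96,0,0,0,0,0,0,0,0,0,126,0,0,90,0,0,0,0,0,0,0,198,162,72,168,462,366])) (.use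
  (.H 1 0 10307) [(true,0,2,1)] (.leaf
  [3,0,0,0,2,0,0,0,0,0,0,0,0,0,0,0,14,0,0,36,6,0,0,0,0,0,0,18,0,6,0,54,12])))) (.use (.H 2 1
  4196) [(true,0,3,1)] (.leaf
  [1,0,3,0,0,0,0,0,0,0,0,0,0,0,0,0,0,0,0,0,0,0,0,0,0,0,0,0,3,6,3])))) (.leaf
  [84,18,0,0,0,0,0,0,0,0,0,74,0,0,114,29,0,0,0,0,0,0,114,18,6,0,72,72]))) (.use (.H 0 0 3233)
  [(true,0,1,1)] (.split [0,0,1,0,0,1,2,0,0,0,0,0,1,0,0,-1] (.use (.H 2 1 4196) [(false,0,3,1)]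
  (.use (.E 2 1 1) [(false,11,1,1)] (.split [1,2,0,4,0,0,1,0,2,0,0,1,0,2,0,-1] (.use (.H 1 0
  10571) [(false,0,2,1)] (.split [1,2,0,0,0,1,0,0,0,0,1,2,0,0,0,-1] (.use (.H 0 0 3107)
  [(false,0,1,1)] (.leaf
  [30,0,9,0,0,6,0,0,0,0,0,0,0,2,0,0,0,9,0,0,0,0,0,0,0,0,0,0,36,63,27,6,39,87])) (.use (.H 0 0
  3107) [(true,0,1,1)] (.split [1,2,0,0,0,1,2,3,0,0,1,0,0,0,0,-1] (.use (.H 0 0 1251)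
  [(false,0,1,1)] (.leaf
  [246,0,0,0,87,0,0,34,0,0,0,0,0,0,0,36,0,0,0,54,0,0,0,0,0,0,0,0,0,0,315,261,378,135,0,720]))
  (.use (.H 0 0 1251) [(true,0,1,1)] (.leaf
  [3,0,6,0,6,0,0,0,0,0,0,0,0,0,0,2,0,0,0,9,0,0,18,0,0,0,0,0,0,0,9,0,9,3,15,12])))))) (.use (.H 1
  0 10571) [(true,0,2,1)] (.split [0,1,0,2,0,1,2,3,0,0,0,1,0,2,0,-1] (.use (.H 1 1 10474)
  [(false,0,2,1)] (.leaf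
  [50,27,25,0,15,0,0,62,0,0,0,0,0,0,0,0,0,126,0,0,0,32,0,0,0,0,0,0,96,159,0,0,243,144])) (.use
  (.H 1 1 10474) [(true,0,2,1)] (.split [1,2,0,0,0,0,1,0,2,0,0,1,0,0,0,-1] (.use (.H 1 0 2371)
  [(false,0,2,1)] (.split [1,2,3,0,0,0,1,0,0,0,0,1,0,0,0,-1] (.use (.H 1 0 2119) [(false,0,2,1)]
  (.leaf [3,0,0,0,0,0,0,0,0,0,0,0,0,0,0,0,0,0,0,0,0,6,0,0,0,0,0,0,0,0,0,0,6,0,0,16,8,4])) (.use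
  (.H 1 0 2119) [(true,0,2,1)] (.leaf
  [11,0,6,0,0,0,12,0,0,0,0,4,0,0,0,0,0,0,0,0,0,16,0,0,54,0,0,0,0,0,0,0,84,12,24,14,82,26]))))
  (.use (.H 1 0 2371) [(true,0,2,1)] (.leaf
  [42,0,12,0,0,0,0,0,0,4,0,0,0,0,0,0,0,0,0,210,0,0,540,103,0,0,0,0,0,0,288,84,24,0,840,162])))))))))
  (.use (.H 2 1 4196) [(true,0,3,1)] (.leaf
  [32,0,48,0,0,0,0,0,4,0,0,0,0,0,0,72,21,0,0,0,0,0,0,36,90,18,0,90,36])))))))))) (.use (.H 2 2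
  3204) [(true,0,3,1)] (.split [1,1,1,1,1,-2,-2,-2,-2,-2,1,0,1,1,1,0] (.use (.E 2 0 1)
  [(false,0,1,1)] (.leaf [3,0,1,0,0,0,0,0,0,3,0,0,0,0,0,0,0,0,0,0,0,0,3])) (.leaf
  [18,5,0,9,0,24,0,0,36,12,0,0,0,0,0,0,36,0,0,0,81,27]))))) (.use (.E 2 1 1) [(true,0,1,1)]
  (.split [-2,-2,-2,-2,-2,1,0,1,1,1,1,1,1,1,1,0] (.use (.E 1 2 1) [(false,0,1,1)] (.leaf
  [1,0,0,3,1,0,0,0,0,0,0,0,0,0,0,0,0,0,4,2,1])) (.leaf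
  [3,0,3,5,0,0,6,2,0,0,0,0,0,0,6,0,0,18,18,3]))))))))) (.use (.H 1 0 2113) [(true,0,2,1)] (.leaf
  [1,0,0,0,1])))))) (.use (.H 0 0 1057) [(true,0,1,1)] (.leaf [1])))

theorem certG4_ok : chk 3 (vmk (fun _ _ => 3) (-2)) certG4 (baseF 3 2 29 18) = true := by
  decide +kernel

end AbcEM
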