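import Pool.Agent.Work.MP_a793bb_nt.EM.CDefs

set_option autoImplicit false
set_option maxRecDepth 100000

namespace AbcEM

/-- certificate G5 -/
def certG5 : Cert :=
  .use (.H 0 0 31) [(false,0,1,1)] (.split [1,0,0,0,0,1,0,0,0,0,1,0,0,0,0,-1] (.use (.H 0 0 1057)
  [(false,0,1,1)] (.split [1,0,0,0,0,0,1,0,0,0,0,1,0,0,0,-1] (.use (.H 1 0 2113) [(false,0,2,1)]
  (.split [1,0,1,1,1,-2,-2,-2,-2,-2,1,1,1,1,1,0] (.use (.E 0 2 1) [(false,0,1,1)] (.split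
  [0,1,0,2,0,1,0,0,0,0,0,1,0,2,0,-1] (.use (.H 1 1 10282) [(false,0,2,1)] (.split
  [0,1,0,0,0,0,1,0,0,0,1,0,0,0,0,-1] (.use (.H 1 2 1090) [(false,0,2,1)] (.split
  [0,-2,-3,-4,-5,0,0,0,0,0,2,0,0,0,0,0] (.split [0,-2,-3,-4,-5,0,0,8,0,0,0,0,0,0,0,0] (.split
  [0,-2,-3,-4,-5,2,0,2,0,0,0,0,0,0,0,0] (.split [0,-2,-3,-4,-5,0,2,0,0,0,0,0,0,0,0,0] (.split
  [0,-2,-3,-4,-5,0,0,0,0,0,0,4,0,0,0,0] (.split [0,-2,-3,-4,-5,0,0,0,0,0,0,0,4,0,0,0] (.use (.R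
  0 4) [(false,4,1,1),(false,3,1,1),(false,2,1,1),(false,5,1,1),(false,1,1,1),(false,0,1,1)]
  (.leaf [12,0,0,0,0,0,0,17,0,18,0,0,0,1,0,42,0,0,490,294,266,210,126])) (.use (.R 0 4)
  [(false,4,1,1),(false,3,1,1),(false,2,1,1),(false,5,1,1),(false,1,1,1),(true,0,1,1)] (.split
  [1,0,0,0,0,1,2,0,0,0,1,0,0,0,0,-1] (.leaf
  [434,32,0,0,0,0,0,0,0,0,30,0,135,0,0,0,128,0,0,1141,882,1113,756]) (.use (.H 0 0 1121)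
  [(true,0,1,1)] (.leaf [2,0,1,0,0,0,0,0,0,1,0,0,0,0,0,0,0,2,0,0,42,14,28,28]))))) (.split
  [0,-2,-3,-4,-5,0,0,0,0,0,0,0,4,0,0,0] (.use (.R 0 4)
  [(false,4,1,1),(false,3,1,1),(false,2,1,1),(false,5,1,1),(true,1,1,1),(false,0,1,1)] (.split
  [0,-2,-3,-4,-5,0,0,0,0,0,0,2,0,0,0,0] (.split [0,-2,-3,-4,-5,0,0,0,0,0,0,0,8,0,0,0] (.split
  [0,-2,-3,-4,-5,0,0,0,0,0,2,0,2,0,0,0] (.use (.R 0 0)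
  [(false,8,1,1),(false,7,1,1),(false,6,1,1),(false,1,1,1),(false,0,1,1),(false,2,1,1)] (.leaf
  [12,0,0,0,0,0,0,0,0,0,0,17,0,18,0,0,0,1,0,42,0,0,490,294,266,210,126])) (.use (.R 0 0)
  [(false,8,1,1),(false,7,1,1),(false,6,1,1),(false,1,1,1),(true,0,1,1),(false,2,1,1)] (.leaf
  [3,0,0,0,0,0,0,0,0,0,0,7,0,3,0,0,0,0,0,22,0,0,98,98,126,28,14,0,4]))) (.split
  [0,-2,-3,-4,-5,0,0,0,0,0,2,0,2,0,0,0] (.use (.R 0 0)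
  [(false,8,1,1),(false,7,1,1),(false,6,1,1),(true,1,1,1),(false,0,1,1),(false,2,1,1)] (.split
  [0,1,0,0,0,0,1,0,2,0,1,0,0,0,0,-1] (.use (.H 1 2 1346) [(false,0,2,1)] (.leaf
  [2,0,1,0,0,0,1,0,0,0,0,0,0,0,0,2,0,0,0,0,0,4,0,0,56,28,56,28])) (.leaf
  [588,27,0,0,0,21,0,0,0,0,0,0,110,0,82,0,0,0,0,0,240,0,0,1680,1876,2072]))) (.use (.R 0 0)
  [(false,8,1,1),(false,7,1,1),(false,6,1,1),(true,1,1,1),(true,0,1,1),(false,2,1,1)] (.split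
  [0,0,0,0,0,0,-2,-3,-4,-5,0,0,8,0,0,0] (.leaf
  [77,23,0,0,0,12,0,0,0,0,0,0,61,0,30,0,0,0,0,0,182,0,0,826,994,1400,196]) (.split
  [0,0,0,0,0,0,-2,-3,-4,-5,2,0,2,0,0,0] (.leaf
  [14,0,1,0,0,0,1,0,0,0,0,0,0,2,0,2,0,0,0,0,0,4,0,0,28,56,56]) (.split
  [0,0,0,0,0,0,-2,-3,-4,-5,0,2,0,0,0,0] (.split [0,0,8,0,0,0,-2,-3,-4,-5,0,0,0,0,0,0] (.split
  [2,0,2,0,0,0,-2,-3,-4,-5,0,0,0,0,0,0] (.split [0,2,0,0,0,0,-2,-3,-4,-5,0,0,0,0,0,0] (.use (.R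
  1 0) [(true,5,1,1),(true,4,1,1),(false,3,1,1),(false,2,1,1),(false,1,1,1),(false,0,1,1)]
  (.leaf [3,0,0,0,0,0,0,0,0,0,0,3,0,0,0,0,0,0,7,0,2,0,0,0,0,0,18,0,0,126,98,196])) (.use (.R 1
  0) [(true,5,1,1),(true,4,1,1),(false,3,1,1),(false,2,1,1),(false,1,1,1),(true,0,1,1)] (.leaf
  [3,0,0,0,0,0,0,0,0,0,0,3,0,0,0,0,0,0,7,0,2,0,0,0,0,0,18,0,0,210,14,196,84]))) (.leaf
  [98,0,0,0,0,3,0,0,0,3,0,0,0,0,0,0,0,0,2,0,0,0,0,0,32,0,0,168,56,196,28])) (.leaf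
  [56,0,0,0,21,0,0,0,29,0,0,0,0,0,0,58,0,49,0,0,0,0,0,184,0,0,1302,1050,1638,602,238])) (.leaf
  [63,0,0,15,0,0,0,15,0,0,0,0,0,0,44,0,37,0,0,0,0,0,144,0,0,714,784,1232,126]))))))) (.leaf
  [42,0,0,0,0,0,0,0,1,0,5,0,0,0,6,0,18,0,0,42,98,70,0,42]))) (.use (.R 0 4)
  [(false,4,1,1),(false,3,1,1),(false,2,1,1),(false,5,1,1),(true,1,1,1),(true,0,1,1)] (.leaf
  [3,21,21,0,0,0,0,4,0,8,0,0,0,6,0,24,0,0,84,140,196])))) (.split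
  [0,-2,-3,-4,-5,0,0,0,0,0,0,4,0,0,0,0] (.split [0,-2,-3,-4,-5,0,0,0,0,0,0,0,4,0,0,0] (.use (.R
  0 4) [(false,4,1,1),(false,3,1,1),(true,2,1,1),(false,5,1,1),(false,1,1,1),(false,0,1,1)]
  (.leaf [5,0,0,0,0,0,0,6,0,2,0,0,0,0,0,2,0,0,42,98,70,28,0,0,40])) (.use (.R 0 4)
  [(false,4,1,1),(false,3,1,1),(true,2,1,1),(false,5,1,1),(false,1,1,1),(true,0,1,1)] (.leaf
  [2,0,0,7,0,0,0,1,0,0,0,3,0,0,0,4,0,0,7,84,49]))) (.split [0,-2,-3,-4,-5,0,0,0,0,0,0,0,4,0,0,0]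
  (.use (.R 0 4)
  [(false,4,1,1),(false,3,1,1),(true,2,1,1),(false,5,1,1),(true,1,1,1),(false,0,1,1)] (.split
  [0,-2,-3,-4,-5,0,0,0,0,0,0,2,0,0,0,0] (.split [0,-2,-3,-4,-5,0,0,0,0,0,0,0,8,0,0,0] (.split
  [0,-2,-3,-4,-5,0,0,0,0,0,2,0,2,0,0,0] (.use (.R 0 0)
  [(false,8,1,1),(false,7,1,1),(true,6,1,1),(false,1,1,1),(false,0,1,1),(false,2,1,1)] (.leaf
  [3,0,0,0,0,0,0,0,0,0,0,4,0,2,0,0,0,0,0,6,0,0,42,98,70])) (.use (.R 0 0)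
  [(false,8,1,1),(false,7,1,1),(true,6,1,1),(false,1,1,1),(true,0,1,1),(false,2,1,1)] (.leaf
  [1,0,0,0,0,0,0,0,0,0,0,2,0,0,0,0,0,0,0,4,0,0,0,28,28,0,0,0,12]))) (.split
  [0,-2,-3,-4,-5,0,0,0,0,0,2,0,2,0,0,0] (.use (.R 0 0)
  [(false,8,1,1),(false,7,1,1),(true,6,1,1),(true,1,1,1),(false,0,1,1),(false,2,1,1)] (.leaf
  [3,0,0,0,3,0,0,0,0,0,0,4,0,2,0,0,0,0,0,0,0,0,0,140,112,0,0,0,24])) (.use (.R 0 0)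
  [(false,8,1,1),(false,7,1,1),(true,6,1,1),(true,1,1,1),(true,0,1,1),(false,2,1,1)] (.leaf
  [1,0,0,0,1,0,0,0,0,0,0,2,0,0,0,0,0,0,0,4,0,0,0,56,56,0,0,0,4])))) (.leaf
  [7,0,0,0,7,0,0,0,1,0,1,0,0,0,2,0,6,0,0,14,28,28]))) (.use (.R 0 4)
  [(false,4,1,1),(false,3,1,1),(true,2,1,1),(false,5,1,1),(true,1,1,1),(true,0,1,1)] (.leaf
  [1,0,0,0,0,0,0,2,0,2,0,0,0,2,0,8,0,0,28,56,56]))))) (.split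
  [0,-2,-3,-4,-5,0,2,0,0,0,0,0,0,0,0,0] (.split [0,-2,-3,-4,-5,0,0,0,0,0,0,4,0,0,0,0] (.split
  [0,-2,-3,-4,-5,0,0,0,0,0,0,0,4,0,0,0] (.use (.R 0 4)
  [(false,4,1,1),(true,3,1,1),(false,2,1,1),(false,5,1,1),(false,1,1,1),(false,0,1,1)] (.leaf
  [165,0,210,0,0,84,0,206,0,370,0,0,0,0,0,1308,0,0,6048,6832,6020,1512])) (.use (.R 0 4)
  [(false,4,1,1),(true,3,1,1),(false,2,1,1),(false,5,1,1),(false,1,1,1),(true,0,1,1)] (.split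
  [1,0,0,0,0,1,0,3,0,0,1,0,0,0,0,-1] (.use (.H 0 0 1185) [(false,0,1,1)] (.leaf
  [4,0,1,0,0,0,0,0,0,0,0,1,0,0,0,0,0,0,0,0,28,14,28,28])) (.use (.H 0 0 1185) [(true,0,1,1)]
  (.leaf [6,0,3,0,0,0,0,0,0,2,0,7,0,3,0,0,0,30,0,0,105,196,161]))))) (.split
  [0,-2,-3,-4,-5,0,0,0,0,0,0,0,4,0,0,0] (.use (.R 0 4)
  [(false,4,1,1),(true,3,1,1),(false,2,1,1),(false,5,1,1),(true,1,1,1),(false,0,1,1)] (.split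
  [0,-2,-3,-4,-5,0,0,0,0,0,0,2,0,0,0,0] (.split [0,-2,-3,-4,-5,0,0,0,0,0,0,0,8,0,0,0] (.split
  [0,-2,-3,-4,-5,0,0,0,0,0,2,0,2,0,0,0] (.use (.R 0 0)
  [(false,8,1,1),(true,7,1,1),(false,6,1,1),(false,1,1,1),(false,0,1,1),(false,2,1,1)] (.leaf
  [3,0,0,0,0,0,0,0,42,0,0,2,0,10,0,0,0,0,0,36,0,0,84,196,140])) (.use (.R 0 0)
  [(false,8,1,1),(true,7,1,1),(false,6,1,1),(false,1,1,1),(true,0,1,1),(false,2,1,1)] (.leaf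
  [1,0,0,0,0,0,0,0,0,0,0,2,0,2,0,0,0,0,0,12,0,0,28,56,56]))) (.split
  [0,-2,-3,-4,-5,0,0,0,0,0,2,0,2,0,0,0] (.use (.R 0 0)
  [(false,8,1,1),(true,7,1,1),(false,6,1,1),(true,1,1,1),(false,0,1,1),(false,2,1,1)] (.split
  [1,0,0,0,0,1,0,3,0,0,1,0,0,0,0,-1] (.use (.H 0 0 1185) [(false,0,1,1)] (.leaf
  [4,0,1,0,0,0,1,0,0,0,0,0,0,0,0,2,0,0,0,0,0,4,0,0,56,28,56,56])) (.use (.H 0 0 1185)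
  [(true,0,1,1)] (.leaf
  [4,0,3,70,0,0,3,0,0,0,0,0,0,0,0,16,0,0,0,0,0,24,0,0,168,224,168,28,0,0,4])))) (.use (.R 0 0)
  [(false,8,1,1),(true,7,1,1),(false,6,1,1),(true,1,1,1),(true,0,1,1),(false,2,1,1)] (.split
  [0,0,0,0,0,0,-2,-3,-4,-5,2,0,0,0,0,0] (.split [0,0,0,0,0,0,-2,-3,-4,-5,0,4,0,0,0,0] (.leaf
  [28,0,1,0,0,0,5,0,0,0,0,0,0,6,0,12,0,0,0,0,0,44,0,0,112,280,224,0,0,0,12]) (.split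
  [0,0,0,0,0,0,-2,-3,-4,-5,0,0,4,0,0,0] (.split [0,0,8,0,0,0,-2,-3,-4,-5,0,0,0,0,0,0] (.split
  [2,0,2,0,0,0,-2,-3,-4,-5,0,0,0,0,0,0] (.split [0,2,0,0,0,0,-2,-3,-4,-5,0,0,0,0,0,0] (.use (.R
  1 4) [(false,5,1,1),(true,4,1,1),(false,3,1,1),(false,2,1,1),(false,1,1,1),(false,0,1,1)]
  (.leaf [1,0,0,0,0,0,0,1,0,0,0,0,0,0,0,0,0,0,1,0,0,0,0,0,0,0,6,0,0,14,42,56,0,0,0,4])) (.use
  (.R 1 4) [(false,5,1,1),(true,4,1,1),(false,3,1,1),(false,2,1,1),(false,1,1,1),(true,0,1,1)]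
  (.leaf [3,0,0,0,0,0,0,3,0,0,0,0,0,0,0,0,0,0,4,0,2,0,0,0,0,0,24,0,0,126,98,196,42]))) (.split
  [0,2,0,0,0,0,-2,-3,-4,-5,0,0,0,0,0,0] (.use (.R 1 4)
  [(false,5,1,1),(true,4,1,1),(false,3,1,1),(false,2,1,1),(true,1,1,1),(false,0,1,1)] (.leaf
  [6,0,0,0,0,0,0,7,0,0,0,1,0,0,0,0,0,0,0,0,0,0,0,0,0,0,56,0,0,140,252,392,0,0,0,28])) (.use (.R
  1 4) [(false,5,1,1),(true,4,1,1),(false,3,1,1),(false,2,1,1),(true,1,1,1),(true,0,1,1)] (.leaf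
  [1,0,0,0,0,0,0,1,0,0,0,0,0,0,0,0,0,0,0,0,0,0,0,0,0,0,8,0,0,42,14,56,14,0,0,4])))) (.leaf
  [294,0,0,0,99,0,0,0,141,0,0,0,0,0,0,187,0,458,0,0,0,0,0,1914,0,0,4956,9884,10780,1050]))
  (.leaf [105,0,0,6,0,0,0,21,0,0,0,0,0,0,17,0,64,0,0,0,0,0,210,0,0,546,1162,1232]))) (.leaf
  [168,9,0,0,0,9,0,0,0,0,0,0,32,0,40,0,0,0,0,0,216,0,0,504,784,1064,84,0,0,84]))))) (.leaf
  [42,0,0,0,0,0,0,0,1,0,5,0,0,0,6,0,18,0,0,42,98,70,0,42]))) (.use (.R 0 4)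
  [(false,4,1,1),(true,3,1,1),(false,2,1,1),(false,5,1,1),(true,1,1,1),(true,0,1,1)] (.leaf
  [1,0,0,0,0,0,0,0,0,2,0,0,0,0,0,4,0,0,0,28,28,0,0,0,12])))) (.split
  [0,-2,-3,-4,-5,0,0,0,0,0,0,4,0,0,0,0] (.split [0,-2,-3,-4,-5,0,0,0,0,0,0,0,4,0,0,0] (.use (.R
  0 4) [(false,4,1,1),(true,3,1,1),(true,2,1,1),(false,5,1,1),(false,1,1,1),(false,0,1,1)]
  (.leaf [3,0,0,0,0,0,0,5,0,7,0,0,0,3,0,30,0,0,84,196,140])) (.use (.R 0 4)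
  [(false,4,1,1),(true,3,1,1),(true,2,1,1),(false,5,1,1),(false,1,1,1),(true,0,1,1)] (.leaf
  [1,0,0,0,0,0,0,0,0,1,0,0,0,0,0,4,0,0,0,42,28]))) (.split [0,-2,-3,-4,-5,0,0,0,0,0,0,0,4,0,0,0]
  (.use (.R 0 4)
  [(false,4,1,1),(true,3,1,1),(true,2,1,1),(false,5,1,1),(true,1,1,1),(false,0,1,1)] (.split
  [0,-2,-3,-4,-5,0,0,0,0,0,0,2,0,0,0,0] (.split [0,-2,-3,-4,-5,0,0,0,0,0,0,0,8,0,0,0] (.split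
  [0,-2,-3,-4,-5,0,0,0,0,0,2,0,2,0,0,0] (.use (.R 0 0)
  [(false,8,1,1),(true,7,1,1),(true,6,1,1),(false,1,1,1),(false,0,1,1),(false,2,1,1)] (.leaf
  [3,0,0,0,0,0,0,0,0,0,0,2,0,4,0,0,0,0,0,12,0,0,0,112,56,0,0,0,36])) (.use (.R 0 0)
  [(false,8,1,1),(true,7,1,1),(true,6,1,1),(false,1,1,1),(true,0,1,1),(false,2,1,1)] (.leaf
  [3,0,0,0,0,0,0,0,0,0,0,4,0,2,0,0,0,0,0,24,0,0,0,140,112,0,0,0,24]))) (.split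
  [0,-2,-3,-4,-5,0,0,0,0,0,2,0,2,0,0,0] (.use (.R 0 0)
  [(false,8,1,1),(true,7,1,1),(true,6,1,1),(true,1,1,1),(false,0,1,1),(false,2,1,1)] (.leaf
  [1,0,0,0,1,0,0,0,0,0,0,0,0,2,0,0,0,0,0,8,0,0,0,84,56])) (.use (.R 0 0)
  [(false,8,1,1),(true,7,1,1),(true,6,1,1),(true,1,1,1),(true,0,1,1),(false,2,1,1)] (.leaf
  [3,0,0,0,3,0,0,0,0,0,0,1,0,2,0,0,0,0,0,30,0,0,0,224,196,42])))) (.leaf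
  [7,0,0,0,7,0,0,0,1,0,1,0,0,0,2,0,6,0,0,14,28,28]))) (.use (.R 0 4)
  [(false,4,1,1),(true,3,1,1),(true,2,1,1),(false,5,1,1),(true,1,1,1),(true,0,1,1)] (.leaf
  [3,0,0,0,0,0,0,1,0,5,0,0,0,3,0,18,0,0,0,140,112,0,0,0,24])))))) (.split
  [0,-2,-3,-4,-5,2,0,2,0,0,0,0,0,0,0,0] (.split [0,-2,-3,-4,-5,0,2,0,0,0,0,0,0,0,0,0] (.split
  [0,-2,-3,-4,-5,0,0,0,0,0,0,4,0,0,0,0] (.split [0,-2,-3,-4,-5,0,0,0,0,0,0,0,4,0,0,0] (.use (.R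
  0 4) [(true,4,1,1),(false,3,1,1),(false,2,1,1),(false,5,1,1),(false,1,1,1),(false,0,1,1)]
  (.split [1,0,0,0,0,1,2,0,0,0,1,0,0,0,0,-1] (.use (.H 0 0 1121) [(false,0,1,1)] (.leaf
  [124,0,6,0,0,0,0,0,0,0,0,31,0,39,0,0,0,0,0,0,539,819,434,0,273,8])) (.use (.H 0 0 1121)
  [(true,0,1,1)] (.leaf [12,0,6,0,0,0,0,0,0,7,0,11,0,0,0,0,0,30,0,0,210,350,154,0,126])))) (.use
  (.R 0 4) [(true,4,1,1),(false,3,1,1),(false,2,1,1),(false,5,1,1),(false,1,1,1),(true,0,1,1)]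
  (.split [1,0,0,0,0,1,2,0,0,0,1,0,0,0,0,-1] (.use (.H 0 0 1121) [(false,0,1,1)] (.leaf
  [548,0,0,595,0,0,175,0,0,0,0,0,0,244,0,0,0,0,0,0,1288,1918,2380,364,0,14])) (.leaf
  [14,1,0,0,0,14,0,0,2,0,0,0,0,0,0,0,2,0,0,28,28,28])))) (.split
  [0,-2,-3,-4,-5,0,0,0,0,0,0,0,4,0,0,0] (.use (.R 0 4)
  [(true,4,1,1),(false,3,1,1),(false,2,1,1),(false,5,1,1),(true,1,1,1),(false,0,1,1)] (.split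
  [1,0,0,0,0,1,2,0,0,0,1,0,0,0,0,-1] (.use (.H 0 0 1121) [(false,0,1,1)] (.leaf
  [56,0,0,0,0,0,0,0,0,0,0,11,0,15,0,3,0,0,0,0,217,273,196,0,63,4])) (.use (.H 0 0 1121)
  [(true,0,1,1)] (.split [1,0,0,0,0,1,0,3,0,0,1,0,0,0,0,-1] (.use (.H 0 0 1185) [(false,0,1,1)]
  (.leaf [2,0,0,0,1,0,0,0,0,0,0,0,0,2,0,0,0,0,0,0,0,0,14,42,14,0,28])) (.use (.H 0 0 1185)
  [(true,0,1,1)] (.use (.H 1 2 1090) [(false,12,2,1)] (.split [1,0,3,0,0,1,0,0,0,0,1,0,3,0,0,-1]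
  (.use (.H 0 0 5157) [(false,0,1,1)] (.leaf
  [18,0,3,0,0,0,0,0,0,0,0,0,0,0,0,0,5,0,0,0,4,0,0,0,0,70,98,42,0,42])) (.use (.H 0 0 5157)
  [(true,0,1,1)] (.split [0,0,0,0,0,0,-2,-3,-4,-5,0,2,0,0,0,0] (.split
  [0,0,0,0,0,0,-2,-3,-4,-5,0,0,8,0,0,0] (.split [0,0,0,0,0,0,-2,-3,-4,-5,2,0,2,0,0,0] (.split
  [0,2,0,0,0,0,-2,-3,-4,-5,0,0,0,0,0,0] (.split [0,0,8,0,0,0,-2,-3,-4,-5,0,0,0,0,0,0] (.split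
  [2,0,2,0,0,0,-2,-3,-4,-5,0,0,0,0,0,0] (.use (.R 1 0)
  [(false,4,1,1),(false,3,1,1),(false,5,1,1),(false,1,1,1),(false,0,1,1),(false,2,1,1)] (.leaf
  [1,0,0,0,0,0,0,3,0,0,0,0,0,0,1,0,0,0,0,0,0,0,0,0,0,0,0,0,0,0,0,0,28,56,28,0,28,0,2])) (.use
  (.R 1 0) [(false,4,1,1),(false,3,1,1),(false,5,1,1),(false,1,1,1),(true,0,1,1),(false,2,1,1)]
  (.leaf
  [4,98,0,0,0,0,0,0,0,0,0,0,0,0,1,0,0,0,0,0,0,0,0,0,0,0,0,14,0,54,0,0,294,98,210,0,0,0,4])))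
  (.split [2,0,2,0,0,0,-2,-3,-4,-5,0,0,0,0,0,0] (.use (.R 1 0)
  [(false,4,1,1),(false,3,1,1),(false,5,1,1),(true,1,1,1),(false,0,1,1),(false,2,1,1)] (.leaf
  [30,0,0,0,0,0,0,0,0,0,160,0,32,0,0,0,0,0,0,0,0,0,0,0,0,0,0,37,0,194,0,0,1680,2324,840,0,1162]))
  (.use (.R 1 0)
  [(false,4,1,1),(false,3,1,1),(false,5,1,1),(true,1,1,1),(true,0,1,1),(false,2,1,1)] (.leaf
  [18,0,0,0,0,0,0,0,0,0,0,0,36,0,39,0,0,0,0,0,0,0,0,77,0,0,0,61,0,240,0,0,2044,2408,840,714,1932]))))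
  (.leaf [21,7,0,0,1,0,0,0,0,0,0,2,0,0,0,0,0,0,0,0,6,0,0,0,0,0,6,0,0,56,98,28,0,70])) (.split
  [0,0,8,0,0,0,-2,-3,-4,-5,0,0,0,0,0,0] (.split [2,0,2,0,0,0,-2,-3,-4,-5,0,0,0,0,0,0] (.split
  [0,2,0,0,0,0,-2,-3,-4,-5,0,0,0,0,0,0] (.use (.R 1 0)
  [(false,4,1,1),(true,3,1,1),(false,5,1,1),(false,2,1,1),(false,1,1,1),(false,0,1,1)] (.leaf
  [4,0,0,0,0,0,0,0,0,0,0,0,0,0,17,0,0,0,0,0,0,0,0,34,0,0,0,0,0,44,0,0,308,896,196,0,700])) (.use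
  (.R 1 0) [(false,4,1,1),(true,3,1,1),(false,5,1,1),(false,2,1,1),(false,1,1,1),(true,0,1,1)]
  (.leaf
  [5,0,0,0,0,0,0,22,0,0,0,0,0,0,42,0,0,0,0,0,0,0,0,94,0,0,0,0,0,128,0,0,896,2212,616,0,1596])))
  (.leaf [21,0,35,0,0,0,0,0,4,0,0,0,4,0,0,0,0,0,0,0,0,10,0,0,0,0,0,28,0,0,126,224,98,0,168]))
  (.leaf [14,28,0,0,0,0,0,18,0,4,0,0,0,0,0,0,0,0,0,0,3,0,0,0,0,0,28,0,0,154,182,98,14,98])))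
  (.split [0,0,8,0,0,0,-2,-3,-4,-5,0,0,0,0,0,0] (.split [0,0,0,0,0,0,-2,-3,-4,-5,2,0,2,0,0,0]
  (.split [0,2,0,0,0,0,-2,-3,-4,-5,0,0,0,0,0,0] (.split [2,0,2,0,0,0,-2,-3,-4,-5,0,0,0,0,0,0]
  (.use (.R 1 0)
  [(true,4,1,1),(false,2,1,1),(false,5,1,1),(false,3,1,1),(false,0,1,1),(false,1,1,1)] (.leaf
  [4,0,0,0,0,0,0,16,0,0,0,0,8,0,15,0,0,0,0,0,0,0,0,22,0,0,0,0,0,32,0,0,336,756,336,0,420]))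
  (.use (.R 1 0)
  [(true,4,1,1),(false,2,1,1),(false,5,1,1),(false,3,1,1),(true,0,1,1),(false,1,1,1)] (.leaf
  [51,315,0,0,0,0,0,0,0,0,0,0,52,0,42,0,0,0,0,0,0,0,0,0,0,0,0,70,0,352,0,0,2562,1582,2660])))
  (.leaf [21,7,0,0,0,1,0,0,0,0,0,0,2,0,0,0,0,0,0,0,0,6,0,0,0,0,0,6,0,0,56,98,28,0,70])) (.split
  [2,0,2,0,0,0,-2,-3,-4,-5,0,0,0,0,0,0] (.split [0,2,0,0,0,0,-2,-3,-4,-5,0,0,0,0,0,0] (.use (.R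
  1 0) [(true,4,1,1),(true,2,1,1),(false,5,1,1),(false,3,1,1),(false,1,1,1),(false,0,1,1)]
  (.leaf
  [12,0,0,0,0,0,0,0,0,0,0,0,16,0,67,0,0,0,0,0,0,0,0,134,0,0,0,0,0,176,0,0,1232,3388,952,0,2492]))
  (.use (.R 1 0)
  [(true,4,1,1),(true,2,1,1),(false,5,1,1),(false,3,1,1),(false,1,1,1),(true,0,1,1)] (.leaf
  [4,0,0,0,0,0,0,0,0,0,0,0,8,0,35,0,0,0,0,0,0,0,0,78,0,0,0,0,0,96,0,0,672,1764,448,0,1316,0,16])))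
  (.leaf
  [1029,231,0,252,0,0,0,0,0,0,72,0,48,0,0,0,0,0,0,0,0,70,0,0,0,44,0,492,0,0,2366,1288,2730])))
  (.leaf
  [49,119,0,0,0,0,0,0,48,0,40,0,0,0,0,0,0,0,0,72,0,0,0,0,0,104,0,0,840,1736,840,112,1008])))
  (.leaf [182,0,0,0,2,0,0,0,0,0,0,0,0,0,0,0,0,16,0,0,0,11,0,42,0,0,224,0,280,84,14]))))))))))
  (.use (.R 0 4)
  [(true,4,1,1),(false,3,1,1),(false,2,1,1),(false,5,1,1),(true,1,1,1),(true,0,1,1)] (.leaf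
  [3,21,0,0,0,0,0,0,0,4,0,12,0,2,0,24,0,0,56,196,168])))) (.split
  [0,-2,-3,-4,-5,0,0,0,0,0,0,4,0,0,0,0] (.split [0,-2,-3,-4,-5,0,0,0,0,0,0,0,4,0,0,0] (.leaf
  [21,0,126,0,21,0,8,0,2,0,0,0,14,0,36,0,0,56,224,140]) (.use (.R 0 4)
  [(true,4,1,1),(false,3,1,1),(true,2,1,1),(false,5,1,1),(false,1,1,1),(true,0,1,1)] (.leaf
  [7,0,0,0,56,0,0,6,0,0,0,12,0,2,0,0,0,0,0,196,140,0,0,0,72]))) (.leaf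
  [7,63,0,14,0,2,0,0,0,2,0,7,0,16,0,0,0,112,70,0,0,0,4]))) (.split
  [0,-2,-3,-4,-5,0,2,0,0,0,0,0,0,0,0,0] (.split [0,-2,-3,-4,-5,0,0,0,0,0,0,4,0,0,0,0] (.split
  [0,-2,-3,-4,-5,0,0,0,0,0,0,0,4,0,0,0] (.use (.R 0 4)
  [(true,4,1,1),(true,3,1,1),(false,2,1,1),(false,5,1,1),(false,1,1,1),(false,0,1,1)] (.split
  [1,0,0,0,0,1,0,0,0,0,1,2,0,0,0,-1] (.use (.H 0 0 3105) [(false,0,1,1)] (.leaf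
  [5,0,1,0,0,0,0,0,0,0,0,1,0,7,0,0,0,9,0,0,49,84,49,28,0,0,4])) (.use (.H 0 0 3105)
  [(true,0,1,1)] (.use (.H 0 0 31) [(false,20,1,1)] (.split [0,1,0,2,0,1,2,0,0,0,0,1,0,2,0,-1]
  (.use (.H 1 1 10346) [(false,0,2,1)] (.leaf
  [92,0,117,44,0,6,0,0,0,0,0,0,0,0,0,0,0,0,0,0,280,0,0,959,1792,980,0,966,2])) (.use (.H 1 1
  10346) [(true,0,2,1)] (.split [0,0,0,0,0,0,-2,-3,-4,-5,2,0,0,0,0,0] (.split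
  [0,0,0,0,0,0,-2,-3,-4,-5,0,0,4,0,0,0] (.split [0,0,8,0,0,0,-2,-3,-4,-5,0,0,0,0,0,0] (.split
  [2,0,2,0,0,0,-2,-3,-4,-5,0,0,0,0,0,0] (.split [0,0,0,0,0,0,-2,-3,-4,-5,0,4,0,0,0,0] (.split
  [0,2,0,0,0,0,-2,-3,-4,-5,0,0,0,0,0,0] (.use (.R 1 4)
  [(false,5,1,1),(false,1,1,1),(false,4,1,1),(false,3,1,1),(false,2,1,1),(false,0,1,1)] (.leaf
  [8,0,0,0,0,0,0,3,0,0,10,0,8,0,0,0,0,0,0,0,0,8,0,0,0,0,0,36,0,0,252,630,210,0,266])) (.use (.R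
  1 4) [(false,5,1,1),(false,1,1,1),(false,4,1,1),(false,3,1,1),(false,2,1,1),(true,0,1,1)]
  (.leaf
  [17,0,0,0,0,0,0,0,0,0,114,0,59,0,0,0,0,0,0,0,0,179,0,0,0,0,0,488,0,0,2212,4718,1708,0,2156])))
  (.split [0,2,0,0,0,0,-2,-3,-4,-5,0,0,0,0,0,0] (.use (.R 1 4)
  [(false,5,1,1),(true,1,1,1),(false,4,1,1),(false,3,1,1),(false,2,1,1),(false,0,1,1)] (.leaf
  [6,0,0,0,0,0,0,11,0,0,0,0,17,0,0,0,0,0,0,0,0,39,0,0,0,0,0,108,0,0,448,1232,378,0,546,0,28]))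
  (.use (.R 1 4)
  [(false,5,1,1),(true,1,1,1),(false,4,1,1),(false,3,1,1),(false,2,1,1),(true,0,1,1)] (.leaf
  [17,0,0,0,0,0,28,0,0,0,0,0,17,0,0,0,0,0,0,0,0,47,0,0,0,0,0,89,0,0,679,1099,497,0,602]))))
  (.leaf [70,0,0,0,11,0,0,0,0,11,0,0,0,0,0,0,0,0,23,0,0,0,0,0,96,0,0,364,700,350,0,182])) (.leaf
  [168,0,280,71,0,0,74,0,84,0,0,0,0,0,0,0,0,212,0,0,0,0,0,620,0,0,2548,6174,2450,0,1890]))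
  (.leaf [126,0,4,0,0,42,0,7,0,0,0,0,0,0,0,0,21,0,0,0,0,0,72,0,0,308,406,504,0,0,0,116])) (.leaf
  [14,0,0,0,2,0,1,0,0,0,0,0,0,0,0,3,0,0,0,0,0,12,0,0,56,70,28,28,56])))))))) (.use (.R 0 4)
  [(true,4,1,1),(true,3,1,1),(false,2,1,1),(false,5,1,1),(false,1,1,1),(true,0,1,1)] (.split
  [0,1,0,0,0,1,2,0,0,0,0,1,0,0,0,-1] (.use (.H 1 1 2146) [(false,0,2,1)] (.leaf
  [38,0,27,21,49,0,0,0,0,0,0,30,0,144,0,0,0,448,0,0,1232,2800,1988,0,0,20])) (.use (.H 1 1 2146)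
  [(true,0,2,1)] (.leaf [5,0,3,7,0,0,0,0,0,0,0,2,0,4,0,0,0,24,0,0,98,182,140,42]))))) (.split
  [0,-2,-3,-4,-5,0,0,0,0,0,0,0,4,0,0,0] (.use (.R 0 4)
  [(true,4,1,1),(true,3,1,1),(false,2,1,1),(false,5,1,1),(true,1,1,1),(false,0,1,1)] (.split
  [0,1,0,0,0,1,2,0,0,0,0,1,0,0,0,-1] (.use (.H 1 1 2146) [(false,0,2,1)] (.leaf
  [396,0,33,0,0,0,0,0,0,0,0,0,0,324,0,122,0,1808,0,0,6720,10024,6328,0,3024,148])) (.use (.H 1 1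
  2146) [(true,0,2,1)] (.split [0,-2,-3,-4,-5,2,0,0,0,0,0,0,0,0,0,0] (.split
  [0,-2,-3,-4,-5,0,0,4,0,0,0,0,0,0,0,0] (.split [0,-2,-3,-4,-5,0,4,0,0,0,0,0,0,0,0,0] (.use (.R
  0 6) [(false,2,1,1),(false,0,1,1),(false,1,1,1),(false,11,1,1),(true,7,1,1),(false,6,1,1)]
  (.leaf [1,63,0,0,8,0,2,0,0,0,0,0,0,0,0,16,0,0,0,0,0,40,0,0,224,308,140,0,168])) (.use (.R 0 6)
  [(false,2,1,1),(true,0,1,1),(false,1,1,1),(false,11,1,1),(true,7,1,1),(false,6,1,1)] (.split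
  [0,0,0,0,0,0,-2,-3,-4,-5,0,2,0,0,0,0] (.split [0,0,0,0,0,0,-2,-3,-4,-5,0,0,8,0,0,0] (.split
  [0,0,0,0,0,0,-2,-3,-4,-5,2,0,2,0,0,0] (.split [0,2,0,0,0,0,-2,-3,-4,-5,0,0,0,0,0,0] (.split
  [0,0,8,0,0,0,-2,-3,-4,-5,0,0,0,0,0,0] (.split [2,0,2,0,0,0,-2,-3,-4,-5,0,0,0,0,0,0] (.use (.R
  1 0) [(false,4,1,1),(false,3,1,1),(false,5,1,1),(false,1,1,1),(false,0,1,1),(false,2,1,1)]
  (.split [0,-2,-3,-4,-5,0,0,0,0,0,0,0,8,0,0,0] (.split [0,-2,-3,-4,-5,0,0,0,0,0,2,0,2,0,0,0]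
  (.split [0,-2,-3,-4,-5,0,0,0,0,0,0,2,0,0,0,0] (.use (.R 0 0)
  [(true,21,1,1),(true,20,1,1),(false,19,1,1),(false,2,1,1),(false,1,1,1),(false,0,1,1)] (.leaf
  [24,0,0,0,55,0,0,0,0,0,0,12,0,0,0,0,0,30,0,0,0,0,0,0,0,0,90,0,0,0,22,0,236,0,0,1372,4508,1260,0,2268]))
  (.leaf
  [84,0,0,3,0,0,0,0,0,0,0,0,0,0,0,0,0,0,0,0,0,0,0,0,0,4,0,0,0,11,0,12,0,0,14,154,42,0,126,0,60]))
  (.leaf
  [84,0,18,0,0,0,0,0,0,0,0,0,0,0,0,15,0,0,0,0,0,0,0,0,28,0,0,0,17,0,108,0,0,434,1498,378,0,882]))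
  (.leaf [182,10,0,0,0,0,0,0,13,0,0,0,0,0,14,0,0,0,0,0,0,0,0,8,0,0,0,0,0,24,0,0,56,812,812])))
  (.use (.R 1 0)
  [(false,4,1,1),(false,3,1,1),(false,5,1,1),(false,1,1,1),(true,0,1,1),(false,2,1,1)] (.leaf
  [19,0,0,0,0,0,0,0,0,0,0,0,0,6,0,0,0,0,0,0,0,0,0,0,0,0,32,0,110,0,0,686,686,490,0,280,0,4])))
  (.split [2,0,2,0,0,0,-2,-3,-4,-5,0,0,0,0,0,0] (.use (.R 1 0)
  [(false,4,1,1),(false,3,1,1),(false,5,1,1),(true,1,1,1),(false,0,1,1),(false,2,1,1)] (.leaf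
  [42,0,0,0,0,0,0,21,0,0,0,0,0,60,0,0,0,0,0,0,0,0,191,0,0,0,103,0,528,0,0,3052,5600,1848,1302,3612]))
  (.use (.R 1 0)
  [(false,4,1,1),(false,3,1,1),(false,5,1,1),(true,1,1,1),(true,0,1,1),(false,2,1,1)] (.leaf
  [62,0,0,0,0,0,0,31,0,0,0,0,0,22,0,0,0,0,0,0,0,0,0,0,0,0,154,0,410,0,0,4158,1834,2198,2324,1540]))))
  (.leaf [42,14,0,0,0,0,0,0,0,0,1,0,0,0,0,0,0,0,0,6,0,0,0,0,0,8,0,0,56,56,28,0,28])) (.split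
  [0,0,8,0,0,0,-2,-3,-4,-5,0,0,0,0,0,0] (.split [2,0,2,0,0,0,-2,-3,-4,-5,0,0,0,0,0,0] (.split
  [0,2,0,0,0,0,-2,-3,-4,-5,0,0,0,0,0,0] (.use (.R 1 0)
  [(false,4,1,1),(true,3,1,1),(false,5,1,1),(false,2,1,1),(false,1,1,1),(false,0,1,1)] (.leaf
  [3,28,0,0,0,0,0,0,0,0,0,0,0,2,0,0,0,0,0,0,0,0,0,0,0,0,0,0,10,0,0,14,154,42,0,112,0,20])) (.use
  (.R 1 0) [(false,4,1,1),(true,3,1,1),(false,5,1,1),(false,2,1,1),(false,1,1,1),(true,0,1,1)]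
  (.leaf [1,0,0,0,0,0,0,0,0,0,0,0,0,2,0,0,0,0,0,0,0,0,6,0,0,0,0,0,16,0,0,56,140,56,0,84,0,4])))
  (.leaf [21,0,35,0,0,0,0,0,0,0,0,2,0,0,0,0,0,0,0,0,6,0,0,0,0,0,28,0,0,70,112,98,0,56])) (.leaf
  [168,658,0,0,12,0,0,0,0,0,40,0,0,0,0,0,0,0,0,117,0,0,0,0,0,428,0,0,1694,2198,1498,1134,1834])))
  (.split [0,0,8,0,0,0,-2,-3,-4,-5,0,0,0,0,0,0] (.split [0,0,0,0,0,0,-2,-3,-4,-5,2,0,2,0,0,0]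
  (.split [0,2,0,0,0,0,-2,-3,-4,-5,0,0,0,0,0,0] (.split [2,0,2,0,0,0,-2,-3,-4,-5,0,0,0,0,0,0]
  (.use (.R 1 0)
  [(true,4,1,1),(false,2,1,1),(false,5,1,1),(false,3,1,1),(false,0,1,1),(false,1,1,1)] (.leaf
  [5,0,0,14,0,7,0,2,0,0,0,0,0,3,0,0,0,0,0,0,0,0,0,0,0,0,0,0,0,0,0,56,168,168,0,0,0,4])) (.use
  (.R 1 0) [(true,4,1,1),(false,2,1,1),(false,5,1,1),(false,3,1,1),(true,0,1,1),(false,1,1,1)]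
  (.leaf
  [12,0,0,0,0,0,0,6,0,0,0,0,0,7,0,0,0,0,0,0,0,0,2,0,0,0,12,0,48,0,0,308,336,504,0,0,0,116])))
  (.leaf [42,14,0,0,0,0,0,0,0,0,0,1,0,0,0,0,0,0,0,0,6,0,0,0,0,0,8,0,0,56,56,28,0,28])) (.split
  [2,0,2,0,0,0,-2,-3,-4,-5,0,0,0,0,0,0] (.split [0,2,0,0,0,0,-2,-3,-4,-5,0,0,0,0,0,0] (.use (.R
  1 0) [(true,4,1,1),(true,2,1,1),(false,5,1,1),(false,3,1,1),(false,1,1,1),(false,0,1,1)]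
  (.leaf
  [28,504,0,0,0,0,0,14,0,0,0,0,0,33,0,0,0,0,0,0,0,0,22,0,0,0,0,0,160,0,0,196,2296,1344,0,952,0,92]))
  (.use (.R 1 0)
  [(true,4,1,1),(true,2,1,1),(false,5,1,1),(false,3,1,1),(false,1,1,1),(true,0,1,1)] (.use (.H 1
  2 1090) [(false,21,2,1)] (.leaf
  [28,12,0,0,0,0,0,0,6,0,0,0,0,0,9,0,0,0,0,0,0,0,0,26,0,0,0,0,0,120,0,0,588,560,952,0,0,0,60]))))
  (.leaf
  [651,357,0,168,0,12,0,0,0,0,0,30,0,0,0,0,0,0,0,0,82,0,0,0,20,0,468,0,0,1442,1288,2310])))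
  (.leaf
  [119,329,0,32,0,0,0,0,0,44,0,0,0,0,0,0,0,0,124,0,0,0,0,0,264,0,0,1008,2352,2240,392,504])))
  (.leaf [294,0,0,0,0,0,0,9,0,0,0,0,0,0,0,0,71,0,0,0,34,0,180,0,0,742,938,630,210,630]))))
  (.leaf [56,0,8,0,1,0,0,0,0,0,0,0,0,4,0,0,0,5,0,28,0,0,98,266,98,0,98])) (.leaf
  [42,0,0,1,0,0,0,0,0,0,0,0,6,0,0,0,2,0,24,0,0,28,112,84,0,0,0,8]))))) (.use (.R 0 4)
  [(true,4,1,1),(true,3,1,1),(false,2,1,1),(false,5,1,1),(true,1,1,1),(true,0,1,1)] (.split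
  [0,1,0,0,0,1,2,0,0,0,0,1,0,0,0,-1] (.use (.H 1 1 2146) [(false,0,2,1)] (.leaf
  [828,0,141,2037,0,0,0,0,0,0,0,0,0,1620,0,410,0,5552,0,0,15792,29176,25480,0,0,292])) (.use (.H
  1 1 2146) [(true,0,2,1)] (.leaf [9,0,6,42,0,0,0,0,0,0,0,10,0,6,0,5,0,60,0,0,140,448,378]))))))
  (.split [0,-2,-3,-4,-5,0,0,0,0,0,0,4,0,0,0,0] (.split [0,-2,-3,-4,-5,0,0,0,0,0,0,0,4,0,0,0]
  (.leaf [21,0,252,0,63,0,10,0,0,0,12,0,26,0,72,0,0,56,504,280]) (.use (.R 0 4)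
  [(true,4,1,1),(true,3,1,1),(true,2,1,1),(false,5,1,1),(false,1,1,1),(true,0,1,1)] (.leaf
  [3,0,0,0,0,0,0,0,0,4,0,6,0,2,0,24,0,0,14,196,126,0,0,0,12]))) (.leaf
  [21,126,0,21,0,6,0,2,0,0,0,16,0,36,0,0,28,224,168]))))) (.leaf
  [42,4,0,2,0,0,0,3,0,24,0,0,42,98,70,0,42]))) (.use (.H 1 2 1090) [(true,0,2,1)] (.leaf
  [5,0,2,0,0,0,1,0,12,0,0,70,98,42,0,42])))) (.use (.H 1 1 10282) [(true,0,2,1)] (.leaf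
  [1,0,0,0,0,0,1,0,0,7,7,7,0,0,0,4])))) (.leaf [147,7,0,28,0,15,147,98,98,21,231,2]))) (.use (.H
  1 0 2113) [(true,0,2,1)] (.leaf [1,0,0,0,0,0,0,0,0,0,0,12])))) (.use (.H 0 0 1057)
  [(true,0,1,1)] (.leaf [1,0,0,0,0,0,0,0,0,6])))

theorem certG5_ok : chk 7 (vmk (fun _ _ => 1) (5)) certG5 (baseF 29 18 2 1) = true := by
  decide +kernel

end AbcEM
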