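import Pool.Agent.Work.MP_a793bb_nt.EM.KDefs0

/-!
# Characters of a finite abelian group

Proof. Characters `ψ : AddChar (Additive G) ℂ` (finite type, its number `n` is `#G`; `AddChar.card_eq`, `Mathlib.Analysis.Fourier.FiniteAbelian.PontryaginDuality`), enumerated by `Fin n`
(`Fintype.equivFin`). `f i ψ = ‖∑ x ∈ S i, ψ (φ i x)‖`; `‖ψ g‖ = 1` (`AddChar.norm_apply`), so `0 ≤ f i ψ ≤ #S i`. Orthogonality: `∑ ψ, ψ h = if h = 0 then n else 0`
(`AddChar.sum_apply_eq_ite`). The number of the `x` in the product with `∏ φ i (x i) = g` is `(1/n) ∑_ψ ψ(-g) ∏_i ∑_{x ∈ S i} ψ (φ i x)` (`Finset.prod_univ_sum`), take norms. And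
`∑_ψ f i ψ ^ (2 k) = ∑_ψ (F * conj F) ^ k` with `F = ∑_{x ∈ S i} ψ (φ i x)`, `conj (ψ g) = ψ (-g)`, which is `∑_ψ ∑_{x, y} ψ (∏ φ (x j) / ∏ φ (y j)) = n * E1 (S i) (φ i) k` (`Finset.sum_pow'` or `Finset.prod_univ_sum` for `F ^ k = ∏_{j : Fin k} F`).
-/

set_option autoImplicit false

namespace AbcEM

open Finset Pool.Agent.Work.MP_a793bb_nt Pool.Agent.Work.MP_a793bb_nt.BPlus NumberField
  IsDedekindDomain Height

open Classical in
/-- the number of the elements of the product with product of the values `g` -/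
noncomputable def cntN {G : Type*} [CommGroup G] {ι : Type*} [Fintype ι] {X : ι → Type*}
    (S : ∀ i, Finset (X i)) (φ : ∀ i, X i → G) (g : G) : ℕ :=
  ((Fintype.piFinset S).filter fun x => ∏ i, φ i (x i) = g).card

private theorem ch_prod {G : Type*} [CommGroup G] (ψ : AddChar (Additive G) ℂ) {κ : Type*}
    (s : Finset κ) (f : κ → G) :
    ψ (Additive.ofMul (∏ i ∈ s, f i)) = ∏ i ∈ s, ψ (Additive.ofMul (f i)) := by
  classical
  induction s using Finset.induction_on with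
  | empty => simp
  | insert a s ha ih =>
    rw [prod_insert ha, prod_insert ha, ofMul_mul, AddChar.map_add_eq_mul, ih]

theorem exists_chars {G : Type*} [CommGroup G] [Finite G] {ι : Type*} [Fintype ι]
    {X : ι → Type*} (S : ∀ i, Finset (X i)) (φ : ∀ i, X i → G) :
    ∃ (n : ℕ) (f : ι → Fin n → ℝ), 0 < n ∧ (∀ i ψ, 0 ≤ f i ψ ∧ f i ψ ≤ (S i).card) ∧
      (∀ g : G, (cntN S φ g : ℝ) ≤ (∑ ψ, ∏ i, f i ψ) / n) ∧
      ∀ i (k : ℕ), (∑ ψ, f i ψ ^ (2 * k)) / n = (E1 (S i) (φ i) k : ℝ) := by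
  classical
  haveI : Fintype (Additive G) := Fintype.ofFinite _
  set n := Fintype.card (AddChar (Additive G) ℂ) with hn
  set e : Fin n ≃ AddChar (Additive G) ℂ := (Fintype.equivFin _).symm with he
  have hcard : (Fintype.card (Additive G) : ℂ) = (n : ℂ) := by
    rw [hn, AddChar.card_eq]
  have hn0 : 0 < n := Fintype.card_pos
  have hnC : (n : ℂ) ≠ 0 := by exact_mod_cast hn0.ne'
  have hnR : (0 : ℝ) < n := by exact_mod_cast hn0
  let F : ι → AddChar (Additive G) ℂ → ℂ := fun i ψ => ∑ x ∈ S i, ψ (Additive.ofMul (φ i x))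
  have horth : ∀ a : Additive G, ∑ ψ : AddChar (Additive G) ℂ, ψ a = if a = 0 then (n : ℂ) else 0 := by
    intro a
    rw [AddChar.sum_apply_eq_ite, hcard]
  refine ⟨n, fun i ψ => ‖F i (e ψ)‖, hn0, fun i ψ => ⟨norm_nonneg _, ?_⟩, fun g => ?_, fun i k => ?_⟩
  · refine (norm_sum_le _ _).trans ?_
    rw [Finset.sum_congr rfl fun x _ => AddChar.norm_apply (e ψ) _]
    simp
  · rw [le_div_iff₀ hnR]
    have h1 : (cntN S φ g : ℂ) * n = ∑ ψ : AddChar (Additive G) ℂ,
        ψ (-Additive.ofMul g) * ∏ i, F i ψ := by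
      have h2 : ∀ ψ : AddChar (Additive G) ℂ, ψ (-Additive.ofMul g) * ∏ i, F i ψ =
          ∑ x ∈ Fintype.piFinset S, ψ (-Additive.ofMul g + Additive.ofMul (∏ i, φ i (x i))) := by
        intro ψ
        simp only [F]
        rw [Finset.prod_univ_sum, Finset.mul_sum]
        refine Finset.sum_congr rfl fun x _ => ?_
        rw [AddChar.map_add_eq_mul, ch_prod]
      rw [Finset.sum_congr rfl fun ψ _ => h2 ψ, Finset.sum_comm,
        Finset.sum_congr rfl fun x _ => horth _]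
      unfold cntN
      rw [Finset.card_filter]
      push_cast
      rw [Finset.sum_mul]
      refine Finset.sum_congr rfl fun x _ => ?_
      have h3 : (-Additive.ofMul g + Additive.ofMul (∏ i, φ i (x i)) = 0) ↔ ∏ i, φ i (x i) = g := by
        rw [neg_add_eq_zero, eq_comm]
        exact Additive.ofMul.injective.eq_iff
      by_cases h4 : ∏ i, φ i (x i) = g
      · rw [if_pos h4, if_pos (h3.2 h4), one_mul]
      · rw [if_neg h4, if_neg (fun h => h4 (h3.1 h)), zero_mul]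
    have h5 : (cntN S φ g : ℝ) * n = ‖(cntN S φ g : ℂ) * n‖ := by
      rw [norm_mul, Complex.norm_natCast, Complex.norm_natCast]
    rw [h5, h1]
    refine (norm_sum_le _ _).trans ?_
    have h6 : ∑ ψ : Fin n, ∏ i, ‖F i (e ψ)‖ = ∑ ψ : AddChar (Additive G) ℂ, ∏ i, ‖F i ψ‖ :=
      Equiv.sum_comp e (fun ψ => ∏ i, ‖F i ψ‖)
    rw [h6]
    refine Finset.sum_le_sum fun ψ _ => ?_
    rw [norm_mul, AddChar.norm_apply, one_mul, norm_prod]
  · rw [div_eq_iff hnR.ne']
    have h6 : ∑ ψ : Fin n, ‖F i (e ψ)‖ ^ (2 * k) =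
        ∑ ψ : AddChar (Additive G) ℂ, ‖F i ψ‖ ^ (2 * k) :=
      Equiv.sum_comp e (fun ψ => ‖F i ψ‖ ^ (2 * k))
    show ∑ ψ : Fin n, ‖F i (e ψ)‖ ^ (2 * k) = _
    rw [h6]
    have h7 : ∀ ψ : AddChar (Additive G) ℂ, ((‖F i ψ‖ ^ (2 * k) : ℝ) : ℂ) =
        ∑ y ∈ Fintype.piFinset (fun _ : Fin k => S i) ×ˢ Fintype.piFinset (fun _ : Fin k => S i),
          ψ (Additive.ofMul (∏ j, φ i (y.1 j)) - Additive.ofMul (∏ j, φ i (y.2 j))) := by
      intro ψ
      have h8 : ((‖F i ψ‖ ^ (2 * k) : ℝ) : ℂ) = (F i ψ) ^ k * (starRingEnd ℂ (F i ψ)) ^ k := by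
        rw [← mul_pow, Complex.mul_conj, Complex.normSq_eq_norm_sq, pow_mul]
        push_cast
        rfl
      have h9 : (F i ψ) ^ k = ∑ x ∈ Fintype.piFinset (fun _ : Fin k => S i),
          ψ (Additive.ofMul (∏ j, φ i (x j))) := by
        have : (F i ψ) ^ k = ∏ _j : Fin k, F i ψ := by simp
        rw [this]
        simp only [F]
        rw [Finset.prod_univ_sum]
        exact Finset.sum_congr rfl fun x _ => (ch_prod ψ _ _).symm
      rw [h8, ← map_pow, h9, map_sum, Finset.sum_mul_sum, ← Finset.sum_product']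
      refine Finset.sum_congr rfl fun y _ => ?_
      rw [sub_eq_add_neg, AddChar.map_add_eq_mul, AddChar.map_neg_eq_conj]
    have h10 : ((∑ ψ : AddChar (Additive G) ℂ, ‖F i ψ‖ ^ (2 * k) : ℝ) : ℂ) =
        ((E1 (S i) (φ i) k : ℝ) : ℂ) * (n : ℂ) := by
      push_cast
      have h11 : ∀ ψ : AddChar (Additive G) ℂ, (‖F i ψ‖ : ℂ) ^ (2 * k) =
        ∑ y ∈ Fintype.piFinset (fun _ : Fin k => S i) ×ˢ Fintype.piFinset (fun _ : Fin k => S i),
          ψ (Additive.ofMul (∏ j, φ i (y.1 j)) - Additive.ofMul (∏ j, φ i (y.2 j))) := by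
        intro ψ
        rw [← h7 ψ]
        push_cast
        rfl
      rw [Finset.sum_congr rfl fun ψ _ => h11 ψ, Finset.sum_comm,
        Finset.sum_congr rfl fun x _ => horth _]
      unfold E1
      rw [Finset.card_filter]
      push_cast
      rw [Finset.sum_mul]
      refine Finset.sum_congr rfl fun x _ => ?_
      have h3 : (Additive.ofMul (∏ j, φ i (x.1 j)) - Additive.ofMul (∏ j, φ i (x.2 j)) = 0) ↔
          ∏ j, φ i (x.1 j) = ∏ j, φ i (x.2 j) := by
        rw [sub_eq_zero]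
        exact Additive.ofMul.injective.eq_iff
      by_cases h4 : ∏ j, φ i (x.1 j) = ∏ j, φ i (x.2 j)
      · rw [if_pos h4, if_pos (h3.2 h4), one_mul]
      · rw [if_neg h4, if_neg (fun h => h4 (h3.1 h)), zero_mul]
    exact_mod_cast h10

end AbcEM
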