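import Pool.Agent.Work.MP_a793bb_nt.EM.TDefs

/-!
# The affine forms of the codes are the costs

Proof. Case distinction on the code; `okT` gives the bounds `n < 4`, `u < 3`, ..., so that `(Fin.ofNat 4 n : ℕ) = n` etc. (obtain the finitely many values of the
small parameters by `interval_cases`, or compute with `Fin.ofNat`, `Nat.mod_eq_of_lt`). Then unfold `forms`, `costT`, the sums over `Fin 3`, `Fin 5`
(`Fin.sum_univ_succ`), `ev`, `vmk`, `xs`, and use `c * max 0 x = max 0 (c * x)` for `0 ≤ c` and `max x y = x + max 0 (y - x)`: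
`H`: `(n+1) * cost = ∑ (n+1) w + max 0 ((n+1) * (∑ hcf w - 1))`;
`E`: `2 max (A) (A/2 + B) = A + 2 B + max 0 (A - 2 B)`, `A` the rest of the side `r` plus the side `p`, `B` the third side;
`M`: `2 (ρ + max (τ/2) (τ - μ/2)) = 2 ρ + τ + max 0 (τ - μ)`;
`R`: `8 rSide true u m v mu = 4 (u + m + v) + 2 max 0 (2u - mu) + max 0 (4m - mu) + max 0 (4v - mu)`,
`8 rSide false u m v mu = 4 (u + m + v) + max 0 (8v - mu) + 2 max 0 (2u + 2v - mu) + 2 max 0 (2m - mu)`.
For `R` it may be convenient to treat `Finset.sum` over `j ≠ q` by `fin_cases` on `q` (three cases). For `H` keep `sel` general: `split_ifs` for the 15 bits is too much, so prove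
it termwise: both sides are sums over `(j, c)` of terms depending on the bit `sel.testBit (5 j + c)` only (use `Finset.sum_congr`, with a lemma
`ev (vmk f k) (xs w) = (∑ j, ∑ c, (f j c : ℝ) * w j c) + k`).
`ok_sound`: `okT` is the Boolean form of `okTl (toTl ct)` (`decide` statements; `List.range` `all`).
-/

set_option autoImplicit false

namespace AbcEM

open Finset Pool.Agent.Work.MP_a793bb_nt Pool.Agent.Work.MP_a793bb_nt.BPlus NumberField
  IsDedekindDomain Height

/-- value of a form given by coefficients -/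
theorem ev_vmk (f : ℕ → ℕ → ℤ) (k : ℤ) (w : Fin 3 → Fin 5 → ℝ) :
    ev (vmk f k) (xs w) = (∑ j : Fin 3, ∑ c : Fin 5, (f (j : ℕ) (c : ℕ) : ℝ) * w j c) + k := by
  simp [ev, vmk, xs, Fin.sum_univ_succ]
  ring

theorem forms_pos (ct : CT) : 0 < (forms ct).1 := by
  cases ct <;> simp [forms]

theorem forms_len (ct : CT) : (forms ct).2.1.length = 16 ∧
    ∀ p ∈ (forms ct).2.2, p.2.length = 16 := by
  cases ct with
  | H n u sel =>
    refine ⟨rfl, ?_⟩
    intro p hp
    simp only [forms, List.mem_singleton] at hp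
    subst hp
    rfl
  | E r p c =>
    refine ⟨rfl, ?_⟩
    intro p hp
    simp only [forms, List.mem_singleton] at hp
    subst hp
    rfl
  | M q T =>
    refine ⟨rfl, ?_⟩
    intro p hp
    simp only [forms, List.mem_singleton] at hp
    subst hp
    rfl
  | R q a =>
    refine ⟨rfl, ?_⟩
    have hr : ∀ j, ∀ p ∈ rms q a j, p.2.length = 16 := by
      intro j p hp
      unfold rms at hp
      split_ifs at hp with h
      · simp only [List.mem_cons, List.not_mem_nil, or_false] at hp
        rcases hp with rfl | rfl | rfl <;> rfl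
      · simp only [List.mem_cons, List.not_mem_nil, or_false] at hp
        rcases hp with rfl | rfl | rfl <;> rfl
    intro p hp
    simp only [forms, List.mem_append] at hp
    rcases hp with hp | hp <;> exact hr _ p hp

private theorem fofn (m : ℕ) [NeZero m] (q : Fin m) : Fin.ofNat m (q : ℕ) = q := by
  ext
  simp [Fin.ofNat, Nat.mod_eq_of_lt q.2]

private theorem max_e (A B : ℝ) : 2 * max A (A / 2 + B) = A + 2 * B + max 0 (A - 2 * B) := by
  rcases le_total A (A / 2 + B) with h | h
  · rw [max_eq_right h, max_eq_left (by linarith)]; ring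
  · rw [max_eq_left h, max_eq_right (by linarith)]; ring

private theorem max_m (r t m : ℝ) :
    2 * (r + max (t / 2) (t - m / 2)) = 2 * r + t + max 0 (t - m) := by
  rcases le_total (t / 2) (t - m / 2) with h | h
  · rw [max_eq_right h, max_eq_right (by linarith)]; ring
  · rw [max_eq_left h, max_eq_left (by linarith)]; ring

private theorem max_l (x y : ℝ) : max x y = x + max 0 (y - x) := by
  rcases le_total x y with h | h
  · rw [max_eq_right h, max_eq_right (by linarith)]; ring
  · rw [max_eq_left h, max_eq_left (by linarith)]; ring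

private theorem rside_t (u m v mu : ℝ) : 8 * rSide true u m v mu =
    4 * (u + m + v) + 2 * max 0 (2 * u - mu) + max 0 (4 * m - mu) + max 0 (4 * v - mu) := by
  simp only [rSide, if_true]
  rw [max_l (2 * u) (4 * u - mu), max_l (4 * m) (8 * m - mu), max_l (4 * v) (8 * v - mu)]
  rw [show 4 * u - mu - 2 * u = 2 * u - mu by ring, show 8 * m - mu - 4 * m = 4 * m - mu by ring,
    show 8 * v - mu - 4 * v = 4 * v - mu by ring]
  ring

private theorem rside_f (u m v mu : ℝ) : 8 * rSide false u m v mu =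
    4 * (u + m + v) + max 0 (8 * v - mu) + 2 * max 0 (2 * u + 2 * v - mu) +
      2 * max 0 (2 * m - mu) := by
  simp only [rSide, Bool.false_eq_true, if_false]
  rw [max_l (2 * m) (4 * m - mu)]
  have h : max 0 (8 * v - mu) = 2 * max 0 (4 * v - mu / 2) := by
    rw [mul_max_of_nonneg _ _ (by norm_num : (0 : ℝ) ≤ 2)]
    congr 1
    · ring
    · ring
  rw [h, show 4 * m - mu - 2 * m = 2 * m - mu by ring]
  ring

private theorem fs_H (n u sel : ℕ) (w : Fin 3 → Fin 5 → ℝ) (hn : n < 4) (hu : u < 3) :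
    ((forms (.H n u sel)).1 : ℝ) * costT (toTl (.H n u sel)) w =
      ev (forms (.H n u sel)).2.1 (xs w) +
      ((forms (.H n u sel)).2.2.map fun p => (p.1 : ℝ) * max 0 (ev p.2 (xs w))).sum := by
  have hn' : ((Fin.ofNat 4 n : Fin 4) : ℕ) = n := by simp [Fin.ofNat, Nat.mod_eq_of_lt hn]
  have hu' : ((Fin.ofNat 3 u : Fin 3) : ℕ) = u := by simp [Fin.ofNat, Nat.mod_eq_of_lt hu]
  have hju : ∀ j : Fin 3, (j = Fin.ofNat 3 u) ↔ ((j : ℕ) = u) := by
    intro j
    rw [Fin.ext_iff, hu']
  simp only [forms, toTl, costT, hCost, List.map_cons, List.map_nil, List.sum_cons, List.sum_nil,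
    ev_vmk, add_zero, Nat.cast_one, one_mul, Int.cast_zero]
  have hpos : (0 : ℝ) < (n : ℝ) + 1 := by positivity
  rw [mul_add]
  congr 1
  · rw [Finset.mul_sum]
    refine Finset.sum_congr rfl fun j _ => ?_
    rw [Finset.mul_sum]
    refine Finset.sum_congr rfl fun c _ => ?_
    split_ifs <;> push_cast <;> ring
  · rw [mul_max_of_nonneg _ _ (by positivity), mul_zero, mul_sub]
    congr 1
    rw [sub_eq_add_neg]
    congr 1
    · rw [Finset.mul_sum]
      refine Finset.sum_congr rfl fun j _ => ?_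
      rw [Finset.mul_sum]
      refine Finset.sum_congr rfl fun c _ => ?_
      unfold hcf
      rw [hn']
      by_cases hs : sel.testBit (5 * (j : ℕ) + (c : ℕ)) = true
      · rw [if_pos hs, if_pos hs]
        by_cases hj : (j : ℕ) = u
        · rw [if_pos ((hju j).2 hj), if_pos hj]
          push_cast
          ring
        · rw [if_neg (fun h => hj ((hju j).1 h)), if_neg hj]
          push_cast
          field_simp
      · rw [if_neg hs, if_neg hs]
        push_cast
        ring
    · push_cast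
      ring

private theorem fs_E (r p : Fin 3) (c : Fin 5) (w : Fin 3 → Fin 5 → ℝ) (hrp : r ≠ p) :
    ((forms (.E r p c)).1 : ℝ) * costT (toTl (.E r p c)) w =
      ev (forms (.E r p c)).2.1 (xs w) +
      ((forms (.E r p c)).2.2.map fun p => (p.1 : ℝ) * max 0 (ev p.2 (xs w))).sum := by
  simp only [forms, toTl, costT, eCost, List.map_cons, List.map_nil, List.sum_cons, List.sum_nil,
    ev_vmk, add_zero, Nat.cast_one, one_mul, Int.cast_zero, Nat.cast_ofNat, fofn]
  rw [max_e]
  have hA : ∀ s : ℤ, (∑ j : Fin 3, ∑ c' : Fin 5,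
      ((if (j : ℕ) = (p : ℕ) ∨ ((j : ℕ) = (r : ℕ) ∧ (c' : ℕ) ≠ (c : ℕ)) then 1
        else if (j : ℕ) = (r : ℕ) then 0 else s : ℤ) : ℝ) * w j c') =
      ((∑ c', if c' = c then 0 else w r c') + ∑ c', w p c') +
        s * ∑ j, if j = r ∨ j = p then 0 else ∑ c', w j c' := by
    intro s
    have hterm : ∀ j : Fin 3, (∑ c' : Fin 5,
      ((if (j : ℕ) = (p : ℕ) ∨ ((j : ℕ) = (r : ℕ) ∧ (c' : ℕ) ≠ (c : ℕ)) then 1
        else if (j : ℕ) = (r : ℕ) then 0 else s : ℤ) : ℝ) * w j c') =
        (if j = r then (∑ c', if c' = c then 0 else w r c') else 0) +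
        (if j = p then ∑ c', w p c' else 0) +
        s * (if j = r ∨ j = p then 0 else ∑ c', w j c') := by
      intro j
      by_cases hjp : j = p
      · subst hjp
        have h1 : ¬ (j = r) := fun h => hrp h.symm
        simp [h1]
      · by_cases hjr : j = r
        · subst hjr
          have hjp' : ¬ ((j : ℕ) = (p : ℕ)) := fun h => hjp (Fin.ext h)
          simp only [hjp, hjp', if_true, if_false, true_or, false_or, true_and, mul_zero,
            add_zero]
          refine Finset.sum_congr rfl fun c' _ => ?_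
          by_cases hc : c' = c
          · subst hc
            simp [hjp']
          · have hc' : ¬ ((c' : ℕ) = (c : ℕ)) := fun h => hc (Fin.ext h)
            simp [hc, hc']
        · have hjp' : ¬ ((j : ℕ) = (p : ℕ)) := fun h => hjp (Fin.ext h)
          have hjr' : ¬ ((j : ℕ) = (r : ℕ)) := fun h => hjr (Fin.ext h)
          simp only [hjp, hjr, hjp', hjr', if_false, or_self, false_and, zero_add,
            Finset.mul_sum]
    rw [Finset.sum_congr rfl fun j _ => hterm j, Finset.sum_add_distrib, Finset.sum_add_distrib,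
      Finset.sum_ite_eq' Finset.univ r, Finset.sum_ite_eq' Finset.univ p, ← Finset.mul_sum]
    simp
  have h1 := hA 2
  have h2 := hA (-2)
  push_cast at h1 h2 ⊢
  rw [h1, h2]
  congr 2
  ring

private theorem fs_M (q : Fin 3) (T : ℕ) (w : Fin 3 → Fin 5 → ℝ) :
    ((forms (.M q T)).1 : ℝ) * costT (toTl (.M q T)) w =
      ev (forms (.M q T)).2.1 (xs w) +
      ((forms (.M q T)).2.2.map fun p => (p.1 : ℝ) * max 0 (ev p.2 (xs w))).sum := by
  simp only [forms, toTl, costT, mCost, List.map_cons, List.map_nil, List.sum_cons, List.sum_nil,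
    ev_vmk, add_zero, Nat.cast_one, one_mul, Int.cast_zero, Nat.cast_ofNat, fofn]
  rw [max_m]
  have hA : ∀ (s : ℕ → ℤ), (∑ j : Fin 3, ∑ c' : Fin 5,
      ((if (j : ℕ) = (q : ℕ) then (if T.testBit (c' : ℕ) = true then s (c' : ℕ) else 0) else 1 :
        ℤ) : ℝ) * w j c') =
      (∑ c' : Fin 5, if T.testBit (c' : ℕ) = true then (s (c' : ℕ) : ℝ) * w q c' else 0) +
        tauW q w := by
    intro s
    have hterm : ∀ j : Fin 3, (∑ c' : Fin 5,
      ((if (j : ℕ) = (q : ℕ) then (if T.testBit (c' : ℕ) = true then s (c' : ℕ) else 0) else 1 :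
        ℤ) : ℝ) * w j c') =
        (if j = q then (∑ c' : Fin 5, if T.testBit (c' : ℕ) = true then
          (s (c' : ℕ) : ℝ) * w q c' else 0) else 0) +
        (if j = q then 0 else ∑ c', w j c') := by
      intro j
      by_cases hj : j = q
      · subst hj
        rw [if_pos rfl, if_pos rfl, add_zero]
        refine Finset.sum_congr rfl fun c' _ => ?_
        rw [if_pos rfl]
        split_ifs <;> simp
      · have hj' : ¬ ((j : ℕ) = (q : ℕ)) := fun h => hj (Fin.ext h)
        simp [hj, hj']
    rw [Finset.sum_congr rfl fun j _ => hterm j, Finset.sum_add_distrib,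
      Finset.sum_ite_eq' Finset.univ q]
    simp [tauW]
  have h1 := hA (fun _ => 2)
  have h2 := hA (fun c' => -((c' : ℤ) + 1))
  rw [h1, h2]
  have h3 : (∑ c' : Fin 5, if T.testBit (c' : ℕ) = true then (((2 : ℤ)) : ℝ) * w q c' else 0) =
      2 * rhoW q (fun c => T.testBit (c : ℕ)) w := by
    rw [rhoW, Finset.mul_sum]
    refine Finset.sum_congr rfl fun c' _ => ?_
    split_ifs <;> push_cast <;> ring
  have h4 : (∑ c' : Fin 5, if T.testBit (c' : ℕ) = true then
      ((-((((c' : ℕ) : ℤ)) + 1) : ℤ) : ℝ) * w q c' else 0) =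
      - muW q (fun c => T.testBit (c : ℕ)) w := by
    rw [muW, ← Finset.sum_neg_distrib]
    refine Finset.sum_congr rfl fun c' _ => ?_
    split_ifs <;> push_cast <;> ring
  rw [h3, h4]
  congr 2
  ring

/-- the value of the forms in `rms` -/
private theorem ev_rms (q j : Fin 3) (hjq : j ≠ q) (a : ℕ) (w : Fin 3 → Fin 5 → ℝ) :
    ((rms q a j).map fun p => (p.1 : ℝ) * max 0 (ev p.2 (xs w))).sum =
      8 * rSide (a.testBit (j : ℕ)) (w j 0) (w j 1) (w j 2) (muW q T2 w) -
        4 * (w j 0 + w j 1 + w j 2) := by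
  have hA : ∀ (g : ℕ → ℤ) , (∑ i : Fin 3, ∑ c' : Fin 5,
      (((if (i : ℕ) = (q : ℕ) ∧ 1 ≤ (c' : ℕ) then -(((c' : ℕ) : ℤ) + 1) else 0) +
        (if (i : ℕ) = (j : ℕ) then g (c' : ℕ) else 0) : ℤ) : ℝ) * w i c') =
      (∑ c' : Fin 5, (g (c' : ℕ) : ℝ) * w j c') - muW q T2 w := by
    intro g
    have hterm : ∀ i : Fin 3, (∑ c' : Fin 5,
      (((if (i : ℕ) = (q : ℕ) ∧ 1 ≤ (c' : ℕ) then -(((c' : ℕ) : ℤ) + 1) else 0) +
        (if (i : ℕ) = (j : ℕ) then g (c' : ℕ) else 0) : ℤ) : ℝ) * w i c') =
        (if i = j then (∑ c' : Fin 5, (g (c' : ℕ) : ℝ) * w j c') else 0) -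
        (if i = q then muW q T2 w else 0) := by
      intro i
      by_cases hi : i = j
      · subst hi
        have hiq : ¬ ((i : ℕ) = (q : ℕ)) := fun h => hjq (Fin.ext h)
        simp [hjq, hiq]
      · have hi' : ¬ ((i : ℕ) = (j : ℕ)) := fun h => hi (Fin.ext h)
        by_cases hq : i = q
        · subst hq
          rw [if_neg hi, if_pos rfl, zero_sub, muW, ← Finset.sum_neg_distrib]
          refine Finset.sum_congr rfl fun c' _ => ?_
          by_cases hc : 1 ≤ (c' : ℕ)
          · simp only [hi', hc, T2, true_and, if_true, if_false, decide_true]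
            push_cast
            ring
          · simp only [hi', hc, T2, true_and, if_false, decide_false, Bool.false_eq_true]
            push_cast
            ring
        · have hq' : ¬ ((i : ℕ) = (q : ℕ)) := fun h => hq (Fin.ext h)
          simp [hi, hi', hq, hq']
    rw [Finset.sum_congr rfl fun j _ => hterm j, Finset.sum_sub_distrib,
      Finset.sum_ite_eq' Finset.univ j, Finset.sum_ite_eq' Finset.univ q]
    simp
  unfold rms
  by_cases hb : a.testBit (j : ℕ) = true
  · rw [hb]
    simp only [if_true, List.map_cons, List.map_nil, List.sum_cons, List.sum_nil, ev_vmk,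
      Int.cast_zero, add_zero, ite_and]
    have h1 := hA (fun c => if c = 0 then 2 else 0)
    have h2 := hA (fun c => if c = 1 then 4 else 0)
    have h3 := hA (fun c => if c = 2 then 4 else 0)
    simp only [ite_and] at h1 h2 h3
    rw [h1, h2, h3, rside_t]
    simp [Fin.sum_univ_succ]
    ring
  · rw [Bool.not_eq_true] at hb
    rw [hb]
    simp only [Bool.false_eq_true, if_false, List.map_cons, List.map_nil, List.sum_cons,
      List.sum_nil, ev_vmk, Int.cast_zero, add_zero, ite_and]
    have h1 := hA (fun c => if c = 2 then 8 else 0)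
    have h2 := hA (fun c => if c = 0 ∨ c = 2 then 2 else 0)
    have h3 := hA (fun c => if c = 1 then 2 else 0)
    simp only [ite_and] at h1 h2 h3
    rw [h1, h2, h3, rside_f]
    simp [Fin.sum_univ_succ]
    ring

private theorem fs_R (q : Fin 3) (a : ℕ) (w : Fin 3 → Fin 5 → ℝ) :
    ((forms (.R q a)).1 : ℝ) * costT (toTl (.R q a)) w =
      ev (forms (.R q a)).2.1 (xs w) +
      ((forms (.R q a)).2.2.map fun p => (p.1 : ℝ) * max 0 (ev p.2 (xs w))).sum := by
  have hq1 : ((q + 1 : Fin 3) : ℕ) = ((q : ℕ) + 1) % 3 := by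
    fin_cases q <;> rfl
  have hq2 : ((q + 2 : Fin 3) : ℕ) = ((q : ℕ) + 2) % 3 := by
    fin_cases q <;> rfl
  simp only [forms, toTl, costT, rCost, List.map_append, List.sum_append, ← hq1, ← hq2, fofn]
  rw [ev_rms q (q + 1) (by fin_cases q <;> decide) a w,
    ev_rms q (q + 2) (by fin_cases q <;> decide) a w, ev_vmk]
  simp only [rhoW]
  generalize hR : (fun j : Fin 3 => rSide (a.testBit (j : ℕ)) (w j 0) (w j 1) (w j 2)
    (muW q T2 w)) = R
  have hR' : ∀ j : Fin 3, rSide (a.testBit (j : ℕ)) (w j 0) (w j 1) (w j 2)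
    (muW q T2 w) = R j := fun j => congrFun hR j
  simp only [hR']
  clear hR hR'
  fin_cases q
  · simp [Fin.sum_univ_succ, T2]
    ring
  · simp [Fin.sum_univ_succ, T2]
    ring
  · simp [Fin.sum_univ_succ, T2]
    ring

theorem form_sound (ct : CT) (w : Fin 3 → Fin 5 → ℝ) (h : okT ct = true) :
    ((forms ct).1 : ℝ) * costT (toTl ct) w = ev (forms ct).2.1 (xs w) +
      ((forms ct).2.2.map fun p => (p.1 : ℝ) * max 0 (ev p.2 (xs w))).sum := by
  cases ct with
  | H n u sel =>
    simp only [okT, Bool.and_eq_true, decide_eq_true_eq] at h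
    exact fs_H n u sel w h.1.1.1.1 h.1.1.1.2
  | E r p c =>
    simp only [okT, Bool.and_eq_true, decide_eq_true_eq] at h
    obtain ⟨⟨⟨⟨hr, hp⟩, hrp⟩, hc1⟩, hc3⟩ := h
    exact fs_E ⟨r, hr⟩ ⟨p, hp⟩ ⟨c, by omega⟩ w (fun h => hrp (congrArg Fin.val h))
  | M q T =>
    simp only [okT, Bool.and_eq_true, decide_eq_true_eq] at h
    exact fs_M ⟨q, h.1⟩ T w
  | R q a =>
    simp only [okT, Bool.and_eq_true, decide_eq_true_eq] at h
    exact fs_R ⟨q, h.1⟩ a w

theorem ok_sound (ct : CT) (h : okT ct = true) : okTl (toTl ct) := by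
  cases ct with
  | H n u sel =>
    simp only [okT, Bool.and_eq_true, decide_eq_true_eq, List.all_eq_true, List.mem_range,
      Bool.or_eq_true, Bool.not_eq_true', beq_iff_eq] at h
    obtain ⟨⟨⟨⟨hn, hu⟩, hs⟩, h1⟩, h2⟩ := h
    have hn' : ((Fin.ofNat 4 n : Fin 4) : ℕ) = n := by simp [Fin.ofNat, Nat.mod_eq_of_lt hn]
    have hu' : ((Fin.ofNat 3 u : Fin 3) : ℕ) = u := by simp [Fin.ofNat, Nat.mod_eq_of_lt hu]
    refine ⟨?_, ?_⟩
    · intro j hj c hsel
      have := h1 (j : ℕ) j.2 (c : ℕ) c.2
      rcases this with (h | h) | h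
      · simp only at hsel
        rw [h] at hsel
        exact absurd hsel (by simp)
      · exact absurd (Fin.ext (by rw [hu']; exact h)) hj
      · rw [hn']
        exact h
    · rcases h2 with h | h
      · left
        simp only [hu']
        exact h
      · right
        refine ⟨fun c => ?_, fun j hj c => ?_⟩
        · simp only [hu']
          have := h u hu (c : ℕ) c.2
          simpa using this
        · have := h (j : ℕ) j.2 (c : ℕ) c.2
          have hj' : ¬ ((j : ℕ) = u) := fun h' => hj (Fin.ext (by rw [hu']; exact h'))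
          simpa [hj'] using this
  | E r p c =>
    simp only [okT, Bool.and_eq_true, decide_eq_true_eq] at h
    obtain ⟨⟨⟨⟨hr, hp⟩, hrp⟩, hc1⟩, hc3⟩ := h
    have hr' : ((Fin.ofNat 3 r : Fin 3) : ℕ) = r := by simp [Fin.ofNat, Nat.mod_eq_of_lt hr]
    have hp' : ((Fin.ofNat 3 p : Fin 3) : ℕ) = p := by simp [Fin.ofNat, Nat.mod_eq_of_lt hp]
    have hc' : ((Fin.ofNat 5 c : Fin 5) : ℕ) = c := by
      simp [Fin.ofNat, Nat.mod_eq_of_lt (show c < 5 by omega)]
    refine ⟨fun h => hrp ?_, ?_, ?_⟩
    · rw [← hr', ← hp', h]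
    · rw [hc']; exact hc1
    · rw [hc']; exact hc3
  | M q T => exact trivial
  | R q a => exact trivial

end AbcEM
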