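import Pool.Agent.Work.MP_a793bb_nt.EM.TDefs
import Pool.Agent.Work.MP_a793bb_nt.EM.FormS

/-!
# Soundness of the checker

Proof. Induction on the certificate, for all lists of facts. `ev` is additive: `ev (vadd a b) x = ev a x + ev b x` if `a.length = b.length = x.length = 16` and
`ev (vsmul k a) x = k * ev a x`; lengths are preserved (`xs w` has length 16, `vmk` has length 16).
`leaf ms`: `ev (comb ms facts) x = ∑ m_i ev f_i x` (induction on `ms`, `facts`), all terms are `≥ 0`, and by `anyStrict` one of them is `> 0`, so it is `> 0`; but all the entries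
of `comb ms facts` are `≤ 0` and all entries of `xs w` are `≥ 0` (`hw`; the last one is `1`), so `ev (comb ms facts) x ≤ 0`. Contradiction.
`split L`: `ev L x ≤ 0` or `0 ≤ ev L x`; the new fact is true, use the induction hypothesis.
`use T sg t`: the new fact has to be checked: `0 < ev (bvec kd kv T sg) x`. By `signsOk` for every `(k, L)` in `(forms T).2.2` with the sign `b` there are a true fact `f` and
`x ≥ 1, y ≥ 1` with `x f = y L` (`b = true`) or `x f = - y L`, so `0 ≤ ev L` resp. `ev L ≤ 0` (a strict fact implies the weak one), hence `max 0 (ev L) = ev L`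
resp. `0`; so by `form_sound`, `ev (withSigns lin ms sg) = den * cost` and `ev bvec = kd * den * cost - den * ev kv = den (kd * cost - ev kv) > 0` by
`hcost`, `forms_pos`.
-/

set_option autoImplicit false

namespace AbcEM

open Finset Pool.Agent.Work.MP_a793bb_nt Pool.Agent.Work.MP_a793bb_nt.BPlus NumberField
  IsDedekindDomain Height

/-- the fact holds and has the right length -/
def FOk (x : List ℝ) (f : Fact) : Prop :=
  f.2.length = 16 ∧ 0 ≤ ev f.2 x ∧ (f.1 = true → 0 < ev f.2 x)

private theorem ev_nil (x : List ℝ) : ev [] x = 0 := by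
  simp [ev]

private theorem ev_nil' (v : Vc) : ev v [] = 0 := by
  simp [ev]

private theorem ev_cons (a : ℤ) (v : Vc) (t : ℝ) (x : List ℝ) :
    ev (a :: v) (t :: x) = a * t + ev v x := by
  simp [ev]

private theorem ev_vadd : ∀ (a b : Vc) (x : List ℝ), a.length = b.length →
    ev (vadd a b) x = ev a x + ev b x
  | [], [], x, _ => by simp [vadd, ev_nil]
  | a :: v, b :: w, [], _ => by simp [ev_nil']
  | a :: v, b :: w, t :: x, h => by
    have h1 := ev_vadd v w x (by simpa using h)
    have h2 : vadd (a :: v) (b :: w) = (a + b) :: vadd v w := rfl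
    rw [h2, ev_cons, ev_cons, ev_cons, h1]
    push_cast
    ring
  | [], _ :: _, _, h => by simp at h
  | _ :: _, [], _, h => by simp at h

private theorem ev_vsmul (k : ℤ) : ∀ (a : Vc) (x : List ℝ), ev (vsmul k a) x = k * ev a x
  | [], x => by simp [vsmul, ev_nil]
  | a :: v, [] => by simp [ev_nil']
  | a :: v, t :: x => by
    have h1 := ev_vsmul k v x
    have h2 : vsmul k (a :: v) = (k * a) :: vsmul k v := rfl
    rw [h2, ev_cons, ev_cons, h1]
    push_cast
    ring

private theorem len_vsmul (k : ℤ) (a : Vc) : (vsmul k a).length = a.length := by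
  simp [vsmul]

private theorem len_vadd (a b : Vc) (n : ℕ) (ha : a.length = n) (hb : b.length = n) :
    (vadd a b).length = n := by
  simp [vadd, ha, hb]

private theorem ev_zero (x : List ℝ) : ev zeroV x = 0 := by
  have h : zeroV = vsmul 0 zeroV := by
    simp [zeroV, vmk, vsmul]
  rw [h, ev_vsmul]
  simp

private theorem comb_ok (x : List ℝ) : ∀ (ms : List ℕ) (facts : List Fact),
    (∀ f ∈ facts, FOk x f) → (comb ms facts).length = 16 ∧ 0 ≤ ev (comb ms facts) x ∧
      (anyStrict ms facts = true → 0 < ev (comb ms facts) x)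
  | [], facts, _ => by
    have h1 : comb [] facts = zeroV := by simp [comb]
    have h2 : anyStrict [] facts = false := by simp [anyStrict]
    rw [h1, h2, ev_zero]
    exact ⟨rfl, le_refl _, fun h => absurd h (by simp)⟩
  | m :: ms, [], _ => by
    have h1 : comb (m :: ms) [] = zeroV := by simp [comb]
    have h2 : anyStrict (m :: ms) [] = false := by simp [anyStrict]
    rw [h1, h2, ev_zero]
    exact ⟨rfl, le_refl _, fun h => absurd h (by simp)⟩
  | m :: ms, f :: fs, h => by
    obtain ⟨h1, h2, h3⟩ := comb_ok x ms fs fun g hg => h g (List.mem_cons_of_mem _ hg)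
    obtain ⟨f1, f2, f3⟩ := h f List.mem_cons_self
    have ha : anyStrict (m :: ms) (f :: fs) = ((m != 0 && f.1) || anyStrict ms fs) := rfl
    have hc : comb (m :: ms) (f :: fs) =
        if m = 0 then comb ms fs else vadd (vsmul m f.2) (comb ms fs) := rfl
    rw [ha, hc]
    by_cases hm : m = 0
    · rw [if_pos hm]
      refine ⟨h1, h2, fun h4 => h3 ?_⟩
      simpa [hm] using h4
    · rw [if_neg hm]
      have hl : (vsmul (m : ℤ) f.2).length = (comb ms fs).length := by
        rw [len_vsmul, f1, h1]
      have hm0 : (0 : ℝ) < m := by exact_mod_cast Nat.pos_of_ne_zero hm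
      have e : ev (vadd (vsmul (m : ℤ) f.2) (comb ms fs)) x =
          m * ev f.2 x + ev (comb ms fs) x := by
        rw [ev_vadd _ _ _ hl, ev_vsmul]
        push_cast
        ring
      refine ⟨len_vadd _ _ 16 (by rw [len_vsmul, f1]) h1, ?_, ?_⟩
      · rw [e]
        have := mul_nonneg hm0.le f2
        linarith
      · intro h4
        rw [e]
        rw [Bool.or_eq_true, Bool.and_eq_true] at h4
        rcases h4 with ⟨-, h4⟩ | h4
        · have := mul_pos hm0 (f3 h4)
          linarith
        · have := mul_nonneg hm0.le f2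
          have := h3 h4
          linarith

private theorem ev_nonpos : ∀ (v : Vc) (x : List ℝ), (∀ z ∈ v, z ≤ 0) → (∀ t ∈ x, 0 ≤ t) →
    ev v x ≤ 0
  | [], x, _, _ => by rw [ev_nil]
  | a :: v, [], _, _ => by rw [ev_nil']
  | a :: v, t :: x, h1, h2 => by
    rw [ev_cons]
    have h3 := ev_nonpos v x (fun z hz => h1 z (List.mem_cons_of_mem _ hz))
      (fun z hz => h2 z (List.mem_cons_of_mem _ hz))
    have h4 : (a : ℝ) ≤ 0 := by exact_mod_cast h1 a List.mem_cons_self
    have h5 := mul_nonpos_of_nonpos_of_nonneg h4 (h2 t List.mem_cons_self)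
    linarith

private theorem xs_nonneg {w : Fin 3 → Fin 5 → ℝ} (hw : ∀ j c, 0 ≤ w j c) :
    ∀ t ∈ xs w, 0 ≤ t := by
  intro t ht
  simp only [xs, List.mem_cons, List.not_mem_nil, or_false] at ht
  rcases ht with h | h | h | h | h | h | h | h | h | h | h | h | h | h | h | h <;>
    first
      | (rw [h]; exact hw _ _)
      | (rw [h]; exact zero_le_one)

private theorem signs_ok (x : List ℝ) (facts : List Fact) (hf : ∀ f ∈ facts, FOk x f) (lin : Vc)
    (hl : lin.length = 16) : ∀ (ms : List (ℕ × Vc)) (sg : List (Bool × ℕ × ℕ × ℕ)),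
    (∀ p ∈ ms, p.2.length = 16) → signsOk facts ms sg = true →
      (withSigns lin ms sg).length = 16 ∧
      ev (withSigns lin ms sg) x =
        ev lin x + (ms.map fun p => (p.1 : ℝ) * max 0 (ev p.2 x)).sum
  | [], [], _, _ => by
    simp [withSigns, hl]
  | [], _ :: _, _, h => by simp [signsOk] at h
  | _ :: _, [], _, h => by simp [signsOk] at h
  | (k, L) :: ms, (b, i, n, m) :: sg, hlen, h => by
    rw [signsOk, Bool.and_eq_true] at h
    obtain ⟨h1, h2⟩ := h
    obtain ⟨i1, i2⟩ := signs_ok x facts hf lin hl ms sg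
      (fun p hp => hlen p (List.mem_cons_of_mem _ hp)) h2
    have hL : L.length = 16 := hlen (k, L) List.mem_cons_self
    rcases hfi : facts[i]? with _ | f
    · rw [hfi] at h1
      simp at h1
    · rw [hfi] at h1
      have hff : f ∈ facts := List.mem_of_getElem? hfi
      obtain ⟨-, f2, -⟩ := hf f hff
      simp only [Bool.and_eq_true, bne_iff_ne, ne_eq, decide_eq_true_eq] at h1
      obtain ⟨⟨hn, hm⟩, heq⟩ := h1
      have hn0 : (0 : ℝ) < n := by exact_mod_cast Nat.pos_of_ne_zero hn
      have hm0 : (0 : ℝ) < m := by exact_mod_cast Nat.pos_of_ne_zero hm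
      have e1 := congrArg (fun v => ev v x) heq
      simp only [ev_vsmul] at e1
      rw [List.map_cons, List.sum_cons]
      have e2 : withSigns lin ((k, L) :: ms) ((b, i, n, m) :: sg) =
          if b then vadd (vsmul k L) (withSigns lin ms sg) else withSigns lin ms sg := rfl
      rw [e2]
      cases b with
      | true =>
        simp only [if_true] at e1 ⊢
        push_cast at e1
        have h3 : 0 ≤ ev L x := by
          have h4 : 0 ≤ (m : ℝ) * ev L x := by
            rw [← e1]
            exact mul_nonneg hn0.le f2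
          exact nonneg_of_mul_nonneg_right h4 hm0
        refine ⟨len_vadd _ _ 16 (by rw [len_vsmul, hL]) i1, ?_⟩
        rw [ev_vadd _ _ _ (by rw [len_vsmul, hL, i1]), ev_vsmul, i2, max_eq_right h3]
        push_cast
        ring
      | false =>
        simp only [Bool.false_eq_true, if_false] at e1 ⊢
        push_cast at e1
        have h3 : ev L x ≤ 0 := by
          have h4 : 0 ≤ -((m : ℝ) * ev L x) := by
            rw [show -((m : ℝ) * ev L x) = -(m : ℝ) * ev L x by ring, ← e1]
            exact mul_nonneg hn0.le f2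
          by_contra h5
          rw [not_le] at h5
          have := mul_pos hm0 h5
          linarith
        refine ⟨i1, ?_⟩
        rw [i2, max_eq_left h3]
        ring

theorem chk_sound (kd : ℕ) (kv : Vc) (w : Fin 3 → Fin 5 → ℝ) (hkv : kv.length = 16)
    (hkd : 0 < kd) (hw : ∀ j c, 0 ≤ w j c)
    (hcost : ∀ ct : CT, okT ct = true → ev kv (xs w) < kd * costT (toTl ct) w) :
    ∀ (t : Cert) (facts : List Fact), (∀ f ∈ facts, FOk (xs w) f) →
      chk kd kv t facts = true → False := by
  intro t
  induction t with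
  | leaf ms =>
    intro facts hf h
    rw [chk, Bool.and_eq_true] at h
    obtain ⟨h1, h2⟩ := h
    obtain ⟨-, -, h3⟩ := comb_ok (xs w) ms facts hf
    have h4 := ev_nonpos (comb ms facts) (xs w) (fun z hz => by
      rw [List.all_eq_true] at h2
      simpa using h2 z hz) (xs_nonneg hw)
    exact absurd (h3 h1) (not_lt.mpr h4)
  | split L t₁ t₂ ih1 ih2 =>
    intro facts hf h
    rw [chk, Bool.and_eq_true, Bool.and_eq_true] at h
    obtain ⟨⟨hL, h1⟩, h2⟩ := h
    have hL' : L.length = 16 := by simpa using hL
    rcases le_total (ev L (xs w)) 0 with h3 | h3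
    · refine ih1 _ (fun f hfm => ?_) h1
      rcases List.mem_cons.mp hfm with rfl | hfm
      · refine ⟨by rw [len_vsmul, hL'], ?_, fun h => absurd h (by simp)⟩
        show 0 ≤ ev (vsmul (-1) L) (xs w)
        rw [ev_vsmul]
        push_cast
        linarith
      · exact hf f hfm
    · refine ih2 _ (fun f hfm => ?_) h2
      rcases List.mem_cons.mp hfm with rfl | hfm
      · exact ⟨hL', h3, fun h => absurd h (by simp)⟩
      · exact hf f hfm
  | use T sg t ih =>
    intro facts hf h
    rw [chk, Bool.and_eq_true, Bool.and_eq_true] at h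
    obtain ⟨⟨hT, h1⟩, h2⟩ := h
    refine ih _ (fun f hfm => ?_) h2
    rcases List.mem_cons.mp hfm with rfl | hfm
    · obtain ⟨l1, l2⟩ := forms_len T
      obtain ⟨s1, s2⟩ := signs_ok (xs w) facts hf (forms T).2.1 l1 (forms T).2.2 sg l2 h1
      have h3 := form_sound T w hT
      rw [← s2] at h3
      have h4 := hcost T hT
      have h5 : (0 : ℝ) < (forms T).1 := by exact_mod_cast forms_pos T
      have h6 : ev (bvec kd kv T sg) (xs w) =
          (forms T).1 * (kd * costT (toTl T) w - ev kv (xs w)) := by
        rw [bvec, ev_vadd _ _ _ (by rw [len_vsmul, len_vsmul, s1, hkv]), ev_vsmul, ev_vsmul,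
          ← h3]
        push_cast
        ring
      have h7 : 0 < ev (bvec kd kv T sg) (xs w) := by
        rw [h6]
        exact mul_pos h5 (by linarith)
      refine ⟨?_, h7.le, fun _ => h7⟩
      exact len_vadd _ _ 16 (by rw [len_vsmul, s1]) (by rw [len_vsmul, hkv])
    · exact hf f hfm

end AbcEM
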