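import Pool.Agent.Work.MP_a793bb_nt.EM.TDefs

/-!
# The costs and the cells

Proof. Every class weight grows by at most `η`, `muW` does not decrease. `H`: `hcf ≤ 5`, so the cost grows by at most `15 η + 75 η` (as `cost_mono` in `Types.lean`). `E`: by at most `15 η`. `M`: `rhoW` by `5 η`, `tauW` by `10 η`. `R`: `rhoW` by `5 η`, `w j 3 + w j 4` by `2 η` for each of two sides, `rSide` by at most `3 η` for each of two sides in both patterns (check: pattern `true`
`max (2u) (4u - mu) / 4` grows by at most `η`, the others by at most `η` each; pattern `false`: `(4 + 4 + 4 + 4) η / 4 = 4 η`). All `≤ 200 η`.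
-/

set_option autoImplicit false

namespace AbcEM

open Finset Pool.Agent.Work.MP_a793bb_nt Pool.Agent.Work.MP_a793bb_nt.BPlus NumberField
  IsDedekindDomain Height

private theorem lip_s3 {F G : Fin 3 → ℝ} {a : ℝ} (h : ∀ j, F j ≤ G j + a) :
    ∑ j, F j ≤ (∑ j, G j) + 3 * a := by
  rw [Fin.sum_univ_three, Fin.sum_univ_three]
  linarith [h 0, h 1, h 2]

private theorem lip_s5 {F G : Fin 5 → ℝ} {a : ℝ} (h : ∀ j, F j ≤ G j + a) :
    ∑ j, F j ≤ (∑ j, G j) + 5 * a := by
  rw [Fin.sum_univ_five, Fin.sum_univ_five]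
  linarith [h 0, h 1, h 2, h 3, h 4]

private theorem lip_max {a b c d e : ℝ} (h1 : a ≤ c + e) (h2 : b ≤ d + e) :
    max a b ≤ max c d + e :=
  max_le (h1.trans (add_le_add_left (le_max_left _ _) e))
    (h2.trans (add_le_add_left (le_max_right _ _) e))

private theorem lip_hcf (n : Fin 4) (u j : Fin 3) (c : Fin 5) : 0 ≤ hcf n u j c ∧ hcf n u j c ≤ 5 := by
  have h1 : ((c : ℕ) : ℝ) ≤ 4 := by
    have h2 : (c : ℕ) ≤ 4 := by omega
    exact_mod_cast h2
  have h3 : (0 : ℝ) ≤ ((c : ℕ) : ℝ) := Nat.cast_nonneg _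
  have h4 : (0 : ℝ) ≤ ((n : ℕ) : ℝ) := Nat.cast_nonneg _
  unfold hcf
  split_ifs
  · exact ⟨by linarith, by linarith⟩
  · refine ⟨by positivity, ?_⟩
    rw [div_le_iff₀ (by linarith)]
    nlinarith

private theorem lip_rho (q : Fin 3) (T : Fin 5 → Bool) {w W : Fin 3 → Fin 5 → ℝ} {η : ℝ}
    (hη : 0 ≤ η) (h2 : ∀ j c, W j c ≤ w j c + η) : rhoW q T W ≤ rhoW q T w + 5 * η := by
  unfold rhoW
  refine lip_s5 fun c => ?_
  split_ifs
  · exact h2 q c
  · linarith

private theorem lip_tau (q : Fin 3) {w W : Fin 3 → Fin 5 → ℝ} {η : ℝ}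
    (hη : 0 ≤ η) (h2 : ∀ j c, W j c ≤ w j c + η) : tauW q W ≤ tauW q w + 3 * (5 * η) := by
  unfold tauW
  refine lip_s3 fun j => ?_
  split_ifs
  · linarith
  · exact lip_s5 fun c => h2 j c

private theorem lip_mu (q : Fin 3) (T : Fin 5 → Bool) {w W : Fin 3 → Fin 5 → ℝ}
    (h1 : ∀ j c, w j c ≤ W j c) : muW q T w ≤ muW q T W := by
  unfold muW
  refine Finset.sum_le_sum fun c _ => ?_
  split_ifs
  · exact mul_le_mul_of_nonneg_left (h1 q c) (by positivity)
  · exact le_rfl

private theorem lip_side (b : Bool) {u m v mu U M V MU η : ℝ} (hη : 0 ≤ η) (hu : U ≤ u + η)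
    (hm : M ≤ m + η) (hv : V ≤ v + η) (hmu : mu ≤ MU) :
    rSide b U M V MU ≤ rSide b u m v mu + 4 * η := by
  unfold rSide
  split_ifs
  · have e1 : max (2 * U) (4 * U - MU) ≤ max (2 * u) (4 * u - mu) + 4 * η :=
      lip_max (by linarith) (by linarith)
    have e2 : max (4 * M) (8 * M - MU) ≤ max (4 * m) (8 * m - mu) + 8 * η :=
      lip_max (by linarith) (by linarith)
    have e3 : max (4 * V) (8 * V - MU) ≤ max (4 * v) (8 * v - mu) + 8 * η :=
      lip_max (by linarith) (by linarith)
    linarith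
  · have e1 : max 0 (4 * V - MU / 2) ≤ max 0 (4 * v - mu / 2) + 4 * η :=
      lip_max (by linarith) (by linarith)
    have e2 : max 0 (2 * U + 2 * V - MU) ≤ max 0 (2 * u + 2 * v - mu) + 4 * η :=
      lip_max (by linarith) (by linarith)
    have e3 : max (2 * M) (4 * M - MU) ≤ max (2 * m) (4 * m - mu) + 4 * η :=
      lip_max (by linarith) (by linarith)
    linarith

theorem costT_lip (T : Tl) {w W : Fin 3 → Fin 5 → ℝ} {η : ℝ} (hη : 0 ≤ η)
    (h1 : ∀ j c, w j c ≤ W j c) (h2 : ∀ j c, W j c ≤ w j c + η) :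
    costT T W ≤ costT T w + 200 * η := by
  rcases T with ⟨n, u, sel⟩ | ⟨r, p, c⟩ | ⟨q, T⟩ | ⟨q, pat⟩
  · show hCost n u sel W ≤ hCost n u sel w + 200 * η
    unfold hCost
    have e1 : (∑ j, ∑ c, if sel j c = true then 0 else W j c) ≤
        (∑ j, ∑ c, if sel j c = true then 0 else w j c) + 3 * (5 * η) := by
      refine lip_s3 fun j => lip_s5 fun c => ?_
      split_ifs
      · linarith
      · exact h2 j c
    have e2 : (∑ j, ∑ c, if sel j c = true then hcf n u j c * W j c else 0) ≤
        (∑ j, ∑ c, if sel j c = true then hcf n u j c * w j c else 0) + 3 * (5 * (5 * η)) := by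
      refine lip_s3 fun j => lip_s5 fun c => ?_
      split_ifs
      · obtain ⟨h3, h4⟩ := lip_hcf n u j c
        have h5 := mul_le_mul_of_nonneg_left (h2 j c) h3
        have h6 := mul_le_mul_of_nonneg_right h4 hη
        linarith
      · linarith
    have e3 : max 0 ((∑ j, ∑ c, if sel j c = true then hcf n u j c * W j c else 0) - 1) ≤
        max 0 ((∑ j, ∑ c, if sel j c = true then hcf n u j c * w j c else 0) - 1) + 75 * η :=
      lip_max (by linarith) (by linarith)
    linarith
  · show eCost r p c W ≤ eCost r p c w + 200 * η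
    unfold eCost
    have e1 : (∑ c', if c' = c then 0 else W r c') ≤ (∑ c', if c' = c then 0 else w r c') + 5 * η := by
      refine lip_s5 fun c' => ?_
      split_ifs
      · linarith
      · exact h2 r c'
    have e2 : ∑ c', W p c' ≤ (∑ c', w p c') + 5 * η := lip_s5 fun c' => h2 p c'
    have e3 : (∑ j, if j = r ∨ j = p then 0 else ∑ c', W j c') ≤
        (∑ j, if j = r ∨ j = p then 0 else ∑ c', w j c') + 3 * (5 * η) := by
      refine lip_s3 fun j => ?_
      split_ifs
      · linarith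
      · exact lip_s5 fun c' => h2 j c'
    exact lip_max (by linarith) (by linarith)
  · show mCost q T W ≤ mCost q T w + 200 * η
    unfold mCost
    have e1 := lip_rho q T hη h2
    have e2 := lip_tau q hη h2
    have e3 := lip_mu q T h1
    have e4 : max (tauW q W / 2) (tauW q W - muW q T W / 2) ≤
        max (tauW q w / 2) (tauW q w - muW q T w / 2) + 15 * η :=
      lip_max (by linarith) (by linarith)
    linarith
  · show rCost q pat W ≤ rCost q pat w + 200 * η
    unfold rCost
    have e1 := lip_rho q T2 hη h2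
    have e3 := lip_mu q T2 h1
    have e4 : (∑ j, if j = q then 0 else
        (W j 3 + W j 4 + rSide (pat j) (W j 0) (W j 1) (W j 2) (muW q T2 W))) ≤
        (∑ j, if j = q then 0 else
        (w j 3 + w j 4 + rSide (pat j) (w j 0) (w j 1) (w j 2) (muW q T2 w))) + 3 * (6 * η) := by
      refine lip_s3 fun j => ?_
      split_ifs
      · linarith
      · have e5 := lip_side (pat j) hη (h2 j 0) (h2 j 1) (h2 j 2) e3
        linarith [h2 j 3, h2 j 4]
    linarith

end AbcEM
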