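import Pool.Agent.Work.MP_a793bb_nt.EM.TDefs
import Pool.Agent.Work.MP_a793bb_nt.OrdM.CauchyM
import Pool.Agent.Work.MP_a793bb_nt.OrdM.SidesM

/-!
# The bounds E

Proof. Let `q` be the third side, `Λ = log (2 Y)`, `A = (∑_{c' ≠ c} W r c' + ∑ W p c') Λ`, `γ = (∑_{c'} W q c') Λ`, `e = c + 1 ∈ {2, 3, 4}`. `cs_count` applied to `s` with `1 + s ~ side q`, `s ~ side r`, `s⁻¹ ~ side p`: for `t ∈ F`, `sOf q t` has `s ~ side (q + 1)`, `s⁻¹ ~ side (q + 2)` (`LR_a, LR_b, LR_c` in `SidesM.lean`, `rj`); if `r = q + 1`, `p = q + 2` take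
`s = sOf q t`, otherwise (`r = q + 2`, `p = q + 1`) take `s = (sOf q t)⁻¹`, for which `1 + s⁻¹ = (1 + sOf)/sOf` hence `LR (1 + s) univ`: the numerator of `1 + (sOf q t)⁻¹ = (1 + sOf q t) / sOf q t` is that of `1 + sOf q t` (the numerators and denominators are coprime: `kp_tri`), and `hs s⁻¹ = hs s` (permutation of the coordinates `(s : 1 : 1 + s)`,
`logHeight_perm`, projective invariance). `LR (side r) {e}ᶜ = ∑_{c' ≠ c} LRc` as the exponent `e ≤ 4` is alone in its class (`LR_eq_sum`, `cls`), `≤ A`-part; `hs (sOf u t) = hh t ≤ Λ` (`hs_sOf`). So `#F ^ 2 ≤ C exp (ε Λ) exp A (#F + exp (2 γ))`. If `#F ≤ exp (2γ)` then `#F ≤ √(2 C exp (ε Λ)) exp (A/2 + γ)`, otherwise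
`#F ≤ 2 C exp (ε Λ) exp A`. Both are `≤ 2 C exp (ε Λ) exp (eCost Λ)`, `exp (ε Λ) = (2 Y) ^ ε`. The map `t ↦ s` is injective (`sOf_injective`).
-/

set_option autoImplicit false

namespace AbcEM

open Finset Pool.Agent.Work.MP_a793bb_nt Pool.Agent.Work.MP_a793bb_nt.BPlus NumberField
  IsDedekindDomain Height

variable {K : Type*} [Field K] [NumberField K]

omit [NumberField K] in
private theorem te_ne_inv {s : K} (h0 : s ≠ 0) (h1 : 1 + s ≠ 0) : 1 + s⁻¹ ≠ 0 := by
  intro h
  apply h1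
  have h2 : s * (1 + s⁻¹) = 0 := by rw [h, mul_zero]
  rw [mul_add, mul_inv_cancel₀ h0, mul_one] at h2
  rw [add_comm]
  exact h2

private theorem te_same_inv {s : K} (h0 : s ≠ 0) (h1 : 1 + s ≠ 0) : SameNum (1 + s⁻¹) (1 + s) := by
  intro p
  have hn : -s ≠ 0 := neg_ne_zero.mpr h0
  have hn1 : -s ≠ 1 := by
    intro h
    apply h1
    rw [← h]
    ring
  have h2 := kp_tri p hn hn1
  rw [kp_neg, sub_neg_eq_add] at h2
  have h3 : 1 + s⁻¹ = (1 + s) / s := by
    field_simp
    ring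
  rw [h3, kp_div p h1 h0]
  omega

private theorem te_hs_inv {s : K} (h0 : s ≠ 0) : hs s⁻¹ = hs s := by
  unfold hs
  rw [← logHeight_smul_eq_logHeight (![s⁻¹, 1, 1 + s⁻¹] : Fin 3 → K) h0]
  have e : (s • (![s⁻¹, 1, 1 + s⁻¹] : Fin 3 → K)) = ![1, s, 1 + s] := by
    ext i
    fin_cases i
    · change s * s⁻¹ = 1
      field_simp
    · change s * 1 = s
      ring
    · change s * (1 + s⁻¹) = 1 + s
      field_simp
      ring
  rw [e]
  refine logHeight_perm (fun h => one_ne_zero (congrFun h 0)) (fun h => h0 (congrFun h 0))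
    (Equiv.swap 0 1) fun i => ?_
  left
  fin_cases i
  · change (1 : K) = (![s, 1, 1 + s] : Fin 3 → K) (Equiv.swap (0 : Fin 3) 1 0)
    rw [Equiv.swap_apply_left]
    rfl
  · change s = (![s, 1, 1 + s] : Fin 3 → K) (Equiv.swap (0 : Fin 3) 1 1)
    rw [Equiv.swap_apply_right]
    rfl
  · change 1 + s = (![s, 1, 1 + s] : Fin 3 → K) (Equiv.swap (0 : Fin 3) 1 2)
    rw [Equiv.swap_apply_of_ne_of_ne (by decide) (by decide)]
    rfl

private theorem te_univ : (Set.univ : Set ℕ) = Eset (fun _ => true) := by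
  ext e
  simp [Eset]

private theorem te_LRuniv {y : K} (hy : y ≠ 0) : LR y Set.univ = ∑ c : Fin 5, LRc y c := by
  rw [te_univ, LR_Eset hy]
  simp

private theorem te_Eset (c : Fin 5) (h1 : 1 ≤ (c : ℕ)) (h3 : (c : ℕ) ≤ 3) :
    Eset (fun c' => decide (c' = c)) = {(c : ℕ) + 1} := by
  ext e
  simp only [Eset, Set.mem_ofPred_eq, decide_eq_true_eq, Set.mem_singleton_iff, cls, Fin.ext_iff]
  omega

private theorem te_LRcompl {y : K} (hy : y ≠ 0) (c : Fin 5) (h1 : 1 ≤ (c : ℕ))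
    (h3 : (c : ℕ) ≤ 3) :
    LR y {(c : ℕ) + 1}ᶜ = ∑ c' : Fin 5, if c' = c then 0 else LRc y c' := by
  rw [← te_Eset c h1 h3, LR_Eset_compl hy]
  refine Finset.sum_congr rfl fun c' _ => ?_
  by_cases h : c' = c <;> simp [h]

/-- the parameter: numerator `side r`, denominator `side p`, third side `q` -/
private theorem te_par (r p : Fin 3) (hrp : r ≠ p) : ∃ (q : Fin 3) (g : K → K),
    (∀ j : Fin 3, (j = r ∨ j = p) ↔ j ≠ q) ∧
    (∀ t t' : K, t ≠ 1 → t' ≠ 1 → g t = g t' → t = t') ∧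
    ∀ t : K, t ≠ 0 → t ≠ 1 → g t ≠ 0 ∧ 1 + g t ≠ 0 ∧ hs (g t) = hh t ∧
      (∀ E, LR (g t) E = LR (side r t) E) ∧ (∀ E, LR (g t)⁻¹ E = LR (side p t) E) ∧
      (∀ E, LR (1 + g t) E = LR (side q t) E) := by
  have hcase : p = r + 1 ∨ p = r + 2 := by
    revert hrp
    revert r p
    decide
  rcases hcase with rfl | rfl
  · refine ⟨r + 2, sOf (r + 2), ?_, fun t t' h1 h1' h => sOf_injective _ h1 h1' h, ?_⟩
    · revert r
      decide
    · intro t h0 h1
      have e1 : r + 2 + 1 = r := by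
        clear hrp
        revert r
        decide
      have e2 : r + 2 + 2 = r + 1 := by
        clear hrp e1
        revert r
        decide
      refine ⟨sOf_ne_zero h0 h1 _, one_add_sOf_ne_zero h0 h1 _, hs_sOf h0 h1 _, fun E => ?_,
        fun E => ?_, fun E => ?_⟩
      · rw [(sameNum_a h0 h1 (r + 2)).LR_eq E, e1]
      · rw [(sameNum_b h0 h1 (r + 2)).LR_eq E, e2]
      · rw [(sameNum_c h0 h1 (r + 2)).LR_eq E]
  · refine ⟨r + 1, fun t => (sOf (r + 1) t)⁻¹, ?_,
      fun t t' h1 h1' h => sOf_injective (r + 1) h1 h1' (inv_injective h), ?_⟩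
    · revert r
      decide
    · intro t h0 h1
      have e1 : r + 1 + 2 = r := by
        clear hrp
        revert r
        decide
      have e2 : r + 1 + 1 = r + 2 := by
        clear hrp e1
        revert r
        decide
      have n0 := sOf_ne_zero h0 h1 (r + 1)
      have n1 := one_add_sOf_ne_zero h0 h1 (r + 1)
      refine ⟨inv_ne_zero n0, te_ne_inv n0 n1, ?_, fun E => ?_, fun E => ?_, fun E => ?_⟩
      · rw [te_hs_inv n0, hs_sOf h0 h1]
      · rw [(sameNum_b h0 h1 (r + 1)).LR_eq E, e1]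
      · rw [inv_inv, (sameNum_a h0 h1 (r + 1)).LR_eq E, e2]
      · rw [(te_same_inv n0 n1).LR_eq E, (sameNum_c h0 h1 (r + 1)).LR_eq E]

/-- solving the quadratic inequality -/
private theorem te_quad {x D A G : ℝ} (hx : 0 ≤ x) (hD : 1 ≤ D)
    (h : x ^ 2 ≤ D * Real.exp A * (x + Real.exp (2 * G))) :
    x ≤ 2 * D * Real.exp (max A (A / 2 + G)) := by
  have hA := Real.exp_pos A
  rcases le_or_gt x (Real.exp (2 * G)) with h1 | h1
  · have h2 : x ^ 2 ≤ 2 * D * Real.exp (2 * (A / 2 + G)) := by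
      have h3 : Real.exp (2 * (A / 2 + G)) = Real.exp A * Real.exp (2 * G) := by
        rw [← Real.exp_add]
        congr 1
        ring
      rw [h3]
      have h4 : D * Real.exp A * (x + Real.exp (2 * G)) ≤
          D * Real.exp A * (Real.exp (2 * G) + Real.exp (2 * G)) := by
        refine mul_le_mul_of_nonneg_left (by linarith) (by positivity)
      linarith
    have h3 : x ≤ 2 * D * Real.exp (A / 2 + G) := by
      have h4 : Real.exp (2 * (A / 2 + G)) = Real.exp (A / 2 + G) ^ 2 := by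
        rw [← Real.exp_nat_mul]
        push_cast
        rfl
      rw [h4] at h2
      refine abs_le_of_sq_le_sq' ?_ (by positivity) |>.2
      calc x ^ 2 ≤ 2 * D * Real.exp (A / 2 + G) ^ 2 := h2
        _ ≤ (2 * D) ^ 2 * Real.exp (A / 2 + G) ^ 2 := by
            refine mul_le_mul_of_nonneg_right ?_ (by positivity)
            nlinarith
        _ = (2 * D * Real.exp (A / 2 + G)) ^ 2 := by ring
    refine h3.trans (mul_le_mul_of_nonneg_left ?_ (by positivity))
    exact Real.exp_le_exp.mpr (le_max_right _ _)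
  · have h2 : x * x ≤ (2 * D * Real.exp A) * x := by
      have h4 : D * Real.exp A * (x + Real.exp (2 * G)) ≤ D * Real.exp A * (x + x) := by
        refine mul_le_mul_of_nonneg_left (by linarith) (by positivity)
      nlinarith
    have h5 : 0 < x := (Real.exp_pos _).trans h1
    have h3 : x ≤ 2 * D * Real.exp A := le_of_mul_le_mul_right h2 h5
    refine h3.trans (mul_le_mul_of_nonneg_left ?_ (by positivity))
    exact Real.exp_le_exp.mpr (le_max_left _ _)

theorem tl_E (K : Type*) [Field K] [NumberField K] (r p : Fin 3) (c : Fin 5)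
    (h : okTl (.inr (.inl (r, p, c)))) : TlBound K (.inr (.inl (r, p, c))) := by
  classical
  obtain ⟨hrp, hc1, hc3⟩ := h
  intro ε hε
  obtain ⟨q, g, hq, hinj, hg⟩ := te_par (K := K) r p hrp
  obtain ⟨C, hC, hcs⟩ := AbcOrdM.cs_count K ((c : ℕ) + 1) (by omega) ε hε
  have h2e : (1 : ℝ) ≤ 2 ^ ε := Real.one_le_rpow (by norm_num) hε.le
  refine ⟨2 * C * 2 ^ ε, by nlinarith, fun Y hY W η hη F hF => ?_⟩
  have hY0 : (0 : ℝ) < Y := by linarith
  set Λ : ℝ := Real.log (2 * Y) with hΛ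
  have hΛ0 : 0 < Λ := Real.log_pos (by linarith)
  rcases F.eq_empty_or_nonempty with rfl | ⟨t₀, ht₀⟩
  · rw [Finset.card_empty, Nat.cast_zero]
    positivity
  have hWn : ∀ j c', 0 ≤ W j c' * Λ := fun j c' =>
    (LRc_nonneg (side j t₀) c').trans ((hF t₀ ht₀).hW j c')
  set a : ℝ := ∑ c', if c' = c then 0 else W r c' with ha
  set b : ℝ := ∑ c', W p c' with hb
  set d : ℝ := ∑ j, if j = r ∨ j = p then 0 else ∑ c', W j c' with hd
  have hdq : d = ∑ c', W q c' := by
    rw [hd, Finset.sum_eq_single q]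
    · rw [if_neg]
      rw [hq q]
      simp
    · intro j _ hj
      rw [if_pos]
      rw [hq j]
      exact hj
    · simp
  have haΛ : a * Λ = ∑ c', if c' = c then 0 else W r c' * Λ := by
    rw [ha, Finset.sum_mul]
    refine Finset.sum_congr rfl fun c' _ => ?_
    split_ifs
    · rw [zero_mul]
    · rfl
  have hbΛ : b * Λ = ∑ c', W p c' * Λ := by rw [hb, Finset.sum_mul]
  have hdΛ : d * Λ = ∑ c', W q c' * Λ := by rw [hdq, Finset.sum_mul]
  have h1 := hcs Λ (a * Λ) (b * Λ) (d * Λ) hΛ0.le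
    (by
      rw [haΛ]
      refine Finset.sum_nonneg fun c' _ => ?_
      split_ifs
      · exact le_rfl
      · exact hWn r c')
    (by
      rw [hbΛ]
      exact Finset.sum_nonneg fun c' _ => hWn p c')
    (by
      rw [hdΛ]
      exact Finset.sum_nonneg fun c' _ => hWn q c') (F.image g) (by
      intro s hs
      obtain ⟨t, ht, rfl⟩ := Finset.mem_image.mp hs
      have hB := hF t ht
      obtain ⟨g0, g1, g2, g3, g4, g5⟩ := hg t hB.n0 hB.n1
      refine ⟨g0, g1, ?_, ?_, ?_, ?_⟩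
      · rw [g2]
        exact hB.up
      · rw [g3, te_LRcompl (side_ne_zero hB.n0 hB.n1 r) c hc1 hc3, haΛ]
        refine Finset.sum_le_sum fun c' _ => ?_
        split_ifs
        · exact le_rfl
        · exact hB.hW r c'
      · rw [g4, te_LRuniv (side_ne_zero hB.n0 hB.n1 p), hbΛ]
        exact Finset.sum_le_sum fun c' _ => hB.hW p c'
      · rw [g5, te_LRuniv (side_ne_zero hB.n0 hB.n1 q), hdΛ]
        exact Finset.sum_le_sum fun c' _ => hB.hW q c')
  have hcard : (F.image g).card = F.card := by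
    refine Finset.card_image_of_injOn fun t ht t' ht' hgt => ?_
    exact hinj t t' (hF t ht).n1 (hF t' ht').n1 hgt
  rw [hcard] at h1
  have hE1 : 1 ≤ Real.exp (ε * Λ) := Real.one_le_exp (by positivity)
  have h2 := te_quad (x := (F.card : ℝ)) (D := C * Real.exp (ε * Λ)) (A := a * Λ + b * Λ)
    (G := d * Λ) (Nat.cast_nonneg _) (one_le_mul_of_one_le_of_one_le hC hE1) h1
  have hcost : max (a * Λ + b * Λ) ((a * Λ + b * Λ) / 2 + d * Λ) = eCost r p c W * Λ := by
    unfold eCost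
    rw [max_mul_of_nonneg _ _ hΛ0.le]
    congr 1
    · ring
    · ring
  rw [hcost] at h2
  have hEY : Real.exp (ε * Λ) = 2 ^ ε * Y ^ ε := by
    rw [hΛ, ← Real.mul_rpow (by norm_num) hY0.le, Real.rpow_def_of_pos (by linarith), mul_comm]
  show (F.card : ℝ) ≤ 2 * C * 2 ^ ε * Y ^ ε * Real.exp ((eCost r p c W + 20 * η) * Λ)
  calc (F.card : ℝ) ≤ 2 * (C * Real.exp (ε * Λ)) * Real.exp (eCost r p c W * Λ) := h2
    _ = 2 * C * 2 ^ ε * Y ^ ε * Real.exp (eCost r p c W * Λ) := by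
        rw [hEY]
        ring
    _ ≤ 2 * C * 2 ^ ε * Y ^ ε * Real.exp ((eCost r p c W + 20 * η) * Λ) := by
        refine mul_le_mul_of_nonneg_left (Real.exp_le_exp.mpr ?_) (by positivity)
        have h3 : 0 ≤ 20 * η * Λ := by positivity
        nlinarith

end AbcEM
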