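import Pool.Agent.Work.MP_a793bb_nt.EM.KDefs0

/-!
# Cauchy-Schwarz for two families

Proof. Let `r h = #{x ∈ S : A x = h}`, `t h = #{y ∈ T : B y = h}`. The number of the pairs with `A x = g B y` is `∑_{h} r (g h) t h` (sum over the finite set of the values `h` of `B` on `T`), its square is
`≤ ∑ r (g h) ^ 2 * ∑ t h ^ 2` and `∑_h r h ^ 2 ≤ E1 S A 1`, `∑_h t h ^ 2 = E1 T B 1` (`E1` with `k = 1` counts the pairs with equal value; functions on `Fin 1`,
`Fintype.piFinset`, `Fin.prod_univ_one` or `Finset.card_bij`). `E1_inv`: `∏ (φ x)⁻¹ = (∏ φ x)⁻¹`. `E1_pair`: the map of the pair set by the bijection `Fin 2 → X`.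
-/

set_option autoImplicit false

namespace AbcEM

open Finset Pool.Agent.Work.MP_a793bb_nt Pool.Agent.Work.MP_a793bb_nt.BPlus NumberField
  IsDedekindDomain Height

open Classical in
private theorem e1_one {G : Type*} [CommGroup G] {X : Type*} (S : Finset X) (A : X → G) :
    E1 S A 1 = ((S ×ˢ S).filter fun q => A q.1 = A q.2).card := by
  classical
  unfold E1
  refine Finset.card_bij (fun y _ => (y.1 0, y.2 0)) ?_ ?_ ?_
  · intro y hy
    simp only [mem_filter, mem_product, Fintype.mem_piFinset, Fin.prod_univ_one] at hy ⊢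
    exact ⟨⟨hy.1.1 0, hy.1.2 0⟩, hy.2⟩
  · intro y hy y' hy' h
    simp only [Prod.mk.injEq] at h
    refine Prod.ext (funext fun i => ?_) (funext fun i => ?_)
    · rw [Subsingleton.elim i 0]; exact h.1
    · rw [Subsingleton.elim i 0]; exact h.2
  · intro q hq
    simp only [mem_filter, mem_product] at hq
    refine ⟨(fun _ => q.1, fun _ => q.2), ?_, rfl⟩
    simp only [mem_filter, mem_product, Fintype.mem_piFinset, Fin.prod_univ_one]
    exact ⟨⟨fun _ => hq.1.1, fun _ => hq.1.2⟩, hq.2⟩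

open Classical in
private theorem e1_fib {G : Type*} [CommGroup G] {X : Type*} (S : Finset X) (A : X → G) :
    E1 S A 1 = ∑ h ∈ S.image A, (S.filter fun x => A x = h).card ^ 2 := by
  rw [e1_one, Finset.card_eq_sum_card_fiberwise (f := fun q => A q.1) (t := S.image A)]
  · refine Finset.sum_congr rfl fun h _ => ?_
    rw [sq, ← Finset.card_product]
    congr 1
    ext q
    simp only [mem_filter, mem_product]
    constructor
    · rintro ⟨⟨⟨h1, h2⟩, h3⟩, h4⟩
      exact ⟨⟨h1, h4⟩, h2, h3 ▸ h4⟩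
    · rintro ⟨⟨h1, h4⟩, h2, h5⟩
      exact ⟨⟨⟨h1, h2⟩, h4.trans h5.symm⟩, h4⟩
  · intro q hq
    have hq' := Finset.mem_coe.mp hq
    simp only [mem_filter, mem_product] at hq'
    exact Finset.mem_coe.mpr (Finset.mem_image_of_mem _ hq'.1.1)

open Classical in
theorem energy_cs {G : Type*} [CommGroup G] {X Y : Type*} (S : Finset X) (T : Finset Y)
    (A : X → G) (B : Y → G) (g : G) :
    (((S ×ˢ T).filter fun q => A q.1 = g * B q.2).card : ℝ) ^ 2 ≤
      (E1 S A 1 : ℝ) * (E1 T B 1 : ℝ) := by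
  set r : G → ℕ := fun h => (S.filter fun x => A x = h).card with hr
  set t : G → ℕ := fun h => (T.filter fun y => B y = h).card with ht
  have h0 : ((S ×ˢ T).filter fun q => A q.1 = g * B q.2).card =
      ∑ h ∈ T.image B, r (g * h) * t h := by
    rw [Finset.card_eq_sum_card_fiberwise (f := fun q => B q.2) (t := T.image B)]
    · refine Finset.sum_congr rfl fun h _ => ?_
      rw [hr, ht, ← Finset.card_product]
      congr 1
      ext q
      simp only [mem_filter, mem_product]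
      constructor
      · rintro ⟨⟨⟨h1, h2⟩, h3⟩, h4⟩
        exact ⟨⟨h1, by rw [h3, h4]⟩, h2, h4⟩
      · rintro ⟨⟨h1, h4⟩, h2, h5⟩
        exact ⟨⟨⟨h1, h2⟩, by rw [h4, h5]⟩, h5⟩
    · intro q hq
      have hq' := Finset.mem_coe.mp hq
      simp only [mem_filter, mem_product] at hq'
      exact Finset.mem_coe.mpr (Finset.mem_image_of_mem _ hq'.1.2)
  have h1 : ∑ h ∈ T.image B, r (g * h) ^ 2 ≤ E1 S A 1 := by
    rw [e1_fib]
    have h2 : ∑ h ∈ T.image B, r (g * h) ^ 2 = ∑ h ∈ (T.image B).image (g * ·), r h ^ 2 :=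
      (Finset.sum_image (f := fun h => r h ^ 2) (s := T.image B) (g := (g * ·))
        (fun a _ b _ hab => mul_left_cancel hab)).symm
    rw [h2]
    refine Finset.sum_le_sum_of_ne_zero fun h _ hne => ?_
    by_contra hcon
    apply hne
    have h3 : S.filter (fun x => A x = h) = ∅ := by
      rw [Finset.filter_eq_empty_iff]
      intro x hx hxh
      exact hcon (hxh ▸ Finset.mem_image_of_mem A hx)
    rw [hr]
    simp only [h3, Finset.card_empty]
    norm_num
  have h2 : ∑ h ∈ T.image B, t h ^ 2 = E1 T B 1 := by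
    rw [e1_fib]
  have h3 : (∑ h ∈ T.image B, ((r (g * h) : ℕ) : ℝ) * ((t h : ℕ) : ℝ)) ^ 2 ≤
      (∑ h ∈ T.image B, ((r (g * h) : ℕ) : ℝ) ^ 2) * ∑ h ∈ T.image B, ((t h : ℕ) : ℝ) ^ 2 :=
    Finset.sum_mul_sq_le_sq_mul_sq _ _ _
  rw [h0]
  push_cast
  refine h3.trans ?_
  have h4 : (∑ h ∈ T.image B, ((t h : ℕ) : ℝ) ^ 2) = (E1 T B 1 : ℝ) := by
    rw [← h2]; push_cast; rfl
  have h5 : (∑ h ∈ T.image B, ((r (g * h) : ℕ) : ℝ) ^ 2) ≤ (E1 S A 1 : ℝ) := by
    have : ((∑ h ∈ T.image B, r (g * h) ^ 2 : ℕ) : ℝ) ≤ (E1 S A 1 : ℝ) := by exact_mod_cast h1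
    push_cast at this
    exact this
  rw [h4]
  exact mul_le_mul_of_nonneg_right h5 (Nat.cast_nonneg _)

theorem E1_inv {G : Type*} [CommGroup G] {X : Type*} (S : Finset X) (A : X → G) (k : ℕ) :
    E1 S (fun x => (A x)⁻¹) k = E1 S A k := by
  classical
  unfold E1
  congr 1
  ext y
  simp only [mem_filter, Finset.prod_inv_distrib, inv_inj]

theorem E1_zero {G : Type*} [CommGroup G] {X : Type*} (S : Finset X) (A : X → G) :
    E1 S A 0 = 1 := by
  classical
  unfold E1
  simp

end AbcEM
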