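import Pool.Agent.Work.MP_a793bb_nt.EM.RootP

/-!
# Roots of unity modulo an ideal

Proof. `m = ∏_{p ∈ F} p ^ (ex m p)`, `F` the set of the primes dividing `m` (`prod_ex`, `finite_dvd`). The map from the `l`-th roots of unity in `(𝓞 K ⧸ m)ˣ` to the product over
`p ∈ F` of the `l`-th roots of unity in `(𝓞 K ⧸ p ^ ex m p)ˣ` is injective: an element of `𝓞 K` in all the `p ^ ex m p` is in `m` (pairwise coprime; `Ideal.prod_le_inf`,
`Finset.prod` of coprime ideals is the infimum, `IsCoprime`/`isCoprime_asIdeal`; or `IsDedekindDomain.quotientEquivPiOfProdEq`; or membership in terms of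
divisibility: `m ∣ (x)` iff `p ^ ex m p ∣ (x)` for all `p`, by `dvd_of_ex`). So the number is at most `C₀ ^ #F` (`root_prime`), and
`C₀ ^ #F ≤ C N(m) ^ ε` by `pow_card_dvd_le`.
-/

set_option autoImplicit false

namespace AbcEM

open Finset Pool.Agent.Work.MP_a793bb_nt Pool.Agent.Work.MP_a793bb_nt.BPlus NumberField
  IsDedekindDomain Height

section

variable {K : Type*} [Field K] [NumberField K]

private theorem ru_dvd {m : Ideal (𝓞 K)} (hm : m ≠ ⊥) (p : HeightOneSpectrum (𝓞 K)) :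
    m ≤ p.asIdeal ^ ex m p := by
  rw [← Ideal.dvd_iff_le]
  exact (pow_ex_dvd p hm).mpr le_rfl

private theorem ru_mem {m : Ideal (𝓞 K)} (hm : m ≠ ⊥) {x : 𝓞 K}
    (h : ∀ p ∈ (finite_dvd hm).toFinset, x ∈ p.asIdeal ^ ex m p) : x ∈ m := by
  classical
  rw [← Ideal.dvd_span_singleton]
  conv_lhs => rw [← prod_ex hm (finite_dvd hm).toFinset
    (fun p hp => (Set.Finite.mem_toFinset _).mpr hp)]
  apply Finset.prod_dvd_of_coprime
  · intro p _ q _ hpq
    exact (isCoprime_asIdeal hpq).pow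
  · intro p hp
    rw [Ideal.dvd_span_singleton]
    exact h p hp

/-- the reduction map -/
private noncomputable def ruMap {m : Ideal (𝓞 K)} (hm : m ≠ ⊥) (u : (𝓞 K ⧸ m)ˣ)
    (p : (finite_dvd hm).toFinset) : (𝓞 K ⧸ p.1.asIdeal ^ ex m p.1)ˣ :=
  Units.map (Ideal.Quotient.factor (ru_dvd hm p.1)).toMonoidHom u

private theorem ruMap_inj {m : Ideal (𝓞 K)} (hm : m ≠ ⊥) :
    Function.Injective (ruMap hm) := by
  intro u v h
  apply Units.ext
  obtain ⟨x, hx⟩ := Ideal.Quotient.mk_surjective (u : 𝓞 K ⧸ m)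
  obtain ⟨y, hy⟩ := Ideal.Quotient.mk_surjective (v : 𝓞 K ⧸ m)
  rw [← hx, ← hy, Ideal.Quotient.eq]
  apply ru_mem hm
  intro p hp
  have h1 := congrArg Units.val (congrFun h ⟨p, hp⟩)
  have h2 : Ideal.Quotient.factor (ru_dvd hm p) (u : 𝓞 K ⧸ m) =
      Ideal.Quotient.factor (ru_dvd hm p) (v : 𝓞 K ⧸ m) := h1
  rw [← hx, ← hy, Ideal.Quotient.factor_mk, Ideal.Quotient.factor_mk, Ideal.Quotient.eq] at h2
  exact h2

end

theorem root_count (K : Type*) [Field K] [NumberField K] (l : ℕ) (hl : 1 ≤ l) (ε : ℝ)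
    (hε : 0 < ε) : ∃ C : ℝ, 1 ≤ C ∧ ∀ m : Ideal (𝓞 K), m ≠ ⊥ →
      ({z : (𝓞 K ⧸ m)ˣ | z ^ l = 1}.ncard : ℝ) ≤ C * (Ideal.absNorm m : ℝ) ^ ε := by
  classical
  obtain ⟨C₀, hC₀, h0⟩ := root_prime K l hl
  obtain ⟨C, hC, h1⟩ := pow_card_dvd_le K hε C₀
  refine ⟨C, hC, fun m hm => le_trans ?_ (h1 m hm)⟩
  have hfin : ∀ p : (finite_dvd hm).toFinset,
      {z : (𝓞 K ⧸ p.1.asIdeal ^ ex m p.1)ˣ | z ^ l = 1}.Finite := by
    intro p
    have h2 : p.1.asIdeal ^ ex m p.1 ≠ ⊥ := pow_ne_zero _ p.1.ne_bot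
    have : Finite (𝓞 K ⧸ p.1.asIdeal ^ ex m p.1) := Ideal.finiteQuotientOfFreeOfNeBot _ h2
    exact Set.toFinite _
  have h3 : {z : (𝓞 K ⧸ m)ˣ | z ^ l = 1}.ncard ≤
      (Fintype.piFinset fun p : (finite_dvd hm).toFinset => (hfin p).toFinset).card := by
    rw [← Set.ncard_coe_finset]
    refine Set.ncard_le_ncard_of_injOn (ruMap hm) ?_ ((ruMap_inj hm).injOn) (Finset.finite_toSet _)
    intro z hz
    rw [Finset.mem_coe, Fintype.mem_piFinset]
    intro p
    rw [Set.Finite.mem_toFinset]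
    show ruMap hm z p ^ l = 1
    unfold ruMap
    rw [← map_pow, show z ^ l = 1 from hz, map_one]
  rw [Fintype.card_piFinset] at h3
  have h4 : ∏ p : (finite_dvd hm).toFinset, ((hfin p).toFinset).card ≤
      ∏ _p : (finite_dvd hm).toFinset, C₀ := by
    refine Finset.prod_le_prod (fun _ _ => Nat.zero_le _) fun p _ => ?_
    rw [← Set.ncard_eq_toFinset_card _ (hfin p)]
    exact h0 p.1 _
  rw [Finset.prod_const, Finset.card_univ, Fintype.card_coe,
    ← Set.ncard_eq_toFinset_card _ (finite_dvd hm)] at h4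
  exact_mod_cast h3.trans h4

end AbcEM
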