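import Pool.Agent.Work.MP_a793bb_nt.EM.BoxC
import Pool.Agent.Work.MP_a793bb_nt.EM.RootU
import Pool.Agent.Work.MP_a793bb_nt.EM.FacL

/-!
# Higher moments

Notation: `N = log N(m)`, `d = finrank`, `φ x = red m (gn a x) ^ l`, `S = idS m a c`. For `y : Fin k → Ideal` put `Π y = ∏ gn a (y i)` (a unit at `m`), so
`∏ φ (y i) = red m (Π y) ^ l` (`red_prod`).
Proof. A pair `(x, y)` is counted iff `ζ = red m (Π x / Π y)` satisfies `ζ ^ l = 1`. Number of `ζ`: at most `C N(m)^δ ≤ C exp (δ L)` (`root_count`). Fix `ζ` and `y` (at most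
`(C exp c) ^ k` tuples `y`, `card_idS_le`). The elements `P = Π x` with `x` such that `(x, y)` is counted with this `ζ` have the same class `ζ red m (Π y)`, so they are pairwise
`CongM m` (`red_eq_iff`). They satisfy `kp p P ≥ - k * ex a p = - ex (a ^ k) p`, `CopI m (a ^ k)`, and `log (v P) ≤ k ((c - log N a) / d + C0)`. So `box_count` with `D = a ^ k`,
`T = k c - k log N a`, `B = k * C0 K` gives at most `C (1 + exp (k c - N))` values of `P` (`log N(a ^ k) = k log N a`). For each `P` there are at most `C exp (δ L)` tuples `x` (`fac_count`).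
Together `C exp (2 δ L) exp (k c) (1 + exp (k c - N))`; `δ = ε / 2`. (Count with `card_le_fib` and the map `(x, y) ↦ (ζ, y)`, then `(x, y) ↦ P`.)
-/

set_option autoImplicit false

namespace AbcEM

open Finset Pool.Agent.Work.MP_a793bb_nt Pool.Agent.Work.MP_a793bb_nt.BPlus NumberField
  IsDedekindDomain Height

section

variable {K : Type*} [Field K] [NumberField K]

/-- the product of the generators -/
private noncomputable def mPi (a : Ideal (𝓞 K)) {k : ℕ} (x : Fin k → Ideal (𝓞 K)) : K :=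
  ∏ i, gn a (x i)

private theorem mPi_unit {m a : Ideal (𝓞 K)} {c : ℝ} {k : ℕ} (ha : a ∈ idS m a c)
    {x : Fin k → Ideal (𝓞 K)} (hx : ∀ i, x i ∈ idS m a c) : UnitAt m (mPi a x) :=
  UnitAt.prod _ _ fun i _ => unitAt_gn' ha (hx i)

private theorem mPi_red {m a : Ideal (𝓞 K)} {c : ℝ} {k : ℕ} (l : ℕ) (hm : m ≠ ⊥)
    (ha : a ∈ idS m a c) {x : Fin k → Ideal (𝓞 K)} (hx : ∀ i, x i ∈ idS m a c) :
    ∏ i, red m (gn a (x i)) ^ l = red m (mPi a x) ^ l := by
  rw [mPi, red_prod hm _ _ fun i _ => unitAt_gn' ha (hx i), Finset.prod_pow]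

private theorem mPi_kp {m a : Ideal (𝓞 K)} {c : ℝ} {k : ℕ}
    (ha : a ∈ idS m a c) {x : Fin k → Ideal (𝓞 K)} (hx : ∀ i, x i ∈ idS m a c)
    (p : HeightOneSpectrum (𝓞 K)) : -(ex (a ^ k) p : ℤ) ≤ kp p (mPi a x) := by
  have ha' := mem_idS.mp ha
  have h1 : ex (a ^ k) p = k * ex a p := by
    have := ex_prod' (Finset.univ : Finset (Fin k)) (fun _ => a) (fun _ _ => ha'.1) p
    simpa using this
  rw [mPi, kp_prod _ _ (fun i _ => (unitAt_gn' ha (hx i)).1) p, h1]
  have h2 : ∀ i ∈ (Finset.univ : Finset (Fin k)), -(ex a p : ℤ) ≤ kp p (gn a (x i)) := by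
    intro i _
    have hx' := mem_idS.mp (hx i)
    rw [(gn_spec ha'.1 hx'.1 hx'.2.2.1).2.1 p]
    have : (0 : ℤ) ≤ ex (x i) p := Int.natCast_nonneg _
    linarith
  have h3 := Finset.sum_le_sum h2
  rw [Finset.sum_const, Finset.card_univ, Fintype.card_fin, nsmul_eq_mul] at h3
  push_cast
  linarith

private theorem mPi_log {m a : Ideal (𝓞 K)} {c : ℝ} {k : ℕ}
    (ha : a ∈ idS m a c) {x : Fin k → Ideal (𝓞 K)} (hx : ∀ i, x i ∈ idS m a c)
    (v : InfinitePlace K) : Real.log (v (mPi a x)) ≤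
      (k * c - k * Real.log (Ideal.absNorm a)) / Module.finrank ℚ K + k * C0 K := by
  have ha' := mem_idS.mp ha
  have hd : (0 : ℝ) < Module.finrank ℚ K := by exact_mod_cast (Module.finrank_pos (R := ℚ) (M := K))
  have h1 : ∀ i ∈ (Finset.univ : Finset (Fin k)), Real.log (v (gn a (x i))) ≤
      (c - Real.log (Ideal.absNorm a)) / Module.finrank ℚ K + C0 K := by
    intro i _
    have hx' := mem_idS.mp (hx i)
    have h2 := (abs_le.mp ((gn_spec ha'.1 hx'.1 hx'.2.2.1).2.2 v)).2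
    have h3 : Real.log (Ideal.absNorm (x i) : ℝ) ≤ c := by
      rw [Real.log_le_iff_le_exp (absNorm_pos' hx'.1)]
      exact hx'.2.1
    have h4 : (Real.log (Ideal.absNorm (x i) : ℝ) - Real.log (Ideal.absNorm a)) /
        Module.finrank ℚ K ≤ (c - Real.log (Ideal.absNorm a)) / Module.finrank ℚ K := by
      apply div_le_div_of_nonneg_right _ hd.le
      linarith
    linarith
  have h5 := Finset.sum_le_sum h1
  rw [Finset.sum_const, Finset.card_univ, Fintype.card_fin, nsmul_eq_mul] at h5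
  have h6 : Real.log (v (mPi a x)) = ∑ i, Real.log (v (gn a (x i))) := by
    rw [mPi, map_prod, Real.log_prod]
    intro i _
    exact (v.pos_iff.mpr (unitAt_gn' ha (hx i)).1).ne'
  rw [h6]
  refine h5.trans (le_of_eq ?_)
  field_simp

end

theorem moment_le (K : Type*) [Field K] [NumberField K] (l k : ℕ) (hl : 1 ≤ l) (ε : ℝ)
    (hε : 0 < ε) : ∃ C : ℝ, 1 ≤ C ∧ ∀ (L c : ℝ) (m a : Ideal (𝓞 K)), 0 ≤ c → c ≤ L → m ≠ ⊥ →
      Real.log (Ideal.absNorm m) ≤ L → a ∈ idS m a c →
      (E1 (idS m a c) (fun x => red m (gn a x) ^ l) k : ℝ) ≤ C * Real.exp (ε * L) *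
        (Real.exp (k * c) * (1 + Real.exp (k * c - Real.log (Ideal.absNorm m)))) := by
  classical
  have hδ : 0 < ε / 2 := by positivity
  obtain ⟨C1, hC1, h1⟩ := root_count K l hl (ε / 2) hδ
  obtain ⟨C2, hC2, h2⟩ := fac_count K k (ε / 2) hδ
  obtain ⟨C3, hC3, h3⟩ := box_count K (k * C0 K) (mul_nonneg (Nat.cast_nonneg _) (C0_nonneg K))
  obtain ⟨C4, hC4, h4⟩ := card_idS_le K
  refine ⟨C1 * C4 ^ k * (C3 * C2), ?_, ?_⟩
  · have e1 : 1 ≤ C4 ^ k := one_le_pow₀ hC4
    have e2 : 1 ≤ C1 * C4 ^ k := one_le_mul_of_one_le_of_one_le hC1 e1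
    have e3 : 1 ≤ C3 * C2 := one_le_mul_of_one_le_of_one_le hC3 hC2
    exact one_le_mul_of_one_le_of_one_le e2 e3
  intro L c m a hc hcL hm hmL ha
  have ha' := mem_idS.mp ha
  have hNa : 0 < (Ideal.absNorm a : ℝ) := absNorm_pos' ha'.1
  have hNm : 0 < (Ideal.absNorm m : ℝ) := absNorm_pos' hm
  set A := Fintype.piFinset (fun _ : Fin k => idS m a c) with hA
  have hAm : ∀ {x : Fin k → Ideal (𝓞 K)}, x ∈ A → ∀ i, x i ∈ idS m a c := by
    intro x hx i
    exact Fintype.mem_piFinset.mp hx i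
  have : Finite (𝓞 K ⧸ m) := Ideal.finiteQuotientOfFreeOfNeBot _ hm
  have hfin : {z : (𝓞 K ⧸ m)ˣ | z ^ l = 1}.Finite := Set.toFinite _
  set P := (A ×ˢ A).filter fun y => ∏ i, red m (gn a (y.1 i)) ^ l = ∏ i, red m (gn a (y.2 i)) ^ l
    with hP
  have hE : E1 (idS m a c) (fun x => red m (gn a x) ^ l) k = P.card := by
    unfold E1
    rw [hP, hA]
    congr
  rw [hE]
  have hPm : ∀ {y : (Fin k → Ideal (𝓞 K)) × (Fin k → Ideal (𝓞 K))}, y ∈ P →
      (∀ i, y.1 i ∈ idS m a c) ∧ (∀ i, y.2 i ∈ idS m a c) ∧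
        red m (mPi a y.1) ^ l = red m (mPi a y.2) ^ l := by
    intro y hy
    rw [hP, Finset.mem_filter, Finset.mem_product] at hy
    refine ⟨hAm hy.1.1, hAm hy.1.2, ?_⟩
    rw [← mPi_red l hm ha (hAm hy.1.1), ← mPi_red l hm ha (hAm hy.1.2)]
    exact hy.2
  -- the first map
  have key := card_le_fib P (hfin.toFinset ×ˢ A)
    (fun y => (red m (mPi a y.1 / mPi a y.2), y.2))
    (M1 := (C1 * Real.exp (ε / 2 * L)) * (C4 * Real.exp c) ^ k)
    (M2 := (C3 * (1 + Real.exp (k * c - Real.log (Ideal.absNorm m)))) *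
      (C2 * Real.exp (ε / 2 * L))) (by positivity) ?_ ?_ ?_
  · refine key.trans (le_of_eq ?_)
    have e1 : Real.exp (ε * L) = Real.exp (ε / 2 * L) * Real.exp (ε / 2 * L) := by
      rw [← Real.exp_add]
      congr 1
      ring
    have e2 : Real.exp (k * c) = Real.exp c ^ k := by
      rw [← Real.exp_nat_mul]
    rw [e1, e2, mul_pow]
    ring
  · intro y hy
    obtain ⟨hx, hy', he⟩ := hPm hy
    rw [Finset.mem_product, Set.Finite.mem_toFinset]
    refine ⟨?_, ?_⟩
    · show red m (mPi a y.1 / mPi a y.2) ^ l = 1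
      rw [red_div hm (mPi_unit ha hx) (mPi_unit ha hy'), div_pow, he, div_self']
    · rw [hA, Fintype.mem_piFinset]
      exact hy'
  · rw [Finset.card_product, Nat.cast_mul]
    refine mul_le_mul ?_ ?_ (Nat.cast_nonneg _) (by positivity)
    · have e1 := h1 m hm
      rw [Set.ncard_eq_toFinset_card _ hfin] at e1
      refine e1.trans (mul_le_mul_of_nonneg_left ?_ (by linarith))
      rw [Real.rpow_def_of_pos hNm]
      apply Real.exp_le_exp.mpr
      rw [mul_comm]
      exact mul_le_mul_of_nonneg_left hmL hδ.le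
    · rw [hA, Fintype.card_piFinset, Finset.prod_const, Finset.card_univ, Fintype.card_fin,
        Nat.cast_pow]
      exact pow_le_pow_left₀ (Nat.cast_nonneg _) (h4 m a c) k
  · intro b _
    set Q := P.filter fun y => (red m (mPi a y.1 / mPi a y.2), y.2) = b with hQ
    have hQm : ∀ {y : (Fin k → Ideal (𝓞 K)) × (Fin k → Ideal (𝓞 K))}, y ∈ Q →
        (∀ i, y.1 i ∈ idS m a c) ∧ (∀ i, y.2 i ∈ idS m a c) ∧
          red m (mPi a y.1 / mPi a y.2) = b.1 ∧ y.2 = b.2 := by
      intro y hy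
      rw [hQ, Finset.mem_filter] at hy
      obtain ⟨hx, hy', -⟩ := hPm hy.1
      exact ⟨hx, hy', congrArg Prod.fst hy.2, congrArg Prod.snd hy.2⟩
    refine card_le_fib Q (Q.image fun y => mPi a y.1) (fun y => mPi a y.1) (by positivity)
      (fun y hy => Finset.mem_image_of_mem _ hy) ?_ ?_
    · -- box count
      have hD : a ^ k ≠ ⊥ := pow_ne_zero _ ha'.1
      have hcop : CopI m (a ^ k) := by
        intro p hp
        have e1 := ex_prod' (Finset.univ : Finset (Fin k)) (fun _ => a) (fun _ _ => ha'.1) p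
        have e2 : ex (a ^ k) p = k * ex a p := by simpa using e1
        rw [e2, ha'.2.2.2 p hp, mul_zero]
      have e3 := h3 (k * c - k * Real.log (Ideal.absNorm a)) m (a ^ k) hm hD hcop
        (Q.image fun y => mPi a y.1) ?_ ?_
      · rw [log_absNorm_pow] at e3
        have e4 : (k : ℝ) * c - k * Real.log (Ideal.absNorm a) + k * Real.log (Ideal.absNorm a) -
            Real.log (Ideal.absNorm m) = k * c - Real.log (Ideal.absNorm m) := by ring
        rw [e4] at e3
        exact e3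
      · intro z hz
        obtain ⟨y, hy, rfl⟩ := Finset.mem_image.mp hz
        obtain ⟨hx, -, -, -⟩ := hQm hy
        exact ⟨(mPi_unit ha hx).1, fun v => mPi_log ha hx v, fun p => mPi_kp ha hx p⟩
      · intro z hz z' hz'
        obtain ⟨y, hy, rfl⟩ := Finset.mem_image.mp hz
        obtain ⟨y', hy', rfl⟩ := Finset.mem_image.mp hz'
        obtain ⟨hx, hx2, hx3, hx4⟩ := hQm hy
        obtain ⟨hy1, hy2, hy3, hy4⟩ := hQm hy'
        show CongM m (mPi a y.1) (mPi a y'.1)
        rw [← red_eq_iff hm (mPi_unit ha hx) (mPi_unit ha hy1)]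
        rw [red_div hm (mPi_unit ha hx) (mPi_unit ha hx2)] at hx3
        rw [red_div hm (mPi_unit ha hy1) (mPi_unit ha hy2)] at hy3
        rw [← hy3, hx4, hy4] at hx3
        exact div_left_injective hx3
    · intro Ξ _
      refine le_trans ?_ (h2 L c m a hc hcL ha Ξ)
      have e5 : (Q.filter fun y => mPi a y.1 = Ξ).card ≤
          ((Fintype.piFinset fun _ : Fin k => idS m a c).filter
            fun y => ∏ i, gn a (y i) = Ξ).card := by
        refine Finset.card_le_card_of_injOn Prod.fst ?_ ?_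
        · intro y hy
          rw [Finset.mem_coe, Finset.mem_filter] at hy ⊢
          obtain ⟨hx, -, -, -⟩ := hQm hy.1
          exact ⟨Fintype.mem_piFinset.mpr hx, hy.2⟩
        · intro y hy y' hy' h
          rw [Finset.mem_coe, Finset.mem_filter] at hy hy'
          obtain ⟨-, -, -, e6⟩ := hQm hy.1
          obtain ⟨-, -, -, e7⟩ := hQm hy'.1
          exact Prod.ext h (e6.trans e7.symm)
      exact_mod_cast e5

end AbcEM
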