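import Pool.Agent.Work.MP_a793bb_nt.EM.HGm
import Pool.Agent.Work.MP_a793bb_nt.EM.ECs
import Pool.Agent.Work.MP_a793bb_nt.EM.Moment

/-!
# Solutions with many variables

Notation: `τ = ∑ (ca l + cb l)`, items `i = (l, side)`, `l ∈ Icc 1 J0`, `c i` is `ca l` or `cb l`.
Proof. `tcount` is the number of the tuples in the product of the sets `S i = idS m (a l) (ca l)` resp. `idS m (b l) (cb l)` with `∏ φ i (x i) = g`, where `φ i x = red m (gn (a l) x) ^ l` resp. `(red m (gn (b l) x) ^ l)⁻¹`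
(index type `ι = {l // l ∈ Icc 1 J0} × Bool` or `⊕`, bijection with the pairs `(x, y)`). If `L < 1`, or in general, use `C` large: all the `#S i ≤ C exp (c i)`. We may assume `L ≥ 1`: for `L < 1` the trivial bound `tcount ≤ ∏ #S i ≤ C' exp (2 J0 L)` is bounded.
Let `η = ε / (8 J0 + 8)`, `K₀ = ⌈1/η⌉₊`. Choose `s i` and `k i`:
`c i < η L` (small): `s i = 0`, `k i = 1`;
`c i ≥ η L` and `c i ≤ μ`: `k i = ⌊μ / c i⌋₊` (so `1 ≤ k i ≤ K₀` as `μ ≤ log N m ≤ L`), `s i = min 1 (μ / τ)`;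
`c i ≥ η L` and `c i > μ`: `k i = 1`, `s i = c i / τ` (`≤ 1`; here `τ ≥ c i > 0`, `μ < τ`).
Then `s i / (2 k i) ≤ c i / τ` for all `i` with `s i > 0`: in the second case `⌊x⌋ ≥ x / 2` for `x ≥ 1`, so `s i / (2 k i) ≤ s i c i / μ ≤ c i / τ` if `μ > 0` (`c i ≤ μ` and `c i ≥ η L > 0` give `μ > 0`; `s i ≤ μ / τ`); third case: `c i / (2 τ)`. So `∑ s i / (2 k i) ≤ 1` (if `τ = 0` all items are small).
`group_holder`, `card_idS_le`: `#S i ≤ C exp (c i)`, `moment_le` (for `l ∈ Icc 1 J0` and `k ≤ K₀`, finitely many, take the largest constant; `ε' = ε / (8 J0 + 8)`; `E1_inv`; `log N m ≥ μ`):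
`E1 ≤ C exp (ε' L) exp (k c) (1 + exp (k c - μ))`. Second case: `k c ≤ μ`, `E1 ^ (s / (2k)) ≤ (2 C exp (ε' L)) exp (s c / 2)`, the factor of the item is `≤ C' exp (ε' L) exp (c (1 - s/2))`.
Third case: `k = 1`, `E1 ≤ 2 C exp (ε' L) exp (2 c - μ)`, the factor is `≤ C' exp (ε' L) exp (c (1 - s) + (2c - μ) s / 2) = C' exp (ε' L) exp (c - μ s / 2) = C' exp (ε' L) exp (c (1 - μ / (2 τ)))`. In all the cases of items which are not small
the exponent is `c i (1 - min 1 (μ/τ) / 2)` (third case: `μ < c i ≤ τ`). Small items: `c i ≤ c i (1 - min 1 (μ/τ)/2) + η L / 2`. Sum: `τ (1 - min 1 (μ/τ) / 2) + J0 η L = τ - min τ μ / 2 + J0 η L = max (τ/2) (τ - μ/2) + J0 η L`.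
-/

set_option autoImplicit false

namespace AbcEM

open Finset Pool.Agent.Work.MP_a793bb_nt Pool.Agent.Work.MP_a793bb_nt.BPlus NumberField
  IsDedekindDomain Height

private theorem rpow_bd {E B y p : ℝ} (hE : 0 ≤ E) (hB : 1 ≤ B) (h : E ≤ B * Real.exp y)
    (hp0 : 0 ≤ p) (hp1 : p ≤ 1) : E ^ p ≤ B * Real.exp (y * p) := by
  have hB0 : 0 ≤ B := by linarith
  calc E ^ p ≤ (B * Real.exp y) ^ p := Real.rpow_le_rpow hE h hp0
    _ = B ^ p * Real.exp y ^ p := Real.mul_rpow hB0 (Real.exp_pos y).le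
    _ = B ^ p * Real.exp (y * p) := by rw [← Real.exp_mul]
    _ ≤ B * Real.exp (y * p) := by
        refine mul_le_mul_of_nonneg_right ?_ (Real.exp_pos _).le
        calc B ^ p ≤ B ^ (1 : ℝ) := Real.rpow_le_rpow_of_exponent_le hB hp1
          _ = B := Real.rpow_one B

private theorem item {C ε' η L μ τ c N n : ℝ} {E : ℕ → ℝ} {K0 : ℕ} (hC : 1 ≤ C) (hε : 0 < ε')
    (hη : 0 < η) (hL : 0 ≤ L) (hμ0 : 0 ≤ μ) (hμN : μ ≤ N) (hNL : N ≤ L) (hc0 : 0 ≤ c)
    (hcτ : c ≤ τ) (hn0 : 0 ≤ n) (hn : n ≤ C * Real.exp c) (hE0 : ∀ k, 0 ≤ E k)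
    (hE : ∀ k : ℕ, k ≤ K0 → E k ≤ C * Real.exp (ε' * L) *
      (Real.exp (k * c) * (1 + Real.exp (k * c - N))))
    (hK : 1 / η ≤ K0) (hK1 : 1 ≤ K0) :
    ∃ (s : ℝ) (k : ℕ), 0 ≤ s ∧ s ≤ 1 ∧ 1 ≤ k ∧ s / (2 * k) ≤ c / τ ∧
      n ^ (1 - s) * E k ^ (s / (2 * k)) ≤
        2 * C ^ 2 * Real.exp (ε' * L + η * L / 2) *
          Real.exp (c * (1 - min 1 (μ / τ) / 2)) := by
  have hC0 : 0 < C := by linarith
  have hτ0 : 0 ≤ τ := hc0.trans hcτ
  have hθ0 : 0 ≤ min 1 (μ / τ) := le_min zero_le_one (div_nonneg hμ0 hτ0)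
  have hθ1 : min 1 (μ / τ) ≤ 1 := min_le_left _ _
  have hθ2 : min 1 (μ / τ) ≤ μ / τ := min_le_right _ _
  have hεL : 0 ≤ ε' * L := by positivity
  have hηL : 0 ≤ η * L := by positivity
  have hB1 : 1 ≤ 2 * C * Real.exp (ε' * L) := by
    have h1 : 1 ≤ Real.exp (ε' * L) := Real.one_le_exp hεL
    nlinarith
  by_cases hs : c ≤ η * L
  · refine ⟨0, 1, le_rfl, zero_le_one, le_rfl, ?_, ?_⟩
    · rw [zero_div]; exact div_nonneg hc0 hτ0
    · rw [sub_zero, Real.rpow_one, zero_div, Real.rpow_zero, mul_one, mul_assoc, ← Real.exp_add]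
      refine hn.trans ?_
      refine mul_le_mul (by nlinarith) (Real.exp_le_exp.2 ?_) (Real.exp_pos _).le (by positivity)
      have h1 : c * min 1 (μ / τ) ≤ c * 1 := mul_le_mul_of_nonneg_left hθ1 hc0
      nlinarith
  · push Not at hs
    have hcpos : 0 < c := lt_of_le_of_lt hηL hs
    have hτpos : 0 < τ := hcpos.trans_le hcτ
    rcases le_or_gt c μ with h | h
    · have hμpos : 0 < μ := hcpos.trans_le h
      have h1 : 1 ≤ μ / c := (one_le_div hcpos).2 h
      have hk1 : 1 ≤ ⌊μ / c⌋₊ := Nat.le_floor (by simpa using h1)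
      have hk2 : ((⌊μ / c⌋₊ : ℕ) : ℝ) ≤ μ / c := Nat.floor_le (by positivity)
      have hk3 : μ / c < (⌊μ / c⌋₊ : ℕ) + 1 := Nat.lt_floor_add_one _
      generalize hkd : ⌊μ / c⌋₊ = k at hk1 hk2 hk3
      have hk1' : (1 : ℝ) ≤ k := by exact_mod_cast hk1
      have hkK : k ≤ K0 := by
        have h2 : μ / c ≤ 1 / η := by
          rw [div_le_div_iff₀ hcpos hη]
          nlinarith
        exact_mod_cast hk2.trans (h2.trans hK)
      have hkc : k * c ≤ μ := by
        rw [le_div_iff₀ hcpos] at hk2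
        exact hk2
      have h2kc : μ ≤ 2 * k * c := by
        rw [div_lt_iff₀ hcpos] at hk3
        nlinarith
      refine ⟨min 1 (μ / τ), k, hθ0, hθ1, hk1, ?_, ?_⟩
      · rw [div_le_div_iff₀ (by positivity) hτpos]
        have h3 : min 1 (μ / τ) * τ ≤ μ := by
          calc min 1 (μ / τ) * τ ≤ μ / τ * τ := mul_le_mul_of_nonneg_right hθ2 hτ0
            _ = μ := div_mul_cancel₀ μ hτpos.ne'
        nlinarith
      · have hp0 : 0 ≤ min 1 (μ / τ) / (2 * k) := by positivity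
        have hp1 : min 1 (μ / τ) / (2 * k) ≤ 1 := by
          rw [div_le_one (by positivity)]
          nlinarith
        have hEk : E k ≤ (2 * C * Real.exp (ε' * L)) * Real.exp (k * c) := by
          refine (hE k hkK).trans ?_
          have h4 : Real.exp (k * c - N) ≤ 1 := Real.exp_le_one_iff.2 (by linarith)
          have h5 : Real.exp (k * c) * (1 + Real.exp (k * c - N)) ≤ Real.exp (k * c) * 2 :=
            mul_le_mul_of_nonneg_left (by linarith) (Real.exp_pos _).le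
          calc C * Real.exp (ε' * L) * (Real.exp (k * c) * (1 + Real.exp (k * c - N)))
              ≤ C * Real.exp (ε' * L) * (Real.exp (k * c) * 2) :=
                mul_le_mul_of_nonneg_left h5 (by positivity)
            _ = _ := by ring
        have h6 := rpow_bd (hE0 k) hB1 hEk hp0 hp1
        have h7 := rpow_bd hn0 hC hn (sub_nonneg.2 hθ1) (by linarith : 1 - min 1 (μ / τ) ≤ 1)
        have h8 : (k : ℝ) * c * (min 1 (μ / τ) / (2 * k)) = c * min 1 (μ / τ) / 2 := by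
          field_simp
        rw [h8] at h6
        calc n ^ (1 - min 1 (μ / τ)) * E k ^ (min 1 (μ / τ) / (2 * k))
            ≤ (C * Real.exp (c * (1 - min 1 (μ / τ)))) *
              (2 * C * Real.exp (ε' * L) * Real.exp (c * min 1 (μ / τ) / 2)) :=
              mul_le_mul h7 h6 (Real.rpow_nonneg (hE0 k) _) (by positivity)
          _ = 2 * C ^ 2 * Real.exp (ε' * L + c * (1 - min 1 (μ / τ) / 2)) := by
              have e1 : ε' * L + c * (1 - min 1 (μ / τ) / 2) =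
                  c * (1 - min 1 (μ / τ)) + (ε' * L + c * min 1 (μ / τ) / 2) := by ring
              rw [e1, Real.exp_add, Real.exp_add]
              ring
          _ ≤ 2 * C ^ 2 * Real.exp (ε' * L + η * L / 2 + c * (1 - min 1 (μ / τ) / 2)) := by
              refine mul_le_mul_of_nonneg_left (Real.exp_le_exp.2 ?_) (by positivity)
              linarith
          _ = _ := by rw [Real.exp_add (ε' * L + η * L / 2), ← mul_assoc]
    · have hμτ : μ / τ < 1 := by
        rw [div_lt_one hτpos]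
        linarith
      have hmin : min 1 (μ / τ) = μ / τ := min_eq_right hμτ.le
      rw [hmin]
      have hs0 : 0 ≤ c / τ := div_nonneg hc0 hτ0
      have hs1 : c / τ ≤ 1 := (div_le_one hτpos).2 hcτ
      refine ⟨c / τ, 1, hs0, hs1, le_rfl, ?_, ?_⟩
      · rw [Nat.cast_one, mul_one]
        linarith
      · have hp0 : 0 ≤ c / τ / (2 * ((1 : ℕ) : ℝ)) := by positivity
        have hp1 : c / τ / (2 * ((1 : ℕ) : ℝ)) ≤ 1 := by
          rw [Nat.cast_one, mul_one]
          linarith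
        have hEk : E 1 ≤ (2 * C * Real.exp (ε' * L)) * Real.exp (2 * c - μ) := by
          refine (hE 1 hK1).trans ?_
          rw [Nat.cast_one, one_mul]
          have h4 : Real.exp (c - N) ≤ Real.exp (c - μ) := Real.exp_le_exp.2 (by linarith)
          have h5 : 1 ≤ Real.exp (c - μ) := Real.one_le_exp (by linarith)
          have h6 : Real.exp c * (1 + Real.exp (c - N)) ≤ Real.exp c * (2 * Real.exp (c - μ)) :=
            mul_le_mul_of_nonneg_left (by linarith) (Real.exp_pos _).le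
          calc C * Real.exp (ε' * L) * (Real.exp c * (1 + Real.exp (c - N)))
              ≤ C * Real.exp (ε' * L) * (Real.exp c * (2 * Real.exp (c - μ))) :=
                mul_le_mul_of_nonneg_left h6 (by positivity)
            _ = _ := by
                have e1 : 2 * c - μ = c + (c - μ) := by ring
                rw [e1, Real.exp_add]
                ring
        have h6 := rpow_bd (hE0 1) hB1 hEk hp0 hp1
        have h7 := rpow_bd hn0 hC hn (sub_nonneg.2 hs1) (by linarith : 1 - c / τ ≤ 1)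
        calc n ^ (1 - c / τ) * E 1 ^ (c / τ / (2 * ((1 : ℕ) : ℝ)))
            ≤ (C * Real.exp (c * (1 - c / τ))) *
              (2 * C * Real.exp (ε' * L) *
                Real.exp ((2 * c - μ) * (c / τ / (2 * ((1 : ℕ) : ℝ))))) :=
              mul_le_mul h7 h6 (Real.rpow_nonneg (hE0 1) _) (by positivity)
          _ = 2 * C ^ 2 * Real.exp (ε' * L + c * (1 - μ / τ / 2)) := by
              have e1 : ε' * L + c * (1 - μ / τ / 2) =
                  c * (1 - c / τ) + (ε' * L + (2 * c - μ) * (c / τ / (2 * ((1 : ℕ) : ℝ)))) := by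
                rw [Nat.cast_one]
                field_simp
                ring
              rw [e1, Real.exp_add, Real.exp_add]
              ring
          _ ≤ 2 * C ^ 2 * Real.exp (ε' * L + η * L / 2 + c * (1 - μ / τ / 2)) := by
              refine mul_le_mul_of_nonneg_left (Real.exp_le_exp.2 ?_) (by positivity)
              linarith
          _ = _ := by rw [Real.exp_add (ε' * L + η * L / 2), ← mul_assoc]

private theorem le_cntN {G : Type*} [CommGroup G] {ι : Type*} [Fintype ι] {X : ι → Type*}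
    (S : ∀ i, Finset (X i)) (φ : ∀ i, X i → G) (g : G) {α : Type*} (s : Finset α)
    (f : α → ∀ i, X i) (h : ∀ x ∈ s, (∀ i, f x i ∈ S i) ∧ ∏ i, φ i (f x i) = g)
    (hinj : ∀ x ∈ s, ∀ y ∈ s, f x = f y → x = y) : s.card ≤ cntN S φ g := by
  classical
  unfold cntN
  refine Finset.card_le_card_of_injOn f (fun x hx => ?_) fun x hx y hy hxy => hinj x hx y hy hxy
  have h1 := h x hx
  refine Finset.mem_filter.2 ⟨?_, h1.2⟩
  rw [Fintype.mem_piFinset]
  exact h1.1

theorem tuple_m (K : Type*) [Field K] [NumberField K] (J0 : ℕ) (ε : ℝ) (hε : 0 < ε) :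
    ∃ C : ℝ, 1 ≤ C ∧ ∀ (L μ : ℝ) (m : Ideal (𝓞 K)) (a b : ℕ → Ideal (𝓞 K)) (ca cb : ℕ → ℝ)
      (g : (𝓞 K ⧸ m)ˣ), 0 ≤ μ → μ ≤ Real.log (Ideal.absNorm m) → m ≠ ⊥ →
      Real.log (Ideal.absNorm m) ≤ L →
      (∀ l ∈ Icc 1 J0, 0 ≤ ca l ∧ ca l ≤ L ∧ 0 ≤ cb l ∧ cb l ≤ L ∧
        a l ∈ idS m (a l) (ca l) ∧ b l ∈ idS m (b l) (cb l)) →
      (tcount (Icc 1 J0) m a b ca cb g : ℝ) ≤ C * Real.exp (ε * L) *
        Real.exp (max ((∑ l ∈ Icc 1 J0, (ca l + cb l)) / 2)
          ((∑ l ∈ Icc 1 J0, (ca l + cb l)) - μ / 2)) := by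
  classical
  set η : ℝ := ε / (4 * J0 + 4) with hηd
  have hη : 0 < η := by positivity
  obtain ⟨K0, hK0⟩ := exists_nat_ge (max 1 (1 / η))
  have hK1 : 1 ≤ K0 := by
    have := (le_max_left 1 (1 / η)).trans hK0
    exact_mod_cast this
  have hK2 : 1 / η ≤ K0 := (le_max_right 1 (1 / η)).trans hK0
  obtain ⟨C1, hC1, hcard⟩ := card_idS_le K
  have hmom : ∀ l k : ℕ, ∃ C : ℝ, 1 ≤ C ∧ (1 ≤ l → ∀ (L c : ℝ) (m a : Ideal (𝓞 K)), 0 ≤ c →
      c ≤ L → m ≠ ⊥ → Real.log (Ideal.absNorm m) ≤ L → a ∈ idS m a c →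
      (E1 (idS m a c) (fun x => red m (gn a x) ^ l) k : ℝ) ≤ C * Real.exp (η * L) *
        (Real.exp (k * c) * (1 + Real.exp (k * c - Real.log (Ideal.absNorm m))))) := by
    intro l k
    by_cases hl : 1 ≤ l
    · obtain ⟨C, hC, h⟩ := moment_le K l k hl η hη
      exact ⟨C, hC, fun _ => h⟩
    · exact ⟨1, le_rfl, fun h => absurd h hl⟩
  choose CM hCM hM using hmom
  set C : ℝ := C1 + ∑ l ∈ Icc 1 J0, ∑ k ∈ Finset.range (K0 + 1), CM l k with hCd
  have hsum0 : 0 ≤ ∑ l ∈ Icc 1 J0, ∑ k ∈ Finset.range (K0 + 1), CM l k :=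
    Finset.sum_nonneg fun l _ => Finset.sum_nonneg fun k _ => zero_le_one.trans (hCM l k)
  have hCC1 : C1 ≤ C := by rw [hCd]; linarith
  have hC : 1 ≤ C := hC1.trans hCC1
  have hC0 : 0 < C := by linarith
  have hCMC : ∀ l ∈ Icc 1 J0, ∀ k ≤ K0, CM l k ≤ C := by
    intro l hl k hk
    have h1 : CM l k ≤ ∑ k ∈ Finset.range (K0 + 1), CM l k :=
      Finset.single_le_sum (f := fun k => CM l k) (fun k _ => zero_le_one.trans (hCM l k))
        (Finset.mem_range.2 (Nat.lt_succ_of_le hk))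
    have h2 : ∑ k ∈ Finset.range (K0 + 1), CM l k ≤
        ∑ l ∈ Icc 1 J0, ∑ k ∈ Finset.range (K0 + 1), CM l k :=
      Finset.single_le_sum (f := fun l => ∑ k ∈ Finset.range (K0 + 1), CM l k)
        (fun l _ => Finset.sum_nonneg fun k _ => zero_le_one.trans (hCM l k)) hl
    rw [hCd]
    linarith
  refine ⟨(2 * C ^ 2) ^ (J0 * 2), ?_, ?_⟩
  · exact one_le_pow₀ (by nlinarith)
  intro L μ m a b ca cb g hμ0 hμN hm hNL hab
  have hL : 0 ≤ L := (hμ0.trans hμN).trans hNL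
  let A : Bool → ℕ → Ideal (𝓞 K) := fun β => if β then a else b
  let cc : Bool → ℕ → ℝ := fun β => if β then ca else cb
  set τ : ℝ := ∑ l ∈ Icc 1 J0, (ca l + cb l) with hτ
  let ι : Type := {l : ℕ // l ∈ Icc 1 J0} × Bool
  let S : ι → Finset (Ideal (𝓞 K)) := fun i => idS m (A i.2 i.1) (cc i.2 i.1)
  let φ : ι → Ideal (𝓞 K) → (𝓞 K ⧸ m)ˣ := fun i x =>
    if i.2 then red m (gn (A i.2 i.1) x) ^ (i.1 : ℕ) else (red m (gn (A i.2 i.1) x) ^ (i.1 : ℕ))⁻¹
  have hcc : ∀ i : ι, 0 ≤ cc i.2 i.1 ∧ cc i.2 i.1 ≤ L ∧ A i.2 i.1 ∈ S i := by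
    rintro ⟨⟨l, hl⟩, β⟩
    have h := hab l hl
    cases β
    · exact ⟨h.2.2.1, h.2.2.2.1, h.2.2.2.2.2⟩
    · exact ⟨h.1, h.2.1, h.2.2.2.2.1⟩
  have hτsum : ∑ i : ι, cc i.2 i.1 = τ := by
    rw [Fintype.sum_prod_type, hτ, ← Finset.sum_coe_sort (Icc 1 J0)]
    refine Finset.sum_congr rfl fun l _ => ?_
    rw [Fintype.sum_bool]
    rfl
  have hcτ : ∀ i : ι, cc i.2 i.1 ≤ τ := by
    intro i
    rw [← hτsum]
    exact Finset.single_le_sum (f := fun i : ι => cc i.2 i.1) (fun j _ => (hcc j).1)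
      (Finset.mem_univ i)
  -- the count
  have hcount : tcount (Icc 1 J0) m a b ca cb g ≤ cntN S φ g := by
    unfold tcount
    refine le_cntN S φ g _
      (fun xy : ({l : ℕ // l ∈ Icc 1 J0} → Ideal (𝓞 K)) × ({l : ℕ // l ∈ Icc 1 J0} → Ideal (𝓞 K)) =>
        fun i : ι => if i.2 then xy.1 i.1 else xy.2 i.1) ?_ ?_
    · rintro ⟨x, y⟩ hxy
      obtain ⟨h1, h2⟩ := (@Finset.mem_filter _ _ _ _ _).1 hxy
      obtain ⟨h3, h4⟩ := Finset.mem_product.1 h1
      rw [Fintype.mem_piFinset] at h3 h4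
      refine ⟨?_, ?_⟩
      · rintro ⟨l, β⟩
        cases β
        · exact h4 l
        · exact h3 l
      · rw [Fintype.prod_prod_type]
        have h5 : ∀ l : {l : ℕ // l ∈ Icc 1 J0},
            (∏ β : Bool, φ (l, β) (if β then x l else y l)) =
              red m (gn (a l) (x l)) ^ (l : ℕ) * (red m (gn (b l) (y l)) ^ (l : ℕ))⁻¹ := by
          intro l
          rw [Fintype.prod_bool]
          rfl
        have h6 : (∏ l : {l : ℕ // l ∈ Icc 1 J0},
            ∏ β : Bool, φ (l, β) (if β then x l else y l)) =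
            prodT (Icc 1 J0) m a x * (prodT (Icc 1 J0) m b y)⁻¹ := by
          rw [Finset.prod_congr rfl fun l _ => h5 l, Finset.prod_mul_distrib,
            Finset.prod_inv_distrib]
          rfl
        refine Eq.trans h6 ?_
        have h7 : prodT (Icc 1 J0) m a x = g * prodT (Icc 1 J0) m b y := h2
        rw [h7, mul_inv_cancel_right]
    · rintro ⟨x, y⟩ - ⟨x', y'⟩ - h
      have h1 : ∀ l, x l = x' l := fun l => congrFun h (l, true)
      have h2 : ∀ l, y l = y' l := fun l => congrFun h (l, false)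
      exact Prod.ext (funext h1) (funext h2)
  -- the items
  have hitem : ∀ i : ι, ∃ (s : ℝ) (k : ℕ), 0 ≤ s ∧ s ≤ 1 ∧ 1 ≤ k ∧
      s / (2 * k) ≤ cc i.2 i.1 / τ ∧
      ((S i).card : ℝ) ^ (1 - s) * (E1 (S i) (φ i) k : ℝ) ^ (s / (2 * k)) ≤
        2 * C ^ 2 * Real.exp (η * L + η * L / 2) *
          Real.exp (cc i.2 i.1 * (1 - min 1 (μ / τ) / 2)) := by
    intro i
    refine item (N := Real.log (Ideal.absNorm m)) (K0 := K0) hC hη hη hL hμ0 hμN hNL (hcc i).1
      (hcτ i) (Nat.cast_nonneg _) ?_ (fun k => Nat.cast_nonneg _) ?_ hK2 hK1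
    · refine (hcard m _ _).trans (mul_le_mul_of_nonneg_right hCC1 (Real.exp_pos _).le)
    · intro k hk
      have hl1 : 1 ≤ (i.1 : ℕ) := (Finset.mem_Icc.1 i.1.2).1
      have h1 := hM i.1 k hl1 L (cc i.2 i.1) m (A i.2 i.1) (hcc i).1 (hcc i).2.1 hm hNL (hcc i).2.2
      have h2 : E1 (S i) (φ i) k = E1 (idS m (A i.2 i.1) (cc i.2 i.1))
          (fun x => red m (gn (A i.2 i.1) x) ^ (i.1 : ℕ)) k := by
        obtain ⟨l, β⟩ := i
        cases β
        · exact E1_inv _ _ _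
        · rfl
      rw [h2]
      refine h1.trans (mul_le_mul_of_nonneg_right (mul_le_mul_of_nonneg_right
        (hCMC i.1 i.1.2 k hk) (Real.exp_pos _).le) (by positivity))
  choose s k hs0 hs1 hk1 hsk hbd using hitem
  have hsum : ∑ i, s i / (2 * k i) ≤ 1 := by
    calc ∑ i, s i / (2 * k i) ≤ ∑ i : ι, cc i.2 i.1 / τ := Finset.sum_le_sum fun i _ => hsk i
      _ = τ / τ := by rw [← Finset.sum_div, hτsum]
      _ ≤ 1 := div_self_le_one τ
  have hfq : Finite (𝓞 K ⧸ m) := Ideal.finiteQuotientOfFreeOfNeBot _ hm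
  have hGH := group_holder S φ s k hs0 hs1 hk1 hsum g
  have hprod : ∏ i, (((S i).card : ℝ) ^ (1 - s i) *
      (E1 (S i) (φ i) (k i) : ℝ) ^ (s i / (2 * k i))) ≤
      ∏ i : ι, (2 * C ^ 2 * Real.exp (η * L + η * L / 2) *
          Real.exp (cc i.2 i.1 * (1 - min 1 (μ / τ) / 2))) := by
    refine Finset.prod_le_prod (fun i _ => ?_) fun i _ => hbd i
    exact mul_nonneg (Real.rpow_nonneg (Nat.cast_nonneg _) _)
      (Real.rpow_nonneg (Nat.cast_nonneg _) _)
  have hcardι : Fintype.card ι = J0 * 2 := by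
    refine (Fintype.card_prod _ _).trans ?_
    rw [Fintype.card_bool, Fintype.card_coe, Nat.card_Icc, Nat.add_sub_cancel]
  have hprod2 : ∏ i : ι, (2 * C ^ 2 * Real.exp (η * L + η * L / 2) *
          Real.exp (cc i.2 i.1 * (1 - min 1 (μ / τ) / 2))) =
      (2 * C ^ 2) ^ (J0 * 2) * Real.exp ((J0 * 2 : ℕ) * (η * L + η * L / 2)) *
        Real.exp (τ * (1 - min 1 (μ / τ) / 2)) := by
    rw [Finset.prod_mul_distrib, Finset.prod_const, Finset.card_univ, hcardι, mul_pow,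
      ← Real.exp_nat_mul, ← Real.exp_sum, ← Finset.sum_mul, hτsum]
  have hτ0 : 0 ≤ τ := by
    rw [← hτsum]
    exact Finset.sum_nonneg fun i _ => (hcc i).1
  have hexp : τ * (1 - min 1 (μ / τ) / 2) ≤ max (τ / 2) (τ - μ / 2) := by
    rcases hτ0.eq_or_lt with h | h
    · rw [← h]
      simp
    · rcases le_total 1 (μ / τ) with h1 | h1
      · rw [min_eq_left h1]
        refine le_trans (le_of_eq ?_) (le_max_left _ _)
        ring
      · rw [min_eq_right h1]
        refine le_trans (le_of_eq ?_) (le_max_right _ _)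
        field_simp
  have hexp2 : ((J0 * 2 : ℕ) : ℝ) * (η * L + η * L / 2) ≤ ε * L := by
    have h1 : (4 * (J0 : ℝ) + 4) * η = ε := by
      rw [hηd]
      field_simp
    push_cast
    have h2 : 0 ≤ η * L := by positivity
    have h3 : 0 ≤ (J0 : ℝ) := Nat.cast_nonneg _
    have h4 : ε * L = (4 * (J0 : ℝ) + 4) * (η * L) := by rw [← h1]; ring
    rw [h4]
    nlinarith
  calc (tcount (Icc 1 J0) m a b ca cb g : ℝ) ≤ cntN S φ g := by exact_mod_cast hcount
    _ ≤ _ := hGH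
    _ ≤ _ := hprod
    _ = _ := hprod2
    _ ≤ (2 * C ^ 2) ^ (J0 * 2) * Real.exp (ε * L) * Real.exp (max (τ / 2) (τ - μ / 2)) := by
        refine mul_le_mul (mul_le_mul_of_nonneg_left (Real.exp_le_exp.2 hexp2) (by positivity))
          (Real.exp_le_exp.2 hexp) (Real.exp_pos _).le (by positivity)

end AbcEM
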