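import Pool.Agent.Work.MP_a793bb_nt.EM.Fibre
import Pool.Agent.Work.MP_a793bb_nt.EM.TupM

/-!
# The bound M

Proof. Let `J0 = ⌈8/ε⌉₊ + 1`, `R = Icc 1 J0`, `η = ε / (16 (J0 + 1))`, `L' = 2 (L + 1)`. Cells: `i_l = ⌊LR s {l} / (η (L + 1))⌋₊`, `i'_l = ⌊LR s⁻¹ {l} / (η (L + 1))⌋₊` for `l ∈ R`; `LR s {l} ≤ LP s univ ≤ hs s ≤ L`, so `i_l, i'_l ≤ 1/η`, and the number of the cells is at most a constant
`(⌊1/η⌋₊ + 1) ^ (2 J0)`. In one cell (nonempty): `ca l = (i_l + 1) η (L + 1)`, `cb l = (i'_l + 1) η (L + 1)`, both `≤ L + η (L + 1) ≤ L'`, `∑ (ca l + cb l) ≤ τ + 2 J0 η (L + 1)` (for one `s` of the cell: `∑_{l ∈ R} LR s {l} ≤ LR s univ`, the sets of primes are disjoint, see `LR_eq_sum`). `LR s Rᶜ = LR s {e | J0 < e} ≤ L / J0`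
(`J0 * LR y {e | J0 < e} ≤ LP y univ ≤ L`, as in `rj_high` of `SidesM.lean`: `lN p ≤ kp p y * lN p / J0`), the same for `s⁻¹`: `αf = βf = L / J0`. `fibre_le` (with `ε / 8`) and `tuple_m` (with `L'`, `ε / 8`; `μ ≤ log N m ≤ L ≤ L'`, `0 ≤ μ`): the cell has at most
`C exp (ε L / 8) exp (ρ + 2 L / J0) * C exp (ε L' / 8) exp (max (τ'/2) (τ' - μ/2))`, `τ' = ∑ (ca + cb) ≤ τ + 2 J0 η (L+1)`, elements; all the errors are `≤ C exp (ε L)`.
-/

set_option autoImplicit false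

namespace AbcEM

open Finset Pool.Agent.Work.MP_a793bb_nt Pool.Agent.Work.MP_a793bb_nt.BPlus NumberField
  IsDedekindDomain Height

private theorem mh_sum {K : Type*} [Field K] [NumberField K] {y : K} (hy : y ≠ 0) (R : Finset ℕ) :
    ∑ l ∈ R, LR y {l} ≤ LR y Set.univ := by
  classical
  rw [LR_eq_sum hy, Finset.sum_congr rfl fun l _ => LR_eq_sum hy {l}, Finset.sum_comm]
  refine Finset.sum_le_sum fun p _ => ?_
  have h0 := (lN_pos p).le
  by_cases hp : 0 < kp p y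
  · rw [if_pos ⟨hp, Set.mem_univ _⟩]
    by_cases hR : (kp p y).toNat ∈ R
    · rw [Finset.sum_eq_single (kp p y).toNat]
      · rw [if_pos ⟨hp, rfl⟩]
      · intro l _ hl
        rw [if_neg]
        rintro ⟨-, h⟩
        exact hl (Set.mem_singleton_iff.1 h).symm
      · intro h
        exact absurd hR h
    · rw [Finset.sum_eq_zero]
      · exact h0
      · intro l hl
        rw [if_neg]
        rintro ⟨-, h⟩
        have h2 : (kp p y).toNat = l := h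
        exact hR (h2 ▸ hl)
  · rw [Finset.sum_eq_zero]
    · split_ifs
      · exact h0
      · exact le_rfl
    · intro l _
      rw [if_neg]
      rintro ⟨h, -⟩
      exact hp h

private theorem mh_single {K : Type*} [Field K] [NumberField K] {y : K} (hy : y ≠ 0) (l : ℕ) :
    LR y {l} ≤ LR y Set.univ := by
  have h := mh_sum hy {l}
  rwa [Finset.sum_singleton] at h

private theorem mh_LP {K : Type*} [Field K] [NumberField K] {y : K} (hy : y ≠ 0) :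
    LR y Set.univ ≤ LP y Set.univ := by
  classical
  have hT : ∀ p ∈ Zp y, p ∈ (finite_Zp hy).toFinset := fun p hp => by simpa using hp
  rw [LR_eq_sum hy, LP_eq hy Set.univ _ hT]
  refine Finset.sum_le_sum fun p _ => ?_
  rw [lpt]
  split_ifs with h
  · have h2 : (1 : ℝ) ≤ (kp p y : ℝ) := by exact_mod_cast h.1
    have h3 := lN_pos p
    nlinarith
  · exact le_rfl

private theorem mh_high {K : Type*} [Field K] [NumberField K] {y : K} (hy : y ≠ 0) (J0 : ℕ) :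
    (J0 : ℝ) * LR y ((Icc 1 J0 : Finset ℕ) : Set ℕ)ᶜ ≤ LP y Set.univ := by
  classical
  have hT : ∀ p ∈ Zp y, p ∈ (finite_Zp hy).toFinset := fun p hp => by simpa using hp
  rw [LR_eq_sum hy, LP_eq hy Set.univ _ hT, Finset.mul_sum]
  refine Finset.sum_le_sum fun p _ => ?_
  have h0 := lN_pos p
  by_cases h : 0 < kp p y ∧ (kp p y).toNat ∈ ((Icc 1 J0 : Finset ℕ) : Set ℕ)ᶜ
  · rw [if_pos h, lpt, if_pos ⟨h.1, Set.mem_univ _⟩]
    refine mul_le_mul_of_nonneg_right ?_ h0.le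
    have h1 : ¬ (kp p y).toNat ∈ Icc 1 J0 := fun h2 => h.2 (by exact_mod_cast h2)
    rw [Finset.mem_Icc] at h1
    have h2 : (J0 : ℤ) ≤ kp p y := by
      have h3 := h.1
      omega
    exact_mod_cast h2
  · rw [if_neg h, mul_zero]
    exact lpt_nonneg y Set.univ p

private theorem mh_exp (C1 C2 a b c d : ℝ) :
    C1 * Real.exp a * Real.exp b * (C2 * Real.exp c * Real.exp d) =
      C1 * C2 * Real.exp (a + b + c + d) := by
  rw [Real.exp_add, Real.exp_add, Real.exp_add]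
  ring

theorem mhalf_count (K : Type*) [Field K] [NumberField K] (E : Set ℕ) (ε : ℝ) (hε : 0 < ε) :
    ∃ C : ℝ, 1 ≤ C ∧ ∀ L ρ τ μ : ℝ, 0 ≤ L → 0 ≤ μ → ∀ F : Finset K,
      (∀ s ∈ F, s ≠ 0 ∧ 1 + s ≠ 0 ∧ hs s ≤ L ∧ LR (1 + s) E ≤ ρ ∧ μ ≤ LP (1 + s) E ∧
        LR s Set.univ + LR s⁻¹ Set.univ ≤ τ) →
      (F.card : ℝ) ≤ C * Real.exp (ε * L) * Real.exp (ρ + max (τ / 2) (τ - μ / 2)) := by
  classical
  obtain ⟨J0, hJ0⟩ : ∃ J0 : ℕ, J0 = ⌈8 / ε⌉₊ + 1 := ⟨_, rfl⟩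
  have hJ1 : (8 : ℝ) / ε ≤ J0 := by
    rw [hJ0]
    push_cast
    have := Nat.le_ceil (8 / ε)
    linarith
  have hJpos : (0 : ℝ) < J0 := lt_of_lt_of_le (by positivity) hJ1
  have hR0 : 0 ∉ Icc 1 J0 := by simp
  obtain ⟨η, hη⟩ : ∃ η : ℝ, η = min 1 (ε / (16 * (J0 + 1))) := ⟨_, rfl⟩
  have hη0 : 0 < η := by
    rw [hη]
    exact lt_min one_pos (by positivity)
  have hη1 : η ≤ 1 := by
    rw [hη]
    exact min_le_left _ _
  have hη2 : 2 * J0 * η ≤ ε / 8 := by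
    have h1 : η ≤ ε / (16 * (J0 + 1)) := by
      rw [hη]
      exact min_le_right _ _
    calc 2 * (J0 : ℝ) * η ≤ 2 * J0 * (ε / (16 * (J0 + 1))) := by
          exact mul_le_mul_of_nonneg_left h1 (by positivity)
      _ = ε / 8 * (J0 / (J0 + 1)) := by
          field_simp
          ring
      _ ≤ ε / 8 * 1 := by
          refine mul_le_mul_of_nonneg_left ?_ (by positivity)
          rw [div_le_one (by positivity)]
          linarith
      _ = ε / 8 := mul_one _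
  obtain ⟨C1, hC1, H1⟩ := fibre_le K (Icc 1 J0) hR0 E (ε / 8) (by linarith)
  obtain ⟨C2, hC2, H2⟩ := tuple_m K J0 (ε / 8) (by linarith)
  obtain ⟨M, hM⟩ : ∃ M : ℕ, M = ⌊1 / η⌋₊ := ⟨_, rfl⟩
  obtain ⟨Cn, hCn⟩ : ∃ Cn : ℕ, Cn =
    (Fintype.piFinset (fun _ : (Icc 1 J0 : Finset ℕ) => range (M + 1) ×ˢ range (M + 1))).card :=
      ⟨_, rfl⟩
  have hCn1 : (1 : ℝ) ≤ Cn := by
    have h1 : 0 < Cn := by
      rw [hCn, Finset.card_pos]
      exact ⟨fun _ => (0, 0), by simp⟩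
    exact_mod_cast h1
  have hexp1 : 1 ≤ Real.exp (ε * (3 / 8)) := Real.one_le_exp (by positivity)
  refine ⟨Cn * (C1 * C2 * Real.exp (ε * (3 / 8))), ?_, fun L ρ τ μ hL hμ F hF => ?_⟩
  · exact one_le_mul_of_one_le_of_one_le hCn1
      (one_le_mul_of_one_le_of_one_le (one_le_mul_of_one_le_of_one_le hC1 hC2) hexp1)
  have hw : 0 < η * (L + 1) := by positivity
  -- the cell of an element
  let cell : K → (Icc 1 J0 : Finset ℕ) → ℕ × ℕ := fun s l =>
    (⌊LR s {(l : ℕ)} / (η * (L + 1))⌋₊, ⌊LR s⁻¹ {(l : ℕ)} / (η * (L + 1))⌋₊)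
  have hbd : ∀ s ∈ F, ∀ l : ℕ, LR s {l} ≤ L ∧ LR s⁻¹ {l} ≤ L := by
    intro s hs l
    obtain ⟨a1, a2, a3, -, -, -⟩ := hF s hs
    exact ⟨((mh_single a1 l).trans (mh_LP a1)).trans ((LP_side_a a1 _).trans a3),
      ((mh_single (inv_ne_zero a1) l).trans (mh_LP (inv_ne_zero a1))).trans
        ((LP_side_b a1 _).trans a3)⟩
  have hnn : ∀ (y : K) (S : Set ℕ), 0 ≤ LR y S := fun y S => Rs_nonneg _
  have hfl : ∀ x : ℝ, x ≤ L → ⌊x / (η * (L + 1))⌋₊ < M + 1 := by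
    intro x hx
    have h1 : x / (η * (L + 1)) ≤ 1 / η := by
      rw [div_le_div_iff₀ hw hη0]
      nlinarith
    have h2 := Nat.floor_le_floor h1
    rw [← hM] at h2
    omega
  have hcell : ∀ s ∈ F, cell s ∈
      Fintype.piFinset (fun _ : (Icc 1 J0 : Finset ℕ) => range (M + 1) ×ˢ range (M + 1)) := by
    intro s hs
    rw [Fintype.mem_piFinset]
    intro l
    rw [Finset.mem_product, Finset.mem_range, Finset.mem_range]
    exact ⟨hfl _ (hbd s hs l).1, hfl _ (hbd s hs l).2⟩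
  have hfib : ∀ b ∈ Fintype.piFinset
      (fun _ : (Icc 1 J0 : Finset ℕ) => range (M + 1) ×ˢ range (M + 1)),
      ((F.filter (fun s => cell s = b)).card : ℝ) ≤ C1 * C2 * Real.exp (ε * (3 / 8)) *
        (Real.exp (ε * L) * Real.exp (ρ + max (τ / 2) (τ - μ / 2))) := by
    intro b _
    rcases (F.filter (fun s => cell s = b)).eq_empty_or_nonempty with hemp | ⟨s₁, hs₁⟩
    · rw [hemp, Finset.card_empty, Nat.cast_zero]
      positivity
    obtain ⟨hs₁F, hs₁b⟩ := mem_filter.1 hs₁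
    let ca : ℕ → ℝ := fun l => ((⌊LR s₁ {l} / (η * (L + 1))⌋₊ : ℝ) + 1) * (η * (L + 1))
    let cb : ℕ → ℝ := fun l => ((⌊LR s₁⁻¹ {l} / (η * (L + 1))⌋₊ : ℝ) + 1) * (η * (L + 1))
    have hca0 : ∀ l, 0 ≤ ca l ∧ 0 ≤ cb l := fun l => ⟨by positivity, by positivity⟩
    have hup : ∀ x : ℝ, 0 ≤ x → ((⌊x / (η * (L + 1))⌋₊ : ℝ) + 1) * (η * (L + 1)) ≤
        x + η * (L + 1) := by
      intro x hx
      have h1 := Nat.floor_le (div_nonneg hx hw.le)
      have h2 : (⌊x / (η * (L + 1))⌋₊ : ℝ) * (η * (L + 1)) ≤ x := by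
        rw [← le_div_iff₀ hw]
        exact h1
      nlinarith
    have hca1 : ∀ l, ca l ≤ LR s₁ {l} + η * (L + 1) ∧ cb l ≤ LR s₁⁻¹ {l} + η * (L + 1) :=
      fun l => ⟨hup _ (hnn _ _), hup _ (hnn _ _)⟩
    have hwL : η * (L + 1) ≤ L + 1 := by nlinarith
    have hcaL : ∀ l, ca l ≤ 2 * (L + 1) ∧ cb l ≤ 2 * (L + 1) := by
      intro l
      have h1 := hca1 l
      have h2 := hbd s₁ hs₁F l
      constructor <;> linarith [h1.1, h1.2, h2.1, h2.2]
    have hle : ∀ s ∈ F.filter (fun s => cell s = b), ∀ l ∈ Icc 1 J0,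
        LR s {l} ≤ ca l ∧ LR s⁻¹ {l} ≤ cb l := by
      intro s hs l hl
      obtain ⟨hsF, hsb⟩ := mem_filter.1 hs
      have h1 : cell s ⟨l, hl⟩ = cell s₁ ⟨l, hl⟩ := by rw [hsb, hs₁b]
      have h2 : ⌊LR s {l} / (η * (L + 1))⌋₊ = ⌊LR s₁ {l} / (η * (L + 1))⌋₊ :=
        congrArg Prod.fst h1
      have h3 : ⌊LR s⁻¹ {l} / (η * (L + 1))⌋₊ = ⌊LR s₁⁻¹ {l} / (η * (L + 1))⌋₊ :=
        congrArg Prod.snd h1
      have h4 := (Nat.lt_floor_add_one (LR s {l} / (η * (L + 1)))).le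
      have h5 := (Nat.lt_floor_add_one (LR s⁻¹ {l} / (η * (L + 1)))).le
      rw [h2, div_le_iff₀ hw] at h4
      rw [h3, div_le_iff₀ hw] at h5
      exact ⟨h4, h5⟩
    obtain ⟨τ', hτ'⟩ : ∃ τ' : ℝ, τ' = ∑ l ∈ Icc 1 J0, (ca l + cb l) := ⟨_, rfl⟩
    have hτ : τ' ≤ τ + ε / 8 * (L + 1) := by
      obtain ⟨a1, a2, a3, a4, a5, a6⟩ := hF s₁ hs₁F
      have h1 : τ' ≤ ∑ l ∈ Icc 1 J0, ((LR s₁ {l} + LR s₁⁻¹ {l}) + 2 * (η * (L + 1))) := by
        rw [hτ']
        refine Finset.sum_le_sum fun l _ => ?_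
        have h2 := hca1 l
        linarith [h2.1, h2.2]
      rw [Finset.sum_add_distrib, Finset.sum_add_distrib, Finset.sum_const, Nat.card_Icc,
        nsmul_eq_mul, Nat.add_sub_cancel] at h1
      have h2 := mh_sum a1 (Icc 1 J0)
      have h3 := mh_sum (inv_ne_zero a1) (Icc 1 J0)
      have h4 : (J0 : ℝ) * (2 * (η * (L + 1))) ≤ ε / 8 * (L + 1) := by
        have h5 : (J0 : ℝ) * (2 * (η * (L + 1))) = 2 * J0 * η * (L + 1) := by ring
        rw [h5]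
        exact mul_le_mul_of_nonneg_right hη2 (by linarith)
      linarith
    have hμL : μ ≤ L := by
      obtain ⟨a1, a2, a3, a4, a5, a6⟩ := hF s₁ hs₁F
      exact a5.trans ((LP_side_c a2 E).trans a3)
    have hαβ : ∀ y : K, y ≠ 0 → LP y Set.univ ≤ L →
        LR y ((Icc 1 J0 : Finset ℕ) : Set ℕ)ᶜ ≤ L / J0 := by
      intro y hy hyL
      rw [le_div_iff₀ hJpos, mul_comm]
      exact (mh_high hy J0).trans hyL
    have key := H1 L ρ μ (L / J0) (L / J0) (C2 * Real.exp (ε / 8 * (2 * (L + 1))) *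
      Real.exp (max (τ' / 2) (τ' - μ / 2))) ca cb hL (by positivity)
      (F.filter (fun s => cell s = b)) (fun s hs => by
        obtain ⟨hsF, hsb⟩ := mem_filter.1 hs
        obtain ⟨a1, a2, a3, a4, a5, a6⟩ := hF s hsF
        exact ⟨a1, a2, a3, a4, a5, hαβ s a1 ((LP_side_a a1 _).trans a3),
          hαβ s⁻¹ (inv_ne_zero a1) ((LP_side_b a1 _).trans a3), hle s hs⟩)
      (fun m a b' g hm h1 h2 h3 => by
        have h4 := H2 (2 * (L + 1)) μ m a b' ca cb g hμ h1 hm (by linarith)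
          (fun l hl => ⟨(hca0 l).1, (hcaL l).1, (hca0 l).2, (hcaL l).2, (h3 l hl).1,
            (h3 l hl).2⟩)
        rw [← hτ'] at h4
        exact h4)
    refine key.trans ?_
    have e1 : C1 * Real.exp (ε / 8 * L) * Real.exp (ρ + L / J0 + L / J0) *
        (C2 * Real.exp (ε / 8 * (2 * (L + 1))) * Real.exp (max (τ' / 2) (τ' - μ / 2))) =
        C1 * C2 * Real.exp (ε / 8 * L + (ρ + L / J0 + L / J0) + ε / 8 * (2 * (L + 1)) +
          max (τ' / 2) (τ' - μ / 2)) := mh_exp _ _ _ _ _ _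
    have e2 : C1 * C2 * Real.exp (ε * (3 / 8)) *
        (Real.exp (ε * L) * Real.exp (ρ + max (τ / 2) (τ - μ / 2))) =
        C1 * C2 * Real.exp (ε * (3 / 8) + (ε * L + (ρ + max (τ / 2) (τ - μ / 2)))) := by
      rw [Real.exp_add (ε * (3 / 8)), Real.exp_add (ε * L)]
      ring
    rw [e1, e2]
    refine mul_le_mul_of_nonneg_left (Real.exp_le_exp.2 ?_) (by positivity)
    have h5 : L / J0 ≤ ε / 8 * L := by
      rw [div_le_iff₀ hJpos]
      have h6 : 1 ≤ ε / 8 * J0 := by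
        have h7 := mul_le_mul_of_nonneg_left hJ1 (by positivity : 0 ≤ ε / 8)
        have h8 : ε / 8 * (8 / ε) = 1 := by field_simp
        linarith
      nlinarith
    have h9 : max (τ' / 2) (τ' - μ / 2) ≤ max (τ / 2) (τ - μ / 2) + ε / 8 * (L + 1) := by
      apply max_le
      · have h10 := le_max_left (τ / 2) (τ - μ / 2)
        have h11 : 0 ≤ ε / 8 * (L + 1) := by positivity
        linarith
      · have h10 := le_max_right (τ / 2) (τ - μ / 2)
        linarith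
    have h12 : 0 ≤ ε * L := by positivity
    nlinarith
  have hfin := card_le_fib F _ cell (M1 := Cn) (M2 := C1 * C2 * Real.exp (ε * (3 / 8)) *
    (Real.exp (ε * L) * Real.exp (ρ + max (τ / 2) (τ - μ / 2)))) (by positivity) hcell
    (by rw [hCn]) hfib
  refine hfin.trans (le_of_eq ?_)
  ring

end AbcEM
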