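import Pool.Agent.Work.MP_a793bb_nt.EM.TDefs
import Pool.Agent.Work.MP_a793bb_nt.EM.MHalf
import Pool.Agent.Work.MP_a793bb_nt.OrdM.SidesM

/-!
# The bounds M

Proof. `s = sOf q t` for `t ∈ F` (injective), `E = Eset T`, `Λ = log (2 Y) > 0`, `L = Λ`: `1 + s ~ side q`, `s ~ side (q + 1)`, `s⁻¹ ~ side (q + 2)` (`SameNum` in `Sides.lean`, `LR_a, LR_b, LR_c`). `LR (1 + s) E = ∑_{c ∈ T} LRc (side q t) c ≤ rhoW q T W * Λ = ρ` (`LR_Eset`). `LP (1 + s) E ≥ ∑_{c ∈ T} (c + 1) LRc (side q t) c ≥ (muW q T W - 15 η) Λ`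
(an exponent of class `c` is `≥ c + 1`; `hWl`; `∑ (c+1) = 15`; `LP` of the side in terms of `lpt`, as in `sum_LRc_le`, `SameNum.LP_eq`), and it is `≥ 0`: `μ = max 0 ((muW - 15 η) Λ)`. `LR s univ + LR s⁻¹ univ ≤ tauW q W * Λ = τ` (`LR_univ_eq`). `mhalf_count`: `#F ≤ C exp (ε Λ) exp (ρ + max (τ/2) (τ - μ/2))`, and `τ - μ / 2 ≤ (tauW - muW / 2 + 15 η / 2) Λ`.
`exp (ε Λ) = (2 Y) ^ ε = 2 ^ ε Y ^ ε`.
-/

set_option autoImplicit false

namespace AbcEM

open Finset Pool.Agent.Work.MP_a793bb_nt Pool.Agent.Work.MP_a793bb_nt.BPlus NumberField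
  IsDedekindDomain Height

open AbcOrdM AbcRadK

private lemma tlm_LP_ge {K : Type*} [Field K] [NumberField K] {y : K} (hy : y ≠ 0)
    (R : Fin 5 → Bool) :
    (∑ c : Fin 5, if R c = true then ((c : ℕ) + 1 : ℝ) * LRc y c else 0) ≤ LP y (Eset R) := by
  classical
  have hT : ∀ p ∈ Zp y, p ∈ (finite_Zp hy).toFinset := fun p hp => by simpa using hp
  rw [LP_eq hy (Eset R) _ hT]
  have h1 : (∑ c : Fin 5, if R c = true then ((c : ℕ) + 1 : ℝ) * LRc y c else 0) =
      ∑ c : Fin 5, ∑ p ∈ (finite_Zp hy).toFinset,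
        if R c = true ∧ 0 < kp p y ∧ cls (kp p y).toNat = c then ((c : ℕ) + 1 : ℝ) * lN p
          else 0 := by
    refine Finset.sum_congr rfl fun c _ => ?_
    rw [LRc, LR_eq_sum hy, Finset.mul_sum]
    by_cases h : R c = true
    · simp [h]
    · simp [h]
  rw [h1]
  rw [Finset.sum_comm]
  refine Finset.sum_le_sum fun p _ => ?_
  by_cases h2 : 0 < kp p y
  · rw [Finset.sum_eq_single (cls (kp p y).toNat)]
    · simp only [h2, true_and, and_true, lpt, Eset, Set.mem_ofPred_eq]
      by_cases h3 : R (cls (kp p y).toNat) = true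
      · rw [if_pos h3, if_pos h3]
        apply mul_le_mul_of_nonneg_right _ (lN_pos p).le
        have h5 : ((cls (kp p y).toNat : ℕ) : ℤ) + 1 ≤ kp p y := by
          simp only [cls]
          omega
        exact_mod_cast h5
      · rw [if_neg h3, if_neg h3]
    · intro c _ hc
      rw [if_neg]
      rintro ⟨-, -, h⟩
      exact hc h.symm
    · simp
  · simp [h2, lpt]

private lemma tlm_LR_univ {K : Type*} [Field K] [NumberField K] {y : K} (hy : y ≠ 0) :
    LR y Set.univ = ∑ c : Fin 5, LRc y c := by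
  have h1 : (Set.univ : Set ℕ) = Eset (fun _ => true) := by
    ext e
    simp [Eset]
  rw [h1, LR_Eset hy]
  simp

private lemma tlm_tau (q : Fin 3) (W : Fin 3 → Fin 5 → ℝ) :
    tauW q W = (∑ c, W (q + 1) c) + ∑ c, W (q + 2) c := by
  unfold tauW
  rw [Fin.sum_univ_three]
  fin_cases q
  · simp only [Fin.zero_eta, Fin.isValue, if_true]
    rw [if_neg (by decide), if_neg (by decide), zero_add]
    rfl
  · rw [if_neg (by decide), if_pos (by decide), if_neg (by decide), add_zero, add_comm]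
    rfl
  · rw [if_neg (by decide), if_neg (by decide), if_pos (by decide), add_zero]
    rfl

theorem tl_M (K : Type*) [Field K] [NumberField K] (q : Fin 3) (T : Fin 5 → Bool) :
    TlBound K (.inr (.inr (.inl (q, T)))) := by
  classical
  intro ε hε
  obtain ⟨C, hC1, hC⟩ := mhalf_count K (Eset T) ε hε
  refine ⟨C * 2 ^ ε, ?_, ?_⟩
  · have : (1 : ℝ) ≤ 2 ^ ε := Real.one_le_rpow (by norm_num) hε.le
    nlinarith
  intro Y hY W η hη F hF
  have hY0 : 0 < Y := by linarith
  obtain ⟨Λ, hΛ⟩ : ∃ Λ, Λ = Real.log (2 * Y) := ⟨_, rfl⟩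
  have hΛ0 : 0 ≤ Λ := by
    rw [hΛ]
    exact Real.log_nonneg (by linarith)
  have hinj : Set.InjOn (sOf q : K → K) F := fun t ht t' ht' h =>
    sOf_injective q (hF t ht).n1 (hF t' ht').n1 h
  have hmain := hC Λ (rhoW q T W * Λ) (tauW q W * Λ) (max 0 ((muW q T W - 15 * η) * Λ)) hΛ0
    (le_max_left _ _) (F.image (sOf q)) ?_
  · rw [Finset.card_image_of_injOn hinj] at hmain
    refine hmain.trans ?_
    have h1 : Real.exp (ε * Λ) = 2 ^ ε * Y ^ ε := by
      rw [← Real.mul_rpow (by norm_num) hY0.le, Real.rpow_def_of_pos (by linarith), hΛ, mul_comm]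
    rw [h1]
    have h2 : rhoW q T W * Λ + max (tauW q W * Λ / 2)
        (tauW q W * Λ - max 0 ((muW q T W - 15 * η) * Λ) / 2) ≤
        (costT (.inr (.inr (.inl (q, T)))) W + 20 * η) * Real.log (2 * Y) := by
      rw [← hΛ]
      show _ ≤ (mCost q T W + 20 * η) * Λ
      unfold mCost
      have h3 : max (tauW q W * Λ / 2)
          (tauW q W * Λ - max 0 ((muW q T W - 15 * η) * Λ) / 2) ≤
          (max (tauW q W / 2) (tauW q W - muW q T W / 2) + 20 * η) * Λ := by
        have h4 : 0 ≤ η * Λ := mul_nonneg hη hΛ0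
        refine max_le ?_ ?_
        · have h5 := mul_le_mul_of_nonneg_right
            (le_max_left (tauW q W / 2) (tauW q W - muW q T W / 2)) hΛ0
          nlinarith
        · have h5 := mul_le_mul_of_nonneg_right
            (le_max_right (tauW q W / 2) (tauW q W - muW q T W / 2)) hΛ0
          have h6 := le_max_right 0 ((muW q T W - 15 * η) * Λ)
          nlinarith
      nlinarith
    have h3 : 0 ≤ C * (2 ^ ε * Y ^ ε) := by positivity
    calc C * (2 ^ ε * Y ^ ε) * Real.exp (rhoW q T W * Λ + max (tauW q W * Λ / 2)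
          (tauW q W * Λ - max 0 ((muW q T W - 15 * η) * Λ) / 2))
        ≤ C * (2 ^ ε * Y ^ ε) * Real.exp
          ((costT (.inr (.inr (.inl (q, T)))) W + 20 * η) * Real.log (2 * Y)) :=
          mul_le_mul_of_nonneg_left (Real.exp_le_exp.2 h2) h3
      _ = _ := by ring
  · intro s hs'
    obtain ⟨t, ht, rfl⟩ := Finset.mem_image.1 hs'
    have hb := hF t ht
    have h0 := hb.n0
    have h1 := hb.n1
    have hy := side_ne_zero h0 h1
    refine ⟨sOf_ne_zero h0 h1 q, one_add_sOf_ne_zero h0 h1 q, ?_, ?_, ?_, ?_⟩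
    · rw [hs_sOf h0 h1, hΛ]
      exact hb.up
    · rw [LR_c h0 h1]
      unfold rj
      rw [LR_Eset (hy q)]
      unfold rhoW
      rw [Finset.sum_mul]
      refine Finset.sum_le_sum fun c _ => ?_
      split_ifs
      · rw [hΛ]
        exact hb.hW q c
      · rw [zero_mul]
    · rw [(sameNum_c h0 h1 q).LP_eq]
      have h2 := tlm_LP_ge (hy q) T
      have h3 : (muW q T W - 15 * η) * Λ ≤
          ∑ c : Fin 5, if T c = true then ((c : ℕ) + 1 : ℝ) * LRc (side q t) c else 0 := by
        have h4 : muW q T W - 15 * η ≤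
            ∑ c : Fin 5, if T c = true then ((c : ℕ) + 1 : ℝ) * (W q c - η) else 0 := by
          unfold muW
          have h5 : (15 : ℝ) * η = ∑ c : Fin 5, ((c : ℕ) + 1 : ℝ) * η := by
            rw [Fin.sum_univ_five]
            norm_num
            ring
          rw [h5, ← Finset.sum_sub_distrib]
          refine Finset.sum_le_sum fun c _ => ?_
          split_ifs
          · rw [mul_sub]
          · have : (0 : ℝ) ≤ ((c : ℕ) + 1 : ℝ) * η := by positivity
            linarith
        refine (mul_le_mul_of_nonneg_right h4 hΛ0).trans ?_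
        rw [Finset.sum_mul]
        refine Finset.sum_le_sum fun c _ => ?_
        split_ifs
        · rw [mul_assoc]
          refine mul_le_mul_of_nonneg_left ?_ (by positivity)
          rw [hΛ]
          exact hb.hWl q c
        · rw [zero_mul]
      refine max_le ?_ (h3.trans h2)
      refine le_trans (Finset.sum_nonneg fun c _ => ?_) h2
      split_ifs
      · exact mul_nonneg (by positivity) (LRc_nonneg _ _)
      · exact le_rfl
    · rw [LR_a h0 h1, LR_b h0 h1]
      unfold rj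
      rw [tlm_LR_univ (hy _), tlm_LR_univ (hy _), tlm_tau, add_mul, Finset.sum_mul, Finset.sum_mul]
      refine add_le_add (Finset.sum_le_sum fun c _ => ?_) (Finset.sum_le_sum fun c _ => ?_)
      · rw [hΛ]
        exact hb.hW _ c
      · rw [hΛ]
        exact hb.hW _ c

end AbcEM
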