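import Pool.Agent.Work.MP_a793bb_nt.EM.SideR
import Pool.Agent.Work.MP_a793bb_nt.EM.ECs

/-!
# Solutions with the exponents one, two, three

Proof. `energy_cs` with `S`, `T` the two `piFinset`, `A = prodT .. a`, `B = prodT .. b`: `tcount ^ 2 ≤ E1 * E1`, and `side_r` for both (with `ε` each), take the square root.
-/

set_option autoImplicit false

namespace AbcEM

open Finset Pool.Agent.Work.MP_a793bb_nt Pool.Agent.Work.MP_a793bb_nt.BPlus NumberField
  IsDedekindDomain Height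

private theorem card_filter_inst {α : Type*} (s : Finset α) (p : α → Prop)
    (i1 i2 : DecidablePred p) :
    (@Finset.filter α p i1 s).card = (@Finset.filter α p i2 s).card := by
  rw [Subsingleton.elim i1 i2]

theorem tuple_r (K : Type*) [Field K] [NumberField K] (ε : ℝ) (hε : 0 < ε) :
    ∃ C : ℝ, 1 ≤ C ∧ ∀ (L μ : ℝ) (m : Ideal (𝓞 K)) (a b : ℕ → Ideal (𝓞 K)) (ca cb : ℕ → ℝ)
      (pa pb : Bool) (g : (𝓞 K ⧸ m)ˣ), 0 ≤ μ → μ ≤ Real.log (Ideal.absNorm m) → m ≠ ⊥ →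
      Real.log (Ideal.absNorm m) ≤ L →
      (∀ l ∈ Icc 1 3, 0 ≤ ca l ∧ ca l ≤ L ∧ 0 ≤ cb l ∧ cb l ≤ L ∧
        a l ∈ idS m (a l) (ca l) ∧ b l ∈ idS m (b l) (cb l)) →
      (tcount (Icc 1 3) m a b ca cb g : ℝ) ≤ C * Real.exp (ε * L) *
        Real.exp (rSide pa (ca 1) (ca 2) (ca 3) μ + rSide pb (cb 1) (cb 2) (cb 3) μ) := by
  classical
  obtain ⟨C, hC, h⟩ := side_r K ε hε
  refine ⟨C, hC, fun L μ m a b ca cb pa pb g hμ0 hμ hm hL hab => ?_⟩
  have hA := h L μ m a ca pa hμ0 hμ hm hL fun l hl =>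
    ⟨(hab l hl).1, (hab l hl).2.1, (hab l hl).2.2.2.2.1⟩
  have hB := h L μ m b cb pb hμ0 hμ hm hL fun l hl =>
    ⟨(hab l hl).2.2.1, (hab l hl).2.2.2.1, (hab l hl).2.2.2.2.2⟩
  have hcs := energy_cs (Fintype.piFinset fun l : (Icc 1 3 : Finset ℕ) => idS m (a l) (ca l))
    (Fintype.piFinset fun l : (Icc 1 3 : Finset ℕ) => idS m (b l) (cb l))
    (prodT (Icc 1 3) m a) (prodT (Icc 1 3) m b) g
  have hC0 : 0 < C := lt_of_lt_of_le one_pos hC
  have hE := hcs.trans (mul_le_mul hA hB (Nat.cast_nonneg _) (by positivity))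
  have e1 : (C * Real.exp (ε * L) * Real.exp (2 * rSide pa (ca 1) (ca 2) (ca 3) μ)) *
        (C * Real.exp (ε * L) * Real.exp (2 * rSide pb (cb 1) (cb 2) (cb 3) μ)) =
      (C * Real.exp (ε * L) *
        Real.exp (rSide pa (ca 1) (ca 2) (ca 3) μ + rSide pb (cb 1) (cb 2) (cb 3) μ)) ^ 2 := by
    have e2 : Real.exp (2 * rSide pa (ca 1) (ca 2) (ca 3) μ) *
        Real.exp (2 * rSide pb (cb 1) (cb 2) (cb 3) μ) =
        Real.exp (rSide pa (ca 1) (ca 2) (ca 3) μ + rSide pb (cb 1) (cb 2) (cb 3) μ) ^ 2 := by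
      rw [← Real.exp_add, ← Real.exp_nat_mul]
      congr 1
      push_cast
      ring
    rw [mul_pow, ← e2]
    ring
  rw [e1] at hE
  have hfin := (abs_le_of_sq_le_sq' hE (by positivity)).2
  exact le_trans (le_of_eq (congrArg Nat.cast (card_filter_inst _ _ _ _))) hfin

end AbcEM
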