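import Pool.Agent.Work.MP_a793bb_nt.EM.Fibre
import Pool.Agent.Work.MP_a793bb_nt.EM.TupR

/-!
# The bound R

Proof. If `F` is empty, clear. Replace `ca l`, `cb l` by `min (ca l) L`, `min (cb l) L` (`LR s {l} ≤ hs s ≤ L`; `rSide` is increasing in the first three variables on `[0, ∞)`, so the bound gets smaller). `fibre_le` with `R = Icc 1 3`, `E = {e | 2 ≤ e}`; `LR s (Icc 1 3)ᶜ = LR s {e | 4 ≤ e}` (the exponent `0` does not occur). The hypothesis on
`tcount` is `tuple_r` with `Bd = C exp (ε L / 2) exp (rSide .. + rSide ..)` (`rSide` is decreasing in `mu`, `tuple_r` is stated with `μ ≤ log N m`).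
-/

set_option autoImplicit false

namespace AbcEM

open Finset Pool.Agent.Work.MP_a793bb_nt Pool.Agent.Work.MP_a793bb_nt.BPlus NumberField
  IsDedekindDomain Height

private theorem LR_le_LP {K : Type*} [Field K] [NumberField K] {y : K} (hy : y ≠ 0) (E : Set ℕ) :
    LR y E ≤ LP y E := by
  rw [← log_absNorm_radical_partI hy, ← log_absNorm_partI hy]
  have h0 := partI_ne_bot hy E
  have h1 : (partI y E).radical ≠ ⊥ := fun h => h0 (le_bot_iff.1 (h ▸ Ideal.le_radical))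
  have h2 : Ideal.absNorm (partI y E).radical ∣ Ideal.absNorm (partI y E) :=
    Ideal.absNorm_dvd_absNorm_of_le Ideal.le_radical
  have h3 : 0 < Ideal.absNorm (partI y E) :=
    Nat.pos_of_ne_zero fun h => h0 (Ideal.absNorm_eq_zero_iff.mp h)
  exact Real.log_le_log (absNorm_pos' h1) (by exact_mod_cast Nat.le_of_dvd h3 h2)

private theorem LR_compl {K : Type*} [Field K] [NumberField K] (y : K) :
    LR y ((Icc 1 3 : Finset ℕ) : Set ℕ)ᶜ = LR y {e | 4 ≤ e} := by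
  unfold LR
  congr 1
  ext p
  simp only [Set.mem_setOf_eq, Set.mem_compl_iff, Finset.mem_coe, Finset.mem_Icc]
  constructor
  · rintro ⟨h1, h2⟩
    refine ⟨h1, ?_⟩
    omega
  · rintro ⟨h1, h2⟩
    refine ⟨h1, ?_⟩
    omega

private theorem rSide_mono (pa : Bool) {u u' m m' v v' : ℝ} (mu : ℝ) (hu : u ≤ u') (hm : m ≤ m')
    (hv : v ≤ v') : rSide pa u m v mu ≤ rSide pa u' m' v' mu := by
  unfold rSide
  have h1 : max (2 * u) (4 * u - mu) ≤ max (2 * u') (4 * u' - mu) :=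
    max_le_max (by linarith) (by linarith)
  have h2 : max (4 * m) (8 * m - mu) ≤ max (4 * m') (8 * m' - mu) :=
    max_le_max (by linarith) (by linarith)
  have h3 : max (4 * v) (8 * v - mu) ≤ max (4 * v') (8 * v' - mu) :=
    max_le_max (by linarith) (by linarith)
  have h4 : max 0 (4 * v - mu / 2) ≤ max 0 (4 * v' - mu / 2) :=
    max_le_max le_rfl (by linarith)
  have h5 : max 0 (2 * u + 2 * v - mu) ≤ max 0 (2 * u' + 2 * v' - mu) :=
    max_le_max le_rfl (by linarith)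
  have h6 : max (2 * m) (4 * m - mu) ≤ max (2 * m') (4 * m' - mu) :=
    max_le_max (by linarith) (by linarith)
  split_ifs
  · linarith
  · linarith

theorem tr_count (K : Type*) [Field K] [NumberField K] (pa pb : Bool) (ε : ℝ) (hε : 0 < ε) :
    ∃ C : ℝ, 1 ≤ C ∧ ∀ (L ρ μ αf βf : ℝ) (ca cb : ℕ → ℝ), 0 ≤ L → 0 ≤ μ →
      (∀ l ∈ Icc 1 3, 0 ≤ ca l ∧ 0 ≤ cb l) → ∀ F : Finset K,
      (∀ s ∈ F, s ≠ 0 ∧ 1 + s ≠ 0 ∧ hs s ≤ L ∧ LR (1 + s) {e | 2 ≤ e} ≤ ρ ∧
        μ ≤ LP (1 + s) {e | 2 ≤ e} ∧ LR s {e | 4 ≤ e} ≤ αf ∧ LR s⁻¹ {e | 4 ≤ e} ≤ βf ∧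
        ∀ l ∈ Icc 1 3, LR s {l} ≤ ca l ∧ LR s⁻¹ {l} ≤ cb l) →
      (F.card : ℝ) ≤ C * Real.exp (ε * L) * Real.exp (ρ + αf + βf +
        rSide pa (ca 1) (ca 2) (ca 3) μ + rSide pb (cb 1) (cb 2) (cb 3) μ) := by
  obtain ⟨C1, hC1, h1⟩ := fibre_le K (Icc 1 3) (by simp) {e | 2 ≤ e} (ε / 2) (half_pos hε)
  obtain ⟨C2, hC2, h2⟩ := tuple_r K (ε / 2) (half_pos hε)
  refine ⟨C1 * C2, one_le_mul_of_one_le_of_one_le hC1 hC2, ?_⟩
  intro L ρ μ αf βf ca cb hL hμ hcab F hF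
  have h0C1 : 0 ≤ C1 := zero_le_one.trans hC1
  have h0C2 : 0 ≤ C2 := zero_le_one.trans hC2
  set ca' : ℕ → ℝ := fun l => min (ca l) L with hca'
  set cb' : ℕ → ℝ := fun l => min (cb l) L with hcb'
  set R := rSide pa (ca' 1) (ca' 2) (ca' 3) μ + rSide pb (cb' 1) (cb' 2) (cb' 3) μ with hR
  have hB : 0 ≤ C2 * Real.exp (ε / 2 * L) * Real.exp R := by positivity
  have key := h1 L ρ μ αf βf (C2 * Real.exp (ε / 2 * L) * Real.exp R) ca' cb' hL hB F ?_ ?_
  · refine key.trans ?_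
    have hR' : R ≤ rSide pa (ca 1) (ca 2) (ca 3) μ + rSide pb (cb 1) (cb 2) (cb 3) μ :=
      add_le_add (rSide_mono pa μ (min_le_left _ _) (min_le_left _ _) (min_le_left _ _))
        (rSide_mono pb μ (min_le_left _ _) (min_le_left _ _) (min_le_left _ _))
    have e1 : C1 * Real.exp (ε / 2 * L) * Real.exp (ρ + αf + βf) *
        (C2 * Real.exp (ε / 2 * L) * Real.exp R) =
        C1 * C2 * Real.exp (ε * L) * Real.exp (ρ + αf + βf + R) := by
      have e2 : Real.exp (ε * L) = Real.exp (ε / 2 * L) * Real.exp (ε / 2 * L) := by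
        rw [← Real.exp_add]
        congr 1
        ring
      rw [e2, Real.exp_add (ρ + αf + βf) R]
      ring
    rw [e1]
    have e3 : Real.exp (ρ + αf + βf + R) ≤ Real.exp (ρ + αf + βf +
        rSide pa (ca 1) (ca 2) (ca 3) μ + rSide pb (cb 1) (cb 2) (cb 3) μ) :=
      Real.exp_le_exp.2 (by linarith)
    exact mul_le_mul_of_nonneg_left e3 (by positivity)
  · intro s hs
    obtain ⟨g0, g1, g2, g3, g4, g5, g6, g7⟩ := hF s hs
    refine ⟨g0, g1, g2, g3, g4, ?_, ?_, fun l hl => ⟨?_, ?_⟩⟩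
    · rw [LR_compl]
      exact g5
    · rw [LR_compl]
      exact g6
    · exact le_min (g7 l hl).1 ((LR_le_LP g0 _).trans ((LP_side_a g0 _).trans g2))
    · exact le_min (g7 l hl).2 ((LR_le_LP (inv_ne_zero g0) _).trans ((LP_side_b g0 _).trans g2))
  · intro m a b g hm hμm hmL hab
    have h3 := h2 L μ m a b ca' cb' pa pb g hμ hμm hm hmL (fun l hl =>
      ⟨le_min (hcab l hl).1 hL, min_le_right _ _, le_min (hcab l hl).2 hL, min_le_right _ _,
        (hab l hl).1, (hab l hl).2⟩)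
    exact h3

end AbcEM
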