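import Pool.Agent.Work.MP_a793bb_nt.EM.TDefs
import Pool.Agent.Work.MP_a793bb_nt.EM.TRt
import Pool.Agent.Work.MP_a793bb_nt.OrdM.SidesM

/-!
# The bounds R

Proof. As for `M`: `s = sOf q t`, `E = {e | 2 ≤ e}` (for exponents `e ≥ 1` the same as `Eset T2`), `ρ = rhoW q T2 W * Λ`, `μ = max 0 ((muW q T2 W - 15 η) Λ)`, `ca l = W (q+1) (l-1) * Λ`, `cb l = W (q+2) (l-1) * Λ` for `l = 1, 2, 3`, `αf = (W (q+1) 3 + W (q+1) 4) Λ`, `βf` the same with `q + 2`. (The sides `j ≠ q` are `q + 1`, `q + 2`.) `LR (side j t) {l} = LRc (side j t) (l - 1)` for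
`l = 1, 2, 3`, `LR (side j t) {e | 4 ≤ e} = LRc .. 3 + LRc .. 4`. If `F` is nonempty all `W j c * Λ ≥ LRc ≥ 0`. `tr_count` with `pa = pat (q + 1)`, `pb = pat (q + 2)`. `rSide` is homogeneous (`Λ > 0`) and `rSide b u m v (mu - x) ≤ rSide b u m v mu + (5/8) x` for `x ≥ 0`: `x = 15 η`, twice: the error is `≤ 18.75 η ≤ 20 η`.
-/

set_option autoImplicit false

namespace AbcEM

open Finset Pool.Agent.Work.MP_a793bb_nt Pool.Agent.Work.MP_a793bb_nt.BPlus NumberField
  IsDedekindDomain Height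

open AbcOrdM AbcRadK

private lemma tlr_LP_ge {K : Type*} [Field K] [NumberField K] {y : K} (hy : y ≠ 0)
    (R : Fin 5 → Bool) :
    (∑ c : Fin 5, if R c = true then ((c : ℕ) + 1 : ℝ) * LRc y c else 0) ≤ LP y (Eset R) := by
  classical
  have hT : ∀ p ∈ Zp y, p ∈ (finite_Zp hy).toFinset := fun p hp => by simpa using hp
  rw [LP_eq hy (Eset R) _ hT]
  have h1 : (∑ c : Fin 5, if R c = true then ((c : ℕ) + 1 : ℝ) * LRc y c else 0) =
      ∑ c : Fin 5, ∑ p ∈ (finite_Zp hy).toFinset,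
        if R c = true ∧ 0 < kp p y ∧ cls (kp p y).toNat = c then ((c : ℕ) + 1 : ℝ) * lN p
          else 0 := by
    refine Finset.sum_congr rfl fun c _ => ?_
    rw [LRc, LR_eq_sum hy, Finset.mul_sum]
    by_cases h : R c = true
    · simp [h]
    · simp [h]
  rw [h1]
  rw [Finset.sum_comm]
  refine Finset.sum_le_sum fun p _ => ?_
  by_cases h2 : 0 < kp p y
  · rw [Finset.sum_eq_single (cls (kp p y).toNat)]
    · simp only [h2, true_and, and_true, lpt, Eset, Set.mem_ofPred_eq]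
      by_cases h3 : R (cls (kp p y).toNat) = true
      · rw [if_pos h3, if_pos h3]
        apply mul_le_mul_of_nonneg_right _ (lN_pos p).le
        have h5 : ((cls (kp p y).toNat : ℕ) : ℤ) + 1 ≤ kp p y := by
          simp only [cls]
          omega
        exact_mod_cast h5
      · rw [if_neg h3, if_neg h3]
    · intro c _ hc
      rw [if_neg]
      rintro ⟨-, -, h⟩
      exact hc h.symm
    · simp
  · simp [h2, lpt]

private lemma tlr_sum (q : Fin 3) (f : Fin 3 → ℝ) :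
    (∑ j, if j = q then 0 else f j) = f (q + 1) + f (q + 2) := by
  rw [Fin.sum_univ_three]
  fin_cases q
  · simp only [Fin.zero_eta, Fin.isValue, if_true]
    rw [if_neg (by decide), if_neg (by decide), zero_add]
    rfl
  · rw [if_neg (by decide), if_pos (by decide), if_neg (by decide), add_zero, add_comm]
    rfl
  · rw [if_neg (by decide), if_neg (by decide), if_pos (by decide), add_zero]
    rfl

private lemma tlr_E2 : ({e | 2 ≤ e} : Set ℕ) = Eset T2 := by
  ext e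
  have h : e ∈ Eset T2 ↔ 1 ≤ min (e - 1) 4 := by
    show decide (1 ≤ ((cls e : Fin 5) : ℕ)) = true ↔ _
    rw [decide_eq_true_iff]
    rfl
  rw [h]
  show 2 ≤ e ↔ _
  omega

private lemma tlr_E4 : ({e | 4 ≤ e} : Set ℕ) = Eset (fun c => decide (3 ≤ (c : ℕ))) := by
  ext e
  have h : e ∈ Eset (fun c => decide (3 ≤ (c : ℕ))) ↔ 3 ≤ min (e - 1) 4 := by
    show decide (3 ≤ ((cls e : Fin 5) : ℕ)) = true ↔ _
    rw [decide_eq_true_iff]
    rfl
  rw [h]
  show 4 ≤ e ↔ _
  omega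

private lemma tlr_LR4 {K : Type*} [Field K] [NumberField K] {y : K} (hy : y ≠ 0) :
    LR y {e | 4 ≤ e} = LRc y 3 + LRc y 4 := by
  rw [tlr_E4, LR_Eset hy, Fin.sum_univ_five]
  simp

private lemma tlr_LR1 {K : Type*} [Field K] [NumberField K] {y : K} (hy : y ≠ 0) {l : ℕ}
    (h1 : 1 ≤ l) (h3 : l ≤ 3) : LR y {l} = LRc y (cls l) := by
  classical
  rw [LRc, LR_eq_sum hy, LR_eq_sum hy]
  refine Finset.sum_congr rfl fun p _ => ?_
  by_cases h2 : 0 < kp p y
  · have h4 : (kp p y).toNat ∈ ({l} : Set ℕ) ↔ (kp p y).toNat ∈ {e | cls e = cls l} := by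
      simp only [Set.mem_singleton_iff, Set.mem_ofPred_eq, cls, Fin.mk.injEq]
      omega
    by_cases h5 : (kp p y).toNat ∈ ({l} : Set ℕ)
    · rw [if_pos ⟨h2, h5⟩, if_pos ⟨h2, h4.1 h5⟩]
    · rw [if_neg (fun h => h5 h.2), if_neg (fun h => h5 (h4.2 h.2))]
  · rw [if_neg (fun h => h2 h.1), if_neg (fun h => h2 h.1)]

private lemma tlr_rSide (b : Bool) {u m v M x Λ X : ℝ} (hΛ : 0 ≤ Λ) (hx : 0 ≤ x)
    (hX : (M - x) * Λ ≤ X) :
    rSide b (u * Λ) (m * Λ) (v * Λ) X ≤ (rSide b u m v M + 5 / 8 * x) * Λ := by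
  have hxΛ : 0 ≤ x * Λ := mul_nonneg hx hΛ
  have key : ∀ α β A : ℝ, α ≤ A → β - M ≤ A → ∀ γ δ : ℝ, γ = α * Λ → δ = β * Λ →
      max γ (δ - X) ≤ (A + x) * Λ := by
    intro α β A hα hβ γ δ hγ hδ
    have h1 := mul_le_mul_of_nonneg_right hα hΛ
    have h2 := mul_le_mul_of_nonneg_right hβ hΛ
    refine max_le ?_ ?_
    · nlinarith
    · nlinarith
  unfold rSide
  split_ifs
  · have e1 := key (2 * u) (4 * u) _ (le_max_left _ (4 * u - M)) (le_max_right (2 * u) _)
      (2 * (u * Λ)) (4 * (u * Λ)) (by ring) (by ring)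
    have e2 := key (4 * m) (8 * m) _ (le_max_left _ (8 * m - M)) (le_max_right (4 * m) _)
      (4 * (m * Λ)) (8 * (m * Λ)) (by ring) (by ring)
    have e3 := key (4 * v) (8 * v) _ (le_max_left _ (8 * v - M)) (le_max_right (4 * v) _)
      (4 * (v * Λ)) (8 * (v * Λ)) (by ring) (by ring)
    nlinarith
  · have e1 := key 0 (2 * u + 2 * v) _ (le_max_left _ (2 * u + 2 * v - M))
      (le_max_right 0 _) 0 (2 * (u * Λ) + 2 * (v * Λ)) (by ring) (by ring)
    have e2 := key (2 * m) (4 * m) _ (le_max_left _ (4 * m - M)) (le_max_right (2 * m) _)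
      (2 * (m * Λ)) (4 * (m * Λ)) (by ring) (by ring)
    have e3 : max 0 (4 * (v * Λ) - X / 2) ≤ (max 0 (4 * v - M / 2) + x / 2) * Λ := by
      have h1 := mul_le_mul_of_nonneg_right (le_max_left 0 (4 * v - M / 2)) hΛ
      have h2 := mul_le_mul_of_nonneg_right (le_max_right 0 (4 * v - M / 2)) hΛ
      refine max_le ?_ ?_
      · nlinarith
      · nlinarith
    nlinarith

theorem tl_R (K : Type*) [Field K] [NumberField K] (q : Fin 3) (pat : Fin 3 → Bool) :
    TlBound K (.inr (.inr (.inr (q, pat)))) := by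
  classical
  intro ε hε
  obtain ⟨C, hC1, hC⟩ := tr_count K (pat (q + 1)) (pat (q + 2)) ε hε
  refine ⟨C * 2 ^ ε, ?_, ?_⟩
  · have : (1 : ℝ) ≤ 2 ^ ε := Real.one_le_rpow (by norm_num) hε.le
    nlinarith
  intro Y hY W η hη F hF
  have hY0 : 0 < Y := by linarith
  rcases F.eq_empty_or_nonempty with rfl | hne
  · rw [Finset.card_empty, Nat.cast_zero]
    have : (0 : ℝ) ≤ C := by linarith
    positivity
  obtain ⟨Λ, hΛ⟩ : ∃ Λ, Λ = Real.log (2 * Y) := ⟨_, rfl⟩
  have hΛ0 : 0 ≤ Λ := by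
    rw [hΛ]
    exact Real.log_nonneg (by linarith)
  have hW0 : ∀ j c, 0 ≤ W j c * Λ := by
    intro j c
    obtain ⟨t, ht⟩ := hne
    rw [hΛ]
    exact (LRc_nonneg _ _).trans ((hF t ht).hW j c)
  have hinj : Set.InjOn (sOf q : K → K) F := fun t ht t' ht' h =>
    sOf_injective q (hF t ht).n1 (hF t' ht').n1 h
  have hmain := hC Λ (rhoW q T2 W * Λ) (max 0 ((muW q T2 W - 15 * η) * Λ))
    ((W (q + 1) 3 + W (q + 1) 4) * Λ) ((W (q + 2) 3 + W (q + 2) 4) * Λ)
    (fun l => W (q + 1) (cls l) * Λ) (fun l => W (q + 2) (cls l) * Λ) hΛ0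
    (le_max_left _ _) (fun l _ => ⟨hW0 _ _, hW0 _ _⟩) (F.image (sOf q)) ?_
  · rw [Finset.card_image_of_injOn hinj] at hmain
    refine hmain.trans ?_
    have h1 : Real.exp (ε * Λ) = 2 ^ ε * Y ^ ε := by
      rw [← Real.mul_rpow (by norm_num) hY0.le, Real.rpow_def_of_pos (by linarith), hΛ, mul_comm]
    rw [h1]
    set X := max 0 ((muW q T2 W - 15 * η) * Λ) with hX
    have h2 : rhoW q T2 W * Λ + (W (q + 1) 3 + W (q + 1) 4) * Λ +
        (W (q + 2) 3 + W (q + 2) 4) * Λ +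
        rSide (pat (q + 1)) (W (q + 1) (cls 1) * Λ) (W (q + 1) (cls 2) * Λ)
          (W (q + 1) (cls 3) * Λ) X +
        rSide (pat (q + 2)) (W (q + 2) (cls 1) * Λ) (W (q + 2) (cls 2) * Λ)
          (W (q + 2) (cls 3) * Λ) X ≤
        (costT (.inr (.inr (.inr (q, pat)))) W + 20 * η) * Real.log (2 * Y) := by
      rw [← hΛ]
      show _ ≤ (rCost q pat W + 20 * η) * Λ
      unfold rCost
      rw [tlr_sum q (fun j => W j 3 + W j 4 +
        rSide (pat j) (W j 0) (W j 1) (W j 2) (muW q T2 W))]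
      have c1 : cls 1 = 0 := rfl
      have c2 : cls 2 = 1 := rfl
      have c3 : cls 3 = 2 := rfl
      rw [c1, c2, c3]
      have g0 : 0 ≤ η * Λ := mul_nonneg hη hΛ0
      have g1 := tlr_rSide (pat (q + 1)) (u := W (q + 1) 0) (m := W (q + 1) 1)
        (v := W (q + 1) 2) hΛ0 (by positivity : 0 ≤ 15 * η) (le_max_right 0 _ : _ ≤ X)
      have g2 := tlr_rSide (pat (q + 2)) (u := W (q + 2) 0) (m := W (q + 2) 1)
        (v := W (q + 2) 2) hΛ0 (by positivity : 0 ≤ 15 * η) (le_max_right 0 _ : _ ≤ X)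
      nlinarith
    have h3 : 0 ≤ C * (2 ^ ε * Y ^ ε) := by
      have : (0 : ℝ) ≤ C := by linarith
      positivity
    refine (mul_le_mul_of_nonneg_left (Real.exp_le_exp.2 h2) h3).trans (le_of_eq ?_)
    ring
  · intro s hs'
    obtain ⟨t, ht, rfl⟩ := Finset.mem_image.1 hs'
    have hb := hF t ht
    have h0 := hb.n0
    have h1 := hb.n1
    have hy := side_ne_zero h0 h1
    refine ⟨sOf_ne_zero h0 h1 q, one_add_sOf_ne_zero h0 h1 q, ?_, ?_, ?_, ?_, ?_, ?_⟩
    · rw [hs_sOf h0 h1, hΛ]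
      exact hb.up
    · rw [LR_c h0 h1]
      unfold rj
      rw [tlr_E2, LR_Eset (hy q)]
      unfold rhoW
      rw [Finset.sum_mul]
      refine Finset.sum_le_sum fun c _ => ?_
      split_ifs
      · rw [hΛ]
        exact hb.hW q c
      · rw [zero_mul]
    · rw [(sameNum_c h0 h1 q).LP_eq, tlr_E2]
      have h2 := tlr_LP_ge (hy q) T2
      have h3 : (muW q T2 W - 15 * η) * Λ ≤
          ∑ c : Fin 5, if T2 c = true then ((c : ℕ) + 1 : ℝ) * LRc (side q t) c else 0 := by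
        have h4 : muW q T2 W - 15 * η ≤
            ∑ c : Fin 5, if T2 c = true then ((c : ℕ) + 1 : ℝ) * (W q c - η) else 0 := by
          unfold muW
          have h5 : (15 : ℝ) * η = ∑ c : Fin 5, ((c : ℕ) + 1 : ℝ) * η := by
            rw [Fin.sum_univ_five]
            norm_num
            ring
          rw [h5, ← Finset.sum_sub_distrib]
          refine Finset.sum_le_sum fun c _ => ?_
          split_ifs
          · rw [mul_sub]
          · have : (0 : ℝ) ≤ ((c : ℕ) + 1 : ℝ) * η := by positivity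
            linarith
        refine (mul_le_mul_of_nonneg_right h4 hΛ0).trans ?_
        rw [Finset.sum_mul]
        refine Finset.sum_le_sum fun c _ => ?_
        split_ifs
        · rw [mul_assoc]
          refine mul_le_mul_of_nonneg_left ?_ (by positivity)
          rw [hΛ]
          exact hb.hWl q c
        · rw [zero_mul]
      refine max_le ?_ (h3.trans h2)
      refine le_trans (Finset.sum_nonneg fun c _ => ?_) h2
      split_ifs
      · exact mul_nonneg (by positivity) (LRc_nonneg _ _)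
      · exact le_rfl
    · rw [LR_a h0 h1]
      unfold rj
      rw [tlr_LR4 (hy _), add_mul, hΛ]
      exact add_le_add (hb.hW _ _) (hb.hW _ _)
    · rw [LR_b h0 h1]
      unfold rj
      rw [tlr_LR4 (hy _), add_mul, hΛ]
      exact add_le_add (hb.hW _ _) (hb.hW _ _)
    · intro l hl
      rw [Finset.mem_Icc] at hl
      rw [LR_a h0 h1, LR_b h0 h1]
      unfold rj
      rw [tlr_LR1 (hy _) hl.1 hl.2, tlr_LR1 (hy _) hl.1 hl.2, hΛ]
      exact ⟨hb.hW _ _, hb.hW _ _⟩

end AbcEM
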