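import Pool.Agent.Work.MP_a793bb_nt.EM.TlH
import Pool.Agent.Work.MP_a793bb_nt.EM.TlE
import Pool.Agent.Work.MP_a793bb_nt.EM.TlM
import Pool.Agent.Work.MP_a793bb_nt.EM.TlR
import Pool.Agent.Work.MP_a793bb_nt.EM.Lip

/-!
# The bound for a dyadic block

Proof. Copy of `card_dyadic_le` in `Assemble.lean` (with `LPT`, `Tl`, `okTl`, `costT`, `TlBound`, `Blk2` instead of `LPH`, `BT`, `Valid`, `cost`, `card_type_le`, `Blk`). Take `M = ⌈220 / ε⌉₊ + 1`, `η = 1 / M`. Cells: `γ j c = min ⌊M w⌋₊ M`, `W j c = (γ j c + 1) / M`, so `w ≤ W ≤ w + η` for the true weights `w j c = LRc (side j t) c / log (2 Y)`,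
i.e. `Blk2 Y W η t`. `LPT Λ κ` at the weights of one point `t₀` of the cell gives `T` with `okTl T`, `costT T w ≤ κ`, so `costT T W + 20 η ≤ κ + 220 η ≤ κ + ε` (`costT_lip`). `TlBound` for all valid `T` (cases `tl_H, tl_E, tl_M, tl_R`; `Tl` is a `Fintype`).
-/

set_option autoImplicit false

namespace AbcEM

open Finset Pool.Agent.Work.MP_a793bb_nt Pool.Agent.Work.MP_a793bb_nt.BPlus NumberField
  IsDedekindDomain Height

theorem tl_bound (K : Type*) [Field K] [NumberField K] (T : Tl) (h : okTl T) : TlBound K T := by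
  match T, h with
  | .inl (n, u, sel), h => exact tl_H K n u sel h
  | .inr (.inl (r, p, c)), h => exact tl_E K r p c h
  | .inr (.inr (.inl (q, T))), _ => exact tl_M K q T
  | .inr (.inr (.inr (q, pat))), _ => exact tl_R K q pat

theorem card_dyadic (K : Type*) [Field K] [NumberField K] {Λ κ : ℝ} (hLP : LPT Λ κ) {ε : ℝ}
    (hε : 0 < ε) : ∃ C : ℝ, 1 ≤ C ∧
    ∀ Y : ℝ, 1 ≤ Y → ∀ F : Finset K, (∀ t ∈ F, t ≠ 0 ∧ t ≠ 1 ∧ Real.log Y ≤ hh t ∧
      hh t ≤ Real.log (2 * Y) ∧ Rs (Ip t) ≤ Λ * Real.log (2 * Y)) →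
      (F.card : ℝ) ≤ C * Y ^ ε * Real.exp ((κ + ε) * Real.log (2 * Y)) := by
  classical
  have hex : ∀ β : Tl, ∃ C : ℝ, 1 ≤ C ∧ (okTl β → ∀ Y : ℝ, 1 ≤ Y → ∀ (W : Fin 3 → Fin 5 → ℝ)
      (η : ℝ), 0 ≤ η → ∀ F : Finset K, (∀ t ∈ F, Blk2 Y W η t) →
      (F.card : ℝ) ≤ C * Y ^ ε * Real.exp ((costT β W + 20 * η) * Real.log (2 * Y))) := by
    intro β
    by_cases hβ : okTl β
    · obtain ⟨C, hC, h⟩ := tl_bound K β hβ ε hε
      exact ⟨C, hC, fun _ => h⟩
    · exact ⟨1, le_rfl, fun h => absurd h hβ⟩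
  choose Cβ hCβ1 hCβ using hex
  set C₁ : ℝ := ∑ β, Cβ β with hC₁
  have hC₁β : ∀ β, Cβ β ≤ C₁ := fun β =>
    Finset.single_le_sum (f := Cβ) (fun b _ => by linarith [hCβ1 b]) (Finset.mem_univ β)
  have hC₁1 : 1 ≤ C₁ := (hCβ1 (.inl (0, 0, fun _ _ => true))).trans (hC₁β _)
  set M : ℕ := ⌈220 / ε⌉₊ + 1 with hM
  have hM0 : (0 : ℝ) < M := by
    rw [hM]; push_cast; positivity
  have hMε : 220 * (1 / (M : ℝ)) ≤ ε := by
    have h1 : 220 / ε ≤ M := by
      have := Nat.le_ceil (220 / ε)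
      rw [hM]; push_cast; linarith
    rw [mul_one_div, div_le_iff₀ hM0]
    rw [div_le_iff₀ hε] at h1
    linarith
  set N : ℕ := Fintype.card (Fin 3 → Fin 5 → Fin (M + 1)) with hN
  have hN1 : (1 : ℝ) ≤ N := by
    have : 0 < N := Fintype.card_pos
    exact_mod_cast this
  refine ⟨C₁ * N, one_le_mul_of_one_le_of_one_le hC₁1 hN1, fun Y hY F hF => ?_⟩
  have hY0 : 0 < Y := by linarith
  set L : ℝ := Real.log (2 * Y) with hL
  have hL0 : 0 < L := Real.log_pos (by linarith)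
  set wt : K → Fin 3 → Fin 5 → ℝ := fun t j c => LRc (side j t) c / L with hwt
  have hwt0 : ∀ t j c, 0 ≤ wt t j c := fun t j c => div_nonneg (LRc_nonneg _ _) hL0.le
  have hwtS : ∀ t ∈ F, ∀ j, ∑ c : Fin 5, ((c : ℕ) + 1 : ℝ) * wt t j c ≤ 1 := by
    intro t ht j
    obtain ⟨h0, h1, -, hup, -⟩ := hF t ht
    have e1 : ∑ c : Fin 5, ((c : ℕ) + 1 : ℝ) * wt t j c =
        (∑ c : Fin 5, ((c : ℕ) + 1 : ℝ) * LRc (side j t) c) / L := by
      rw [Finset.sum_div]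
      refine Finset.sum_congr rfl fun c _ => ?_
      rw [hwt]
      ring
    rw [e1, div_le_iff₀ hL0, one_mul]
    exact (sum_LRc_le (side_ne_zero h0 h1 j)).trans ((LP_side_le h0 h1 j _).trans hup)
  have hwt1 : ∀ t ∈ F, ∀ j c, wt t j c ≤ 1 := by
    intro t ht j c
    have h1 := hwtS t ht j
    have h2 : ((c : ℕ) + 1 : ℝ) * wt t j c ≤ ∑ c : Fin 5, ((c : ℕ) + 1 : ℝ) * wt t j c :=
      Finset.single_le_sum (f := fun c : Fin 5 => ((c : ℕ) + 1 : ℝ) * wt t j c)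
        (fun b _ => mul_nonneg (by positivity) (hwt0 t j b)) (Finset.mem_univ c)
    have h3 : wt t j c ≤ ((c : ℕ) + 1 : ℝ) * wt t j c := by
      have h4 := hwt0 t j c
      have h5 : (0 : ℝ) ≤ ((c : ℕ) : ℝ) := Nat.cast_nonneg _
      nlinarith
    linarith
  have hwtT : ∀ t ∈ F, ∑ j, ∑ c, wt t j c ≤ Λ := by
    intro t ht
    obtain ⟨h0, h1, -, -, hrad⟩ := hF t ht
    have e1 : ∀ j, ∑ c, wt t j c = Rs (Zp (side j t)) / L := by
      intro j
      rw [← LR_univ_eq (side_ne_zero h0 h1 j), Finset.sum_div]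
    simp_rw [e1]
    rw [← Finset.sum_div, div_le_iff₀ hL0]
    refine le_trans ?_ hrad
    rw [Fin.sum_univ_three]
    exact Rs_three_le h0 h1
  set g : K → (Fin 3 → Fin 5 → Fin (M + 1)) := fun t j c =>
    ⟨min ⌊(M : ℝ) * wt t j c⌋₊ M, by omega⟩ with hg
  set Wg : (Fin 3 → Fin 5 → Fin (M + 1)) → Fin 3 → Fin 5 → ℝ := fun γ j c =>
    (((γ j c : ℕ) : ℝ) + 1) / M with hWg
  have hgv : ∀ t ∈ F, ∀ j c, ((g t j c : ℕ)) = ⌊(M : ℝ) * wt t j c⌋₊ := by
    intro t ht j c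
    change min ⌊(M : ℝ) * wt t j c⌋₊ M = _
    apply min_eq_left
    have h1 : (M : ℝ) * wt t j c ≤ M := by
      have := hwt1 t ht j c
      nlinarith
    have h2 := Nat.floor_le_floor h1
    rwa [Nat.floor_natCast] at h2
  have hWlo : ∀ t ∈ F, ∀ j c, wt t j c ≤ Wg (g t) j c := by
    intro t ht j c
    rw [hWg]
    change wt t j c ≤ (((g t j c : ℕ) : ℝ) + 1) / M
    rw [hgv t ht j c, le_div_iff₀ hM0]
    have := Nat.lt_floor_add_one ((M : ℝ) * wt t j c)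
    linarith
  have hWup : ∀ t ∈ F, ∀ j c, Wg (g t) j c ≤ wt t j c + 1 / M := by
    intro t ht j c
    rw [hWg]
    change (((g t j c : ℕ) : ℝ) + 1) / M ≤ _
    rw [hgv t ht j c, add_div]
    have h1 := Nat.floor_le (mul_nonneg hM0.le (hwt0 t j c))
    have h2 : ((⌊(M : ℝ) * wt t j c⌋₊ : ℕ) : ℝ) / M ≤ wt t j c := by
      rw [div_le_iff₀ hM0]
      linarith
    linarith
  set Bd : ℝ := C₁ * Y ^ ε * Real.exp ((κ + ε) * L) with hBd
  have hBd0 : 0 ≤ Bd := by positivity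
  have hfib : ∀ γ ∈ (Finset.univ : Finset (Fin 3 → Fin 5 → Fin (M + 1))),
      (F.filter (fun t => g t = γ)).card ≤ ⌊Bd⌋₊ := by
    intro γ _
    apply Nat.le_floor
    rcases (F.filter (fun t => g t = γ)).eq_empty_or_nonempty with he | ⟨t0, ht0⟩
    · rw [he]; simpa using hBd0
    rw [Finset.mem_filter] at ht0
    obtain ⟨ht0, hg0⟩ := ht0
    obtain ⟨β, hβ, hcost⟩ := hLP (wt t0) (hwt0 t0) (hwtS t0 ht0) (hwtT t0 ht0)
    have h1 := hCβ β hβ Y hY (Wg γ) (1 / M) (by positivity) (F.filter (fun t => g t = γ)) (by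
      intro t ht
      rw [Finset.mem_filter] at ht
      obtain ⟨ht, hgt⟩ := ht
      obtain ⟨h0, h1, hlo, hup, -⟩ := hF t ht
      refine ⟨h0, h1, hlo, hup, fun j c => ?_, fun j c => ?_⟩
      · have h2 := hWlo t ht j c
        rw [hgt] at h2
        rw [← div_le_iff₀ hL0]
        exact h2
      · have h2 := hWup t ht j c
        rw [hgt] at h2
        rw [← le_div_iff₀ hL0]
        have h3 : wt t j c = LRc (side j t) c / L := rfl
        rw [← h3]
        linarith)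
    refine h1.trans ?_
    have h2 : costT β (Wg γ) + 20 * (1 / M) ≤ κ + ε := by
      have h3 : costT β (Wg γ) ≤ costT β (wt t0) + 200 * (1 / M) := by
        apply costT_lip β (by positivity)
        · intro j c
          have := hWlo t0 ht0 j c
          rwa [hg0] at this
        · intro j c
          have := hWup t0 ht0 j c
          rwa [hg0] at this
      linarith
    rw [hBd]
    have h4 := hC₁β β
    have h5 : (costT β (Wg γ) + 20 * (1 / M)) * L ≤ (κ + ε) * L := mul_le_mul_of_nonneg_right h2 hL0.le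
    have h6 : 0 ≤ Cβ β := by linarith [hCβ1 β]
    gcongr
  have hcard := Finset.card_le_mul_card_image_of_maps_to (f := g) (s := F)
    (t := (Finset.univ : Finset (Fin 3 → Fin 5 → Fin (M + 1)))) (fun t _ => Finset.mem_univ _)
    ⌊Bd⌋₊ hfib
  calc (F.card : ℝ) ≤ ((⌊Bd⌋₊ * (Finset.univ : Finset (Fin 3 → Fin 5 → Fin (M + 1))).card : ℕ) : ℝ) := by
        exact_mod_cast hcard
    _ = (⌊Bd⌋₊ : ℝ) * N := by
        rw [Finset.card_univ]; push_cast; ring
    _ ≤ Bd * N := mul_le_mul_of_nonneg_right (Nat.floor_le hBd0) (by linarith)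
    _ = C₁ * N * Y ^ ε * Real.exp ((κ + ε) * L) := by rw [hBd]; ring

end AbcEM
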