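import Pool.Agent.Work.MP_a793bb_nt.EM.KB
import Pool.Agent.Work.MP_a793bb_nt.EM.BalU

/-!
# Products of two generators

Proof. An element `U` of `El m a c` is `gn a x * gn a y` with `x, y ∈ idS m a c`; take `I = x * y`; everything follows from `gn_spec`, `unitAt_gn'`, `ex_mul`, `kp_mul`. The size:
`log (v U) = log v (gn a x) + log v (gn a y)`, each within `C0 K` of `(log N x - log N a) / d`. `card_El_le`: `El` is the image of a set with at most `(C exp c) ^ 2`
elements (`card_idS_le`, `Fintype.card_piFinset`). `El_ratio`: for `U, V ∈ El m a c` with the ideals `I, J`: `kp p (U / V) = ex I p - ex J p`; so `numI (U/V)` divides `I`, `numI (V/U)` divides `J`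
(`ex_numI'`, `absNorm_le_of_ex`); and `log (v (U/V))` is within `4 C0` of `(log N I - log N J) / d = (log N numI - log N numI⁻¹) / d`, as `I = numI (U/V) * G`, `J = numI (V/U) * G`
with the same ideal `G` (exponents `min (ex I p) (ex J p)`; take `G = gcd` or `I ⊔ J`, or the ideal with `numI (U/V) * G = I` by `dvd_of_ex`, then show
`numI (V/U) * G = J` by `ideal_ext_of_ex`).
-/

set_option autoImplicit false

namespace AbcEM

open Finset Pool.Agent.Work.MP_a793bb_nt Pool.Agent.Work.MP_a793bb_nt.BPlus NumberField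
  IsDedekindDomain Height

variable {K : Type*} [Field K] [NumberField K]

/-- description of the elements of `El` -/
theorem El_spec {m a : Ideal (𝓞 K)} {c : ℝ} (ha : a ∈ idS m a c) {U : K} (hU : U ∈ El m a c) :
    UnitAt m U ∧ ∃ I : Ideal (𝓞 K), I ≠ ⊥ ∧ Real.log (Ideal.absNorm I) ≤ 2 * c ∧
      (∀ p : HeightOneSpectrum (𝓞 K), kp p U = (ex I p : ℤ) - 2 * ex a p) ∧
      ∀ v : InfinitePlace K, |Real.log (v U) - (Real.log (Ideal.absNorm I) -
        2 * Real.log (Ideal.absNorm a)) / Module.finrank ℚ K| ≤ 2 * C0 K := by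
  classical
  rw [El, Finset.mem_image] at hU
  obtain ⟨y, hy, rfl⟩ := hU
  rw [Fintype.mem_piFinset] at hy
  rw [Fin.prod_univ_two]
  have h0 := hy 0
  have h1 := hy 1
  have u0 := unitAt_gn' ha h0
  have u1 := unitAt_gn' ha h1
  have ha' := ha
  rw [mem_idS] at ha' h0 h1
  obtain ⟨g0, k0, v0⟩ := gn_spec ha'.1 h0.1 h0.2.2.1
  obtain ⟨g1, k1, v1⟩ := gn_spec ha'.1 h1.1 h1.2.2.1
  refine ⟨u0.mul u1, y 0 * y 1, mul_ne_zero h0.1 h1.1, ?_, fun p => ?_, fun v => ?_⟩
  · rw [log_absNorm_mul h0.1 h1.1]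
    have e0 : Real.log (Ideal.absNorm (y 0)) ≤ c := by
      rw [← Real.log_exp c]
      exact Real.log_le_log (absNorm_pos' h0.1) h0.2.1
    have e1 : Real.log (Ideal.absNorm (y 1)) ≤ c := by
      rw [← Real.log_exp c]
      exact Real.log_le_log (absNorm_pos' h1.1) h1.2.1
    linarith
  · rw [kp_mul p g0 g1, k0 p, k1 p, ex_mul h0.1 h1.1]
    push_cast
    ring
  · have hv0 : (v (gn a (y 0))) ≠ 0 := (v.pos_iff.mpr g0).ne'
    have hv1 : (v (gn a (y 1))) ≠ 0 := (v.pos_iff.mpr g1).ne'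
    rw [log_absNorm_mul h0.1 h1.1, map_mul, Real.log_mul hv0 hv1]
    have e : Real.log (v (gn a (y 0))) + Real.log (v (gn a (y 1))) -
        (Real.log (Ideal.absNorm (y 0)) + Real.log (Ideal.absNorm (y 1)) -
          2 * Real.log (Ideal.absNorm a)) / Module.finrank ℚ K =
        (Real.log (v (gn a (y 0))) - (Real.log (Ideal.absNorm (y 0)) -
          Real.log (Ideal.absNorm a)) / Module.finrank ℚ K) +
        (Real.log (v (gn a (y 1))) - (Real.log (Ideal.absNorm (y 1)) -
          Real.log (Ideal.absNorm a)) / Module.finrank ℚ K) := by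
      ring
    rw [e]
    refine (abs_add_le _ _).trans ?_
    have := v0 v
    have := v1 v
    linarith

theorem card_El_le (K : Type*) [Field K] [NumberField K] : ∃ C : ℝ, 1 ≤ C ∧
    ∀ (m a : Ideal (𝓞 K)) (c : ℝ), ((El m a c).card : ℝ) ≤ C * Real.exp (2 * c) := by
  classical
  obtain ⟨C, hC, h⟩ := card_idS_le K
  refine ⟨C ^ 2, one_le_pow₀ hC, fun m a c => ?_⟩
  have h1 : (El m a c).card ≤ (idS m a c).card ^ 2 := by
    rw [El]
    refine Finset.card_image_le.trans ?_
    rw [Fintype.card_piFinset]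
    simp
  have h2 : ((El m a c).card : ℝ) ≤ ((idS m a c).card : ℝ) ^ 2 := by exact_mod_cast h1
  refine h2.trans ?_
  have h3 : C ^ 2 * Real.exp (2 * c) = (C * Real.exp c) ^ 2 := by
    rw [mul_pow, ← Real.exp_nat_mul]
    norm_num
  rw [h3]
  exact pow_le_pow_left₀ (Nat.cast_nonneg _) (h m a c) 2

/-- the quotients of the elements of `El` -/
theorem El_ratio {m a : Ideal (𝓞 K)} {c : ℝ} (ha : a ∈ idS m a c) {U V : K}
    (hU : U ∈ El m a c) (hV : V ∈ El m a c) : RatS (4 * C0 K) m (2 * c) (U / V) := by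
  obtain ⟨uU, I, hI, hIc, kI, vI⟩ := El_spec ha hU
  obtain ⟨uV, J, hJ, hJc, kJ, vJ⟩ := El_spec ha hV
  have hUV : U / V ≠ 0 := div_ne_zero uU.1 uV.1
  have hUV' : (U / V)⁻¹ ≠ 0 := inv_ne_zero hUV
  have hn := numI_ne_bot hUV
  have hd := numI_ne_bot hUV'
  have k1 : ∀ p : HeightOneSpectrum (𝓞 K), kp p (U / V) = (ex I p : ℤ) - ex J p := fun p => by
    rw [kp_div p uU.1 uV.1, kI p, kJ p]
    ring
  have n1 : ∀ p : HeightOneSpectrum (𝓞 K), ex (numI (U / V)) p = ((ex I p : ℤ) - ex J p).toNat :=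
    fun p => by rw [ex_numI' hUV p, k1 p]
  have n2 : ∀ p : HeightOneSpectrum (𝓞 K),
      ex (numI (U / V)⁻¹) p = (-((ex I p : ℤ) - ex J p)).toNat :=
    fun p => by rw [ex_numI' hUV' p, kp_inv p hUV, k1 p]
  have e1 : ∀ p : HeightOneSpectrum (𝓞 K), ex (numI (U / V)) p ≤ ex I p := fun p => by
    have := n1 p
    omega
  have e2 : ∀ p : HeightOneSpectrum (𝓞 K), ex (numI (U / V)⁻¹) p ≤ ex J p := fun p => by
    have := n2 p
    omega
  obtain ⟨G, hG⟩ := dvd_of_ex hn hI e1
  have hG0 : G ≠ ⊥ := by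
    intro h0
    apply hI
    rw [hG, h0]
    exact mul_zero _
  have hexI : ∀ p : HeightOneSpectrum (𝓞 K), ex I p = ex (numI (U / V)) p + ex G p := fun p => by
    have h := ex_mul hn hG0 p
    rw [← hG] at h
    exact h
  have hJG : J = numI (U / V)⁻¹ * G := ideal_ext_of_ex hJ (mul_ne_zero hd hG0) fun p => by
    have h := ex_mul hd hG0 p
    rw [h]
    have := n1 p
    have := n2 p
    have := hexI p
    omega
  have lI : Real.log (Ideal.absNorm I) =
      Real.log (Ideal.absNorm (numI (U / V))) + Real.log (Ideal.absNorm G) := by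
    have h := log_absNorm_mul hn hG0
    rw [← hG] at h
    exact h
  have lJ : Real.log (Ideal.absNorm J) =
      Real.log (Ideal.absNorm (numI (U / V)⁻¹)) + Real.log (Ideal.absNorm G) := by
    have h := log_absNorm_mul hd hG0
    rw [← hJG] at h
    exact h
  refine ⟨uU.div uV, fun v => ?_, ?_, ?_⟩
  · have hv0 : v U ≠ 0 := (v.pos_iff.mpr uU.1).ne'
    have hv1 : v V ≠ 0 := (v.pos_iff.mpr uV.1).ne'
    rw [map_div₀, Real.log_div hv0 hv1]
    have e : Real.log (v U) - Real.log (v V) - (Real.log (Ideal.absNorm (numI (U / V))) -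
        Real.log (Ideal.absNorm (numI (U / V)⁻¹))) / Module.finrank ℚ K =
        (Real.log (v U) - (Real.log (Ideal.absNorm I) -
          2 * Real.log (Ideal.absNorm a)) / Module.finrank ℚ K) -
        (Real.log (v V) - (Real.log (Ideal.absNorm J) -
          2 * Real.log (Ideal.absNorm a)) / Module.finrank ℚ K) := by
      rw [lI, lJ]
      ring
    rw [e]
    refine (abs_sub _ _).trans ?_
    have := vI v
    have := vJ v
    linarith
  · have h := log_absNorm_nonneg hG0
    linarith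
  · have h := log_absNorm_nonneg hG0
    linarith

end AbcEM
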