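import Mathlib

/-!
# The exponent
-/

set_option autoImplicit false

namespace AbcEM

/-- The exponent `E(lam)` of the upper bound. -/
noncomputable def excExp (lam : ℝ) : ℝ :=
  if lam ≤ 3 / 5 then 2 * lam / 3
  else if lam ≤ 1 then (15 * lam + 7) / 40
  else if lam ≤ 5 / 4 then (40 * lam - 7) / 60
  else if lam ≤ 3 / 2 then (7 * lam + 2) / 15
  else if lam ≤ 29 / 18 then lam - 2 / 3
  else if lam ≤ 2 then (lam + 5) / 7
  else lam - 1

end AbcEM
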