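import Pool.Agent.Work.MP_a793bb_nt.EM.KB

/-!
# Height of the generators

Proof. For `z ≠ 0`: `logHeight₁ z = ∑_v mult v * log (max 1 (v z)) + ∑_p log (max 1 (av p z))` (as in `hs_eq`, `Balanced.lean`; e.g. `NumberField.mulHeight₁_eq` and the transport to primes, see the proof of `hs_eq`). The second sum is `log N (numI z⁻¹)`, which for `z = gn a x`
is `≤ log N a` (`ex (numI z⁻¹) p = max 0 (ex a p - ex x p) ≤ ex a p`, `absNorm_le_of_ex`), and `log (max 1 (v z)) ≤ max 0 ((log N x - log N a) / d + C0) ≤ log N x / d + C0`, `∑ mult = d`. Alternatively: `mulHeight₁` of a quotient of two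
integers; or the inequality `logHeight₁ z ≤ ∑_v mult v * max 0 (log (v z)) + log N (numI z⁻¹)`.
-/

set_option autoImplicit false

namespace AbcEM

open Finset Pool.Agent.Work.MP_a793bb_nt Pool.Agent.Work.MP_a793bb_nt.BPlus NumberField
  IsDedekindDomain Height

variable {K : Type*} [Field K] [NumberField K]

open Real in
private theorem fin_part {a x : Ideal (𝓞 K)} (ha : a ≠ ⊥) {z : K} (hz : z ≠ 0)
    (h : ∀ p : HeightOneSpectrum (𝓞 K), kp p z = (ex x p : ℤ) - ex a p) :
    ∑ᶠ w : FinitePlace K, log⁺ (w z) ≤ Real.log (Ideal.absNorm a) := by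
  classical
  have h1 : ∑ᶠ w : FinitePlace K, log⁺ (w z) = ∑ᶠ p : HeightOneSpectrum (𝓞 K), log⁺ (av p z) := by
    rw [← finsum_comp_equiv (FinitePlace.equivHeightOneSpectrum (K := K)).symm]
    rfl
  have hlt : ∀ p : HeightOneSpectrum (𝓞 K), log⁺ (av p z) ≤ ex a p * Real.log (Np p) := by
    intro p
    have h2 := two_le_Np p
    have h3 : 0 ≤ Real.log (Np p) := Real.log_nonneg (by linarith)
    rw [posLog_def]
    refine max_le (by positivity) ?_
    rw [av_eq_zpow p hz]
    change Real.log (Np p ^ (-kp p z)) ≤ _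
    rw [Real.log_zpow, h p]
    push_cast
    have h4 : (0 : ℝ) ≤ ex x p := Nat.cast_nonneg _
    nlinarith
  have h0 : ∀ p : HeightOneSpectrum (𝓞 K), ¬ p.asIdeal ∣ a → log⁺ (av p z) = 0 := by
    intro p hp
    apply le_antisymm _ posLog_nonneg
    have h5 := hlt p
    rw [ex_eq_zero hp] at h5
    simpa using h5
  rw [h1, finsum_eq_sum_of_support_subset (s := (finite_dvd ha).toFinset)]
  · rw [absNorm_prod_ex ha (finite_dvd ha).toFinset (fun p hp => (Set.Finite.mem_toFinset _).mpr hp),
      Real.log_prod]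
    · refine Finset.sum_le_sum fun p _ => ?_
      rw [Real.log_pow]
      exact hlt p
    · intro p _
      have := two_le_Np p
      positivity
  · intro p hp
    rw [Function.mem_support] at hp
    rw [Set.Finite.coe_toFinset]
    by_contra h6
    exact hp (h0 p h6)

open Real in
theorem height_gn {a x : Ideal (𝓞 K)} (ha : a ≠ ⊥) (hx : x ≠ ⊥) (h : cl a = cl x) :
    logHeight₁ (gn a x) ≤ Real.log (Ideal.absNorm a) + Real.log (Ideal.absNorm x) +
      Module.finrank ℚ K * C0 K := by
  obtain ⟨hz, hk, hv⟩ := gn_spec ha hx h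
  rw [NumberField.logHeight₁_eq]
  have h1 := fin_part ha hz hk
  have hd : (0 : ℝ) < Module.finrank ℚ K := finrank_pos' (K := K)
  have hC := C0_nonneg K
  have hNx := log_absNorm_nonneg hx
  have hNa := log_absNorm_nonneg ha
  have h2 : ∑ v : InfinitePlace K, (v.mult : ℝ) * log⁺ (v (gn a x)) ≤
      ∑ v : InfinitePlace K, (v.mult : ℝ) * (Real.log (Ideal.absNorm x) / Module.finrank ℚ K + C0 K) := by
    refine Finset.sum_le_sum fun v _ => mul_le_mul_of_nonneg_left ?_ (by positivity)
    rw [posLog_def]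
    refine max_le (by positivity) ?_
    change Real.log (v (gn a x)) ≤ _
    have h3 := (abs_le.mp (hv v)).2
    have h4 : (Real.log (Ideal.absNorm x) - Real.log (Ideal.absNorm a)) / Module.finrank ℚ K ≤
        Real.log (Ideal.absNorm x) / Module.finrank ℚ K :=
      div_le_div_of_nonneg_right (by linarith) hd.le
    linarith
  have h5 : ∑ v : InfinitePlace K, (v.mult : ℝ) * (Real.log (Ideal.absNorm x) / Module.finrank ℚ K + C0 K) =
      Real.log (Ideal.absNorm x) + Module.finrank ℚ K * C0 K := by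
    rw [← Finset.sum_mul]
    have h6 : (∑ v : InfinitePlace K, (v.mult : ℝ)) = Module.finrank ℚ K := by
      exact_mod_cast InfinitePlace.sum_mult_eq (K := K)
    rw [h6]
    field_simp
  linarith

end AbcEM
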