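import Pool.Agent.Work.MP_a793bb_nt.EM.KB

/-!
# The levels of an element

Proof. `ex_partI`: `ex (partI y {l}) p = pe y {l} p`, which is `l` if `kp p y = l` (`l ≥ 1`) and `0` otherwise; the radical has exponent `1` at the primes dividing the ideal (`dvd_radical_iff'`, `radical_eq_prod`, `ex_prod`) and `0` at the others. `log_absNorm_radical_partI`.
`kp_decomp`: if `kp p s = l > 0`: if `l ∈ R` the sum is `l` (the levels of `s⁻¹` and the parts `partI s Rᶜ` (`pe = 0` since `l ∉ Rᶜ`), `partI s⁻¹` vanish at `p`), otherwise all the levels in `R` vanish and `ex (partI s Rᶜ) p = l`. `kp p s < 0`: the same with `s⁻¹` (`kp_inv`). `kp p s = 0`: everything is `0`. (`0 ∉ R`.)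
-/

set_option autoImplicit false

namespace AbcEM

open Finset Pool.Agent.Work.MP_a793bb_nt Pool.Agent.Work.MP_a793bb_nt.BPlus NumberField
  IsDedekindDomain Height

variable {K : Type*} [Field K] [NumberField K]

open Classical in
private theorem ex_radical {I : Ideal (𝓞 K)} (hI : I ≠ ⊥) (p : HeightOneSpectrum (𝓞 K)) :
    ex I.radical p = if p.asIdeal ∣ I then 1 else 0 := by
  classical
  have h1 : I.radical = ∏ q ∈ (finite_dvd hI).toFinset, q.asIdeal ^ (fun _ => 1 : HeightOneSpectrum (𝓞 K) → ℕ) q := by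
    rw [radical_eq_prod hI]
    exact Finset.prod_congr rfl fun q _ => (pow_one _).symm
  rw [h1, ex_prod]
  by_cases h : p.asIdeal ∣ I
  · rw [if_pos h, if_pos]
    rw [Set.Finite.mem_toFinset]
    exact h
  · rw [if_neg h, if_neg]
    rw [Set.Finite.mem_toFinset]
    exact h

theorem levI_ne_bot {y : K} (hy : y ≠ 0) (l : ℕ) : levI y l ≠ ⊥ := by
  unfold levI
  exact radical_ne_bot (partI_ne_bot hy _)

theorem ex_levI {y : K} (hy : y ≠ 0) {l : ℕ} (hl : 1 ≤ l) (p : HeightOneSpectrum (𝓞 K)) :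
    ex (levI y l) p = if kp p y = (l : ℤ) then 1 else 0 := by
  unfold levI
  rw [ex_radical (partI_ne_bot hy _)]
  have h : p.asIdeal ∣ partI y {l} ↔ kp p y = (l : ℤ) := by
    rw [dvd_partI_iff hy, Set.mem_singleton_iff]
    omega
  by_cases h1 : kp p y = (l : ℤ)
  · rw [if_pos h1, if_pos (h.2 h1)]
  · rw [if_neg h1, if_neg fun h2 => h1 (h.1 h2)]

theorem log_absNorm_levI {y : K} (hy : y ≠ 0) (l : ℕ) :
    Real.log (Ideal.absNorm (levI y l)) = LR y {l} :=
  log_absNorm_radical_partI hy {l}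

theorem kp_decomp (R : Finset ℕ) (hR : 0 ∉ R) {s : K} (hs : s ≠ 0)
    (p : HeightOneSpectrum (𝓞 K)) :
    kp p s = (∑ l ∈ R, (l : ℤ) * ((ex (levI s l) p : ℤ) - ex (levI s⁻¹ l) p)) +
      ((ex (partI s (R : Set ℕ)ᶜ) p : ℤ) - ex (partI s⁻¹ (R : Set ℕ)ᶜ) p) := by
  have hs' : s⁻¹ ≠ 0 := inv_ne_zero hs
  have hinv : kp p s⁻¹ = -kp p s := BPlus.kp_inv p s
  obtain ⟨k, hk⟩ : ∃ k, k = kp p s := ⟨_, rfl⟩
  have h1 : ∀ l ∈ R, (l : ℤ) * ((ex (levI s l) p : ℤ) - ex (levI s⁻¹ l) p) =
      if k = (l : ℤ) then k else if -k = (l : ℤ) then k else 0 := by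
    intro l hl
    have hl1 : 1 ≤ l := by
      rcases Nat.eq_zero_or_pos l with h | h
      · exact absurd (h ▸ hl) hR
      · exact h
    rw [ex_levI hs hl1, ex_levI hs' hl1, hinv, ← hk]
    by_cases h2 : k = (l : ℤ)
    · have h3 : ¬ -k = (l : ℤ) := by omega
      rw [if_pos h2, if_neg h3, if_pos h2, h2]
      norm_num
    · by_cases h3 : -k = (l : ℤ)
      · rw [if_neg h2, if_pos h3, if_neg h2, if_pos h3, ← h3]
        push_cast
        ring
      · rw [if_neg h2, if_neg h3, if_neg h2, if_neg h3]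
        norm_num
  rw [Finset.sum_congr rfl h1, ex_partI hs, ex_partI hs', ← hk]
  unfold pe
  rw [hinv, ← hk]
  have hsum : ∑ l ∈ R, (if k = (l : ℤ) then k else if -k = (l : ℤ) then k else 0) =
      if k.natAbs ∈ R then k else 0 := by
    rcases eq_or_ne k 0 with h0 | h0
    · rw [h0]
      simp
    · have h2 : ∀ l ∈ R, (if k = (l : ℤ) then k else if -k = (l : ℤ) then k else 0) =
          if k.natAbs = l then k else 0 := by
        intro l _
        by_cases h3 : k.natAbs = l
        · rw [if_pos h3]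
          rcases le_or_gt 0 k with h4 | h4
          · rw [if_pos (by omega)]
          · rw [if_neg (by omega), if_pos (by omega)]
        · rw [if_neg h3, if_neg (by omega), if_neg (by omega)]
      rw [Finset.sum_congr rfl h2, Finset.sum_ite_eq]
  rw [hsum]
  rcases lt_trichotomy k 0 with h | h | h
  · have e1 : (-k).toNat = k.natAbs := by omega
    rw [if_neg (show ¬ (0 < k ∧ k.toNat ∈ ((R : Set ℕ)ᶜ : Set ℕ)) from fun h2 => by omega)]
    by_cases h2 : k.natAbs ∈ R
    · rw [if_pos h2, if_neg]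
      · push_cast
        ring
      · rintro ⟨-, h3⟩
        rw [e1] at h3
        exact h3 h2
    · rw [if_neg h2, if_pos]
      · rw [e1]
        push_cast
        rw [abs_of_neg h]
        ring
      · refine ⟨by omega, ?_⟩
        rw [e1]
        exact h2
  · rw [h]
    simp
  · have e1 : k.toNat = k.natAbs := by omega
    rw [if_neg (show ¬ (0 < -k ∧ (-k).toNat ∈ ((R : Set ℕ)ᶜ : Set ℕ)) from fun h2 => by omega)]
    by_cases h2 : k.natAbs ∈ R
    · rw [if_pos h2, if_neg]
      · push_cast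
        ring
      · rintro ⟨-, h3⟩
        rw [e1] at h3
        exact h3 h2
    · rw [if_neg h2, if_pos]
      · rw [e1]
        push_cast
        rw [abs_of_pos h]
        ring
      · refine ⟨h, ?_⟩
        rw [e1]
        exact h2

end AbcEM
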