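import Pool.Agent.Work.MP_a793bb_nt.EM.LabD
import Pool.Agent.Work.MP_a793bb_nt.EM.LevL
import Pool.Agent.Work.MP_a793bb_nt.EM.HtG

/-!
# One fibre of the labels

Proof. If `F` is empty, clear. Fix `s₀ ∈ F`, `m = partI (1 + s₀) E`, `a l = levI s₀ l`, `b l = levI s₀⁻¹ l`. For `s ∈ F`: `partI (1 + s) E = m`; the primes dividing `m` divide the numerator of `1 + s` (`dvd_partI_iff`), so `kp p s = 0` there (trichotomy: `0 < kp p (1 + s)` implies `kp p s = 0`,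
since `s = (1 + s) - 1`), so the levels `levI s l`, `levI s⁻¹ l` are prime to `m` (`ex_levI`), they are in the class of `a l`, `b l` (same label), `log N (levI s l) = LR s {l} ≤ ca l`: so `levI s l ∈ idS m (a l) (ca l)`, `levI s⁻¹ l ∈ idS m (b l) (cb l)` for `l ∈ R`.
Put `u s = s / s₀ * ∏_{l ∈ R} (gn (b l) (levI s⁻¹ l)) ^ l / ∏_{l ∈ R} (gn (a l) (levI s l)) ^ l`. By `kp_decomp` for `s` and `s₀` (the parts outside `R` are the same), `gn_spec`: `kp p (u s) = 0` for all `p`. The height: `logHeight₁ (u s) ≤ hs s + hs s₀ + ∑ l * (logHeight₁ (gn ..) + logHeight₁ (gn ..))` (`logHeight₁` of products, inverses,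
powers: `logHeight₁_mul_le`, `logHeight₁_inv`, `logHeight₁_pow` or see how `OrdM` does it; `logHeight₁_le_hs`), and `height_gn`: `logHeight₁ (gn (a l) (levI s l)) ≤ 2 L + d C0` since `log N (levI y l) ≤ LP y univ ≤ hs`. So `logHeight₁ (u s) ≤ C' (1 + L)` with `C'` depending on
`R` and `K`: `card_same_val` (with `ε / C'`) gives at most `C exp (ε L)` values of `u s`. For a fixed value `u` of `u s`: `CongM m s s₀` (both `≡ -1`: `s - s₀ = (1 + s) - (1 + s₀)`, `kp p ≥ min ≥ ex m p` for `p ∣ m`, `ex_partI`; or `s = s₀`) so `red m (s / s₀) = 1` (`red_eq_iff`, `red_div`),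
`UnitAt m` for everything, so `red m u * prodT R m a x = prodT R m b y` with `x l = levI s l`, `y l = levI s⁻¹ l`, i.e. `prodT x = g * prodT y`, `g = (red m u)⁻¹`. The map `s ↦ (x, y)` is injective on the fibre (`s = u s₀ ∏ gn x ^ l / ∏ gn y ^ l`), so the fibre has at most `tcount .. g ≤ Bd` elements.
Total `C exp (ε L) * Bd`.
-/

set_option autoImplicit false

namespace AbcEM

open Finset Pool.Agent.Work.MP_a793bb_nt Pool.Agent.Work.MP_a793bb_nt.BPlus NumberField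
  IsDedekindDomain Height

section priv

variable {K : Type*} [Field K] [NumberField K]

private theorem kp_tri1 (p : HeightOneSpectrum (𝓞 K)) {s : K} (n0 : s ≠ 0) (n1 : 1 + s ≠ 0) :
    (0 < kp p s ∧ kp p (1 + s) = 0) ∨ (kp p s < 0 ∧ kp p (1 + s) = kp p s) ∨
      (kp p s = 0 ∧ 0 ≤ kp p (1 + s)) := by
  have a1 := av_lt_one_iff_kp p n0
  have a2 := av_one_iff_kp p n0
  have b1 := av_lt_one_iff_kp p n1
  have b2 := av_one_iff_kp p n1
  rcases kp_cases p s with ⟨h1, h2⟩ | ⟨h1, h2⟩ | ⟨h1, h2⟩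
  · left
    exact ⟨a1.1 h1, b2.1 h2⟩
  · right; left
    refine ⟨?_, kp_eq_of_av_eq p h2⟩
    by_contra hc
    rcases lt_or_eq_of_le (not_lt.1 hc) with h | h
    · exact absurd (a1.2 h) (by linarith)
    · exact absurd (a2.2 h.symm) (by linarith)
  · right; right
    refine ⟨a2.1 h1, ?_⟩
    rcases lt_or_eq_of_le h2 with h | h
    · exact (b1.1 h).le
    · exact (b2.1 h).ge

private theorem unitAt_side {s : K} (n0 : s ≠ 0) (n1 : 1 + s ≠ 0) (E : Set ℕ) :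
    UnitAt (partI (1 + s) E) s := by
  refine ⟨n0, fun p hp => ?_⟩
  rw [dvd_partI_iff n1] at hp
  have h := kp_tri1 p n0 n1
  omega

private theorem congM_side {s s' : K} (n1 : 1 + s ≠ 0) (n1' : 1 + s' ≠ 0) (E : Set ℕ)
    (h : partI (1 + s) E = partI (1 + s') E) : CongM (partI (1 + s') E) s s' := by
  by_cases hss : s = s'
  · exact Or.inl hss
  right
  intro p hp
  have hp2 : p.asIdeal ∣ partI (1 + s) E := h ▸ hp
  have e1 := ex_partI n1' E p
  have e2 := ex_partI n1 E p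
  rw [h] at e2
  rw [dvd_partI_iff n1'] at hp
  rw [dvd_partI_iff n1] at hp2
  have hne : (1 + s) - (1 + s') ≠ 0 := by
    intro h0
    apply hss
    linear_combination h0
  have hk := AbcOrdM.kp_sub_ge p n1 n1' hne
  rw [show (1 + s) - (1 + s') = s - s' by ring] at hk
  unfold pe at e1 e2
  rw [if_pos hp] at e1
  rw [if_pos hp2] at e2
  omega

/-- the product of the generators -/
private noncomputable def PA (R : Finset ℕ) (a : ℕ → Ideal (𝓞 K)) (x : R → Ideal (𝓞 K)) : K :=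
  ∏ l : R, gn (a l) (x l) ^ (l : ℕ)

private theorem PA_ne_zero {R : Finset ℕ} {a : ℕ → Ideal (𝓞 K)} {x : R → Ideal (𝓞 K)}
    (ha : ∀ l : R, a l ≠ ⊥) (hx : ∀ l : R, x l ≠ ⊥) (hc : ∀ l : R, cl (a l) = cl (x l)) :
    PA R a x ≠ 0 := by
  rw [PA, Finset.prod_ne_zero_iff]
  intro l _
  exact pow_ne_zero _ (gn_spec (ha l) (hx l) (hc l)).1

private theorem kp_PA {R : Finset ℕ} {a : ℕ → Ideal (𝓞 K)} {x : R → Ideal (𝓞 K)}
    (ha : ∀ l : R, a l ≠ ⊥) (hx : ∀ l : R, x l ≠ ⊥) (hc : ∀ l : R, cl (a l) = cl (x l))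
    (p : HeightOneSpectrum (𝓞 K)) :
    kp p (PA R a x) = ∑ l : R, ((l : ℕ) : ℤ) * ((ex (x l) p : ℤ) - ex (a l) p) := by
  rw [PA, kp_prod _ _ (fun l _ => pow_ne_zero _ (gn_spec (ha l) (hx l) (hc l)).1) p]
  refine Finset.sum_congr rfl fun l _ => ?_
  rw [kp_pow p (gn_spec (ha l) (hx l) (hc l)).1, (gn_spec (ha l) (hx l) (hc l)).2.1 p]

private theorem ht_PA {R : Finset ℕ} {a : ℕ → Ideal (𝓞 K)} {x : R → Ideal (𝓞 K)}
    (ha : ∀ l : R, a l ≠ ⊥) (hx : ∀ l : R, x l ≠ ⊥) (hc : ∀ l : R, cl (a l) = cl (x l))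
    {L : ℝ} (h1 : ∀ l : R, Real.log (Ideal.absNorm (a l)) ≤ L)
    (h2 : ∀ l : R, Real.log (Ideal.absNorm (x l)) ≤ L) :
    logHeight₁ (PA R a x) ≤ (∑ l ∈ R, (l : ℝ)) * (2 * L + Module.finrank ℚ K * C0 K) := by
  rw [PA]
  refine (logHeight₁_prod_le _ _).trans ?_
  rw [← Finset.sum_coe_sort R (fun l => (l : ℝ)), Finset.sum_mul]
  refine Finset.sum_le_sum fun l _ => ?_
  rw [logHeight₁_pow]
  have h3 := height_gn (ha l) (hx l) (hc l)
  have h4 := h1 l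
  have h5 := h2 l
  refine mul_le_mul_of_nonneg_left ?_ (by positivity)
  linarith

private theorem unitAt_PA {R : Finset ℕ} {m : Ideal (𝓞 K)} {a : ℕ → Ideal (𝓞 K)}
    {x : R → Ideal (𝓞 K)}
    (ha : ∀ l : R, a l ≠ ⊥) (hx : ∀ l : R, x l ≠ ⊥) (hc : ∀ l : R, cl (a l) = cl (x l))
    (h1 : ∀ l : R, CopI m (a l)) (h2 : ∀ l : R, CopI m (x l)) : UnitAt m (PA R a x) :=
  UnitAt.prod _ _ fun l _ => (unitAt_gn (ha l) (hx l) (hc l) (h1 l) (h2 l)).pow _

private theorem red_PA {R : Finset ℕ} {m : Ideal (𝓞 K)} (hm : m ≠ ⊥) {a : ℕ → Ideal (𝓞 K)}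
    {x : R → Ideal (𝓞 K)}
    (ha : ∀ l : R, a l ≠ ⊥) (hx : ∀ l : R, x l ≠ ⊥) (hc : ∀ l : R, cl (a l) = cl (x l))
    (h1 : ∀ l : R, CopI m (a l)) (h2 : ∀ l : R, CopI m (x l)) :
    red m (PA R a x) = prodT R m a x := by
  rw [PA, prodT, red_prod hm _ _
    fun l _ => (unitAt_gn (ha l) (hx l) (hc l) (h1 l) (h2 l)).pow _]
  refine Finset.prod_congr rfl fun l _ => ?_
  rw [red_pow hm (unitAt_gn (ha l) (hx l) (hc l) (h1 l) (h2 l))]

private theorem copI_levI {s : K} (n0 : s ≠ 0) {m : Ideal (𝓞 K)} (hu : UnitAt m s) {l : ℕ}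
    (hl : 1 ≤ l) : CopI m (levI s l) := by
  intro p hp
  rw [ex_levI n0 hl, hu.2 p hp, if_neg]
  omega

private theorem log_levI_le {s : K} (n0 : s ≠ 0) (l : ℕ) :
    Real.log (Ideal.absNorm (levI s l)) ≤ logHeight₁ s := by
  rw [log_absNorm_levI n0]
  refine le_trans ?_ (Rs_Zp_le n0)
  refine Rs_mono (finite_Zp n0) ?_
  rintro p ⟨h1, -⟩
  exact (av_lt_one_iff_kp p n0).2 h1

end priv

theorem fibre_one (K : Type*) [Field K] [NumberField K] (R : Finset ℕ) (hR : 0 ∉ R)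
    (E : Set ℕ) (ε : ℝ) (hε : 0 < ε) : ∃ C : ℝ, 1 ≤ C ∧ ∀ (L Bd : ℝ) (ca cb : ℕ → ℝ),
      0 ≤ L → 0 ≤ Bd → ∀ F : Finset K,
      (∀ s ∈ F, s ≠ 0 ∧ 1 + s ≠ 0 ∧ hs s ≤ L ∧ ∀ l ∈ R, LR s {l} ≤ ca l ∧ LR s⁻¹ {l} ≤ cb l) →
      (∀ s ∈ F, ∀ s' ∈ F, labF R E s = labF R E s') →
      (∀ s₀ ∈ F, ∀ g : (𝓞 K ⧸ partI (1 + s₀) E)ˣ,
        (tcount R (partI (1 + s₀) E) (levI s₀) (levI s₀⁻¹) ca cb g : ℝ) ≤ Bd) →
      (F.card : ℝ) ≤ C * Real.exp (ε * L) * Bd := by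
  classical
  set SR : ℝ := ∑ l ∈ R, (l : ℝ) with hSR
  have hSR0 : 0 ≤ SR := Finset.sum_nonneg fun _ _ => by positivity
  set D : ℝ := Module.finrank ℚ K * C0 K with hD
  have hD0 : 0 ≤ D := mul_nonneg (by positivity) (C0_nonneg K)
  set C' : ℝ := 2 + 2 * SR * (2 + D) with hC'
  have hC'0 : 0 < C' := by positivity
  obtain ⟨C, hC, hcard⟩ := AbcOrdM.card_same_val K (ε / C') (by positivity)
  refine ⟨C * Real.exp ε, one_le_mul_of_one_le_of_one_le hC (Real.one_le_exp hε.le), ?_⟩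
  intro L Bd ca cb hL hBd F hF hlab hT
  rcases F.eq_empty_or_nonempty with rfl | ⟨s₀, hs₀⟩
  · simp only [card_empty, Nat.cast_zero]
    positivity
  obtain ⟨n0, n1, hL0, hca0⟩ := hF s₀ hs₀
  set m : Ideal (𝓞 K) := partI (1 + s₀) E with hm
  have hmb : m ≠ ⊥ := partI_ne_bot n1 E
  have hl1 : ∀ l : R, 1 ≤ (l : ℕ) := fun l =>
    Nat.one_le_iff_ne_zero.2 fun h0 => hR (h0 ▸ l.2)
  -- consequences of the equality of the labels
  have hlb : ∀ s ∈ F, partI (1 + s) E = m ∧ partI s (R : Set ℕ)ᶜ = partI s₀ (R : Set ℕ)ᶜ ∧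
      partI s⁻¹ (R : Set ℕ)ᶜ = partI s₀⁻¹ (R : Set ℕ)ᶜ ∧
      (∀ l : R, cl (levI s₀ l) = cl (levI s l)) ∧
      ∀ l : R, cl (levI s₀⁻¹ l) = cl (levI s⁻¹ l) := by
    intro s hs
    have h := hlab s hs s₀ hs₀
    simp only [labF, Prod.mk.injEq] at h
    obtain ⟨h1, h2, h3, h4, h5⟩ := h
    exact ⟨h1, h2, h3, fun l => (congrFun h4 l).symm, fun l => (congrFun h5 l).symm⟩
  have hunit : ∀ s ∈ F, UnitAt m s := by
    intro s hs
    have h := unitAt_side (hF s hs).1 (hF s hs).2.1 E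
    rwa [(hlb s hs).1] at h
  have hred : ∀ s ∈ F, red m s = red m s₀ := by
    intro s hs
    rw [red_eq_iff hmb (hunit s hs) (hunit s₀ hs₀)]
    exact congM_side (hF s hs).2.1 n1 E (hlb s hs).1
  set X : K → R → Ideal (𝓞 K) := fun s l => levI s l with hX
  set Y : K → R → Ideal (𝓞 K) := fun s l => levI s⁻¹ l with hY
  have ha : ∀ l : R, levI s₀ (l : ℕ) ≠ ⊥ := fun l => levI_ne_bot n0 l
  have hb : ∀ l : R, levI s₀⁻¹ (l : ℕ) ≠ ⊥ := fun l => levI_ne_bot (inv_ne_zero n0) l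
  have hx : ∀ s ∈ F, ∀ l : R, X s l ≠ ⊥ := fun s hs l => levI_ne_bot (hF s hs).1 l
  have hy : ∀ s ∈ F, ∀ l : R, Y s l ≠ ⊥ := fun s hs l => levI_ne_bot (inv_ne_zero (hF s hs).1) l
  have hcx : ∀ s ∈ F, ∀ l : R, cl (levI s₀ l) = cl (X s l) := fun s hs => (hlb s hs).2.2.2.1
  have hcy : ∀ s ∈ F, ∀ l : R, cl (levI s₀⁻¹ l) = cl (Y s l) := fun s hs => (hlb s hs).2.2.2.2
  have hcopx : ∀ s ∈ F, ∀ l : R, CopI m (X s l) := fun s hs l =>
    copI_levI (hF s hs).1 (hunit s hs) (hl1 l)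
  have hcopy : ∀ s ∈ F, ∀ l : R, CopI m (Y s l) := fun s hs l =>
    copI_levI (inv_ne_zero (hF s hs).1) (hunit s hs).inv (hl1 l)
  set u : K → K := fun s => s / s₀ * (PA R (levI s₀⁻¹) (Y s) / PA R (levI s₀) (X s)) with hu
  have hu0 : ∀ s ∈ F, u s ≠ 0 := by
    intro s hs
    exact mul_ne_zero (div_ne_zero (hF s hs).1 n0)
      (div_ne_zero (PA_ne_zero hb (hy s hs) (hcy s hs)) (PA_ne_zero ha (hx s hs) (hcx s hs)))
  have hkp : ∀ s ∈ F, ∀ p : HeightOneSpectrum (𝓞 K), kp p (u s) = 0 := by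
    intro s hs p
    rw [hu]
    simp only
    rw [kp_mul p (div_ne_zero (hF s hs).1 n0)
      (div_ne_zero (PA_ne_zero hb (hy s hs) (hcy s hs)) (PA_ne_zero ha (hx s hs) (hcx s hs))),
      kp_div p (hF s hs).1 n0, kp_div p (PA_ne_zero hb (hy s hs) (hcy s hs))
        (PA_ne_zero ha (hx s hs) (hcx s hs)), kp_PA hb (hy s hs) (hcy s hs),
      kp_PA ha (hx s hs) (hcx s hs), kp_decomp R hR (hF s hs).1 p, kp_decomp R hR n0 p,
      (hlb s hs).2.1, (hlb s hs).2.2.1,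
      ← Finset.sum_coe_sort R (fun l => (l : ℤ) * ((ex (levI s l) p : ℤ) - ex (levI s⁻¹ l) p)),
      ← Finset.sum_coe_sort R (fun l => (l : ℤ) * ((ex (levI s₀ l) p : ℤ) - ex (levI s₀⁻¹ l) p))]
    have hsum : ∑ l : R, ((l : ℕ) : ℤ) * ((ex (levI s l) p : ℤ) - ex (levI s⁻¹ l) p) -
        ∑ l : R, ((l : ℕ) : ℤ) * ((ex (levI s₀ l) p : ℤ) - ex (levI s₀⁻¹ l) p) +
        (∑ l : R, ((l : ℕ) : ℤ) * ((ex (Y s l) p : ℤ) - ex (levI s₀⁻¹ l) p) -
        ∑ l : R, ((l : ℕ) : ℤ) * ((ex (X s l) p : ℤ) - ex (levI s₀ l) p)) = 0 := by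
      rw [← Finset.sum_sub_distrib, ← Finset.sum_sub_distrib, ← Finset.sum_add_distrib]
      refine Finset.sum_eq_zero fun l _ => ?_
      simp only [hX, hY]
      ring
    linarith
  have hht : ∀ s ∈ F, logHeight₁ (u s) ≤ C' * (1 + L) := by
    intro s hs
    have hs1 : logHeight₁ s ≤ L := (logHeight₁_le_hs s).trans (hF s hs).2.2.1
    have hs01 : logHeight₁ s₀ ≤ L := (logHeight₁_le_hs s₀).trans hL0
    have k1 := ht_PA ha (hx s hs) (hcx s hs) (L := L) (fun l => (log_levI_le n0 l).trans hs01)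
      (fun l => (log_levI_le (hF s hs).1 l).trans hs1)
    have k2 := ht_PA hb (hy s hs) (hcy s hs) (L := L)
      (fun l => (log_levI_le (inv_ne_zero n0) l).trans (by rw [logHeight₁_inv]; exact hs01))
      (fun l => (log_levI_le (inv_ne_zero (hF s hs).1) l).trans
        (by rw [logHeight₁_inv]; exact hs1))
    have k3 := logHeight₁_mul_le (s / s₀) (PA R (levI s₀⁻¹) (Y s) / PA R (levI s₀) (X s))
    have k4 := logHeight₁_mul_le s s₀⁻¹
    have k5 := logHeight₁_mul_le (PA R (levI s₀⁻¹) (Y s)) (PA R (levI s₀) (X s))⁻¹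
    rw [logHeight₁_inv, ← div_eq_mul_inv] at k4 k5
    rw [← hSR, ← hD] at k1 k2
    have k6 : SR * (2 * L + D) ≤ SR * ((2 + D) * (1 + L)) :=
      mul_le_mul_of_nonneg_left (by nlinarith) hSR0
    have k7 : logHeight₁ (u s) ≤ 2 * L + 2 * (SR * (2 * L + D)) := by
      rw [hu]
      simp only
      linarith
    rw [hC']
    nlinarith
  have hcount : ((F.image u).card : ℝ) ≤ C * Real.exp ε * Real.exp (ε * L) := by
    have h := hcard (C' * (1 + L)) (by positivity) (F.image u) (by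
      intro x hx'
      obtain ⟨s, hs, rfl⟩ := Finset.mem_image.1 hx'
      exact ⟨hu0 s hs, hht s hs⟩) (by
      intro x hx' y hy' p
      obtain ⟨s, hs, rfl⟩ := Finset.mem_image.1 hx'
      obtain ⟨s', hs', rfl⟩ := Finset.mem_image.1 hy'
      rw [hkp s hs p, hkp s' hs' p])
    refine h.trans (le_of_eq ?_)
    rw [mul_assoc, ← Real.exp_add]
    congr 2
    field_simp
  refine card_le_fib F (F.image u) u hBd (fun a ha' => Finset.mem_image_of_mem u ha') hcount ?_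
  intro b hb'
  obtain ⟨r, hr, rfl⟩ := Finset.mem_image.1 hb'
  refine le_trans ?_ (hT s₀ hs₀ (red m (u r))⁻¹)
  rw [tcount]
  norm_cast
  refine Finset.card_le_card_of_injOn (fun s => (X s, Y s)) ?_ ?_
  · intro s hs
    obtain ⟨hsF, hsu⟩ := Finset.mem_filter.1 hs
    have hidx : ∀ l : R, X s l ∈ idS m (levI s₀ l) (ca l) := by
      intro l
      rw [mem_idS]
      refine ⟨hx s hsF l, ?_, hcx s hsF l, hcopx s hsF l⟩
      have h1 := ((hF s hsF).2.2.2 l l.2).1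
      rw [← log_absNorm_levI (hF s hsF).1] at h1
      rwa [Real.log_le_iff_le_exp (absNorm_pos' (hx s hsF l))] at h1
    have hidy : ∀ l : R, Y s l ∈ idS m (levI s₀⁻¹ l) (cb l) := by
      intro l
      rw [mem_idS]
      refine ⟨hy s hsF l, ?_, hcy s hsF l, hcopy s hsF l⟩
      have h1 := ((hF s hsF).2.2.2 l l.2).2
      rw [← log_absNorm_levI (inv_ne_zero (hF s hsF).1)] at h1
      rwa [Real.log_le_iff_le_exp (absNorm_pos' (hy s hsF l))] at h1
    rw [Finset.mem_coe, Finset.mem_filter, Finset.mem_product, Fintype.mem_piFinset,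
      Fintype.mem_piFinset]
    refine ⟨⟨hidx, hidy⟩, ?_⟩
    have uA := unitAt_PA ha (hx s hsF) (hcx s hsF) (hcopx s₀ hs₀) (hcopx s hsF)
    have uB := unitAt_PA hb (hy s hsF) (hcy s hsF) (hcopy s₀ hs₀) (hcopy s hsF)
    have e1 : red m (u s) = prodT R m (levI s₀⁻¹) (Y s) / prodT R m (levI s₀) (X s) := by
      rw [hu]
      simp only
      rw [red_mul hmb ((hunit s hsF).div (hunit s₀ hs₀)) (uB.div uA),
        red_div hmb (hunit s hsF) (hunit s₀ hs₀), hred s hsF, div_self', one_mul,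
        red_div hmb uB uA, red_PA hmb ha (hx s hsF) (hcx s hsF) (hcopx s₀ hs₀) (hcopx s hsF),
        red_PA hmb hb (hy s hsF) (hcy s hsF) (hcopy s₀ hs₀) (hcopy s hsF)]
    rw [hsu] at e1
    show prodT R m (levI s₀) (X s) = (red m (u r))⁻¹ * prodT R m (levI s₀⁻¹) (Y s)
    rw [e1]
    simp
  · intro s hs s' hs' hss
    obtain ⟨hsF, hsu⟩ := Finset.mem_filter.1 hs
    obtain ⟨hsF', hsu'⟩ := Finset.mem_filter.1 hs'
    have hX' : X s = X s' := congrArg Prod.fst hss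
    have hY' : Y s = Y s' := congrArg Prod.snd hss
    have h1 : u s = u s' := hsu.trans hsu'.symm
    rw [hu] at h1
    simp only at h1
    rw [hX', hY'] at h1
    have h2 := mul_right_cancel₀ (div_ne_zero (PA_ne_zero hb (hy s' hsF') (hcy s' hsF'))
      (PA_ne_zero ha (hx s' hsF') (hcx s' hsF'))) h1
    exact (div_left_inj' n0).1 h2

end AbcEM
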