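import Pool.Agent.Work.MP_a793bb_nt.EM.LabD

/-!
# The number of the labels

Proof. `partI (1 + s) E ∈ idealsRad K (exp L) (exp ρ)` (`partI_mem` in `CountBlock.lean` with `X = exp L`, `LP (1 + s) E ≤ hs s` by `LP_side_c`), `partI s Rᶜ ∈ idealsRad K (exp L) (exp αf)` (`LP_side_a`),
`partI s⁻¹ Rᶜ ∈ idealsRad K (exp L) (exp βf)` (`LP_side_b`), and `2 #R` elements of `Fin (ncl K + 1)`. `card_idealsRad_le` with `δ = ε / 3`: the number is at most
`(C exp (ε L / 3)) ^ 3 exp (ρ + αf + βf) * (ncl K + 1) ^ (2 #R)`.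
-/

set_option autoImplicit false

namespace AbcEM

open Finset Pool.Agent.Work.MP_a793bb_nt Pool.Agent.Work.MP_a793bb_nt.BPlus NumberField
  IsDedekindDomain Height

open Classical in
theorem label_count (K : Type*) [Field K] [NumberField K] (R : Finset ℕ) (E : Set ℕ) (ε : ℝ)
    (hε : 0 < ε) : ∃ C : ℝ, 1 ≤ C ∧ ∀ L ρ αf βf : ℝ, 0 ≤ L → ∀ F : Finset K,
      (∀ s ∈ F, s ≠ 0 ∧ 1 + s ≠ 0 ∧ hs s ≤ L ∧ LR (1 + s) E ≤ ρ ∧
        LR s (R : Set ℕ)ᶜ ≤ αf ∧ LR s⁻¹ (R : Set ℕ)ᶜ ≤ βf) →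
      ((F.image (labF R E)).card : ℝ) ≤ C * Real.exp (ε * L) * Real.exp (ρ + αf + βf) := by
  have hε3 : 0 < ε / 3 := by linarith
  obtain ⟨C₂, hC₂, hid⟩ := card_idealsRad_le (K := K) hε3
  set M : ℕ := Fintype.card (R → Fin (ncl K + 1)) with hM
  have hM1 : (1 : ℝ) ≤ M := by
    have h1 : 0 < Fintype.card (R → Fin (ncl K + 1)) := Fintype.card_pos
    exact_mod_cast h1
  refine ⟨(C₂ * C₂ * C₂) * (M * M), ?_, fun L ρ αf βf hL F hF => ?_⟩
  · refine one_le_mul_of_one_le_of_one_le ?_ (one_le_mul_of_one_le_of_one_le hM1 hM1)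
    exact one_le_mul_of_one_le_of_one_le (one_le_mul_of_one_le_of_one_le hC₂ hC₂) hC₂
  have hcount : ∀ ω : ℝ,
      ((finite_idealsRad (K := K) (Real.exp L) (Real.exp ω)).toFinset.card : ℝ) ≤
        C₂ * (Real.exp L) ^ (ε / 3) * Real.exp ω := by
    intro ω
    rw [← Set.ncard_eq_toFinset_card _ (finite_idealsRad (K := K) (Real.exp L) (Real.exp ω))]
    exact hid (Real.exp L) (Real.exp ω) (Real.one_le_exp hL) (Real.exp_pos _).le
  set A := (finite_idealsRad (K := K) (Real.exp L) (Real.exp ρ)).toFinset with hA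
  set B := (finite_idealsRad (K := K) (Real.exp L) (Real.exp αf)).toFinset with hB
  set D := (finite_idealsRad (K := K) (Real.exp L) (Real.exp βf)).toFinset with hD
  have hsub : F.image (labF R E) ⊆
      A ×ˢ (B ×ˢ (D ×ˢ ((Finset.univ : Finset (R → Fin (ncl K + 1))) ×ˢ
        (Finset.univ : Finset (R → Fin (ncl K + 1)))))) := by
    intro y hy
    obtain ⟨s, hs', rfl⟩ := Finset.mem_image.mp hy
    obtain ⟨h0, h1, h2, h3, h4, h5⟩ := hF s hs'
    have hlog : Real.log (Real.exp L) = L := Real.log_exp L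
    simp only [labF, Finset.mem_product, hA, hB, hD, Set.Finite.mem_toFinset, Finset.mem_univ,
      and_true]
    exact ⟨partI_mem h1 _ (Real.exp_pos _) (by rw [hlog]; exact (LP_side_c h1 _).trans h2) h3,
      partI_mem h0 _ (Real.exp_pos _) (by rw [hlog]; exact (LP_side_a h0 _).trans h2) h4,
      partI_mem (inv_ne_zero h0) _ (Real.exp_pos _)
        (by rw [hlog]; exact (LP_side_b h0 _).trans h2) h5⟩
  have hcard : ((F.image (labF R E)).card : ℝ) ≤
      (A.card : ℝ) * ((B.card : ℝ) * ((D.card : ℝ) * ((M : ℝ) * M))) := by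
    have h1 := Finset.card_le_card hsub
    rw [Finset.card_product, Finset.card_product, Finset.card_product, Finset.card_product,
      Finset.card_univ] at h1
    exact_mod_cast h1
  have h6 : (Real.exp L) ^ (ε / 3) * (Real.exp L) ^ (ε / 3) * (Real.exp L) ^ (ε / 3) =
      Real.exp (ε * L) := by
    rw [← Real.exp_mul, ← Real.exp_add, ← Real.exp_add]
    congr 1
    ring
  refine hcard.trans ?_
  calc (A.card : ℝ) * ((B.card : ℝ) * ((D.card : ℝ) * ((M : ℝ) * M))) ≤
      (C₂ * (Real.exp L) ^ (ε / 3) * Real.exp ρ) * ((C₂ * (Real.exp L) ^ (ε / 3) * Real.exp αf) *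
        ((C₂ * (Real.exp L) ^ (ε / 3) * Real.exp βf) * ((M : ℝ) * M))) := by
        have e2 := hcount ρ
        have e3 := hcount αf
        have e4 := hcount βf
        gcongr
    _ = (C₂ * C₂ * C₂) * (M * M) * Real.exp (ε * L) * Real.exp (ρ + αf + βf) := by
        rw [Real.exp_add, Real.exp_add, ← h6]
        ring

end AbcEM
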