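import Pool.Agent.Work.MP_a793bb_nt.EM.FibK
import Pool.Agent.Work.MP_a793bb_nt.EM.LabN

/-!
# Reduction to the number of the tuples

Proof. Sort `F` by the label `labF R E s`: at most `C exp (ε L / 2) exp (ρ + αf + βf)` labels (`label_count`), and every fibre has at most `C exp (ε L / 2) Bd` elements (`fibre_one`): for `s₀` in the fibre, with `m = partI (1 + s₀) E`, `log N m = LP (1 + s₀) E ∈ [μ, L]` (`log_absNorm_partI`, `LP_side_c`),
`levI s₀ l ∈ idS m (levI s₀ l) (ca l)` (prime to `m`: `ex_levI`, and `kp p s₀ = 0` at the primes dividing `m`; `log_absNorm_levI`), the same for `levI s₀⁻¹ l`, so the hypothesis on `tcount` applies.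
-/

set_option autoImplicit false

namespace AbcEM

open Finset Pool.Agent.Work.MP_a793bb_nt Pool.Agent.Work.MP_a793bb_nt.BPlus NumberField
  IsDedekindDomain Height

private theorem fib_kp {K : Type*} [Field K] [NumberField K] {s : K} (h0 : s ≠ 0)
    (h1 : 1 + s ≠ 0) (p : HeightOneSpectrum (𝓞 K)) (hp : 0 < kp p (1 + s)) : kp p s = 0 := by
  have h2 : -s ≠ 0 := neg_ne_zero.2 h0
  have h3 : -s ≠ 1 := by
    intro h
    apply h1
    linear_combination -h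
  have h4 := kp_tri p h2 h3
  rw [sub_neg_eq_add, kp_neg] at h4
  omega

private theorem fib_idS {K : Type*} [Field K] [NumberField K] {s : K} (h0 : s ≠ 0)
    (h1 : 1 + s ≠ 0) (E : Set ℕ) {l : ℕ} (hl : 1 ≤ l) {c : ℝ} (y : K) (hy : y = s ∨ y = s⁻¹)
    (hc : LR y {l} ≤ c) : levI y l ∈ idS (partI (1 + s) E) (levI y l) c := by
  have hy0 : y ≠ 0 := by
    rcases hy with rfl | rfl
    · exact h0
    · exact inv_ne_zero h0
  rw [mem_idS]
  refine ⟨levI_ne_bot hy0 l, ?_, rfl, fun p hp => ?_⟩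
  · have h2 := log_absNorm_levI hy0 l
    have h3 := absNorm_pos' (levI_ne_bot hy0 l)
    rw [← Real.log_le_iff_le_exp h3, h2]
    exact hc
  · have h2 := fib_kp h0 h1 p ((dvd_partI_iff h1 E p).1 hp).1
    have h3 : kp p y = 0 := by
      rcases hy with rfl | rfl
      · exact h2
      · rw [BPlus.kp_inv, h2, neg_zero]
    rw [ex_levI hy0 hl, h3, if_neg]
    intro h4
    have h5 : (l : ℤ) = 0 := h4.symm
    omega

theorem fibre_le (K : Type*) [Field K] [NumberField K] (R : Finset ℕ) (hR : 0 ∉ R)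
    (E : Set ℕ) (ε : ℝ) (hε : 0 < ε) : ∃ C : ℝ, 1 ≤ C ∧
    ∀ (L ρ μ αf βf Bd : ℝ) (ca cb : ℕ → ℝ), 0 ≤ L → 0 ≤ Bd → ∀ F : Finset K,
      (∀ s ∈ F, s ≠ 0 ∧ 1 + s ≠ 0 ∧ hs s ≤ L ∧ LR (1 + s) E ≤ ρ ∧ μ ≤ LP (1 + s) E ∧
        LR s (R : Set ℕ)ᶜ ≤ αf ∧ LR s⁻¹ (R : Set ℕ)ᶜ ≤ βf ∧
        ∀ l ∈ R, LR s {l} ≤ ca l ∧ LR s⁻¹ {l} ≤ cb l) →
      (∀ (m : Ideal (𝓞 K)) (a b : ℕ → Ideal (𝓞 K)) (g : (𝓞 K ⧸ m)ˣ), m ≠ ⊥ →
        μ ≤ Real.log (Ideal.absNorm m) → Real.log (Ideal.absNorm m) ≤ L →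
        (∀ l ∈ R, a l ∈ idS m (a l) (ca l) ∧ b l ∈ idS m (b l) (cb l)) →
        (tcount R m a b ca cb g : ℝ) ≤ Bd) →
      (F.card : ℝ) ≤ C * Real.exp (ε * L) * Real.exp (ρ + αf + βf) * Bd := by
  classical
  obtain ⟨C1, hC1, H1⟩ := label_count K R E (ε / 2) (by linarith)
  obtain ⟨C2, hC2, H2⟩ := fibre_one K R hR E (ε / 2) (by linarith)
  refine ⟨C1 * C2, one_le_mul_of_one_le_of_one_le hC1 hC2,
    fun L ρ μ αf βf Bd ca cb hL hBd F hF ht => ?_⟩
  have h1 := H1 L ρ αf βf hL F (fun s hs => by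
    obtain ⟨a1, a2, a3, a4, a5, a6, a7, a8⟩ := hF s hs
    exact ⟨a1, a2, a3, a4, a6, a7⟩)
  have h2 : ∀ b ∈ F.image (labF R E), ((F.filter (fun s => labF R E s = b)).card : ℝ) ≤
      C2 * Real.exp (ε / 2 * L) * Bd := by
    intro b _
    refine H2 L Bd ca cb hL hBd _ (fun s hs => ?_) (fun s hs s' hs' => ?_) (fun s₀ hs g => ?_)
    · obtain ⟨a1, a2, a3, a4, a5, a6, a7, a8⟩ := hF s (mem_filter.1 hs).1
      exact ⟨a1, a2, a3, a8⟩
    · rw [(mem_filter.1 hs).2, (mem_filter.1 hs').2]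
    · obtain ⟨a1, a2, a3, a4, a5, a6, a7, a8⟩ := hF s₀ (mem_filter.1 hs).1
      refine ht _ _ _ g (partI_ne_bot a2 E) ?_ ?_ (fun l hl => ?_)
      · rw [log_absNorm_partI a2]
        exact a5
      · rw [log_absNorm_partI a2]
        exact (LP_side_c a2 E).trans a3
      · have hl1 : 1 ≤ l := by
          rcases Nat.eq_zero_or_pos l with h | h
          · rw [h] at hl
            exact absurd hl hR
          · exact h
        exact ⟨fib_idS a1 a2 E hl1 s₀ (Or.inl rfl) (a8 l hl).1,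
          fib_idS a1 a2 E hl1 s₀⁻¹ (Or.inr rfl) (a8 l hl).2⟩
  have h3 := card_le_fib F (F.image (labF R E)) (labF R E)
    (M1 := C1 * Real.exp (ε / 2 * L) * Real.exp (ρ + αf + βf))
    (M2 := C2 * Real.exp (ε / 2 * L) * Bd) (by positivity)
    (fun a ha => mem_image_of_mem _ ha) h1 h2
  refine h3.trans (le_of_eq ?_)
  have h4 : Real.exp (ε * L) = Real.exp (ε / 2 * L) * Real.exp (ε / 2 * L) := by
    rw [← Real.exp_add]
    congr 1
    ring
  rw [h4]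
  ring

end AbcEM
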