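import Pool.Agent.Work.MP_a793bb_nt.EM.KDefs0
import Pool.Agent.Work.MP_a793bb_nt.Balanced

/-!
# Balanced generators of quotients of equivalent ideals

Proof. Take `n + 1 = #ClassGroup (𝓞 K)` and `cl I` the number of the class of `I` (`ClassGroup.mk0`, any value for `I = ⊥`), via
`Fintype.equivFin` (`Fintype (ClassGroup (𝓞 K))` is an instance, the card is positive). If `cl a = cl x` and `a, x ≠ ⊥` then `ClassGroup.mk0_eq_mk0_iff` gives nonzero
`α, β : 𝓞 K` with `(α) a = (β) x`; `z = α / β ∈ K` has `kp p z = ex x p - ex a p` (`kp p` of an integral element `α ≠ 0` is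
`ex (span {α}) p`, see `ex_mul`, and the lemmas on `kp` and `ex` in `NumIdeal.lean`, `Selmer.lean`). With `N(z) = ∏_v v(z) ^ mult v = N x / N a`
(`InfinitePlace.prod_eq_abs_norm`, `Ideal.absNorm_span_singleton`; or from `(α) a = (β) x` and `absNorm` multiplicative), the reals
`y v = (log N x - log N a) / d - log (v z)` satisfy `∑ mult v * y v = 0` (`∑ mult v = d`, as in `Balanced.lean`), so `exists_unit_near` gives
a unit `u` with `|log (v u) - y v| ≤ C`; `gn a x = u z`. (`kp p u = 0` for units.)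
-/

set_option autoImplicit false

namespace AbcEM

open Finset Pool.Agent.Work.MP_a793bb_nt Pool.Agent.Work.MP_a793bb_nt.BPlus NumberField
  IsDedekindDomain Height

private theorem gen_prod {K : Type*} [Field K] [NumberField K] (a : 𝓞 K) :
    ∏ v : InfinitePlace K, v (a : K) ^ v.mult = (Ideal.absNorm (Ideal.span {a}) : ℝ) := by
  rw [InfinitePlace.prod_eq_abs_norm, Ideal.absNorm_span_singleton]
  have h := Algebra.coe_norm_int a
  rw [← Int.cast_natCast, Int.natCast_natAbs, Int.cast_abs]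
  have h2 : ((Algebra.norm ℤ a : ℤ) : ℚ) = Algebra.norm ℚ (a : K) := h
  rw [← h2]
  push_cast
  rfl

private theorem gen_log {K : Type*} [Field K] [NumberField K] {a : 𝓞 K} (ha : a ≠ 0) :
    ∑ v : InfinitePlace K, (v.mult : ℝ) * Real.log (v (a : K)) =
      Real.log (Ideal.absNorm (Ideal.span {a}) : ℝ) := by
  have ha' : (a : K) ≠ 0 := by exact_mod_cast ha
  rw [← gen_prod, Real.log_prod (fun v _ => pow_ne_zero _ (InfinitePlace.pos_iff.mpr ha').ne')]
  refine Finset.sum_congr rfl fun v _ => ?_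
  rw [Real.log_pow]

private theorem gen_pos {K : Type*} [Field K] [NumberField K] {I : Ideal (𝓞 K)} (hI : I ≠ ⊥) :
    (Ideal.absNorm I : ℝ) ≠ 0 := by
  rw [Ne, Nat.cast_eq_zero, Ideal.absNorm_eq_zero_iff]
  exact hI

theorem exists_gen (K : Type*) [Field K] [NumberField K] :
    ∃ (C₀ : ℝ) (n : ℕ) (cl : Ideal (𝓞 K) → Fin (n + 1)) (gn : Ideal (𝓞 K) → Ideal (𝓞 K) → K),
      0 ≤ C₀ ∧ ∀ a x : Ideal (𝓞 K), a ≠ ⊥ → x ≠ ⊥ → cl a = cl x → gn a x ≠ 0 ∧
        (∀ p : HeightOneSpectrum (𝓞 K), kp p (gn a x) = (ex x p : ℤ) - ex a p) ∧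
        ∀ v : InfinitePlace K, |Real.log (v (gn a x)) -
          (Real.log (Ideal.absNorm x) - Real.log (Ideal.absNorm a)) / Module.finrank ℚ K| ≤ C₀ := by
  classical
  obtain ⟨C₀, hC₀, hunit⟩ := exists_unit_near K
  obtain ⟨n, ⟨e⟩⟩ := Finite.exists_equiv_fin (ClassGroup (𝓞 K))
  cases n with
  | zero => exact (e 1).elim0
  | succ n =>
    set cl : Ideal (𝓞 K) → Fin (n + 1) := fun I =>
      if h : I ≠ ⊥ then e (ClassGroup.mk0 ⟨I, mem_nonZeroDivisors_of_ne_zero h⟩) else 0 with hcl
    have key : ∀ a x : Ideal (𝓞 K), ∃ g : K, a ≠ ⊥ → x ≠ ⊥ → cl a = cl x → g ≠ 0 ∧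
        (∀ p : HeightOneSpectrum (𝓞 K), kp p g = (ex x p : ℤ) - ex a p) ∧
        ∀ v : InfinitePlace K, |Real.log (v g) -
          (Real.log (Ideal.absNorm x) - Real.log (Ideal.absNorm a)) / Module.finrank ℚ K| ≤
            C₀ := by
      intro a x
      by_cases ha : a = ⊥
      · exact ⟨0, fun h => absurd ha h⟩
      by_cases hx : x = ⊥
      · exact ⟨0, fun _ h => absurd hx h⟩
      by_cases hax : cl a = cl x
      swap
      · exact ⟨0, fun _ _ h => absurd h hax⟩
      rw [hcl] at hax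
      simp only at hax
      rw [dif_pos ha, dif_pos hx] at hax
      obtain ⟨α, β, hα, hβ, hαβ⟩ := ClassGroup.mk0_eq_mk0_iff.mp (e.injective hax)
      simp only at hαβ
      have hα' : (α : K) ≠ 0 := by exact_mod_cast hα
      have hβ' : (β : K) ≠ 0 := by exact_mod_cast hβ
      have hsα : Ideal.span {α} ≠ (⊥ : Ideal (𝓞 K)) := by simpa using hα
      have hsβ : Ideal.span {β} ≠ (⊥ : Ideal (𝓞 K)) := by simpa using hβ
      have hd : (0 : ℝ) < Module.finrank ℚ K := by exact_mod_cast Module.finrank_pos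
      have hN : Real.log (Ideal.absNorm (Ideal.span {α}) : ℝ) + Real.log (Ideal.absNorm a) =
          Real.log (Ideal.absNorm (Ideal.span {β}) : ℝ) + Real.log (Ideal.absNorm x) := by
        rw [← Real.log_mul (gen_pos hsα) (gen_pos ha), ← Real.log_mul (gen_pos hsβ) (gen_pos hx),
          ← Nat.cast_mul, ← Nat.cast_mul, ← map_mul, ← map_mul, hαβ]
      set L : ℝ := (Real.log (Ideal.absNorm x) - Real.log (Ideal.absNorm a)) /
        Module.finrank ℚ K with hL
      obtain ⟨u, hu⟩ := hunit (fun v => L - (Real.log (v (α : K)) - Real.log (v (β : K)))) (by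
        simp only [mul_sub]
        rw [Finset.sum_sub_distrib, Finset.sum_sub_distrib, gen_log hα, gen_log hβ,
          ← Finset.sum_mul]
        have : ∑ v : InfinitePlace K, (v.mult : ℝ) = Module.finrank ℚ K := by
          rw [← InfinitePlace.sum_mult_eq]; push_cast; rfl
        rw [this, hL]
        field_simp
        linarith)
      have hu0 : ((u : 𝓞 K) : K) ≠ 0 := NumberField.Units.coe_ne_zero u
      refine ⟨(u : K) * ((α : K) / (β : K)), fun _ _ _ => ⟨mul_ne_zero hu0 (div_ne_zero hα' hβ'),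
        fun p => ?_, fun v => ?_⟩⟩
      · have h1 : kp p ((u : 𝓞 K) : K) = 0 := by
          rw [← ex_span (Units.ne_zero u) p, Ideal.span_singleton_eq_top.mpr u.isUnit,
            ← Ideal.one_eq_top, ex_one]
          rfl
        have h2 : ex (Ideal.span {α} * a) p = ex (Ideal.span {β} * x) p := by rw [hαβ]
        rw [ex_mul hsα ha, ex_mul hsβ hx] at h2
        rw [kp_mul p hu0 (div_ne_zero hα' hβ'), kp_div p hα' hβ', h1, ← ex_span hα p,
          ← ex_span hβ p]
        omega
      · have h1 := hu v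
        have h2 : v ((u : K) * ((α : K) / (β : K))) = v (u : K) * (v (α : K) / v (β : K)) := by
          rw [map_mul, map_div₀]
        have hv : ∀ {z : K}, z ≠ 0 → v z ≠ 0 := fun hz => (InfinitePlace.pos_iff.mpr hz).ne'
        rw [h2, Real.log_mul (hv hu0) (div_ne_zero (hv hα') (hv hβ')),
          Real.log_div (hv hα') (hv hβ')]
        have e1 : Real.log (v (u : K)) + (Real.log (v (α : K)) - Real.log (v (β : K))) - L =
            Real.log (v (u : K)) - (L - (Real.log (v (α : K)) - Real.log (v (β : K)))) := by ring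
        rw [e1]
        exact h1
    choose gn hgn using key
    exact ⟨C₀, n, cl, gn, hC₀, fun a x h1 h2 h3 => hgn a x h1 h2 h3⟩

end AbcEM
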