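import Pool.Agent.Work.MP_a793bb_nt.EM.KDefs0

/-!
# Weighted Hoelder inequality for averages

Proof. Put `θ i = s i / (2 k i) ≥ 0`, `∑ θ ≤ 1`, `A i = (∑ ψ, f i ψ ^ (2 k i)) / n ≥ 0`. If `A i = 0` for some `i` with `s i > 0`, then `f i ψ = 0` for all `ψ` and the left side is `0` (`0 ^ s = 0`), the right side is `≥ 0`. If `s i = 0`, the
factor `i` is `1` on both sides (`rpow_zero`). So assume `A i > 0` for all `i` with `s i > 0`; for the remaining `i` replace the factor by `1` (`θ i = 0`). For every `ψ`,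
`∏ (f i ψ ^ (2 k i) / A i) ^ θ i * 1 ^ (1 - ∑ θ) ≤ ∑ θ i * f i ψ ^ (2 k i) / A i + (1 - ∑ θ)` by the weighted AM-GM inequality (`Real.geom_mean_le_arith_mean_weighted` on `Option ι`; `(f ^ (2k)) ^ θ = f ^ s`, `Real.rpow_natCast`, `Real.rpow_mul`).
The average over `ψ` of the right side is `≤ ∑ θ i + 1 - ∑ θ = 1`.
-/

set_option autoImplicit false

namespace AbcEM

open Finset Pool.Agent.Work.MP_a793bb_nt Pool.Agent.Work.MP_a793bb_nt.BPlus NumberField
  IsDedekindDomain Height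

private theorem amgm_opt {ι : Type*} [Fintype ι] (w z : ι → ℝ) (hw : ∀ i, 0 ≤ w i)
    (hw1 : ∑ i, w i ≤ 1) (hz : ∀ i, 0 ≤ z i) :
    ∏ i, z i ^ w i ≤ ∑ i, w i * z i + (1 - ∑ i, w i) := by
  have h := Real.geom_mean_le_arith_mean_weighted (Finset.univ : Finset (Option ι))
    (fun o => o.elim (1 - ∑ i, w i) w) (fun o => o.elim 1 z)
    (fun o _ => by
      cases o with
      | none => exact sub_nonneg.2 hw1
      | some i => exact hw i)
    (by
      rw [Fintype.sum_option]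
      simp)
    (fun o _ => by
      cases o with
      | none => exact zero_le_one
      | some i => exact hz i)
  rw [Fintype.prod_option, Fintype.sum_option] at h
  simp only [Option.elim_none, Option.elim_some, Real.one_rpow, one_mul, mul_one] at h
  linarith

private theorem hold_pos {ι : Type*} [Fintype ι] {n : ℕ} (hn : 0 < n) (h : ι → Fin n → ℝ)
    (hh : ∀ i ψ, 0 ≤ h i ψ) (θ B : ι → ℝ) (hθ : ∀ i, 0 ≤ θ i) (hθ1 : ∑ i, θ i ≤ 1)
    (hB : ∀ i, 0 < B i) (hav : ∀ i, (∑ ψ, h i ψ) / n = B i) :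
    (∑ ψ, ∏ i, h i ψ ^ θ i) / n ≤ ∏ i, B i ^ θ i := by
  have hn' : (0 : ℝ) < n := Nat.cast_pos.2 hn
  have hPB : 0 < ∏ i, B i ^ θ i := Finset.prod_pos fun i _ => Real.rpow_pos_of_pos (hB i) _
  have h1 : ∀ ψ, ∏ i, h i ψ ^ θ i ≤
      (∏ i, B i ^ θ i) * (∑ i, θ i * (h i ψ / B i) + (1 - ∑ i, θ i)) := by
    intro ψ
    have h2 : ∏ i, h i ψ ^ θ i = (∏ i, B i ^ θ i) * ∏ i, (h i ψ / B i) ^ θ i := by
      rw [← Finset.prod_mul_distrib]
      refine Finset.prod_congr rfl fun i _ => ?_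
      rw [← Real.mul_rpow (hB i).le (div_nonneg (hh i ψ) (hB i).le),
        mul_div_cancel₀ _ (hB i).ne']
    rw [h2]
    exact mul_le_mul_of_nonneg_left
      (amgm_opt θ _ hθ hθ1 fun i => div_nonneg (hh i ψ) (hB i).le) hPB.le
  have h3 : ∑ ψ : Fin n, (∏ i, B i ^ θ i) * (∑ i, θ i * (h i ψ / B i) + (1 - ∑ i, θ i)) =
      (∏ i, B i ^ θ i) * n := by
    rw [← Finset.mul_sum]
    congr 1
    rw [Finset.sum_add_distrib, Finset.sum_comm]
    have h4 : ∀ i, ∑ ψ : Fin n, θ i * (h i ψ / B i) = θ i * n := by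
      intro i
      rw [← Finset.mul_sum, ← Finset.sum_div]
      congr 1
      have h5 := hav i
      rw [div_eq_iff hn'.ne'] at h5
      rw [h5, mul_div_assoc, mul_comm, div_mul_cancel₀ _ (hB i).ne']
    rw [Finset.sum_congr rfl fun i _ => h4 i, ← Finset.sum_mul, Finset.sum_const,
      Finset.card_univ, Fintype.card_fin, nsmul_eq_mul]
    ring
  rw [div_le_iff₀ hn']
  calc ∑ ψ, ∏ i, h i ψ ^ θ i ≤ ∑ ψ : Fin n, (∏ i, B i ^ θ i) *
        (∑ i, θ i * (h i ψ / B i) + (1 - ∑ i, θ i)) := Finset.sum_le_sum fun ψ _ => h1 ψ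
    _ = _ := h3

theorem holder_avg {ι : Type*} [Fintype ι] {n : ℕ} (hn : 0 < n) (f : ι → Fin n → ℝ)
    (hf : ∀ i ψ, 0 ≤ f i ψ) (s : ι → ℝ) (k : ι → ℕ) (hs0 : ∀ i, 0 ≤ s i) (hk : ∀ i, 1 ≤ k i)
    (hsum : ∑ i, s i / (2 * k i) ≤ 1) :
    (∑ ψ, ∏ i, f i ψ ^ (s i)) / n ≤
      ∏ i, ((∑ ψ, f i ψ ^ (2 * k i)) / n) ^ (s i / (2 * k i)) := by
  classical
  have hn' : (0 : ℝ) < n := Nat.cast_pos.2 hn
  have hk' : ∀ i, (0 : ℝ) < 2 * k i := fun i => by
    have := hk i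
    positivity
  have hθ : ∀ i, 0 ≤ s i / (2 * k i) := fun i => div_nonneg (hs0 i) (hk' i).le
  have hg : ∀ i ψ, f i ψ ^ (s i) = (f i ψ ^ (2 * k i)) ^ (s i / (2 * k i)) := by
    intro i ψ
    rw [← Real.rpow_natCast, ← Real.rpow_mul (hf i ψ)]
    congr 1
    push_cast
    rw [mul_div_cancel₀ _ (hk' i).ne']
  have hg0 : ∀ i ψ, 0 ≤ f i ψ ^ (2 * k i) := fun i ψ => pow_nonneg (hf i ψ) _
  have hA0 : ∀ i, 0 ≤ (∑ ψ, f i ψ ^ (2 * k i)) / n := fun i =>
    div_nonneg (Finset.sum_nonneg fun ψ _ => hg0 i ψ) hn'.le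
  rw [Finset.sum_congr rfl fun ψ _ => Finset.prod_congr rfl fun i _ => hg i ψ]
  by_cases hz : ∃ i, s i / (2 * k i) ≠ 0 ∧ (∑ ψ, f i ψ ^ (2 * k i)) / (n : ℝ) = 0
  · obtain ⟨i, hi, hAi⟩ := hz
    have h1 : ∑ ψ, f i ψ ^ (2 * k i) = 0 := by
      rcases div_eq_zero_iff.1 hAi with h | h
      · exact h
      · exact absurd h hn'.ne'
    have h2 : ∀ ψ, f i ψ ^ (2 * k i) = 0 := fun ψ =>
      (Finset.sum_eq_zero_iff_of_nonneg fun ψ _ => hg0 i ψ).1 h1 ψ (Finset.mem_univ ψ)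
    have h3 : ∀ ψ, ∏ j, (f j ψ ^ (2 * k j)) ^ (s j / (2 * k j)) = 0 := by
      intro ψ
      refine Finset.prod_eq_zero (Finset.mem_univ i) ?_
      rw [h2 ψ, Real.zero_rpow hi]
    rw [Finset.sum_congr rfl fun ψ _ => h3 ψ, Finset.sum_const_zero, zero_div]
    exact Finset.prod_nonneg fun i _ => Real.rpow_nonneg (hA0 i) _
  · have hz' : ∀ i, s i / (2 * k i) ≠ 0 → 0 < (∑ ψ, f i ψ ^ (2 * k i)) / (n : ℝ) := by
      intro i hi
      refine lt_of_le_of_ne (hA0 i) fun h => hz ⟨i, hi, h.symm⟩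
    have key := hold_pos hn
      (fun i ψ => if s i / (2 * k i) = 0 then 1 else f i ψ ^ (2 * k i))
      (fun i ψ => by
        split_ifs
        · exact zero_le_one
        · exact hg0 i ψ)
      (fun i => s i / (2 * k i))
      (fun i => if s i / (2 * k i) = 0 then 1 else (∑ ψ, f i ψ ^ (2 * k i)) / n)
      hθ hsum
      (fun i => by
        split_ifs with h
        · exact zero_lt_one
        · exact hz' i h)
      (fun i => by
        split_ifs with h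
        · rw [Finset.sum_const, Finset.card_univ, Fintype.card_fin, nsmul_eq_mul, mul_one,
            div_self hn'.ne']
        · rfl)
    have e1 : ∀ i ψ, (if s i / (2 * k i) = 0 then (1 : ℝ) else f i ψ ^ (2 * k i)) ^
        (s i / (2 * k i)) = (f i ψ ^ (2 * k i)) ^ (s i / (2 * k i)) := by
      intro i ψ
      split_ifs with h
      · rw [h, Real.rpow_zero, Real.rpow_zero]
      · rfl
    have e2 : ∀ i, (if s i / (2 * k i) = 0 then (1 : ℝ) else (∑ ψ, f i ψ ^ (2 * k i)) / n) ^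
        (s i / (2 * k i)) = ((∑ ψ, f i ψ ^ (2 * k i)) / n) ^ (s i / (2 * k i)) := by
      intro i
      split_ifs with h
      · rw [h, Real.rpow_zero, Real.rpow_zero]
      · rfl
    simp only [e1, e2] at key
    exact key

end AbcEM
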