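import Pool.Agent.Work.MP_a793bb_nt.EM.ChA
import Pool.Agent.Work.MP_a793bb_nt.EM.HolR

/-!
# Number of the representations in a finite abelian group

Proof. `exists_chars` gives `f`. `f i ψ ≤ (#S i) ^ (1 - s i) * f i ψ ^ (s i)` (if `f i ψ = 0` clear, otherwise `f = f ^ (1 - s) * f ^ s` and `f ≤ #S i`, `Real.rpow_le_rpow`). So
`cntN ≤ (∑ ψ, ∏ f i ψ) / n ≤ ∏ (#S i) ^ (1 - s i) * (∑ ψ, ∏ f i ψ ^ s i) / n`, and `holder_avg`.
-/

set_option autoImplicit false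

namespace AbcEM

open Finset Pool.Agent.Work.MP_a793bb_nt Pool.Agent.Work.MP_a793bb_nt.BPlus NumberField
  IsDedekindDomain Height

private theorem hgm_pow {f S s : ℝ} (hf : 0 ≤ f) (hfS : f ≤ S) (hs1 : s ≤ 1) :
    f ≤ S ^ (1 - s) * f ^ s := by
  rcases hf.eq_or_lt with h | h
  · rw [← h]
    exact mul_nonneg (Real.rpow_nonneg (hf.trans hfS) _) (Real.rpow_nonneg le_rfl _)
  · calc f = f ^ (1 - s) * f ^ s := by
          rw [← Real.rpow_add h, sub_add_cancel, Real.rpow_one]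
      _ ≤ S ^ (1 - s) * f ^ s :=
          mul_le_mul_of_nonneg_right (Real.rpow_le_rpow hf hfS (by linarith))
            (Real.rpow_nonneg hf _)

theorem group_holder {G : Type*} [CommGroup G] [Finite G] {ι : Type*} [Fintype ι]
    {X : ι → Type*} (S : ∀ i, Finset (X i)) (φ : ∀ i, X i → G) (s : ι → ℝ) (k : ι → ℕ)
    (hs0 : ∀ i, 0 ≤ s i) (hs1 : ∀ i, s i ≤ 1) (hk : ∀ i, 1 ≤ k i)
    (hsum : ∑ i, s i / (2 * k i) ≤ 1) (g : G) :
    (cntN S φ g : ℝ) ≤ ∏ i, (((S i).card : ℝ) ^ (1 - s i) *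
      (E1 (S i) (φ i) (k i) : ℝ) ^ (s i / (2 * k i))) := by
  classical
  obtain ⟨n, f, hn, hf, hc, hE⟩ := exists_chars S φ
  have hn' : (0 : ℝ) < n := Nat.cast_pos.2 hn
  refine (hc g).trans ?_
  have h1 : ∀ ψ, ∏ i, f i ψ ≤ (∏ i, ((S i).card : ℝ) ^ (1 - s i)) * ∏ i, f i ψ ^ (s i) := by
    intro ψ
    rw [← Finset.prod_mul_distrib]
    exact Finset.prod_le_prod (fun i _ => (hf i ψ).1)
      fun i _ => hgm_pow (hf i ψ).1 (hf i ψ).2 (hs1 i)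
  have h2 : (∑ ψ, ∏ i, f i ψ) / n ≤
      (∏ i, ((S i).card : ℝ) ^ (1 - s i)) * ((∑ ψ, ∏ i, f i ψ ^ (s i)) / n) := by
    rw [← mul_div_assoc, Finset.mul_sum]
    exact div_le_div_of_nonneg_right (Finset.sum_le_sum fun ψ _ => h1 ψ) hn'.le
  refine h2.trans ?_
  have h3 := holder_avg hn f (fun i ψ => (hf i ψ).1) s k hs0 hk hsum
  have h4 : ∏ i, ((∑ ψ, f i ψ ^ (2 * k i)) / n) ^ (s i / (2 * k i)) =
      ∏ i, (E1 (S i) (φ i) (k i) : ℝ) ^ (s i / (2 * k i)) :=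
    Finset.prod_congr rfl fun i _ => by rw [hE i (k i)]
  rw [h4] at h3
  rw [Finset.prod_mul_distrib]
  exact mul_le_mul_of_nonneg_left h3
    (Finset.prod_nonneg fun i _ => Real.rpow_nonneg (Nat.cast_nonneg _) _)

end AbcEM
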