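import Pool.Agent.Work.MP_a793bb_nt.EM.KDefs
import Pool.Agent.Work.MP_a793bb_nt.OrdM.ValM
import Pool.Agent.Work.MP_a793bb_nt.OrdM.UnitC
import Pool.Agent.Work.MP_a793bb_nt.OrdM.RootC

/-!
# Basic lemmas (proved)
-/

set_option autoImplicit false

namespace AbcEM

open Finset Pool.Agent.Work.MP_a793bb_nt Pool.Agent.Work.MP_a793bb_nt.BPlus NumberField
  IsDedekindDomain Height

variable {K : Type*} [Field K] [NumberField K]

theorem dvd_of_ex {I J : Ideal (𝓞 K)} (hI : I ≠ ⊥) (hJ : J ≠ ⊥)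
    (h : ∀ p : HeightOneSpectrum (𝓞 K), ex I p ≤ ex J p) : I ∣ J := by
  classical
  set F := (finite_dvd hI).toFinset ∪ (finite_dvd hJ).toFinset with hF
  rw [← prod_ex hI F (fun p hp => Finset.mem_union_left _ ((Set.Finite.mem_toFinset _).mpr hp)),
    ← prod_ex hJ F (fun p hp => Finset.mem_union_right _ ((Set.Finite.mem_toFinset _).mpr hp))]
  exact Finset.prod_dvd_prod_of_dvd _ _ fun p _ => pow_dvd_pow _ (h p)

theorem ex_le_of_dvd {I J : Ideal (𝓞 K)} (hI : I ≠ ⊥) (hJ : J ≠ ⊥) (h : I ∣ J)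
    (p : HeightOneSpectrum (𝓞 K)) : ex I p ≤ ex J p := by
  rw [← pow_ex_dvd p hJ]
  exact ((pow_ex_dvd p hI).mpr le_rfl).trans h

theorem absNorm_le_of_ex {I J : Ideal (𝓞 K)} (hI : I ≠ ⊥) (hJ : J ≠ ⊥)
    (h : ∀ p : HeightOneSpectrum (𝓞 K), ex I p ≤ ex J p) :
    (Ideal.absNorm I : ℝ) ≤ Ideal.absNorm J := by
  have h1 : Ideal.absNorm I ∣ Ideal.absNorm J := map_dvd Ideal.absNorm (dvd_of_ex hI hJ h)
  have h2 : 0 < Ideal.absNorm J := Nat.pos_of_ne_zero (fun h0 => hJ (Ideal.absNorm_eq_zero_iff.mp h0))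
  exact_mod_cast Nat.le_of_dvd h2 h1

theorem absNorm_pos' {I : Ideal (𝓞 K)} (hI : I ≠ ⊥) : (0 : ℝ) < Ideal.absNorm I :=
  lt_of_lt_of_le one_pos (one_le_absNorm K hI)

theorem log_absNorm_nonneg {I : Ideal (𝓞 K)} (hI : I ≠ ⊥) :
    0 ≤ Real.log (Ideal.absNorm I : ℝ) := Real.log_nonneg (one_le_absNorm K hI)

theorem log_absNorm_mul {I J : Ideal (𝓞 K)} (hI : I ≠ ⊥) (hJ : J ≠ ⊥) :
    Real.log (Ideal.absNorm (I * J) : ℝ) =
      Real.log (Ideal.absNorm I) + Real.log (Ideal.absNorm J) := by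
  rw [map_mul, Nat.cast_mul, Real.log_mul (absNorm_pos' hI).ne' (absNorm_pos' hJ).ne']

theorem log_absNorm_pow {I : Ideal (𝓞 K)} (n : ℕ) :
    Real.log (Ideal.absNorm (I ^ n) : ℝ) = n * Real.log (Ideal.absNorm I) := by
  rw [map_pow, Nat.cast_pow, Real.log_pow]

theorem ex_prod' {ι : Type*} (s : Finset ι) (I : ι → Ideal (𝓞 K)) (h : ∀ i ∈ s, I i ≠ ⊥)
    (p : HeightOneSpectrum (𝓞 K)) : ex (∏ i ∈ s, I i) p = ∑ i ∈ s, ex (I i) p := by
  classical
  induction s using Finset.induction_on with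
  | empty =>
    rw [Finset.prod_empty, Finset.sum_empty]
    exact ex_one p
  | insert a s ha ih =>
    rw [Finset.prod_insert ha, Finset.sum_insert ha, ex_mul (h a (Finset.mem_insert_self a s)) ?_ p,
      ih fun i hi => h i (Finset.mem_insert_of_mem hi)]
    rw [← Ideal.zero_eq_bot, Finset.prod_ne_zero_iff]
    exact fun i hi => h i (Finset.mem_insert_of_mem hi)

theorem prod_ne_bot {ι : Type*} (s : Finset ι) (I : ι → Ideal (𝓞 K)) (h : ∀ i ∈ s, I i ≠ ⊥) :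
    ∏ i ∈ s, I i ≠ ⊥ := by
  rw [← Ideal.zero_eq_bot, Finset.prod_ne_zero_iff]
  exact h

theorem kp_prod {ι : Type*} (s : Finset ι) (f : ι → K) (h : ∀ i ∈ s, f i ≠ 0)
    (p : HeightOneSpectrum (𝓞 K)) : kp p (∏ i ∈ s, f i) = ∑ i ∈ s, kp p (f i) := by
  classical
  induction s using Finset.induction_on with
  | empty =>
    rw [Finset.prod_empty, Finset.sum_empty]
    exact kp_one p
  | insert a s ha ih =>
    rw [Finset.prod_insert ha, Finset.sum_insert ha, kp_mul p (h a (Finset.mem_insert_self a s)) ?_,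
      ih fun i hi => h i (Finset.mem_insert_of_mem hi)]
    rw [Finset.prod_ne_zero_iff]
    exact fun i hi => h i (Finset.mem_insert_of_mem hi)

/-- counting by fibres -/
theorem card_le_fib {α β : Type*} [DecidableEq β] (P : Finset α) (t : Finset β) (f : α → β)
    {M1 M2 : ℝ} (h0 : 0 ≤ M2) (hf : ∀ a ∈ P, f a ∈ t) (h1 : (t.card : ℝ) ≤ M1)
    (h2 : ∀ b ∈ t, ((P.filter (fun a => f a = b)).card : ℝ) ≤ M2) : (P.card : ℝ) ≤ M1 * M2 := by
  rw [Finset.card_eq_sum_card_fiberwise (f := f) (t := t) fun a ha => hf a ha]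
  push_cast
  calc ∑ b ∈ t, ((P.filter fun a => f a = b).card : ℝ) ≤ ∑ _b ∈ t, M2 :=
        Finset.sum_le_sum h2
    _ = t.card * M2 := by rw [Finset.sum_const, nsmul_eq_mul]
    _ ≤ M1 * M2 := mul_le_mul_of_nonneg_right h1 h0

/-! ### Units at an ideal -/

theorem UnitAt.mul {m : Ideal (𝓞 K)} {x y : K} (hx : UnitAt m x) (hy : UnitAt m y) :
    UnitAt m (x * y) :=
  ⟨mul_ne_zero hx.1 hy.1, fun p hp => by rw [kp_mul p hx.1 hy.1, hx.2 p hp, hy.2 p hp, add_zero]⟩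

theorem UnitAt.inv {m : Ideal (𝓞 K)} {x : K} (hx : UnitAt m x) : UnitAt m x⁻¹ :=
  ⟨inv_ne_zero hx.1, fun p hp => by rw [kp_inv p hx.1, hx.2 p hp, neg_zero]⟩

theorem UnitAt.div {m : Ideal (𝓞 K)} {x y : K} (hx : UnitAt m x) (hy : UnitAt m y) :
    UnitAt m (x / y) := by
  rw [div_eq_mul_inv]
  exact hx.mul hy.inv

theorem UnitAt.one {m : Ideal (𝓞 K)} : UnitAt m (1 : K) := ⟨one_ne_zero, fun p _ => kp_one p⟩

theorem UnitAt.pow {m : Ideal (𝓞 K)} {x : K} (hx : UnitAt m x) (n : ℕ) : UnitAt m (x ^ n) :=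
  ⟨pow_ne_zero _ hx.1, fun p hp => by rw [kp_pow p hx.1, hx.2 p hp, mul_zero]⟩

theorem UnitAt.prod {m : Ideal (𝓞 K)} {ι : Type*} (s : Finset ι) (f : ι → K)
    (h : ∀ i ∈ s, UnitAt m (f i)) : UnitAt m (∏ i ∈ s, f i) := by
  refine ⟨?_, fun p hp => ?_⟩
  · rw [Finset.prod_ne_zero_iff]
    exact fun i hi => (h i hi).1
  · rw [kp_prod s f (fun i hi => (h i hi).1) p]
    exact Finset.sum_eq_zero fun i hi => (h i hi).2 p hp

theorem red_one {m : Ideal (𝓞 K)} (hm : m ≠ ⊥) : red m (1 : K) = 1 := by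
  have h := red_mul hm (UnitAt.one (K := K)) UnitAt.one
  rw [mul_one] at h
  exact (mul_eq_left.mp h.symm)

theorem red_inv {m : Ideal (𝓞 K)} (hm : m ≠ ⊥) {x : K} (hx : UnitAt m x) :
    red m x⁻¹ = (red m x)⁻¹ := by
  have h := red_mul hm hx hx.inv
  rw [mul_inv_cancel₀ hx.1, red_one hm] at h
  exact (eq_inv_of_mul_eq_one_right h.symm)

theorem red_div {m : Ideal (𝓞 K)} (hm : m ≠ ⊥) {x y : K} (hx : UnitAt m x) (hy : UnitAt m y) :
    red m (x / y) = red m x / red m y := by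
  rw [div_eq_mul_inv, red_mul hm hx hy.inv, red_inv hm hy, div_eq_mul_inv]

theorem red_pow {m : Ideal (𝓞 K)} (hm : m ≠ ⊥) {x : K} (hx : UnitAt m x) (n : ℕ) :
    red m (x ^ n) = red m x ^ n := by
  induction n with
  | zero => rw [pow_zero, pow_zero, red_one hm]
  | succ n ih => rw [pow_succ, pow_succ, red_mul hm (hx.pow n) hx, ih]

theorem red_prod {m : Ideal (𝓞 K)} (hm : m ≠ ⊥) {ι : Type*} (s : Finset ι) (f : ι → K)
    (h : ∀ i ∈ s, UnitAt m (f i)) : red m (∏ i ∈ s, f i) = ∏ i ∈ s, red m (f i) := by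
  classical
  induction s using Finset.induction_on with
  | empty => rw [Finset.prod_empty, Finset.prod_empty, red_one hm]
  | insert a s ha ih =>
    have h1 : ∀ i ∈ s, UnitAt m (f i) := fun i hi => h i (Finset.mem_insert_of_mem hi)
    rw [Finset.prod_insert ha, Finset.prod_insert ha,
      red_mul hm (h a (Finset.mem_insert_self a s)) (UnitAt.prod s f h1), ih h1]

theorem unitAt_gn {m a x : Ideal (𝓞 K)} (ha0 : a ≠ ⊥) (hx0 : x ≠ ⊥) (h : cl a = cl x)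
    (ha : CopI m a) (hx : CopI m x) : UnitAt m (gn a x) := by
  obtain ⟨h1, h2, -⟩ := gn_spec ha0 hx0 h
  refine ⟨h1, fun p hp => ?_⟩
  rw [h2 p, ha p hp, hx p hp]
  simp

theorem unitAt_gn' {m a x : Ideal (𝓞 K)} {c : ℝ} (ha : a ∈ idS m a c) (hx : x ∈ idS m a c) :
    UnitAt m (gn a x) := by
  rw [mem_idS] at ha hx
  exact unitAt_gn ha.1 hx.1 hx.2.2.1 ha.2.2.2 hx.2.2.2

/-- the number of ideals in `idS` -/
theorem card_idS_le (K : Type*) [Field K] [NumberField K] : ∃ C : ℝ, 1 ≤ C ∧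
    ∀ (m a : Ideal (𝓞 K)) (c : ℝ), ((idS m a c).card : ℝ) ≤ C * Real.exp c := by
  classical
  obtain ⟨C, hC, h⟩ := card_idealsLe K
  refine ⟨C, hC, fun m a c => ?_⟩
  have h1 := h (Real.exp c) (Real.exp_pos c).le
  have h2 : (idS m a c).card ≤ (finite_idealsLe K (Real.exp c)).toFinset.card :=
    Finset.card_le_card (Finset.filter_subset _ _)
  rw [Set.ncard_eq_toFinset_card _ (finite_idealsLe K (Real.exp c))] at h1
  refine le_trans ?_ h1
  exact_mod_cast h2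

theorem congM_symm {m : Ideal (𝓞 K)} {x y : K} (h : CongM m x y) : CongM m y x := by
  rcases h with h | h
  · exact Or.inl h.symm
  · refine Or.inr fun p hp => ?_
    rw [← neg_sub, kp_neg]
    exact h p hp

end AbcEM
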