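import Pool.Agent.Work.MP_a793bb_nt.EM.KDefs0

/-!
# Reduction modulo an ideal

Proof. Let `x` be a unit at the primes dividing `m` (`UnitAt m x`). Claim: there are `b ∈ 𝓞 K`, `b ≡ 1 mod m`, `a ∈ 𝓞 K` with `b x = a` in `K`. Indeed
`D = {b : b x ∈ 𝓞 K}` is an ideal; it is coprime to `m` : it contains the product of the `p ^ (-kp p x)` over the finitely many `p` with `kp p x < 0` (an
element `y ∈ K` with `0 ≤ kp p y` for all `p` is integral, `HeightOneSpectrum.mem_integers_of_valuation_le_one`), none of which divides `m`.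
So `D ⊔ m = ⊤` gives `b ∈ D` with `b - 1 ∈ m`. Then `a` is prime to `m` (`kp p a = kp p b + kp p x = 0` for `p | m`; `kp p b = 0` as `b ≡ 1 mod p`), so
its class in `𝓞 K ⧸ m` is a unit (the ideal `(a)` and `m` are coprime). Put `r x` = the class of `a` for a chosen pair `(a, b)` (and `r x = 1` if `x` is not a
unit at `m`). Independence: `b x = a`, `b' x = a'` imply `a b' = a' b` in `𝓞 K`, so `a ≡ a' mod m`. Multiplicativity: the pairs `(a, b)`
for `x`, `(a', b')` for `y` give the pair `(a a', b b')` for `x y`. Finally `r x = r y` iff `a ≡ a' mod m` iff (multiply by `b', b ≡ 1`) `b' a - b a' = b b' (x - y) ∈ m`,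
iff `x = y` or `ex m p ≤ kp p (x - y)` for all `p | m` (membership in `m` of an integral element is `ex m p ≤ kp p` at all `p | m`;
`kp p (b b') = 0` there).
-/

set_option autoImplicit false

namespace AbcEM

open Finset Pool.Agent.Work.MP_a793bb_nt Pool.Agent.Work.MP_a793bb_nt.BPlus NumberField
  IsDedekindDomain Height

variable {K : Type*} [Field K] [NumberField K]

omit [NumberField K] in
private theorem cmul (a b : 𝓞 K) : ((a * b : 𝓞 K) : K) = (a : K) * (b : K) := rfl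

omit [NumberField K] in
private theorem csub (a b : 𝓞 K) : ((a - b : 𝓞 K) : K) = (a : K) - (b : K) := rfl

private theorem red_dvd_of_ex {I J : Ideal (𝓞 K)} (hI : I ≠ ⊥) (hJ : J ≠ ⊥)
    (h : ∀ p : HeightOneSpectrum (𝓞 K), ex I p ≤ ex J p) : I ∣ J := by
  classical
  set F := (finite_dvd hI).toFinset ∪ (finite_dvd hJ).toFinset with hF
  rw [← prod_ex hI F (fun p hp => Finset.mem_union_left _ ((Set.Finite.mem_toFinset _).mpr hp)),
    ← prod_ex hJ F (fun p hp => Finset.mem_union_right _ ((Set.Finite.mem_toFinset _).mpr hp))]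
  exact Finset.prod_dvd_prod_of_dvd _ _ fun p _ => pow_dvd_pow _ (h p)

/-- the ideal of denominators -/
private def denI (x : K) : Ideal (𝓞 K) where
  carrier := {b | ∃ a : 𝓞 K, (b : K) * x = a}
  zero_mem' := ⟨0, by simp⟩
  add_mem' := by
    rintro b b' ⟨a, ha⟩ ⟨a', ha'⟩
    refine ⟨a + a', ?_⟩
    push_cast
    rw [add_mul, ha, ha']
  smul_mem' := by
    rintro c b ⟨a, ha⟩
    refine ⟨c * a, ?_⟩
    rw [smul_eq_mul]
    push_cast
    rw [mul_assoc, ha]

private theorem den_sup {m : Ideal (𝓞 K)} (hm : m ≠ ⊥) {x : K} (hx : UnitAt m x) :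
    denI x ⊔ m = ⊤ := by
  by_contra hne
  obtain ⟨P, hP, hle⟩ := Ideal.exists_le_maximal _ hne
  have hmP : m ≤ P := le_sup_right.trans hle
  have hDP : denI x ≤ P := le_sup_left.trans hle
  have hP0 : P ≠ ⊥ := fun h => hm (le_bot_iff.mp (h ▸ hmP))
  obtain ⟨α, β, hβ, rfl⟩ := IsFractionRing.div_surjective (A := 𝓞 K) x
  have hβ0 : β ≠ 0 := nonZeroDivisors.ne_zero hβ
  have hβ' : (β : K) ≠ 0 := by exact_mod_cast hβ0
  have hα0 : α ≠ 0 := by
    rintro rfl
    exact hx.1 (by simp)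
  have hα' : (α : K) ≠ 0 := by exact_mod_cast hα0
  set p : HeightOneSpectrum (𝓞 K) := ⟨P, hP.isPrime, hP0⟩ with hp
  have hk : kp p ((α : K) / (β : K)) = 0 := hx.2 p (Ideal.dvd_iff_le.mpr hmP)
  rw [kp_div p hα' hβ', ← ex_span hα0 p, ← ex_span hβ0 p] at hk
  have hk2 : ex (Ideal.span {α}) p = ex (Ideal.span {β}) p := by omega
  have hsα : Ideal.span {α} ≠ (⊥ : Ideal (𝓞 K)) := by simpa using hα0
  have hsβ : Ideal.span {β} ≠ (⊥ : Ideal (𝓞 K)) := by simpa using hβ0
  obtain ⟨J, hJ⟩ := (pow_ex_dvd p hsβ).mpr (le_refl (ex (Ideal.span {β}) p))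
  have hJP : ¬ J ≤ P := by
    intro h
    have h1 : p.asIdeal ∣ J := Ideal.dvd_iff_le.mpr h
    have h2 : p.asIdeal ^ (ex (Ideal.span {β}) p + 1) ∣ Ideal.span {β} := by
      conv_rhs => rw [hJ]
      rw [pow_succ]
      exact mul_dvd_mul_left _ h1
    have h3 := (pow_ex_dvd p hsβ).mp h2
    omega
  obtain ⟨b, hbJ, hbP⟩ := SetLike.not_le_iff_exists.mp hJP
  apply hbP
  apply hDP
  have h1 : α ∈ p.asIdeal ^ (ex (Ideal.span {β}) p) := by
    have h2 := (pow_ex_dvd p hsα).mpr (le_refl (ex (Ideal.span {α}) p))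
    rw [hk2] at h2
    exact Ideal.le_of_dvd h2 (Ideal.mem_span_singleton_self α)
  have h3 : α * b ∈ Ideal.span {β} := by
    rw [hJ]
    exact Ideal.mul_mem_mul h1 hbJ
  obtain ⟨c, hc⟩ := Ideal.mem_span_singleton'.mp h3
  refine ⟨c, ?_⟩
  have h4 : (c : K) * β = α * b := by exact_mod_cast hc
  field_simp
  linear_combination -h4

private theorem exists_pair {m : Ideal (𝓞 K)} (hm : m ≠ ⊥) {x : K} (hx : UnitAt m x) :
    ∃ a b : 𝓞 K, Ideal.Quotient.mk m b = 1 ∧ (b : K) * x = a := by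
  have h1 : (1 : 𝓞 K) ∈ denI x ⊔ m := by
    rw [den_sup hm hx]
    exact Submodule.mem_top
  obtain ⟨b, hb, c, hc, hbc⟩ := Submodule.mem_sup.mp h1
  obtain ⟨a, ha⟩ := hb
  refine ⟨a, b, ?_, ha⟩
  have h2 : b = 1 - c := by rw [← hbc]; ring
  rw [h2, map_sub, map_one, Ideal.Quotient.eq_zero_iff_mem.mpr hc, sub_zero]

omit [NumberField K] in
private theorem pair_indep {m : Ideal (𝓞 K)} {x : K} {a b a' b' : 𝓞 K}
    (hb : Ideal.Quotient.mk m b = 1) (hb' : Ideal.Quotient.mk m b' = 1)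
    (h : (b : K) * x = a) (h' : (b' : K) * x = a') :
    Ideal.Quotient.mk m a = Ideal.Quotient.mk m a' := by
  have h1 : a * b' = a' * b := by
    have h2 : (a : K) * b' = a' * b := by
      rw [← h, ← h']
      ring
    exact_mod_cast h2
  have h3 := congrArg (Ideal.Quotient.mk m) h1
  rw [map_mul, map_mul, hb, hb', mul_one, mul_one] at h3
  exact h3

private theorem exists_unit' {m : Ideal (𝓞 K)} (hm : m ≠ ⊥) (x : K) (hx : UnitAt m x) :
    ∃ w : (𝓞 K ⧸ m)ˣ, ∃ a b : 𝓞 K, Ideal.Quotient.mk m b = 1 ∧ (b : K) * x = a ∧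
      (w : 𝓞 K ⧸ m) = Ideal.Quotient.mk m a := by
  obtain ⟨a, b, hb, h⟩ := exists_pair hm hx
  have hx' : UnitAt m x⁻¹ :=
    ⟨inv_ne_zero hx.1, fun p hp => by rw [kp_inv p hx.1, hx.2 p hp, neg_zero]⟩
  obtain ⟨a', b', hb', h'⟩ := exists_pair hm hx'
  have h1 : a * a' = b * b' := by
    have h2 : (a : K) * a' = b * b' := by
      rw [← h, ← h']
      have := hx.1
      field_simp
    exact_mod_cast h2
  have h3 := congrArg (Ideal.Quotient.mk m) h1
  rw [map_mul, map_mul, hb, hb', mul_one] at h3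
  exact ⟨Units.mkOfMulEqOne _ _ h3, a, b, hb, h, rfl⟩

private theorem kp_of_one {m : Ideal (𝓞 K)} {b : 𝓞 K} (hb0 : b ≠ 0)
    (hb : Ideal.Quotient.mk m b = 1) (p : HeightOneSpectrum (𝓞 K)) (hp : p.asIdeal ∣ m) :
    kp p (b : K) = 0 := by
  rw [← ex_span hb0 p, ex_eq_zero]
  · rfl
  · intro h
    have h1 : b ∈ p.asIdeal := Ideal.le_of_dvd h (Ideal.mem_span_singleton_self b)
    have h2 : b - 1 ∈ m := by
      rw [← Ideal.Quotient.eq_zero_iff_mem, map_sub, hb, map_one, sub_self]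
    have h3 : b - 1 ∈ p.asIdeal := Ideal.le_of_dvd hp h2
    have h4 : (1 : 𝓞 K) ∈ p.asIdeal := by
      have := p.asIdeal.sub_mem h1 h3
      simpa using this
    exact p.isPrime.ne_top ((Ideal.eq_top_iff_one _).mpr h4)

private theorem cong_iff {m : Ideal (𝓞 K)} (hm : m ≠ ⊥) {x y : K} {a b a' b' : 𝓞 K}
    (hb : Ideal.Quotient.mk m b = 1) (hb' : Ideal.Quotient.mk m b' = 1)
    (h : (b : K) * x = a) (h' : (b' : K) * y = a') :
    Ideal.Quotient.mk m a = Ideal.Quotient.mk m a' ↔ CongM m x y := by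
  by_cases hxy : x = y
  · subst hxy
    exact ⟨fun _ => Or.inl rfl, fun _ => pair_indep hb hb' h h'⟩
  by_cases htop : m = ⊤
  · subst htop
    constructor
    · intro _
      refine Or.inr fun p hp => ?_
      exfalso
      exact p.isPrime.ne_top (top_le_iff.mp (Ideal.le_of_dvd hp))
    · intro _
      rw [Ideal.Quotient.eq]
      exact Submodule.mem_top
  have hne : ∀ c : 𝓞 K, Ideal.Quotient.mk m c = 1 → c ≠ 0 := by
    rintro c hc rfl
    rw [map_zero] at hc
    have h1 : Ideal.Quotient.mk m 1 = 0 := by rw [map_one, ← hc]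
    exact htop ((Ideal.eq_top_iff_one _).mpr (Ideal.Quotient.eq_zero_iff_mem.mp h1))
  have hb0 := hne b hb
  have hb0' := hne b' hb'
  have hbK : (b : K) ≠ 0 := by exact_mod_cast hb0
  have hbK' : (b' : K) ≠ 0 := by exact_mod_cast hb0'
  set t : 𝓞 K := b' * a - b * a' with ht
  have htK : (t : K) = b * (b' * (x - y)) := by
    have e1 : (t : K) = (b' : K) * (a : K) - (b : K) * (a' : K) := by
      rw [ht, csub, cmul, cmul]
    rw [e1, ← h, ← h']
    ring
  have ht0 : t ≠ 0 := by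
    intro h0
    rw [h0] at htK
    have h1 := mul_ne_zero hbK (mul_ne_zero hbK' (sub_ne_zero.mpr hxy))
    apply h1
    rw [← htK]
    simp
  have hst : Ideal.span {t} ≠ (⊥ : Ideal (𝓞 K)) := by simpa using ht0
  have e1 : Ideal.Quotient.mk m a = Ideal.Quotient.mk m a' ↔ t ∈ m := by
    rw [← Ideal.Quotient.eq_zero_iff_mem, ht, map_sub, map_mul, map_mul, hb, hb', one_mul,
      one_mul, sub_eq_zero]
  have e2 : t ∈ m ↔ ∀ p : HeightOneSpectrum (𝓞 K), ex m p ≤ ex (Ideal.span {t}) p := by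
    rw [← Ideal.span_singleton_le_iff_mem, ← Ideal.dvd_iff_le]
    constructor
    · intro hd p
      rw [← pow_ex_dvd p hst]
      exact ((pow_ex_dvd p hm).mpr le_rfl).trans hd
    · exact fun hd => red_dvd_of_ex hm hst hd
  have e3 : ∀ p : HeightOneSpectrum (𝓞 K), p.asIdeal ∣ m →
      ((ex (Ideal.span {t}) p : ℕ) : ℤ) = kp p (x - y) := by
    intro p hp
    rw [ex_span ht0 p, htK, kp_mul p hbK (mul_ne_zero hbK' (sub_ne_zero.mpr hxy)),
      kp_mul p hbK' (sub_ne_zero.mpr hxy), kp_of_one hb0 hb p hp, kp_of_one hb0' hb' p hp]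
    ring
  rw [e1, e2]
  constructor
  · intro h1
    refine Or.inr fun p hp => ?_
    rw [← e3 p hp]
    exact_mod_cast h1 p
  · rintro (h1 | h1) p
    · exact absurd h1 hxy
    · by_cases hp : p.asIdeal ∣ m
      · have h2 := h1 p hp
        rw [← e3 p hp] at h2
        exact_mod_cast h2
      · rw [ex_eq_zero hp]
        exact Nat.zero_le _

theorem exists_red {K : Type*} [Field K] [NumberField K] (m : Ideal (𝓞 K)) (hm : m ≠ ⊥) :
    ∃ r : K → (𝓞 K ⧸ m)ˣ, ∀ x y : K, UnitAt m x → UnitAt m y →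
      r (x * y) = r x * r y ∧ (r x = r y ↔ CongM m x y) := by
  classical
  choose w hw using exists_unit' (K := K) hm
  set r : K → (𝓞 K ⧸ m)ˣ := fun x => if h : UnitAt m x then w x h else 1 with hr
  have hr2 : ∀ x, UnitAt m x → ∃ a b : 𝓞 K, Ideal.Quotient.mk m b = 1 ∧ (b : K) * x = a ∧
      (r x : 𝓞 K ⧸ m) = Ideal.Quotient.mk m a := by
    intro x hx
    have h1 : r x = w x hx := dif_pos hx
    rw [h1]
    exact hw x hx
  refine ⟨r, fun x y hx hy => ?_⟩
  obtain ⟨a, b, h1, h2, h3⟩ := hr2 x hx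
  obtain ⟨a', b', h1', h2', h3'⟩ := hr2 y hy
  constructor
  · have hxy : UnitAt m (x * y) := ⟨mul_ne_zero hx.1 hy.1, fun p hp => by
      rw [kp_mul p hx.1 hy.1, hx.2 p hp, hy.2 p hp, add_zero]⟩
    obtain ⟨a3, b3, g1, g2, g3⟩ := hr2 (x * y) hxy
    apply Units.ext
    rw [Units.val_mul, g3, h3, h3', ← map_mul]
    refine pair_indep g1 (b' := b * b') ?_ g2 ?_
    · rw [map_mul, h1, h1', mul_one]
    · rw [cmul, cmul, ← h2, ← h2']
      ring
  · rw [← Units.val_inj, h3, h3']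
    exact cong_iff hm h1 h1' h2 h2'

end AbcEM
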