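import Pool.Agent.Work.MP_a793bb_nt.EM.Gen
import Pool.Agent.Work.MP_a793bb_nt.EM.Red

/-!
# Definitions for the character bound over a number field

* `cl I` a number for the ideal class of `I`; `gn a x` a balanced generator of `x / a` (`x, a` in the same class):
  `kp p (gn a x) = ex x p - ex a p` and `|log v (gn a x) - (log N x - log N a) / d| ≤ C0`;
* `red m x` the class of `x` (a unit at the primes dividing `m`) in `(𝓞 K ⧸ m)ˣ`;
* `idS m a c` the ideals `x` prime to `m`, in the class of `a`, with `log N x ≤ c`;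
* `levI y l` the product of the primes with exponent exactly `l` in `y`;
* `tcount` the number of the solutions `(x, y)` of `∏ red (gn a_l x_l) ^ l = g ∏ red (gn b_l y_l) ^ l`, with `l` in the set `R`.
-/

set_option autoImplicit false

namespace AbcEM

open Finset Pool.Agent.Work.MP_a793bb_nt Pool.Agent.Work.MP_a793bb_nt.BPlus NumberField
  IsDedekindDomain Height

/-- the constant for the balanced generators -/
noncomputable def C0 (K : Type*) [Field K] [NumberField K] : ℝ := (exists_gen K).choose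

/-- the number of ideal classes minus one -/
noncomputable def ncl (K : Type*) [Field K] [NumberField K] : ℕ :=
  (exists_gen K).choose_spec.choose

variable {K : Type*} [Field K] [NumberField K]

/-- the number of the class of an ideal -/
noncomputable def cl : Ideal (𝓞 K) → Fin (ncl K + 1) :=
  (exists_gen K).choose_spec.choose_spec.choose

/-- balanced generators -/
noncomputable def gn : Ideal (𝓞 K) → Ideal (𝓞 K) → K :=
  (exists_gen K).choose_spec.choose_spec.choose_spec.choose

theorem C0_nonneg (K : Type*) [Field K] [NumberField K] : 0 ≤ C0 K :=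
  (exists_gen K).choose_spec.choose_spec.choose_spec.choose_spec.1

theorem gn_spec {a x : Ideal (𝓞 K)} (ha : a ≠ ⊥) (hx : x ≠ ⊥) (h : cl a = cl x) :
    gn a x ≠ 0 ∧ (∀ p : HeightOneSpectrum (𝓞 K), kp p (gn a x) = (ex x p : ℤ) - ex a p) ∧
      ∀ v : InfinitePlace K, |Real.log (v (gn a x)) -
        (Real.log (Ideal.absNorm x) - Real.log (Ideal.absNorm a)) / Module.finrank ℚ K| ≤ C0 K :=
  (exists_gen K).choose_spec.choose_spec.choose_spec.choose_spec.2 a x ha hx h

open Classical in
/-- reduction modulo `m` -/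
noncomputable def red (m : Ideal (𝓞 K)) : K → (𝓞 K ⧸ m)ˣ :=
  if h : m ≠ ⊥ then (exists_red m h).choose else fun _ => 1

theorem red_mul {m : Ideal (𝓞 K)} (hm : m ≠ ⊥) {x y : K} (hx : UnitAt m x) (hy : UnitAt m y) :
    red m (x * y) = red m x * red m y := by
  rw [red, dif_pos hm]
  exact ((exists_red m hm).choose_spec x y hx hy).1

theorem red_eq_iff {m : Ideal (𝓞 K)} (hm : m ≠ ⊥) {x y : K} (hx : UnitAt m x)
    (hy : UnitAt m y) : red m x = red m y ↔ CongM m x y := by
  rw [red, dif_pos hm]
  exact ((exists_red m hm).choose_spec x y hx hy).2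

open Classical in
/-- the ideals prime to `m` in the class of `a` with `log N ≤ c` -/
noncomputable def idS (m a : Ideal (𝓞 K)) (c : ℝ) : Finset (Ideal (𝓞 K)) :=
  (finite_idealsLe K (Real.exp c)).toFinset.filter fun x => cl a = cl x ∧ CopI m x

theorem mem_idS {m a x : Ideal (𝓞 K)} {c : ℝ} : x ∈ idS m a c ↔
    x ≠ ⊥ ∧ (Ideal.absNorm x : ℝ) ≤ Real.exp c ∧ cl a = cl x ∧ CopI m x := by
  classical
  rw [idS, Finset.mem_filter, Set.Finite.mem_toFinset]
  constructor
  · rintro ⟨⟨h1, h2⟩, h3, h4⟩
    exact ⟨h1, h2, h3, h4⟩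
  · rintro ⟨h1, h2, h3, h4⟩
    exact ⟨⟨h1, h2⟩, h3, h4⟩

/-- the product of the primes with exponent exactly `l ≥ 1` in `y` -/
noncomputable def levI (y : K) (l : ℕ) : Ideal (𝓞 K) := (partI y {l}).radical

/-- the value of a tuple of ideals -/
noncomputable def prodT (R : Finset ℕ) (m : Ideal (𝓞 K)) (a : ℕ → Ideal (𝓞 K))
    (x : R → Ideal (𝓞 K)) : (𝓞 K ⧸ m)ˣ := ∏ l : R, red m (gn (a l) (x l)) ^ (l : ℕ)

open Classical in
/-- the number of the solutions -/
noncomputable def tcount (R : Finset ℕ) (m : Ideal (𝓞 K)) (a b : ℕ → Ideal (𝓞 K)) (ca cb : ℕ → ℝ)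
    (g : (𝓞 K ⧸ m)ˣ) : ℕ :=
  ((Fintype.piFinset (fun l : R => idS m (a l) (ca l)) ×ˢ
    Fintype.piFinset (fun l : R => idS m (b l) (cb l))).filter
      fun xy => prodT R m a xy.1 = g * prodT R m b xy.2).card

open Classical in
/-- the products of two generators -/
noncomputable def El (m a : Ideal (𝓞 K)) (c : ℝ) : Finset K :=
  (Fintype.piFinset fun _ : Fin 2 => idS m a c).image fun y => ∏ i, gn a (y i)

/-- `ρ` is balanced up to `B` -/
def BalR (B : ℝ) (r : K) : Prop :=
  ∀ v : InfinitePlace K, |Real.log (v r) - (Real.log (Ideal.absNorm (numI r)) -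
    Real.log (Ideal.absNorm (numI r⁻¹))) / Module.finrank ℚ K| ≤ B

/-- The ratios: balanced, units at `m`, numerator and denominator of logarithmic norm at most `ℓ`. -/
structure RatS (B : ℝ) (m : Ideal (𝓞 K)) (ℓ : ℝ) (r : K) : Prop where
  un : UnitAt m r
  bal : BalR B r
  num : Real.log (Ideal.absNorm (numI r)) ≤ ℓ
  den : Real.log (Ideal.absNorm (numI r⁻¹)) ≤ ℓ

end AbcEM
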