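import Pool.Agent.Work.MP_a793bb_nt.RatioCount
import Pool.Agent.Work.MP_a793bb_nt.Sides

/-!
# Units and congruences at an ideal

`kp p x : ℤ` is the exponent of the prime `p` in `x` (`0` for `x = 0`), `ex I p : ℕ` that of `p` in the ideal `I`.
-/

set_option autoImplicit false

namespace AbcEM

open Finset Pool.Agent.Work.MP_a793bb_nt Pool.Agent.Work.MP_a793bb_nt.BPlus NumberField
  IsDedekindDomain Height

variable {K : Type*} [Field K] [NumberField K]

/-- `x` is a unit at all primes dividing `m`. -/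
def UnitAt (m : Ideal (𝓞 K)) (x : K) : Prop :=
  x ≠ 0 ∧ ∀ p : HeightOneSpectrum (𝓞 K), p.asIdeal ∣ m → kp p x = 0

/-- The congruence `x ≡ y mod m` for elements which are integral at the primes dividing `m`. -/
def CongM (m : Ideal (𝓞 K)) (x y : K) : Prop :=
  x = y ∨ ∀ p : HeightOneSpectrum (𝓞 K), p.asIdeal ∣ m → (ex m p : ℤ) ≤ kp p (x - y)

/-- The two ideals have no common prime. -/
def CopI (m a : Ideal (𝓞 K)) : Prop := ∀ p : HeightOneSpectrum (𝓞 K), p.asIdeal ∣ m → ex a p = 0

/-- the number of coincidences of the products of `k` elements -/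
noncomputable def E1 {X G : Type*} [CommGroup G] (S : Finset X) (φ : X → G) (k : ℕ) : ℕ := by
  classical
  exact ((Fintype.piFinset (fun _ : Fin k => S) ×ˢ Fintype.piFinset (fun _ : Fin k => S)).filter
    fun y => ∏ i, φ (y.1 i) = ∏ i, φ (y.2 i)).card

end AbcEM
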