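import Pool.Agent.Work.MP_a793bb_nt.EM.TDefs

/-!
# Permutations of the sides

Proof. `actT σ T` is obtained by moving the side `j` to `σ j`. `act_cost`: reindex all the sums over the sides by `σ` (`Equiv.sum_comp`): e.g. for `H`,
`∑ j, ∑ c, if sel (σ.symm j) c then 0 else w j c = ∑ i, ∑ c, if sel i c then 0 else w (σ i) c` and `hcf n (σ u) (σ i) c = hcf n u i c` as `σ i = σ u ↔ i = u`; the same for
`E` (`j = σ r ∨ j = σ p`), `M`, `R` (`pat (σ.symm j)`; `muW (σ q) T2 w = muW q T2 (w ∘ σ)`). `act_ok` is similar. `exists_sorted`: sort three reals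
(`Tuple.sort` or by hand: six cases). `perm_bound` is `act_cost`, `act_ok`.
-/

set_option autoImplicit false

namespace AbcEM

open Finset Pool.Agent.Work.MP_a793bb_nt Pool.Agent.Work.MP_a793bb_nt.BPlus NumberField
  IsDedekindDomain Height

/-- the bound with permuted sides -/
def actT (σ : Equiv.Perm (Fin 3)) : Tl → Tl
  | .inl (n, u, sel) => .inl (n, σ u, fun j => sel (σ.symm j))
  | .inr (.inl (r, p, c)) => .inr (.inl (σ r, σ p, c))
  | .inr (.inr (.inl (q, T))) => .inr (.inr (.inl (σ q, T)))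
  | .inr (.inr (.inr (q, pat))) => .inr (.inr (.inr (σ q, fun j => pat (σ.symm j))))

private theorem tauW_perm (σ : Equiv.Perm (Fin 3)) (q : Fin 3) (w : Fin 3 → Fin 5 → ℝ) :
    tauW (σ q) w = tauW q (fun j => w (σ j)) := by
  unfold tauW
  rw [← Equiv.sum_comp σ (fun j => if j = σ q then 0 else ∑ c, w j c)]
  simp only [EmbeddingLike.apply_eq_iff_eq]

theorem act_cost (σ : Equiv.Perm (Fin 3)) (T : Tl) (w : Fin 3 → Fin 5 → ℝ) :
    costT (actT σ T) w = costT T (fun j => w (σ j)) := by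
  rcases T with ⟨n, u, sel⟩ | ⟨r, p, c⟩ | ⟨q, T⟩ | ⟨q, pat⟩
  · show hCost n (σ u) (fun j => sel (σ.symm j)) w = hCost n u sel (fun j => w (σ j))
    unfold hCost
    rw [← Equiv.sum_comp σ (fun j => ∑ c, if sel (σ.symm j) c = true then 0 else w j c),
      ← Equiv.sum_comp σ (fun j => ∑ c, if sel (σ.symm j) c = true then hcf n (σ u) j c * w j c
        else 0)]
    have h1 : ∀ (j : Fin 3) (c : Fin 5), hcf n (σ u) (σ j) c = hcf n u j c := by
      intro j c
      unfold hcf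
      simp only [EmbeddingLike.apply_eq_iff_eq]
    simp only [Equiv.symm_apply_apply, h1]
  · show eCost (σ r) (σ p) c w = eCost r p c (fun j => w (σ j))
    unfold eCost
    rw [← Equiv.sum_comp σ (fun j => if j = σ r ∨ j = σ p then 0 else ∑ c', w j c')]
    simp only [EmbeddingLike.apply_eq_iff_eq]
  · show mCost (σ q) T w = mCost q T (fun j => w (σ j))
    unfold mCost
    rw [tauW_perm]
    rfl
  · show rCost (σ q) (fun j => pat (σ.symm j)) w = rCost q pat (fun j => w (σ j))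
    unfold rCost
    rw [← Equiv.sum_comp σ (fun j => if j = σ q then 0 else
      (w j 3 + w j 4 + rSide (pat (σ.symm j)) (w j 0) (w j 1) (w j 2) (muW (σ q) T2 w)))]
    simp only [EmbeddingLike.apply_eq_iff_eq, Equiv.symm_apply_apply]
    rfl

theorem act_ok (σ : Equiv.Perm (Fin 3)) (T : Tl) (h : okTl T) : okTl (actT σ T) := by
  rcases T with ⟨n, u, sel⟩ | ⟨r, p, c⟩ | ⟨q, T⟩ | ⟨q, pat⟩
  · obtain ⟨h1, h2⟩ := h
    have key : ∀ j, j ≠ σ u → σ.symm j ≠ u := fun j hj h3 => hj (by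
      rw [← h3, Equiv.apply_symm_apply])
    refine ⟨fun j hj c hc => h1 _ (key j hj) c hc, ?_⟩
    show sel (σ.symm (σ u)) 4 = false ∨ ((∀ c, sel (σ.symm (σ u)) c = true) ∧
      ∀ j, j ≠ σ u → ∀ c, sel (σ.symm j) c = false)
    rw [Equiv.symm_apply_apply]
    rcases h2 with h2 | ⟨h2, h3⟩
    · exact Or.inl h2
    · exact Or.inr ⟨h2, fun j hj c => h3 _ (key j hj) c⟩
  · obtain ⟨h1, h2⟩ := h
    exact ⟨fun h3 => h1 (σ.injective h3), h2⟩
  · trivial
  · trivial

theorem exists_sorted (w : Fin 3 → Fin 5 → ℝ) : ∃ σ : Equiv.Perm (Fin 3),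
    ∑ c, w (σ 1) c ≤ ∑ c, w (σ 0) c ∧ ∑ c, w (σ 2) c ≤ ∑ c, w (σ 1) c := by
  refine ⟨Tuple.sort (fun j => -∑ c, w j c), ?_, ?_⟩
  · have h := Tuple.monotone_sort (fun j => -∑ c, w j c) (show (0 : Fin 3) ≤ 1 by decide)
    simp only [Function.comp_apply] at h
    linarith
  · have h := Tuple.monotone_sort (fun j => -∑ c, w j c) (show (1 : Fin 3) ≤ 2 by decide)
    simp only [Function.comp_apply] at h
    linarith

end AbcEM
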