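import Pool.Agent.Work.MP_a793bb_nt.EM.ChkS
import Pool.Agent.Work.MP_a793bb_nt.EM.PermT

/-!
# The bound given by a certificate

Proof. Let `σ` be given by `exists_sorted`, `w' = fun j => w (σ j)`; it suffices to find `T` with `okTl T`, `costT T w' ≤ (a S + b) / kd` (then `actT σ T` works, `act_cost`,
`act_ok`). Suppose not. Then for all `ct` with `okT ct` (`ok_sound`) `(a S + b) / kd < costT (toTl ct) w'`, i.e. `ev kv (xs w') < kd * costT (toTl ct) w'` for
`kv = vmk (fun _ _ => a) b` (`ev_vmk`: `ev kv (xs w') = a * S + b`, the total weight of `w'` is that of `w`, `Equiv.sum_comp`). The facts in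
`baseF l1n l1d l2n l2d` hold for `w'` (`ev_vmk`: sizes `1 - ∑ (c+1) w' j c ≥ 0` for `j = 0, 1, 2`; the order of the totals; `l1d S - l1n ≥ 0`; `l2n - l2d S ≥ 0`; all have
length 16). `chk_sound` gives a contradiction.
-/

set_option autoImplicit false

namespace AbcEM

open Finset Pool.Agent.Work.MP_a793bb_nt Pool.Agent.Work.MP_a793bb_nt.BPlus NumberField
  IsDedekindDomain Height

theorem lp_of_cert (kd l1n l1d l2n l2d : ℕ) (a b : ℤ) (t : Cert) (hkd : 0 < kd)
    (h : chk kd (vmk (fun _ _ => a) b) t (baseF l1n l1d l2n l2d) = true)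
    (w : Fin 3 → Fin 5 → ℝ) (hw : ∀ j c, 0 ≤ w j c)
    (hs : ∀ j, ∑ c : Fin 5, ((c : ℕ) + 1 : ℝ) * w j c ≤ 1)
    (h1 : (l1n : ℝ) ≤ l1d * ∑ j, ∑ c, w j c) (h2 : (l2d : ℝ) * ∑ j, ∑ c, w j c ≤ l2n) :
    ∃ T : Tl, okTl T ∧ costT T w ≤ ((a : ℝ) * (∑ j, ∑ c, w j c) + b) / kd := by
  obtain ⟨σ, hσ1, hσ2⟩ := exists_sorted w
  by_contra hn
  push Not at hn
  have hkd' : (0 : ℝ) < kd := by exact_mod_cast hkd
  have hS : ∑ j, ∑ c, w (σ j) c = ∑ j, ∑ c, w j c := Equiv.sum_comp σ fun j => ∑ c, w j c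
  have hS3 : ∑ j : Fin 3, ∑ c, w (σ j) c = ∑ c, w (σ 0) c + ∑ c, w (σ 1) c + ∑ c, w (σ 2) c :=
    Fin.sum_univ_three _
  have hcst : ∀ (z : Fin 3 → Fin 5 → ℝ) (k c0 : ℤ),
      ev (vmk (fun _ _ => k) c0) (xs z) = k * (∑ j, ∑ c, z j c) + c0 := by
    intro z k c0
    rw [ev_vmk, Finset.mul_sum]
    congr 1
    exact Finset.sum_congr rfl fun j _ => (Finset.mul_sum _ _ _).symm
  refine chk_sound kd (vmk (fun _ _ => a) b) (fun j => w (σ j)) rfl hkd (fun j c => hw _ _)
    (fun ct hct => ?_) t (baseF l1n l1d l2n l2d) ?_ h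
  · have h3 := hn (actT σ (toTl ct)) (act_ok σ _ (ok_sound ct hct))
    rw [act_cost, div_lt_iff₀ hkd'] at h3
    rw [hcst]
    simp only [hS]
    linarith
  · have hz : ∀ j : Fin 3, 0 ≤ 1 - ∑ c : Fin 5, ((c : ℕ) + 1 : ℝ) * w (σ j) c := fun j => by
      have := hs (σ j)
      linarith
    have key : ∀ f ∈ baseF l1n l1d l2n l2d, f.1 = false ∧ f.2.length = 16 ∧
        0 ≤ ev f.2 (xs fun j => w (σ j)) := by
      intro f hf
      simp only [baseF, List.mem_cons, List.not_mem_nil, or_false] at hf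
      rcases hf with rfl | rfl | rfl | rfl | rfl | rfl | rfl
      · refine ⟨rfl, rfl, ?_⟩
        have := hz 0
        rw [ev_vmk]
        simp only [Fin.sum_univ_succ, Fin.sum_univ_zero] at this ⊢
        norm_num at this ⊢
        linarith
      · refine ⟨rfl, rfl, ?_⟩
        have := hz 1
        rw [ev_vmk]
        simp only [Fin.sum_univ_succ, Fin.sum_univ_zero] at this ⊢
        norm_num at this ⊢
        linarith
      · refine ⟨rfl, rfl, ?_⟩
        have := hz 2
        rw [ev_vmk]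
        simp only [Fin.sum_univ_succ, Fin.sum_univ_zero] at this ⊢
        norm_num at this ⊢
        linarith
      · refine ⟨rfl, rfl, ?_⟩
        rw [ev_vmk]
        simp only [Fin.sum_univ_succ, Fin.sum_univ_zero] at hσ1 ⊢
        norm_num at hσ1 ⊢
        linarith
      · refine ⟨rfl, rfl, ?_⟩
        rw [ev_vmk]
        simp only [Fin.sum_univ_succ, Fin.sum_univ_zero] at hσ2 ⊢
        norm_num at hσ2 ⊢
        linarith
      · refine ⟨rfl, rfl, ?_⟩
        rw [hcst, hS]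
        push_cast
        linarith
      · refine ⟨rfl, rfl, ?_⟩
        rw [hcst, hS]
        push_cast
        linarith
    intro f hf
    obtain ⟨e1, e2, e3⟩ := key f hf
    exact ⟨e2, e3, fun h => by rw [e1] at h; exact absurd h (by decide)⟩

end AbcEM
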