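import Pool.Agent.Work.MP_a793bb_nt.EM.LPC
import Pool.Agent.Work.MP_a793bb_nt.EM.CertB
import Pool.Agent.Work.MP_a793bb_nt.EM.CertC
import Pool.Agent.Work.MP_a793bb_nt.EM.CertD

/-!
# The linear programming problem

Proof. `upE` is monotone on `[0, 2]` (piecewise linear and continuous: the values at `2/3, 1, 52/33` are `4/9, 5/9, 31/33`). Let `w` be given, `S` its total weight, `0 ≤ S ≤ Λ`.
If `S ≤ 2/3`: let `u` be a side with the largest total, so its total is at least `S / 3`; the bound `H 0 u sel` with `sel` = all classes of the side `u` has the cost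
`S - (total of u) + max 0 (∑ (c+1) w u c - 1) = S - (total of u) ≤ 2 S / 3 = upE S ≤ upE Λ` and is valid (`okTl`, second alternative; the sides `j ≠ u` have no selected class).
If `2/3 ≤ S ≤ 1` use `lp_of_cert` with `certB_ok` (`κ = (3 S + 2) / 9`), if `1 ≤ S ≤ 52/33` with `certC_ok` (`(6 S - 1) / 9`), if `52/33 ≤ S ≤ 2` with `certD_ok` (`(S + 5) / 7`).
-/

set_option autoImplicit false

namespace AbcEM

open Finset Pool.Agent.Work.MP_a793bb_nt Pool.Agent.Work.MP_a793bb_nt.BPlus NumberField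
  IsDedekindDomain Height

theorem upE_mono {x y : ℝ} (hx : 0 ≤ x) (h : x ≤ y) (hy : y ≤ 2) : upE x ≤ upE y := by
  unfold upE
  split_ifs <;> (try push Not at *) <;> linarith

/-- the bound `H 0 u` with all the classes of the side `u` -/
private theorem trivial_bound (w : Fin 3 → Fin 5 → ℝ)
    (hs : ∀ j, ∑ c : Fin 5, ((c : ℕ) + 1 : ℝ) * w j c ≤ 1) (u : Fin 3)
    (hu : (∑ j, ∑ c, w j c) ≤ 3 * ∑ c, w u c) :
    ∃ T : Tl, okTl T ∧ costT T w ≤ 2 * (∑ j, ∑ c, w j c) / 3 := by
  refine ⟨.inl (0, u, fun j _ => decide (j = u)), ?_, ?_⟩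
  · refine ⟨fun j hj c h => ?_, Or.inr ⟨fun c => ?_, fun j hj c => ?_⟩⟩
    · exact absurd (of_decide_eq_true h) hj
    · exact decide_eq_true rfl
    · exact decide_eq_false hj
  · show hCost 0 u (fun j _ => decide (j = u)) w ≤ _
    unfold hCost
    have e1 : (∑ j, ∑ c, if decide (j = u) = true then 0 else w j c) =
        (∑ j, ∑ c, w j c) - ∑ c, w u c := by
      have : ∀ j : Fin 3, (∑ c, if decide (j = u) = true then 0 else w j c) =
          (∑ c, w j c) - if j = u then ∑ c, w u c else 0 := by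
        intro j
        by_cases hj : j = u
        · subst hj
          simp
        · simp [hj]
      rw [Finset.sum_congr rfl fun j _ => this j, Finset.sum_sub_distrib]
      simp
    have e2 : (∑ j, ∑ c, if decide (j = u) = true then hcf 0 u j c * w j c else 0) =
        ∑ c : Fin 5, ((c : ℕ) + 1 : ℝ) * w u c := by
      have : ∀ j : Fin 3, (∑ c, if decide (j = u) = true then hcf 0 u j c * w j c else 0) =
          if j = u then ∑ c : Fin 5, ((c : ℕ) + 1 : ℝ) * w u c else 0 := by
        intro j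
        by_cases hj : j = u
        · subst hj
          simp [hcf]
        · simp [hj]
      rw [Finset.sum_congr rfl fun j _ => this j]
      simp
    rw [e1, e2, max_eq_left (by linarith [hs u])]
    linarith

theorem lpt_upE {Λ : ℝ} (h0 : 0 ≤ Λ) (h2 : Λ ≤ 2) : LPT Λ (upE Λ) := by
  intro w hw hs hL
  have hS0 : 0 ≤ ∑ j, ∑ c, w j c := Finset.sum_nonneg fun j _ => Finset.sum_nonneg fun c _ => hw j c
  suffices H : ∃ T : Tl, okTl T ∧ costT T w ≤ upE (∑ j, ∑ c, w j c) by
    obtain ⟨T, h, h'⟩ := H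
    exact ⟨T, h, h'.trans (upE_mono hS0 hL h2)⟩
  have hS2 : ∑ j, ∑ c, w j c ≤ 2 := hL.trans h2
  generalize hS : ∑ j, ∑ c, w j c = S at hS0 hS2
  unfold upE
  split_ifs with g1 g2 g3
  · obtain ⟨u, hu⟩ : ∃ u : Fin 3, ∀ j, ∑ c, w j c ≤ ∑ c, w u c := by
      obtain ⟨u, -, hu⟩ := Finset.exists_max_image (Finset.univ : Finset (Fin 3))
        (fun j => ∑ c, w j c) ⟨0, Finset.mem_univ _⟩
      exact ⟨u, fun j => hu j (Finset.mem_univ _)⟩
    obtain ⟨T, h, h'⟩ := trivial_bound w hs u (by
      rw [Fin.sum_univ_three]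
      linarith [hu 0, hu 1, hu 2])
    rw [hS] at h'
    exact ⟨T, h, h'⟩
  · push Not at g1
    obtain ⟨T, h, h'⟩ := lp_of_cert 9 2 3 1 1 3 2 certB (by norm_num) certB_ok w hw hs
      (by rw [hS]; push_cast; linarith) (by rw [hS]; push_cast; linarith)
    rw [hS] at h'
    refine ⟨T, h, h'.trans (le_of_eq ?_)⟩
    push_cast
    ring
  · push Not at g1 g2
    obtain ⟨T, h, h'⟩ := lp_of_cert 9 1 1 52 33 6 (-1) certC (by norm_num) certC_ok w hw hs
      (by rw [hS]; push_cast; linarith) (by rw [hS]; push_cast; linarith)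
    rw [hS] at h'
    refine ⟨T, h, h'.trans (le_of_eq ?_)⟩
    push_cast
    ring
  · push Not at g1 g2 g3
    obtain ⟨T, h, h'⟩ := lp_of_cert 7 52 33 2 1 1 5 certD (by norm_num) certD_ok w hw hs
      (by rw [hS]; push_cast; linarith) (by rw [hS]; push_cast; linarith)
    rw [hS] at h'
    refine ⟨T, h, h'.trans (le_of_eq ?_)⟩
    push_cast
    ring

end AbcEM
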