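import Pool.Agent.Work.MP_a793bb_nt.EM.LPC
import Pool.Agent.Work.MP_a793bb_nt.EM.CertG1
import Pool.Agent.Work.MP_a793bb_nt.EM.CertG2
import Pool.Agent.Work.MP_a793bb_nt.EM.CertG3
import Pool.Agent.Work.MP_a793bb_nt.EM.CertG4
import Pool.Agent.Work.MP_a793bb_nt.EM.CertG5

/-!
# The linear programming problem, sharper function

`upG` is piecewise linear with the nodes `(0, 0)`, `(3/5, 2/5)`, `(1, 11/20)`, `(5/4, 43/60)`, `(3/2, 5/6)`, `(29/18, 17/18)`, `(2, 1)`.
The value `5/6` at `3/2` and the segment before `2` are optimal for the bounds used.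
-/

set_option autoImplicit false

namespace AbcEM

open Finset Pool.Agent.Work.MP_a793bb_nt Pool.Agent.Work.MP_a793bb_nt.BPlus NumberField
  IsDedekindDomain Height

/-- The exponent of the upper bound for `0 ≤ lam ≤ 2`. -/
noncomputable def upG (lam : ℝ) : ℝ :=
  if lam ≤ 3 / 5 then 2 * lam / 3
  else if lam ≤ 1 then (15 * lam + 7) / 40
  else if lam ≤ 5 / 4 then (40 * lam - 7) / 60
  else if lam ≤ 3 / 2 then (7 * lam + 2) / 15
  else if lam ≤ 29 / 18 then lam - 2 / 3
  else (lam + 5) / 7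

theorem upG_mono {x y : ℝ} (hx : 0 ≤ x) (h : x ≤ y) (hy : y ≤ 2) : upG x ≤ upG y := by
  unfold upG
  split_ifs <;> (try push Not at *) <;> linarith

/-- the bound `H 0 u` with all the classes of the side `u` -/
private theorem trivial_bound (w : Fin 3 → Fin 5 → ℝ)
    (hs : ∀ j, ∑ c : Fin 5, ((c : ℕ) + 1 : ℝ) * w j c ≤ 1) (u : Fin 3)
    (hu : (∑ j, ∑ c, w j c) ≤ 3 * ∑ c, w u c) :
    ∃ T : Tl, okTl T ∧ costT T w ≤ 2 * (∑ j, ∑ c, w j c) / 3 := by
  refine ⟨.inl (0, u, fun j _ => decide (j = u)), ?_, ?_⟩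
  · refine ⟨fun j hj c h => ?_, Or.inr ⟨fun c => ?_, fun j hj c => ?_⟩⟩
    · exact absurd (of_decide_eq_true h) hj
    · exact decide_eq_true rfl
    · exact decide_eq_false hj
  · show hCost 0 u (fun j _ => decide (j = u)) w ≤ _
    unfold hCost
    have e1 : (∑ j, ∑ c, if decide (j = u) = true then 0 else w j c) =
        (∑ j, ∑ c, w j c) - ∑ c, w u c := by
      have : ∀ j : Fin 3, (∑ c, if decide (j = u) = true then 0 else w j c) =
          (∑ c, w j c) - if j = u then ∑ c, w u c else 0 := by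
        intro j
        by_cases hj : j = u
        · subst hj
          simp
        · simp [hj]
      rw [Finset.sum_congr rfl fun j _ => this j, Finset.sum_sub_distrib]
      simp
    have e2 : (∑ j, ∑ c, if decide (j = u) = true then hcf 0 u j c * w j c else 0) =
        ∑ c : Fin 5, ((c : ℕ) + 1 : ℝ) * w u c := by
      have : ∀ j : Fin 3, (∑ c, if decide (j = u) = true then hcf 0 u j c * w j c else 0) =
          if j = u then ∑ c : Fin 5, ((c : ℕ) + 1 : ℝ) * w u c else 0 := by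
        intro j
        by_cases hj : j = u
        · subst hj
          simp [hcf]
        · simp [hj]
      rw [Finset.sum_congr rfl fun j _ => this j]
      simp
    rw [e1, e2, max_eq_left (by linarith [hs u])]
    linarith

theorem lpt_upG {Λ : ℝ} (h0 : 0 ≤ Λ) (h2 : Λ ≤ 2) : LPT Λ (upG Λ) := by
  intro w hw hs hL
  have hS0 : 0 ≤ ∑ j, ∑ c, w j c := Finset.sum_nonneg fun j _ => Finset.sum_nonneg fun c _ => hw j c
  suffices H : ∃ T : Tl, okTl T ∧ costT T w ≤ upG (∑ j, ∑ c, w j c) by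
    obtain ⟨T, h, h'⟩ := H
    exact ⟨T, h, h'.trans (upG_mono hS0 hL h2)⟩
  have hS2 : ∑ j, ∑ c, w j c ≤ 2 := hL.trans h2
  generalize hS : ∑ j, ∑ c, w j c = S at hS0 hS2
  unfold upG
  split_ifs with g1 g2 g3 g4 g5
  · obtain ⟨u, hu⟩ : ∃ u : Fin 3, ∀ j, ∑ c, w j c ≤ ∑ c, w u c := by
      obtain ⟨u, -, hu⟩ := Finset.exists_max_image (Finset.univ : Finset (Fin 3))
        (fun j => ∑ c, w j c) ⟨0, Finset.mem_univ _⟩
      exact ⟨u, fun j => hu j (Finset.mem_univ _)⟩
    obtain ⟨T, h, h'⟩ := trivial_bound w hs u (by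
      rw [Fin.sum_univ_three]
      linarith [hu 0, hu 1, hu 2])
    rw [hS] at h'
    exact ⟨T, h, h'⟩
  · push Not at g1
    obtain ⟨T, h, h'⟩ := lp_of_cert 40 3 5 1 1 15 7 certG1 (by norm_num) certG1_ok w hw hs
      (by rw [hS]; push_cast; linarith) (by rw [hS]; push_cast; linarith)
    rw [hS] at h'
    refine ⟨T, h, h'.trans (le_of_eq ?_)⟩
    push_cast
    ring
  · push Not at g1 g2
    obtain ⟨T, h, h'⟩ := lp_of_cert 60 1 1 5 4 40 (-7) certG2 (by norm_num) certG2_ok w hw hs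
      (by rw [hS]; push_cast; linarith) (by rw [hS]; push_cast; linarith)
    rw [hS] at h'
    refine ⟨T, h, h'.trans (le_of_eq ?_)⟩
    push_cast
    ring
  · push Not at g1 g2 g3
    obtain ⟨T, h, h'⟩ := lp_of_cert 15 5 4 3 2 7 2 certG3 (by norm_num) certG3_ok w hw hs
      (by rw [hS]; push_cast; linarith) (by rw [hS]; push_cast; linarith)
    rw [hS] at h'
    refine ⟨T, h, h'.trans (le_of_eq ?_)⟩
    push_cast
    ring
  · push Not at g1 g2 g3 g4
    obtain ⟨T, h, h'⟩ := lp_of_cert 3 3 2 29 18 3 (-2) certG4 (by norm_num) certG4_ok w hw hs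
      (by rw [hS]; push_cast; linarith) (by rw [hS]; push_cast; linarith)
    rw [hS] at h'
    refine ⟨T, h, h'.trans (le_of_eq ?_)⟩
    push_cast
    ring
  · push Not at g1 g2 g3 g4 g5
    obtain ⟨T, h, h'⟩ := lp_of_cert 7 29 18 2 1 1 5 certG5 (by norm_num) certG5_ok w hw hs
      (by rw [hS]; push_cast; linarith) (by rw [hS]; push_cast; linarith)
    rw [hS] at h'
    refine ⟨T, h, h'.trans (le_of_eq ?_)⟩
    push_cast
    ring

end AbcEM
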