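import Pool.Agent.Work.MP_a793bb_nt.EM.KB

/-!
# Labels (definition)

The label of `s`: the modulus `partI (1 + s) E`, the parts of numerator and denominator with exponents outside `R`, the classes of the levels.
-/

set_option autoImplicit false

namespace AbcEM

open Finset Pool.Agent.Work.MP_a793bb_nt Pool.Agent.Work.MP_a793bb_nt.BPlus NumberField
  IsDedekindDomain Height

variable {K : Type*} [Field K] [NumberField K]

/-- the label -/
noncomputable def labF (R : Finset ℕ) (E : Set ℕ) (s : K) :
    Ideal (𝓞 K) × Ideal (𝓞 K) × Ideal (𝓞 K) × (R → Fin (ncl K + 1)) ×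
      (R → Fin (ncl K + 1)) :=
  (partI (1 + s) E, partI s (R : Set ℕ)ᶜ, partI s⁻¹ (R : Set ℕ)ᶜ,
    (fun l => cl (levI s l)), fun l => cl (levI s⁻¹ l))

end AbcEM
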