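import Pool.Agent.Work.MP_a793bb_nt.EM.ElL
import Pool.Agent.Work.MP_a793bb_nt.EM.BoxC

/-!
# Triples of a quotient and two products

Notation: `N = log N(m)`, `d = finrank`. `S` is a set of triples `(r, P, Q)`.
Proof. Split `S` according to the number `κ = cl (numI r⁻¹)` of the class (at most `ncl K + 1` values); fix `κ` and one element `(r₀, P₀, Q₀)` of this part, `A = numI r₀⁻¹` (prime to `m` since `r₀` is a unit
at `m`, `log N A ≤ ℓ`). For `(r, P, Q)` in the part let `D = numI r⁻¹` and `t = gn A D` (`kp p t = ex D p - ex A p`, a unit at `m`, `log (v t)` within `C0` of `(log N D - log N A) / d`),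
`s = r t`, `n = t Q ^ 3`. Then `kp p s = ex (numI r) p - ex A p` (`kp p r = ex (numI r) p - ex D p`), `log (v s)` is within `B + C0` of `(log N (numI r) - log N A) / d`.
(1) The number of the `s`: the ideals `numI r` have norm at most `exp ℓ`, at most `C exp ℓ` values (`card_idealsLe`), and for a given ideal `numI r` the `s` have the same valuations and are balanced, at most
`C` values (`bal_count` with `B + C0`). So at most `C exp ℓ`. (2) `P`: at most `C exp (2 w)` values (`card_El_le`).
(3) Given `s`, `P` the elements `n` are pairwise `CongM m`: `red m n = red m t * red m Q ^ 3 = red m t * red m r * red m P ^ 3 = red m s * red m P ^ 3`. `kp p n ≥ - ex A p - 6 ex b p = - ex (A * b ^ 6) p` (`El_spec`),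
`A * b ^ 6` is prime to `m`, `log (v n) ≤ (ℓ - log N A) / d + C0 + 3 ((2 w - 2 log N b) / d + 2 C0)`. So `box_count` with `T = ℓ - log N A + 6 w - 6 log N b`, constant `7 C0`, gives at most
`C (1 + exp (ℓ + 6 w - N))` values of `n`.
(4) Given `s, P, n`: if `I` is the ideal of `Q` (`El_spec`), `kp p n = ex D p - ex A p + 3 ex I p - 6 ex b p`, so the ideal `W = D * I ^ 3` is determined by `n`; `log N W ≤ ℓ + 6 w ≤ 7 L`; `D` divides `W`, at most
`C exp (ε' L)` values of `D` (`card_dvd_le`), `t = gn A D` is determined by `D`, `r = s / t`, and `Q ^ 3 = n / t`: at most `3` values of `Q` (roots of a polynomial of degree 3). Total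
`C exp (ε L) exp (ℓ + 2 w) (1 + exp (ℓ + 6 w - N))`.
-/

set_option autoImplicit false

namespace AbcEM

open Finset Pool.Agent.Work.MP_a793bb_nt Pool.Agent.Work.MP_a793bb_nt.BPlus NumberField
  IsDedekindDomain Height

private theorem kp_eq_num {K : Type*} [Field K] [NumberField K] {r : K} (hr : r ≠ 0)
    (p : HeightOneSpectrum (𝓞 K)) : kp p r = (ex (numI r) p : ℤ) - ex (numI r⁻¹) p := by
  rw [ex_numI' hr, ex_numI' (inv_ne_zero hr)]
  have e1 : kp p r⁻¹ = -kp p r := by
    rw [kp, kp, map_inv₀, WithZero.log_inv]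
  rw [e1]
  omega

private theorem class_part (K : Type*) [Field K] [NumberField K] (B : ℝ) (hB : 0 ≤ B) (ε : ℝ)
    (hε : 0 < ε) : ∃ C : ℝ, 1 ≤ C ∧ ∀ (L ℓ w : ℝ) (m b : Ideal (𝓞 K)), 0 ≤ ℓ → ℓ ≤ L → 0 ≤ w →
      w ≤ L → m ≠ ⊥ → b ∈ idS m b w → ∀ S : Finset (K × K × K),
      (∀ q ∈ S, RatS B m ℓ q.1 ∧ q.2.1 ∈ El m b w ∧ q.2.2 ∈ El m b w ∧
        red m q.1 * red m q.2.1 ^ 3 = red m q.2.2 ^ 3) →
      (∀ q ∈ S, ∀ q' ∈ S, cl (numI q.1⁻¹) = cl (numI q'.1⁻¹)) →
      (S.card : ℝ) ≤ C * Real.exp (ε * L) * (Real.exp (ℓ + 2 * w) *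
        (1 + Real.exp (ℓ + 6 * w - Real.log (Ideal.absNorm m)))) := by
  classical
  obtain ⟨C1, hC1, h1⟩ := card_idealsLe K
  obtain ⟨C2, hC2, h2⟩ := bal_count K (B + C0 K) (add_nonneg hB (C0_nonneg K))
  obtain ⟨C3, hC3, h3⟩ := card_El_le K
  obtain ⟨C4, hC4, h4⟩ := box_count K (7 * C0 K) (mul_nonneg (by norm_num) (C0_nonneg K))
  have hδ : 0 < ε / 7 := by positivity
  obtain ⟨C5, hC5, h5⟩ := card_dvd_le K hδ
  have hd : (0 : ℝ) < Module.finrank ℚ K := finrank_pos'
  refine ⟨C1 * C2 * C3 * (C4 * (C5 * 3)), ?_, ?_⟩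
  · have e1 : 1 ≤ C1 * C2 := one_le_mul_of_one_le_of_one_le hC1 hC2
    have e2 : 1 ≤ C1 * C2 * C3 := one_le_mul_of_one_le_of_one_le e1 hC3
    have e3 : 1 ≤ C4 * (C5 * 3) :=
      one_le_mul_of_one_le_of_one_le hC4 (one_le_mul_of_one_le_of_one_le hC5 (by norm_num))
    exact one_le_mul_of_one_le_of_one_le e2 e3
  intro L ℓ w m b hℓ hℓL hw hwL hm hb S hS hcl
  have hb' := mem_idS.mp hb
  rcases S.eq_empty_or_nonempty with rfl | ⟨q0, hq0⟩
  · rw [Finset.card_empty, Nat.cast_zero]
    positivity
  have hr0 : ∀ q ∈ S, q.1 ≠ 0 := fun q hq => (hS q hq).1.un.1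
  set A : Ideal (𝓞 K) := numI q0.1⁻¹ with hA
  have hA0 : A ≠ ⊥ := numI_ne_bot (inv_ne_zero (hr0 q0 hq0))
  have hcopD : ∀ q ∈ S, CopI m (numI q.1⁻¹) := by
    intro q hq p hp
    rw [ex_numI' (inv_ne_zero (hr0 q hq))]
    have e1 : kp p q.1⁻¹ = -kp p q.1 := by
      rw [kp, kp, map_inv₀, WithZero.log_inv]
    rw [e1, (hS q hq).1.un.2 p hp]
    rfl
  have hcopA : CopI m A := hcopD q0 hq0
  have hD0 : ∀ q ∈ S, numI q.1⁻¹ ≠ ⊥ := fun q hq => numI_ne_bot (inv_ne_zero (hr0 q hq))
  set t : K × K × K → K := fun q => gn A (numI q.1⁻¹) with ht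
  have htS : ∀ q ∈ S, t q ≠ 0 ∧ (∀ p : HeightOneSpectrum (𝓞 K),
      kp p (t q) = (ex (numI q.1⁻¹) p : ℤ) - ex A p) ∧
      ∀ v : InfinitePlace K, |Real.log (v (t q)) -
        (Real.log (Ideal.absNorm (numI q.1⁻¹)) - Real.log (Ideal.absNorm A)) /
          Module.finrank ℚ K| ≤ C0 K := fun q hq =>
    gn_spec hA0 (hD0 q hq) (hcl q0 hq0 q hq)
  have htU : ∀ q ∈ S, UnitAt m (t q) := fun q hq =>
    unitAt_gn hA0 (hD0 q hq) (hcl q0 hq0 q hq) hcopA (hcopD q hq)
  -- the number of the `s`
  have step1 : ((S.image fun q => q.1 * t q).card : ℝ) ≤ C1 * Real.exp ℓ * C2 := by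
    set T1 : Finset (Ideal (𝓞 K) × K) := S.image fun q => (numI q.1, q.1 * t q) with hT1
    have e1 : (S.image fun q => q.1 * t q) = T1.image Prod.snd := by
      rw [hT1, Finset.image_image]
      rfl
    have e2 : ((S.image fun q => q.1 * t q).card : ℝ) ≤ T1.card := by
      rw [e1]
      exact_mod_cast Finset.card_image_le
    refine e2.trans ?_
    refine card_le_fib T1 (finite_idealsLe K (Real.exp ℓ)).toFinset Prod.fst (by linarith) ?_ ?_ ?_
    · intro a ha
      rw [hT1, Finset.mem_image] at ha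
      obtain ⟨q, hq, rfl⟩ := ha
      rw [Set.Finite.mem_toFinset]
      refine ⟨numI_ne_bot (hr0 q hq), ?_⟩
      rw [← Real.log_le_iff_le_exp (absNorm_pos' (numI_ne_bot (hr0 q hq)))]
      exact (hS q hq).1.num
    · rw [← Set.ncard_eq_toFinset_card _ (finite_idealsLe K (Real.exp ℓ))]
      exact h1 _ (Real.exp_pos ℓ).le
    · intro J _
      have e3 : ((T1.filter fun a => a.1 = J).card) =
          ((T1.filter fun a => a.1 = J).image Prod.snd).card := by
        rw [Finset.card_image_of_injOn]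
        intro x hx y hy hxy
        rw [Finset.mem_coe, Finset.mem_filter] at hx hy
        exact Prod.ext (hx.2.trans hy.2.symm) hxy
      rw [e3]
      have hmem : ∀ x ∈ (T1.filter fun a => a.1 = J).image Prod.snd, ∃ q ∈ S, numI q.1 = J ∧
          q.1 * t q = x := by
        intro x hx
        rw [Finset.mem_image] at hx
        obtain ⟨a, ha, rfl⟩ := hx
        rw [Finset.mem_filter, hT1, Finset.mem_image] at ha
        obtain ⟨⟨q, hq, rfl⟩, hJ⟩ := ha
        exact ⟨q, hq, hJ, rfl⟩
      refine h2 ((Real.log (Ideal.absNorm J) - Real.log (Ideal.absNorm A)) / Module.finrank ℚ K)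
        _ ?_ ?_
      · intro x hx
        obtain ⟨q, hq, hJ, rfl⟩ := hmem x hx
        obtain ⟨g1, g2, g3⟩ := htS q hq
        refine ⟨mul_ne_zero (hr0 q hq) g1, fun v => ?_⟩
        have a1 := (hS q hq).1.bal v
        have a2 := g3 v
        rw [map_mul, Real.log_mul ((map_ne_zero v).mpr (hr0 q hq)) ((map_ne_zero v).mpr g1)]
        rw [hJ] at a1
        rw [abs_le] at a1 a2 ⊢
        have e4 : (Real.log (Ideal.absNorm J) - Real.log (Ideal.absNorm A)) /
            (Module.finrank ℚ K : ℝ) =
            (Real.log (Ideal.absNorm J) - Real.log (Ideal.absNorm (numI q.1⁻¹))) /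
              (Module.finrank ℚ K : ℝ) +
            (Real.log (Ideal.absNorm (numI q.1⁻¹)) - Real.log (Ideal.absNorm A)) /
              (Module.finrank ℚ K : ℝ) := by ring
        rw [e4]
        constructor <;> linarith [a1.1, a1.2, a2.1, a2.2]
      · intro x hx y hy p
        have key : ∀ z ∈ (T1.filter fun a => a.1 = J).image Prod.snd,
            kp p z = (ex J p : ℤ) - ex A p := by
          intro z hz
          obtain ⟨q, hq, hJ, rfl⟩ := hmem z hz
          obtain ⟨g1, g2, g3⟩ := htS q hq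
          rw [kp_mul p (hr0 q hq) g1, g2 p, kp_eq_num (hr0 q hq) p, hJ]
          ring
        rw [key x hx, key y hy]
  -- first fibration
  have hEl : ((El m b w).card : ℝ) ≤ C3 * Real.exp (2 * w) := h3 m b w
  have hmain : (S.card : ℝ) ≤ (C1 * Real.exp ℓ * C2) * (C3 * Real.exp (2 * w)) *
      ((C4 * (1 + Real.exp (ℓ + 6 * w - Real.log (Ideal.absNorm m)))) *
        (C5 * Real.exp (ε * L) * 3)) := by
    refine card_le_fib S ((S.image fun q => q.1 * t q) ×ˢ El m b w)
      (fun q => (q.1 * t q, q.2.1)) (by positivity) ?_ ?_ ?_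
    · intro q hq
      rw [Finset.mem_product]
      exact ⟨Finset.mem_image_of_mem _ hq, (hS q hq).2.1⟩
    · rw [Finset.card_product, Nat.cast_mul]
      exact mul_le_mul step1 hEl (Nat.cast_nonneg _) (by positivity)
    · rintro ⟨s0, P0⟩ -
      set F := S.filter fun q => (q.1 * t q, q.2.1) = (s0, P0) with hF
      have hFS : ∀ q ∈ F, q ∈ S ∧ q.1 * t q = s0 ∧ q.2.1 = P0 := by
        intro q hq
        rw [hF, Finset.mem_filter, Prod.mk.injEq] at hq
        exact hq
      refine card_le_fib F (F.image fun q => t q * q.2.2 ^ 3) (fun q => t q * q.2.2 ^ 3)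
        (by positivity) (fun q hq => Finset.mem_image_of_mem _ hq) ?_ ?_
      · -- the box
        have hcop : CopI m (A * b ^ 6) := by
          intro p hp
          rw [ex_mul hA0 (pow_ne_zero 6 hb'.1) p, ex_pow hb'.1, hcopA p hp, hb'.2.2.2 p hp]
        have hAb : A * b ^ 6 ≠ ⊥ := mul_ne_zero hA0 (pow_ne_zero 6 hb'.1)
        have hb4 := h4 (ℓ - Real.log (Ideal.absNorm A) + 6 * w - 6 * Real.log (Ideal.absNorm b))
          m (A * b ^ 6) hm hAb hcop (F.image fun q => t q * q.2.2 ^ 3) ?_ ?_
        · have e5 : ℓ - Real.log (Ideal.absNorm A) + 6 * w - 6 * Real.log (Ideal.absNorm b) +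
              Real.log (Ideal.absNorm (A * b ^ 6)) - Real.log (Ideal.absNorm m) =
              ℓ + 6 * w - Real.log (Ideal.absNorm m) := by
            rw [log_absNorm_mul hA0 (pow_ne_zero 6 hb'.1), log_absNorm_pow]
            push_cast
            ring
          rw [e5] at hb4
          exact hb4
        · intro x hx
          rw [Finset.mem_image] at hx
          obtain ⟨q, hq, rfl⟩ := hx
          obtain ⟨hqS, -, -⟩ := hFS q hq
          obtain ⟨g1, g2, g3⟩ := htS q hqS
          obtain ⟨u1, I, hI0, hI1, hI2, hI3⟩ := El_spec hb (hS q hqS).2.2.1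
          refine ⟨mul_ne_zero g1 (pow_ne_zero 3 u1.1), fun v => ?_, fun p => ?_⟩
          · rw [map_mul, map_pow, Real.log_mul ((map_ne_zero v).mpr g1)
              (pow_ne_zero 3 ((map_ne_zero v).mpr u1.1)), Real.log_pow]
            have a1 := (abs_le.mp (g3 v)).2
            have a2 := (abs_le.mp (hI3 v)).2
            have a3 := (hS q hqS).1.den
            have a4 : (Real.log (Ideal.absNorm (numI q.1⁻¹)) - Real.log (Ideal.absNorm A)) /
                (Module.finrank ℚ K : ℝ) ≤
                (ℓ - Real.log (Ideal.absNorm A)) / (Module.finrank ℚ K : ℝ) :=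
              div_le_div_of_nonneg_right (by linarith) hd.le
            have a5 : (Real.log (Ideal.absNorm I) - 2 * Real.log (Ideal.absNorm b)) /
                (Module.finrank ℚ K : ℝ) ≤
                (2 * w - 2 * Real.log (Ideal.absNorm b)) / (Module.finrank ℚ K : ℝ) :=
              div_le_div_of_nonneg_right (by linarith) hd.le
            have e6 : (ℓ - Real.log (Ideal.absNorm A) + 6 * w -
                6 * Real.log (Ideal.absNorm b)) / (Module.finrank ℚ K : ℝ) =
                (ℓ - Real.log (Ideal.absNorm A)) / (Module.finrank ℚ K : ℝ) +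
                3 * ((2 * w - 2 * Real.log (Ideal.absNorm b)) / (Module.finrank ℚ K : ℝ)) := by
              ring
            rw [e6]
            push_cast
            linarith
          · rw [kp_mul p g1 (pow_ne_zero 3 u1.1), kp_pow p u1.1, g2 p, hI2 p,
              ex_mul hA0 (pow_ne_zero 6 hb'.1) p, ex_pow hb'.1]
            push_cast
            have : (0 : ℤ) ≤ ex I p := Int.natCast_nonneg _
            have : (0 : ℤ) ≤ ex (numI q.1⁻¹) p := Int.natCast_nonneg _
            linarith
        · have key : ∀ q ∈ F, red m (t q * q.2.2 ^ 3) = red m s0 * red m P0 ^ 3 ∧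
              UnitAt m (t q * q.2.2 ^ 3) := by
            intro q hq
            obtain ⟨hqS, hs, hP⟩ := hFS q hq
            obtain ⟨hr, -, hQ, hred⟩ := hS q hqS
            have u1 := (El_spec hb hQ).1
            refine ⟨?_, (htU q hqS).mul (u1.pow 3)⟩
            rw [red_mul hm (htU q hqS) (u1.pow 3), red_pow hm u1, ← hred, ← hs, ← hP,
              red_mul hm hr.un (htU q hqS)]
            rw [mul_comm (red m q.1) (red m (t q)), mul_assoc]
          intro x hx y hy
          rw [Finset.mem_image] at hx hy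
          obtain ⟨q, hq, rfl⟩ := hx
          obtain ⟨q', hq', rfl⟩ := hy
          obtain ⟨k1, k2⟩ := key q hq
          obtain ⟨k3, k4⟩ := key q' hq'
          exact (red_eq_iff hm k2 k4).mp (k1.trans k3.symm)
      · -- the last fibres
        intro n0 _
        set F' := F.filter fun q => t q * q.2.2 ^ 3 = n0 with hF'
        rcases F'.eq_empty_or_nonempty with he | ⟨q1, hq1⟩
        · rw [he, Finset.card_empty, Nat.cast_zero]
          positivity
        have hFS' : ∀ q ∈ F', q ∈ F ∧ t q * q.2.2 ^ 3 = n0 := by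
          intro q hq
          rw [hF', Finset.mem_filter] at hq
          exact hq
        have hq1F := (hFS' q1 hq1).1
        have hq1S := (hFS q1 hq1F).1
        obtain ⟨-, I1, hI10, hI11, hI12, -⟩ := El_spec hb (hS q1 hq1S).2.2.1
        have hkp : ∀ q ∈ F', ∃ I : Ideal (𝓞 K), ∀ p : HeightOneSpectrum (𝓞 K),
            kp p n0 = ((ex (numI q.1⁻¹) p : ℤ) - ex A p) +
              3 * ((ex I p : ℤ) - 2 * ex b p) := by
          intro q hq
          have hqS := (hFS q (hFS' q hq).1).1
          obtain ⟨g1, g2, g3⟩ := htS q hqS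
          obtain ⟨u1, I, hI0, hI1, hI2, hI3⟩ := El_spec hb (hS q hqS).2.2.1
          refine ⟨I, fun p => ?_⟩
          rw [← (hFS' q hq).2, kp_mul p g1 (pow_ne_zero 3 u1.1), kp_pow p u1.1, g2 p, hI2 p]
          push_cast
          ring
        have hkp1 : ∀ p : HeightOneSpectrum (𝓞 K),
            kp p n0 = ((ex (numI q1.1⁻¹) p : ℤ) - ex A p) +
              3 * ((ex I1 p : ℤ) - 2 * ex b p) := by
          intro p
          obtain ⟨g1, g2, g3⟩ := htS q1 hq1S
          have u1 := (El_spec hb (hS q1 hq1S).2.2.1).1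
          rw [← (hFS' q1 hq1).2, kp_mul p g1 (pow_ne_zero 3 u1.1), kp_pow p u1.1, g2 p, hI12 p]
          push_cast
          ring
        set W : Ideal (𝓞 K) := numI q1.1⁻¹ * I1 ^ 3 with hW
        have hW0 : W ≠ ⊥ := mul_ne_zero (hD0 q1 hq1S) (pow_ne_zero 3 hI10)
        obtain ⟨hfin, hcardW⟩ := h5 W hW0
        have hWn : ((Ideal.absNorm W : ℝ)) ^ (ε / 7) ≤ Real.exp (ε * L) := by
          rw [Real.rpow_def_of_pos (absNorm_pos' hW0)]
          apply Real.exp_le_exp.mpr
          have e7 : Real.log (Ideal.absNorm W) ≤ 7 * L := by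
            rw [hW, log_absNorm_mul (hD0 q1 hq1S) (pow_ne_zero 3 hI10), log_absNorm_pow]
            have := (hS q1 hq1S).1.den
            push_cast
            linarith
          calc Real.log (Ideal.absNorm W) * (ε / 7) ≤ 7 * L * (ε / 7) :=
                mul_le_mul_of_nonneg_right e7 hδ.le
            _ = ε * L := by ring
        refine card_le_fib F' hfin.toFinset (fun q => numI q.1⁻¹) (by norm_num) ?_ ?_ ?_
        · intro q hq
          rw [Set.Finite.mem_toFinset]
          have hqS := (hFS q (hFS' q hq).1).1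
          refine dvd_of_ex (hD0 q hqS) hW0 fun p => ?_
          obtain ⟨I, hI⟩ := hkp q hq
          have a1 := hI p
          have a2 := hkp1 p
          rw [hW, ex_mul (hD0 q1 hq1S) (pow_ne_zero 3 hI10) p, ex_pow hI10]
          have : (0 : ℤ) ≤ ex I p := Int.natCast_nonneg _
          have a3 : (ex (numI q.1⁻¹) p : ℤ) ≤ ((ex (numI q1.1⁻¹) p + 3 * ex I1 p : ℕ) : ℤ) := by
            push_cast
            linarith
          exact_mod_cast a3
        · rw [← Set.ncard_eq_toFinset_card _ hfin]
          exact hcardW.trans (mul_le_mul_of_nonneg_left hWn (by linarith))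
        · intro D0 _
          set F'' := F'.filter fun q => numI q.1⁻¹ = D0 with hF''
          have hinj : Set.InjOn (fun q : K × K × K => q.2.2) (F'' : Set (K × K × K)) := by
            intro q hq q' hq' hqq
            rw [Finset.mem_coe, hF'', Finset.mem_filter] at hq hq'
            obtain ⟨hqF, hqD⟩ := hq
            obtain ⟨hqF', hqD'⟩ := hq'
            obtain ⟨hqS, hs, hP⟩ := hFS q (hFS' q hqF).1
            obtain ⟨hqS', hs', hP'⟩ := hFS q' (hFS' q' hqF').1
            have ett : t q = t q' := by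
              rw [ht]
              simp only [hqD, hqD']
            have h6 : q.1 * t q = q'.1 * t q := by rw [hs, ett, hs']
            have h7 := mul_right_cancel₀ (htS q hqS).1 h6
            exact Prod.ext h7 (Prod.ext (hP.trans hP'.symm) hqq)
          have e8 : F''.card = (F''.image fun q => q.2.2).card :=
            (Finset.card_image_of_injOn hinj).symm
          rw [e8]
          have e9 : (F''.image fun q => q.2.2) ⊆
              (Polynomial.nthRoots 3 (n0 / gn A D0)).toFinset := by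
            intro x hx
            rw [Finset.mem_image] at hx
            obtain ⟨q, hq, rfl⟩ := hx
            rw [hF'', Finset.mem_filter] at hq
            obtain ⟨hqF, hqD⟩ := hq
            have hqS := (hFS q (hFS' q hqF).1).1
            rw [Multiset.mem_toFinset, Polynomial.mem_nthRoots (by norm_num)]
            have h8 := (hFS' q hqF).2
            have h9 : t q = gn A D0 := by
              rw [ht]
              simp only [hqD]
            rw [← h9, eq_div_iff (htS q hqS).1, ← h8]
            ring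
          have e10 : (F''.image fun q => q.2.2).card ≤ 3 :=
            (Finset.card_le_card e9).trans ((Multiset.toFinset_card_le _).trans
              (Polynomial.card_nthRoots 3 _))
          exact_mod_cast e10
  refine hmain.trans (le_of_eq ?_)
  have e11 : Real.exp (ℓ + 2 * w) = Real.exp ℓ * Real.exp (2 * w) := Real.exp_add _ _
  rw [e11]
  ring

theorem triple_count (K : Type*) [Field K] [NumberField K] (B : ℝ) (hB : 0 ≤ B) (ε : ℝ)
    (hε : 0 < ε) : ∃ C : ℝ, 1 ≤ C ∧ ∀ (L ℓ w : ℝ) (m b : Ideal (𝓞 K)), 0 ≤ ℓ → ℓ ≤ L → 0 ≤ w →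
      w ≤ L → m ≠ ⊥ → b ∈ idS m b w → ∀ S : Finset (K × K × K),
      (∀ q ∈ S, RatS B m ℓ q.1 ∧ q.2.1 ∈ El m b w ∧ q.2.2 ∈ El m b w ∧
        red m q.1 * red m q.2.1 ^ 3 = red m q.2.2 ^ 3) →
      (S.card : ℝ) ≤ C * Real.exp (ε * L) * (Real.exp (ℓ + 2 * w) *
        (1 + Real.exp (ℓ + 6 * w - Real.log (Ideal.absNorm m)))) := by
  classical
  obtain ⟨C, hC, h⟩ := class_part K B hB ε hε
  have hn : (1 : ℝ) ≤ (ncl K + 1 : ℕ) := by
    exact_mod_cast Nat.le_add_left 1 _
  refine ⟨(ncl K + 1 : ℕ) * C, one_le_mul_of_one_le_of_one_le hn hC, ?_⟩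
  intro L ℓ w m b hℓ hℓL hw hwL hm hb S hS
  have h1 := card_le_fib S (Finset.univ : Finset (Fin (ncl K + 1)))
    (fun q => cl (numI q.1⁻¹)) (M1 := ((ncl K + 1 : ℕ) : ℝ))
    (M2 := C * Real.exp (ε * L) * (Real.exp (ℓ + 2 * w) *
        (1 + Real.exp (ℓ + 6 * w - Real.log (Ideal.absNorm m))))) (by positivity)
    (fun q _ => Finset.mem_univ _) (by rw [Finset.card_univ, Fintype.card_fin]) ?_
  · refine h1.trans (le_of_eq ?_)
    ring
  · intro κ _
    refine h L ℓ w m b hℓ hℓL hw hwL hm hb _ (fun q hq => hS q (Finset.mem_filter.mp hq).1) ?_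
    intro q hq q' hq'
    exact (Finset.mem_filter.mp hq).2.trans (Finset.mem_filter.mp hq').2.symm

end AbcEM
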