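import Pool.Agent.Work.MP_a793bb_nt.EM.KB
import Pool.Agent.Work.MP_a793bb_nt.ArchCells

/-!
# Separated elements in a box

Proof. Let `d = finrank ℚ K` and `δ > 0` with `(2 δ) ^ d = M / 2`, i.e. `δ = (M / 2) ^ (1 / d) / 2`. Label of `x`: the family over the infinite places `v` of
`(⌊re (v.embedding x) / δ⌋, ⌊im (v.embedding x) / δ⌋)`. If `x ≠ y` have the same label then `‖v.embedding x - v.embedding y‖ ≤ √2 δ ≤ 2 δ`, i.e. `v (x - y) ≤ 2 δ`
(`InfinitePlace.norm_embedding_eq`) for all `v`, so the product is `≤ (2 δ) ^ d = M / 2 < M` (`InfinitePlace.sum_mult_eq`: `∑ mult v = d`), contradiction. So `#S` is at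
most the number of the labels: `|re|, |im| ≤ v x ≤ T`, so there are at most `2 T / δ + 2` values for every coordinate (`card_Icc_floor`, `floor_mem_Icc` in
`ArchCells.lean`), and only one value of the second coordinate if `v` is real (the imaginary part of `v.embedding x` is `0`); in total
`∏_v (2 T / δ + 2) ^ mult v = (2 T / δ + 2) ^ d ≤ 4 ^ d * (1 + (T / δ) ^ d)` and `(T / δ) ^ d = T ^ d * 2 ^ d * 2 / M`.
(`(2 x + 2) ^ d ≤ 2 ^ d * 2 ^ d * max 1 x ^ d`.)
-/

set_option autoImplicit false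

namespace AbcEM

open Finset Pool.Agent.Work.MP_a793bb_nt Pool.Agent.Work.MP_a793bb_nt.BPlus NumberField
  IsDedekindDomain Height

theorem pack_count (K : Type*) [Field K] [NumberField K] : ∃ C : ℝ, 1 ≤ C ∧
    ∀ T M : ℝ, 0 < T → 0 < M → ∀ S : Finset K,
      (∀ x ∈ S, ∀ v : InfinitePlace K, v x ≤ T) →
      (∀ x ∈ S, ∀ y ∈ S, x ≠ y → M ≤ ∏ v : InfinitePlace K, v (x - y) ^ v.mult) →
      (S.card : ℝ) ≤ C * (1 + T ^ Module.finrank ℚ K / M) := by
  classical
  set d := Module.finrank ℚ K with hd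
  have hd0 : d ≠ 0 := Module.finrank_pos.ne'
  refine ⟨2 * 8 ^ d, ?_, ?_⟩
  · have : (1 : ℝ) ≤ 8 ^ d := one_le_pow₀ (by norm_num)
    linarith
  intro T M hT hM S hST hSM
  set δ : ℝ := (M / 2) ^ ((d : ℝ)⁻¹) / 2 with hδdef
  have hδ : 0 < δ := by positivity
  have h2δ : (2 * δ) ^ d = M / 2 := by
    rw [hδdef, mul_div_cancel₀ _ (by norm_num : (2 : ℝ) ≠ 0),
      Real.rpow_inv_natCast_pow (by positivity) hd0]
  set lbl : K → InfinitePlace K → ℤ × ℤ := fun x v =>
    (⌊(v.embedding x).re / δ⌋, ⌊(v.embedding x).im / δ⌋) with hlbl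
  set box : InfinitePlace K → Finset (ℤ × ℤ) := fun v =>
    Finset.Icc ⌊-(T / δ)⌋ ⌊T / δ⌋ ×ˢ
      (if v.IsReal then ({0} : Finset ℤ) else Finset.Icc ⌊-(T / δ)⌋ ⌊T / δ⌋) with hbox
  have hmem : ∀ x ∈ S, lbl x ∈ Fintype.piFinset box := by
    intro x hx
    rw [Fintype.mem_piFinset]
    intro v
    have hv := hST x hx v
    rw [← InfinitePlace.norm_embedding_eq] at hv
    rw [hbox, hlbl]
    simp only [Finset.mem_product]
    refine ⟨floor_mem_Icc ?_, ?_⟩
    · rw [abs_div, abs_of_pos hδ]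
      exact div_le_div_of_nonneg_right ((Complex.abs_re_le_norm _).trans hv) hδ.le
    · split_ifs with hr
      · have h1 := InfinitePlace.isReal_iff.mp hr
        have h2 : (v.embedding x).im = 0 := by
          rw [← Complex.conj_eq_iff_im]
          exact RingHom.congr_fun h1 x
        rw [h2]
        simp
      · refine floor_mem_Icc ?_
        rw [abs_div, abs_of_pos hδ]
        exact div_le_div_of_nonneg_right ((Complex.abs_im_le_norm _).trans hv) hδ.le
  have hinj : Set.InjOn lbl (S : Set K) := by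
    intro x hx y hy hxy
    by_contra hne
    have h1 := hSM x hx y hy hne
    have h2 : ∏ v : InfinitePlace K, v (x - y) ^ v.mult ≤ ∏ v : InfinitePlace K, (2 * δ) ^ v.mult := by
      refine Finset.prod_le_prod (fun v _ => by positivity) fun v _ => ?_
      refine pow_le_pow_left₀ (by positivity) ?_ _
      rw [← InfinitePlace.norm_embedding_eq, map_sub]
      have h3 := congrFun hxy v
      rw [hlbl] at h3
      simp only [Prod.mk.injEq] at h3
      have h4 := abs_sub_le_of_floor_eq hδ h3.1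
      have h5 := abs_sub_le_of_floor_eq hδ h3.2
      refine (Complex.norm_le_abs_re_add_abs_im _).trans ?_
      rw [Complex.sub_re, Complex.sub_im]
      linarith
    rw [Finset.prod_pow_eq_pow_sum, InfinitePlace.sum_mult_eq, ← hd, h2δ] at h2
    linarith
  have hcard : S.card ≤ (Fintype.piFinset box).card :=
    Finset.card_le_card_of_injOn lbl hmem hinj
  have hx0 : 0 ≤ T / δ := by positivity
  have hbc : ∀ v : InfinitePlace K, ((box v).card : ℝ) ≤ (2 * (T / δ) + 2) ^ v.mult := by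
    intro v
    rw [hbox]
    simp only [Finset.card_product]
    push_cast
    have h1 := card_Icc_floor hx0
    unfold InfinitePlace.mult
    split_ifs with hr
    · simpa using h1
    · rw [pow_two]
      exact mul_le_mul h1 h1 (by positivity) (by positivity)
  have hbox2 : ((Fintype.piFinset box).card : ℝ) ≤ (2 * (T / δ) + 2) ^ d := by
    rw [Fintype.card_piFinset]
    push_cast
    refine (Finset.prod_le_prod (fun v _ => by positivity) fun v _ => hbc v).trans ?_
    rw [Finset.prod_pow_eq_pow_sum, InfinitePlace.sum_mult_eq]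
  have hmax : (2 * (T / δ) + 2) ^ d ≤ 4 ^ d * (1 + (T / δ) ^ d) := by
    rcases le_total (T / δ) 1 with h | h
    · calc (2 * (T / δ) + 2) ^ d ≤ 4 ^ d := pow_le_pow_left₀ (by positivity) (by linarith) _
        _ ≤ 4 ^ d * (1 + (T / δ) ^ d) := by
          have : (0 : ℝ) ≤ 4 ^ d * (T / δ) ^ d := by positivity
          linarith
    · calc (2 * (T / δ) + 2) ^ d ≤ (4 * (T / δ)) ^ d :=
            pow_le_pow_left₀ (by positivity) (by linarith) _
        _ = 4 ^ d * (T / δ) ^ d := mul_pow _ _ _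
        _ ≤ 4 ^ d * (1 + (T / δ) ^ d) := by
          have : (0 : ℝ) ≤ 4 ^ d := by positivity
          linarith
  have hTd : (T / δ) ^ d = 2 ^ d * 2 * (T ^ d / M) := by
    have h1 : (2 * δ) ^ d = 2 ^ d * δ ^ d := mul_pow _ _ _
    have h2 : δ ^ d = M / 2 / 2 ^ d := by
      rw [eq_div_iff (by positivity), mul_comm, ← h1, h2δ]
    rw [div_pow, h2]
    field_simp
  calc (S.card : ℝ) ≤ ((Fintype.piFinset box).card : ℝ) := by exact_mod_cast hcard
    _ ≤ (2 * (T / δ) + 2) ^ d := hbox2
    _ ≤ 4 ^ d * (1 + (T / δ) ^ d) := hmax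
    _ = 4 ^ d + 2 * 8 ^ d * (T ^ d / M) := by
      rw [hTd]
      have : (8 : ℝ) ^ d = 4 ^ d * 2 ^ d := by rw [← mul_pow]; norm_num
      rw [this]
      ring
    _ ≤ 2 * 8 ^ d * (1 + T ^ d / M) := by
      have h1 : (4 : ℝ) ^ d ≤ 8 ^ d := pow_le_pow_left₀ (by norm_num) (by norm_num) _
      have h2 : (0 : ℝ) ≤ 8 ^ d := by positivity
      nlinarith

end AbcEM
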