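import Pool.Agent.Work.MP_a793bb_nt.EM.Pack
import Pool.Agent.Work.MP_a793bb_nt.EM.NormL

/-!
# Congruent quotients

Proof. Let `r ≠ r'` be in `S`, `x = r - r'`, `D = numI r⁻¹ * numI r'⁻¹`. For all `p`: `ex m p - ex D p ≤ kp p x`: if `p ∣ m`, then `ex m p ≤ kp p x` by `CongM` and `ex D p ≥ 0`; otherwise
`ex m p = 0` and `kp p x ≥ min (kp p r) (kp p r') ≥ - ex D p` (`kp_sub_ge`, `ex_numI'`: `ex (numI r⁻¹) p = (- kp p r).toNat`). `log N D ≤ 2 v`. So
by `norm_ge` the product `∏ v (x) ^ mult ≥ M := exp (log N m - 2 v)`. Sizes: `BalR`: `log (w r) ≤ (u - (v - 1)) / d + B` for the places `w`, so `T' = exp ((u - v + 1) / d + B)`,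
`T' ^ d = exp (u - v + 1 + d B)`. `pack_count`: `#S ≤ C (1 + T' ^ d / M) = C (1 + exp (1 + d B) exp (u + v - log N m))`.
-/

set_option autoImplicit false

namespace AbcEM

open Finset Pool.Agent.Work.MP_a793bb_nt Pool.Agent.Work.MP_a793bb_nt.BPlus NumberField
  IsDedekindDomain Height

theorem ratio_box (K : Type*) [Field K] [NumberField K] (B : ℝ) (hB : 0 ≤ B) : ∃ C : ℝ, 1 ≤ C ∧
    ∀ (u v : ℝ) (m : Ideal (𝓞 K)), m ≠ ⊥ → ∀ S : Finset K,
      (∀ r ∈ S, r ≠ 0 ∧ BalR B r ∧ Real.log (Ideal.absNorm (numI r)) ≤ u ∧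
        v - 1 ≤ Real.log (Ideal.absNorm (numI r⁻¹)) ∧
        Real.log (Ideal.absNorm (numI r⁻¹)) ≤ v) →
      (∀ r ∈ S, ∀ r' ∈ S, CongM m r r') →
      (S.card : ℝ) ≤ C * (1 + Real.exp (u + v - Real.log (Ideal.absNorm m))) := by
  obtain ⟨C, hC1, hC⟩ := pack_count K
  have hd : 0 < Module.finrank ℚ K := Module.finrank_pos
  have hd' : (0 : ℝ) < Module.finrank ℚ K := by exact_mod_cast hd
  set d := Module.finrank ℚ K with hdd
  have hE : 1 ≤ Real.exp (1 + d * B) := Real.one_le_exp (by positivity)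
  refine ⟨C * Real.exp (1 + d * B), ?_, ?_⟩
  · nlinarith
  intro u v m hm S hS hcong
  have key := hC (Real.exp ((u - v + 1) / d + B))
    (Real.exp (Real.log (Ideal.absNorm m) - 2 * v))
    (Real.exp_pos _) (Real.exp_pos _) S ?_ ?_
  · have e1 : Real.exp ((u - v + 1) / d + B) ^ d /
        Real.exp (Real.log (Ideal.absNorm m) - 2 * v) =
        Real.exp (1 + d * B) * Real.exp (u + v - Real.log (Ideal.absNorm m)) := by
      rw [← Real.exp_nat_mul, ← Real.exp_sub, ← Real.exp_add]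
      congr 1
      field_simp
      ring
    rw [e1] at key
    refine key.trans ?_
    rw [mul_assoc]
    refine mul_le_mul_of_nonneg_left ?_ (by linarith)
    have h2 := Real.exp_pos (u + v - Real.log (Ideal.absNorm m))
    nlinarith
  · intro r hr w
    obtain ⟨hr0, hbal, hnum, hden1, -⟩ := hS r hr
    have hpos : 0 < w r := w.pos_iff.mpr hr0
    rw [← Real.exp_log hpos]
    refine Real.exp_le_exp.mpr ?_
    have h1 := (abs_le.mp (hbal w)).2
    have h2 : (Real.log (Ideal.absNorm (numI r)) - Real.log (Ideal.absNorm (numI r⁻¹))) / d ≤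
        (u - v + 1) / d := div_le_div_of_nonneg_right (by linarith) hd'.le
    linarith
  · intro r hr r' hr' hne
    obtain ⟨hr0, -, -, -, hden⟩ := hS r hr
    obtain ⟨hr0', -, -, -, hden'⟩ := hS r' hr'
    have hsub : r - r' ≠ 0 := sub_ne_zero.mpr hne
    have hD1 := numI_ne_bot (inv_ne_zero hr0)
    have hD2 := numI_ne_bot (inv_ne_zero hr0')
    have hD : numI r⁻¹ * numI r'⁻¹ ≠ ⊥ := mul_ne_zero hD1 hD2
    refine le_trans ?_ (norm_ge hm hD hsub fun p => ?_)
    · refine Real.exp_le_exp.mpr ?_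
      rw [log_absNorm_mul hD1 hD2]
      linarith
    · have h0 : (0 : ℤ) ≤ (ex (numI r⁻¹ * numI r'⁻¹) p : ℤ) := Int.natCast_nonneg _
      by_cases hp : p.asIdeal ∣ m
      · rcases hcong r hr r' hr' with h | h
        · exact absurd h hne
        · have := h p hp
          omega
      · rw [ex_eq_zero hp, ex_mul hD1 hD2, ex_numI' (inv_ne_zero hr0), ex_numI' (inv_ne_zero hr0'),
          kp_inv p hr0, kp_inv p hr0']
        have h1 := AbcOrdM.kp_sub_ge p hr0 hr0' hsub
        push_cast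
        omega

end AbcEM
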