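import Pool.Agent.Work.MP_a793bb_nt.EM.KB

/-!
# Roots of unity modulo a prime power

Proof. Let `R = 𝓞 K`. (a) `p` does not divide `l` (i.e. `(l : R) ∉ p`): the map from the `l`-th roots of unity in `(R/p^e)ˣ` to `R/p` is injective for `e ≥ 1`: if `z^l = z'^l = 1` and
`z ≡ z' mod p` (lift to `R`) then `(z - z') (z^(l-1) + ... + z'^(l-1)) ∈ p^e` and the second factor is `≡ l z^(l-1)` modulo `p`, which is not in `p`; so `z - z' ∈ p^e`
(`p^e` is primary; or the second factor is a unit modulo `p^e` as it is not in `p`). `R/p` is a field, so the polynomial `X^l - 1` has at most `l` roots: at most `l` roots of unity.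
(`e = 0`: the ring is trivial, one element.)
(b) `p` divides `l`: these are finitely many primes `p` (`l ≠ 0` in `R`), so it suffices to have for such a `p` a bound independent of `e`. Let `n` be the exponent of `p` in `(l)`,
`k0 = n + 1`. If `e ≤ 2 k0` the number is at most `#(R/p^(2 k0))`. Otherwise the number is at most `#(R/p^k0)` times the number of the roots of unity `≡ 1` modulo
`p^k0` (quotients of two roots with the same class modulo `p^k0`). If `z ≡ 1 + y`, `y ∈ R` with exponent `j ≥ k0` at `p` and `z^l = 1` in `R/p^e`: `(1 + y)^l - 1 = l y + ∑_{i ≥ 2} binom(l,i) y^i`,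
the exponent of `l y` is `n + j`, that of the other terms is `≥ 2 j > n + j` (`j ≥ n + 1`). So the exponent of `(1+y)^l - 1` is `n + j`, and it is `≥ e`:
`j ≥ e - n`. So `y ∈ p^(e-n)`, at most `#(p^(e-n)/p^e) = N p ^ n ≤ #(R/p^n)` values. The constant is the maximum of `l` and the finitely many bounds of (b).
(One can work with `Valuation` or `ex`/`multiplicity`, or replace the last step by: `y ∈ p^j`, `j < e - n`, `l y ∈ p^(2 j)`, hence `y ∈ p^(2j - n)`, and `2 j - n > j`; by induction `y ∈ p^(e-n)`.)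
-/

set_option autoImplicit false

namespace AbcEM

open Finset Pool.Agent.Work.MP_a793bb_nt Pool.Agent.Work.MP_a793bb_nt.BPlus NumberField
  IsDedekindDomain Height

private theorem key {K : Type*} [Field K] [NumberField K] {l : ℕ} (hl : 1 ≤ l)
    (p : HeightOneSpectrum (𝓞 K)) {e k : ℕ} (he : 1 ≤ e)
    (hk : ex (Ideal.span {(l : 𝓞 K)}) p < k) {x x0 : 𝓞 K} (hx : x ^ l - 1 ∈ p.asIdeal ^ e)
    (hx0 : x0 ^ l - 1 ∈ p.asIdeal ^ e) (hd : x - x0 ∈ p.asIdeal ^ k) :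
    x - x0 ∈ p.asIdeal ^ (e - ex (Ideal.span {(l : 𝓞 K)}) p) := by
  classical
  set n := ex (Ideal.span {(l : 𝓞 K)}) p with hn
  have hl0 : (l : 𝓞 K) ≠ 0 := by
    exact_mod_cast (by omega : l ≠ 0)
  have hspl : Ideal.span {(l : 𝓞 K)} ≠ ⊥ := by
    rw [Ne, Ideal.span_singleton_eq_bot]
    exact hl0
  set d := x - x0 with hdd
  have hxd : x = x0 + d := by rw [hdd]; ring
  by_cases hd0 : d = 0
  · rw [hd0]
    exact Ideal.zero_mem _
  have hx0P : x0 ∉ p.asIdeal := by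
    intro h
    have h1 : x0 ^ l ∈ p.asIdeal := Ideal.pow_mem_of_mem _ h l (by omega)
    have h2 : x0 ^ l - 1 ∈ p.asIdeal := Ideal.pow_le_self (by omega) hx0
    have h3 : (1 : 𝓞 K) ∈ p.asIdeal := by
      have := Ideal.sub_mem _ h1 h2
      rwa [sub_sub_cancel] at this
    exact p.isPrime.ne_top ((Ideal.eq_top_iff_one _).mpr h3)
  obtain ⟨c, hc⟩ := Polynomial.powAddExpansion x0 d l
  set u := (l : 𝓞 K) * x0 ^ (l - 1) + c * d with hu
  have hdu : d * u ∈ p.asIdeal ^ e := by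
    have h1 : d * u = (x ^ l - 1) - (x0 ^ l - 1) := by
      rw [hxd, hc, hu]
      ring
    rw [h1]
    exact Ideal.sub_mem _ hx hx0
  have hu1 : u ∉ p.asIdeal ^ (n + 1) := by
    intro h
    have h1 : c * d ∈ p.asIdeal ^ (n + 1) :=
      Ideal.mul_mem_left _ _ (Ideal.pow_le_pow_right (by omega) hd)
    have h2 : (l : 𝓞 K) * x0 ^ (l - 1) ∈ p.asIdeal ^ (n + 1) := by
      have := Ideal.sub_mem _ h h1
      rwa [hu, add_sub_cancel_right] at this
    have h3 : p.asIdeal ^ (n + 1) ∣ Ideal.span {(l : 𝓞 K)} * Ideal.span {x0 ^ (l - 1)} := by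
      rw [Ideal.span_singleton_mul_span_singleton, Ideal.dvd_span_singleton]
      exact h2
    have h4 : ¬ p.asIdeal ∣ Ideal.span {x0 ^ (l - 1)} := by
      rw [Ideal.dvd_span_singleton]
      intro h5
      exact hx0P (p.isPrime.mem_of_pow_mem _ h5)
    have h6 : IsCoprime (p.asIdeal ^ (n + 1)) (Ideal.span {x0 ^ (l - 1)}) := by
      apply IsCoprime.pow_left
      rw [Ideal.isCoprime_iff_sup_eq]
      refine (Ideal.isMaximal_def.mp p.isMaximal).2 _ (left_lt_sup.mpr ?_)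
      rw [← Ideal.dvd_iff_le]
      exact h4
    have h7 := h6.dvd_of_dvd_mul_right h3
    rw [pow_ex_dvd p hspl] at h7
    omega
  have hu0 : u ≠ 0 := by
    intro h
    rw [h] at hu1
    exact hu1 (Ideal.zero_mem _)
  have hsd : Ideal.span {d} ≠ ⊥ := by
    rw [Ne, Ideal.span_singleton_eq_bot]
    exact hd0
  have hsu : Ideal.span {u} ≠ ⊥ := by
    rw [Ne, Ideal.span_singleton_eq_bot]
    exact hu0
  have h8 : p.asIdeal ^ e ∣ Ideal.span {d} * Ideal.span {u} := by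
    rw [Ideal.span_singleton_mul_span_singleton, Ideal.dvd_span_singleton]
    exact hdu
  rw [pow_ex_dvd p (mul_ne_zero hsd hsu), ex_mul hsd hsu p] at h8
  have h9 : ex (Ideal.span {u}) p ≤ n := by
    by_contra hc2
    apply hu1
    rw [← Ideal.dvd_span_singleton, pow_ex_dvd p hsu]
    omega
  rw [← Ideal.dvd_span_singleton, pow_ex_dvd p hsd]
  omega

private theorem card_quot {K : Type*} [Field K] [NumberField K] (p : HeightOneSpectrum (𝓞 K))
    (e : ℕ) : Nat.card (𝓞 K ⧸ p.asIdeal ^ e) = Ideal.absNorm p.asIdeal ^ e := by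
  rw [← map_pow, Ideal.absNorm_apply]
  rfl

private theorem card_ker {K : Type*} [Field K] [NumberField K] (p : HeightOneSpectrum (𝓞 K))
    (e n : ℕ) : Nat.card {y : 𝓞 K ⧸ p.asIdeal ^ e |
      Ideal.Quotient.factor (Ideal.pow_le_pow_right (Nat.sub_le e n)) y = 0} ≤
      Ideal.absNorm p.asIdeal ^ n := by
  set φ := Ideal.Quotient.factor (Ideal.pow_le_pow_right (I := p.asIdeal) (Nat.sub_le e n))
    with hφ
  have hsurj : Function.Surjective φ := Ideal.Quotient.factor_surjective _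
  have h1 := AddSubgroup.card_eq_card_quotient_mul_card_addSubgroup
    (φ : 𝓞 K ⧸ p.asIdeal ^ e →+ 𝓞 K ⧸ p.asIdeal ^ (e - n)).ker
  have h2 : Nat.card ((𝓞 K ⧸ p.asIdeal ^ e) ⧸
      (φ : 𝓞 K ⧸ p.asIdeal ^ e →+ 𝓞 K ⧸ p.asIdeal ^ (e - n)).ker) =
      Nat.card (𝓞 K ⧸ p.asIdeal ^ (e - n)) :=
    Nat.card_congr (QuotientAddGroup.quotientKerEquivOfSurjective _ hsurj).toEquiv
  rw [h2, card_quot, card_quot] at h1
  have h3 : 0 < Ideal.absNorm p.asIdeal :=
    Nat.pos_of_ne_zero fun h => p.ne_bot (Ideal.absNorm_eq_zero_iff.mp h)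
  have h4 : Nat.card {y : 𝓞 K ⧸ p.asIdeal ^ e | φ y = 0} =
      Nat.card (φ : 𝓞 K ⧸ p.asIdeal ^ e →+ 𝓞 K ⧸ p.asIdeal ^ (e - n)).ker := rfl
  rw [h4]
  have h5 : Ideal.absNorm p.asIdeal ^ (e - n) *
      Nat.card (φ : 𝓞 K ⧸ p.asIdeal ^ e →+ 𝓞 K ⧸ p.asIdeal ^ (e - n)).ker ≤
      Ideal.absNorm p.asIdeal ^ (e - n) * Ideal.absNorm p.asIdeal ^ n := by
    rw [← h1, ← pow_add]
    exact Nat.pow_le_pow_right h3 (by omega)
  exact Nat.le_of_mul_le_mul_left h5 (pow_pos h3 _)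

private theorem finite_quot {K : Type*} [Field K] [NumberField K] (p : HeightOneSpectrum (𝓞 K))
    (e : ℕ) : Finite (𝓞 K ⧸ p.asIdeal ^ e) := by
  have h : Ideal.absNorm p.asIdeal ^ e ≠ 0 :=
    pow_ne_zero e fun h => p.ne_bot (Ideal.absNorm_eq_zero_iff.mp h)
  rw [← card_quot] at h
  exact Nat.finite_of_card_ne_zero h

open Classical in
private theorem fib_bound {K : Type*} [Field K] [NumberField K] {l : ℕ} (hl : 1 ≤ l)
    (p : HeightOneSpectrum (𝓞 K)) {e k : ℕ} (he : 1 ≤ e)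
    (hk : ex (Ideal.span {(l : 𝓞 K)}) p < k) (Z : Finset (𝓞 K ⧸ p.asIdeal ^ e)ˣ)
    (hZ : ∀ z ∈ Z, z ^ l = 1) :
    Z.card ≤ Ideal.absNorm p.asIdeal ^ ex (Ideal.span {(l : 𝓞 K)}) p *
      (Z.image fun z : (𝓞 K ⧸ p.asIdeal ^ e)ˣ => Ideal.Quotient.mk (p.asIdeal ^ k)
        (Quotient.out (z : 𝓞 K ⧸ p.asIdeal ^ e))).card := by
  have := finite_quot p e
  have hout : ∀ z : (𝓞 K ⧸ p.asIdeal ^ e)ˣ,
      Ideal.Quotient.mk (p.asIdeal ^ e) (Quotient.out (z : 𝓞 K ⧸ p.asIdeal ^ e)) = z :=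
    fun z => Ideal.Quotient.mk_out _
  have hout1 : ∀ z ∈ Z, (Quotient.out (z : 𝓞 K ⧸ p.asIdeal ^ e)) ^ l - 1 ∈
      p.asIdeal ^ e := by
    intro z hz
    rw [← Ideal.Quotient.eq_zero_iff_mem, map_sub, map_pow, hout z, map_one, ← Units.val_pow_eq_pow_val,
      hZ z hz, Units.val_one, sub_self]
  refine Finset.card_le_mul_card_image Z _ ?_
  intro a ha
  rw [Finset.mem_image] at ha
  obtain ⟨z0, hz0, rfl⟩ := ha
  refine le_trans ?_ (card_ker p e _)
  have : Finite {y : 𝓞 K ⧸ p.asIdeal ^ e |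
      Ideal.Quotient.factor (Ideal.pow_le_pow_right (I := p.asIdeal) (Nat.sub_le e
        (ex (Ideal.span {(l : 𝓞 K)}) p))) y = 0} := Subtype.finite
  rw [← Nat.card_eq_finsetCard]
  refine Nat.card_le_card_of_injective (fun z => ⟨((z : (𝓞 K ⧸ p.asIdeal ^ e)ˣ) :
    𝓞 K ⧸ p.asIdeal ^ e) - z0, ?_⟩) ?_
  · have hz := Finset.mem_filter.mp z.2
    have h1 : (Quotient.out ((z : (𝓞 K ⧸ p.asIdeal ^ e)ˣ) : 𝓞 K ⧸ p.asIdeal ^ e)) -
        (Quotient.out (z0 : 𝓞 K ⧸ p.asIdeal ^ e)) ∈ p.asIdeal ^ k := by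
      rw [← Ideal.Quotient.eq_zero_iff_mem, map_sub, hz.2, sub_self]
    have h2 := key hl p he hk (hout1 _ hz.1) (hout1 z0 hz0) h1
    show Ideal.Quotient.factor _ _ = 0
    have h4 : ((z : (𝓞 K ⧸ p.asIdeal ^ e)ˣ) : 𝓞 K ⧸ p.asIdeal ^ e) - z0 =
        Ideal.Quotient.mk (p.asIdeal ^ e)
          ((Quotient.out ((z : (𝓞 K ⧸ p.asIdeal ^ e)ˣ) : 𝓞 K ⧸ p.asIdeal ^ e)) -
          (Quotient.out (z0 : 𝓞 K ⧸ p.asIdeal ^ e))) := by
      rw [map_sub, hout z, hout z0]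
    rw [h4, Ideal.Quotient.factor_mk, Ideal.Quotient.eq_zero_iff_mem]
    exact h2
  · intro z z' hzz
    have h3 := congrArg Subtype.val hzz
    simp only [sub_left_inj] at h3
    exact Subtype.ext (Units.ext h3)

theorem root_prime (K : Type*) [Field K] [NumberField K] (l : ℕ) (hl : 1 ≤ l) :
    ∃ C₀ : ℕ, 1 ≤ C₀ ∧ ∀ (p : HeightOneSpectrum (𝓞 K)) (e : ℕ),
      {z : (𝓞 K ⧸ p.asIdeal ^ e)ˣ | z ^ l = 1}.ncard ≤ C₀ := by
  classical
  set Λ := Ideal.absNorm (Ideal.span {(l : 𝓞 K)}) with hΛ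
  have hl0 : (l : 𝓞 K) ≠ 0 := by
    exact_mod_cast (by omega : l ≠ 0)
  have hspl : Ideal.span {(l : 𝓞 K)} ≠ ⊥ := by
    rw [Ne, Ideal.span_singleton_eq_bot]
    exact hl0
  refine ⟨l + Λ ^ 3, by omega, ?_⟩
  intro p e
  have := finite_quot p e
  letI : Fintype (𝓞 K ⧸ p.asIdeal ^ e)ˣ := Fintype.ofFinite _
  rw [Set.ncard_eq_toFinset_card']
  set Z := {z : (𝓞 K ⧸ p.asIdeal ^ e)ˣ | z ^ l = 1}.toFinset with hZ
  have hZm : ∀ z ∈ Z, z ^ l = 1 := by
    intro z hz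
    rw [hZ, Set.mem_toFinset] at hz
    exact hz
  have hNpos : 0 < Ideal.absNorm p.asIdeal :=
    Nat.pos_of_ne_zero fun h => p.ne_bot (Ideal.absNorm_eq_zero_iff.mp h)
  rcases Nat.eq_zero_or_pos e with he | he
  · subst he
    have : Subsingleton (𝓞 K ⧸ p.asIdeal ^ 0) := by
      rw [pow_zero]
      exact Ideal.Quotient.subsingleton_iff.mpr Ideal.one_eq_top
    have : Z.card ≤ 1 := Finset.card_le_one.mpr fun a _ b _ => Units.ext (Subsingleton.elim _ _)
    omega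
  · rcases Nat.eq_zero_or_pos (ex (Ideal.span {(l : 𝓞 K)}) p) with hn | hn
    · have h1 := fib_bound hl p he (k := 1) (by omega) Z hZm
      rw [hn, pow_zero, one_mul] at h1
      have hpr : (p.asIdeal ^ 1).IsPrime := by
        rw [pow_one]
        exact p.isPrime
      have : IsDomain (𝓞 K ⧸ p.asIdeal ^ 1) := Ideal.Quotient.isDomain _
      have h2 : (Z.image fun z : (𝓞 K ⧸ p.asIdeal ^ e)ˣ => Ideal.Quotient.mk (p.asIdeal ^ 1)
          (Quotient.out (z : 𝓞 K ⧸ p.asIdeal ^ e))) ⊆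
          (Polynomial.nthRoots l (1 : 𝓞 K ⧸ p.asIdeal ^ 1)).toFinset := by
        intro y hy
        rw [Finset.mem_image] at hy
        obtain ⟨z, hz, rfl⟩ := hy
        rw [Multiset.mem_toFinset, Polynomial.mem_nthRoots (by omega), ← map_pow, ← sub_eq_zero,
          ← map_one (Ideal.Quotient.mk (p.asIdeal ^ 1)), ← map_sub,
          Ideal.Quotient.eq_zero_iff_mem]
        refine Ideal.pow_le_pow_right he ?_
        rw [← Ideal.Quotient.eq_zero_iff_mem, map_sub, map_pow, Ideal.Quotient.mk_out, map_one,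
          ← Units.val_pow_eq_pow_val, hZm z hz, Units.val_one, sub_self]
      have h3 := (Finset.card_le_card h2).trans ((Multiset.toFinset_card_le _).trans
        (Polynomial.card_nthRoots l _))
      omega
    · set n := ex (Ideal.span {(l : 𝓞 K)}) p with hnn
      have h1 := fib_bound hl p he (k := n + 1) (by omega) Z hZm
      have := finite_quot p (n + 1)
      have h2 : (Z.image fun z : (𝓞 K ⧸ p.asIdeal ^ e)ˣ => Ideal.Quotient.mk (p.asIdeal ^ (n + 1))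
          (Quotient.out (z : 𝓞 K ⧸ p.asIdeal ^ e))).card ≤ Ideal.absNorm p.asIdeal ^ (n + 1) := by
        rw [← card_quot]
        letI := Fintype.ofFinite (𝓞 K ⧸ p.asIdeal ^ (n + 1))
        rw [Nat.card_eq_fintype_card]
        exact Finset.card_le_univ _
      have h3 : Ideal.absNorm p.asIdeal ^ n ∣ Λ := by
        rw [hΛ, ← map_pow]
        exact map_dvd Ideal.absNorm ((pow_ex_dvd p hspl).mpr le_rfl)
      have hΛ0 : 0 < Λ := Nat.pos_of_ne_zero fun h => hspl (Ideal.absNorm_eq_zero_iff.mp h)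
      have h4 : Ideal.absNorm p.asIdeal ^ n ≤ Λ := Nat.le_of_dvd hΛ0 h3
      have h5 : Ideal.absNorm p.asIdeal ^ (n + 1) ≤ Λ ^ 2 := by
        calc Ideal.absNorm p.asIdeal ^ (n + 1) ≤ Ideal.absNorm p.asIdeal ^ (n * 2) :=
              Nat.pow_le_pow_right hNpos (by omega)
          _ = (Ideal.absNorm p.asIdeal ^ n) ^ 2 := by rw [pow_mul]
          _ ≤ Λ ^ 2 := Nat.pow_le_pow_left h4 2
      calc Z.card ≤ Ideal.absNorm p.asIdeal ^ n * _ := h1
        _ ≤ Λ * Λ ^ 2 := Nat.mul_le_mul h4 (h2.trans h5)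
        _ = Λ ^ 3 := by ring
        _ ≤ l + Λ ^ 3 := by omega

end AbcEM
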