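import Pool.Agent.Work.MP_a793bb_nt.EM.CDefs
import Pool.Agent.Work.MP_a793bb_nt.Assemble

/-!
# The bounds (tools) and their costs

Sides `j : Fin 3`, classes `c : Fin 5` of exponents (`1, 2, 3, 4, ≥ 5`), `w j c` is the sum of the `lN p` over the primes of class `c` in the
side `j`, divided by `log (2 Y)`.

* `H n u sel` : two-point bound with exponent `n + 1` and distinguished side `u` (known, `card_block_le`);
* `E r p c` : Cauchy-Schwarz bound (known, `cs_count`), the class `c` (exponent `c + 1`) of the side `r` is left out, label side `p`;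
* `M q T` : character bound, modulus = part of the side `q` with classes in `T`;
* `R q pat` : character bound, modulus = part of the side `q` with exponents `≥ 2`; on the other sides the exponents
  `1, 2, 3` are free with pattern `pat j`.
-/

set_option autoImplicit false

namespace AbcEM

open Finset Pool.Agent.Work.MP_a793bb_nt Pool.Agent.Work.MP_a793bb_nt.BPlus NumberField
  IsDedekindDomain Height

/-- The bounds: `H`, `E`, `M`, `R`. -/
abbrev Tl := (Fin 4 × Fin 3 × (Fin 3 → Fin 5 → Bool)) ⊕ (Fin 3 × Fin 3 × Fin 5) ⊕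
  (Fin 3 × (Fin 5 → Bool)) ⊕ (Fin 3 × (Fin 3 → Bool))

/-- coefficient in the bound `H` -/
noncomputable def hcf (n : Fin 4) (u j : Fin 3) (c : Fin 5) : ℝ :=
  if j = u then ((c : ℕ) + 1 : ℝ) else ((c : ℕ) + 1 : ℝ) / ((n : ℕ) + 1 : ℝ)

noncomputable def hCost (n : Fin 4) (u : Fin 3) (sel : Fin 3 → Fin 5 → Bool)
    (w : Fin 3 → Fin 5 → ℝ) : ℝ :=
  (∑ j, ∑ c, if sel j c = true then 0 else w j c) +
    max 0 ((∑ j, ∑ c, if sel j c = true then hcf n u j c * w j c else 0) - 1)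

noncomputable def eCost (r p : Fin 3) (c : Fin 5) (w : Fin 3 → Fin 5 → ℝ) : ℝ :=
  max ((∑ c', if c' = c then 0 else w r c') + ∑ c', w p c')
    (((∑ c', if c' = c then 0 else w r c') + ∑ c', w p c') / 2 +
      ∑ j, if j = r ∨ j = p then 0 else ∑ c', w j c')

/-- total weight of the sides different from `q` -/
noncomputable def tauW (q : Fin 3) (w : Fin 3 → Fin 5 → ℝ) : ℝ :=
  ∑ j, if j = q then 0 else ∑ c, w j c

/-- radical weight of the classes `T` of the side `q` -/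
noncomputable def rhoW (q : Fin 3) (T : Fin 5 → Bool) (w : Fin 3 → Fin 5 → ℝ) : ℝ :=
  ∑ c, if T c = true then w q c else 0

/-- weight (with multiplicity) of the classes `T` of the side `q` -/
noncomputable def muW (q : Fin 3) (T : Fin 5 → Bool) (w : Fin 3 → Fin 5 → ℝ) : ℝ :=
  ∑ c, if T c = true then ((c : ℕ) + 1 : ℝ) * w q c else 0

noncomputable def mCost (q : Fin 3) (T : Fin 5 → Bool) (w : Fin 3 → Fin 5 → ℝ) : ℝ :=
  rhoW q T w + max (tauW q w / 2) (tauW q w - muW q T w / 2)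

/-- contribution of one side to the bound `R`: `u, m, v` are the weights of the exponents `1, 2, 3`, `mu` that of
the modulus; pattern B (`true`) uses the moments `4, 8, 8`, pattern A (`false`) the fourth moment of the exponents `1, 3` together and
the fourth moment of the exponent `2`. -/
noncomputable def rSide (b : Bool) (u m v mu : ℝ) : ℝ :=
  if b = true then max (2 * u) (4 * u - mu) / 4 +
      (max (4 * m) (8 * m - mu) + max (4 * v) (8 * v - mu)) / 8
  else ((2 * u + 2 * v) + max 0 (4 * v - mu / 2) + max 0 (2 * u + 2 * v - mu) +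
      max (2 * m) (4 * m - mu)) / 4

/-- the classes `≥ 2` -/
def T2 : Fin 5 → Bool := fun c => decide (1 ≤ (c : ℕ))

noncomputable def rCost (q : Fin 3) (pat : Fin 3 → Bool) (w : Fin 3 → Fin 5 → ℝ) : ℝ :=
  rhoW q T2 w + ∑ j, if j = q then 0 else
    (w j 3 + w j 4 + rSide (pat j) (w j 0) (w j 1) (w j 2) (muW q T2 w))

/-- the exponent of a bound -/
noncomputable def costT : Tl → (Fin 3 → Fin 5 → ℝ) → ℝ
  | .inl (n, u, sel) => hCost n u sel
  | .inr (.inl (r, p, c)) => eCost r p c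
  | .inr (.inr (.inl (q, T))) => mCost q T
  | .inr (.inr (.inr (q, pat))) => rCost q pat

/-- validity -/
def okTl : Tl → Prop
  | .inl (n, u, sel) => (∀ j, j ≠ u → ∀ c : Fin 5, sel j c = true →
      (c : ℕ) < 4 ∧ ((n : ℕ) + 1) ∣ ((c : ℕ) + 1)) ∧
      (sel u 4 = false ∨ ((∀ c, sel u c = true) ∧ ∀ j, j ≠ u → ∀ c, sel j c = false))
  | .inr (.inl (r, p, c)) => r ≠ p ∧ 1 ≤ (c : ℕ) ∧ (c : ℕ) ≤ 3
  | _ => True

/-- decoding -/
def toTl : CT → Tl
  | .H n u sel => .inl (Fin.ofNat 4 n, Fin.ofNat 3 u, fun j c => sel.testBit (5 * (j : ℕ) + (c : ℕ)))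
  | .E r p c => .inr (.inl (Fin.ofNat 3 r, Fin.ofNat 3 p, Fin.ofNat 5 c))
  | .M q T => .inr (.inr (.inl (Fin.ofNat 3 q, fun c => T.testBit (c : ℕ))))
  | .R q a => .inr (.inr (.inr (Fin.ofNat 3 q, fun j => a.testBit (j : ℕ))))

/-- The exponent of the upper bound for `0 ≤ lam ≤ 2`. -/
noncomputable def upE (lam : ℝ) : ℝ :=
  if lam ≤ 2 / 3 then 2 * lam / 3
  else if lam ≤ 1 then (3 * lam + 2) / 9
  else if lam ≤ 52 / 33 then (6 * lam - 1) / 9
  else (lam + 5) / 7

/-- The exponent of the upper bound for `0 ≤ lam ≤ 3`. -/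
noncomputable def upN (lam : ℝ) : ℝ := if lam ≤ 2 then upE lam else lam - 1

/-- The combinatorial statement: radical weights with total at most `Λ` admit a bound with exponent at
most `κ`. -/
def LPT (Λ κ : ℝ) : Prop :=
  ∀ w : Fin 3 → Fin 5 → ℝ, (∀ j c, 0 ≤ w j c) →
    (∀ j, ∑ c : Fin 5, ((c : ℕ) + 1 : ℝ) * w j c ≤ 1) → ∑ j, ∑ c, w j c ≤ Λ →
    ∃ T : Tl, okTl T ∧ costT T w ≤ κ

variable {K : Type*} [Field K] [NumberField K]

/-- Points of a dyadic block with weights in a cell of width `η`. -/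
structure Blk2 (Y : ℝ) (W : Fin 3 → Fin 5 → ℝ) (η : ℝ) (t : K) : Prop where
  n0 : t ≠ 0
  n1 : t ≠ 1
  lo : Real.log Y ≤ hh t
  up : hh t ≤ Real.log (2 * Y)
  hW : ∀ j c, LRc (side j t) c ≤ W j c * Real.log (2 * Y)
  hWl : ∀ j c, (W j c - η) * Real.log (2 * Y) ≤ LRc (side j t) c

/-- The statement attached to a bound. -/
def TlBound (K : Type*) [Field K] [NumberField K] (T : Tl) : Prop :=
  ∀ ε : ℝ, 0 < ε → ∃ C : ℝ, 1 ≤ C ∧ ∀ Y : ℝ, 1 ≤ Y → ∀ (W : Fin 3 → Fin 5 → ℝ) (η : ℝ), 0 ≤ η →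
    ∀ F : Finset K, (∀ t ∈ F, Blk2 Y W η t) →
    (F.card : ℝ) ≤ C * Y ^ ε * Real.exp ((costT T W + 20 * η) * Real.log (2 * Y))

end AbcEM
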