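import Pool.Agent.Work.MP_a793bb_nt.EM.HGm
import Pool.Agent.Work.MP_a793bb_nt.EM.ECs
import Pool.Agent.Work.MP_a793bb_nt.EM.Moment
import Pool.Agent.Work.MP_a793bb_nt.EM.Attach
import Pool.Agent.Work.MP_a793bb_nt.EM.TDefs

/-!
# The energy of one side with the exponents one, two, three

Notation: `u = c 1`, `v2 = c 2`, `v3 = c 3` the sizes of the exponents `1, 2, 3`; `N = log N(m) ≥ μ`.
Proof. `E1 (piFinset ..) (prodT ..) 1` is the number of the pairs `(x, y)` of triples with `prodT x = prodT y`, i.e. `cntN` for `g = 1` and the items `(l, sign)`, `φ (l, +) x = red m (gn (a l) x) ^ l`,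
`φ (l, -) = its inverse` (`E1_inv`).
Pattern `true`: six items, `s = 1`, `k = 2` for `l = 1`, `k = 4` for `l = 2, 3`: `∑ 1 / (2 k) = 2 (1/4 + 1/8 + 1/8) = 1`. `group_holder` and `moment_le`: the bound is `∏ E1 ^ (1 / (2k))` with, for `l = 1`,
`E1 ≤ C exp (ε' L) exp (2u) (1 + exp (2u - N)) ≤ 2 C exp (ε' L) exp (max (2u) (4u - μ))`, for `l = 2, 3` `E1 ≤ 2 C exp (ε' L) exp (max (4v) (8v - μ))`; the sum of the exponents is
`2 (max (2u) (4u-μ) / 4 + (max (4 v2) (8 v2 - μ) + max (4 v3) (8 v3 - μ)) / 8) = 2 rSide true u v2 v3 μ`.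
Pattern `false`: four items: the pair item `X = Ideal × Ideal`, `S = idS m (a 1) u ×ˢ idS m (a 3) v3`, `φ (x, z) = red m (gn (a 1) x) * red m (gn (a 3) z) ^ 3`, and the item `l = 2`, both with signs; `s = 1`, `k = 2` for all four. `attach_le`:
`E1 ≤ 3 C exp (ε' L) exp (max of 2u + 2 v3, 2u + 6 v3 - N/2, 4u + 4 v3 - N) ≤ 3 C exp (ε' L) exp (2u + 2 v3 + max 0 (4 v3 - μ/2) + max 0 (2u + 2 v3 - μ))`, and `moment_le` for `l = 2`. The sum of the exponents is
`2 * (1/4) * (2u + 2 v3 + max 0 (4 v3 - μ/2) + max 0 (2u + 2 v3 - μ) + max (2 v2) (4 v2 - μ)) = 2 rSide false u v2 v3 μ`.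
(For the dependent types of the items use `ι = Bool × Bool` and `X (true, _) = Ideal × Ideal`, `X (false, _) = Ideal`, or make all the items of type `Ideal × Ideal` with second set a singleton.)
-/

set_option autoImplicit false

namespace AbcEM

open Finset Pool.Agent.Work.MP_a793bb_nt Pool.Agent.Work.MP_a793bb_nt.BPlus NumberField
  IsDedekindDomain Height

open Classical in
private theorem e1_one {X G : Type*} [CommGroup G] (S : Finset X) (φ : X → G) :
    E1 S φ 1 = ((S ×ˢ S).filter fun p => φ p.1 = φ p.2).card := by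
  unfold E1
  refine card_bij (fun p _ => (p.1 0, p.2 0)) ?_ ?_ ?_
  · intro p hp
    rw [mem_filter, mem_product, Fintype.mem_piFinset, Fintype.mem_piFinset] at hp
    obtain ⟨⟨h1, h2⟩, h3⟩ := hp
    rw [mem_filter, mem_product]
    refine ⟨⟨h1 0, h2 0⟩, ?_⟩
    rw [Fin.prod_univ_one, Fin.prod_univ_one] at h3
    exact h3
  · intro p _ p' _ h
    have h1 : p.1 0 = p'.1 0 := congrArg Prod.fst h
    have h2 : p.2 0 = p'.2 0 := congrArg Prod.snd h
    refine Prod.ext (funext fun i => ?_) (funext fun i => ?_)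
    · have hi : i = 0 := Subsingleton.elim _ _
      rw [hi, h1]
    · have hi : i = 0 := Subsingleton.elim _ _
      rw [hi, h2]
  · intro q hq
    rw [mem_filter, mem_product] at hq
    obtain ⟨⟨h1, h2⟩, h3⟩ := hq
    refine ⟨(fun _ => q.1, fun _ => q.2), ?_, rfl⟩
    rw [mem_filter, mem_product, Fintype.mem_piFinset, Fintype.mem_piFinset]
    refine ⟨⟨fun _ => h1, fun _ => h2⟩, ?_⟩
    rw [Fin.prod_univ_one, Fin.prod_univ_one]
    exact h3

private theorem cnt_true {G R X : Type*} [CommGroup G] [Fintype R] [DecidableEq R] (S : R → Finset X) (ψ : R → X → G) :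
    E1 (Fintype.piFinset S) (fun x => ∏ l, ψ l (x l)) 1 ≤
      cntN (fun i : R × Bool => S i.1) (fun i x => if i.2 = true then ψ i.1 x else (ψ i.1 x)⁻¹) 1 := by
  classical
  rw [e1_one]
  unfold cntN
  refine card_le_card_of_injOn (fun p i => if i.2 = true then p.1 i.1 else p.2 i.1) ?_ ?_
  · intro p hp
    rw [mem_coe, mem_filter, mem_product, Fintype.mem_piFinset, Fintype.mem_piFinset] at hp
    obtain ⟨⟨h1, h2⟩, h3⟩ := hp
    rw [mem_coe, mem_filter, @Fintype.mem_piFinset (R × Bool) (Classical.decEq _)]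
    refine ⟨fun i => ?_, ?_⟩
    · obtain ⟨l, b⟩ := i
      cases b
      · exact h2 l
      · exact h1 l
    · rw [Fintype.prod_prod_type]
      simp only [Fintype.prod_bool, if_true, Bool.false_eq_true, if_false]
      rw [prod_mul_distrib, prod_inv_distrib, h3, mul_inv_cancel]
  · intro p _ p' _ h
    refine Prod.ext (funext fun l => ?_) (funext fun l => ?_)
    · exact congrFun h (l, true)
    · exact congrFun h (l, false)

open Classical in
private theorem cnt_false {G X : Type*} [CommGroup G] (pt : X) (S : (Icc 1 3 : Finset ℕ) → Finset X)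
    (ψ : (Icc 1 3 : Finset ℕ) → X → G) (l1 l2 l3 : (Icc 1 3 : Finset ℕ)) (h1 : (l1 : ℕ) = 1)
    (h2 : (l2 : ℕ) = 2) (h3 : (l3 : ℕ) = 3) :
    E1 (Fintype.piFinset S) (fun x => ∏ l, ψ l (x l)) 1 ≤
      cntN (fun i : Bool × Bool => if i.1 = true then S l1 ×ˢ S l3 else S l2 ×ˢ {pt})
        (fun i z => if i.2 = true then (if i.1 = true then ψ l1 z.1 * ψ l3 z.2 else ψ l2 z.1)
          else (if i.1 = true then ψ l1 z.1 * ψ l3 z.2 else ψ l2 z.1)⁻¹) 1 := by
  have huniv : (univ : Finset (Icc 1 3 : Finset ℕ)) = {l1, l2, l3} := by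
    ext l
    have hl := mem_Icc.mp l.2
    have : (l : ℕ) = 1 ∨ (l : ℕ) = 2 ∨ (l : ℕ) = 3 := by omega
    simp only [mem_univ, mem_insert, mem_singleton, true_iff]
    rcases this with h | h | h
    · left; exact Subtype.ext (h.trans h1.symm)
    · right; left; exact Subtype.ext (h.trans h2.symm)
    · right; right; exact Subtype.ext (h.trans h3.symm)
  have h12 : l1 ≠ l2 := fun h => by
    have := congrArg Subtype.val h
    omega
  have h13 : l1 ≠ l3 := fun h => by
    have := congrArg Subtype.val h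
    omega
  have h23 : l2 ≠ l3 := fun h => by
    have := congrArg Subtype.val h
    omega
  have hprod : ∀ x : (Icc 1 3 : Finset ℕ) → X, ∏ l, ψ l (x l) = ψ l1 (x l1) * ψ l3 (x l3) * ψ l2 (x l2) := by
    intro x
    rw [huniv, prod_insert (by simp [h12, h13]), prod_insert (by simp [h23]), prod_singleton]
    rw [mul_assoc, mul_comm (ψ l2 (x l2))]
  have hall : ∀ l : (Icc 1 3 : Finset ℕ), l = l1 ∨ l = l2 ∨ l = l3 := by
    intro l
    have := mem_univ l
    rw [huniv] at this
    simpa using this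
  rw [e1_one]
  unfold cntN
  refine card_le_card_of_injOn (fun p i => if i.1 = true then
      (if i.2 = true then (p.1 l1, p.1 l3) else (p.2 l1, p.2 l3)) else
      (if i.2 = true then (p.1 l2, pt) else (p.2 l2, pt))) ?_ ?_
  · intro p hp
    rw [mem_coe, mem_filter, mem_product, Fintype.mem_piFinset, Fintype.mem_piFinset] at hp
    obtain ⟨⟨k1, k2⟩, k3⟩ := hp
    rw [mem_coe, mem_filter, @Fintype.mem_piFinset (Bool × Bool) (Classical.decEq _)]
    refine ⟨fun i => ?_, ?_⟩
    · obtain ⟨b, b'⟩ := i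
      cases b <;> cases b'
      · exact mem_product.mpr ⟨k2 l2, mem_singleton_self pt⟩
      · exact mem_product.mpr ⟨k1 l2, mem_singleton_self pt⟩
      · exact mem_product.mpr ⟨k2 l1, k2 l3⟩
      · exact mem_product.mpr ⟨k1 l1, k1 l3⟩
    · rw [Fintype.prod_prod_type]
      simp only [Fintype.prod_bool, if_true, Bool.false_eq_true, if_false]
      rw [hprod, hprod] at k3
      have : ψ l1 (p.1 l1) * ψ l3 (p.1 l3) * (ψ l1 (p.2 l1) * ψ l3 (p.2 l3))⁻¹ *
          (ψ l2 (p.1 l2) * (ψ l2 (p.2 l2))⁻¹) =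
          (ψ l1 (p.1 l1) * ψ l3 (p.1 l3) * ψ l2 (p.1 l2)) * (ψ l1 (p.2 l1) * ψ l3 (p.2 l3) * ψ l2 (p.2 l2))⁻¹ := by
        rw [mul_inv (ψ l1 (p.2 l1) * ψ l3 (p.2 l3)) (ψ l2 (p.2 l2))]
        exact mul_mul_mul_comm _ _ _ _
      rw [this, k3, mul_inv_cancel]
  · intro p _ p' _ h
    have e1 := congrFun h (true, true)
    have e2 := congrFun h (true, false)
    have e3 := congrFun h (false, true)
    have e4 := congrFun h (false, false)
    simp only [if_true, Bool.false_eq_true, if_false, Prod.mk.injEq] at e1 e2 e3 e4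
    refine Prod.ext (funext fun l => ?_) (funext fun l => ?_)
    · rcases hall l with rfl | rfl | rfl
      · exact e1.1
      · exact e3.1
      · exact e1.2
    · rcases hall l with rfl | rfl | rfl
      · exact e2.1
      · exact e4.1
      · exact e2.2

private theorem e1_pt {G X : Type*} [CommGroup G] (pt : X) (S : Finset X) (ψ : X → G) (k : ℕ) :
    E1 (S ×ˢ {pt}) (fun z : X × X => ψ z.1) k ≤ E1 S ψ k := by
  classical
  unfold E1
  refine card_le_card_of_injOn (fun p => (fun i => (p.1 i).1, fun i => (p.2 i).1)) ?_ ?_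
  · intro p hp
    rw [mem_coe, mem_filter, mem_product, Fintype.mem_piFinset, Fintype.mem_piFinset] at hp
    obtain ⟨⟨k1, k2⟩, k3⟩ := hp
    rw [mem_coe, mem_filter, mem_product, Fintype.mem_piFinset, Fintype.mem_piFinset]
    exact ⟨⟨fun i => (mem_product.mp (k1 i)).1, fun i => (mem_product.mp (k2 i)).1⟩, k3⟩
  · intro p hp p' hp' h
    rw [mem_coe, mem_filter, mem_product, Fintype.mem_piFinset, Fintype.mem_piFinset] at hp hp'
    have h1 := congrArg Prod.fst h
    have h2 := congrArg Prod.snd h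
    refine Prod.ext (funext fun i => Prod.ext ?_ ?_) (funext fun i => Prod.ext ?_ ?_)
    · exact congrFun h1 i
    · rw [mem_singleton.mp (mem_product.mp (hp.1.1 i)).2, mem_singleton.mp (mem_product.mp (hp'.1.1 i)).2]
    · exact congrFun h2 i
    · rw [mem_singleton.mp (mem_product.mp (hp.1.2 i)).2, mem_singleton.mp (mem_product.mp (hp'.1.2 i)).2]

private theorem hold_exp {G : Type*} [CommGroup G] [Finite G] {ι : Type*} [Fintype ι]
    {X : ι → Type*} (S : ∀ i, Finset (X i)) (φ : ∀ i, X i → G) (k : ι → ℕ)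
    (hk : ∀ i, 1 ≤ k i) (hsum : ∑ i, 1 / (2 * (k i : ℝ)) = 1) (B : ℝ) (M : ι → ℝ)
    (hE : ∀ i, (E1 (S i) (φ i) (k i) : ℝ) ≤ Real.exp (B + M i)) :
    (cntN S φ 1 : ℝ) ≤ Real.exp (B + ∑ i, M i / (2 * k i)) := by
  refine (group_holder S φ (fun _ => 1) k (fun _ => zero_le_one) (fun _ => le_rfl) hk
    hsum.le 1).trans ?_
  have h : ∀ i, ((S i).card : ℝ) ^ (1 - (1 : ℝ)) *
      (E1 (S i) (φ i) (k i) : ℝ) ^ ((1 : ℝ) / (2 * k i)) ≤ Real.exp ((B + M i) / (2 * k i)) := by
    intro i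
    rw [sub_self, Real.rpow_zero, one_mul]
    calc (E1 (S i) (φ i) (k i) : ℝ) ^ ((1 : ℝ) / (2 * k i))
        ≤ (Real.exp (B + M i)) ^ ((1 : ℝ) / (2 * k i)) :=
        Real.rpow_le_rpow (Nat.cast_nonneg _) (hE i) (by positivity)
      _ = _ := by rw [← Real.exp_mul]; congr 1; ring
  refine (prod_le_prod (fun i _ => by positivity) (fun i _ => h i)).trans ?_
  rw [← Real.exp_sum]
  refine Real.exp_le_exp.mpr (le_of_eq ?_)
  rw [show ∑ i, (B + M i) / (2 * (k i : ℝ)) =
    B * ∑ i, 1 / (2 * (k i : ℝ)) + ∑ i, M i / (2 * (k i : ℝ)) by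
      rw [mul_sum, ← sum_add_distrib]; exact sum_congr rfl (fun i _ => by ring), hsum, mul_one]

private theorem two_exp {x N μ : ℝ} (hN : μ ≤ N) :
    Real.exp x * (1 + Real.exp (x - N)) ≤ 2 * Real.exp (max x (2 * x - μ)) := by
  have h1 : Real.exp x ≤ Real.exp (max x (2 * x - μ)) := Real.exp_le_exp.mpr (le_max_left _ _)
  have h2 : Real.exp (2 * x - N) ≤ Real.exp (max x (2 * x - μ)) :=
    Real.exp_le_exp.mpr (le_trans (by linarith) (le_max_right _ _))
  have h3 : Real.exp x * Real.exp (x - N) = Real.exp (2 * x - N) := by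
    rw [← Real.exp_add]
    congr 1
    ring
  rw [mul_add, mul_one, h3]
  linarith

private theorem to_exp {E C Cm a b M : ℝ} (hC : 1 ≤ C) (hCm : C ≤ Cm) (hr0 : 0 ≤ b)
    (hr : b ≤ 3 * Real.exp M) (h : E ≤ C * Real.exp a * b) :
    E ≤ Real.exp ((Real.log (3 * Cm) + a) + M) := by
  have hCm1 : 0 < Cm := by linarith
  rw [Real.exp_add, Real.exp_add, Real.exp_log (by positivity)]
  have h0 := Real.exp_pos a
  have h1 := Real.exp_pos M
  calc E ≤ C * Real.exp a * b := h
    _ ≤ Cm * Real.exp a * (3 * Real.exp M) :=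
        mul_le_mul (mul_le_mul_of_nonneg_right hCm h0.le) hr hr0 (by positivity)
    _ = _ := by ring

theorem side_r (K : Type*) [Field K] [NumberField K] (ε : ℝ) (hε : 0 < ε) :
    ∃ C : ℝ, 1 ≤ C ∧ ∀ (L μ : ℝ) (m : Ideal (𝓞 K)) (a : ℕ → Ideal (𝓞 K)) (c : ℕ → ℝ)
      (pat : Bool), 0 ≤ μ → μ ≤ Real.log (Ideal.absNorm m) → m ≠ ⊥ →
      Real.log (Ideal.absNorm m) ≤ L →
      (∀ l ∈ Icc 1 3, 0 ≤ c l ∧ c l ≤ L ∧ a l ∈ idS m (a l) (c l)) →
      (E1 (Fintype.piFinset fun l : (Icc 1 3 : Finset ℕ) => idS m (a l) (c l))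
        (prodT (Icc 1 3) m a) 1 : ℝ) ≤
        C * Real.exp (ε * L) * Real.exp (2 * rSide pat (c 1) (c 2) (c 3) μ) := by
  obtain ⟨C1, hC1, h1⟩ := moment_le K 1 2 le_rfl ε hε
  obtain ⟨C2, hC2, h2⟩ := moment_le K 2 4 (by norm_num) ε hε
  obtain ⟨C3, hC3, h3⟩ := moment_le K 3 4 (by norm_num) ε hε
  obtain ⟨C4, hC4, h4⟩ := moment_le K 2 2 (by norm_num) ε hε
  obtain ⟨C5, hC5, h5⟩ := attach_le K ε hε
  refine ⟨3 * (C1 + C2 + C3 + C4 + C5), by linarith, ?_⟩
  intro L μ m a c pat hμ0 hμ hm hL hc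
  have : Finite (𝓞 K ⧸ m) := Ideal.finiteQuotientOfFreeOfNeBot _ hm
  have hpos : 0 < 3 * (C1 + C2 + C3 + C4 + C5) := by linarith
  have hfin : ∀ X : ℝ, X = 2 * rSide pat (c 1) (c 2) (c 3) μ →
      Real.exp ((Real.log (3 * (C1 + C2 + C3 + C4 + C5)) + ε * L) + X) =
      3 * (C1 + C2 + C3 + C4 + C5) * Real.exp (ε * L) *
        Real.exp (2 * rSide pat (c 1) (c 2) (c 3) μ) := by
    rintro X rfl
    rw [Real.exp_add, Real.exp_add, Real.exp_log hpos]
  obtain ⟨c1, cL1, ca1⟩ := hc 1 (by simp)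
  obtain ⟨c2, cL2, ca2⟩ := hc 2 (by simp)
  obtain ⟨c3, cL3, ca3⟩ := hc 3 (by simp)
  cases pat
  · -- pattern A
    set l1 : (Icc 1 3 : Finset ℕ) := ⟨1, by simp⟩ with hl1
    set l2 : (Icc 1 3 : Finset ℕ) := ⟨2, by simp⟩ with hl2
    set l3 : (Icc 1 3 : Finset ℕ) := ⟨3, by simp⟩ with hl3
    have key := cnt_false (G := (𝓞 K ⧸ m)ˣ) (⊥ : Ideal (𝓞 K))
      (fun l : (Icc 1 3 : Finset ℕ) => idS m (a l) (c l))
      (fun l x => red m (gn (a l) x) ^ (l : ℕ)) l1 l2 l3 rfl rfl rfl
    refine (Nat.cast_le.mpr key).trans ?_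
    rw [← hfin _ rfl]
    refine (hold_exp _ _ (fun _ => 2) (fun _ => by norm_num) ?_
      (Real.log (3 * (C1 + C2 + C3 + C4 + C5)) + ε * L)
      (fun i : Bool × Bool => if i.1 = true then
        2 * c 1 + 2 * c 3 + max 0 (4 * c 3 - μ / 2) + max 0 (2 * c 1 + 2 * c 3 - μ)
        else max (2 * c 2) (4 * c 2 - μ)) ?_).trans (le_of_eq ?_)
    · rw [Fintype.sum_prod_type]
      simp only [Fintype.sum_bool]
      norm_num
    · have hA : (E1 (idS m (a 1) (c 1) ×ˢ idS m (a 3) (c 3))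
          (fun x => red m (gn (a 1) x.1) ^ 1 * red m (gn (a 3) x.2) ^ 3) 2 : ℝ) ≤
          Real.exp ((Real.log (3 * (C1 + C2 + C3 + C4 + C5)) + ε * L) +
            (2 * c 1 + 2 * c 3 + max 0 (4 * c 3 - μ / 2) + max 0 (2 * c 1 + 2 * c 3 - μ))) := by
        have hh := h5 L (c 1) (c 3) m (a 1) (a 3) c1 cL1 c3 cL3 hm ca1 ca3
        rw [show (fun x : Ideal (𝓞 K) × Ideal (𝓞 K) =>
          red m (gn (a 1) x.1) ^ 1 * red m (gn (a 3) x.2) ^ 3) =
          fun x => red m (gn (a 1) x.1) * red m (gn (a 3) x.2) ^ 3 from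
            funext fun x => by rw [pow_one]]
        refine to_exp hC5 (by linarith) (by positivity) ?_ hh
        have e1 : Real.exp (2 * c 1 + 2 * c 3) ≤ Real.exp (2 * c 1 + 2 * c 3 +
            max 0 (4 * c 3 - μ / 2) + max 0 (2 * c 1 + 2 * c 3 - μ)) :=
          Real.exp_le_exp.mpr (by
            linarith [le_max_left 0 (4 * c 3 - μ / 2), le_max_left 0 (2 * c 1 + 2 * c 3 - μ)])
        have e2 : Real.exp (2 * c 1 + 6 * c 3 - Real.log (Ideal.absNorm m) / 2) ≤
            Real.exp (2 * c 1 + 2 * c 3 +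
            max 0 (4 * c 3 - μ / 2) + max 0 (2 * c 1 + 2 * c 3 - μ)) :=
          Real.exp_le_exp.mpr (by
            linarith [le_max_right 0 (4 * c 3 - μ / 2), le_max_left 0 (2 * c 1 + 2 * c 3 - μ)])
        have e3 : Real.exp (4 * c 1 + 4 * c 3 - Real.log (Ideal.absNorm m)) ≤
            Real.exp (2 * c 1 + 2 * c 3 +
            max 0 (4 * c 3 - μ / 2) + max 0 (2 * c 1 + 2 * c 3 - μ)) :=
          Real.exp_le_exp.mpr (by
            linarith [le_max_left 0 (4 * c 3 - μ / 2), le_max_right 0 (2 * c 1 + 2 * c 3 - μ)])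
        linarith
      have hB : (E1 (idS m (a 2) (c 2) ×ˢ {⊥})
          (fun x : Ideal (𝓞 K) × Ideal (𝓞 K) => red m (gn (a 2) x.1) ^ 2) 2 : ℝ) ≤
          Real.exp ((Real.log (3 * (C1 + C2 + C3 + C4 + C5)) + ε * L) +
            max (2 * c 2) (4 * c 2 - μ)) := by
        refine (Nat.cast_le.mpr (e1_pt (⊥ : Ideal (𝓞 K)) (idS m (a 2) (c 2))
          (fun x => red m (gn (a 2) x) ^ 2) 2)).trans ?_
        have hh := h4 L (c 2) m (a 2) c2 cL2 hm hL ca2
        refine to_exp hC4 (by linarith) (by positivity) ?_ hh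
        have e := two_exp (x := ((2 : ℕ) : ℝ) * c 2) hμ
        have e0 := Real.exp_pos (max (2 * c 2) (4 * c 2 - μ))
        have e1 : max (((2 : ℕ) : ℝ) * c 2) (2 * (((2 : ℕ) : ℝ) * c 2) - μ) =
            max (2 * c 2) (4 * c 2 - μ) := by
          push_cast
          congr 1
          ring
        rw [e1] at e
        linarith
      rintro ⟨b, b'⟩
      cases b <;> cases b'
      · refine le_trans (le_of_eq ?_) hB
        rw [← E1_inv]
        rfl
      · exact hB
      · refine le_trans (le_of_eq ?_) hA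
        rw [← E1_inv]
        rfl
      · exact hA
    · congr 2
      rw [Fintype.sum_prod_type]
      simp only [Fintype.sum_bool, if_true, Bool.false_eq_true, if_false, rSide]
      push_cast
      ring
  · -- pattern B
    have key := cnt_true (G := (𝓞 K ⧸ m)ˣ)
      (fun l : (Icc 1 3 : Finset ℕ) => idS m (a l) (c l))
      (fun l x => red m (gn (a l) x) ^ (l : ℕ))
    refine (Nat.cast_le.mpr key).trans ?_
    rw [← hfin _ rfl]
    have hsum : ∀ f : ℕ → ℝ, ∑ i : (Icc 1 3 : Finset ℕ) × Bool, f (i.1 : ℕ) =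
        2 * (f 1 + f 2 + f 3) := by
      intro f
      rw [Fintype.sum_prod_type]
      simp only [Fintype.sum_bool]
      rw [Finset.sum_coe_sort (Icc 1 3) (fun l => f l + f l)]
      rw [show (Icc 1 3 : Finset ℕ) = {1, 2, 3} from rfl]
      rw [sum_insert (by decide), sum_insert (by decide), sum_singleton]
      ring
    refine (hold_exp _ _ (fun i : (Icc 1 3 : Finset ℕ) × Bool => if (i.1 : ℕ) = 1 then 2 else 4)
      (fun i => by split_ifs <;> norm_num) ?_
      (Real.log (3 * (C1 + C2 + C3 + C4 + C5)) + ε * L)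
      (fun i : (Icc 1 3 : Finset ℕ) × Bool => if (i.1 : ℕ) = 1 then
        max (2 * c 1) (4 * c 1 - μ)
        else max (4 * c i.1) (8 * c i.1 - μ)) ?_).trans (le_of_eq ?_)
    · rw [hsum (fun l => 1 / (2 * (((if l = 1 then 2 else 4 : ℕ)) : ℝ)))]
      norm_num
    · have hl : ∀ l : ℕ, l ∈ Icc 1 3 → (E1 (idS m (a l) (c l))
          (fun x => red m (gn (a l) x) ^ l) (if l = 1 then 2 else 4) : ℝ) ≤
          Real.exp ((Real.log (3 * (C1 + C2 + C3 + C4 + C5)) + ε * L) +
            (if l = 1 then max (2 * c 1) (4 * c 1 - μ) else max (4 * c l) (8 * c l - μ))) := by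
        intro l hl
        rw [mem_Icc] at hl
        have hl' : l = 1 ∨ l = 2 ∨ l = 3 := by omega
        rcases hl' with rfl | rfl | rfl
        · rw [if_pos rfl, if_pos rfl]
          have hh := h1 L (c 1) m (a 1) c1 cL1 hm hL ca1
          refine to_exp hC1 (by linarith) (by positivity) ?_ hh
          have e := two_exp (x := ((2 : ℕ) : ℝ) * c 1) hμ
          have e0 := Real.exp_pos (max (2 * c 1) (4 * c 1 - μ))
          have e1 : max (((2 : ℕ) : ℝ) * c 1) (2 * (((2 : ℕ) : ℝ) * c 1) - μ) =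
              max (2 * c 1) (4 * c 1 - μ) := by
            push_cast
            congr 1
            ring
          rw [e1] at e
          linarith
        · rw [if_neg (by norm_num), if_neg (by norm_num)]
          have hh := h2 L (c 2) m (a 2) c2 cL2 hm hL ca2
          refine to_exp hC2 (by linarith) (by positivity) ?_ hh
          have e := two_exp (x := ((4 : ℕ) : ℝ) * c 2) hμ
          have e0 := Real.exp_pos (max (4 * c 2) (8 * c 2 - μ))
          have e1 : max (((4 : ℕ) : ℝ) * c 2) (2 * (((4 : ℕ) : ℝ) * c 2) - μ) =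
              max (4 * c 2) (8 * c 2 - μ) := by
            push_cast
            congr 1
            ring
          rw [e1] at e
          linarith
        · rw [if_neg (by norm_num), if_neg (by norm_num)]
          have hh := h3 L (c 3) m (a 3) c3 cL3 hm hL ca3
          refine to_exp hC3 (by linarith) (by positivity) ?_ hh
          have e := two_exp (x := ((4 : ℕ) : ℝ) * c 3) hμ
          have e0 := Real.exp_pos (max (4 * c 3) (8 * c 3 - μ))
          have e1 : max (((4 : ℕ) : ℝ) * c 3) (2 * (((4 : ℕ) : ℝ) * c 3) - μ) =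
              max (4 * c 3) (8 * c 3 - μ) := by
            push_cast
            congr 1
            ring
          rw [e1] at e
          linarith
      rintro ⟨l, b⟩
      cases b
      · refine le_trans (le_of_eq ?_) (hl l l.2)
        rw [← E1_inv]
        rfl
      · exact hl l l.2
    · congr 2
      rw [hsum (fun l => (if l = 1 then max (2 * c 1) (4 * c 1 - μ)
        else max (4 * c l) (8 * c l - μ)) / (2 * (((if l = 1 then 2 else 4 : ℕ)) : ℝ)))]
      simp only [if_true, rSide]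
      norm_num
      ring

end AbcEM
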