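import Pool.Agent.Work.MP_a793bb_nt.EM.TDefs
import Pool.Agent.Work.MP_a793bb_nt.CountBlock

/-!
# The bounds H

Proof. Copy of `card_type_le` in `Types.lean` (there the exponent is `n + 1` with `n : Fin 3`, here `n : Fin 4`; `card_block_le` is for all exponents `i ≥ 1`; validity `okTl` is literally `Valid` with `n : Fin 4`, `hCost` is `cost` written out). `Blk2` contains the hypotheses of `Blk` (`hW` instead of `wt`). The factor `exp (20 η log (2Y)) ≥ 1` is not needed.
-/

set_option autoImplicit false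

namespace AbcEM

open Finset Pool.Agent.Work.MP_a793bb_nt Pool.Agent.Work.MP_a793bb_nt.BPlus NumberField
  IsDedekindDomain Height

/-- classes which are not selected -/
private noncomputable def cA (sel : Fin 3 → Fin 5 → Bool) (w : Fin 3 → Fin 5 → ℝ) : ℝ :=
  ∑ j, ∑ c, if sel j c = true then 0 else w j c

/-- classes which are selected -/
private noncomputable def cB (n : Fin 4) (u : Fin 3) (sel : Fin 3 → Fin 5 → Bool)
    (w : Fin 3 → Fin 5 → ℝ) : ℝ :=
  ∑ j, ∑ c, if sel j c = true then hcf n u j c * w j c else 0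

private theorem card_type_le4 (K : Type*) [Field K] [NumberField K] (n : Fin 4) (u : Fin 3)
    (sel : Fin 3 → Fin 5 → Bool) (hβ : okTl (.inl (n, u, sel))) {ε : ℝ} (hε : 0 < ε) :
    ∃ C : ℝ, 1 ≤ C ∧
    ∀ Y : ℝ, 1 ≤ Y → ∀ W : Fin 3 → Fin 5 → ℝ, ∀ F : Finset K, (∀ t ∈ F, Blk Y W t) →
      (F.card : ℝ) ≤ C * Y ^ ε * Real.exp (hCost n u sel W * Real.log (2 * Y)) := by
  classical
  set i : ℕ := (n : ℕ) + 1 with hi
  have hi1 : 1 ≤ i := by omega
  have hR : ∀ j, j ≠ u → ∀ e ∈ Eset (sel j), i ∣ e := by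
    intro j hj e he
    obtain ⟨h1, h2⟩ := hβ.1 j hj (cls e) he
    rcases Nat.eq_zero_or_pos e with h0 | h0
    · rw [h0]; exact dvd_zero _
    · have h3 : ((cls e : Fin 5) : ℕ) + 1 = e := by
        simp only [cls] at h1 ⊢
        omega
      rw [← h3]
      exact h2
  obtain ⟨C, hC, hcount⟩ := card_block_le K hi1 (Ra := Eset (sel (u + 1)))
    (Rb := Eset (sel (u + 2))) (Rc := Eset (sel u)) (hR _ (succ_ne u)) (hR _ (succ2_ne u)) hε
  refine ⟨C * 2, by linarith, fun Y hY W F hF => ?_⟩
  have hY0 : 0 < Y := by linarith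
  set L : ℝ := Real.log (2 * Y) with hL
  have hL0 : 0 < L := Real.log_pos (by linarith)
  have hLY : Real.log Y = L - Real.log 2 := by
    rw [hL, Real.log_mul (by norm_num) hY0.ne']
    ring
  rcases F.eq_empty_or_nonempty with hFe | hFne
  · rw [hFe]
    simp only [Finset.card_empty, Nat.cast_zero]
    positivity
  set F' : Finset K := F.image (sOf u) with hF'
  have hcardF : F'.card = F.card := by
    apply Finset.card_image_of_injOn
    intro t ht t' ht' h
    exact sOf_injective u (hF t ht).n1 (hF t' ht').n1 h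
  -- weights of the specified and of the unspecified classes
  set A : Fin 3 → ℝ := fun j => ∑ c : Fin 5, if sel j c = true then 0 else W j c with hA
  set B : Fin 3 → ℝ := fun j => ∑ c : Fin 5,
    if sel j c = true then ((c : ℕ) + 1 : ℝ) * W j c else 0 with hB
  have hAj : ∀ t ∈ F, ∀ j, LR (side j t) (Eset (sel j))ᶜ ≤ L * A j := by
    intro t ht j
    have hg := hF t ht
    rw [LR_Eset_compl (side_ne_zero hg.n0 hg.n1 j), hA, Finset.mul_sum]
    refine Finset.sum_le_sum fun c _ => ?_
    split_ifs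
    · simp
    · rw [mul_comm]
      exact hg.wt j c
  have hBj : ∀ t ∈ F, ∀ j, sel j 4 = false → LP (side j t) (Eset (sel j)) ≤ L * B j := by
    intro t ht j hj
    have hg := hF t ht
    refine (LP_Eset_le (side_ne_zero hg.n0 hg.n1 j) _ hj).trans ?_
    rw [hB, Finset.mul_sum]
    refine Finset.sum_le_sum fun c _ => ?_
    split_ifs
    · have h1 := hg.wt j c
      have h2 : (0 : ℝ) ≤ ((c : ℕ) : ℝ) + 1 := by positivity
      have h3 := mul_le_mul_of_nonneg_left h1 h2
      linarith
    · simp
  have hj4 : ∀ j, j ≠ u → sel j 4 = false := by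
    intro j hj
    by_contra hcon
    have h1 : sel j 4 = true := by simpa using hcon
    have h2 := (hβ.1 j hj 4 h1).1
    exact absurd h2 (by decide)
  have hcostA : cA sel W = A (u + 1) + A (u + 2) + A u := sum_rot A u
  have hcostB : cB n u sel W = (B (u + 1) + B (u + 2)) / i + B u := by
    unfold cB
    rw [sum_rot (fun j => ∑ c, if sel j c = true then hcf n u j c * W j c else 0) u]
    have hne : ∀ j, j ≠ u → (∑ c, if sel j c = true then hcf n u j c * W j c else 0) =
        B j / i := by
      intro j hj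
      rw [hB, Finset.sum_div]
      refine Finset.sum_congr rfl fun c _ => ?_
      split_ifs
      · rw [hcf, if_neg hj, hi]
        push_cast
        ring
      · simp
    have heq : (∑ c, if sel u c = true then hcf n u u c * W u c else 0) = B u := by
      rw [hB]
      refine Finset.sum_congr rfl fun c _ => ?_
      split_ifs
      · rw [hcf, if_pos rfl]
      · rfl
    simp only [hne _ (succ_ne u), hne _ (succ2_ne u), heq]
    ring
  have hnorm : ∀ (zc : ℝ), (∀ t ∈ F, LP (side u t) (Eset (sel u)) ≤ zc) →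
      (F.card : ℝ) ≤ C * Y ^ ε * Real.exp (L * A (u + 1) + L * A (u + 2) + L * A u +
        max 0 ((L * B (u + 1) + L * B (u + 2)) / i + zc - Real.log Y)) := by
    intro zc hzc
    rw [← hcardF]
    apply hcount Y _ _ _ _ _ _ hY F'
    · intro s hs
      rw [hF', Finset.mem_image] at hs
      obtain ⟨t, ht, rfl⟩ := hs
      have hg := hF t ht
      refine ⟨sOf_ne_zero hg.n0 hg.n1 u, one_add_sOf_ne_zero hg.n0 hg.n1 u, ?_, ?_, ?_, ?_, ?_⟩
      · rw [hs_sOf hg.n0 hg.n1]; exact hg.lo
      · rw [hs_sOf hg.n0 hg.n1]; exact hg.up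
      · rw [(sameNum_a hg.n0 hg.n1 u).LP_eq]
        exact hBj t ht _ (hj4 _ (succ_ne u))
      · rw [(sameNum_b hg.n0 hg.n1 u).LP_eq]
        exact hBj t ht _ (hj4 _ (succ2_ne u))
      · rw [(sameNum_c hg.n0 hg.n1 u).LP_eq]
        exact hzc t ht
    · intro s hs
      rw [hF', Finset.mem_image] at hs
      obtain ⟨t, ht, rfl⟩ := hs
      have hg := hF t ht
      refine ⟨?_, ?_, ?_⟩
      · rw [(sameNum_a hg.n0 hg.n1 u).LR_eq]
        exact hAj t ht _
      · rw [(sameNum_b hg.n0 hg.n1 u).LR_eq]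
        exact hAj t ht _
      · rw [(sameNum_c hg.n0 hg.n1 u).LR_eq]
        exact hAj t ht _
  have hlog2 : 0 < Real.log 2 := Real.log_pos (by norm_num)
  have hfinal : ∀ E : ℝ, E ≤ hCost n u sel W * L + Real.log 2 →
      C * Y ^ ε * Real.exp E ≤ C * 2 * Y ^ ε * Real.exp (hCost n u sel W * L) := by
    intro E hE
    have h1 : Real.exp E ≤ 2 * Real.exp (hCost n u sel W * L) := by
      calc Real.exp E ≤ Real.exp (hCost n u sel W * L + Real.log 2) := Real.exp_le_exp.mpr hE
        _ = 2 * Real.exp (hCost n u sel W * L) := by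
            rw [Real.exp_add, Real.exp_log (by norm_num)]
            ring
    have h2 : 0 ≤ C * Y ^ ε := by positivity
    calc C * Y ^ ε * Real.exp E ≤ C * Y ^ ε * (2 * Real.exp (hCost n u sel W * L)) :=
          mul_le_mul_of_nonneg_left h1 h2
      _ = C * 2 * Y ^ ε * Real.exp (hCost n u sel W * L) := by ring
  rcases hβ.2 with h4 | ⟨-, h5⟩
  · refine (hnorm (L * B u) (fun t ht => hBj t ht u h4)).trans (hfinal _ ?_)
    have e1 : (L * B (u + 1) + L * B (u + 2)) / i + L * B u - Real.log Y =
        L * (cB n u sel W - 1) + Real.log 2 := by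
      rw [hcostB, hLY]
      ring
    rw [e1]
    have e2 : max 0 (L * (cB n u sel W - 1) + Real.log 2) ≤
        L * max 0 (cB n u sel W - 1) + Real.log 2 := by
      apply max_le
      · have : 0 ≤ L * max 0 (cB n u sel W - 1) := mul_nonneg hL0.le (le_max_left _ _)
        linarith
      · have := mul_le_mul_of_nonneg_left (le_max_right 0 (cB n u sel W - 1)) hL0.le
        linarith
    show _ ≤ (cA sel W + max 0 (cB n u sel W - 1)) * L + Real.log 2
    rw [hcostA]
    nlinarith [e2]
  · have hB0 : ∀ j, j ≠ u → B j = 0 := by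
      intro j hj
      rw [hB]
      refine Finset.sum_eq_zero fun c _ => ?_
      rw [h5 j hj c]
      simp
    refine (hnorm L (fun t ht => ?_)).trans (hfinal _ ?_)
    · exact (LP_side_le (hF t ht).n0 (hF t ht).n1 u _).trans (hF t ht).up
    · rw [hB0 _ (succ_ne u), hB0 _ (succ2_ne u)]
      have e1 : (L * 0 + L * 0) / (i : ℝ) + L - Real.log Y = Real.log 2 := by
        rw [hLY]
        ring
      rw [e1, max_eq_right hlog2.le]
      show _ ≤ (cA sel W + max 0 (cB n u sel W - 1)) * L + Real.log 2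
      rw [hcostA]
      have := mul_nonneg (le_max_left 0 (cB n u sel W - 1)) hL0.le
      nlinarith

theorem tl_H (K : Type*) [Field K] [NumberField K] (n : Fin 4) (u : Fin 3)
    (sel : Fin 3 → Fin 5 → Bool) (h : okTl (.inl (n, u, sel))) :
    TlBound K (.inl (n, u, sel)) := by
  intro ε hε
  obtain ⟨C, hC, hb⟩ := card_type_le4 K n u sel h hε
  refine ⟨C, hC, fun Y hY W η hη F hF => ?_⟩
  have h1 := hb Y hY W F fun t ht => ⟨(hF t ht).n0, (hF t ht).n1, (hF t ht).lo, (hF t ht).up,
    (hF t ht).hW⟩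
  refine h1.trans ?_
  have hY0 : 0 < Y := by linarith
  have hL0 : 0 ≤ Real.log (2 * Y) := Real.log_nonneg (by linarith)
  refine mul_le_mul_of_nonneg_left (Real.exp_le_exp.mpr ?_) (by positivity)
  refine mul_le_mul_of_nonneg_right ?_ hL0
  show hCost n u sel W ≤ hCost n u sel W + 20 * η
  linarith

end AbcEM
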