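import Pool.Agent.Work.MP_a793bb_nt.EM.Dyad
import Pool.Agent.Work.MP_a793bb_nt.ExcMain

/-!
# The bound for all points

Proof. Copy of `card_of_LPH` (`Assemble.lean`) and `upper_of_LPH` (`ExcMain.lean`) with `card_dyadic` instead of `card_dyadic_le`.
-/

set_option autoImplicit false

namespace AbcEM

open Finset Pool.Agent.Work.MP_a793bb_nt Pool.Agent.Work.MP_a793bb_nt.BPlus NumberField
  IsDedekindDomain Height

private theorem card_of_LPT (K : Type*) [Field K] [NumberField K] {Λ κ : ℝ} (hΛ : 0 ≤ Λ)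
    (hκ : 0 ≤ κ) (hLP : LPT Λ κ) {ε : ℝ} (hε : 0 < ε) :
    ∃ C : ℝ, 1 ≤ C ∧ ∀ X : ℝ, 1 ≤ X → ∀ F : Finset K,
      (∀ t ∈ F, t ≠ 0 ∧ t ≠ 1 ∧ hh t ≤ Real.log X ∧ Rs (Ip t) ≤ Λ * hh t) →
      (F.card : ℝ) ≤ C * X ^ (κ + ε) := by
  classical
  have hε3 : 0 < ε / 3 := by linarith
  obtain ⟨C₁, hC₁, hdy⟩ := card_dyadic K hLP hε3
  obtain ⟨C₂, hC₂, hlog⟩ := one_add_log_pow_le hε3 1
  have hp2 : (1 : ℝ) ≤ 2 ^ (κ + ε / 3) := Real.one_le_rpow (by norm_num) (by linarith)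
  refine ⟨C₁ * C₂ * 2 ^ (κ + ε / 3), one_le_mul_of_one_le_of_one_le
    (one_le_mul_of_one_le_of_one_le hC₁ hC₂) hp2, fun X hX F hF => ?_⟩
  have hX0 : 0 < X := by linarith
  have hl2 : 0 < Real.log 2 := Real.log_pos (by norm_num)
  have hlX : 0 ≤ Real.log X := Real.log_nonneg hX
  set k : K → ℕ := fun t => ⌊hh t / Real.log 2⌋₊ with hk
  set K₀ : ℕ := ⌊Real.log X / Real.log 2⌋₊ with hK₀
  set Bd : ℝ := C₁ * X ^ (ε / 3) * (2 * X) ^ (κ + ε / 3) with hBd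
  have hBd0 : 0 ≤ Bd := by positivity
  have hmaps : ∀ t ∈ F, k t ∈ Finset.range (K₀ + 1) := by
    intro t ht
    rw [Finset.mem_range, Nat.lt_succ_iff]
    exact Nat.floor_le_floor (div_le_div_of_nonneg_right (hF t ht).2.2.1 hl2.le)
  have hfib : ∀ n ∈ Finset.range (K₀ + 1), (F.filter (fun t => k t = n)).card ≤ ⌊Bd⌋₊ := by
    intro n hn
    rw [Finset.mem_range, Nat.lt_succ_iff] at hn
    apply Nat.le_floor
    set Y : ℝ := 2 ^ n with hY
    have hY1 : 1 ≤ Y := one_le_pow₀ (by norm_num)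
    have hY0 : 0 < Y := by linarith
    have hlY : Real.log Y = n * Real.log 2 := by rw [hY, Real.log_pow]
    have hYX : Y ≤ X := by
      rw [← Real.log_le_log_iff hY0 hX0, hlY]
      have h1 : (n : ℝ) ≤ Real.log X / Real.log 2 := by
        have h2 : (n : ℝ) ≤ (K₀ : ℝ) := by exact_mod_cast hn
        exact h2.trans (Nat.floor_le (div_nonneg hlX hl2.le))
      rwa [le_div_iff₀ hl2] at h1
    have h1 := hdy Y hY1 (F.filter (fun t => k t = n)) (by
      intro t ht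
      rw [Finset.mem_filter] at ht
      obtain ⟨ht, hkt⟩ := ht
      obtain ⟨h0, h1, hX', hrad⟩ := hF t ht
      have h2 : (n : ℝ) ≤ hh t / Real.log 2 := by
        rw [← hkt]
        exact Nat.floor_le (div_nonneg (hh_nonneg t) hl2.le)
      have h3 : hh t / Real.log 2 < n + 1 := by
        rw [← hkt]
        exact Nat.lt_floor_add_one _
      rw [le_div_iff₀ hl2] at h2
      rw [div_lt_iff₀ hl2] at h3
      have h4 : hh t ≤ Real.log (2 * Y) := by
        rw [Real.log_mul (by norm_num) hY0.ne', hlY]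
        linarith
      refine ⟨h0, h1, by rw [hlY]; exact h2, h4, hrad.trans ?_⟩
      exact mul_le_mul_of_nonneg_left h4 hΛ)
    refine h1.trans ?_
    rw [hBd]
    have h2 : Real.exp ((κ + ε / 3) * Real.log (2 * Y)) = (2 * Y) ^ (κ + ε / 3) := by
      rw [Real.rpow_def_of_pos (by linarith), mul_comm]
    rw [h2]
    have h3 : Y ^ (ε / 3) ≤ X ^ (ε / 3) := Real.rpow_le_rpow hY0.le hYX hε3.le
    have h4 : (2 * Y) ^ (κ + ε / 3) ≤ (2 * X) ^ (κ + ε / 3) :=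
      Real.rpow_le_rpow (by linarith) (by linarith) (by linarith)
    gcongr
  have hcard := Finset.card_le_mul_card_image_of_maps_to hmaps ⌊Bd⌋₊ hfib
  have hK₀le : ((K₀ + 1 : ℕ) : ℝ) ≤ C₂ * X ^ (ε / 3) := by
    refine le_trans ?_ (hlog X hX)
    rw [pow_one]
    push_cast
    have h1 : (K₀ : ℝ) ≤ Real.log X / Real.log 2 := Nat.floor_le (div_nonneg hlX hl2.le)
    have h2 : Real.log X / Real.log 2 ≤ 2 * Real.log X := by
      rw [div_le_iff₀ hl2]
      have := Real.log_two_gt_d9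
      nlinarith
    linarith
  have h7 : X ^ (ε / 3) * X ^ (ε / 3) * X ^ (κ + ε / 3) = X ^ (κ + ε) := by
    rw [← Real.rpow_add hX0, ← Real.rpow_add hX0]
    congr 1
    ring
  calc (F.card : ℝ) ≤ ((⌊Bd⌋₊ * (Finset.range (K₀ + 1)).card : ℕ) : ℝ) := by exact_mod_cast hcard
    _ = (⌊Bd⌋₊ : ℝ) * ((K₀ + 1 : ℕ) : ℝ) := by rw [Finset.card_range]; push_cast; ring
    _ ≤ Bd * (C₂ * X ^ (ε / 3)) := by
        have := Nat.floor_le hBd0
        gcongr
    _ = C₁ * C₂ * 2 ^ (κ + ε / 3) * X ^ (κ + ε) := by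
        rw [hBd, Real.mul_rpow (by norm_num) hX0.le, ← h7]
        ring

theorem upper_of_LPT (K : Type*) [Field K] [NumberField K] {lam Λ κ : ℝ} (hlam : lam ≤ Λ)
    (hΛ : 0 ≤ Λ) (hκ : 0 ≤ κ) (hLP : LPT Λ κ) {δ : ℝ} (hδ : 0 < δ) :
    ∃ C : ℝ, ∀ B : ℝ, 0 ≤ B → ((excPts K lam B).ncard : ℝ) ≤
      C * Real.exp ((κ + δ) * (Module.finrank ℚ K : ℝ) * B) := by
  obtain ⟨C, -, hC⟩ := card_of_LPT K hΛ hκ hLP hδ
  refine ⟨C, fun B hB => ?_⟩
  set X : ℝ := Real.exp ((Module.finrank ℚ K : ℝ) * B) with hX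
  have hd0 : (0 : ℝ) < (Module.finrank ℚ K : ℝ) := finrank_pos'
  have hX1 : 1 ≤ X := Real.one_le_exp (by positivity)
  have hfin := finite_excSet (K := K) lam X
  have h1 := hC X hX1 hfin.toFinset (by
    intro t ht
    rw [Set.Finite.mem_toFinset] at ht
    obtain ⟨h0, h1, h2, h3⟩ := ht
    have hm : 0 < mulHeight ![t, 1 - t, -1] := mulHeight_pos _
    refine ⟨h0, h1, Real.log_le_log hm h2, ?_⟩
    rw [Real.rpow_def_of_pos hm, Real.exp_le_exp] at h3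
    refine h3.trans ?_
    have h4 : 0 ≤ hh t := hh_nonneg t
    have h5 : Real.log (mulHeight ![t, 1 - t, -1]) = hh t := rfl
    rw [h5, mul_comm]
    exact mul_le_mul_of_nonneg_right hlam h4)
  rw [ncard_excPts, Set.ncard_eq_toFinset_card _ hfin]
  refine h1.trans (le_of_eq ?_)
  rw [hX, ← Real.exp_mul]
  congr 2
  ring

end AbcEM
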