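import Pool.Agent.Work.MP_a793bb_nt.EM.Tot
import Pool.Agent.Work.MP_a793bb_nt.EM.LPG
import Pool.Agent.Work.MP_a793bb_nt.EM.FDefs
import Pool.Agent.Work.MP_a793bb_nt.ExcFinal

/-!
# The upper bound
-/

set_option autoImplicit false

namespace AbcEM

open Finset Pool.Agent.Work.MP_a793bb_nt Pool.Agent.Work.MP_a793bb_nt.BPlus NumberField
  IsDedekindDomain Height

theorem upG_nonneg {lam : ℝ} (h0 : 0 ≤ lam) (h2 : lam ≤ 2) : 0 ≤ upG lam := by
  have h := upG_mono le_rfl h0 h2
  have h1 : upG 0 = 0 := by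
    rw [upG, if_pos (by norm_num)]
    norm_num
  rwa [h1] at h

theorem excExp_of_le {lam : ℝ} (h2 : lam ≤ 2) : excExp lam = upG lam := by
  unfold excExp upG
  split_ifs <;> rfl

theorem excExp_of_gt {lam : ℝ} (h2 : 2 < lam) : excExp lam = lam - 1 := by
  unfold excExp
  rw [if_neg (by linarith), if_neg (by linarith), if_neg (by linarith), if_neg (by linarith),
    if_neg (by linarith), if_neg (by linarith)]

theorem upper_new (K : Type*) [Field K] [NumberField K] {lam : ℝ} (h0 : 0 ≤ lam)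
    {δ : ℝ} (hδ : 0 < δ) : ∃ C : ℝ, ∀ B : ℝ, 0 ≤ B → ((excPts K lam B).ncard : ℝ) ≤
      C * Real.exp ((excExp lam + δ) * (Module.finrank ℚ K : ℝ) * B) := by
  rcases le_or_gt lam 2 with h2 | h2
  · rw [excExp_of_le h2]
    exact upper_of_LPT K le_rfl h0 (upG_nonneg h0 h2) (lpt_upG h0 h2) hδ
  · rw [excExp_of_gt h2]
    exact upper_of_LPH K le_rfl (by linarith) (by linarith) (lph_ge_two h2.le) hδ

end AbcEM
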